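import Mathlib
open MeasureTheory Set Filter Topology Metric
open scoped RealInnerProductSpace BigOperators ENNReal

namespace Pool.Agent.Helper557.TFP
abbrev E3 := EuclideanSpace ℝ (Fin 3)

/-- integrable, `L^{5/3}` and measurable -/
def Nice (g : E3 → ℝ) : Prop :=
  Measurable g ∧ Integrable g ∧ Integrable (fun x => |g x| ^ (5/3 : ℝ))

/-- admissible densities -/
def Adm (ρ : E3 → ℝ) : Prop :=
  Measurable ρ ∧ (∀ x, 0 ≤ ρ x) ∧ Integrable ρ ∧ Integrable (fun x => ρ x ^ (5/3 : ℝ))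

/-- the Coulomb potential of a density -/
noncomputable def pot (g : E3 → ℝ) (x : E3) : ℝ := ∫ y, g y / ‖x - y‖

/-- the Thomas-Fermi functional -/
noncomputable def xi {k : ℕ} (z : Fin k → ℝ) (R : Fin k → E3) (ρ : E3 → ℝ) : ℝ :=
  3/5 * (∫ x, ρ x ^ (5/3 : ℝ)) - (∫ x, (∑ j, z j / ‖x - R j‖) * ρ x)
    + 1/2 * (∫ x, ∫ y, ρ x * ρ y / ‖x - y‖)
    + ∑ i, ∑ j ∈ Finset.Ioi i, z i * z j / ‖R i - R j‖

/-- the Thomas-Fermi energy -/
noncomputable def en {k : ℕ} (z : Fin k → ℝ) (R : Fin k → E3) (lam : ℝ) : ℝ :=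
  sInf {E | ∃ ρ, Adm ρ ∧ ∫ x, ρ x = lam ∧ xi z R ρ = E}

/-- reflection in the plane `⟪n, x⟫ = t` -/
noncomputable def refl (n : E3) (t : ℝ) (x : E3) : E3 := x - (2 * (⟪n, x⟫ - t)) • n

/-- `b(x) = a (1/|x-p| - 1/|x - σ p|)` -/
noncomputable def bfun (n : E3) (t a : ℝ) (p : E3) (x : E3) : ℝ :=
  a * (1 / ‖x - p‖ - 1 / ‖x - refl n t p‖)

/-- the comparison function -/
noncomputable def Cf (n : E3) (t a : ℝ) (p : E3) (w δ : E3 → ℝ) (x : E3) : ℝ :=
  bfun n t a p x - pot (fun y => w y * δ y) x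


/-! ### newton_ball -/
section
abbrev E2v := EuclideanSpace ℝ (Fin 2)

lemma I1 (c ρ : ℝ) (hρ : 0 ≤ ρ) :
    IntegrableOn (fun y : ℝ => y * (1/√(c^2+y^2))) (Ioc 0 ρ) ∧
    ∫ y in (0:ℝ)..ρ, y * (1/√(c^2+y^2)) = √(c^2+ρ^2) - |c| := by
  have hc : ContinuousOn (fun y : ℝ => √(c^2+y^2)) (Icc 0 ρ) := by
    apply Continuous.continuousOn; fun_prop
  have hd : ∀ x ∈ Ioo (0:ℝ) ρ, HasDerivAt (fun y : ℝ => √(c^2+y^2)) (x * (1/√(c^2+x^2))) x := by
    intro x hx
    have h0 : c^2+x^2 ≠ 0 := by have := hx.1; positivity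
    have h1 : HasDerivAt (fun y : ℝ => c^2+y^2) (2*x) x := by
      simpa using ((hasDerivAt_pow 2 x).const_add (c^2))
    have := h1.sqrt h0
    convert this using 1
    field_simp
  have hi : IntegrableOn (fun y : ℝ => y * (1/√(c^2+y^2))) (Ioc 0 ρ) := by
    apply intervalIntegral.integrableOn_deriv_of_nonneg hc hd
    intro x hx
    have := hx.1
    positivity
  refine ⟨hi, ?_⟩
  rw [intervalIntegral.integral_eq_sub_of_hasDerivAt_of_le hρ hc hd
    ((intervalIntegrable_iff_integrableOn_Ioc_of_le hρ).2 hi)]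
  simp [Real.sqrt_sq_eq_abs]

lemma I2 (c ρ : ℝ) (hρ : 0 ≤ ρ) :
    Integrable (fun v : E2v => (Iio ρ).indicator (fun r : ℝ => 1/√(c^2+r^2)) ‖v‖) ∧
    ∫ v : E2v, (Iio ρ).indicator (fun r : ℝ => 1/√(c^2+r^2)) ‖v‖ = 2 * Real.pi * (√(c^2+ρ^2) - |c|) := by
  obtain ⟨hi, hv⟩ := I1 c ρ hρ
  have hfun : ∀ y : ℝ, y ^ (Module.finrank ℝ E2v - 1) • (Iio ρ).indicator (fun r : ℝ => 1/√(c^2+r^2)) y
      = (Iio ρ).indicator (fun y : ℝ => y * (1/√(c^2+y^2))) y := by
    intro y
    have : Module.finrank ℝ E2v = 2 := by simp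
    rw [this]
    by_cases hy : y ∈ Iio ρ
    · simp only [indicator_of_mem hy]; simp
    · simp only [indicator_of_notMem hy]; simp
  have hsub : Ioi (0:ℝ) ∩ Iio ρ = Ioo 0 ρ := by ext; simp
  constructor
  · rw [integrable_fun_norm_addHaar (μ := (volume : Measure E2v))]
    simp only [hfun]
    rw [integrableOn_indicator_iff measurableSet_Iio, inter_comm, hsub]
    exact hi.mono_set Ioo_subset_Ioc_self
  · rw [integral_fun_norm_addHaar (volume : Measure E2v)]
    simp only [hfun]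
    rw [setIntegral_indicator measurableSet_Iio, hsub, ← integral_Ioc_eq_integral_Ioo,
      ← intervalIntegral.integral_of_le hρ, hv]
    have h1 : (volume : Measure E2v).real (ball 0 1) = Real.pi := by
      rw [Measure.real, EuclideanSpace.volume_ball_fin_two]
      simp [Real.pi_nonneg]
    rw [h1]
    simp
    ring

noncomputable def eqv : E3 ≃ᵐ ℝ × E2v :=
  (MeasurableEquiv.toLp 2 (Fin 3 → ℝ)).symm.trans
    ((MeasurableEquiv.piFinSuccAbove (fun _ => ℝ) 0).trans
      ((MeasurableEquiv.refl ℝ).prodCongr (MeasurableEquiv.toLp 2 (Fin 2 → ℝ))))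

lemma eqv_mp : MeasurePreserving eqv := by
  have h1 := PiLp.volume_preserving_ofLp (Fin 3)
  have h2 := volume_preserving_piFinSuccAbove (fun _ : Fin 3 => ℝ) 0
  have h3 := (MeasurePreserving.id (volume : Measure ℝ)).prod (PiLp.volume_preserving_toLp (Fin 2))
  exact h3.comp (h2.comp h1)

lemma eqv_fst (x : E3) : (eqv x).1 = x 0 := rfl

lemma eqv_norm (x : E3) : ‖x‖^2 = (eqv x).1^2 + ‖(eqv x).2‖^2 := by
  rw [EuclideanSpace.norm_sq_eq, EuclideanSpace.norm_sq_eq]
  rw [Fin.sum_univ_succ]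
  simp only [Real.norm_eq_abs, sq_abs]
  rfl

lemma eqv_norm_sub (x : E3) (a : ℝ) :
    ‖x - EuclideanSpace.single 0 a‖^2 = ((eqv x).1 - a)^2 + ‖(eqv x).2‖^2 := by
  rw [EuclideanSpace.norm_sq_eq, EuclideanSpace.norm_sq_eq]
  rw [Fin.sum_univ_succ]
  simp only [Real.norm_eq_abs, sq_abs]
  congr 1
  simp
  rfl

/-- the slice function -/
noncomputable def FF (a s : ℝ) (p : ℝ × E2v) : ℝ :=
  (Iio √(s^2 - p.1^2)).indicator (fun r : ℝ => 1/√((p.1 - a)^2+r^2)) ‖p.2‖

lemma FF_eq (a s : ℝ) (hs : 0 < s) (x : E3) :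
    (ball (0:E3) s).indicator (fun x => 1 / ‖x - EuclideanSpace.single 0 a‖) x = FF a s (eqv x) := by
  have h1 : x ∈ ball (0:E3) s ↔ ‖(eqv x).2‖ ∈ Iio √(s^2 - (eqv x).1^2) := by
    rw [mem_ball_zero_iff, mem_Iio, Real.lt_sqrt (norm_nonneg _)]
    have := eqv_norm x
    rw [← sq_lt_sq₀ (norm_nonneg _) hs.le]
    constructor <;> intro h <;> linarith
  unfold FF
  by_cases hx : x ∈ ball (0:E3) s
  · rw [indicator_of_mem hx, indicator_of_mem (h1.1 hx), ← eqv_norm_sub, Real.sqrt_sq (norm_nonneg _)]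
  · rw [indicator_of_notMem hx, indicator_of_notMem (fun h => hx (h1.2 h))]

lemma FF_meas (a s : ℝ) : Measurable (FF a s) := by
  have : FF a s = {p : ℝ × E2v | ‖p.2‖ < √(s^2 - p.1^2)}.indicator
      (fun p : ℝ × E2v => 1/√((p.1 - a)^2+‖p.2‖^2)) := by
    funext p
    unfold FF
    by_cases h : ‖p.2‖ < √(s^2 - p.1^2)
    · rw [indicator_of_mem (show ‖p.2‖ ∈ Iio √(s^2 - p.1^2) from h), indicator_of_mem (show p ∈ {p : ℝ × E2v | ‖p.2‖ < √(s^2 - p.1^2)} from h)]
    · rw [indicator_of_notMem (show ‖p.2‖ ∉ Iio √(s^2 - p.1^2) from h), indicator_of_notMem (show p ∉ {p : ℝ × E2v | ‖p.2‖ < √(s^2 - p.1^2)} from h)]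
  rw [this]
  apply Measurable.indicator
  · fun_prop
  · apply measurableSet_lt <;> fun_prop

lemma FF_nonneg (a s : ℝ) (p : ℝ × E2v) : 0 ≤ FF a s p := by
  unfold FF
  apply indicator_nonneg
  intro r _
  positivity

lemma inner_val (a s z : ℝ) (hs : 0 < s) :
    2 * Real.pi * (√((z-a)^2+√(s^2 - z^2)^2) - |z-a|) =
      (Ioc (-s) s).indicator (fun z => 2 * Real.pi * (√(s^2+a^2-2*a*z) - |z-a|)) z := by
  by_cases hz : z ∈ Ioc (-s) s
  · rw [indicator_of_mem hz]
    have : 0 ≤ s^2 - z^2 := by nlinarith [hz.1, hz.2]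
    rw [Real.sq_sqrt this]
    congr 3
    ring_nf
  · rw [indicator_of_notMem hz]
    have : s^2 - z^2 ≤ 0 := by
      by_contra h
      push Not at h
      apply hz
      have h2 : |z| < s := by
        rw [← sq_lt_sq₀ (abs_nonneg _) hs.le, sq_abs]; linarith
      rw [abs_lt] at h2
      exact ⟨h2.1, h2.2.le⟩
    rw [Real.sqrt_eq_zero_of_nonpos this]
    simp [Real.sqrt_sq_eq_abs]

lemma FF_int (a s : ℝ) (hs : 0 < s) :
    Integrable (FF a s) (volume.prod volume) ∧
    ∫ p, FF a s p ∂(volume.prod volume) = ∫ z in (-s)..s, 2 * Real.pi * (√(s^2+a^2-2*a*z) - |z-a|) := by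
  have hin : ∀ z : ℝ, Integrable (fun v : E2v => FF a s (z, v)) ∧ ∫ v : E2v, FF a s (z, v) =
      (Ioc (-s) s).indicator (fun z => 2 * Real.pi * (√(s^2+a^2-2*a*z) - |z-a|)) z := by
    intro z
    have := I2 (z-a) (√(s^2 - z^2)) (Real.sqrt_nonneg _)
    refine ⟨this.1, ?_⟩
    rw [← inner_val a s z hs]
    exact this.2
  have hle : -s ≤ s := by linarith
  have hint : Integrable (FF a s) (volume.prod volume) := by
    rw [integrable_prod_iff (FF_meas a s).aestronglyMeasurable]
    refine ⟨Eventually.of_forall fun z => (hin z).1, ?_⟩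
    have : (fun z : ℝ => ∫ v : E2v, ‖FF a s (z, v)‖) =
        (Ioc (-s) s).indicator (fun z => 2 * Real.pi * (√(s^2+a^2-2*a*z) - |z-a|)) := by
      funext z
      rw [← (hin z).2]
      congr 1
      funext v
      exact Real.norm_of_nonneg (FF_nonneg _ _ _)
    rw [this, integrable_indicator_iff measurableSet_Ioc]
    apply IntegrableOn.mono_set _ Ioc_subset_Icc_self
    apply Continuous.integrableOn_Icc
    fun_prop
  refine ⟨hint, ?_⟩
  rw [integral_prod _ hint]
  simp only [fun z => (hin z).2]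
  rw [integral_indicator measurableSet_Ioc, intervalIntegral.integral_of_le hle]

lemma A_val (a s : ℝ) (hs : 0 < s) (ha : 0 < a) :
    ∫ z in (-s)..s, √(s^2+a^2-2*a*z) = ((s+a)^3 - |s-a|^3)/(3*a) := by
  have hle : -s ≤ s := by linarith
  have hc : ContinuousOn (fun z : ℝ => -((s^2+a^2-2*a*z) * √(s^2+a^2-2*a*z))/(3*a)) (Icc (-s) s) := by
    apply Continuous.continuousOn; fun_prop
  have hd : ∀ x ∈ Ioo (-s) s, HasDerivAt (fun z : ℝ => -((s^2+a^2-2*a*z) * √(s^2+a^2-2*a*z))/(3*a))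
      (√(s^2+a^2-2*a*x)) x := by
    intro x hx
    have hw : 0 < s^2+a^2-2*a*x := by nlinarith [hx.2, mul_pos ha (sub_pos.2 hx.2), sq_nonneg (s-a)]
    have h1 : HasDerivAt (fun y : ℝ => s^2+a^2-2*a*y) (-(2*a)) x := by
      simpa using ((hasDerivAt_id x).const_mul (2*a)).const_sub (s^2+a^2)
    have h2 := ((h1.mul (h1.sqrt hw.ne')).neg).div_const (3*a)
    refine h2.congr_deriv ?_
    have h3 : √(s^2+a^2-2*a*x) ≠ 0 := (Real.sqrt_pos.2 hw).ne'
    have h4 := Real.sq_sqrt hw.le
    generalize √(s^2+a^2-2*a*x) = t at h3 h4 ⊢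
    rw [← h4]
    field_simp
    ring
  rw [intervalIntegral.integral_eq_sub_of_hasDerivAt_of_le hle hc hd
    ((Continuous.intervalIntegrable (by fun_prop) _ _))]
  have e1 : s^2+a^2-2*a*s = (s-a)^2 := by ring
  have e2 : s^2+a^2-2*a*(-s) = (s+a)^2 := by ring
  rw [e1, e2, Real.sqrt_sq_eq_abs, Real.sqrt_sq (by positivity), ← sq_abs (s-a)]
  ring

lemma B_val1 (a s : ℝ) (hs : 0 < s) (ha : s ≤ a) :
    ∫ z in (-s)..s, |z-a| = 2*a*s := by
  have hle : -s ≤ s := by linarith
  have : ∫ z in (-s)..s, |z-a| = ∫ z in (-s)..s, (a - z) := by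
    apply intervalIntegral.integral_congr
    intro z hz
    rw [uIcc_of_le hle] at hz
    simp only
    rw [abs_of_nonpos (by linarith [hz.2])]
    ring
  rw [this, intervalIntegral.integral_sub (by simp) (by simp)]
  simp
  ring

lemma B_val2 (a s : ℝ) (hs : 0 < s) (ha0 : 0 ≤ a) (ha : a ≤ s) :
    ∫ z in (-s)..s, |z-a| = s^2+a^2 := by
  have hle1 : -s ≤ a := by linarith
  have h1 : ∫ z in (-s)..a, |z-a| = ∫ z in (-s)..a, (a - z) := by
    apply intervalIntegral.integral_congr
    intro z hz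
    rw [uIcc_of_le hle1] at hz
    simp only
    rw [abs_of_nonpos (by linarith [hz.2])]
    ring
  have h2 : ∫ z in a..s, |z-a| = ∫ z in a..s, (z - a) := by
    apply intervalIntegral.integral_congr
    intro z hz
    rw [uIcc_of_le ha] at hz
    simp only
    rw [abs_of_nonneg (by linarith [hz.1])]
  rw [← intervalIntegral.integral_add_adjacent_intervals (a := -s) (b := a) (c := s)
    (Continuous.intervalIntegrable (by fun_prop) _ _) (Continuous.intervalIntegrable (by fun_prop) _ _),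
    h1, h2, intervalIntegral.integral_sub (by simp) (by simp), intervalIntegral.integral_sub (by simp) (by simp)]
  simp
  ring

lemma tot (a s : ℝ) (hs : 0 < s) :
    ∫ z in (-s)..s, 2 * Real.pi * (√(s^2+a^2-2*a*z) - |z-a|) =
    2 * Real.pi * ((∫ z in (-s)..s, √(s^2+a^2-2*a*z)) - ∫ z in (-s)..s, |z-a|) := by
  rw [intervalIntegral.integral_const_mul, intervalIntegral.integral_sub
    (Continuous.intervalIntegrable (by fun_prop) _ _) (Continuous.intervalIntegrable (by fun_prop) _ _)]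

lemma centered (a s : ℝ) (hs : 0 < s) (ha0 : 0 ≤ a) :
    IntegrableOn (fun x : E3 => 1 / ‖x - EuclideanSpace.single 0 a‖) (ball 0 s) ∧
    (s ≤ a → ∫ x in ball (0:E3) s, 1 / ‖x - EuclideanSpace.single 0 a‖ = (4/3*Real.pi*s^3) / a) ∧
    (0 < a → ∫ x in ball (0:E3) s, 1 / ‖x - EuclideanSpace.single 0 a‖ ≤ (4/3*Real.pi*s^3) / a) := by
  obtain ⟨hi, hv⟩ := FF_int a s hs
  have hval : ∫ x in ball (0:E3) s, 1 / ‖x - EuclideanSpace.single 0 a‖ =
      2 * Real.pi * ((∫ z in (-s)..s, √(s^2+a^2-2*a*z)) - ∫ z in (-s)..s, |z-a|) := by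
    rw [← integral_indicator measurableSet_ball]
    simp only [FF_eq a s hs]
    rw [← tot a s hs, ← hv]
    exact eqv_mp.integral_comp eqv.measurableEmbedding (FF a s)
  have hpi := Real.pi_pos
  refine ⟨?_, ?_, ?_⟩
  · rw [← integrable_indicator_iff measurableSet_ball]
    have : (ball (0:E3) s).indicator (fun x => 1 / ‖x - EuclideanSpace.single 0 a‖) = FF a s ∘ eqv := by
      funext x; exact FF_eq a s hs x
    rw [this]
    exact (eqv_mp.integrable_comp_emb eqv.measurableEmbedding).2 hi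
  · intro h
    have ha : 0 < a := by linarith
    rw [hval, A_val a s hs ha, B_val1 a s hs h, abs_of_nonpos (by linarith)]
    field_simp
    ring
  · intro ha
    rw [hval, A_val a s hs ha]
    rcases le_total a s with h | h
    · rw [B_val2 a s hs ha.le h, abs_of_nonneg (by linarith), le_div_iff₀ ha]
      have e : 2 * Real.pi * (((s + a) ^ 3 - (s - a) ^ 3) / (3 * a) - (s ^ 2 + a ^ 2)) * a =
        2 * Real.pi * ((3 * s^2 * a - a^3) / 3) := by
        field_simp
        ring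
      rw [e]
      have h2 : 3 * s^2 * a - a^3 ≤ 2 * s^3 := by
        nlinarith [mul_nonneg (sq_nonneg (s-a)) (by linarith : 0 ≤ 2*s+a)]
      nlinarith
    · apply le_of_eq
      rw [B_val1 a s hs h, abs_of_nonpos (by linarith)]
      field_simp
      ring

/-- Newton's theorem: the average of the Coulomb kernel over a ball. -/
theorem newton_ball (x0 y : E3) (s : ℝ) (hs : 0 < s) :
    IntegrableOn (fun x : E3 => 1 / ‖x - y‖) (ball x0 s) ∧
    (s ≤ ‖x0 - y‖ → ∫ x in ball x0 s, 1 / ‖x - y‖ = (volume (ball x0 s)).toReal / ‖x0 - y‖) ∧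
    (y ≠ x0 → ∫ x in ball x0 s, 1 / ‖x - y‖ ≤ (volume (ball x0 s)).toReal / ‖x0 - y‖) := by
  set a := ‖x0 - y‖ with ha
  have ha0 : 0 ≤ a := norm_nonneg _
  have hn : ‖y - x0‖ = ‖(EuclideanSpace.single 0 a : E3)‖ := by
    rw [EuclideanSpace.norm_single, norm_sub_rev, Real.norm_of_nonneg ha0]
  set L : E3 ≃ₗᵢ[ℝ] E3 := Submodule.reflection (Submodule.span ℝ {(y - x0) - (EuclideanSpace.single 0 a : E3)})ᗮ with hL
  have hLy : L (y - x0) = EuclideanSpace.single 0 a := Submodule.reflection_sub hn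
  -- the map x ↦ L (x - x0)
  let T : E3 ≃ᵢ E3 := (IsometryEquiv.subRight x0).trans L.toIsometryEquiv
  have hT : ∀ x, T x = L (x - x0) := fun x => rfl
  have hTm : MeasurePreserving (fun x : E3 => L (x - x0)) := by
    exact L.measurePreserving.comp (measurePreserving_sub_right volume x0)
  have hTe : MeasurableEmbedding (fun x : E3 => L (x - x0)) :=
    T.toHomeomorph.measurableEmbedding
  have hpre : (fun x : E3 => L (x - x0)) ⁻¹' (ball 0 s) = ball x0 s := by
    ext x
    rw [mem_preimage, mem_ball_zero_iff, LinearIsometryEquiv.norm_map, mem_ball, dist_eq_norm]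
  have hf : ∀ x : E3, 1 / ‖x - y‖ = 1 / ‖L (x - x0) - EuclideanSpace.single 0 a‖ := by
    intro x
    rw [← hLy, ← map_sub, LinearIsometryEquiv.norm_map]
    congr 2
    abel
  have hvol : (volume (ball x0 s)).toReal = 4/3*Real.pi*s^3 := by
    rw [EuclideanSpace.volume_ball_fin_three]
    rw [← ENNReal.ofReal_pow hs.le, ← ENNReal.ofReal_mul (by positivity), ENNReal.toReal_ofReal (by positivity)]
    ring
  obtain ⟨c1, c2, c3⟩ := centered a s hs ha0
  have hint : ∫ x in ball x0 s, 1 / ‖x - y‖ = ∫ x in ball (0:E3) s, 1 / ‖x - EuclideanSpace.single 0 a‖ := by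
    simp only [hf]
    rw [← hpre]
    exact hTm.setIntegral_preimage_emb hTe (fun x => 1 / ‖x - EuclideanSpace.single 0 a‖) _
  rw [hint, hvol]
  refine ⟨?_, c2, ?_⟩
  · simp only [hf]
    rw [← hpre]
    exact (hTm.integrableOn_comp_preimage hTe).2 c1
  · intro hne
    apply c3
    rw [ha]
    exact norm_pos_iff.2 (sub_ne_zero.2 hne.symm)
end


/-! ### nice_bound -/
section
-- ===== TARGET =====
theorem TF_nice_bound_ker :
    Integrable (Set.indicator (ball (0:E3) 1) (fun u : E3 => ‖u‖ ^ (-(5/2) : ℝ))) := by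
  have h2 : IntegrableOn (fun x : E3 => ‖x‖ ^ (-(5/2) : ℝ)) (ball 0 1) := by
    rw [integrableOn_fun_norm_addHaar (volume : Measure E3) (f := fun r : ℝ => r ^ (-(5/2) : ℝ))]
    rw [finrank_euclideanSpace_fin]
    have h := (intervalIntegral.integrableOn_Ioo_rpow_iff (s := (-(1/2) : ℝ)) (t := (1:ℝ))
      one_pos).mpr (by norm_num)
    refine h.congr_fun ?_ measurableSet_Ioo
    intro y hy
    have hy0 : 0 < y := hy.1
    show y ^ (-(1/2) : ℝ) = y ^ (3 - 1) • y ^ (-(5/2) : ℝ)
    rw [smul_eq_mul, show (3 - 1 : ℕ) = 2 by norm_num, ← Real.rpow_natCast y 2,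
      ← Real.rpow_add hy0]
    norm_num
  exact h2.integrable_indicator measurableSet_ball

theorem TF_nice_bound_pt (a : ℝ) (ha : 0 ≤ a) (u : E3) :
    a / ‖u‖ ≤ 3/5 * a ^ (5/3 : ℝ)
      + 2/5 * Set.indicator (ball (0:E3) 1) (fun u : E3 => ‖u‖ ^ (-(5/2) : ℝ)) u + a := by
  by_cases h : u ∈ ball (0:E3) 1
  · rw [Set.indicator_of_mem h]
    have hq : Real.HolderConjugate (5/3) (5/2) := by
      rw [Real.holderConjugate_iff]
      constructor <;> norm_num
    have hy := Real.young_inequality_of_nonneg ha (inv_nonneg.mpr (norm_nonneg u)) hq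
    have e : (‖u‖⁻¹) ^ (5/2 : ℝ) = ‖u‖ ^ (-(5/2) : ℝ) := by
      rw [Real.inv_rpow (norm_nonneg u), Real.rpow_neg (norm_nonneg u)]
    rw [e] at hy
    rw [div_eq_mul_inv]
    linarith
  · rw [Set.indicator_of_notMem h, mul_zero, add_zero]
    have h1 : 1 ≤ ‖u‖ := by
      rw [mem_ball_zero_iff] at h
      exact not_lt.mp h
    have h2 : a / ‖u‖ ≤ a := div_le_self ha h1
    have h3 : 0 ≤ a ^ (5/3 : ℝ) := Real.rpow_nonneg ha _
    linarith

theorem nice_bound (g : E3 → ℝ) (hg : Nice g) :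
    ∃ B : ℝ, ∀ x : E3, Integrable (fun y => g y / ‖x - y‖) ∧ ∫ y, |g y| / ‖x - y‖ ≤ B := by
  obtain ⟨hm, h1, h53⟩ := hg
  have hK := TF_nice_bound_ker
  obtain ⟨K, hKdef⟩ : ∃ K : E3 → ℝ, K = Set.indicator (ball (0:E3) 1)
    (fun u : E3 => ‖u‖ ^ (-(5/2) : ℝ)) := ⟨_, rfl⟩
  rw [← hKdef] at hK
  refine ⟨3/5 * (∫ y, |g y| ^ (5/3 : ℝ)) + 2/5 * (∫ u, K u) + ∫ y, |g y|, fun x => ?_⟩
  have hKx : Integrable (fun y => K (x - y)) := hK.comp_sub_left x
  have hH1 : Integrable (fun y => 3/5 * |g y| ^ (5/3 : ℝ) + 2/5 * K (x - y)) :=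
    (h53.const_mul (3/5)).add (hKx.const_mul (2/5))
  have hH : Integrable (fun y => 3/5 * |g y| ^ (5/3 : ℝ) + 2/5 * K (x - y) + |g y|) :=
    hH1.add h1.abs
  have hpt : ∀ y, |g y| / ‖x - y‖ ≤ 3/5 * |g y| ^ (5/3 : ℝ) + 2/5 * K (x - y) + |g y| := by
    intro y
    rw [hKdef]
    exact TF_nice_bound_pt _ (abs_nonneg _) _
  have hmeas : Measurable (fun y => g y / ‖x - y‖) :=
    hm.div (measurable_const.sub measurable_id).norm
  have hint : Integrable (fun y => g y / ‖x - y‖) := by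
    refine hH.mono' hmeas.aestronglyMeasurable (Filter.Eventually.of_forall fun y => ?_)
    rw [norm_div, norm_norm, Real.norm_eq_abs]
    exact hpt y
  refine ⟨hint, ?_⟩
  have hintabs : Integrable (fun y => |g y| / ‖x - y‖) := by
    have h := hint.abs
    refine h.congr (Filter.Eventually.of_forall fun y => ?_)
    show |g y / ‖x - y‖| = |g y| / ‖x - y‖
    rw [abs_div, abs_of_nonneg (norm_nonneg (x - y))]
  calc ∫ y, |g y| / ‖x - y‖ ≤ ∫ y, (3/5 * |g y| ^ (5/3 : ℝ) + 2/5 * K (x - y) + |g y|) :=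
        integral_mono hintabs hH hpt
    _ = (∫ y, (3/5 * |g y| ^ (5/3 : ℝ) + 2/5 * K (x - y))) + ∫ y, |g y| :=
        integral_add hH1 h1.abs
    _ = (∫ y, 3/5 * |g y| ^ (5/3 : ℝ)) + (∫ y, 2/5 * K (x - y)) + ∫ y, |g y| := by
        rw [integral_add (h53.const_mul (3/5)) (hKx.const_mul (2/5))]
    _ = 3/5 * (∫ y, |g y| ^ (5/3 : ℝ)) + 2/5 * (∫ u, K u) + ∫ y, |g y| := by
        rw [integral_const_mul, integral_const_mul, integral_sub_left_eq_self (fun u => K u) volume x]
end


/-! ### nice_modulus -/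
section
-- ===== TARGET =====
theorem TF_nice_modulus_young (τ : ℝ) (hτ : 0 < τ) : ∃ C : ℝ, 0 < C ∧ ∀ a b : ℝ, 0 ≤ a → 0 ≤ b →
    a * b ≤ τ * a ^ (5/3 : ℝ) + C * b ^ (5/2 : ℝ) := by
  have hθ : 0 < τ ^ (3/5 : ℝ) := Real.rpow_pos_of_pos hτ _
  refine ⟨((τ ^ (3/5 : ℝ))⁻¹) ^ (5/2 : ℝ), by positivity, fun a b ha hb => ?_⟩
  have hpq : (5/3 : ℝ).HolderConjugate (5/2 : ℝ) := by
    rw [Real.holderConjugate_iff]; norm_num
  have h1 := Real.young_inequality_of_nonneg (mul_nonneg hθ.le ha)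
    (mul_nonneg (inv_pos.mpr hθ).le hb) hpq
  have h2 : (τ ^ (3/5 : ℝ) * a) * ((τ ^ (3/5 : ℝ))⁻¹ * b) = a * b := by
    field_simp
  have h3 : (τ ^ (3/5 : ℝ) * a) ^ (5/3 : ℝ) = τ * a ^ (5/3 : ℝ) := by
    rw [Real.mul_rpow hθ.le ha, ← Real.rpow_mul hτ.le]
    norm_num
  rw [h2, h3, Real.mul_rpow (inv_pos.mpr hθ).le hb] at h1
  have h4 : 0 ≤ τ * a ^ (5/3 : ℝ) := by positivity
  have h5 : 0 ≤ ((τ ^ (3/5 : ℝ))⁻¹) ^ (5/2 : ℝ) * b ^ (5/2 : ℝ) := by positivity
  have h6 : τ * a ^ (5/3 : ℝ) / (5/3) ≤ τ * a ^ (5/3 : ℝ) := by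
    rw [div_le_iff₀ (by norm_num)]; linarith
  have h7 : ((τ ^ (3/5 : ℝ))⁻¹) ^ (5/2 : ℝ) * b ^ (5/2 : ℝ) / (5/2) ≤
      ((τ ^ (3/5 : ℝ))⁻¹) ^ (5/2 : ℝ) * b ^ (5/2 : ℝ) := by
    rw [div_le_iff₀ (by norm_num)]; linarith
  linarith

theorem TF_nice_modulus_int : IntegrableOn (fun u : E3 => ‖u‖ ^ (-(5/2) : ℝ)) (ball 0 1) := by
  rw [integrableOn_fun_norm_addHaar volume (f := fun y : ℝ => y ^ (-(5/2) : ℝ))]
  have hfr : Module.finrank ℝ E3 = 3 := finrank_euclideanSpace_fin
  rw [hfr]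
  have h1 : IntegrableOn (fun y : ℝ => y ^ (-(1/2) : ℝ)) (Ioo 0 1) :=
    (intervalIntegral.integrableOn_Ioo_rpow_iff one_pos).mpr (by norm_num)
  refine h1.congr_fun ?_ measurableSet_Ioo
  intro y hy
  have hy0 : 0 < y := hy.1
  show y ^ (-(1/2) : ℝ) = y ^ (3 - 1) • y ^ (-(5/2) : ℝ)
  rw [smul_eq_mul, ← Real.rpow_natCast, ← Real.rpow_add hy0]
  norm_num

theorem TF_nice_modulus_small (δ : ℝ) (hδ : 0 < δ) : ∃ r : ℝ, 0 < r ∧
    Integrable (indicator (ball (0:E3) (2 * r)) (fun u : E3 => ‖u‖ ^ (-(5/2) : ℝ))) ∧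
    ∫ u : E3, indicator (ball (0:E3) (2 * r)) (fun u : E3 => ‖u‖ ^ (-(5/2) : ℝ)) u ≤ δ := by
  have hint := TF_nice_modulus_int
  have hint' : Integrable (indicator (ball (0:E3) 1) (fun u : E3 => ‖u‖ ^ (-(5/2) : ℝ))) :=
    (integrable_indicator_iff measurableSet_ball).mpr hint
  have hvol : Tendsto ((volume : Measure E3) ∘ fun n : ℕ => ball (0:E3) (1 / ((n:ℝ) + 1))) atTop (𝓝 0) := by
    have h1 : ∀ n : ℕ, (volume : Measure E3) (ball (0:E3) (1 / ((n:ℝ) + 1))) =
        ENNReal.ofReal ((1 / ((n:ℝ) + 1)) ^ Module.finrank ℝ E3) * volume (ball (0:E3) 1) :=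
      fun n => Measure.addHaar_ball volume (0:E3) (by positivity)
    have h2 : Tendsto (fun n : ℕ => (1 / ((n:ℝ) + 1)) ^ Module.finrank ℝ E3) atTop (𝓝 0) := by
      have := (tendsto_one_div_add_atTop_nhds_zero_nat (𝕜 := ℝ)).pow (Module.finrank ℝ E3)
      rwa [zero_pow (by rw [finrank_euclideanSpace_fin]; norm_num)] at this
    have h3 : Tendsto (fun n : ℕ => ENNReal.ofReal ((1 / ((n:ℝ) + 1)) ^ Module.finrank ℝ E3) *
        volume (ball (0:E3) 1)) atTop (𝓝 (0 * volume (ball (0:E3) 1))) := by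
      refine ENNReal.Tendsto.mul_const ?_ (Or.inr measure_ball_lt_top.ne)
      have := (ENNReal.continuous_ofReal.tendsto 0).comp h2
      rwa [ENNReal.ofReal_zero] at this
    rw [zero_mul] at h3
    exact h3.congr fun n => (h1 n).symm
  have ht := hint'.tendsto_setIntegral_nhds_zero hvol
  obtain ⟨n, hn⟩ := (ht.eventually (gt_mem_nhds hδ)).exists
  have hn1 : (0:ℝ) < (n:ℝ) + 1 := by positivity
  have hr2 : 2 * (1 / (2 * ((n:ℝ) + 1))) = 1 / ((n:ℝ) + 1) := by field_simp
  have hle1 : 1 / ((n:ℝ) + 1) ≤ 1 := by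
    rw [div_le_one hn1]
    have : (0:ℝ) ≤ n := Nat.cast_nonneg n
    linarith
  have hsub : ball (0:E3) (1 / ((n:ℝ) + 1)) ⊆ ball (0:E3) 1 := ball_subset_ball hle1
  refine ⟨1 / (2 * ((n:ℝ) + 1)), by positivity, ?_, ?_⟩
  · rw [hr2]
    exact (integrable_indicator_iff measurableSet_ball).mpr (hint.mono_set hsub)
  · rw [hr2]
    rw [← integral_indicator measurableSet_ball, Set.indicator_indicator,
      Set.inter_eq_left.mpr hsub] at hn
    exact hn.le

theorem TF_nice_modulus_pt (r : ℝ) (hr : 0 < r) (x x' y : E3) (h : ‖x - x'‖ < r) :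
    |1 / ‖x - y‖ - 1 / ‖x' - y‖| ≤ indicator (ball (0:E3) (2 * r)) (fun u => 1 / ‖u‖) (x - y) +
      indicator (ball (0:E3) (2 * r)) (fun u => 1 / ‖u‖) (x' - y) + ‖x - x'‖ / r ^ 2 := by
  have hφ : ∀ u : E3, 0 ≤ indicator (ball (0:E3) (2 * r)) (fun u => 1 / ‖u‖) u := fun u =>
    Set.indicator_nonneg (fun u _ => by positivity) u
  have hab : |‖x - y‖ - ‖x' - y‖| ≤ ‖x - x'‖ := by
    have := abs_norm_sub_norm_le (x - y) (x' - y)
    rwa [sub_sub_sub_cancel_right] at this
  have hab2 := abs_le.mp hab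
  by_cases hboth : r ≤ ‖x - y‖ ∧ r ≤ ‖x' - y‖
  · obtain ⟨h1, h2⟩ := hboth
    have p1 : 0 < ‖x - y‖ := lt_of_lt_of_le hr h1
    have p2 : 0 < ‖x' - y‖ := lt_of_lt_of_le hr h2
    have h3 : 1 / ‖x - y‖ - 1 / ‖x' - y‖ = (‖x' - y‖ - ‖x - y‖) / (‖x - y‖ * ‖x' - y‖) := by
      field_simp
    have h4 : |1 / ‖x - y‖ - 1 / ‖x' - y‖| ≤ ‖x - x'‖ / r ^ 2 := by
      rw [h3, abs_div, abs_of_pos (mul_pos p1 p2), abs_sub_comm]
      refine div_le_div₀ (norm_nonneg _) hab (by positivity) ?_
      rw [sq]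
      exact mul_le_mul h1 h2 hr.le p1.le
    have := hφ (x - y)
    have := hφ (x' - y)
    linarith
  · have hlt : ‖x - y‖ < 2 * r ∧ ‖x' - y‖ < 2 * r := by
      by_cases h1 : r ≤ ‖x - y‖
      · have h2 : ¬ r ≤ ‖x' - y‖ := fun h2 => hboth ⟨h1, h2⟩
        constructor <;> linarith
      · constructor <;> linarith
    have m1 : x - y ∈ ball (0:E3) (2 * r) := by rw [mem_ball_zero_iff]; exact hlt.1
    have m2 : x' - y ∈ ball (0:E3) (2 * r) := by rw [mem_ball_zero_iff]; exact hlt.2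
    rw [Set.indicator_of_mem m1, Set.indicator_of_mem m2]
    have q1 : 0 ≤ 1 / ‖x - y‖ := by positivity
    have q2 : 0 ≤ 1 / ‖x' - y‖ := by positivity
    have q3 : 0 ≤ ‖x - x'‖ / r ^ 2 := by positivity
    rw [abs_le]
    constructor <;> linarith

theorem nice_modulus (g : E3 → ℝ) (hg : Nice g) (ε : ℝ) (hε : 0 < ε) :
    ∃ η : ℝ, 0 < η ∧ ∀ x x' : E3, ‖x - x'‖ < η →
      Integrable (fun y => |g y| * |1 / ‖x - y‖ - 1 / ‖x' - y‖|) ∧
      ∫ y, |g y| * |1 / ‖x - y‖ - 1 / ‖x' - y‖| ≤ ε := by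
  obtain ⟨hgm, hg1, hg2⟩ := hg
  set G : ℝ := ∫ x, |g x| ^ (5/3 : ℝ) with hG
  set N : ℝ := ∫ x, |g x| with hN
  have hG0 : 0 ≤ G := integral_nonneg fun x => Real.rpow_nonneg (abs_nonneg _) _
  have hN0 : 0 ≤ N := integral_nonneg fun x => abs_nonneg _
  obtain ⟨C, hC, hyoung⟩ := TF_nice_modulus_young (ε / (6 * (G + 1))) (by positivity)
  obtain ⟨r, hr, hψi, hψ⟩ := TF_nice_modulus_small (ε / (6 * C)) (by positivity)
  refine ⟨min r (ε * r ^ 2 / (3 * (N + 1))), by positivity, fun x x' hxx => ?_⟩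
  have hxr : ‖x - x'‖ < r := lt_of_lt_of_le hxx (min_le_left _ _)
  have hxe : ‖x - x'‖ ≤ ε * r ^ 2 / (3 * (N + 1)) := (lt_of_lt_of_le hxx (min_le_right _ _)).le
  have hψx : ∀ z : E3, Integrable (fun y =>
      indicator (ball (0:E3) (2 * r)) (fun u : E3 => ‖u‖ ^ (-(5/2) : ℝ)) (z - y)) := fun z =>
    hψi.comp_sub_left z
  have hpw : ∀ u : E3, (indicator (ball (0:E3) (2 * r)) (fun u => 1 / ‖u‖) u) ^ (5/2 : ℝ) =
      indicator (ball (0:E3) (2 * r)) (fun u : E3 => ‖u‖ ^ (-(5/2) : ℝ)) u := by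
    intro u
    by_cases hu : u ∈ ball (0:E3) (2 * r)
    · rw [Set.indicator_of_mem hu, Set.indicator_of_mem hu, one_div,
        Real.inv_rpow (norm_nonneg _), Real.rpow_neg (norm_nonneg _)]
    · rw [Set.indicator_of_notMem hu, Set.indicator_of_notMem hu, Real.zero_rpow (by norm_num)]
  have hφ : ∀ u : E3, 0 ≤ indicator (ball (0:E3) (2 * r)) (fun u => 1 / ‖u‖) u := fun u =>
    Set.indicator_nonneg (fun u _ => by positivity) u
  -- dominating function
  have hbound : ∀ y, |g y| * |1 / ‖x - y‖ - 1 / ‖x' - y‖| ≤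
      (ε / (6 * (G + 1)) * |g y| ^ (5/3 : ℝ) +
        C * indicator (ball (0:E3) (2 * r)) (fun u : E3 => ‖u‖ ^ (-(5/2) : ℝ)) (x - y)) +
      (ε / (6 * (G + 1)) * |g y| ^ (5/3 : ℝ) +
        C * indicator (ball (0:E3) (2 * r)) (fun u : E3 => ‖u‖ ^ (-(5/2) : ℝ)) (x' - y)) +
      |g y| * (‖x - x'‖ / r ^ 2) := by
    intro y
    have h1 := mul_le_mul_of_nonneg_left (TF_nice_modulus_pt r hr x x' y hxr) (abs_nonneg (g y))
    have h2 := hyoung (|g y|) _ (abs_nonneg _) (hφ (x - y))
    have h3 := hyoung (|g y|) _ (abs_nonneg _) (hφ (x' - y))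
    rw [hpw] at h2 h3
    rw [mul_add, mul_add] at h1
    linarith
  have i1 : Integrable (fun y => ε / (6 * (G + 1)) * |g y| ^ (5/3 : ℝ)) := hg2.const_mul _
  have i2 : ∀ z : E3, Integrable (fun y => C *
      indicator (ball (0:E3) (2 * r)) (fun u : E3 => ‖u‖ ^ (-(5/2) : ℝ)) (z - y)) := fun z =>
    (hψx z).const_mul C
  have i3 : Integrable (fun y => |g y| * (‖x - x'‖ / r ^ 2)) := hg1.abs.mul_const _
  have hD : Integrable (fun y => (ε / (6 * (G + 1)) * |g y| ^ (5/3 : ℝ) +
        C * indicator (ball (0:E3) (2 * r)) (fun u : E3 => ‖u‖ ^ (-(5/2) : ℝ)) (x - y)) +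
      (ε / (6 * (G + 1)) * |g y| ^ (5/3 : ℝ) +
        C * indicator (ball (0:E3) (2 * r)) (fun u : E3 => ‖u‖ ^ (-(5/2) : ℝ)) (x' - y)) +
      |g y| * (‖x - x'‖ / r ^ 2)) := ((i1.add (i2 x)).add (i1.add (i2 x'))).add i3
  have hmeas : AEStronglyMeasurable (fun y => |g y| * |1 / ‖x - y‖ - 1 / ‖x' - y‖|) volume := by
    have m1 : Measurable fun y => |g y| := hgm.abs
    have m2 : Measurable fun y : E3 => |1 / ‖x - y‖ - 1 / ‖x' - y‖| := by fun_prop
    exact (m1.mul m2).aestronglyMeasurable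
  have hint : Integrable (fun y => |g y| * |1 / ‖x - y‖ - 1 / ‖x' - y‖|) := by
    refine hD.mono' hmeas (Filter.Eventually.of_forall fun y => ?_)
    rw [Real.norm_of_nonneg (by positivity)]
    exact hbound y
  refine ⟨hint, ?_⟩
  refine (integral_mono hint hD hbound).trans ?_
  have hψe : ∀ z : E3, ∫ y, C *
      indicator (ball (0:E3) (2 * r)) (fun u : E3 => ‖u‖ ^ (-(5/2) : ℝ)) (z - y) ≤ ε / 6 := by
    intro z
    rw [integral_const_mul, integral_sub_left_eq_self
      (fun u => indicator (ball (0:E3) (2 * r)) (fun u : E3 => ‖u‖ ^ (-(5/2) : ℝ)) u) volume z]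
    calc _ ≤ C * (ε / (6 * C)) := mul_le_mul_of_nonneg_left hψ hC.le
      _ = ε / 6 := by field_simp
  have hGe : ∫ y, ε / (6 * (G + 1)) * |g y| ^ (5/3 : ℝ) ≤ ε / 6 := by
    rw [integral_const_mul, ← hG]
    calc ε / (6 * (G + 1)) * G ≤ ε / (6 * (G + 1)) * (G + 1) :=
          mul_le_mul_of_nonneg_left (by linarith) (by positivity)
      _ = ε / 6 := by field_simp
  have hNe : ∫ y, |g y| * (‖x - x'‖ / r ^ 2) ≤ ε / 3 := by
    rw [integral_mul_const, ← hN]
    calc N * (‖x - x'‖ / r ^ 2) ≤ (N + 1) * ((ε * r ^ 2 / (3 * (N + 1))) / r ^ 2) := by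
          refine mul_le_mul (by linarith) ?_ (by positivity) (by positivity)
          exact div_le_div_of_nonneg_right hxe (by positivity)
      _ = ε / 3 := by field_simp
  have j1 : ∀ z : E3, Integrable (fun y => ε / (6 * (G + 1)) * |g y| ^ (5/3 : ℝ) +
      C * indicator (ball (0:E3) (2 * r)) (fun u : E3 => ‖u‖ ^ (-(5/2) : ℝ)) (z - y)) := fun z =>
    i1.add (i2 z)
  have j2 : Integrable (fun y => (ε / (6 * (G + 1)) * |g y| ^ (5/3 : ℝ) +
        C * indicator (ball (0:E3) (2 * r)) (fun u : E3 => ‖u‖ ^ (-(5/2) : ℝ)) (x - y)) +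
      (ε / (6 * (G + 1)) * |g y| ^ (5/3 : ℝ) +
        C * indicator (ball (0:E3) (2 * r)) (fun u : E3 => ‖u‖ ^ (-(5/2) : ℝ)) (x' - y))) :=
    (j1 x).add (j1 x')
  have e1 : ∀ z : E3, ∫ y, (ε / (6 * (G + 1)) * |g y| ^ (5/3 : ℝ) +
      C * indicator (ball (0:E3) (2 * r)) (fun u : E3 => ‖u‖ ^ (-(5/2) : ℝ)) (z - y)) =
      (∫ y, ε / (6 * (G + 1)) * |g y| ^ (5/3 : ℝ)) +
      ∫ y, C * indicator (ball (0:E3) (2 * r)) (fun u : E3 => ‖u‖ ^ (-(5/2) : ℝ)) (z - y) :=
    fun z => integral_add i1 (i2 z)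
  rw [integral_add j2 i3, integral_add (j1 x) (j1 x'), e1, e1]
  have := hψe x
  have := hψe x'
  linarith
end


/-! ### nice_decay -/
section
lemma TF_nice_decay_kernel :
    IntegrableOn (fun u : E3 => ‖u‖ ^ (-(5/2) : ℝ)) (ball (0:E3) 1) := by
  rw [integrableOn_fun_norm_addHaar volume (f := fun y : ℝ => y ^ (-(5/2):ℝ))]
  have hf : Module.finrank ℝ E3 = 3 := by simp
  rw [hf]
  have h : IntegrableOn (fun y : ℝ => y ^ (-(1/2):ℝ)) (Ioo 0 1) :=
    (intervalIntegral.integrableOn_Ioo_rpow_iff one_pos).2 (by norm_num)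
  refine h.congr_fun ?_ measurableSet_Ioo
  intro y hy
  simp only [smul_eq_mul]
  rw [← Real.rpow_natCast, ← Real.rpow_add hy.1]
  norm_num

lemma TF_nice_decay_young (a u s : ℝ) (ha : 0 ≤ a) (hu : 0 ≤ u) (hs0 : 0 < s) (hs1 : s ≤ 1) :
    a / u ≤ (s⁻¹) ^ (5/3:ℝ) * a ^ (5/3:ℝ) + s * u ^ (-(5/2):ℝ) := by
  have hpq : (5/3 : ℝ).HolderConjugate (5/2) := by
    rw [Real.holderConjugate_iff]; norm_num
  have hy := Real.young_inequality_of_nonneg (a := a * s⁻¹) (b := s * u⁻¹)
    (by positivity) (by positivity) hpq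
  have e1 : a * s⁻¹ * (s * u⁻¹) = a / u := by
    rw [mul_assoc, ← mul_assoc s⁻¹ s, inv_mul_cancel₀ hs0.ne', one_mul, div_eq_mul_inv]
  have e2 : (a * s⁻¹) ^ (5/3:ℝ) = (s⁻¹) ^ (5/3:ℝ) * a ^ (5/3:ℝ) := by
    rw [Real.mul_rpow ha (by positivity), mul_comm]
  have e3 : (s * u⁻¹) ^ (5/2:ℝ) ≤ s * u ^ (-(5/2):ℝ) := by
    rw [Real.mul_rpow hs0.le (by positivity), Real.inv_rpow hu, ← Real.rpow_neg hu]
    refine mul_le_mul_of_nonneg_right ?_ (Real.rpow_nonneg hu _)
    calc s ^ (5/2:ℝ) ≤ s ^ (1:ℝ) := Real.rpow_le_rpow_of_exponent_ge hs0 hs1 (by norm_num)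
      _ = s := Real.rpow_one s
  have e4 : 0 ≤ (a * s⁻¹) ^ (5/3:ℝ) := by positivity
  have e5 : 0 ≤ (s * u⁻¹) ^ (5/2:ℝ) := by positivity
  rw [e1] at hy
  have e6 : (a * s⁻¹) ^ (5/3:ℝ) / (5/3) ≤ (a * s⁻¹) ^ (5/3:ℝ) := by
    rw [div_le_iff₀ (by norm_num)]; nlinarith
  have e7 : (s * u⁻¹) ^ (5/2:ℝ) / (5/2) ≤ (s * u⁻¹) ^ (5/2:ℝ) := by
    rw [div_le_iff₀ (by norm_num)]; nlinarith
  rw [e2] at e6 hy
  linarith

-- ===== TARGET =====
set_option maxHeartbeats 1000000 in
theorem nice_decay (g : E3 → ℝ) (hg : Nice g) (ε : ℝ) (hε : 0 < ε) :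
    ∃ M : ℝ, ∀ x : E3, M ≤ ‖x‖ → ∫ y, |g y| / ‖x - y‖ ≤ ε := by
  obtain ⟨hgm, hgi, hgp⟩ := hg
  have hga : Integrable (fun y => |g y|) := hgi.abs
  set κ : E3 → ℝ := (ball (0:E3) 1).indicator (fun u => ‖u‖ ^ (-(5/2) : ℝ)) with hκ
  have hκi : Integrable κ := (integrable_indicator_iff measurableSet_ball).2 TF_nice_decay_kernel
  have hκ0 : ∀ u, 0 ≤ κ u := fun u =>
    indicator_nonneg (fun v _ => Real.rpow_nonneg (norm_nonneg v) _) u
  set K := ∫ u, κ u with hKdef
  have hK : 0 ≤ K := integral_nonneg hκ0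
  set s : ℝ := min 1 (ε / (3 * (K + 1))) with hs
  have hs0 : 0 < s := lt_min one_pos (by positivity)
  have hs1 : s ≤ 1 := min_le_left _ _
  have hsK : s * K ≤ ε / 3 := by
    have h1 : s ≤ ε / (3 * (K + 1)) := min_le_right _ _
    have h2 : s * K ≤ ε / (3 * (K + 1)) * (K + 1) :=
      mul_le_mul h1 (by linarith) hK (by positivity)
    have h3 : ε / (3 * (K + 1)) * (K + 1) = ε / 3 := by field_simp
    linarith
  set C : ℝ := (s⁻¹) ^ (5/3 : ℝ) with hC
  have hC0 : 0 ≤ C := Real.rpow_nonneg (by positivity) _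
  have hm1 : ∀ x : E3, Measurable (fun y : E3 => |g y| * min 1 (1 / ‖x - y‖)) := by
    intro x
    exact (hgm.abs).mul (measurable_const.min (measurable_const.div (measurable_const.sub measurable_id).norm))
  have hb1 : ∀ x y : E3, ‖|g y| * min 1 (1 / ‖x - y‖)‖ ≤ |g y| := by
    intro x y
    have h0 : 0 ≤ min 1 (1 / ‖x - y‖) := le_min zero_le_one (by positivity)
    rw [Real.norm_eq_abs, abs_mul, abs_abs, abs_of_nonneg h0]
    exact mul_le_of_le_one_right (abs_nonneg _) (min_le_left _ _)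
  have hlim1 : Tendsto (fun x : E3 => ∫ y, |g y| * min 1 (1 / ‖x - y‖)) (comap norm atTop) (𝓝 0) := by
    have := tendsto_integral_filter_of_dominated_convergence (μ := (volume : Measure E3))
      (l := comap (norm : E3 → ℝ) atTop)
      (F := fun (x y : E3) => |g y| * min 1 (1 / ‖x - y‖)) (f := fun _ => (0:ℝ)) (fun y => |g y|)
      (Eventually.of_forall fun x => (hm1 x).aestronglyMeasurable)
      (Eventually.of_forall fun x => Eventually.of_forall fun y => hb1 x y) hga ?_
    · simpa using this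
    · refine Eventually.of_forall fun y => ?_
      have hn : Tendsto (fun x : E3 => ‖x - y‖) (comap norm atTop) atTop := by
        refine tendsto_atTop_mono (f := fun x : E3 => ‖x‖ - ‖y‖) (fun x => norm_sub_norm_le x y) ?_
        exact tendsto_atTop_add_const_right _ _ tendsto_comap
      have h1 : Tendsto (fun x : E3 => min 1 (1 / ‖x - y‖)) (comap norm atTop) (𝓝 0) := by
        refine squeeze_zero (fun x => le_min zero_le_one (by positivity)) (fun x => min_le_right _ _) ?_
        have h2 : (fun x : E3 => 1 / ‖x - y‖) = (fun r : ℝ => r⁻¹) ∘ (fun x : E3 => ‖x - y‖) := by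
          funext x; simp [one_div]
        rw [h2]
        exact tendsto_inv_atTop_zero.comp hn
      simpa using h1.const_mul (|g y|)
  have hlim2 : Tendsto (fun x : E3 => ∫ y, (ball x 1).indicator (fun y => |g y| ^ (5/3:ℝ)) y)
      (comap norm atTop) (𝓝 0) := by
    have := tendsto_integral_filter_of_dominated_convergence (μ := (volume : Measure E3))
      (l := comap (norm : E3 → ℝ) atTop)
      (F := fun (x y : E3) => (ball x 1).indicator (fun y => |g y| ^ (5/3:ℝ)) y)
      (f := fun _ => (0:ℝ)) (fun y => |g y| ^ (5/3:ℝ))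
      (Eventually.of_forall fun x => hgp.aestronglyMeasurable.indicator measurableSet_ball)
      (Eventually.of_forall fun x => Eventually.of_forall fun y => ?_) hgp ?_
    · simpa using this
    · rw [Real.norm_eq_abs, abs_of_nonneg (indicator_nonneg (fun v _ => Real.rpow_nonneg (abs_nonneg _) _) y)]
      exact indicator_le_self' (fun v _ => Real.rpow_nonneg (abs_nonneg _) _) y
    · refine Eventually.of_forall fun y => ?_
      refine tendsto_const_nhds.congr' ?_
      have : ∀ᶠ x : E3 in comap norm atTop, ‖y‖ + 1 ≤ ‖x‖ :=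
        tendsto_comap.eventually (eventually_ge_atTop _)
      filter_upwards [this] with x hx
      rw [indicator_of_notMem]
      rw [mem_ball, dist_eq_norm, not_lt]
      have := norm_sub_norm_le x y
      rw [norm_sub_rev] at this
      linarith
  have hlim := hlim1.add (hlim2.const_mul C)
  have hev := hlim.eventually (Iio_mem_nhds (show 0 + C * 0 < 2 * ε / 3 by simp; linarith))
  rw [eventually_comap, eventually_atTop] at hev
  obtain ⟨M, hM⟩ := hev
  refine ⟨M, fun x hx => ?_⟩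
  have hMx := hM ‖x‖ hx x rfl
  have hi1 : Integrable (fun y : E3 => |g y| * min 1 (1 / ‖x - y‖)) :=
    hga.mono' (hm1 x).aestronglyMeasurable (Eventually.of_forall fun y => hb1 x y)
  have hi2 : Integrable (fun y : E3 => (ball x 1).indicator (fun y => |g y| ^ (5/3:ℝ)) y) :=
    hgp.indicator measurableSet_ball
  have hi3 : Integrable (fun y : E3 => κ (x - y)) := hκi.comp_sub_left x
  have hpt : ∀ y : E3, |g y| / ‖x - y‖ ≤ |g y| * min 1 (1 / ‖x - y‖) +
      C * (ball x 1).indicator (fun y => |g y| ^ (5/3:ℝ)) y + s * κ (x - y) := by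
    intro y
    have h0 : 0 ≤ |g y| * min 1 (1 / ‖x - y‖) :=
      mul_nonneg (abs_nonneg _) (le_min zero_le_one (by positivity))
    have h00 : 0 ≤ (ball x 1).indicator (fun y => |g y| ^ (5/3:ℝ)) y :=
      indicator_nonneg (fun v _ => Real.rpow_nonneg (abs_nonneg _) _) y
    rcases lt_or_ge ‖x - y‖ 1 with hlt | hge
    · have hmem : y ∈ ball x 1 := by rw [mem_ball, dist_eq_norm, norm_sub_rev]; exact hlt
      have hmem2 : x - y ∈ ball (0:E3) 1 := by rw [mem_ball_zero_iff]; exact hlt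
      rw [indicator_of_mem hmem, hκ, indicator_of_mem hmem2]
      have hy := TF_nice_decay_young |g y| ‖x - y‖ s (abs_nonneg _) (norm_nonneg _) hs0 hs1
      linarith
    · have h1 : min 1 (1 / ‖x - y‖) = 1 / ‖x - y‖ := by
        apply min_eq_right
        rw [div_le_one (by linarith)]; exact hge
      rw [h1]
      have h2 : 0 ≤ s * κ (x - y) := mul_nonneg hs0.le (hκ0 _)
      have h3 := mul_nonneg hC0 h00
      have h4 : |g y| / ‖x - y‖ = |g y| * (1 / ‖x - y‖) := by rw [mul_one_div]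
      linarith
  have hi12 : Integrable (fun y : E3 => |g y| * min 1 (1 / ‖x - y‖) +
      C * (ball x 1).indicator (fun y => |g y| ^ (5/3:ℝ)) y) := hi1.add (hi2.const_mul C)
  calc ∫ y, |g y| / ‖x - y‖ ≤ ∫ y, (|g y| * min 1 (1 / ‖x - y‖) +
      C * (ball x 1).indicator (fun y => |g y| ^ (5/3:ℝ)) y + s * κ (x - y)) := by
        refine integral_mono_of_nonneg (Eventually.of_forall fun y => by positivity) ?_
          (Eventually.of_forall hpt)
        exact hi12.add (hi3.const_mul s)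
    _ = (∫ y, |g y| * min 1 (1 / ‖x - y‖)) +
      C * (∫ y, (ball x 1).indicator (fun y => |g y| ^ (5/3:ℝ)) y) + s * K := by
        rw [integral_add hi12 (hi3.const_mul s),
          integral_add hi1 (hi2.const_mul C), integral_const_mul, integral_const_mul,
          integral_sub_left_eq_self κ volume x]
    _ ≤ ε := by linarith
end


/-! ### refl_basic -/
section
-- ===== TARGET =====
theorem refl_basic (n : E3) (hn : ‖n‖ = 1) (t : ℝ) :
    (∀ x, refl n t (refl n t x) = x) ∧ (∀ x y, ‖refl n t x - refl n t y‖ = ‖x - y‖) ∧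
    (∀ x, ⟪n, refl n t x⟫ = 2 * t - ⟪n, x⟫) ∧ (∀ x, ⟪n, x⟫ = t → refl n t x = x) ∧
    Measurable (refl n t) ∧ MeasurePreserving (refl n t) volume volume := by
  have hnn : (⟪n, n⟫ : ℝ) = 1 := by rw [real_inner_self_eq_norm_sq, hn]; norm_num
  have h3 : ∀ x, (⟪n, refl n t x⟫ : ℝ) = 2 * t - ⟪n, x⟫ := by
    intro x
    unfold refl
    rw [inner_sub_right, real_inner_smul_right, hnn]
    ring
  have hnorm : ∀ v : E3, ‖v - (2 * ⟪n, v⟫) • n‖ = ‖v‖ := by
    intro v
    have h : ‖v - (2 * ⟪n, v⟫) • n‖ ^ 2 = ‖v‖ ^ 2 := by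
      rw [← real_inner_self_eq_norm_sq, ← real_inner_self_eq_norm_sq]
      rw [inner_sub_left, inner_sub_right, inner_sub_right, real_inner_smul_right,
        real_inner_smul_left, real_inner_smul_left, real_inner_smul_right, hnn,
        real_inner_comm n v]
      ring
    exact (pow_left_inj₀ (norm_nonneg _) (norm_nonneg _) two_ne_zero).1 h
  have hcont : Continuous (refl n t) := by
    unfold refl
    fun_prop
  refine ⟨?_, ?_, h3, ?_, hcont.measurable, ?_⟩
  · intro x
    have h : refl n t (refl n t x) = refl n t x - (2 * (⟪n, refl n t x⟫ - t)) • n := rfl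
    rw [h, h3]
    unfold refl
    module
  · intro x y
    have h : refl n t x - refl n t y = (x - y) - (2 * ⟪n, x - y⟫) • n := by
      unfold refl
      rw [inner_sub_right]
      module
    rw [h, hnorm]
  · intro x hx
    unfold refl
    rw [hx, sub_self, mul_zero, zero_smul, sub_zero]
  · let L0 : E3 →ₗ[ℝ] E3 :=
      { toFun := fun x => x - (2 * ⟪n, x⟫) • n
        map_add' := fun x y => by
          rw [inner_add_right]
          module
        map_smul' := fun c x => by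
          rw [real_inner_smul_right, RingHom.id_apply]
          module }
    let L1 : E3 →ₗᵢ[ℝ] E3 := { L0 with norm_map' := fun v => hnorm v }
    let L : E3 ≃ₗᵢ[ℝ] E3 := L1.toLinearIsometryEquiv rfl
    have hL : ∀ x, L x = x - (2 * ⟪n, x⟫) • n := fun x => rfl
    have hcomp : refl n t = (fun x => x + (2 * t) • n) ∘ (L : E3 → E3) := by
      funext x
      simp only [Function.comp_apply, hL]
      unfold refl
      module
    rw [hcomp]
    exact (measurePreserving_add_right volume ((2 * t) • n)).comp L.measurePreserving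
end


/-! ### box_min -/
section
noncomputable def TF_box_min_Q {ι : Type} [Fintype ι] (A : ι → ι → ℝ) (c : ι → ℝ) (τ : ι → ℝ) : ℝ :=
  (∑ i, ∑ j, A i j * τ i * τ j) / 2 - ∑ i, c i * τ i

theorem TF_box_min_expand {ι : Type} [Fintype ι] [DecidableEq ι] (A : ι → ι → ℝ)
    (hA : ∀ i j, A i j = A j i) (c : ι → ℝ) (τ : ι → ℝ) (i : ι) (h : ℝ) :
    TF_box_min_Q A c (fun j => τ j + h * (if j = i then 1 else 0)) =
      TF_box_min_Q A c τ + h * ((∑ j, A i j * τ j) - c i) + h ^ 2 * A i i / 2 := by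
  unfold TF_box_min_Q
  have h1 : ∀ a b : ι, A a b * (τ a + h * (if a = i then (1:ℝ) else 0)) *
      (τ b + h * (if b = i then (1:ℝ) else 0)) =
      A a b * τ a * τ b + h * (if a = i then A a b * τ b else 0) +
      h * (if b = i then A a b * τ a else 0) +
      h ^ 2 * (if a = i then (if b = i then A a b else 0) else 0) := by
    intro a b
    by_cases ha : a = i <;> by_cases hb : b = i <;> simp [ha, hb] <;> ring
  have h2 : ∀ a : ι, c a * (τ a + h * (if a = i then (1:ℝ) else 0)) =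
      c a * τ a + h * (if a = i then c a else 0) := by
    intro a
    by_cases ha : a = i <;> simp [ha] <;> ring
  have e1 : ∑ a, ∑ b, A a b * (τ a + h * (if a = i then (1:ℝ) else 0)) *
      (τ b + h * (if b = i then (1:ℝ) else 0)) =
      (∑ a, ∑ b, A a b * τ a * τ b) + h * (∑ j, A i j * τ j) + h * (∑ j, A i j * τ j) +
      h ^ 2 * A i i := by
    have f1 : ∑ a, ∑ b, h * (if a = i then A a b * τ b else 0) = h * (∑ j, A i j * τ j) := by
      rw [Finset.mul_sum, Finset.sum_comm]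
      refine Finset.sum_congr rfl (fun b _ => ?_)
      rw [← Finset.mul_sum, Finset.sum_ite_eq' Finset.univ i (fun a => A a b * τ b),
        if_pos (Finset.mem_univ i)]
    have f2 : ∑ a, ∑ b, h * (if b = i then A a b * τ a else 0) = h * (∑ j, A i j * τ j) := by
      rw [Finset.mul_sum]
      refine Finset.sum_congr rfl (fun a _ => ?_)
      rw [← Finset.mul_sum, Finset.sum_ite_eq' Finset.univ i (fun b => A a b * τ a),
        if_pos (Finset.mem_univ i), hA a i]
    have f3 : ∑ a, ∑ b, h ^ 2 * (if a = i then (if b = i then A a b else 0) else 0) =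
        h ^ 2 * A i i := by
      rw [Finset.sum_eq_single i, Finset.sum_eq_single i]
      · simp
      · intro b _ hb; simp [hb]
      · intro hi; exact absurd (Finset.mem_univ i) hi
      · intro a _ ha; simp [ha]
      · intro hi; exact absurd (Finset.mem_univ i) hi
    rw [Finset.sum_congr rfl (fun a _ => Finset.sum_congr rfl (fun b _ => h1 a b))]
    simp only [Finset.sum_add_distrib]
    rw [f1, f2, f3]
  have e2 : ∑ a, c a * (τ a + h * (if a = i then (1:ℝ) else 0)) =
      (∑ a, c a * τ a) + h * c i := by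
    rw [Finset.sum_congr rfl (fun a _ => h2 a), Finset.sum_add_distrib, ← Finset.mul_sum,
      Finset.sum_ite_eq' Finset.univ i c, if_pos (Finset.mem_univ i)]
  rw [e1, e2]
  ring

-- ===== TARGET =====
theorem box_min {ι : Type} [Fintype ι] (A : ι → ι → ℝ) (hA : ∀ i j, A i j = A j i) (c : ι → ℝ) :
    ∃ τ : ι → ℝ, (∀ i, 0 ≤ τ i ∧ τ i ≤ 1) ∧
      ∀ i, (τ i < 1 → 0 ≤ (∑ j, A i j * τ j) - c i) ∧ (0 < τ i → (∑ j, A i j * τ j) - c i ≤ 0) := by
  classical
  have hcomp : IsCompact (Set.pi Set.univ (fun _ : ι => Set.Icc (0:ℝ) 1)) :=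
    isCompact_univ_pi (fun _ => isCompact_Icc)
  have hne : (Set.pi Set.univ (fun _ : ι => Set.Icc (0:ℝ) 1)).Nonempty :=
    ⟨fun _ => 0, fun _ _ => ⟨le_refl _, zero_le_one⟩⟩
  have hcont : Continuous (TF_box_min_Q A c) := by
    unfold TF_box_min_Q
    fun_prop
  obtain ⟨τ, hτ, hmin⟩ := hcomp.exists_isMinOn hne hcont.continuousOn
  have hbox : ∀ i, 0 ≤ τ i ∧ τ i ≤ 1 := fun i => hτ i (Set.mem_univ i)
  have key : ∀ i h, 0 ≤ τ i + h → τ i + h ≤ 1 →
      0 ≤ h * ((∑ j, A i j * τ j) - c i) + h ^ 2 * A i i / 2 := by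
    intro i h h0 h1
    have hmem : (fun j => τ j + h * (if j = i then (1:ℝ) else 0)) ∈
        (Set.pi Set.univ (fun _ : ι => Set.Icc (0:ℝ) 1)) := by
      intro j _
      by_cases hj : j = i
      · subst hj
        simp only [if_true, mul_one]
        exact ⟨h0, h1⟩
      · simp only [if_neg hj, mul_zero, add_zero]
        exact hbox j
    have h3 : TF_box_min_Q A c τ ≤
        TF_box_min_Q A c (fun j => τ j + h * (if j = i then (1:ℝ) else 0)) := hmin hmem
    rw [TF_box_min_expand A hA c τ i h] at h3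
    linarith
  refine ⟨τ, hbox, fun i => ⟨fun hi => ?_, fun hi => ?_⟩⟩
  · by_contra hg
    obtain ⟨g, hgd⟩ : ∃ g, g = (∑ j, A i j * τ j) - c i := ⟨_, rfl⟩
    rw [← hgd] at hg
    have hg' : g < 0 := not_le.1 hg
    have hA1 : 0 < |A i i| + 1 := by positivity
    obtain ⟨h, hh⟩ : ∃ h, h = min (1 - τ i) (-g / (|A i i| + 1)) := ⟨_, rfl⟩
    have hpos : 0 < h := by
      rw [hh]; exact lt_min (by linarith) (div_pos (by linarith) hA1)
    have hle1 : h ≤ 1 - τ i := by rw [hh]; exact min_le_left _ _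
    have hle2 : h ≤ -g / (|A i i| + 1) := by rw [hh]; exact min_le_right _ _
    have hle3 : h * (|A i i| + 1) ≤ -g := by rwa [le_div_iff₀ hA1] at hle2
    have h4 := key i h (by have := (hbox i).1; linarith) (by linarith)
    rw [← hgd] at h4
    have h5 : A i i ≤ |A i i| := le_abs_self _
    have h6 : h * A i i ≤ h * |A i i| := mul_le_mul_of_nonneg_left h5 hpos.le
    have h7 : h * g + h ^ 2 * A i i / 2 = h * (g + h * A i i / 2) := by ring
    rw [h7] at h4
    have h8 : g + h * A i i / 2 < 0 := by nlinarith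
    have h9 : h * (g + h * A i i / 2) < 0 := mul_neg_of_pos_of_neg hpos h8
    linarith
  · by_contra hg
    obtain ⟨g, hgd⟩ : ∃ g, g = (∑ j, A i j * τ j) - c i := ⟨_, rfl⟩
    rw [← hgd] at hg
    have hg' : 0 < g := not_le.1 hg
    have hA1 : 0 < |A i i| + 1 := by positivity
    obtain ⟨h, hh⟩ : ∃ h, h = min (τ i) (g / (|A i i| + 1)) := ⟨_, rfl⟩
    have hpos : 0 < h := by
      rw [hh]; exact lt_min hi (div_pos hg' hA1)
    have hle1 : h ≤ τ i := by rw [hh]; exact min_le_left _ _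
    have hle2 : h ≤ g / (|A i i| + 1) := by rw [hh]; exact min_le_right _ _
    have hle3 : h * (|A i i| + 1) ≤ g := by rwa [le_div_iff₀ hA1] at hle2
    have h4 := key i (-h) (by linarith) (by have := (hbox i).2; linarith)
    rw [← hgd] at h4
    have h5 : A i i ≤ |A i i| := le_abs_self _
    have h6 : h * A i i ≤ h * |A i i| := mul_le_mul_of_nonneg_left h5 hpos.le
    have h7 : -h * g + (-h) ^ 2 * A i i / 2 = h * (-g + h * A i i / 2) := by ring
    rw [h7] at h4
    have h8 : -g + h * A i i / 2 < 0 := by nlinarith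
    have h9 : h * (-g + h * A i i / 2) < 0 := mul_neg_of_pos_of_neg hpos h8
    linarith
end


/-! ### exists_cell -/
section
-- ===== given lemmas (leave as they are, do not prove) =====


noncomputable def TF_exists_cell_phi (n : E3) (t : ℝ) (x : E3) : E3 :=
  if ⟪n, x⟫ < t then x else refl n t x

noncomputable def TF_exists_cell_g (n : E3) (t : ℝ) (δ : E3 → ℝ) (h M : ℝ) (x : E3) :
    Bool × Bool × (Fin 3 → ℤ) :=
  (if 0 ≤ δ (TF_exists_cell_phi n t x) then true else false,
   if M ≤ ‖TF_exists_cell_phi n t x‖ then true else false,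
   if M ≤ ‖TF_exists_cell_phi n t x‖ then (0 : Fin 3 → ℤ)
   else fun i => ⌊TF_exists_cell_phi n t x i / h⌋)

theorem TF_exists_cell_fin {α : Type} [DecidableEq α] (T : Finset α) (a : α) (ha : a ∈ T) :
    ∃ F : α → Fin T.card, ∀ x ∈ T, ∀ y ∈ T, F x = F y → x = y := by
  refine ⟨fun c => if hc : c ∈ T then T.equivFin ⟨c, hc⟩ else T.equivFin ⟨a, ha⟩, ?_⟩
  intro x hx y hy hxy
  simp only [hx, hy, dif_pos] at hxy
  have := T.equivFin.injective hxy
  exact congrArg Subtype.val this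

-- ===== TARGET =====
theorem exists_cell (n : E3) (hn : ‖n‖ = 1) (t : ℝ) (δ : E3 → ℝ) (hδ : Measurable δ) (η M : ℝ)
    (hη : 0 < η) :
    ∃ (N : ℕ) (cell : E3 → Fin N), Measurable cell ∧ (∀ x, cell (refl n t x) = cell x) ∧
      ∀ x y, ⟪n, x⟫ < t → ⟪n, y⟫ < t → cell x = cell y →
        ((0 ≤ δ x ↔ 0 ≤ δ y) ∧ (‖x - y‖ < η ∨ (M ≤ ‖x‖ ∧ M ≤ ‖y‖))) := by
  classical
  obtain ⟨hinv, -, hinner, hplane, hmeas, -⟩ := refl_basic n hn t
  set φ := TF_exists_cell_phi n t with hφ
  have hφm : Measurable φ := by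
    rw [hφ]
    unfold TF_exists_cell_phi
    refine Measurable.ite ?_ measurable_id hmeas
    exact measurableSet_lt (by fun_prop) measurable_const
  have hφs : ∀ x, φ (refl n t x) = φ x := by
    intro x
    rw [hφ]
    unfold TF_exists_cell_phi
    rcases lt_trichotomy (⟪n, x⟫ : ℝ) t with h | h | h
    · have h2 : ¬ (⟪n, refl n t x⟫ : ℝ) < t := by
        rw [hinner]
        linarith
      rw [if_neg h2, if_pos h, hinv]
    · rw [hplane x h, hplane x h]
    · have h2 : (⟪n, refl n t x⟫ : ℝ) < t := by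
        rw [hinner]
        linarith
      have h3 : ¬ (⟪n, x⟫ : ℝ) < t := by linarith
      rw [if_pos h2, if_neg h3]
  have hφx : ∀ x, (⟪n, x⟫ : ℝ) < t → φ x = x := by
    intro x hx
    rw [hφ]
    unfold TF_exists_cell_phi
    rw [if_pos hx]
  set h : ℝ := η / 2 with hh
  have hpos : 0 < h := by rw [hh]; linarith
  set g := TF_exists_cell_g n t δ h M with hg
  have hgm : Measurable g := by
    rw [hg]
    unfold TF_exists_cell_g
    rw [← hφ]
    refine Measurable.prodMk ?_ (Measurable.prodMk ?_ ?_)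
    · exact Measurable.ite (measurableSet_le measurable_const (hδ.comp hφm)) measurable_const
        measurable_const
    · exact Measurable.ite (measurableSet_le measurable_const hφm.norm) measurable_const
        measurable_const
    · refine Measurable.ite (measurableSet_le measurable_const hφm.norm) measurable_const ?_
      refine measurable_pi_lambda _ fun i => ?_
      refine Int.measurable_floor.comp (Measurable.div_const ?_ h)
      have : Measurable (fun x : E3 => x i) := by fun_prop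
      exact this.comp hφm
  set K : ℤ := ⌈|M| / h⌉ with hK
  have hK0 : 0 ≤ K := Int.ceil_nonneg (by positivity)
  set T : Finset (Bool × Bool × (Fin 3 → ℤ)) :=
    Finset.univ ×ˢ (Finset.univ ×ˢ Fintype.piFinset (fun _ => Finset.Icc (-K) K)) with hT
  have hgT : ∀ x, g x ∈ T := by
    intro x
    rw [hT, Finset.mem_product, Finset.mem_product, Fintype.mem_piFinset]
    refine ⟨Finset.mem_univ _, Finset.mem_univ _, fun i => ?_⟩
    rw [hg]
    unfold TF_exists_cell_g
    rw [← hφ]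
    simp only
    split_ifs with hM
    · simp [hK0]
    · push Not at hM
      have hle : |φ x i| ≤ ‖φ x‖ := by
        have := PiLp.norm_apply_le (φ x) i
        simpa using this
      have hlt : |φ x i| < |M| := lt_of_le_of_lt hle (lt_of_lt_of_le hM (le_abs_self M))
      have hKr : |M| / h ≤ (K : ℝ) := Int.le_ceil _
      rw [Finset.mem_Icc]
      have h1 := abs_lt.1 hlt
      constructor
      · rw [Int.le_floor]
        push_cast
        have : -(|M| / h) ≤ φ x i / h := by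
          rw [← neg_div]
          exact div_le_div_of_nonneg_right h1.1.le hpos.le
        linarith
      · have h2 : (⌊φ x i / h⌋ : ℝ) ≤ φ x i / h := Int.floor_le _
        have h3 : φ x i / h ≤ |M| / h := div_le_div_of_nonneg_right h1.2.le hpos.le
        have h4 : (⌊φ x i / h⌋ : ℝ) ≤ (K : ℝ) := by linarith
        exact_mod_cast h4
  obtain ⟨F, hF⟩ := TF_exists_cell_fin T (g 0) (hgT 0)
  refine ⟨T.card, fun x => F (g x), (measurable_of_countable F).comp hgm, ?_, ?_⟩
  · intro x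
    have : g (refl n t x) = g x := by
      rw [hg]
      unfold TF_exists_cell_g
      rw [← hφ, hφs]
    simp only [this]
  · intro x y hx hy hxy
    have hgg : g x = g y := hF _ (hgT x) _ (hgT y) hxy
    rw [hg] at hgg
    unfold TF_exists_cell_g at hgg
    rw [← hφ, hφx x hx, hφx y hy, Prod.mk.injEq, Prod.mk.injEq] at hgg
    obtain ⟨g1, g2, g3⟩ := hgg
    refine ⟨?_, ?_⟩
    · by_cases a : 0 ≤ δ x <;> by_cases b : 0 ≤ δ y <;> simp [a, b] at g1 ⊢
    · by_cases a : M ≤ ‖x‖
      · by_cases b : M ≤ ‖y‖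
        · exact Or.inr ⟨a, b⟩
        · simp [a, b] at g2
      · by_cases b : M ≤ ‖y‖
        · simp [a, b] at g2
        · left
          rw [if_neg a, if_neg b] at g3
          have hc : ∀ i, |x i - y i| < h := by
            intro i
            have e := congrFun g3 i
            have e2 := Int.abs_sub_lt_one_of_floor_eq_floor e
            rw [← sub_div, abs_div, abs_of_pos hpos, div_lt_one hpos] at e2
            exact e2
          have hsq : ‖x - y‖ ^ 2 < η ^ 2 := by
            rw [EuclideanSpace.norm_sq_eq, Fin.sum_univ_three]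
            have hi : ∀ i, ‖(x - y) i‖ ^ 2 ≤ h ^ 2 := by
              intro i
              have := hc i
              have e3 : ‖(x - y) i‖ = |x i - y i| := by simp
              rw [e3]
              exact pow_le_pow_left₀ (abs_nonneg _) this.le 2
            have i0 := hi 0
            have i1 := hi 1
            have i2 := hi 2
            have : h ^ 2 = η ^ 2 / 4 := by rw [hh]; ring
            nlinarith [pow_pos hη 2]
          exact lt_of_pow_lt_pow_left₀ 2 hη.le hsq
end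


/-! ### exists_tau -/
section
-- ===== given lemmas (leave as they are, do not prove) =====




-- ===== TARGET =====
theorem TF_exists_tau_meas (g : E3 → ℝ) (hg : Measurable g) : Measurable (pot g) := by
  have h1 : Measurable (fun q : E3 × E3 => g q.2 / ‖q.1 - q.2‖) :=
    (hg.comp measurable_snd).div ((measurable_fst.sub measurable_snd).norm)
  exact (h1.stronglyMeasurable.integral_prod_right').measurable

theorem TF_exists_tau_bdd (F : E3 → ℝ) (hF : Integrable F) (hFm : Measurable F) (w : E3 → ℝ)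
    (hw : Measurable w) (C : ℝ) (hwC : ∀ x, |w x| ≤ C) : Integrable (fun x => w x * F x) := by
  refine Integrable.mono' (hF.norm.const_mul C) (hw.mul hFm).aestronglyMeasurable
    (ae_of_all _ fun x => ?_)
  rw [norm_mul, Real.norm_eq_abs]
  exact mul_le_mul_of_nonneg_right (hwC x) (norm_nonneg _)

theorem TF_exists_tau_w (δ : E3 → ℝ) (hδ : Nice δ) : ∃ B : ℝ, 0 ≤ B ∧ ∀ w : E3 → ℝ,
    Measurable w → (∀ y, |w y| ≤ 1) → ∀ x : E3, Integrable (fun y => w y * δ y / ‖x - y‖) ∧
      ∫ y, |w y * δ y / ‖x - y‖| ≤ B ∧ |pot (fun y => w y * δ y) x| ≤ B := by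
  obtain ⟨B, hB⟩ := nice_bound δ hδ
  have hB0 : 0 ≤ B := le_trans (integral_nonneg fun y => by positivity) (hB 0).2
  refine ⟨B, hB0, fun w hw hw1 x => ?_⟩
  have hm : Measurable (fun y => δ y / ‖x - y‖) :=
    hδ.1.div ((measurable_const.sub measurable_id).norm)
  have h1 : Integrable (fun y => w y * δ y / ‖x - y‖) := by
    have h2 := TF_exists_tau_bdd _ (hB x).1 hm w hw 1 hw1
    refine h2.congr (ae_of_all _ fun y => ?_)
    show w y * (δ y / ‖x - y‖) = w y * δ y / ‖x - y‖
    ring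
  have h3 : ∫ y, |w y * δ y / ‖x - y‖| ≤ B := by
    refine le_trans ?_ (hB x).2
    have h4 : Integrable (fun y => |δ y| / ‖x - y‖) := by
      have h5 := (hB x).1.norm
      refine h5.congr (ae_of_all _ fun y => ?_)
      show ‖δ y / ‖x - y‖‖ = |δ y| / ‖x - y‖
      rw [norm_div, norm_norm, Real.norm_eq_abs]
    refine integral_mono h1.abs h4 fun y => ?_
    show |w y * δ y / ‖x - y‖| ≤ |δ y| / ‖x - y‖
    rw [abs_div, abs_mul, abs_of_nonneg (norm_nonneg (x - y))]
    apply div_le_div_of_nonneg_right _ (norm_nonneg _)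
    calc |w y| * |δ y| ≤ 1 * |δ y| := mul_le_mul_of_nonneg_right (hw1 y) (abs_nonneg _)
      _ = |δ y| := one_mul _
  refine ⟨h1, h3, le_trans ?_ h3⟩
  exact abs_integral_le_integral_abs

theorem TF_exists_tau_symm (δ : E3 → ℝ) (hδ : Nice δ) (w w' : E3 → ℝ) (hw : Measurable w)
    (hw' : Measurable w') (h1 : ∀ y, |w y| ≤ 1) (h1' : ∀ y, |w' y| ≤ 1) :
    ∫ x, (w x * δ x) * pot (fun y => w' y * δ y) x =
      ∫ x, (w' x * δ x) * pot (fun y => w y * δ y) x := by
  obtain ⟨B, hB0, hB⟩ := TF_exists_tau_w δ hδ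
  have hm : Measurable (fun q : E3 × E3 => (w q.1 * δ q.1) * (w' q.2 * δ q.2 / ‖q.1 - q.2‖)) :=
    ((hw.comp measurable_fst).mul (hδ.1.comp measurable_fst)).mul
      (((hw'.comp measurable_snd).mul (hδ.1.comp measurable_snd)).div
        ((measurable_fst.sub measurable_snd).norm))
  have hint : Integrable (Function.uncurry fun x y : E3 =>
      (w x * δ x) * (w' y * δ y / ‖x - y‖)) (volume.prod volume) := by
    refine (integrable_prod_iff hm.aestronglyMeasurable).2 ⟨ae_of_all _ fun x => ?_, ?_⟩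
    · have k := (hB w' hw' h1' x).1.const_mul (w x * δ x)
      exact k
    · have h2 : (fun x : E3 => ∫ y, ‖(w x * δ x) * (w' y * δ y / ‖x - y‖)‖) =
          fun x => |w x * δ x| * ∫ y, |w' y * δ y / ‖x - y‖| := by
        funext x
        rw [← integral_const_mul]
        refine integral_congr_ae (ae_of_all _ fun y => ?_)
        show ‖(w x * δ x) * (w' y * δ y / ‖x - y‖)‖ = |w x * δ x| * |w' y * δ y / ‖x - y‖|
        rw [norm_mul, Real.norm_eq_abs, Real.norm_eq_abs]
      have hmm : AEStronglyMeasurable (fun x : E3 => ∫ y, ‖(w x * δ x) *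
          (w' y * δ y / ‖x - y‖)‖) volume :=
        (hm.norm.stronglyMeasurable.integral_prod_right').aestronglyMeasurable
      refine Integrable.mono' (hδ.2.1.norm.const_mul B) hmm (ae_of_all _ fun x => ?_)
      have h3 := congrFun h2 x
      have h4 : ‖∫ y, ‖(w x * δ x) * (w' y * δ y / ‖x - y‖)‖‖ ≤ B * ‖δ x‖ := by
        rw [h3, Real.norm_eq_abs, abs_mul, abs_abs,
          abs_of_nonneg (integral_nonneg fun y => abs_nonneg _), abs_mul, mul_comm B,
          Real.norm_eq_abs]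
        apply mul_le_mul _ (hB w' hw' h1' x).2.1 (integral_nonneg fun y => abs_nonneg _)
          (abs_nonneg _)
        calc |w x| * |δ x| ≤ 1 * |δ x| := mul_le_mul_of_nonneg_right (h1 x) (abs_nonneg _)
          _ = |δ x| := one_mul _
      exact h4
  have hsw := integral_integral_swap hint
  have e1 : ∫ x, (w x * δ x) * pot (fun y => w' y * δ y) x =
      ∫ x, ∫ y, (w x * δ x) * (w' y * δ y / ‖x - y‖) := by
    refine integral_congr_ae (ae_of_all _ fun x => ?_)
    show (w x * δ x) * pot (fun y => w' y * δ y) x =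
      ∫ y, (w x * δ x) * (w' y * δ y / ‖x - y‖)
    rw [integral_const_mul]
    rfl
  have e2 : ∫ x, (w' x * δ x) * pot (fun y => w y * δ y) x =
      ∫ y, ∫ x, (w x * δ x) * (w' y * δ y / ‖x - y‖) := by
    refine integral_congr_ae (ae_of_all _ fun y => ?_)
    show (w' y * δ y) * pot (fun z => w z * δ z) y =
      ∫ x, (w x * δ x) * (w' y * δ y / ‖x - y‖)
    unfold pot
    rw [← integral_const_mul]
    refine integral_congr_ae (ae_of_all _ fun x => ?_)
    show (w' y * δ y) * (w x * δ x / ‖y - x‖) = (w x * δ x) * (w' y * δ y / ‖x - y‖)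
    rw [norm_sub_rev y x]
    ring
  rw [e1, e2, hsw]

theorem exists_tau (n : E3) (t a : ℝ) (p : E3) (δ : E3 → ℝ) (hδ : Nice δ) (N : ℕ)
    (cell : E3 → Fin N) (hcell : Measurable cell) :
    ∃ τ : Fin N → ℝ, (∀ i, 0 ≤ τ i ∧ τ i ≤ 1) ∧
      (∫ x, (1 - τ (cell x)) * Cf n t a p (fun y => τ (cell y)) δ x * δ x ≤ 0) ∧
      ∀ i, 0 < τ i → 0 ≤ ∫ x in cell ⁻¹' {i}, Cf n t a p (fun y => τ (cell y)) δ x * δ x := by
  classical
  obtain ⟨B, hB0, hB⟩ := TF_exists_tau_w δ hδ
  obtain ⟨e, he⟩ : ∃ e : Fin N → E3 → ℝ, e = fun i y => if cell y = i then 1 else 0 := ⟨_, rfl⟩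
  have hem : ∀ i, Measurable (e i) := by
    intro i
    rw [he]
    exact Measurable.ite (hcell (measurableSet_singleton i)) measurable_const measurable_const
  have he1 : ∀ i y, |e i y| ≤ 1 := by
    intro i y
    rw [he]
    show |if cell y = i then (1:ℝ) else 0| ≤ 1
    split_ifs <;> simp
  have hes : ∀ (f : Fin N → ℝ) (y : E3), ∑ j, f j * e j y = f (cell y) := by
    intro f y
    rw [he]
    simp only [mul_ite, mul_one, mul_zero]
    rw [Finset.sum_ite_eq Finset.univ (cell y) f, if_pos (Finset.mem_univ _)]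
  -- the function b
  have hbm : Measurable (bfun n t a p) := by
    unfold bfun
    exact (((measurable_id.sub measurable_const).norm.const_div 1).sub
      ((measurable_id.sub measurable_const).norm.const_div 1)).const_mul a
  have hb : Integrable (fun x => bfun n t a p x * δ x) := by
    obtain ⟨B', hB'⟩ := nice_bound δ hδ
    have k1 := ((hB' p).1.sub (hB' (refl n t p)).1).const_mul a
    refine k1.congr (ae_of_all _ fun x => ?_)
    show a * (δ x / ‖p - x‖ - δ x / ‖refl n t p - x‖) =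
      a * (1 / ‖x - p‖ - 1 / ‖x - refl n t p‖) * δ x
    rw [norm_sub_rev p x, norm_sub_rev (refl n t p) x]
    ring
  have hbm' : Measurable (fun x => bfun n t a p x * δ x) := hbm.mul hδ.1
  have hpm : ∀ j, Measurable (pot (fun y => e j y * δ y)) := fun j =>
    TF_exists_tau_meas _ ((hem j).mul hδ.1)
  have I1 : ∀ i, Integrable (fun x => e i x * (bfun n t a p x * δ x)) := fun i =>
    TF_exists_tau_bdd _ hb hbm' (e i) (hem i) 1 (he1 i)
  have I2 : ∀ i j, Integrable (fun x => (e i x * δ x) * pot (fun y => e j y * δ y) x) := by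
    intro i j
    have k1 := TF_exists_tau_bdd δ hδ.2.1 hδ.1 (fun x => e i x * pot (fun y => e j y * δ y) x)
      ((hem i).mul (hpm j)) B (fun x => by
        rw [abs_mul]
        calc |e i x| * |pot (fun y => e j y * δ y) x| ≤ 1 * B :=
              mul_le_mul (he1 i x) (hB (e j) (hem j) (he1 j) x).2.2 (abs_nonneg _) zero_le_one
          _ = B := one_mul _)
    refine k1.congr (ae_of_all _ fun x => ?_)
    show e i x * pot (fun y => e j y * δ y) x * δ x = (e i x * δ x) * pot (fun y => e j y * δ y) x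
    ring
  obtain ⟨τ, hτ, hτ2⟩ := box_min
    (fun i j => ∫ x, (e i x * δ x) * pot (fun y => e j y * δ y) x)
    (fun i j => TF_exists_tau_symm δ hδ (e i) (e j) (hem i) (hem j) (he1 i) (he1 j))
    (fun i => ∫ x, e i x * (bfun n t a p x * δ x))
  have hpot : ∀ x, pot (fun y => τ (cell y) * δ y) x =
      ∑ j, τ j * pot (fun y => e j y * δ y) x := by
    intro x
    have k1 : ∀ y, τ (cell y) * δ y / ‖x - y‖ = ∑ j, τ j * (e j y * δ y / ‖x - y‖) := by
      intro y
      rw [← hes τ y, Finset.sum_mul, Finset.sum_div]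
      refine Finset.sum_congr rfl fun j _ => ?_
      ring
    have k2 : pot (fun y => τ (cell y) * δ y) x =
        ∫ y, ∑ j, τ j * (e j y * δ y / ‖x - y‖) := by
      unfold pot
      exact integral_congr_ae (ae_of_all _ fun y => k1 y)
    rw [k2, integral_finsetSum]
    · refine Finset.sum_congr rfl fun j _ => ?_
      rw [integral_const_mul]
      rfl
    · intro j _
      exact (hB (e j) (hem j) (he1 j) x).1.const_mul _
  have hpt : ∀ i x, e i x * (Cf n t a p (fun y => τ (cell y)) δ x * δ x) =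
      e i x * (bfun n t a p x * δ x) -
        ∑ j, τ j * ((e i x * δ x) * pot (fun y => e j y * δ y) x) := by
    intro i x
    unfold Cf
    rw [hpot x, sub_mul, mul_sub, Finset.sum_mul, Finset.mul_sum]
    congr 1
    refine Finset.sum_congr rfl fun j _ => ?_
    ring
  have I3 : ∀ i, Integrable (fun x => e i x * (Cf n t a p (fun y => τ (cell y)) δ x * δ x)) := by
    intro i
    have k1 := (I1 i).sub (integrable_finsetSum Finset.univ
      (fun j _ => (I2 i j).const_mul (τ j)))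
    refine k1.congr (ae_of_all _ fun x => ?_)
    exact (hpt i x).symm
  have hkey : ∀ i, ∫ x, e i x * (Cf n t a p (fun y => τ (cell y)) δ x * δ x) =
      (∫ x, e i x * (bfun n t a p x * δ x)) -
        ∑ j, (∫ x, (e i x * δ x) * pot (fun y => e j y * δ y) x) * τ j := by
    intro i
    have k1 : ∫ x, e i x * (Cf n t a p (fun y => τ (cell y)) δ x * δ x) =
        ∫ x, (e i x * (bfun n t a p x * δ x) -
        ∑ j, τ j * ((e i x * δ x) * pot (fun y => e j y * δ y) x)) :=
      integral_congr_ae (ae_of_all _ fun x => hpt i x)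
    rw [k1, integral_sub (I1 i) (integrable_finsetSum Finset.univ
      (fun j _ => (I2 i j).const_mul (τ j))), integral_finsetSum _
      (fun j _ => (I2 i j).const_mul (τ j))]
    congr 1
    refine Finset.sum_congr rfl fun j _ => ?_
    rw [integral_const_mul, mul_comm]
  refine ⟨τ, hτ, ?_, ?_⟩
  · have k1 : ∫ x, (1 - τ (cell x)) * Cf n t a p (fun y => τ (cell y)) δ x * δ x =
        ∑ i, (1 - τ i) * ∫ x, e i x * (Cf n t a p (fun y => τ (cell y)) δ x * δ x) := by
      have k2 : ∫ x, (1 - τ (cell x)) * Cf n t a p (fun y => τ (cell y)) δ x * δ x =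
          ∫ x, ∑ i, (1 - τ i) * (e i x * (Cf n t a p (fun y => τ (cell y)) δ x * δ x)) := by
        refine integral_congr_ae (ae_of_all _ fun x => ?_)
        show (1 - τ (cell x)) * Cf n t a p (fun y => τ (cell y)) δ x * δ x =
          ∑ i, (1 - τ i) * (e i x * (Cf n t a p (fun y => τ (cell y)) δ x * δ x))
        have k3 := hes (fun i => 1 - τ i) x
        have k4 : (1 - τ (cell x)) * Cf n t a p (fun y => τ (cell y)) δ x * δ x =
            (∑ j, (1 - τ j) * e j x) * (Cf n t a p (fun y => τ (cell y)) δ x * δ x) := by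
          rw [k3]
          ring
        rw [k4, Finset.sum_mul]
        refine Finset.sum_congr rfl fun j _ => ?_
        ring
      rw [k2, integral_finsetSum _ (fun i _ => (I3 i).const_mul (1 - τ i))]
      refine Finset.sum_congr rfl fun i _ => ?_
      rw [integral_const_mul]
    rw [k1]
    refine Finset.sum_nonpos fun i _ => ?_
    rcases (hτ i).2.eq_or_lt with h1 | h1
    · rw [h1, sub_self, zero_mul]
    · have k2 := (hτ2 i).1 h1
      rw [hkey i]
      apply mul_nonpos_of_nonneg_of_nonpos (by linarith)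
      linarith
  · intro i hi
    have k2 := (hτ2 i).2 hi
    have k3 : ∫ x in cell ⁻¹' {i}, Cf n t a p (fun y => τ (cell y)) δ x * δ x =
        ∫ x, e i x * (Cf n t a p (fun y => τ (cell y)) δ x * δ x) := by
      rw [← integral_indicator (hcell (measurableSet_singleton i))]
      refine integral_congr_ae (ae_of_all _ fun x => ?_)
      show (cell ⁻¹' {i}).indicator (fun x => Cf n t a p (fun y => τ (cell y)) δ x * δ x) x =
        e i x * (Cf n t a p (fun y => τ (cell y)) δ x * δ x)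
      rw [he]
      by_cases hx : cell x = i
      · have hx' : x ∈ cell ⁻¹' {i} := hx
        rw [Set.indicator_of_mem hx']
        show _ = (if cell x = i then (1:ℝ) else 0) * _
        rw [if_pos hx, one_mul]
      · have hx' : x ∉ cell ⁻¹' {i} := hx
        rw [Set.indicator_of_notMem hx']
        show _ = (if cell x = i then (1:ℝ) else 0) * _
        rw [if_neg hx, zero_mul]
    rw [k3, hkey i]
    linarith
end


/-! ### min_principle -/
section
-- ===== TARGET =====
theorem TF_min_principle_odd (v x1 : E3) (s : ℝ) :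
    ∫ y in ball x1 s, ⟪v, y - x1⟫ = 0 := by
  have h1 : ∫ y in ball x1 s, ⟪v, y - x1⟫ = ∫ z in ball (0:E3) s, ⟪v, z⟫ := by
    rw [← integral_indicator measurableSet_ball, ← integral_indicator measurableSet_ball]
    rw [← integral_sub_right_eq_self (fun z => (ball (0:E3) s).indicator (fun z => ⟪v, z⟫) z) x1]
    congr 1
    ext y
    simp only [Set.indicator, mem_ball, dist_eq_norm, sub_zero]
  rw [h1]
  have h2 : ∫ z in ball (0:E3) s, ⟪v, z⟫ = - ∫ z in ball (0:E3) s, ⟪v, z⟫ := by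
    conv_lhs => rw [← integral_indicator measurableSet_ball]
    rw [← integral_neg_eq_self]
    rw [← integral_indicator measurableSet_ball, ← integral_neg]
    congr 1
    ext z
    simp only [Set.indicator, mem_ball, dist_eq_norm, sub_zero, norm_neg, inner_neg_right]
    split_ifs <;> simp
  linarith

theorem TF_min_principle_pos (x1 : E3) (s : ℝ) (hs : 0 < s) :
    0 < ∫ y in ball x1 s, ‖y - x1‖ ^ 2 := by
  have hint : IntegrableOn (fun y : E3 => ‖y - x1‖ ^ 2) (ball x1 s) := by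
    have hc : Continuous (fun y : E3 => ‖y - x1‖ ^ 2) := by fun_prop
    exact (hc.continuousOn.integrableOn_compact (isCompact_closedBall x1 s)).mono_set ball_subset_closedBall
  rw [setIntegral_pos_iff_support_of_nonneg_ae _ hint]
  · have h1 : (Function.support fun y : E3 => ‖y - x1‖ ^ 2) ∩ ball x1 s = ball x1 s \ {x1} := by
      ext y
      simp only [Set.mem_inter_iff, Function.mem_support, Set.mem_diff, Set.mem_singleton_iff]
      constructor
      · rintro ⟨h, h'⟩
        refine ⟨h', ?_⟩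
        rintro rfl
        simp at h
      · rintro ⟨h, h'⟩
        refine ⟨?_, h⟩
        have : 0 < ‖y - x1‖ := norm_pos_iff.mpr (sub_ne_zero.mpr h')
        positivity
    rw [h1, measure_diff_null (measure_singleton x1)]
    exact measure_ball_pos _ _ hs
  · filter_upwards with y
    positivity

theorem min_principle (n : E3) (hn : ‖n‖ = 1) (t : ℝ) (C : E3 → ℝ) (ε M : ℝ) (hε : 0 < ε) (p : E3)
    (hcont : ∀ x, x ≠ p → ⟪n, x⟫ ≤ t → ContinuousAt C x)
    (hp : ∃ r0 > 0, ∀ x, ‖x - p‖ < r0 → x ≠ p → 0 ≤ C x)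
    (hbd : ∀ x, ⟪n, x⟫ = t → C x = 0)
    (hfar : ∀ x, M ≤ ‖x‖ → x ≠ p → -(ε/2) ≤ C x)
    (hsub : ∀ x, ⟪n, x⟫ < t → x ≠ p → C x < -(ε/2) → ∃ s0 > 0, ∀ s, 0 < s → s < s0 →
      IntegrableOn C (ball x s) ∧ ∫ y in ball x s, C y ≤ (volume (ball x s)).toReal * C x) :
    ∀ x, ⟪n, x⟫ < t → x ≠ p → -ε ≤ C x := by
  intro x0 hx0 hx0p
  by_contra hcon
  push Not at hcon
  obtain ⟨r0, hr0, hp0⟩ := hp
  have hx0M : ‖x0‖ < M := by
    by_contra h
    push Not at h
    have := hfar x0 h hx0p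
    linarith
  have hM : 0 < M := lt_of_le_of_lt (norm_nonneg _) hx0M
  have hx0r : r0 ≤ ‖x0 - p‖ := by
    by_contra h
    push Not at h
    have := hp0 x0 h hx0p
    linarith
  set q := ε / (4 * M ^ 2) with hq
  have hqpos : 0 < q := by positivity
  have hqM : q * M ^ 2 = ε / 4 := by rw [hq]; field_simp
  set K : Set E3 := {x | ⟪n, x⟫ ≤ t ∧ ‖x‖ ≤ M ∧ r0 / 2 ≤ ‖x - p‖} with hK
  have hKc : IsCompact K := by
    have h1 : IsClosed K := by
      have e1 : IsClosed {x : E3 | ⟪n, x⟫ ≤ t} := isClosed_le (by fun_prop) continuous_const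
      have e2 : IsClosed {x : E3 | ‖x‖ ≤ M} := isClosed_le (by fun_prop) continuous_const
      have e3 : IsClosed {x : E3 | r0 / 2 ≤ ‖x - p‖} := isClosed_le continuous_const (by fun_prop)
      exact e1.inter (e2.inter e3)
    refine (isCompact_closedBall (0:E3) M).of_isClosed_subset h1 ?_
    intro x hx
    rw [mem_closedBall, dist_zero_right]
    exact hx.2.1
  have hKp : ∀ x ∈ K, x ≠ p := by
    rintro x hx rfl
    have := hx.2.2
    rw [sub_self, norm_zero] at this
    linarith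
  have hF : ContinuousOn (fun x => C x - q * ‖x‖ ^ 2) K := by
    intro x hx
    have h1 : ContinuousAt C x := hcont x (hKp x hx) hx.1
    have h2 : ContinuousAt (fun x : E3 => q * ‖x‖ ^ 2) x := by fun_prop
    exact (h1.sub h2).continuousWithinAt
  have hx0K : x0 ∈ K := ⟨hx0.le, hx0M.le, by linarith⟩
  obtain ⟨x1, hx1K, hmin⟩ := hKc.exists_isMinOn ⟨x0, hx0K⟩ hF
  have hmin' : ∀ y ∈ K, C x1 - q * ‖x1‖ ^ 2 ≤ C y - q * ‖y‖ ^ 2 := fun y hy => hmin hy
  have hC1 : C x1 < -(ε/2) := by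
    have h1 := hmin' x0 hx0K
    have h2 : q * ‖x1‖ ^ 2 ≤ q * M ^ 2 := by
      have : ‖x1‖ ^ 2 ≤ M ^ 2 := by
        have := hx1K.2.1
        have := norm_nonneg x1
        nlinarith
      exact mul_le_mul_of_nonneg_left this hqpos.le
    have h3 : 0 ≤ q * ‖x0‖ ^ 2 := by positivity
    linarith
  have hx1p := hKp x1 hx1K
  have hx1t : ⟪n, x1⟫ < t := by
    rcases lt_or_eq_of_le hx1K.1 with h | h
    · exact h
    · have := hbd x1 h
      linarith
  have hx1M : ‖x1‖ < M := by
    by_contra h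
    push Not at h
    have := hfar x1 h hx1p
    linarith
  have hx1r : r0 ≤ ‖x1 - p‖ := by
    by_contra h
    push Not at h
    have := hp0 x1 h hx1p
    linarith
  obtain ⟨s0, hs0, hs⟩ := hsub x1 hx1t hx1p hC1
  obtain ⟨s, hspos, hs1, hs2, hs3, hs4⟩ : ∃ s, 0 < s ∧ s < s0 ∧ s ≤ t - ⟪n, x1⟫ ∧ s ≤ M - ‖x1‖ ∧ s ≤ r0 / 2 := by
    refine ⟨min (s0/2) (min (t - ⟪n, x1⟫) (min (M - ‖x1‖) (r0/2))), ?_, ?_, ?_, ?_, ?_⟩
    · refine lt_min (by linarith) (lt_min (by linarith) (lt_min (by linarith) (by linarith)))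
    · exact lt_of_le_of_lt (min_le_left _ _) (by linarith)
    · exact (min_le_right _ _).trans (min_le_left _ _)
    · exact (min_le_right _ _).trans ((min_le_right _ _).trans (min_le_left _ _))
    · exact (min_le_right _ _).trans ((min_le_right _ _).trans (min_le_right _ _))
  obtain ⟨hint, hle⟩ := hs s hspos hs1
  have hsubK : ∀ y ∈ ball x1 s, y ∈ K := by
    intro y hy
    have hyd : ‖y - x1‖ < s := by rw [← dist_eq_norm]; exact hy
    refine ⟨?_, ?_, ?_⟩
    · have h1 : ⟪n, y⟫ = ⟪n, x1⟫ + ⟪n, y - x1⟫ := by rw [inner_sub_right]; ring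
      have h2 : ⟪n, y - x1⟫ ≤ ‖n‖ * ‖y - x1‖ := real_inner_le_norm _ _
      rw [hn, one_mul] at h2
      rw [h1]; linarith
    · have h1 : ‖y‖ ≤ ‖x1‖ + ‖y - x1‖ := by
        have := norm_add_le x1 (y - x1)
        simpa using this
      linarith
    · have h1 : ‖x1 - p‖ ≤ ‖y - p‖ + ‖y - x1‖ := by
        have h2 : x1 - p = (y - p) - (y - x1) := by abel
        rw [h2]; exact norm_sub_le _ _
      linarith
  -- integrate
  have hcB : ∀ f : E3 → ℝ, Continuous f → IntegrableOn f (ball x1 s) := fun f hf =>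
    (hf.continuousOn.integrableOn_compact (isCompact_closedBall x1 s)).mono_set ball_subset_closedBall
  have hkey : ∀ y ∈ ball x1 s, C x1 + q * (2 * ⟪x1, y - x1⟫ + ‖y - x1‖ ^ 2) ≤ C y := by
    intro y hy
    have h1 := hmin' y (hsubK y hy)
    have h2 : ‖y‖ ^ 2 = ‖x1‖ ^ 2 + (2 * ⟪x1, y - x1⟫ + ‖y - x1‖ ^ 2) := by
      have h3 : y = x1 + (y - x1) := by abel
      conv_lhs => rw [h3]
      rw [norm_add_sq_real]; ring
    rw [h2] at h1
    linarith
  have hI : ∫ y in ball x1 s, (C x1 + q * (2 * ⟪x1, y - x1⟫ + ‖y - x1‖ ^ 2)) ≤ ∫ y in ball x1 s, C y := by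
    refine setIntegral_mono_on (hcB _ (by fun_prop)) hint measurableSet_ball hkey
  have hI2 : ∫ y in ball x1 s, (C x1 + q * (2 * ⟪x1, y - x1⟫ + ‖y - x1‖ ^ 2))
      = (volume (ball x1 s)).toReal * C x1 + q * ∫ y in ball x1 s, ‖y - x1‖ ^ 2 := by
    rw [integral_add (hcB _ continuous_const) (hcB _ (by fun_prop)), integral_const_mul,
      integral_add (hcB _ (by fun_prop)) (hcB _ (by fun_prop)), integral_const_mul, TF_min_principle_odd,
      setIntegral_const]
    simp [Measure.real]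
  have hpos := TF_min_principle_pos x1 s hspos
  have := mul_pos hqpos hpos
  linarith
end


/-! ### avg_pot -/
section
-- ===== given lemmas (leave as they are, do not prove) =====




-- ===== TARGET =====
theorem avg_pot (G : E3 → ℝ) (hG : Nice G) (x0 : E3) (s : ℝ) (hs : 0 < s)
    (hpos : ∀ᵐ y ∂volume, y ∈ ball x0 s → 0 ≤ G y) :
    IntegrableOn (pot G) (ball x0 s) ∧
    ∫ x in ball x0 s, pot G x ≤ (volume (ball x0 s)).toReal * pot G x0 := by
  obtain ⟨B, hB⟩ := nice_bound G hG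
  have hGm : Measurable G := hG.1
  set μ : Measure E3 := volume.restrict (ball x0 s) with hμ
  haveI : IsFiniteMeasure μ := ⟨by
    rw [hμ, Measure.restrict_apply_univ]
    exact measure_ball_lt_top⟩
  have hFm : Measurable (fun p : E3 × E3 => G p.2 / ‖p.1 - p.2‖) := by
    exact (hGm.comp measurable_snd).div (measurable_fst.sub measurable_snd).norm
  have hF : Integrable (fun p : E3 × E3 => G p.2 / ‖p.1 - p.2‖) (μ.prod volume) := by
    rw [integrable_prod_iff hFm.aestronglyMeasurable]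
    refine ⟨Eventually.of_forall fun x => (hB x).1, ?_⟩
    refine Integrable.of_bound (hFm.norm.aestronglyMeasurable.integral_prod_right') B
      (Eventually.of_forall fun x => ?_)
    have h1 : ∀ y : E3, ‖G y / ‖x - y‖‖ = |G y| / ‖x - y‖ := by
      intro y
      rw [Real.norm_eq_abs, abs_div, abs_of_nonneg (norm_nonneg (x - y))]
    have h2 : ∫ y, ‖G y / ‖x - y‖‖ = ∫ y, |G y| / ‖x - y‖ := by
      congr 1
      funext y
      exact h1 y
    have h3 : 0 ≤ ∫ y, ‖G y / ‖x - y‖‖ := integral_nonneg fun y => norm_nonneg _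
    show ‖∫ y, ‖G y / ‖x - y‖‖‖ ≤ B
    rw [Real.norm_of_nonneg h3, h2]
    exact (hB x).2
  refine ⟨hF.integral_prod_left, ?_⟩
  have hswap : ∫ x in ball x0 s, pot G x = ∫ y, ∫ x, G y / ‖x - y‖ ∂μ := by
    show ∫ x, (∫ y, G y / ‖x - y‖) ∂μ = _
    exact integral_integral_swap hF
  have hR : Integrable (fun y => ∫ x, G y / ‖x - y‖ ∂μ) := hF.integral_prod_right
  have hne : ∀ᵐ y : E3 ∂volume, y ≠ x0 := by
    have h := (Set.countable_singleton x0).ae_notMem (volume : Measure E3)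
    filter_upwards [h] with y hy
    simpa using hy
  rw [hswap]
  have hright : (volume (ball x0 s)).toReal * pot G x0
      = ∫ y, (volume (ball x0 s)).toReal * (G y / ‖x0 - y‖) := by
    unfold pot
    rw [integral_const_mul]
  rw [hright]
  refine integral_mono_ae hR ((hB x0).1.const_mul _) ?_
  filter_upwards [hpos, hne] with y hy hyne
  have h1 : ∫ x, G y / ‖x - y‖ ∂μ = G y * ∫ x in ball x0 s, 1 / ‖x - y‖ := by
    rw [← integral_const_mul]
    congr 1
    funext x
    ring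
  show ∫ x, G y / ‖x - y‖ ∂μ ≤ (volume (ball x0 s)).toReal * (G y / ‖x0 - y‖)
  rw [h1]
  obtain ⟨n1, n2, n3⟩ := newton_ball x0 y s hs
  by_cases hyb : y ∈ ball x0 s
  · have := mul_le_mul_of_nonneg_left (n3 hyne) (hy hyb)
    calc _ ≤ _ := this
      _ = _ := by ring
  · have h2 : s ≤ ‖x0 - y‖ := by
      rw [mem_ball, dist_eq_norm, norm_sub_rev] at hyb
      exact not_lt.1 hyb
    rw [n2 h2]
    apply le_of_eq
    ring
end


/-! ### neg_side -/
section
-- ===== given lemmas (leave as they are, do not prove) =====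




theorem TF_neg_side_pot_meas (g : E3 → ℝ) (hg : Measurable g) : StronglyMeasurable (pot g) := by
  have h : Measurable (Function.uncurry fun (x y : E3) => g y / ‖x - y‖) := by
    apply Measurable.div
    · exact hg.comp measurable_snd
    · exact (measurable_fst.sub measurable_snd).norm
  exact h.stronglyMeasurable.integral_prod_right

theorem TF_neg_side_anti (n : E3) (hn : ‖n‖ = 1) (t a : ℝ) (p : E3) (g : E3 → ℝ)
    (hg : ∀ x, g (refl n t x) = - g x) (x : E3) :
    bfun n t a p (refl n t x) - pot g (refl n t x) = - (bfun n t a p x - pot g x) := by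
  obtain ⟨h1, h2, h3, h4, h5, h6⟩ := refl_basic n hn t
  have e1 : bfun n t a p (refl n t x) = - bfun n t a p x := by
    unfold bfun
    have : ‖refl n t x - p‖ = ‖x - refl n t p‖ := by
      conv_lhs => rw [← h1 p]
      exact h2 _ _
    rw [this, h2]
    ring
  have e2 : pot g (refl n t x) = - pot g x := by
    unfold pot
    let e : E3 ≃ᵐ E3 :=
      { toFun := refl n t
        invFun := refl n t
        left_inv := h1
        right_inv := h1
        measurable_toFun := h5
        measurable_invFun := h5 }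
    have h7 : MeasurePreserving e volume volume := h6
    have h8 := h7.integral_comp' (fun y => g y / ‖refl n t x - y‖)
    rw [← h8, ← integral_neg]
    congr 1
    funext y
    show g (refl n t y) / ‖refl n t x - refl n t y‖ = _
    rw [hg, h2]
    ring
  rw [e1, e2]
  ring

-- ===== TARGET =====
/-- if a cell has small oscillation of `C` and `C < -ε/2` somewhere in it then `w δ ≤ 0` there -/
theorem neg_side (n : E3) (hn : ‖n‖ = 1) (t a : ℝ) (p : E3) (δ : E3 → ℝ) (hδ : Nice δ)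
    (hanti : ∀ x, δ (refl n t x) = - δ x) (N : ℕ) (cell : E3 → Fin N) (hcell : Measurable cell)
    (hsym : ∀ x, cell (refl n t x) = cell x) (τ : Fin N → ℝ) (hτ : ∀ i, 0 ≤ τ i ∧ τ i ≤ 1) (i : Fin N)
    (hi : 0 < τ i → 0 ≤ ∫ x in cell ⁻¹' {i}, Cf n t a p (fun y => τ (cell y)) δ x * δ x)
    (hneg : ∀ x, ⟪n, x⟫ < t → cell x = i → Cf n t a p (fun y => τ (cell y)) δ x < 0)
    (hsign : ∀ x y, ⟪n, x⟫ < t → ⟪n, y⟫ < t → cell x = i → cell y = i → (0 ≤ δ x ↔ 0 ≤ δ y)) :
    ∀ᵐ x ∂volume, ⟪n, x⟫ < t → cell x = i → τ (cell x) * δ x ≤ 0 := by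
  obtain ⟨h1, h2, h3, h4, h5, h6⟩ := refl_basic n hn t
  rcases (hτ i).1.eq_or_lt with h0 | hpos
  · filter_upwards with x _ hx
    rw [hx, ← h0, zero_mul]
  by_cases hex : ∃ x0, ⟪n, x0⟫ < t ∧ cell x0 = i ∧ 0 ≤ δ x0
  swap
  · push Not at hex
    filter_upwards with x hx hxi
    rw [hxi]
    exact (mul_neg_of_pos_of_neg hpos (hex x hx hxi)).le
  obtain ⟨x0, hx0, hx0i, hx0δ⟩ := hex
  have hδ0 : ∀ x, ⟪n, x⟫ < t → cell x = i → 0 ≤ δ x := fun x hx hxi =>
    (hsign x0 x hx0 hx hx0i hxi).mp hx0δ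
  set g : E3 → ℝ := fun y => τ (cell y) * δ y with hg
  have hτm : Measurable fun y => τ (cell y) := (measurable_of_finite τ).comp hcell
  have hgm : Measurable g := hτm.mul hδ.1
  have hgle : ∀ y, |g y| ≤ |δ y| := by
    intro y
    rw [hg]
    simp only [abs_mul]
    rw [abs_of_nonneg (hτ _).1]
    exact mul_le_of_le_one_left (abs_nonneg _) (hτ _).2
  have hgN : Nice g := by
    refine ⟨hgm, ?_, ?_⟩
    · exact hδ.2.1.mono hgm.aestronglyMeasurable (Eventually.of_forall hgle)
    · refine hδ.2.2.mono ?_ (Eventually.of_forall ?_)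
      · exact (hgm.abs.pow_const _).aestronglyMeasurable
      · intro y
        rw [Real.norm_of_nonneg (by positivity), Real.norm_of_nonneg (by positivity)]
        exact Real.rpow_le_rpow (abs_nonneg _) (hgle y) (by norm_num)
  have hganti : ∀ x, g (refl n t x) = - g x := by
    intro x
    simp only [hg]
    rw [hsym, hanti]
    ring
  set C : E3 → ℝ := Cf n t a p (fun y => τ (cell y)) δ with hC
  have hCeq : ∀ x, C x = bfun n t a p x - pot g x := fun x => rfl
  have hCanti : ∀ x, C (refl n t x) = - C x := by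
    intro x
    rw [hCeq, hCeq]
    exact TF_neg_side_anti n hn t a p g hganti x
  -- integrability
  obtain ⟨B, hB⟩ := nice_bound g hgN
  obtain ⟨B', hB'⟩ := nice_bound δ hδ
  have hint : Integrable (fun x => C x * δ x) := by
    have i1 : ∀ q : E3, Integrable (fun x => 1 / ‖x - q‖ * δ x) := by
      intro q
      refine (hB' q).1.congr (Eventually.of_forall ?_)
      intro x
      show δ x / ‖q - x‖ = 1 / ‖x - q‖ * δ x
      rw [norm_sub_rev]
      ring
    have i2 : Integrable (fun x => pot g x * δ x) := by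
      refine Integrable.bdd_mul (c := B) hδ.2.1 (TF_neg_side_pot_meas g hgm).aestronglyMeasurable ?_
      filter_upwards with x
      refine (norm_integral_le_integral_norm _).trans ?_
      refine le_trans (le_of_eq ?_) (hB x).2
      congr 1
      funext y
      rw [norm_div, norm_norm, Real.norm_eq_abs]
    have i3 : Integrable (fun x => a * (1 / ‖x - p‖ * δ x - 1 / ‖x - refl n t p‖ * δ x) -
        pot g x * δ x) := (((i1 p).sub (i1 _)).const_mul a).sub i2
    refine i3.congr (Eventually.of_forall ?_)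
    intro x
    show a * (1 / ‖x - p‖ * δ x - 1 / ‖x - refl n t p‖ * δ x) - pot g x * δ x = C x * δ x
    rw [hCeq, bfun]
    ring
  -- sign on the whole cell
  have hsgn : ∀ x ∈ cell ⁻¹' {i}, 0 ≤ -(C x * δ x) := by
    intro x hx
    have hxi : cell x = i := hx
    rcases lt_trichotomy ⟪n, x⟫ t with hlt | heq | hgt
    · have a1 := hneg x hlt hxi
      have a2 := hδ0 x hlt hxi
      have : C x * δ x ≤ 0 := mul_nonpos_of_nonpos_of_nonneg a1.le a2
      linarith
    · have a1 := hanti x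
      rw [h4 x heq] at a1
      have : δ x = 0 := by linarith
      rw [this]; simp
    · have b1 : ⟪n, refl n t x⟫ < t := by rw [h3]; linarith
      have b2 : cell (refl n t x) = i := by rw [hsym]; exact hxi
      have a1 := hneg _ b1 b2
      have a2 := hδ0 _ b1 b2
      have a3 : C (refl n t x) * δ (refl n t x) ≤ 0 := mul_nonpos_of_nonpos_of_nonneg a1.le a2
      rw [hCanti, hanti, neg_mul_neg] at a3
      linarith
  have hms : MeasurableSet (cell ⁻¹' {i}) := hcell (measurableSet_singleton i)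
  have hI := hi hpos
  have hz : ∫ x in cell ⁻¹' {i}, -(C x * δ x) = 0 := by
    apply le_antisymm
    · rw [integral_neg]; linarith
    · exact setIntegral_nonneg hms hsgn
  have hae := (setIntegral_eq_zero_iff_of_nonneg_ae
    ((ae_restrict_iff' hms).mpr (Eventually.of_forall hsgn)) hint.neg.integrableOn).mp hz
  have hae' := (ae_restrict_iff' hms).mp hae
  filter_upwards [hae'] with x hx hlt hxi
  have b1 : -(C x * δ x) = 0 := hx hxi
  have b2 := hneg x hlt hxi
  have b3 : δ x = 0 := by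
    rcases mul_eq_zero.mp (neg_eq_zero.mp b1) with h | h
    · exact absurd h b2.ne
    · exact h
  rw [b3, mul_zero]
end


/-! ### core_consts -/
section
-- ===== given lemmas (leave as they are, do not prove) =====








-- ===== helper lemmas =====
theorem TF_core_consts_pot_le (δ : E3 → ℝ) (hδ : Nice δ) (w : E3 → ℝ) (hw : Measurable w)
    (hw1 : ∀ x, 0 ≤ w x ∧ w x ≤ 1) (x : E3) :
    Integrable (fun y => w y * δ y / ‖x - y‖) ∧
      |pot (fun y => w y * δ y) x| ≤ ∫ y, |δ y| / ‖x - y‖ := by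
  obtain ⟨B, hB⟩ := nice_bound δ hδ
  have h1 : Integrable (fun y => |δ y| / ‖x - y‖) := by
    refine ((hB x).1.abs).congr (Eventually.of_forall fun y => ?_)
    simp [abs_div]
  have hpt : ∀ y, ‖w y * δ y / ‖x - y‖‖ ≤ |δ y| / ‖x - y‖ := by
    intro y
    rw [Real.norm_eq_abs, abs_div, abs_mul, abs_of_nonneg (hw1 y).1, abs_norm]
    apply div_le_div_of_nonneg_right _ (norm_nonneg _)
    nlinarith [(hw1 y).2, abs_nonneg (δ y)]
  refine ⟨h1.mono' ?_ (Eventually.of_forall hpt), ?_⟩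
  · exact ((hw.mul hδ.1).div (measurable_const.sub measurable_id).norm).aestronglyMeasurable
  · have := norm_integral_le_of_norm_le h1 (Eventually.of_forall hpt)
    rwa [Real.norm_eq_abs] at this

theorem TF_core_consts_pot_diff (δ : E3 → ℝ) (hδ : Nice δ) (w : E3 → ℝ) (hw : Measurable w)
    (hw1 : ∀ x, 0 ≤ w x ∧ w x ≤ 1) (x x' : E3) (c : ℝ)
    (hI : Integrable (fun y => |δ y| * |1 / ‖x - y‖ - 1 / ‖x' - y‖|))
    (hc : ∫ y, |δ y| * |1 / ‖x - y‖ - 1 / ‖x' - y‖| ≤ c) :
    |pot (fun y => w y * δ y) x - pot (fun y => w y * δ y) x'| ≤ c := by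
  unfold pot
  rw [← integral_sub (TF_core_consts_pot_le δ hδ w hw hw1 x).1
    (TF_core_consts_pot_le δ hδ w hw hw1 x').1]
  refine le_trans ?_ hc
  rw [← Real.norm_eq_abs]
  refine norm_integral_le_of_norm_le hI (Eventually.of_forall fun y => ?_)
  have : w y * δ y / ‖x - y‖ - w y * δ y / ‖x' - y‖
      = w y * (δ y * (1 / ‖x - y‖ - 1 / ‖x' - y‖)) := by ring
  rw [this, Real.norm_eq_abs, abs_mul, abs_mul, abs_of_nonneg (hw1 y).1]
  have h := mul_nonneg (abs_nonneg (δ y)) (abs_nonneg (1 / ‖x - y‖ - 1 / ‖x' - y‖))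
  nlinarith [(hw1 y).2]

theorem TF_core_consts_geo (n : E3) (hn : ‖n‖ = 1) (t : ℝ) (p x : E3) (hx : ⟪n, x⟫ ≤ t) :
    t - ⟪n, p⟫ ≤ ‖x - refl n t p‖ := by
  have h1 : ⟪n, refl n t p - x⟫ ≤ ‖n‖ * ‖refl n t p - x‖ := real_inner_le_norm _ _
  rw [hn, one_mul, inner_sub_right, (refl_basic n hn t).2.2.1 p, norm_sub_rev] at h1
  linarith

theorem TF_core_consts_inv (u v q : E3) (s1 s2 : ℝ) (h1 : 0 < s1) (h2 : 0 < s2)
    (hu : s1 ≤ ‖u - q‖) (hv : s2 ≤ ‖v - q‖) :
    |1 / ‖u - q‖ - 1 / ‖v - q‖| ≤ ‖u - v‖ / (s1 * s2) := by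
  have hu0 : 0 < ‖u - q‖ := lt_of_lt_of_le h1 hu
  have hv0 : 0 < ‖v - q‖ := lt_of_lt_of_le h2 hv
  have e : 1 / ‖u - q‖ - 1 / ‖v - q‖ = (‖v - q‖ - ‖u - q‖) / (‖u - q‖ * ‖v - q‖) := by
    field_simp
  rw [e, abs_div, abs_of_pos (mul_pos hu0 hv0)]
  have h3 : |‖v - q‖ - ‖u - q‖| ≤ ‖u - v‖ := by
    have := abs_norm_sub_norm_le (v - q) (u - q)
    have e2 : v - q - (u - q) = v - u := by abel
    rw [e2, norm_sub_rev v u] at this
    exact this
  exact div_le_div₀ (norm_nonneg _) h3 (mul_pos h1 h2) (mul_le_mul hu hv h2.le hu0.le)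

theorem TF_core_consts_plane (n : E3) (hn : ‖n‖ = 1) (t a : ℝ) (p : E3)
    (δ : E3 → ℝ) (hanti : ∀ x, δ (refl n t x) = - δ x)
    (w : E3 → ℝ) (hw2 : ∀ x, w (refl n t x) = w x) (x : E3) (hx : ⟪n, x⟫ = t) :
    Cf n t a p w δ x = 0 := by
  obtain ⟨hinv, hiso, hin, hfix, hmeas, hmp⟩ := refl_basic n hn t
  have hxx : refl n t x = x := hfix x hx
  have hb : bfun n t a p x = 0 := by
    unfold bfun
    have : ‖x - refl n t p‖ = ‖x - p‖ := by
      conv_lhs => rw [← hxx]
      exact hiso x p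
    rw [this]; ring
  let e : E3 ≃ᵐ E3 :=
    { toFun := refl n t
      invFun := refl n t
      left_inv := hinv
      right_inv := hinv
      measurable_toFun := hmeas
      measurable_invFun := hmeas }
  have hemb : MeasurableEmbedding (refl n t) := e.measurableEmbedding
  have hp0 : pot (fun y => w y * δ y) x = 0 := by
    unfold pot
    have h1 := hmp.integral_comp hemb (fun y => w y * δ y / ‖x - y‖)
    have h2 : ∀ y, w (refl n t y) * δ (refl n t y) / ‖x - refl n t y‖
        = - (w y * δ y / ‖x - y‖) := by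
      intro y
      have h3 : ‖x - refl n t y‖ = ‖x - y‖ := by
        conv_lhs => rw [← hxx]
        exact hiso x y
      rw [h3, hw2, hanti]; ring
    have h4 : ∫ y, w (refl n t y) * δ (refl n t y) / ‖x - refl n t y‖
        = - ∫ y, w y * δ y / ‖x - y‖ := by
      rw [← integral_neg]
      exact integral_congr_ae (Eventually.of_forall h2)
    have h5 : ∫ y, w y * δ y / ‖x - y‖ = - ∫ y, w y * δ y / ‖x - y‖ := by
      rw [← h4]; exact h1.symm
    linarith
  unfold Cf
  rw [hb, hp0]; ring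

-- ===== TARGET =====
/-- constants that work uniformly for all weights `w` -/
theorem core_consts (n : E3) (hn : ‖n‖ = 1) (t a : ℝ) (ha : 0 < a) (p : E3) (hp : ⟪n, p⟫ < t)
    (δ : E3 → ℝ) (hδ : Nice δ) (hanti : ∀ x, δ (refl n t x) = - δ x) (ε : ℝ) (hε : 0 < ε) :
    ∃ r0 > 0, ∃ η > 0, ∃ M : ℝ, ‖p‖ < M ∧ ∀ w : E3 → ℝ, Measurable w → (∀ x, 0 ≤ w x ∧ w x ≤ 1) →
      (∀ x, w (refl n t x) = w x) →
      (∀ x, ‖x - p‖ < r0 → x ≠ p → 0 ≤ Cf n t a p w δ x) ∧
      (∀ x, M ≤ ‖x‖ → -(ε/4) ≤ Cf n t a p w δ x) ∧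
      (∀ x y, ⟪n, x⟫ < t → ⟪n, y⟫ < t → x ≠ p → Cf n t a p w δ x < -(ε/2) → ‖x - y‖ < 2 * η →
        y ≠ p ∧ Cf n t a p w δ y < -(ε/4)) ∧
      (∀ x, x ≠ p → ⟪n, x⟫ ≤ t → ContinuousAt (Cf n t a p w δ) x) ∧
      (∀ x, ⟪n, x⟫ = t → Cf n t a p w δ x = 0) := by
  obtain ⟨B, hB⟩ := nice_bound δ hδ
  obtain ⟨η0, hη0, hmod⟩ := nice_modulus δ hδ (ε/16) (by positivity)
  obtain ⟨M0, hM0⟩ := nice_decay δ hδ (ε/8) (by positivity)
  set d : ℝ := t - ⟪n, p⟫ with hd
  have hd0 : 0 < d := by rw [hd]; linarith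
  set K : ℝ := |B| + a / d with hK
  have had : 0 < a / d := div_pos ha hd0
  have hK0 : 0 < K := by rw [hK]; have := abs_nonneg B; linarith
  set r0 : ℝ := min d (a / K) with hr0
  have hr00 : 0 < r0 := lt_min hd0 (div_pos ha hK0)
  have hr0d : r0 ≤ d := min_le_left _ _
  have hr0K : r0 ≤ a / K := min_le_right _ _
  set η : ℝ := min (min (η0/2) (r0/4)) (min (ε * r0^2 / (64 * a)) (ε * d^2 / (32 * a))) with hη
  have hη1 : η ≤ η0/2 := (min_le_left _ _).trans (min_le_left _ _)
  have hη2 : η ≤ r0/4 := (min_le_left _ _).trans (min_le_right _ _)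
  have hη3 : η ≤ ε * r0^2 / (64 * a) := (min_le_right _ _).trans (min_le_left _ _)
  have hη4 : η ≤ ε * d^2 / (32 * a) := (min_le_right _ _).trans (min_le_right _ _)
  have hηpos : 0 < η := by
    rw [hη]
    refine lt_min (lt_min (by positivity) (by positivity)) (lt_min (by positivity) (by positivity))
  set M : ℝ := max M0 (max ‖p‖ ‖refl n t p‖ + 8 * a / ε) with hM
  have h8 : 0 < 8 * a / ε := by positivity
  have hM1 : M0 ≤ M := le_max_left _ _
  have hM2 : ‖p‖ + 8 * a / ε ≤ M :=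
    le_trans (add_le_add_left (le_max_left _ _) _) (le_max_right _ _)
  have hM3 : ‖refl n t p‖ + 8 * a / ε ≤ M :=
    le_trans (add_le_add_left (le_max_right _ _) _) (le_max_right _ _)
  refine ⟨r0, hr00, η, hηpos, M, by linarith, ?_⟩
  intro w hw hw1 hw2
  -- near the point `p`
  have hnear : ∀ x, ‖x - p‖ < r0 → x ≠ p → 0 ≤ Cf n t a p w δ x := by
    intro x hx hxp
    have hx0 : 0 < ‖x - p‖ := norm_pos_iff.mpr (sub_ne_zero.mpr hxp)
    have hxt : ⟪n, x⟫ ≤ t := by
      have h1 : ⟪n, x - p⟫ ≤ ‖n‖ * ‖x - p‖ := real_inner_le_norm _ _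
      rw [hn, one_mul, inner_sub_right] at h1
      linarith
    have hg := TF_core_consts_geo n hn t p x hxt
    rw [← hd] at hg
    have h2 : 1 / ‖x - refl n t p‖ ≤ 1 / d := one_div_le_one_div_of_le hd0 hg
    have h3 : 1 / r0 ≤ 1 / ‖x - p‖ := one_div_le_one_div_of_le hx0 hx.le
    have h4 : K ≤ a * (1 / r0) := by
      rw [mul_one_div, le_div_iff₀ hr00]
      rw [le_div_iff₀ hK0] at hr0K
      linarith
    have h5 : a * (1 / r0) ≤ a * (1 / ‖x - p‖) := mul_le_mul_of_nonneg_left h3 ha.le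
    have h6 : a * (1 / ‖x - refl n t p‖) ≤ a * (1 / d) := mul_le_mul_of_nonneg_left h2 ha.le
    have h7 := (TF_core_consts_pot_le δ hδ w hw hw1 x).2
    have h8' := (hB x).2
    have h9 := le_abs_self B
    have h10 := le_abs_self (pot (fun y => w y * δ y) x)
    have h11 : a * (1 / d) = a / d := by ring
    unfold Cf bfun
    rw [mul_sub]
    linarith
  have hfar : ∀ x, M ≤ ‖x‖ → -(ε/4) ≤ Cf n t a p w δ x := by
    intro x hx
    have h1 : 8 * a / ε ≤ ‖x - refl n t p‖ := by
      have := norm_sub_norm_le x (refl n t p)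
      linarith
    have h2 : 1 / ‖x - refl n t p‖ ≤ 1 / (8 * a / ε) := one_div_le_one_div_of_le h8 h1
    have h3 : a * (1 / ‖x - refl n t p‖) ≤ a * (1 / (8 * a / ε)) :=
      mul_le_mul_of_nonneg_left h2 ha.le
    have h4 : a * (1 / (8 * a / ε)) = ε / 8 := by field_simp
    have h5 : 0 ≤ a * (1 / ‖x - p‖) := by positivity
    have h7 := (TF_core_consts_pot_le δ hδ w hw hw1 x).2
    have h8' := hM0 x (by linarith)
    have h10 := le_abs_self (pot (fun y => w y * δ y) x)
    unfold Cf bfun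
    rw [mul_sub]
    linarith
  refine ⟨hnear, hfar, ?_, ?_, ?_⟩
  · intro x y hx hy hxp hC hxy
    have hxr : r0 ≤ ‖x - p‖ := by
      by_contra hcon
      push Not at hcon
      have := hnear x hcon hxp
      linarith
    have hyr : r0 / 2 ≤ ‖y - p‖ := by
      have h1 : ‖x - p‖ ≤ ‖x - y‖ + ‖y - p‖ := by
        have := norm_add_le (x - y) (y - p)
        rwa [sub_add_sub_cancel] at this
      linarith
    have hyp : y ≠ p := by
      intro h
      rw [h, sub_self, norm_zero] at hyr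
      linarith
    refine ⟨hyp, ?_⟩
    have hgx := TF_core_consts_geo n hn t p x hx.le
    have hgy := TF_core_consts_geo n hn t p y hy.le
    rw [← hd] at hgx hgy
    have i1 := TF_core_consts_inv x y p r0 (r0/2) hr00 (by linarith) hxr hyr
    have i2 := TF_core_consts_inv x y (refl n t p) d d hd0 hd0 hgx hgy
    have hxyη : ‖x - y‖ ≤ 2 * η := hxy.le
    have j1 : a * (‖x - y‖ / (r0 * (r0/2))) ≤ ε / 16 := by
      have hle : ‖x - y‖ ≤ ε * r0^2 / (32 * a) := by
        have : 2 * (ε * r0^2 / (64 * a)) = ε * r0^2 / (32 * a) := by field_simp; norm_num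
        linarith
      calc a * (‖x - y‖ / (r0 * (r0/2)))
          ≤ a * ((ε * r0^2 / (32 * a)) / (r0 * (r0/2))) := by gcongr
        _ = ε / 16 := by field_simp; norm_num
    have j2 : a * (‖x - y‖ / (d * d)) ≤ ε / 16 := by
      have hle : ‖x - y‖ ≤ ε * d^2 / (16 * a) := by
        have : 2 * (ε * d^2 / (32 * a)) = ε * d^2 / (16 * a) := by field_simp; norm_num
        linarith
      calc a * (‖x - y‖ / (d * d))
          ≤ a * ((ε * d^2 / (16 * a)) / (d * d)) := by gcongr
        _ = ε / 16 := by field_simp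
    have k1 : a * |1 / ‖x - p‖ - 1 / ‖y - p‖| ≤ ε / 16 :=
      le_trans (mul_le_mul_of_nonneg_left i1 ha.le) j1
    have k2 : a * |1 / ‖x - refl n t p‖ - 1 / ‖y - refl n t p‖| ≤ ε / 16 :=
      le_trans (mul_le_mul_of_nonneg_left i2 ha.le) j2
    have hm := hmod x y (by linarith)
    have k3 := TF_core_consts_pot_diff δ hδ w hw hw1 x y (ε/16) hm.1 hm.2
    have l1 : -(a * |1 / ‖x - p‖ - 1 / ‖y - p‖|) ≤ a * (1 / ‖x - p‖ - 1 / ‖y - p‖) := by
      have := neg_abs_le (1 / ‖x - p‖ - 1 / ‖y - p‖)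
      nlinarith
    have l2 : a * (1 / ‖x - refl n t p‖ - 1 / ‖y - refl n t p‖)
        ≤ a * |1 / ‖x - refl n t p‖ - 1 / ‖y - refl n t p‖| :=
      mul_le_mul_of_nonneg_left (le_abs_self _) ha.le
    have l3 := le_abs_self (pot (fun y => w y * δ y) x - pot (fun y => w y * δ y) y)
    unfold Cf bfun at hC ⊢
    nlinarith
  · intro x hxp hxt
    have hg := TF_core_consts_geo n hn t p x hxt
    rw [← hd] at hg
    have hx0 : ‖x - p‖ ≠ 0 := norm_ne_zero_iff.mpr (sub_ne_zero.mpr hxp)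
    have hx1 : ‖x - refl n t p‖ ≠ 0 := by
      have : 0 < ‖x - refl n t p‖ := lt_of_lt_of_le hd0 hg
      exact this.ne'
    have c1 : ContinuousAt (bfun n t a p) x := by
      unfold bfun
      have e1 : ContinuousAt (fun x : E3 => ‖x - p‖) x := by fun_prop
      have e2 : ContinuousAt (fun x : E3 => ‖x - refl n t p‖) x := by fun_prop
      exact continuousAt_const.mul
        ((continuousAt_const.div e1 hx0).sub (continuousAt_const.div e2 hx1))
    have c2 : ContinuousAt (pot (fun y => w y * δ y)) x := by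
      rw [Metric.continuousAt_iff]
      intro ε' hε'
      obtain ⟨η', hη', hm'⟩ := nice_modulus δ hδ (ε'/2) (by positivity)
      refine ⟨η', hη', fun y hy => ?_⟩
      rw [dist_eq_norm] at hy
      have hm := hm' y x hy
      have := TF_core_consts_pot_diff δ hδ w hw hw1 y x (ε'/2) hm.1 hm.2
      rw [Real.dist_eq]
      linarith
    exact c1.sub c2
  · intro x hx
    exact TF_core_consts_plane n hn t a p δ hanti w hw2 x hx
end


/-! ### hsub -/
section
-- ===== given lemmas (leave as they are, do not prove) =====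






-- ===== TARGET =====
theorem TF_hsub_pot_neg (g : E3 → ℝ) (x : E3) : pot (fun y => -(g y)) x = -pot g x := by
  unfold pot
  rw [← integral_neg]
  refine integral_congr_ae (Eventually.of_forall fun y => ?_)
  show -(g y) / ‖x - y‖ = -(g y / ‖x - y‖)
  rw [neg_div]

theorem TF_hsub_nice_neg (g : E3 → ℝ) (hg : Nice g) : Nice (fun y => -(g y)) := by
  refine ⟨hg.1.neg, hg.2.1.neg, ?_⟩
  have h1 : (fun x => |(-(g x))| ^ (5/3 : ℝ)) = fun x => |g x| ^ (5/3 : ℝ) := by
    funext x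
    rw [abs_neg]
  rw [h1]
  exact hg.2.2

theorem TF_hsub_comb (μ : Measure E3) (A B P : E3 → ℝ) (a : ℝ) (hA : Integrable A μ)
    (hB : Integrable B μ) (hP : Integrable P μ) :
    Integrable (fun x => a * (A x - B x) + P x) μ ∧
      ∫ x, (a * (A x - B x) + P x) ∂μ = a * (∫ x, A x ∂μ) - a * (∫ x, B x ∂μ) + ∫ x, P x ∂μ := by
  have h1 : Integrable (fun x => a * (A x - B x)) μ := (hA.sub hB).const_mul a
  refine ⟨h1.add hP, ?_⟩
  rw [integral_add h1 hP, integral_const_mul, integral_sub hA hB]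
  ring

/-- local superharmonicity -/
theorem hsub (n : E3) (hn : ‖n‖ = 1) (t a : ℝ) (ha : 0 ≤ a) (p : E3) (hp : ⟪n, p⟫ < t)
    (δ w : E3 → ℝ) (hwδ : Nice (fun y => w y * δ y)) (x0 : E3) (hx0 : x0 ≠ p) (s : ℝ) (hs : 0 < s)
    (hball : ∀ y ∈ ball x0 s, ⟪n, y⟫ < t)
    (hneg : ∀ᵐ y ∂volume, y ∈ ball x0 s → w y * δ y ≤ 0) :
    IntegrableOn (Cf n t a p w δ) (ball x0 s) ∧
      ∫ y in ball x0 s, Cf n t a p w δ y ≤ (volume (ball x0 s)).toReal * Cf n t a p w δ x0 := by
  obtain ⟨_, _, hr3, _, _, _⟩ := refl_basic n hn t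
  have hq1 : t < ⟪n, refl n t p⟫ := by
    rw [hr3 p]
    linarith
  have hq2 : s ≤ ‖x0 - refl n t p‖ := by
    by_contra hlt
    rw [not_le] at hlt
    have h1 : refl n t p ∈ ball x0 s := by
      rw [mem_ball, dist_comm, dist_eq_norm]
      exact hlt
    have h2 := hball _ h1
    linarith
  obtain ⟨hIp, _, hp3⟩ := newton_ball x0 p s hs
  obtain ⟨hIq, hq3, _⟩ := newton_ball x0 (refl n t p) s hs
  obtain ⟨hIG, hG2⟩ := avg_pot (fun y => -(w y * δ y)) (TF_hsub_nice_neg _ hwδ) x0 s hs (by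
    filter_upwards [hneg] with y hy hyb
    have := hy hyb
    linarith)
  have hCf : Cf n t a p w δ = fun x => a * (1 / ‖x - p‖ - 1 / ‖x - refl n t p‖) +
      pot (fun y => -(w y * δ y)) x := by
    funext x
    rw [TF_hsub_pot_neg]
    unfold Cf bfun
    ring
  obtain ⟨h1, h2⟩ := TF_hsub_comb (volume.restrict (ball x0 s)) (fun x => 1 / ‖x - p‖)
    (fun x => 1 / ‖x - refl n t p‖) (pot (fun y => -(w y * δ y))) a hIp hIq hIG
  rw [hCf]
  refine ⟨h1, ?_⟩
  rw [h2, hq3 hq2]
  have h3 := mul_le_mul_of_nonneg_left (hp3 hx0.symm) ha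
  have h4 : a * ((volume (ball x0 s)).toReal / ‖x0 - p‖) -
      a * ((volume (ball x0 s)).toReal / ‖x0 - refl n t p‖) +
      (volume (ball x0 s)).toReal * pot (fun y => -(w y * δ y)) x0 =
      (volume (ball x0 s)).toReal * (a * (1 / ‖x0 - p‖ - 1 / ‖x0 - refl n t p‖) +
        pot (fun y => -(w y * δ y)) x0) := by
    ring
  rw [← h4]
  linarith
end


/-! ### trial_adm -/
section
-- ===== given lemmas (leave as they are, do not prove) =====


theorem TF_trial_adm_abs {a b : ℝ} (ha : 0 ≤ a) (hb : 0 ≤ b) :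
    |a - b| ^ (5/3 : ℝ) ≤ a ^ (5/3 : ℝ) + b ^ (5/3 : ℝ) := by
  have h0a : 0 ≤ a ^ (5/3 : ℝ) := Real.rpow_nonneg ha _
  have h0b : 0 ≤ b ^ (5/3 : ℝ) := Real.rpow_nonneg hb _
  rcases le_total a b with h | h
  · have h1 : |a - b| ≤ b := by rw [abs_le]; constructor <;> linarith
    have h2 := Real.rpow_le_rpow (abs_nonneg _) h1 (by norm_num : (0:ℝ) ≤ 5/3)
    linarith
  · have h1 : |a - b| ≤ a := by rw [abs_le]; constructor <;> linarith
    have h2 := Real.rpow_le_rpow (abs_nonneg _) h1 (by norm_num : (0:ℝ) ≤ 5/3)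
    linarith

theorem TF_trial_adm_conv {a b w : ℝ} (ha : 0 ≤ a) (hb : 0 ≤ b) (h0 : 0 ≤ w) (h1 : w ≤ 1) :
    (a - w * (a - b)) ^ (5/3 : ℝ) ≤
      a ^ (5/3 : ℝ) - w * a ^ (5/3 : ℝ) + w * b ^ (5/3 : ℝ) := by
  have hc := (convexOn_rpow (by norm_num : (1:ℝ) ≤ 5/3)).2 (show a ∈ Set.Ici (0:ℝ) from ha)
    (show b ∈ Set.Ici (0:ℝ) from hb) (show 0 ≤ 1 - w by linarith) h0 (by ring)
  simp only [smul_eq_mul] at hc
  have e : a - w * (a - b) = (1 - w) * a + w * b := by ring
  rw [e]
  linarith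

theorem TF_trial_adm_int (n : E3) (hn : ‖n‖ = 1) (t : ℝ) (f : E3 → ℝ) :
    ∫ x, f (refl n t x) = ∫ x, f x := by
  obtain ⟨h1, h2, h3, h4, h5, h6⟩ := refl_basic n hn t
  let e : E3 ≃ᵐ E3 :=
    { toFun := refl n t
      invFun := refl n t
      left_inv := h1
      right_inv := h1
      measurable_toFun := h5
      measurable_invFun := h5 }
  have he : MeasurePreserving e volume volume := h6
  exact he.integral_comp' (f := e) f

-- ===== TARGET =====
theorem trial_adm (n : E3) (hn : ‖n‖ = 1) (t : ℝ) (ρ : E3 → ℝ) (hρ : Adm ρ)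
    (w : E3 → ℝ) (hw : Measurable w) (hw01 : ∀ x, 0 ≤ w x ∧ w x ≤ 1) (hws : ∀ x, w (refl n t x) = w x) :
    Nice (fun x => ρ x - ρ (refl n t x)) ∧ Nice (fun x => w x * (ρ x - ρ (refl n t x))) ∧
    Adm (fun x => ρ x - w x * (ρ x - ρ (refl n t x))) ∧
    ∫ x, (ρ x - w x * (ρ x - ρ (refl n t x))) = ∫ x, ρ x ∧
    ∫ x, (ρ x - w x * (ρ x - ρ (refl n t x))) ^ (5/3 : ℝ) ≤ ∫ x, ρ x ^ (5/3 : ℝ) := by
  obtain ⟨hm, h0, hi, hp⟩ := hρ
  obtain ⟨r1, r2, r3, r4, r5, r6⟩ := refl_basic n hn t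
  have hms : Measurable (fun x => ρ (refl n t x)) := hm.comp r5
  have his : Integrable (fun x => ρ (refl n t x)) :=
    (r6.integrable_comp hm.aestronglyMeasurable).mpr hi
  have hmp : Measurable (fun x => ρ x ^ (5/3 : ℝ)) := hm.pow_const _
  have hps : Integrable (fun x => ρ (refl n t x) ^ (5/3 : ℝ)) :=
    (r6.integrable_comp hmp.aestronglyMeasurable).mpr hp
  have hD : Measurable (fun x => ρ x - ρ (refl n t x)) := hm.sub hms
  have hwD : Measurable (fun x => w x * (ρ x - ρ (refl n t x))) := hw.mul hD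
  have hDi : Integrable (fun x => ρ x - ρ (refl n t x)) := hi.sub his
  have hDp : Integrable (fun x => |ρ x - ρ (refl n t x)| ^ (5/3 : ℝ)) := by
    refine (hp.add hps).mono' ?_ (Eventually.of_forall fun x => ?_)
    · exact ((hD.abs).pow_const _).aestronglyMeasurable
    · rw [Real.norm_of_nonneg (Real.rpow_nonneg (abs_nonneg _) _)]
      exact TF_trial_adm_abs (h0 _) (h0 _)
  have hbd : ∀ f : E3 → ℝ, Measurable f → Integrable f → Integrable (fun x => w x * f x) := by
    intro f hfm hf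
    refine hf.abs.mono' (hw.mul hfm).aestronglyMeasurable (Eventually.of_forall fun x => ?_)
    rw [Real.norm_eq_abs, abs_mul, abs_of_nonneg (hw01 x).1]
    calc w x * |f x| ≤ 1 * |f x| := by
          apply mul_le_mul_of_nonneg_right (hw01 x).2 (abs_nonneg _)
      _ = |f x| := one_mul _
  have hwDi := hbd _ hD hDi
  have hwDp : Integrable (fun x => |w x * (ρ x - ρ (refl n t x))| ^ (5/3 : ℝ)) := by
    refine hDp.mono' ?_ (Eventually.of_forall fun x => ?_)
    · exact ((hwD.abs).pow_const _).aestronglyMeasurable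
    · rw [Real.norm_of_nonneg (Real.rpow_nonneg (abs_nonneg _) _)]
      apply Real.rpow_le_rpow (abs_nonneg _) _ (by norm_num)
      rw [abs_mul, abs_of_nonneg (hw01 x).1]
      calc w x * |ρ x - ρ (refl n t x)| ≤ 1 * |ρ x - ρ (refl n t x)| := by
            apply mul_le_mul_of_nonneg_right (hw01 x).2 (abs_nonneg _)
        _ = |ρ x - ρ (refl n t x)| := one_mul _
  have hnn : ∀ x, 0 ≤ ρ x - w x * (ρ x - ρ (refl n t x)) := by
    intro x
    have e : ρ x - w x * (ρ x - ρ (refl n t x)) = (1 - w x) * ρ x + w x * ρ (refl n t x) := by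
      ring
    rw [e]
    exact add_nonneg (mul_nonneg (by linarith [(hw01 x).2]) (h0 _))
      (mul_nonneg (hw01 x).1 (h0 _))
  have hTi : Integrable (fun x => ρ x - w x * (ρ x - ρ (refl n t x))) := hi.sub hwDi
  have hTm : Measurable (fun x => ρ x - w x * (ρ x - ρ (refl n t x))) := hm.sub hwD
  have hwp := hbd _ hmp hp
  have hmps : Measurable (fun x => ρ (refl n t x) ^ (5/3 : ℝ)) := hms.pow_const _
  have hwps := hbd _ hmps hps
  have hbound : Integrable (fun x => ρ x ^ (5/3 : ℝ) - w x * ρ x ^ (5/3 : ℝ) +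
      w x * ρ (refl n t x) ^ (5/3 : ℝ)) := (hp.sub hwp).add hwps
  have hTp : Integrable (fun x => (ρ x - w x * (ρ x - ρ (refl n t x))) ^ (5/3 : ℝ)) := by
    refine hbound.mono' (hTm.pow_const _).aestronglyMeasurable
      (Eventually.of_forall fun x => ?_)
    rw [Real.norm_of_nonneg (Real.rpow_nonneg (hnn x) _)]
    exact TF_trial_adm_conv (h0 _) (h0 _) (hw01 x).1 (hw01 x).2
  have hI1 : ∫ x, w x * ρ (refl n t x) = ∫ x, w x * ρ x := by
    rw [← TF_trial_adm_int n hn t (fun x => w x * ρ x)]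
    simp only [hws]
  have hI2 : ∫ x, w x * ρ (refl n t x) ^ (5/3 : ℝ) = ∫ x, w x * ρ x ^ (5/3 : ℝ) := by
    rw [← TF_trial_adm_int n hn t (fun x => w x * ρ x ^ (5/3 : ℝ))]
    simp only [hws]
  refine ⟨⟨hD, hDi, hDp⟩, ⟨hwD, hwDi, hwDp⟩, ⟨hTm, hnn, hTi, hTp⟩, ?_, ?_⟩
  · rw [integral_sub hi hwDi]
    have e : ∫ x, w x * (ρ x - ρ (refl n t x)) = 0 := by
      simp only [mul_sub]
      rw [integral_sub (hbd _ hm hi) (hbd _ hms his), hI1, sub_self]
    rw [e, sub_zero]
  · calc ∫ x, (ρ x - w x * (ρ x - ρ (refl n t x))) ^ (5/3 : ℝ)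
        ≤ ∫ x, (ρ x ^ (5/3 : ℝ) - w x * ρ x ^ (5/3 : ℝ) +
          w x * ρ (refl n t x) ^ (5/3 : ℝ)) := by
          apply integral_mono hTp hbound
          intro x
          exact TF_trial_adm_conv (h0 _) (h0 _) (hw01 x).1 (hw01 x).2
      _ = ∫ x, ρ x ^ (5/3 : ℝ) := by
          have hsub : Integrable (fun x => ρ x ^ (5/3 : ℝ) - w x * ρ x ^ (5/3 : ℝ)) := hp.sub hwp
          rw [integral_add hsub hwps, integral_sub hp hwp, hI2]
          ring
end


/-! ### core -/
section
-- ===== given lemmas (leave as they are, do not prove) =====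














-- ===== TARGET =====
theorem core (n : E3) (hn : ‖n‖ = 1) (t a : ℝ) (ha : 0 ≤ a) (p : E3) (hp : ⟪n, p⟫ < t)
    (δ : E3 → ℝ) (hδ : Nice δ) (hanti : ∀ x, δ (refl n t x) = - δ x) (ε : ℝ) (hε : 0 < ε) :
    ∃ w : E3 → ℝ, Measurable w ∧ (∀ x, 0 ≤ w x ∧ w x ≤ 1) ∧ (∀ x, w (refl n t x) = w x) ∧
      (∀ x, ⟪n, x⟫ < t → x ≠ p → -ε ≤ Cf n t a p w δ x) ∧
      ∫ x, (1 - w x) * Cf n t a p w δ x * δ x ≤ 0 := by
  rcases ha.eq_or_lt with ha0 | ha0
  · -- a = 0
    subst ha0
    have hC : ∀ x, Cf n t 0 p (fun _ => (0:ℝ)) δ x = 0 := by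
      intro x
      simp [Cf, bfun, pot]
    refine ⟨fun _ => 0, measurable_const, fun x => ⟨le_refl _, zero_le_one⟩, fun x => rfl, ?_, ?_⟩
    · intro x _ _
      rw [hC x]
      linarith
    · simp [hC]
  · obtain ⟨r0, hr0, η, hη, M, hpM, huni⟩ := core_consts n hn t a ha0 p hp δ hδ hanti ε hε
    obtain ⟨N, cell, hcell, hcsym, hcprop⟩ := exists_cell n hn t δ hδ.1 η M hη
    obtain ⟨τ, hτ, hτint, hτi⟩ := exists_tau n t a p δ hδ N cell hcell
    have hwm : Measurable (fun y => τ (cell y)) := (measurable_of_finite τ).comp hcell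
    have hw01 : ∀ x, 0 ≤ τ (cell x) ∧ τ (cell x) ≤ 1 := fun x => hτ (cell x)
    have hwsym : ∀ x, τ (cell (refl n t x)) = τ (cell x) := fun x => by rw [hcsym x]
    obtain ⟨h1, h2, h3, h4, h5⟩ := huni (fun y => τ (cell y)) hwm hw01 hwsym
    have habs : ∀ y, |τ (cell y) * δ y| ≤ |δ y| := by
      intro y
      rw [abs_mul, abs_of_nonneg (hw01 y).1]
      exact mul_le_of_le_one_left (abs_nonneg _) (hw01 y).2
    have hwδ : Nice (fun y => τ (cell y) * δ y) := by
      have hm : Measurable (fun y => τ (cell y) * δ y) := hwm.mul hδ.1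
      refine ⟨hm, ?_, ?_⟩
      · refine hδ.2.1.mono hm.aestronglyMeasurable (Filter.Eventually.of_forall fun y => ?_)
        rw [Real.norm_eq_abs, Real.norm_eq_abs]
        exact habs y
      · have hm2 : Measurable (fun y => |τ (cell y) * δ y| ^ (5/3 : ℝ)) :=
          hm.norm.pow_const _
        refine hδ.2.2.mono hm2.aestronglyMeasurable (Filter.Eventually.of_forall fun y => ?_)
        rw [Real.norm_eq_abs, Real.norm_eq_abs,
          abs_of_nonneg (Real.rpow_nonneg (abs_nonneg _) _),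
          abs_of_nonneg (Real.rpow_nonneg (abs_nonneg _) _)]
        exact Real.rpow_le_rpow (abs_nonneg _) (habs y) (by norm_num)
    refine ⟨fun y => τ (cell y), hwm, hw01, hwsym, ?_, hτint⟩
    refine min_principle n hn t _ ε M hε p (fun x hx hx' => h4 x hx hx') ⟨r0, hr0, h1⟩ h5
      (fun x hx _ => by have := h2 x hx; linarith) ?_
    intro x0 hx0 hx0p hCx0
    refine ⟨min η (t - ⟪n, x0⟫), lt_min hη (by linarith), ?_⟩
    intro s hs hs'
    have hsη : s < η := lt_of_lt_of_le hs' (min_le_left _ _)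
    have hst : s < t - ⟪n, x0⟫ := lt_of_lt_of_le hs' (min_le_right _ _)
    have hball : ∀ y ∈ ball x0 s, ⟪n, y⟫ < t := by
      intro y hy
      rw [mem_ball, dist_eq_norm] at hy
      have e1 : ⟪n, y⟫ = ⟪n, x0⟫ + ⟪n, y - x0⟫ := by
        rw [inner_sub_right]; ring
      have e2 : ⟪n, y - x0⟫ ≤ ‖n‖ * ‖y - x0‖ := real_inner_le_norm _ _
      rw [hn, one_mul] at e2
      linarith
    refine hsub n hn t a ha p hp δ _ hwδ x0 hx0p s hs hball ?_
    have hae : ∀ i : Fin N, ∀ᵐ y ∂(volume : Measure E3),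
        y ∈ ball x0 s → cell y = i → τ (cell y) * δ y ≤ 0 := by
      intro i
      by_cases hex : ∃ y0, y0 ∈ ball x0 s ∧ cell y0 = i
      · obtain ⟨y0, hy0, hy0i⟩ := hex
        have hy0H : ⟪n, y0⟫ < t := hball y0 hy0
        have hd0 : ‖x0 - y0‖ < s := by
          rw [mem_ball, dist_comm, dist_eq_norm] at hy0
          exact hy0
        have hmain := neg_side n hn t a p δ hδ hanti N cell hcell hcsym τ hτ i (hτi i) ?_ ?_
        · filter_upwards [hmain] with y hy hyb hyi
          exact hy (hball y hyb) hyi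
        · intro x hx hxi
          have hxy : cell x = cell y0 := hxi.trans hy0i.symm
          rcases (hcprop x y0 hx hy0H hxy).2 with hclose | ⟨_, hMy0⟩
          · have hd : ‖x0 - x‖ < 2 * η := by
              have : x0 - x = (x0 - y0) + (y0 - x) := by abel
              calc ‖x0 - x‖ = ‖(x0 - y0) + (y0 - x)‖ := by rw [← this]
                _ ≤ ‖x0 - y0‖ + ‖y0 - x‖ := norm_add_le _ _
                _ = ‖x0 - y0‖ + ‖x - y0‖ := by rw [norm_sub_rev y0 x]
                _ < 2 * η := by linarith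
            have := (h3 x0 x hx0 hx hx0p hCx0 hd).2
            linarith
          · exfalso
            have hc1 := h2 y0 hMy0
            have hc2 := (h3 x0 y0 hx0 hy0H hx0p hCx0 (by linarith)).2
            linarith
        · intro x y hx hy hxi hyi
          exact (hcprop x y hx hy (hxi.trans hyi.symm)).1
      · refine Filter.Eventually.of_forall fun y hy hyi => ?_
        exact absurd ⟨y, hy, hyi⟩ hex
    filter_upwards [ae_all_iff.mpr hae] with y hy hyb
    exact hy (cell y) hyb rfl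
end


/-! ### E1 -/
section
-- ===== given lemmas (leave as they are, do not prove) =====






theorem TF_E1_meas (g : E3 → ℝ) (hg : Measurable g) : Measurable (pot g) := by
  have h1 : Measurable (Function.uncurry (fun (x y : E3) => g y / ‖x - y‖)) := by
    unfold Function.uncurry
    exact (hg.comp measurable_snd).div ((measurable_fst.sub measurable_snd).norm)
  exact (h1.stronglyMeasurable.integral_prod_right).measurable

theorem TF_E1_bdd (g : E3 → ℝ) (hg : Nice g) : ∃ B : ℝ, ∀ x, |pot g x| ≤ B := by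
  obtain ⟨B, hB⟩ := nice_bound g hg
  refine ⟨B, fun x => ?_⟩
  have h1 : |pot g x| ≤ ∫ y, |g y / ‖x - y‖| := abs_integral_le_integral_abs
  have h2 : (fun y => |g y / ‖x - y‖|) = fun y => |g y| / ‖x - y‖ := by
    funext y; rw [abs_div, abs_of_nonneg (norm_nonneg (x - y))]
  rw [h2] at h1
  exact h1.trans (hB x).2

theorem TF_E1_int (f g : E3 → ℝ) (hf : Integrable f) (hg : Nice g) :
    Integrable (fun x => f x * pot g x) := by
  obtain ⟨B, hB⟩ := TF_E1_bdd g hg
  exact hf.mul_bdd (c := B) (TF_E1_meas g hg.1).aestronglyMeasurable (Filter.Eventually.of_forall hB)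

theorem TF_E1_dbl (f g : E3 → ℝ) :
    (∫ x, ∫ y, f x * g y / ‖x - y‖) = ∫ x, f x * pot g x := by
  congr 1
  funext x
  unfold pot
  rw [← integral_const_mul]
  congr 1
  funext y
  rw [mul_div_assoc]

theorem TF_E1_symm (f g : E3 → ℝ) (hf : Nice f) (hg : Nice g) :
    ∫ x, f x * pot g x = ∫ x, g x * pot f x := by
  rw [← TF_E1_dbl f g, ← TF_E1_dbl g f]
  have hint : Integrable (Function.uncurry (fun (x y : E3) => f x * g y / ‖x - y‖)) (volume.prod volume) := by
    have hm : Measurable (Function.uncurry (fun (x y : E3) => f x * g y / ‖x - y‖)) := by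
      unfold Function.uncurry
      exact ((hf.1.comp measurable_fst).mul (hg.1.comp measurable_snd)).div ((measurable_fst.sub measurable_snd).norm)
    rw [integrable_prod_iff hm.aestronglyMeasurable]
    obtain ⟨B, hB⟩ := nice_bound g hg
    have habs : Nice (fun x => |g x|) := by
      refine ⟨hg.1.abs, hg.2.1.abs, ?_⟩
      simpa [abs_abs] using hg.2.2
    constructor
    · refine Filter.Eventually.of_forall (fun x => ?_)
      have := (hB x).1.const_mul (f x)
      simpa [Function.uncurry, mul_div_assoc] using this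
    · have h3 := TF_E1_int (fun x => |f x|) (fun x => |g x|) hf.2.1.abs habs
      refine h3.congr (Filter.Eventually.of_forall (fun x => ?_))
      show |f x| * pot (fun x => |g x|) x = ∫ y, ‖f x * g y / ‖x - y‖‖
      unfold pot
      rw [← integral_const_mul]
      congr 1
      funext y
      rw [Real.norm_eq_abs, abs_div, abs_mul, abs_of_nonneg (norm_nonneg (x - y)), mul_div_assoc]
  rw [integral_integral_swap hint]
  congr 1
  funext x
  congr 1
  funext y
  rw [norm_sub_rev, mul_comm]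

theorem TF_E1_potsub (f g : E3 → ℝ) (hf : Nice f) (hg : Nice g) (x : E3) :
    pot (fun y => f y - g y) x = pot f x - pot g x := by
  obtain ⟨B, hB⟩ := nice_bound f hf
  obtain ⟨B', hB'⟩ := nice_bound g hg
  unfold pot
  rw [← integral_sub (hB x).1 (hB' x).1]
  congr 1
  funext y
  rw [sub_div]

-- ===== TARGET =====
theorem E1 (n : E3) (hn : ‖n‖ = 1) (t : ℝ) (ρ : E3 → ℝ) (hρ : Adm ρ) (w : E3 → ℝ) (hw : Measurable w)
    (hw01 : ∀ x, 0 ≤ w x ∧ w x ≤ 1) (hws : ∀ x, w (refl n t x) = w x) :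
    (∫ x, ∫ y, (ρ x - w x * (ρ x - ρ (refl n t x))) * (ρ y - w y * (ρ y - ρ (refl n t y))) / ‖x - y‖)
      = (∫ x, ∫ y, ρ x * ρ y / ‖x - y‖)
        - ∫ x, (1 - w x) * pot (fun y => w y * (ρ y - ρ (refl n t y))) x * (ρ x - ρ (refl n t x)) := by
  obtain ⟨hNδ, hNh, -, -, -⟩ := trial_adm n hn t ρ hρ w hw hw01 hws
  obtain ⟨hinv, hiso, -, -, hmeas, hmp⟩ := refl_basic n hn t
  have hNρ : Nice ρ := by
    refine ⟨hρ.1, hρ.2.2.1, ?_⟩
    have : (fun x => |ρ x| ^ (5/3 : ℝ)) = fun x => ρ x ^ (5/3 : ℝ) := by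
      funext x; rw [abs_of_nonneg (hρ.2.1 x)]
    rw [this]; exact hρ.2.2.2
  set σ := refl n t with hσ
  set δ : E3 → ℝ := fun x => ρ x - ρ (σ x) with hδ
  set h : E3 → ℝ := fun x => w x * (ρ x - ρ (σ x)) with hh
  have hNh' : Nice h := hNh
  have hNδ' : Nice δ := hNδ
  let e : E3 ≃ᵐ E3 :=
    { toFun := σ, invFun := σ, left_inv := hinv, right_inv := hinv, measurable_toFun := hmeas, measurable_invFun := hmeas }
  have hmpe : MeasurePreserving e volume volume := hmp
  have hsub : ∀ F : E3 → ℝ, ∫ x, F (σ x) = ∫ x, F x := fun F => hmpe.integral_comp' F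
  have hanti : ∀ x, pot h (σ x) = - pot h x := by
    intro x
    unfold pot
    rw [← hsub (fun y => h y / ‖σ x - y‖), ← integral_neg]
    congr 1
    funext y
    show h (σ y) / ‖σ x - σ y‖ = -(h y / ‖x - y‖)
    rw [hiso x y]
    show w (σ y) * (ρ (σ y) - ρ (σ (σ y))) / ‖x - y‖ = -(w y * (ρ y - ρ (σ y)) / ‖x - y‖)
    rw [hws y, hinv y]
    ring
  have i1 := TF_E1_int ρ h hNρ.2.1 hNh'
  have i2 := TF_E1_int δ h hNδ'.2.1 hNh'
  have i3 := TF_E1_int h h hNh'.2.1 hNh'
  have i4 := TF_E1_int ρ ρ hNρ.2.1 hNρ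
  have i5 := TF_E1_int h ρ hNh'.2.1 hNρ
  -- 2 ∫ρ pot h = ∫ δ pot h
  have hkey : ∫ x, δ x * pot h x = 2 * ∫ x, ρ x * pot h x := by
    have e1 : ∫ x, ρ (σ x) * pot h x = - ∫ x, ρ x * pot h x := by
      rw [← hsub (fun x => ρ (σ x) * pot h x), ← integral_neg]
      congr 1
      funext x
      show ρ (σ (σ x)) * pot h (σ x) = -(ρ x * pot h x)
      rw [hinv x, hanti x]; ring
    have i6 : Integrable (fun x => ρ (σ x) * pot h x) := by
      have := i1.sub i2
      refine this.congr (Filter.Eventually.of_forall (fun x => ?_))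
      show ρ x * pot h x - δ x * pot h x = ρ (σ x) * pot h x
      simp only [hδ]; ring
    calc ∫ x, δ x * pot h x = ∫ x, (ρ x * pot h x - ρ (σ x) * pot h x) := by
          congr 1; funext x; simp only [hδ]; ring
      _ = (∫ x, ρ x * pot h x) - ∫ x, ρ (σ x) * pot h x := integral_sub i1 i6
      _ = _ := by rw [e1]; ring
  have hsym := TF_E1_symm ρ h hNρ hNh'
  have hL : (∫ x, ∫ y, (ρ x - h x) * (ρ y - h y) / ‖x - y‖)
      = (∫ x, ρ x * pot ρ x) - 2 * (∫ x, ρ x * pot h x) + ∫ x, h x * pot h x := by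
    rw [TF_E1_dbl (fun x => ρ x - h x) (fun x => ρ x - h x)]
    have e1 : (fun x => (ρ x - h x) * pot (fun y => ρ y - h y) x)
        = fun x => ((ρ x * pot ρ x - ρ x * pot h x) - h x * pot ρ x) + h x * pot h x := by
      funext x
      rw [TF_E1_potsub ρ h hNρ hNh' x]; ring
    have i7 : Integrable (fun x => ρ x * pot ρ x - ρ x * pot h x) := i4.sub i1
    have i8 : Integrable (fun x => ρ x * pot ρ x - ρ x * pot h x - h x * pot ρ x) := i7.sub i5
    rw [e1, integral_add i8 i3, integral_sub i7 i5, integral_sub i4 i1, ← hsym]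
    ring
  have hR : ∫ x, (1 - w x) * pot h x * (ρ x - ρ (σ x)) = (∫ x, δ x * pot h x) - ∫ x, h x * pot h x := by
    rw [← integral_sub i2 i3]
    congr 1; funext x; simp only [hδ, hh]; ring
  have hL' : (∫ x, ∫ y, (ρ x - w x * (ρ x - ρ (σ x))) * (ρ y - w y * (ρ y - ρ (σ y))) / ‖x - y‖)
      = (∫ x, ρ x * pot ρ x) - 2 * (∫ x, ρ x * pot h x) + ∫ x, h x * pot h x := hL
  rw [hL', hR, TF_E1_dbl ρ ρ, hkey]
  ring
end


/-! ### E2 -/
section
-- ===== given lemmas (leave as they are, do not prove) =====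






-- ===== TARGET =====
theorem TF_E2_swap (n : E3) (hn : ‖n‖ = 1) (t : ℝ) (g : E3 → ℝ) (p : E3) :
    pot (fun y => g (refl n t y)) p = pot g (refl n t p) := by
  obtain ⟨h1, h2, -, -, hm, hmp⟩ := refl_basic n hn t
  let e : E3 ≃ᵐ E3 :=
    { toFun := refl n t, invFun := refl n t, left_inv := h1, right_inv := h1,
      measurable_toFun := hm, measurable_invFun := hm }
  have h3 := MeasurePreserving.integral_comp' (f := e) hmp (fun y => g y / ‖refl n t p - y‖)
  unfold pot
  rw [← h3]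
  refine integral_congr_ae (Eventually.of_forall fun x => ?_)
  change g (refl n t x) / ‖p - x‖ = g (refl n t x) / ‖refl n t p - refl n t x‖
  rw [h2]

theorem TF_E2_anti (n : E3) (hn : ‖n‖ = 1) (t : ℝ) (g : E3 → ℝ) (hg : ∀ x, g (refl n t x) = - g x)
    (p : E3) : pot g (refl n t p) = - pot g p := by
  rw [← TF_E2_swap n hn t g p]
  unfold pot
  rw [← integral_neg]
  refine integral_congr_ae (Eventually.of_forall fun x => ?_)
  simp only [hg]
  ring

theorem TF_E2_int (g : E3 → ℝ) (hg : Nice g) (c : E3) :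
    Integrable (fun y => g y / ‖y - c‖) := by
  obtain ⟨B, hB⟩ := nice_bound g hg
  have := (hB c).1
  simp_rw [norm_sub_rev c] at this
  exact this

theorem TF_E2_pot (g : E3 → ℝ) (c : E3) : ∫ y, g y / ‖y - c‖ = pot g c := by
  unfold pot
  simp_rw [norm_sub_rev c]

theorem E2 {k : ℕ} (z : Fin k → ℝ) (R : Fin k → E3) (J : Fin k) (n : E3) (hn : ‖n‖ = 1)
    (t : ℝ) (ρ : E3 → ℝ) (hρ : Adm ρ) (w : E3 → ℝ) (hw : Measurable w)
    (hw01 : ∀ x, 0 ≤ w x ∧ w x ≤ 1) (hws : ∀ x, w (refl n t x) = w x) :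
    (∫ x, (∑ j, z j / ‖x - Function.update R J (refl n t (R J)) j‖)
        * (ρ x - w x * (ρ x - ρ (refl n t x))))
      = (∫ x, (∑ j, z j / ‖x - R j‖) * ρ x)
        - 1/2 * (∫ x, (1 - w x) * bfun n t (z J) (R J) x * (ρ x - ρ (refl n t x)))
        - ∑ i ∈ Finset.univ.erase J, z i * pot (fun y => w y * (ρ y - ρ (refl n t y))) (R i) := by
  obtain ⟨hδN, hhN, -, -, -⟩ := trial_adm n hn t ρ hρ w hw hw01 hws
  obtain ⟨hr1, hr2, -, -, -, -⟩ := refl_basic n hn t
  have hρN : Nice ρ := by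
    refine ⟨hρ.1, hρ.2.2.1, ?_⟩
    have : (fun x => |ρ x| ^ (5/3 : ℝ)) = fun x => ρ x ^ (5/3 : ℝ) := by
      funext x; rw [abs_of_nonneg (hρ.2.1 x)]
    rw [this]; exact hρ.2.2.2
  set h : E3 → ℝ := fun x => w x * (ρ x - ρ (refl n t x)) with hh
  set δ : E3 → ℝ := fun x => ρ x - ρ (refl n t x) with hδ
  set p : E3 := R J with hp
  set q : E3 := refl n t p with hq
  set a : ℝ := z J with ha
  have hantiδ : ∀ x, δ (refl n t x) = - δ x := by
    intro x; simp only [hδ, hr1]; ring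
  have hantih : ∀ x, h (refl n t x) = - h x := by
    intro x; simp only [hh, hr1, hws]; ring
  have e1 : pot δ q = - pot δ p := TF_E2_anti n hn t δ hantiδ p
  have e2 : pot h q = - pot h p := TF_E2_anti n hn t h hantih p
  have hρp := TF_E2_int ρ hρN p
  have hρq := TF_E2_int ρ hρN q
  have hhp := TF_E2_int h hhN p
  have hhq := TF_E2_int h hhN q
  have hδp := TF_E2_int δ hδN p
  have hδq := TF_E2_int δ hδN q
  have e3 : pot δ p = pot ρ p - pot ρ q := by
    have h1 := TF_E2_swap n hn t ρ p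
    have h2 : pot δ p = pot ρ p - pot (fun y => ρ (refl n t y)) p := by
      rw [← TF_E2_pot δ, ← TF_E2_pot ρ, ← TF_E2_pot (fun y => ρ (refl n t y))]
      rw [← integral_sub hρp]
      · refine integral_congr_ae (Eventually.of_forall fun x => ?_)
        simp only [hδ]; ring
      · have h4 : (fun y => ρ (refl n t y) / ‖y - p‖) = fun y => ρ y / ‖y - p‖ - δ y / ‖y - p‖ := by
          funext y; simp only [hδ]; ring
        rw [h4]
        exact hρp.sub hδp
    rw [h2, h1]
  have hVρ : Integrable (fun x => (∑ j, z j / ‖x - R j‖) * ρ x) := by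
    have h4 : (fun x => (∑ j, z j / ‖x - R j‖) * ρ x) =
        fun x => ∑ j, z j * (ρ x / ‖x - R j‖) := by
      funext x
      rw [Finset.sum_mul]
      exact Finset.sum_congr rfl fun j _ => by ring
    rw [h4]
    exact integrable_finset_sum _ fun j _ => (TF_E2_int ρ hρN (R j)).const_mul _
  have hS : Integrable (fun x => ∑ i ∈ Finset.univ.erase J, z i * (h x / ‖x - R i‖)) :=
    integrable_finset_sum _ fun j _ => (TF_E2_int h hhN (R j)).const_mul _
  have hpt : ∀ x, (∑ j, z j / ‖x - Function.update R J q j‖) * (ρ x - h x) =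
      ((((∑ j, z j / ‖x - R j‖) * ρ x - ∑ i ∈ Finset.univ.erase J, z i * (h x / ‖x - R i‖)) -
        a * (ρ x / ‖x - p‖)) + a * (ρ x / ‖x - q‖)) - a * (h x / ‖x - q‖) := by
    intro x
    rw [← Finset.add_sum_erase Finset.univ (fun j => z j / ‖x - Function.update R J q j‖)
      (Finset.mem_univ J), ← Finset.add_sum_erase Finset.univ (fun j => z j / ‖x - R j‖)
      (Finset.mem_univ J)]
    have h5 : ∑ i ∈ Finset.univ.erase J, z i / ‖x - Function.update R J q i‖ =
        ∑ i ∈ Finset.univ.erase J, z i / ‖x - R i‖ := by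
      refine Finset.sum_congr rfl fun i hi => ?_
      rw [Function.update_of_ne (Finset.ne_of_mem_erase hi)]
    have h6 : ∑ i ∈ Finset.univ.erase J, z i * (h x / ‖x - R i‖) =
        (∑ i ∈ Finset.univ.erase J, z i / ‖x - R i‖) * h x := by
      rw [Finset.sum_mul]
      exact Finset.sum_congr rfl fun j _ => by ring
    rw [h5, h6, Function.update_self]
    simp only [← hp, ← ha]
    ring
  have hL : (∫ x, (∑ j, z j / ‖x - Function.update R J q j‖) * (ρ x - h x)) =
      (((∫ x, (∑ j, z j / ‖x - R j‖) * ρ x) - ∑ i ∈ Finset.univ.erase J, z i * pot h (R i)) -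
        a * pot ρ p + a * pot ρ q) - a * pot h q := by
    simp_rw [hpt]
    rw [integral_sub, integral_add, integral_sub, integral_sub hVρ hS, integral_finset_sum]
    · simp_rw [integral_const_mul, TF_E2_pot]
    · exact fun j _ => (TF_E2_int h hhN (R j)).const_mul _
    · exact hVρ.sub hS
    · exact hρp.const_mul _
    · exact (hVρ.sub hS).sub (hρp.const_mul _)
    · exact hρq.const_mul _
    · exact ((hVρ.sub hS).sub (hρp.const_mul _)).add (hρq.const_mul _)
    · exact hhq.const_mul _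
  have hR : (∫ x, (1 - w x) * bfun n t a p x * δ x) =
      ((a * pot δ p - a * pot δ q) - a * pot h p) + a * pot h q := by
    have hpt2 : ∀ x, (1 - w x) * bfun n t a p x * δ x =
        ((a * (δ x / ‖x - p‖) - a * (δ x / ‖x - q‖)) - a * (h x / ‖x - p‖)) +
          a * (h x / ‖x - q‖) := by
      intro x
      simp only [bfun, ← hq, hh, hδ]
      ring
    simp_rw [hpt2]
    rw [integral_add, integral_sub, integral_sub]
    · simp_rw [integral_const_mul, TF_E2_pot]
    · exact hδp.const_mul _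
    · exact hδq.const_mul _
    · exact (hδp.const_mul _).sub (hδq.const_mul _)
    · exact hhp.const_mul _
    · exact ((hδp.const_mul _).sub (hδq.const_mul _)).sub (hhp.const_mul _)
    · exact hhq.const_mul _
  change (∫ x, (∑ j, z j / ‖x - Function.update R J q j‖) * (ρ x - h x)) =
    (∫ x, (∑ j, z j / ‖x - R j‖) * ρ x) - 1/2 * (∫ x, (1 - w x) * bfun n t a p x * δ x) -
      ∑ i ∈ Finset.univ.erase J, z i * pot h (R i)
  rw [hL, hR, e1, e2, e3]
  ring
end


/-! ### E3 -/
section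
theorem TF_E3_gen {k : ℕ} (D : Fin k → Fin k → ℝ) (J : Fin k)
    (h0 : ∀ i j, i ≠ J → j ≠ J → D i j = 0) (hs : ∀ j, D J j = D j J) :
    (∑ i, ∑ j ∈ Finset.Ioi i, D i j) = ∑ i ∈ Finset.univ.erase J, D i J := by
  classical
  rw [← Finset.add_sum_erase Finset.univ _ (Finset.mem_univ J)]
  have h1 : ∀ i ∈ Finset.univ.erase J, (∑ j ∈ Finset.Ioi i, D i j) = if i < J then D i J else 0 := by
    intro i hi
    have hiJ : i ≠ J := Finset.ne_of_mem_erase hi
    split_ifs with h
    · exact Finset.sum_eq_single_of_mem J (Finset.mem_Ioi.2 h) (fun j _ hj => h0 i j hiJ hj)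
    · apply Finset.sum_eq_zero
      intro j hj
      apply h0 i j hiJ
      rintro rfl
      exact h (Finset.mem_Ioi.1 hj)
  rw [Finset.sum_congr rfl h1]
  have h2 : (∑ j ∈ Finset.Ioi J, D J j) = ∑ i ∈ Finset.univ.erase J, if J < i then D i J else 0 := by
    rw [← Finset.sum_filter]
    apply Finset.sum_congr
    · ext j
      simp only [Finset.mem_Ioi, Finset.mem_filter, Finset.mem_erase, Finset.mem_univ, and_true]
      constructor
      · intro h
        exact ⟨ne_of_gt h, h⟩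
      · intro h
        exact h.2
    · intro j _
      exact hs j
  rw [h2, ← Finset.sum_add_distrib]
  apply Finset.sum_congr rfl
  intro i hi
  have hiJ : i ≠ J := Finset.ne_of_mem_erase hi
  rcases lt_or_gt_of_ne hiJ with h | h
  · rw [if_neg (not_lt_of_gt h), if_pos h, zero_add]
  · rw [if_pos h, if_neg (not_lt_of_gt h), add_zero]

-- ===== TARGET =====
theorem E3sum {k : ℕ} (z : Fin k → ℝ) (R : Fin k → E3) (J : Fin k) (n : E3) (t : ℝ) :
    (∑ i, ∑ j ∈ Finset.Ioi i, z i * z j /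
        ‖Function.update R J (refl n t (R J)) i - Function.update R J (refl n t (R J)) j‖)
      = (∑ i, ∑ j ∈ Finset.Ioi i, z i * z j / ‖R i - R j‖)
        - ∑ i ∈ Finset.univ.erase J, z i * bfun n t (z J) (R J) (R i) := by
  classical
  set R' := Function.update R J (refl n t (R J)) with hR'
  have hg := TF_E3_gen (fun i j => z i * z j / ‖R i - R j‖ - z i * z j / ‖R' i - R' j‖) J
    (by
      intro i j hi hj
      simp only [hR', Function.update_of_ne hi, Function.update_of_ne hj, sub_self])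
    (by
      intro j
      show z J * z j / ‖R J - R j‖ - z J * z j / ‖R' J - R' j‖
        = z j * z J / ‖R j - R J‖ - z j * z J / ‖R' j - R' J‖
      rw [norm_sub_rev (R J) (R j), norm_sub_rev (R' J) (R' j), mul_comm (z J) (z j)])
  simp only [Finset.sum_sub_distrib] at hg
  have h3 : (∑ i ∈ Finset.univ.erase J, z i * bfun n t (z J) (R J) (R i))
      = ∑ i ∈ Finset.univ.erase J, z i * z J / ‖R i - R J‖
        - ∑ i ∈ Finset.univ.erase J, z i * z J / ‖R' i - R' J‖ := by
    rw [← Finset.sum_sub_distrib]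
    apply Finset.sum_congr rfl
    intro i hi
    have hiJ : i ≠ J := Finset.ne_of_mem_erase hi
    have e1 : R' i = R i := by rw [hR', Function.update_of_ne hiJ]
    have e2 : R' J = refl n t (R J) := by rw [hR', Function.update_self]
    rw [e1, e2, bfun]
    ring
  rw [h3]
  linarith
end


/-! ### energy_identity -/
section
-- ===== given lemmas (leave as they are, do not prove) =====










-- ===== TARGET =====
theorem TF_energy_identity_pot_meas (h : E3 → ℝ) (hh : Measurable h) : Measurable (pot h) := by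
  have hf : StronglyMeasurable (fun q : E3 × E3 => h q.2 / ‖q.1 - q.2‖) := by
    apply Measurable.stronglyMeasurable
    exact (hh.comp measurable_snd).div (measurable_fst.sub measurable_snd).norm
  exact (hf.integral_prod_right (ν := (volume : Measure E3))).measurable

theorem TF_energy_identity_int_b (n : E3) (t a : ℝ) (p : E3) (δ : E3 → ℝ) (hδ : Nice δ)
    (w : E3 → ℝ) (hw : Measurable w) (hw01 : ∀ x, 0 ≤ w x ∧ w x ≤ 1) :
    Integrable (fun x => (1 - w x) * bfun n t a p x * δ x) := by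
  obtain ⟨B, hB⟩ := nice_bound δ hδ
  have h1 : Integrable (fun x => a * (δ x / ‖p - x‖ - δ x / ‖refl n t p - x‖)) :=
    ((hB p).1.sub (hB (refl n t p)).1).const_mul a
  have h2 : Integrable (fun x => (1 - w x) * (a * (δ x / ‖p - x‖ - δ x / ‖refl n t p - x‖))) := by
    refine h1.bdd_mul (c := 1) (measurable_const.sub hw).aestronglyMeasurable ?_
    refine Filter.Eventually.of_forall (fun x => ?_)
    rw [Real.norm_eq_abs, abs_le]
    constructor <;> linarith [(hw01 x).1, (hw01 x).2]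
  refine h2.congr (Filter.Eventually.of_forall (fun x => ?_))
  simp only [bfun]
  rw [norm_sub_rev p x, norm_sub_rev (refl n t p) x]
  ring

theorem TF_energy_identity_int_pot (h : E3 → ℝ) (hh : Nice h) (δ : E3 → ℝ) (hδ : Nice δ)
    (w : E3 → ℝ) (hw : Measurable w) (hw01 : ∀ x, 0 ≤ w x ∧ w x ≤ 1) :
    Integrable (fun x => (1 - w x) * pot h x * δ x) := by
  obtain ⟨B, hB⟩ := nice_bound h hh
  refine hδ.2.1.bdd_mul (c := B)
    ((measurable_const.sub hw).mul (TF_energy_identity_pot_meas h hh.1)).aestronglyMeasurable ?_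
  refine Filter.Eventually.of_forall (fun x => ?_)
  have h1 : |pot h x| ≤ B := by
    refine le_trans ?_ (hB x).2
    unfold pot
    refine le_trans (by simpa [Real.norm_eq_abs] using
      (norm_integral_le_integral_norm (fun y => h y / ‖x - y‖))) (le_of_eq ?_)
    refine integral_congr_ae (Filter.Eventually.of_forall (fun y => ?_))
    simp only [abs_div, abs_norm]
  have h2 : |1 - w x| ≤ 1 := by
    rw [abs_le]
    constructor <;> linarith [(hw01 x).1, (hw01 x).2]
  rw [Real.norm_eq_abs, abs_mul]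
  calc |1 - w x| * |pot h x| ≤ 1 * B := mul_le_mul h2 h1 (abs_nonneg _) (by norm_num)
    _ = B := one_mul B

theorem energy_identity {k : ℕ} (z : Fin k → ℝ) (R : Fin k → E3) (J : Fin k) (n : E3) (hn : ‖n‖ = 1)
    (t : ℝ) (ρ : E3 → ℝ) (hρ : Adm ρ) (w : E3 → ℝ) (hw : Measurable w)
    (hw01 : ∀ x, 0 ≤ w x ∧ w x ≤ 1) (hws : ∀ x, w (refl n t x) = w x) :
    xi z (Function.update R J (refl n t (R J))) (fun x => ρ x - w x * (ρ x - ρ (refl n t x)))
      = xi z R ρ
        + 3/5 * ((∫ x, (ρ x - w x * (ρ x - ρ (refl n t x))) ^ (5/3 : ℝ)) - ∫ x, ρ x ^ (5/3 : ℝ))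
        - ∑ i ∈ Finset.univ.erase J,
            z i * Cf n t (z J) (R J) w (fun x => ρ x - ρ (refl n t x)) (R i)
        + 1/2 * ∫ x, (1 - w x) * Cf n t (z J) (R J) w (fun x => ρ x - ρ (refl n t x)) x
            * (ρ x - ρ (refl n t x)) := by
  obtain ⟨hδ, hh, -, -, -⟩ := trial_adm n hn t ρ hρ w hw hw01 hws
  have e1 := E1 n hn t ρ hρ w hw hw01 hws
  have e2 := E2 z R J n hn t ρ hρ w hw hw01 hws
  have e3 := E3sum z R J n t
  have i1 := TF_energy_identity_int_b n t (z J) (R J) _ hδ w hw hw01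
  have i2 := TF_energy_identity_int_pot _ hh _ hδ w hw hw01
  have e4 : (∫ x, (1 - w x) * Cf n t (z J) (R J) w (fun x => ρ x - ρ (refl n t x)) x
            * (ρ x - ρ (refl n t x)))
      = (∫ x, (1 - w x) * bfun n t (z J) (R J) x * (ρ x - ρ (refl n t x)))
        - ∫ x, (1 - w x) * pot (fun y => w y * (ρ y - ρ (refl n t y))) x * (ρ x - ρ (refl n t x)) := by
    rw [← integral_sub i1 i2]
    refine integral_congr_ae (Filter.Eventually.of_forall (fun x => ?_))
    simp only [Cf]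
    ring
  have e5 : ∑ i ∈ Finset.univ.erase J,
            z i * Cf n t (z J) (R J) w (fun x => ρ x - ρ (refl n t x)) (R i)
      = (∑ i ∈ Finset.univ.erase J, z i * bfun n t (z J) (R J) (R i))
        - ∑ i ∈ Finset.univ.erase J, z i * pot (fun y => w y * (ρ y - ρ (refl n t y))) (R i) := by
    rw [← Finset.sum_sub_distrib]
    refine Finset.sum_congr rfl (fun i _ => ?_)
    simp only [Cf]
    ring
  rw [e4, e5]
  simp only [xi]
  rw [e1, e2, e3]
  ring
end


/-! ### en_bdd -/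
section
theorem TF_en_bdd_h0 : Integrable (fun x : E3 => (Set.Iio (1:ℝ)).indicator (fun y : ℝ => y ^ (-(5/2) : ℝ)) ‖x‖) := by
  have h := (integrable_fun_norm_addHaar (volume : Measure E3) (F := ℝ)
    (f := (Set.Iio (1:ℝ)).indicator (fun y : ℝ => y ^ (-(5/2) : ℝ)))).2
  apply h
  have hd : Module.finrank ℝ E3 - 1 = 2 := by simp
  rw [hd]
  have h1 : IntegrableOn (fun y : ℝ => y ^ (-(1/2) : ℝ)) (Set.Ioo 0 1) := by
    rw [intervalIntegral.integrableOn_Ioo_rpow_iff zero_lt_one]
    norm_num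
  have h2 : IntegrableOn (fun y : ℝ => (Set.Iio (1:ℝ)).indicator (fun y : ℝ => y ^ (-(1/2) : ℝ)) y) (Set.Ioi 0) := by
    rw [IntegrableOn, integrable_indicator_iff measurableSet_Iio, IntegrableOn,
      Measure.restrict_restrict measurableSet_Iio]
    have : Set.Iio (1:ℝ) ∩ Set.Ioi 0 = Set.Ioo 0 1 := by
      ext y; simp [and_comm]
    rw [this]; exact h1
  refine h2.congr_fun ?_ measurableSet_Ioi
  intro y hy
  have hy' : (0:ℝ) < y := hy
  by_cases hy1 : y ∈ Set.Iio (1:ℝ)
  · simp only [Set.indicator_of_mem hy1, smul_eq_mul]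
    rw [← Real.rpow_natCast y 2, ← Real.rpow_add hy']
    norm_num
  · simp only [Set.indicator_of_notMem hy1, smul_zero]

theorem TF_en_bdd_h1 (R : E3) : Integrable (fun x : E3 => (Set.Iio (1:ℝ)).indicator (fun y : ℝ => y ^ (-(5/2) : ℝ)) ‖x - R‖) :=
  TF_en_bdd_h0.comp_sub_right R

theorem TF_en_bdd_young (ε : ℝ) (hε : 0 < ε) (r c : ℝ) (hr : 0 ≤ r) (hc : 0 ≤ c) :
    c * r ≤ 3/5 * ε * r ^ (5/3 : ℝ) + 2/5 * ε ^ (-(3/2) : ℝ) * c ^ (5/2 : ℝ) := by
  have hpq : (5/3 : ℝ).HolderConjugate (5/2) := by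
    rw [Real.holderConjugate_iff]; norm_num
  have h := Real.young_inequality_of_nonneg (a := ε ^ (3/5 : ℝ) * r) (b := ε ^ (-(3/5) : ℝ) * c)
    (by positivity) (by positivity) hpq
  have e1 : (ε ^ (3/5 : ℝ) * r) * (ε ^ (-(3/5) : ℝ) * c) = c * r := by
    have : ε ^ (3/5 : ℝ) * ε ^ (-(3/5) : ℝ) = 1 := by
      rw [← Real.rpow_add hε]; norm_num
    calc _ = (ε ^ (3/5 : ℝ) * ε ^ (-(3/5) : ℝ)) * (c * r) := by ring
      _ = c * r := by rw [this, one_mul]
  have e2 : (ε ^ (3/5 : ℝ) * r) ^ (5/3 : ℝ) = ε * r ^ (5/3 : ℝ) := by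
    rw [Real.mul_rpow (by positivity) hr, ← Real.rpow_mul hε.le]
    norm_num
  have e3 : (ε ^ (-(3/5) : ℝ) * c) ^ (5/2 : ℝ) = ε ^ (-(3/2) : ℝ) * c ^ (5/2 : ℝ) := by
    rw [Real.mul_rpow (by positivity) hc, ← Real.rpow_mul hε.le]
    norm_num
  rw [e1, e2, e3] at h
  linarith

theorem TF_en_bdd_pt (ε : ℝ) (hε : 0 < ε) (r : ℝ) (hr : 0 ≤ r) (R x : E3) :
    1 / ‖x - R‖ * r ≤ r + 3/5 * ε * r ^ (5/3 : ℝ) + 2/5 * ε ^ (-(3/2) : ℝ) *
      (Set.Iio (1:ℝ)).indicator (fun y : ℝ => y ^ (-(5/2) : ℝ)) ‖x - R‖ := by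
  have h0 : 0 ≤ r ^ (5/3 : ℝ) := Real.rpow_nonneg hr _
  have h1 : 0 ≤ ε ^ (-(3/2) : ℝ) := Real.rpow_nonneg hε.le _
  by_cases hx : ‖x - R‖ ∈ Set.Iio (1:ℝ)
  · rw [Set.indicator_of_mem hx]
    have h := TF_en_bdd_young ε hε r (1 / ‖x - R‖) hr (by positivity)
    have h2 : (1 / ‖x - R‖) ^ (5/2 : ℝ) = ‖x - R‖ ^ (-(5/2) : ℝ) := by
      rw [one_div, Real.inv_rpow (norm_nonneg _), Real.rpow_neg (norm_nonneg _)]
    rw [h2] at h
    linarith
  · rw [Set.indicator_of_notMem hx]
    have hx' : 1 ≤ ‖x - R‖ := by simpa using hx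
    have h3 : 1 / ‖x - R‖ ≤ 1 := by
      rw [div_le_one (by linarith)]; exact hx'
    have h4 : 1 / ‖x - R‖ * r ≤ 1 * r := mul_le_mul_of_nonneg_right h3 hr
    have h5 : 0 ≤ 3/5 * ε * r ^ (5/3 : ℝ) := by positivity
    linarith

-- ===== TARGET =====
theorem en_bdd {k : ℕ} (z : Fin k → ℝ) (hz : ∀ i, 0 ≤ z i) (R : Fin k → E3) (lam : ℝ) :
    BddBelow {E | ∃ ρ, Adm ρ ∧ ∫ x, ρ x = lam ∧ xi z R ρ = E} := by
  classical
  set Z : ℝ := ∑ j, z j with hZ
  have hZ0 : 0 ≤ Z := Finset.sum_nonneg fun j _ => hz j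
  set ε : ℝ := 1 / (Z + 1) with hεd
  have hε : 0 < ε := by positivity
  have hZε : Z * ε ≤ 1 := by
    rw [hεd, mul_one_div, div_le_one (by linarith)]; linarith
  set H : Fin k → E3 → ℝ := fun j x =>
    (Set.Iio (1:ℝ)).indicator (fun y : ℝ => y ^ (-(5/2) : ℝ)) ‖x - R j‖ with hH
  have hHi : ∀ j, Integrable (H j) := fun j => TF_en_bdd_h1 (R j)
  refine ⟨-(Z * lam + 2/5 * ε ^ (-(3/2) : ℝ) * ∑ j, z j * ∫ x, H j x), ?_⟩
  rintro E ⟨ρ, ⟨hm, hρ0, hρi, hρp⟩, hl, rfl⟩
  have hkey : ∫ x, (∑ j, z j / ‖x - R j‖) * ρ x ≤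
      ∫ x, (Z * ρ x + 3/5 * (Z * ε) * ρ x ^ (5/3 : ℝ) + 2/5 * ε ^ (-(3/2) : ℝ) * ∑ j, z j * H j x) := by
    apply integral_mono_of_nonneg
    · refine Filter.Eventually.of_forall fun x => ?_
      exact mul_nonneg (Finset.sum_nonneg fun j _ => div_nonneg (hz j) (norm_nonneg _)) (hρ0 x)
    · refine ((hρi.const_mul Z).add (hρp.const_mul _)).add (Integrable.const_mul ?_ _)
      exact integrable_finsetSum _ fun j _ => (hHi j).const_mul (z j)
    · refine Filter.Eventually.of_forall fun x => ?_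
      have h1 : ∀ j, z j / ‖x - R j‖ * ρ x ≤ z j * (ρ x + 3/5 * ε * ρ x ^ (5/3 : ℝ) +
          2/5 * ε ^ (-(3/2) : ℝ) * H j x) := by
        intro j
        have h2 := mul_le_mul_of_nonneg_left (TF_en_bdd_pt ε hε (ρ x) (hρ0 x) (R j) x) (hz j)
        calc z j / ‖x - R j‖ * ρ x = z j * (1 / ‖x - R j‖ * ρ x) := by ring
          _ ≤ _ := h2
      show (∑ j, z j / ‖x - R j‖) * ρ x ≤ _
      rw [Finset.sum_mul]
      calc ∑ j, z j / ‖x - R j‖ * ρ x ≤ ∑ j, z j * (ρ x + 3/5 * ε * ρ x ^ (5/3 : ℝ) +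
          2/5 * ε ^ (-(3/2) : ℝ) * H j x) := Finset.sum_le_sum fun j _ => h1 j
        _ = Z * ρ x + 3/5 * (Z * ε) * ρ x ^ (5/3 : ℝ) + 2/5 * ε ^ (-(3/2) : ℝ) * ∑ j, z j * H j x := by
          simp only [mul_add, Finset.sum_add_distrib, ← Finset.sum_mul, ← hZ]
          rw [Finset.mul_sum]
          congr 1
          · ring
          · exact Finset.sum_congr rfl fun j _ => by ring
  have hint : ∫ x, (Z * ρ x + 3/5 * (Z * ε) * ρ x ^ (5/3 : ℝ) + 2/5 * ε ^ (-(3/2) : ℝ) * ∑ j, z j * H j x)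
      = Z * lam + 3/5 * (Z * ε) * (∫ x, ρ x ^ (5/3 : ℝ)) + 2/5 * ε ^ (-(3/2) : ℝ) * ∑ j, z j * ∫ x, H j x := by
    have hs : Integrable (fun x => ∑ j, z j * H j x) :=
      integrable_finsetSum _ fun j _ => (hHi j).const_mul (z j)
    have ha : Integrable (fun x => Z * ρ x) := hρi.const_mul Z
    have hb : Integrable (fun x => 3/5 * (Z * ε) * ρ x ^ (5/3 : ℝ)) := hρp.const_mul _
    have hab : Integrable (fun x => Z * ρ x + 3/5 * (Z * ε) * ρ x ^ (5/3 : ℝ)) := ha.add hb
    have hc : Integrable (fun x => 2/5 * ε ^ (-(3/2) : ℝ) * ∑ j, z j * H j x) := hs.const_mul _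
    have e3 : ∫ x, ∑ j, z j * H j x = ∑ j, z j * ∫ x, H j x := by
      rw [integral_finsetSum _ (fun j _ => (hHi j).const_mul (z j))]
      exact Finset.sum_congr rfl fun j _ => integral_const_mul _ _
    rw [integral_add hab hc, integral_add ha hb, integral_const_mul, integral_const_mul,
      integral_const_mul, hl, e3]
  have hp0 : 0 ≤ ∫ x, ρ x ^ (5/3 : ℝ) := integral_nonneg fun x => Real.rpow_nonneg (hρ0 x) _
  have hd0 : 0 ≤ ∫ x, ∫ y, ρ x * ρ y / ‖x - y‖ :=
    integral_nonneg fun x => integral_nonneg fun y =>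
      div_nonneg (mul_nonneg (hρ0 x) (hρ0 y)) (norm_nonneg _)
  have hs0 : 0 ≤ ∑ i, ∑ j ∈ Finset.Ioi i, z i * z j / ‖R i - R j‖ :=
    Finset.sum_nonneg fun i _ => Finset.sum_nonneg fun j _ =>
      div_nonneg (mul_nonneg (hz i) (hz j)) (norm_nonneg _)
  rw [hint] at hkey
  unfold xi
  nlinarith [mul_le_mul_of_nonneg_right hZε hp0]
end


/-! ### en_nonempty -/
section
-- ===== TARGET =====
theorem en_nonempty {k : ℕ} (z : Fin k → ℝ) (R : Fin k → E3) (lam : ℝ) (hlam : 0 ≤ lam) :
    {E | ∃ ρ, Adm ρ ∧ ∫ x, ρ x = lam ∧ xi z R ρ = E}.Nonempty := by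
  set V : ℝ := (volume (ball (0 : E3) 1)).toReal with hV
  have hVpos : 0 < V := by
    rw [hV]
    exact ENNReal.toReal_pos (measure_ball_pos volume (0 : E3) one_pos).ne' measure_ball_lt_top.ne
  set c : ℝ := lam / V with hc
  have hc0 : 0 ≤ c := div_nonneg hlam hVpos.le
  set ρ : E3 → ℝ := (ball (0 : E3) 1).indicator (fun _ => c) with hρ
  have hint : ∀ d : ℝ, Integrable ((ball (0 : E3) 1).indicator (fun _ : E3 => d)) volume := by
    intro d
    rw [integrable_indicator_iff measurableSet_ball]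
    exact integrableOn_const measure_ball_lt_top.ne
  refine ⟨xi z R ρ, ρ, ⟨measurable_const.indicator measurableSet_ball, ?_, hint c, ?_⟩, ?_, rfl⟩
  · intro x
    exact Set.indicator_nonneg (fun _ _ => hc0) x
  · have h1 : (fun x => ρ x ^ (5 / 3 : ℝ)) =
        (ball (0 : E3) 1).indicator (fun _ : E3 => c ^ (5 / 3 : ℝ)) := by
      funext x
      by_cases hx : x ∈ ball (0 : E3) 1
      · rw [hρ, Set.indicator_of_mem hx, Set.indicator_of_mem hx]
      · rw [hρ, Set.indicator_of_notMem hx, Set.indicator_of_notMem hx]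
        exact Real.zero_rpow (by norm_num)
    rw [h1]
    exact hint _
  · rw [hρ, integral_indicator measurableSet_ball, setIntegral_const, smul_eq_mul, Measure.real,
      ← hV, hc]
    field_simp
end


/-! ### en_translate -/
section
theorem TF_en_translate_xi {k : ℕ} (z : Fin k → ℝ) (R : Fin k → E3) (v : E3) (ρ : E3 → ℝ) :
    xi z (fun i => R i + v) (fun x => ρ (x - v)) = xi z R ρ := by
  unfold xi
  have e1 : (∫ x, (fun x => ρ (x - v)) x ^ (5/3 : ℝ)) = ∫ x, ρ x ^ (5/3 : ℝ) :=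
    integral_sub_right_eq_self (fun x => ρ x ^ (5/3 : ℝ)) v
  have e2 : (∫ x, (∑ j, z j / ‖x - (R j + v)‖) * (fun x => ρ (x - v)) x)
      = ∫ x, (∑ j, z j / ‖x - R j‖) * ρ x := by
    rw [← integral_sub_right_eq_self (fun x => (∑ j, z j / ‖x - R j‖) * ρ x) v]
    apply integral_congr_ae
    refine Eventually.of_forall fun x => ?_
    simp only
    congr 1
    refine Finset.sum_congr rfl fun j _ => ?_
    congr 2
    abel
  have e3 : (∫ x, ∫ y, (fun x => ρ (x - v)) x * (fun x => ρ (x - v)) y / ‖x - y‖)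
      = ∫ x, ∫ y, ρ x * ρ y / ‖x - y‖ := by
    rw [← integral_sub_right_eq_self (fun x => ∫ y, ρ x * ρ y / ‖x - y‖) v]
    apply integral_congr_ae
    refine Eventually.of_forall fun x => ?_
    simp only
    rw [← integral_sub_right_eq_self (fun y => ρ (x - v) * ρ y / ‖(x - v) - y‖) v]
    apply integral_congr_ae
    refine Eventually.of_forall fun y => ?_
    simp only
    congr 2
    abel
  have e4 : (∑ i, ∑ j ∈ Finset.Ioi i, z i * z j / ‖(R i + v) - (R j + v)‖)
      = ∑ i, ∑ j ∈ Finset.Ioi i, z i * z j / ‖R i - R j‖ := by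
    refine Finset.sum_congr rfl fun i _ => Finset.sum_congr rfl fun j _ => ?_
    rw [add_sub_add_right_eq_sub]
  rw [e1, e2, e3, e4]

theorem TF_en_translate_adm (v : E3) (ρ : E3 → ℝ) (h : Adm ρ) : Adm (fun x => ρ (x - v)) := by
  obtain ⟨h1, h2, h3, h4⟩ := h
  exact ⟨h1.comp (measurable_id.sub_const v), fun x => h2 _, h3.comp_sub_right v,
    h4.comp_sub_right v⟩

-- ===== TARGET =====
theorem en_translate {k : ℕ} (z : Fin k → ℝ) (R : Fin k → E3) (lam : ℝ) (v : E3) :
    en z (fun i => R i + v) lam = en z R lam := by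
  unfold en
  congr 1
  ext E
  constructor
  · rintro ⟨ρ, hρ, hl, hE⟩
    refine ⟨fun x => ρ (x - (-v)), TF_en_translate_adm (-v) ρ hρ, ?_, ?_⟩
    · rw [← hl]
      exact integral_sub_right_eq_self ρ (-v)
    · have h := TF_en_translate_xi z (fun i => R i + v) (-v) ρ
      have e : (fun i => (fun i => R i + v) i + -v) = R := by
        funext i
        simp
      rw [e] at h
      rw [h, hE]
  · rintro ⟨ρ, hρ, hl, hE⟩
    refine ⟨fun x => ρ (x - v), TF_en_translate_adm v ρ hρ, ?_, ?_⟩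
    · rw [← hl]
      exact integral_sub_right_eq_self ρ v
    · rw [TF_en_translate_xi, hE]
end


/-! ### reflection_ineq -/
section
-- ===== given lemmas (leave as they are, do not prove) =====










-- ===== TARGET =====
theorem TF_reflection_ineq_refl_refl (n : E3) (hn : ‖n‖ = 1) (t : ℝ) (x : E3) :
    refl n t (refl n t x) = x := by
  unfold refl
  have h1 : ⟪n, x - (2 * (⟪n, x⟫ - t)) • n⟫ = ⟪n, x⟫ - 2 * (⟪n, x⟫ - t) := by
    rw [inner_sub_right, inner_smul_right, real_inner_self_eq_norm_sq, hn]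
    ring
  rw [h1]
  module

theorem reflection_ineq {k : ℕ} (z : Fin k → ℝ) (hz : ∀ i, 0 ≤ z i) (R : Fin k → E3)
    (hR : Function.Injective R) (J : Fin k) (n : E3) (hn : ‖n‖ = 1) (t : ℝ)
    (hside : ∀ i, ⟪n, R i⟫ < t) (lam : ℝ) (hlam : 0 ≤ lam) :
    en z (Function.update R J (refl n t (R J))) lam ≤ en z R lam := by
  unfold en
  refine le_csInf (en_nonempty z R lam hlam) ?_
  rintro E ⟨ρ, hρ, hm, rfl⟩
  refine le_of_forall_pos_le_add (fun η hη => ?_)
  set Sz : ℝ := ∑ i ∈ Finset.univ.erase J, z i with hSz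
  have hSz0 : 0 ≤ Sz := Finset.sum_nonneg (fun i _ => hz i)
  have hε : 0 < η / (Sz + 1) := by positivity
  have hnice : Nice (fun x => ρ x - ρ (refl n t x)) :=
    (trial_adm n hn t ρ hρ (fun _ => 0) measurable_const (fun _ => ⟨le_rfl, zero_le_one⟩)
      (fun _ => rfl)).1
  obtain ⟨w, hw, hw01, hws, hC, hI⟩ := core n hn t (z J) (hz J) (R J) (hside J)
    (fun x => ρ x - ρ (refl n t x)) hnice
    (fun x => by
      rw [TF_reflection_ineq_refl_refl n hn t x]
      ring) (η / (Sz + 1)) hε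
  obtain ⟨-, -, hadm, hmass, h53⟩ := trial_adm n hn t ρ hρ w hw hw01 hws
  have h1 : sInf {E | ∃ ρ, Adm ρ ∧ ∫ x, ρ x = lam ∧ xi z (Function.update R J (refl n t (R J))) ρ = E} ≤
      xi z (Function.update R J (refl n t (R J))) (fun x => ρ x - w x * (ρ x - ρ (refl n t x))) :=
    csInf_le (en_bdd z hz _ lam) ⟨_, hadm, hmass.trans hm, rfl⟩
  refine h1.trans ?_
  rw [energy_identity z R J n hn t ρ hρ w hw hw01 hws]
  have h2 : -(η / (Sz + 1)) * Sz ≤ ∑ i ∈ Finset.univ.erase J,
      z i * Cf n t (z J) (R J) w (fun x => ρ x - ρ (refl n t x)) (R i) := by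
    rw [hSz, Finset.mul_sum]
    refine Finset.sum_le_sum (fun i hi => ?_)
    have h3 := hC (R i) (hside i) (fun h => (Finset.ne_of_mem_erase hi) (hR h))
    have h4 := mul_le_mul_of_nonneg_left h3 (hz i)
    linarith [h4]
  have h5 : (∫ x, (1 - w x) * Cf n t (z J) (R J) w (fun x => ρ x - ρ (refl n t x)) x
            * (ρ x - ρ (refl n t x))) ≤ 0 := hI
  have h6 : η / (Sz + 1) * Sz ≤ η := by
    rw [div_mul_eq_mul_div, div_le_iff₀ (by linarith)]
    nlinarith
  linarith
end


/-! ### dil_step2 -/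
section
-- ===== given lemmas (leave as they are, do not prove) =====




-- ===== TARGET =====
theorem TF_dil_step2_inj {k : ℕ} (R : Fin k → E3) (hR : Function.Injective R)
    (hs : ∀ i j, i ≠ j → R j = 0 ∨ ⟪R i, R j⟫ < ‖R j‖ ^ 2) (c : Fin k → ℝ) (hc : ∀ i, 0 < c i) :
    Function.Injective (fun i => c i • R i) := by
  have key : ∀ i j, i ≠ j → c i • R i = c j • R j → c i ≤ c j → False := by
    intro i j hij he hle
    have hj : R j ≠ 0 := by
      intro h0
      rw [h0, smul_zero] at he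
      rcases smul_eq_zero.1 he with h | h
      · exact (hc i).ne' h
      · exact hij (hR (by rw [h, h0]))
    have h1 := (hs i j hij).resolve_left hj
    have h2 : c i * ⟪R i, R j⟫ = c j * ‖R j‖ ^ 2 := by
      rw [← real_inner_smul_left, he, real_inner_smul_left, real_inner_self_eq_norm_sq]
    have h3 : 0 ≤ ‖R j‖ ^ 2 := by positivity
    have h4 := mul_le_mul_of_nonneg_right hle h3
    have h5 := mul_lt_mul_of_pos_left h1 (hc i)
    linarith
  intro i j he
  by_contra hij
  rcases le_total (c i) (c j) with h | h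
  · exact key i j hij he h
  · exact key j i (Ne.symm hij) he.symm h

theorem TF_dil_step2_kappa {k : ℕ} (R : Fin k → E3)
    (hs : ∀ i j, i ≠ j → R j = 0 ∨ ⟪R i, R j⟫ < ‖R j‖ ^ 2) :
    ∃ κ : ℝ, 1 < κ ∧ ∀ i j, i ≠ j → R j ≠ 0 →
      κ * (2 * ⟪R i, R j⟫ - ‖R j‖ ^ 2) < ‖R j‖ ^ 2 := by
  have h : ∀ᶠ κ in 𝓝 (1 : ℝ), ∀ i j, i ≠ j → R j ≠ 0 →
      κ * (2 * ⟪R i, R j⟫ - ‖R j‖ ^ 2) < ‖R j‖ ^ 2 := by
    rw [Filter.eventually_all]
    intro i
    rw [Filter.eventually_all]
    intro j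
    by_cases hij : i = j
    · exact Filter.Eventually.of_forall fun κ h => absurd hij h
    by_cases hj : R j = 0
    · exact Filter.Eventually.of_forall fun κ _ h => absurd hj h
    have h1 := (hs i j hij).resolve_left hj
    have hc : Continuous (fun κ : ℝ => κ * (2 * ⟪R i, R j⟫ - ‖R j‖ ^ 2)) :=
      continuous_id.mul continuous_const
    have h2 := hc.tendsto 1
    have h3 : (1 : ℝ) * (2 * ⟪R i, R j⟫ - ‖R j‖ ^ 2) < ‖R j‖ ^ 2 := by linarith
    filter_upwards [h2.eventually_lt_const h3] with κ hκ _ _ using hκ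
  have h' : ∀ᶠ κ in 𝓝[>] (1 : ℝ), ∀ i j, i ≠ j → R j ≠ 0 →
      κ * (2 * ⟪R i, R j⟫ - ‖R j‖ ^ 2) < ‖R j‖ ^ 2 := h.filter_mono nhdsWithin_le_nhds
  obtain ⟨κ, h1, h2⟩ := (h'.and self_mem_nhdsWithin).exists
  exact ⟨κ, h2, h1⟩

/-- dilation step: every nucleus is at the origin or is the strict maximiser of its own direction -/
theorem dil_step2 {k : ℕ} (z : Fin k → ℝ) (hz : ∀ i, 0 ≤ z i) (R : Fin k → E3)
    (hR : Function.Injective R) (hs : ∀ i j, i ≠ j → R j = 0 ∨ ⟪R i, R j⟫ < ‖R j‖ ^ 2)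
    (lam : ℝ) (hlam : 0 ≤ lam) :
    ∃ κ : ℝ, 1 < κ ∧ ∀ l l' : ℝ, 0 < l → l ≤ l' → l' ≤ κ * l →
      en z (fun i => l' • R i) lam ≤ en z (fun i => l • R i) lam := by
  obtain ⟨κ, hκ, hk⟩ := TF_dil_step2_kappa R hs
  refine ⟨κ, hκ, fun l l' hl hle hlk => ?_⟩
  rcases hle.eq_or_lt with heq | hlt
  · rw [heq]
  have hl' : 0 < l' := hl.trans hlt
  have main : ∀ S : Finset (Fin k),
      en z (fun i => (if i ∈ S then l' else l) • R i) lam ≤ en z (fun i => l • R i) lam := by
    intro S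
    induction S using Finset.induction_on with
    | empty => simp
    | insert m S hm ih =>
      by_cases h0 : R m = 0
      · have he : (fun i => (if i ∈ insert m S then l' else l) • R i) =
            fun i => (if i ∈ S then l' else l) • R i := by
          funext i
          by_cases him : i = m
          · rw [him, h0, smul_zero, smul_zero]
          · have : i ∈ insert m S ↔ i ∈ S := by simp [him]
            simp only [this]
        rw [he]
        exact ih
      · have hc : ∀ i, 0 < (if i ∈ S then l' else l) := by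
          intro i
          split_ifs
          · exact hl'
          · exact hl
        have hinj := TF_dil_step2_inj R hR hs (fun i => if i ∈ S then l' else l) hc
        have hN : 0 < ‖R m‖ := norm_pos_iff.2 h0
        set n : E3 := (‖R m‖)⁻¹ • R m with hn
        have hn1 : ‖n‖ = 1 := by
          rw [hn, norm_smul, norm_inv, norm_norm, inv_mul_cancel₀ hN.ne']
        have hin : ∀ x : E3, ⟪n, x⟫ = (‖R m‖)⁻¹ * ⟪R m, x⟫ := fun x => by
          rw [hn, real_inner_smul_left]
        have hNN : (‖R m‖)⁻¹ * ‖R m‖ ^ 2 = ‖R m‖ := by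
          rw [sq, ← mul_assoc, inv_mul_cancel₀ hN.ne', one_mul]
        have hside : ∀ i, ⟪n, (if i ∈ S then l' else l) • R i⟫ < (l + l') / 2 * ‖R m‖ := by
          intro i
          rw [hin, real_inner_smul_right]
          have hgoal : (if i ∈ S then l' else l) * ⟪R m, R i⟫ < (l + l') / 2 * ‖R m‖ ^ 2 := by
            by_cases him : i = m
            · rw [him, if_neg hm, real_inner_self_eq_norm_sq]
              have : 0 < ‖R m‖ ^ 2 := by positivity
              nlinarith
            · have h1 := hk i m him h0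
              have h2 := (hs i m him).resolve_left h0
              rw [real_inner_comm] at h1 h2
              have h3 : 0 < ‖R m‖ ^ 2 := by positivity
              generalize ⟪R m, R i⟫ = Q at h1 h2 ⊢
              generalize ‖R m‖ ^ 2 = N at h1 h2 h3 ⊢
              have h4 : (if i ∈ S then l' else l) ≤ l' := by
                split_ifs
                · exact le_rfl
                · exact hle
              have h5 := hc i
              generalize (if i ∈ S then l' else l) = c at h4 h5 ⊢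
              rcases le_or_gt Q 0 with hQ | hQ
              · have : c * Q ≤ 0 := mul_nonpos_of_nonneg_of_nonpos h5.le hQ
                have : 0 < (l + l') / 2 * N := by positivity
                linarith
              · have h6 : c * Q ≤ l' * Q := mul_le_mul_of_nonneg_right h4 hQ.le
                have h7 : l' * (2 * Q - N) < l * N := by
                  rcases le_or_gt (2 * Q - N) 0 with h8 | h8
                  · have : l' * (2 * Q - N) ≤ 0 := mul_nonpos_of_nonneg_of_nonpos hl'.le h8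
                    have : 0 < l * N := by positivity
                    linarith
                  · have h9 : l' * (2 * Q - N) ≤ κ * l * (2 * Q - N) :=
                      mul_le_mul_of_nonneg_right hlk h8.le
                    have h10 := mul_lt_mul_of_pos_left h1 hl
                    nlinarith
                nlinarith
          have h11 := mul_lt_mul_of_pos_left hgoal (inv_pos.2 hN)
          calc (‖R m‖)⁻¹ * ((if i ∈ S then l' else l) * ⟪R m, R i⟫)
              < (‖R m‖)⁻¹ * ((l + l') / 2 * ‖R m‖ ^ 2) := h11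
            _ = (l + l') / 2 * ((‖R m‖)⁻¹ * ‖R m‖ ^ 2) := by ring
            _ = (l + l') / 2 * ‖R m‖ := by rw [hNN]
        have h12 := reflection_ineq z hz (fun i => (if i ∈ S then l' else l) • R i) hinj m n hn1
          ((l + l') / 2 * ‖R m‖) hside lam hlam
        have he : Function.update (fun i => (if i ∈ S then l' else l) • R i) m
            (refl n ((l + l') / 2 * ‖R m‖) ((if m ∈ S then l' else l) • R m)) =
            fun i => (if i ∈ insert m S then l' else l) • R i := by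
          funext i
          by_cases him : i = m
          · subst him
            rw [Function.update_self, if_neg hm, if_pos (Finset.mem_insert_self _ _)]
            unfold refl
            rw [hin, real_inner_smul_right, real_inner_self_eq_norm_sq, hn, smul_smul, ← sub_smul]
            congr 1
            field_simp
            ring
          · rw [Function.update_of_ne him]
            have : i ∈ insert m S ↔ i ∈ S := by simp [him]
            simp only [this]
        rw [he] at h12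
        exact h12.trans ih
  have := main Finset.univ
  simpa using this
end


/-! ### antitone_local -/
section
-- ===== TARGET =====
theorem antitone_local (f : ℝ → ℝ) (κ : ℝ) (hκ : 1 < κ)
    (h : ∀ l l' : ℝ, 0 < l → l ≤ l' → l' ≤ κ * l → f l' ≤ f l) : AntitoneOn f (Ioi 0) := by
  have key : ∀ m : ℕ, ∀ l l' : ℝ, 0 < l → l ≤ l' → l' ≤ κ ^ m * l → f l' ≤ f l := by
    intro m
    induction m with
    | zero =>
      intro l l' hl hll' hle
      rw [pow_zero, one_mul] at hle
      have : l' = l := le_antisymm hle hll'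
      rw [this]
    | succ m ih =>
      intro l l' hl hll' hle
      by_cases hc : l' ≤ κ * l
      · exact h l l' hl hll' hc
      · push Not at hc
        have hκ0 : 0 < κ := by linarith
        have hl' : 0 < l' := lt_of_lt_of_le hl hll'
        have h1 : l ≤ l' / κ := by
          rw [le_div_iff₀ hκ0]
          linarith
        have h2 : l' / κ ≤ κ ^ m * l := by
          rw [div_le_iff₀ hκ0]
          calc l' ≤ κ ^ (m + 1) * l := hle
            _ = κ ^ m * l * κ := by ring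
        have h3 : f (l' / κ) ≤ f l := ih l (l' / κ) hl h1 h2
        have h4 : l' / κ ≤ l' := div_le_self hl'.le hκ.le
        have h5 : f l' ≤ f (l' / κ) := by
          apply h (l' / κ) l' (div_pos hl' hκ0) h4
          rw [mul_div_cancel₀ _ hκ0.ne']
        exact h5.trans h3
  intro a ha b hb hab
  rw [Set.mem_Ioi] at ha hb
  obtain ⟨m, hm⟩ := pow_unbounded_of_one_lt (b / a) hκ
  apply key m a b ha hab
  rw [div_lt_iff₀ ha] at hm
  exact hm.le
end


/-! ### exists_centre -/
section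
theorem TF_exists_centre_sph {k : ℕ} (R : Fin k → E3) (hR : Function.Injective R) (c : E3) (r : ℝ)
    (h : ∀ i, ‖R i - c‖ = r) :
    ∀ i j, i ≠ j → R j = c ∨ ⟪R i - c, R j - c⟫ < ‖R j - c‖ ^ 2 := by
  intro i j hij
  right
  have h1 := norm_sub_sq_real (R i - c) (R j - c)
  have h2 : (R i - c) - (R j - c) = R i - R j := by abel
  rw [h2, h i, h j] at h1
  have h3 : 0 < ‖R i - R j‖ := norm_pos_iff.mpr (sub_ne_zero.mpr (fun e => hij (hR e)))
  rw [h j]
  nlinarith [pow_pos h3 2]

theorem TF_exists_centre_mid {k : ℕ} (R : Fin k → E3) (hR : Function.Injective R) (m : Fin k)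
    (h : ∀ i j, i ≠ m → j ≠ m → i ≠ j → ⟪R i - R m, R j - R m⟫ ≤ 0) :
    ∀ i j, i ≠ j → R j = R m ∨ ⟪R i - R m, R j - R m⟫ < ‖R j - R m‖ ^ 2 := by
  intro i j hij
  by_cases hj : j = m
  · left; rw [hj]
  right
  have h3 : 0 < ‖R j - R m‖ := norm_pos_iff.mpr (sub_ne_zero.mpr (fun e => hj (hR e)))
  by_cases hi : i = m
  · subst hi
    simp only [sub_self, inner_zero_left]
    positivity
  · have := h i j hi hj hij
    have h4 := pow_pos h3 2
    linarith

theorem TF_exists_centre_wbtw (x y z : E3) (h : Wbtw ℝ x y z) : ⟪x - y, z - y⟫ ≤ 0 := by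
  obtain ⟨t, ht, rfl⟩ := h
  have h1 : x - AffineMap.lineMap x z t = -(t • (z - x)) := by
    rw [AffineMap.lineMap_apply_module']; abel
  have h2 : z - AffineMap.lineMap x z t = (1 - t) • (z - x) := by
    rw [AffineMap.lineMap_apply_module', sub_smul, one_smul]; abel
  rw [h1, h2, inner_neg_left, inner_smul_left, inner_smul_right, real_inner_self_eq_norm_sq]
  have h3 : 0 ≤ t := ht.1
  have h4 : 0 ≤ 1 - t := by linarith [ht.2]
  have h5 : (0:ℝ) ≤ t * ((1 - t) * ‖z - x‖ ^ 2) := by positivity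
  simpa using h5

theorem TF_exists_centre_ai {k : ℕ} (R : Fin k → E3) (hR : Function.Injective R)
    (h : AffineIndependent ℝ R) :
    ∃ c : E3, ∀ i j, i ≠ j → R j = c ∨ ⟪R i - c, R j - c⟫ < ‖R j - c‖ ^ 2 := by
  by_cases hk : Nonempty (Fin k)
  · obtain ⟨cs, ⟨-, hcs⟩, -⟩ := h.existsUnique_dist_eq
    refine ⟨cs.center, TF_exists_centre_sph R hR cs.center cs.radius (fun i => ?_)⟩
    have := hcs (Set.mem_range_self i)
    rw [EuclideanGeometry.Sphere.mem_coe, EuclideanGeometry.mem_sphere, dist_eq_norm] at this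
    exact this
  · exact ⟨0, fun i => absurd ⟨i⟩ hk⟩

-- ===== TARGET =====
/-- existence of a centre of dilation for cospherical / affinely independent / at most three nuclei -/
theorem exists_centre {k : ℕ} (R : Fin k → E3) (hR : Function.Injective R)
    (hcs : (∃ (c : E3) (r : ℝ), ∀ i, ‖R i - c‖ = r) ∨ AffineIndependent ℝ R ∨ k ≤ 3) :
    ∃ c : E3, ∀ i j, i ≠ j → R j = c ∨ ⟪R i - c, R j - c⟫ < ‖R j - c‖ ^ 2 := by
  rcases hcs with ⟨c, r, h⟩ | h | h
  · exact ⟨c, TF_exists_centre_sph R hR c r h⟩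
  · exact TF_exists_centre_ai R hR h
  · interval_cases k
    · exact ⟨0, fun i => i.elim0⟩
    · exact ⟨0, fun i j hij => absurd (Subsingleton.elim i j) hij⟩
    · refine ⟨R 0, TF_exists_centre_mid R hR 0 ?_⟩
      intro i j hi hj hij
      exfalso
      omega
    · by_cases hai : AffineIndependent ℝ R
      · exact TF_exists_centre_ai R hR hai
      · rw [affineIndependent_iff_not_collinear, not_not] at hai
        have hset : Set.range R = {R 0, R 1, R 2} := by
          ext x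
          constructor
          · rintro ⟨i, rfl⟩
            fin_cases i <;> simp
          · rintro (rfl | rfl | rfl)
            · exact ⟨0, rfl⟩
            · exact ⟨1, rfl⟩
            · exact ⟨2, rfl⟩
        rw [hset] at hai
        rcases hai.wbtw_or_wbtw_or_wbtw with hw | hw | hw
        · refine ⟨R 1, TF_exists_centre_mid R hR 1 ?_⟩
          have h1 := TF_exists_centre_wbtw _ _ _ hw
          have h2 := h1
          rw [real_inner_comm] at h2
          intro i j hi hj hij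
          fin_cases i <;> fin_cases j <;> first | exact absurd rfl hi | exact absurd rfl hj | exact absurd rfl hij | exact h1 | exact h2
        · refine ⟨R 2, TF_exists_centre_mid R hR 2 ?_⟩
          have h1 := TF_exists_centre_wbtw _ _ _ hw
          have h2 := h1
          rw [real_inner_comm] at h2
          intro i j hi hj hij
          fin_cases i <;> fin_cases j <;> first | exact absurd rfl hi | exact absurd rfl hj | exact absurd rfl hij | exact h1 | exact h2
        · refine ⟨R 0, TF_exists_centre_mid R hR 0 ?_⟩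
          have h1 := TF_exists_centre_wbtw _ _ _ hw
          have h2 := h1
          rw [real_inner_comm] at h2
          intro i j hi hj hij
          fin_cases i <;> fin_cases j <;> first | exact absurd rfl hi | exact absurd rfl hj | exact absurd rfl hij | exact h1 | exact h2
end


/-! ### final2 -/
section
-- ===== given lemmas (leave as they are, do not prove) =====






-- ===== TARGET =====
/-- Thomas-Fermi theory, ionic or neutral: the pressure is nonnegative whenever there is a centre `c`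
such that every nucleus `R j ≠ c` is the strict maximiser of `⟪·, R j - c⟫` among all nuclei. -/
theorem pressure_nonneg {k : ℕ} (z : Fin k → ℝ) (hz : ∀ i, 0 ≤ z i) (R : Fin k → E3)
    (hR : Function.Injective R) (c : E3)
    (hc : ∀ i j, i ≠ j → R j = c ∨ ⟪R i - c, R j - c⟫ < ‖R j - c‖ ^ 2)
    (lam : ℝ) (hlam : 0 ≤ lam) :
    AntitoneOn (fun l : ℝ => en z (fun i => l • R i) lam) (Ioi 0) ∧
    ∀ l : ℝ, 0 < l → ∀ d : ℝ, HasDerivAt (fun l : ℝ => en z (fun i => l • R i) lam) d l →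
      0 ≤ -(1 / (3 * l ^ 2)) * d := by
  have hfun : (fun l : ℝ => en z (fun i => l • R i) lam) = (fun l : ℝ => en z (fun i => l • (R i - c)) lam) := by
    funext l
    rw [← en_translate z (fun i => l • (R i - c)) lam (l • c)]
    congr 1
    funext i
    rw [← smul_add, sub_add_cancel]
  obtain ⟨κ, hκ, hstep⟩ := dil_step2 z hz (fun i => R i - c)
    (fun i j hij => hR (sub_left_inj.mp hij))
    (fun i j hij => (hc i j hij).imp (fun h => sub_eq_zero.mpr h) id) lam hlam
  have hanti : AntitoneOn (fun l : ℝ => en z (fun i => l • R i) lam) (Ioi 0) := by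
    rw [hfun]
    exact antitone_local _ κ hκ hstep
  refine ⟨hanti, ?_⟩
  intro l hl d hd
  have h1 : derivWithin (fun l : ℝ => en z (fun i => l • R i) lam) (Ioi 0) l = d :=
    (hd.hasDerivWithinAt (s := Ioi 0)).derivWithin (uniqueDiffOn_Ioi 0 l hl)
  have h2 : d ≤ 0 := by
    rw [← h1]
    exact hanti.derivWithin_nonpos
  have h3 : 0 ≤ 1 / (3 * l ^ 2) := by positivity
  nlinarith
end

end Pool.Agent.Helper557.TFP
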