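import Mathlib
import Pool.Agent.Helper557.TF.Core
open MeasureTheory Set Filter Topology Metric
open scoped RealInnerProductSpace BigOperators ENNReal

namespace Pool.Agent.Helper557.TFP


/-! ### repr_angle -/
section
theorem TF_repr_angle_alg (a s P Q : ℝ) (ha : 0 < a) (hs : 0 < s)
    (hr : 0 < P ^ 2 + Q ^ 2) (hs2 : s ^ 2 = a ^ 2 + (P ^ 2 + Q ^ 2)) :
    (1 - (1 / (1 + ((s - a) * (Q * P) / (s * P ^ 2 + a * Q ^ 2)) ^ 2)) *
      (((s - a) * (P * P + Q * (-Q)) * (s * P ^ 2 + a * Q ^ 2) -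
        (s - a) * (Q * P) * (s * (2 * P * (-Q)) + a * (2 * Q * P))) /
        (s * P ^ 2 + a * Q ^ 2) ^ 2)) / s = a / (a ^ 2 + P ^ 2) := by
  have hD : 0 < s * P ^ 2 + a * Q ^ 2 := by
    rcases eq_or_ne P 0 with h | h
    · have : 0 < Q ^ 2 := by rw [h] at hr; simpa using hr
      have := mul_pos ha this
      positivity
    · have : 0 < P ^ 2 := by positivity
      have := mul_pos hs this
      positivity
  obtain ⟨D, hDdef⟩ : ∃ D, D = s * P ^ 2 + a * Q ^ 2 := ⟨_, rfl⟩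
  obtain ⟨N, hN⟩ : ∃ N, N = (s - a) * (Q * P) := ⟨_, rfl⟩
  obtain ⟨M, hM⟩ : ∃ M, M = (s - a) * (P * P + Q * (-Q)) * (s * P ^ 2 + a * Q ^ 2) -
        (s - a) * (Q * P) * (s * (2 * P * (-Q)) + a * (2 * Q * P)) := ⟨_, rfl⟩
  rw [← hM, ← hDdef, ← hN]
  rw [← hDdef] at hD
  have e1 : D ^ 2 + N ^ 2 = (P ^ 2 + Q ^ 2) ^ 2 * (a ^ 2 + P ^ 2) := by
    rw [hDdef, hN]
    linear_combination (P ^ 4 + P ^ 2 * Q ^ 2) * hs2
  have e2 : M = (s - a) * (P ^ 2 + Q ^ 2) * (s * P ^ 2 - a * Q ^ 2) := by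
    rw [hM]; ring
  have e3 : (D ^ 2 + N ^ 2) - M = s * a * (P ^ 2 + Q ^ 2) ^ 2 := by
    rw [e1, e2]
    linear_combination (-(P ^ 2 + Q ^ 2) * P ^ 2) * hs2
  have hDN : 0 < D ^ 2 + N ^ 2 := by positivity
  have e4 : (1 / (1 + (N / D) ^ 2)) * (M / D ^ 2) = M / (D ^ 2 + N ^ 2) := by
    field_simp
  rw [e4]
  have e5 : 1 - M / (D ^ 2 + N ^ 2) = s * a * (P ^ 2 + Q ^ 2) ^ 2 / (D ^ 2 + N ^ 2) := by
    rw [← e3]; field_simp
  rw [e5, e1]
  have : 0 < a ^ 2 + P ^ 2 := by positivity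
  field_simp

-- ===== TARGET =====
theorem repr_angle (a u1 u2 : ℝ) (ha : 0 < a) :
    ∫ θ in (0:ℝ)..(2 * Real.pi), a / (a ^ 2 + (u1 * Real.cos θ + u2 * Real.sin θ) ^ 2)
      = 2 * Real.pi / √(a ^ 2 + u1 ^ 2 + u2 ^ 2) := by
  by_cases hr : u1 ^ 2 + u2 ^ 2 = 0
  · have h1 : u1 = 0 := by nlinarith [sq_nonneg u1, sq_nonneg u2]
    have h2 : u2 = 0 := by nlinarith [sq_nonneg u1, sq_nonneg u2]
    subst h1 h2
    have h3 : √(a ^ 2 + 0 ^ 2 + 0 ^ 2) = a := by
      rw [show a ^ 2 + 0 ^ 2 + 0 ^ 2 = a ^ 2 by ring, Real.sqrt_sq ha.le]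
    rw [h3]
    simp only [zero_mul, add_zero, intervalIntegral.integral_const, smul_eq_mul, sub_zero]
    field_simp
    simp
  · have hr2 : 0 < u1 ^ 2 + u2 ^ 2 := lt_of_le_of_ne (by positivity) (Ne.symm hr)
    obtain ⟨s, hsdef⟩ : ∃ s, s = √(a ^ 2 + u1 ^ 2 + u2 ^ 2) := ⟨_, rfl⟩
    have hs2 : s ^ 2 = a ^ 2 + u1 ^ 2 + u2 ^ 2 := by rw [hsdef]; exact Real.sq_sqrt (by positivity)
    have hs : 0 < s := by rw [hsdef]; positivity
    rw [← hsdef]
    have hpq : ∀ θ : ℝ, (u1 * Real.cos θ + u2 * Real.sin θ) ^ 2 +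
        (u1 * Real.sin θ - u2 * Real.cos θ) ^ 2 = u1 ^ 2 + u2 ^ 2 := by
      intro θ
      linear_combination (u1 ^ 2 + u2 ^ 2) * Real.sin_sq_add_cos_sq θ
    have hD : ∀ θ : ℝ, s * (u1 * Real.cos θ + u2 * Real.sin θ) ^ 2 +
        a * (u1 * Real.sin θ - u2 * Real.cos θ) ^ 2 ≠ 0 := by
      intro θ h0
      have h1 := hpq θ
      have hP := mul_nonneg hs.le (sq_nonneg (u1 * Real.cos θ + u2 * Real.sin θ))
      have hQ := mul_nonneg ha.le (sq_nonneg (u1 * Real.sin θ - u2 * Real.cos θ))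
      have hP0 : s * (u1 * Real.cos θ + u2 * Real.sin θ) ^ 2 = 0 := by linarith
      have hQ0 : a * (u1 * Real.sin θ - u2 * Real.cos θ) ^ 2 = 0 := by linarith
      have hP1 := (mul_eq_zero.mp hP0).resolve_left hs.ne'
      have hQ1 := (mul_eq_zero.mp hQ0).resolve_left ha.ne'
      rw [hP1, hQ1] at h1
      linarith
    have hderiv : ∀ θ : ℝ, HasDerivAt (fun θ : ℝ => (θ - Real.arctan ((s - a) *
        ((u1 * Real.sin θ - u2 * Real.cos θ) * (u1 * Real.cos θ + u2 * Real.sin θ)) /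
        (s * (u1 * Real.cos θ + u2 * Real.sin θ) ^ 2 +
          a * (u1 * Real.sin θ - u2 * Real.cos θ) ^ 2))) / s)
        (a / (a ^ 2 + (u1 * Real.cos θ + u2 * Real.sin θ) ^ 2)) θ := by
      intro θ
      have hP : HasDerivAt (fun θ : ℝ => u1 * Real.cos θ + u2 * Real.sin θ)
          (-(u1 * Real.sin θ - u2 * Real.cos θ)) θ :=
        (((Real.hasDerivAt_cos θ).const_mul u1).add
          ((Real.hasDerivAt_sin θ).const_mul u2)).congr_deriv (by ring)
      have hQ : HasDerivAt (fun θ : ℝ => u1 * Real.sin θ - u2 * Real.cos θ)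
          (u1 * Real.cos θ + u2 * Real.sin θ) θ :=
        (((Real.hasDerivAt_sin θ).const_mul u1).sub
          ((Real.hasDerivAt_cos θ).const_mul u2)).congr_deriv (by ring)
      have hN : HasDerivAt (fun θ : ℝ => (s - a) *
          ((u1 * Real.sin θ - u2 * Real.cos θ) * (u1 * Real.cos θ + u2 * Real.sin θ)))
          ((s - a) * ((u1 * Real.cos θ + u2 * Real.sin θ) * (u1 * Real.cos θ + u2 * Real.sin θ) +
            (u1 * Real.sin θ - u2 * Real.cos θ) * (-(u1 * Real.sin θ - u2 * Real.cos θ)))) θ :=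
        (hQ.mul hP).const_mul (s - a)
      have hDD : HasDerivAt (fun θ : ℝ => s * (u1 * Real.cos θ + u2 * Real.sin θ) ^ 2 +
          a * (u1 * Real.sin θ - u2 * Real.cos θ) ^ 2)
          (s * (2 * (u1 * Real.cos θ + u2 * Real.sin θ) * (-(u1 * Real.sin θ - u2 * Real.cos θ))) +
            a * (2 * (u1 * Real.sin θ - u2 * Real.cos θ) * (u1 * Real.cos θ + u2 * Real.sin θ))) θ :=
        (((hP.pow 2).const_mul s).add ((hQ.pow 2).const_mul a)).congr_deriv (by
          simp only [Nat.cast_ofNat, Nat.add_one_sub_one, pow_one])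
      have hq := (hN.div hDD (hD θ)).arctan
      have hfin := ((hasDerivAt_id θ).sub hq).div_const s
      rw [← TF_repr_angle_alg a s (u1 * Real.cos θ + u2 * Real.sin θ)
        (u1 * Real.sin θ - u2 * Real.cos θ) ha hs (by rw [hpq]; exact hr2)
        (by rw [hpq, hs2]; ring)]
      exact hfin
    rw [intervalIntegral.integral_eq_sub_of_hasDerivAt (fun θ _ => hderiv θ)]
    · simp only [Real.cos_two_pi, Real.sin_two_pi, Real.cos_zero, Real.sin_zero]
      ring
    · apply Continuous.intervalIntegrable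
      apply Continuous.div continuous_const (by fun_prop)
      intro θ
      positivity
end


/-! ### repr_laplace -/
section
-- ===== TARGET =====
theorem repr_laplace (a b : ℝ) (ha : 0 < a) :
    IntegrableOn (fun m : ℝ => Real.exp (-(m * a)) * Real.cos (m * b)) (Ioi 0) ∧
    ∫ m in Ioi (0:ℝ), Real.exp (-(m * a)) * Real.cos (m * b) = a / (a ^ 2 + b ^ 2) := by
  set c : ℂ := -(a : ℂ) + (b : ℂ) * Complex.I with hc
  have hre : c.re < 0 := by simp [hc, ha]
  have h1 := integrableOn_exp_mul_complex_Ioi hre 0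
  have h2 := integral_exp_mul_complex_Ioi hre 0
  have hfun : (fun m : ℝ => Real.exp (-(m * a)) * Real.cos (m * b)) = fun m : ℝ => (Complex.exp (c * m)).re := by
    funext m
    rw [Complex.exp_re]
    have e1 : (c * (m:ℂ)).re = -(m * a) := by simp [hc]; ring
    have e2 : (c * (m:ℂ)).im = m * b := by simp [hc]; ring
    rw [e1, e2]
  refine ⟨?_, ?_⟩
  · rw [hfun]
    exact h1.re
  · rw [hfun]
    have h3 : ∫ m in Ioi (0:ℝ), (Complex.exp (c * m)).re = (∫ m in Ioi (0:ℝ), Complex.exp (c * m)).re :=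
      integral_re h1
    rw [h3, h2]
    have hc0 : c ≠ 0 := fun h => by rw [h] at hre; simp at hre
    have hn : Complex.normSq c = a ^ 2 + b ^ 2 := by
      rw [Complex.normSq_apply]; simp [hc]; ring
    simp only [Complex.ofReal_zero, mul_zero, Complex.exp_zero]
    rw [Complex.div_re, hn]
    simp [hc]
end


/-! ### rp_eps -/
section
-- ===== given lemmas (leave as they are, do not prove) =====




noncomputable def TF_rp_eps_Gc {α : Type*} (h σ q1 q2 : α → ℝ) (ε : ℝ) (p : ℝ × ℝ) (x : α) : ℝ :=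
  h x * Real.exp (-(|p.2| * (σ x + ε))) *
    Real.cos (p.2 * (q1 x * Real.cos p.1 + q2 x * Real.sin p.1))

noncomputable def TF_rp_eps_Gs {α : Type*} (h σ q1 q2 : α → ℝ) (ε : ℝ) (p : ℝ × ℝ) (x : α) : ℝ :=
  h x * Real.exp (-(|p.2| * (σ x + ε))) *
    Real.sin (p.2 * (q1 x * Real.cos p.1 + q2 x * Real.sin p.1))

theorem TF_rp_eps_bdc {α : Type*} (h σ q1 q2 : α → ℝ) (hb : ∀ x, |h x| ≤ 1) (hσ : ∀ x, 0 ≤ σ x)
    (ε : ℝ) (p : ℝ × ℝ) (x : α) :
    |TF_rp_eps_Gc h σ q1 q2 ε p x| ≤ Real.exp (-(|p.2| * ε)) := by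
  unfold TF_rp_eps_Gc
  rw [abs_mul, abs_mul, abs_of_pos (Real.exp_pos _)]
  have h1 := Real.abs_cos_le_one (p.2 * (q1 x * Real.cos p.1 + q2 x * Real.sin p.1))
  have h2 : Real.exp (-(|p.2| * (σ x + ε))) ≤ Real.exp (-(|p.2| * ε)) := by
    apply Real.exp_le_exp.2
    have := mul_nonneg (abs_nonneg p.2) (hσ x)
    nlinarith
  calc |h x| * Real.exp (-(|p.2| * (σ x + ε))) * |Real.cos _|
      ≤ 1 * Real.exp (-(|p.2| * ε)) * 1 := by
        gcongr
        exact hb x
    _ = _ := by ring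

theorem TF_rp_eps_bds {α : Type*} (h σ q1 q2 : α → ℝ) (hb : ∀ x, |h x| ≤ 1) (hσ : ∀ x, 0 ≤ σ x)
    (ε : ℝ) (p : ℝ × ℝ) (x : α) :
    |TF_rp_eps_Gs h σ q1 q2 ε p x| ≤ Real.exp (-(|p.2| * ε)) := by
  unfold TF_rp_eps_Gs
  rw [abs_mul, abs_mul, abs_of_pos (Real.exp_pos _)]
  have h1 := Real.abs_sin_le_one (p.2 * (q1 x * Real.cos p.1 + q2 x * Real.sin p.1))
  have h2 : Real.exp (-(|p.2| * (σ x + ε))) ≤ Real.exp (-(|p.2| * ε)) := by
    apply Real.exp_le_exp.2
    have := mul_nonneg (abs_nonneg p.2) (hσ x)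
    nlinarith
  calc |h x| * Real.exp (-(|p.2| * (σ x + ε))) * |Real.sin _|
      ≤ 1 * Real.exp (-(|p.2| * ε)) * 1 := by
        gcongr
        exact hb x
    _ = _ := by ring

noncomputable def TF_rp_eps_F {α : Type*} (h σ q1 q2 : α → ℝ) (ε : ℝ) (z : α × α) (p : ℝ × ℝ) : ℝ :=
  TF_rp_eps_Gc h σ q1 q2 ε p z.1 * TF_rp_eps_Gc h σ q1 q2 ε p z.2 +
  TF_rp_eps_Gs h σ q1 q2 ε p z.1 * TF_rp_eps_Gs h σ q1 q2 ε p z.2

theorem TF_rp_eps_bdF {α : Type*} (h σ q1 q2 : α → ℝ) (hb : ∀ x, |h x| ≤ 1) (hσ : ∀ x, 0 ≤ σ x)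
    (ε : ℝ) (z : α × α) (p : ℝ × ℝ) :
    ‖TF_rp_eps_F h σ q1 q2 ε z p‖ ≤ 2 * Real.exp (-(|p.2| * (2 * ε))) := by
  unfold TF_rp_eps_F
  rw [Real.norm_eq_abs]
  refine (abs_add_le _ _).trans ?_
  rw [abs_mul, abs_mul]
  have h1 := TF_rp_eps_bdc h σ q1 q2 hb hσ ε p z.1
  have h2 := TF_rp_eps_bdc h σ q1 q2 hb hσ ε p z.2
  have h3 := TF_rp_eps_bds h σ q1 q2 hb hσ ε p z.1
  have h4 := TF_rp_eps_bds h σ q1 q2 hb hσ ε p z.2
  have e : Real.exp (-(|p.2| * (2 * ε))) = Real.exp (-(|p.2| * ε)) * Real.exp (-(|p.2| * ε)) := by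
    rw [← Real.exp_add]; congr 1; ring
  rw [e]
  have h5 := mul_le_mul h1 h2 (abs_nonneg _) (Real.exp_pos _).le
  have h6 := mul_le_mul h3 h4 (abs_nonneg _) (Real.exp_pos _).le
  linarith

noncomputable def TF_rp_eps_mu : Measure (ℝ × ℝ) :=
  (volume.restrict (Ioc (0:ℝ) (2 * Real.pi))).prod (volume.restrict (Ioi (0:ℝ)))

instance TF_rp_eps_inst : SFinite TF_rp_eps_mu := by
  unfold TF_rp_eps_mu; infer_instance

theorem TF_rp_eps_D (ε : ℝ) (hε : 0 < ε) :
    Integrable (fun p : ℝ × ℝ => 2 * Real.exp (-(|p.2| * (2 * ε)))) TF_rp_eps_mu := by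
  unfold TF_rp_eps_mu
  have h1 : IntegrableOn (fun m : ℝ => Real.exp (-(|m| * (2 * ε)))) (Ioi 0) := by
    have h2 := (repr_laplace (2 * ε) 0 (by positivity)).1
    refine h2.congr_fun (fun m hm => ?_) measurableSet_Ioi
    have hm' : 0 < m := hm
    simp only [mul_zero, Real.cos_zero, mul_one, abs_of_pos hm']
  have h3 : Integrable (fun _ : ℝ => (2:ℝ)) (volume.restrict (Ioc (0:ℝ) (2 * Real.pi))) :=
    integrable_const _
  exact h3.mul_prod h1

theorem TF_rp_eps_pt {α : Type*} [MeasurableSpace α] (h σ q1 q2 : α → ℝ)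
    (hb : ∀ x, |h x| ≤ 1) (hσ : ∀ x, 0 ≤ σ x) (ε : ℝ) (hε : 0 < ε) (x y : α) :
    ∫ p, TF_rp_eps_F h σ q1 q2 ε (x, y) p ∂TF_rp_eps_mu =
      h x * h y * (2 * Real.pi /
        √((σ x + σ y + 2 * ε) ^ 2 + (q1 x - q1 y) ^ 2 + (q2 x - q2 y) ^ 2)) := by
  have hA : 0 < σ x + σ y + 2 * ε := by have := hσ x; have := hσ y; linarith
  have hmeas : Measurable (fun p : ℝ × ℝ => TF_rp_eps_F h σ q1 q2 ε (x, y) p) := by
    unfold TF_rp_eps_F TF_rp_eps_Gc TF_rp_eps_Gs
    fun_prop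
  have hint : Integrable (fun p : ℝ × ℝ => TF_rp_eps_F h σ q1 q2 ε (x, y) p) TF_rp_eps_mu :=
    (TF_rp_eps_D ε hε).mono' hmeas.aestronglyMeasurable
      (Filter.Eventually.of_forall fun p => TF_rp_eps_bdF h σ q1 q2 hb hσ ε (x, y) p)
  unfold TF_rp_eps_mu at hint ⊢
  rw [integral_prod _ hint]
  have hin : ∀ θ : ℝ, ∫ m in Ioi (0:ℝ), TF_rp_eps_F h σ q1 q2 ε (x, y) (θ, m) =
      h x * h y * ((σ x + σ y + 2 * ε) / ((σ x + σ y + 2 * ε) ^ 2 +
        ((q1 x - q1 y) * Real.cos θ + (q2 x - q2 y) * Real.sin θ) ^ 2)) := by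
    intro θ
    rw [← (repr_laplace (σ x + σ y + 2 * ε)
      ((q1 x - q1 y) * Real.cos θ + (q2 x - q2 y) * Real.sin θ) hA).2, ← integral_const_mul]
    refine setIntegral_congr_fun measurableSet_Ioi fun m hm => ?_
    have hm' : 0 < m := hm
    simp only [TF_rp_eps_F, TF_rp_eps_Gc, TF_rp_eps_Gs, abs_of_pos hm']
    have e1 : Real.exp (-(m * (σ x + σ y + 2 * ε))) =
        Real.exp (-(m * (σ x + ε))) * Real.exp (-(m * (σ y + ε))) := by
      rw [← Real.exp_add]; congr 1; ring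
    have e2 : m * ((q1 x - q1 y) * Real.cos θ + (q2 x - q2 y) * Real.sin θ) =
        m * (q1 x * Real.cos θ + q2 x * Real.sin θ) - m * (q1 y * Real.cos θ + q2 y * Real.sin θ) := by
      ring
    rw [e1, e2, Real.cos_sub]
    ring
  simp only [hin]
  rw [integral_const_mul, ← repr_angle _ _ _ hA, intervalIntegral.integral_of_le (by positivity)]

theorem TF_rp_eps_core {α : Type*} [MeasurableSpace α] (ν : Measure α) [IsFiniteMeasure ν]
    (h σ q1 q2 : α → ℝ) (hh : Measurable h) (hσm : Measurable σ) (hq1 : Measurable q1)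
    (hq2 : Measurable q2) (hb : ∀ x, |h x| ≤ 1) (hσ : ∀ x, 0 ≤ σ x) (ε : ℝ) (hε : 0 < ε) :
    0 ≤ ∫ x, ∫ y, h x * h y /
      √((σ x + σ y + 2 * ε) ^ 2 + (q1 x - q1 y) ^ 2 + (q2 x - q2 y) ^ 2) ∂ν ∂ν := by
  have hpi : 0 < 2 * Real.pi := by positivity
  have h1 : ∀ x y : α, h x * h y /
      √((σ x + σ y + 2 * ε) ^ 2 + (q1 x - q1 y) ^ 2 + (q2 x - q2 y) ^ 2) =
      (2 * Real.pi)⁻¹ * ∫ p, TF_rp_eps_F h σ q1 q2 ε (x, y) p ∂TF_rp_eps_mu := by
    intro x y
    rw [TF_rp_eps_pt h σ q1 q2 hb hσ ε hε x y]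
    field_simp
  simp only [h1, integral_const_mul]
  refine mul_nonneg (by positivity) ?_
  have hmeas : Measurable (fun w : (α × α) × (ℝ × ℝ) => TF_rp_eps_F h σ q1 q2 ε w.1 w.2) := by
    unfold TF_rp_eps_F TF_rp_eps_Gc TF_rp_eps_Gs
    fun_prop
  have hint : Integrable (fun w : (α × α) × (ℝ × ℝ) => TF_rp_eps_F h σ q1 q2 ε w.1 w.2)
      ((ν.prod ν).prod TF_rp_eps_mu) := by
    have hD : Integrable (fun w : (α × α) × (ℝ × ℝ) =>
        (1:ℝ) * (2 * Real.exp (-(|w.2.2| * (2 * ε))))) ((ν.prod ν).prod TF_rp_eps_mu) :=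
      (integrable_const (1:ℝ)).mul_prod (TF_rp_eps_D ε hε)
    refine hD.mono' hmeas.aestronglyMeasurable (Filter.Eventually.of_forall fun w => ?_)
    rw [one_mul]
    exact TF_rp_eps_bdF h σ q1 q2 hb hσ ε w.1 w.2
  have h2 := hint.integral_prod_left
  have h3 : ∫ x, ∫ y, ∫ p, TF_rp_eps_F h σ q1 q2 ε (x, y) p ∂TF_rp_eps_mu ∂ν ∂ν =
      ∫ z, ∫ p, TF_rp_eps_F h σ q1 q2 ε z p ∂TF_rp_eps_mu ∂(ν.prod ν) :=
    (integral_prod (fun z : α × α => ∫ p, TF_rp_eps_F h σ q1 q2 ε z p ∂TF_rp_eps_mu) h2).symm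
  rw [h3, integral_integral_swap hint]
  refine integral_nonneg fun p => ?_
  have hGc : Measurable (fun x => TF_rp_eps_Gc h σ q1 q2 ε p x) := by
    unfold TF_rp_eps_Gc
    fun_prop
  have hGs : Measurable (fun x => TF_rp_eps_Gs h σ q1 q2 ε p x) := by
    unfold TF_rp_eps_Gs
    fun_prop
  have iGc : Integrable (fun x => TF_rp_eps_Gc h σ q1 q2 ε p x) ν :=
    Integrable.of_bound hGc.aestronglyMeasurable (Real.exp (-(|p.2| * ε)))
      (Filter.Eventually.of_forall fun x => TF_rp_eps_bdc h σ q1 q2 hb hσ ε p x)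
  have iGs : Integrable (fun x => TF_rp_eps_Gs h σ q1 q2 ε p x) ν :=
    Integrable.of_bound hGs.aestronglyMeasurable (Real.exp (-(|p.2| * ε)))
      (Filter.Eventually.of_forall fun x => TF_rp_eps_bds h σ q1 q2 hb hσ ε p x)
  have h4 : ∫ z, TF_rp_eps_F h σ q1 q2 ε z p ∂(ν.prod ν) =
      (∫ x, TF_rp_eps_Gc h σ q1 q2 ε p x ∂ν) * (∫ x, TF_rp_eps_Gc h σ q1 q2 ε p x ∂ν) +
      (∫ x, TF_rp_eps_Gs h σ q1 q2 ε p x ∂ν) * (∫ x, TF_rp_eps_Gs h σ q1 q2 ε p x ∂ν) := by
    unfold TF_rp_eps_F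
    rw [integral_add (iGc.mul_prod iGc) (iGs.mul_prod iGs), integral_prod_mul, integral_prod_mul]
  show 0 ≤ ∫ z, TF_rp_eps_F h σ q1 q2 ε z p ∂(ν.prod ν)
  rw [h4]
  exact add_nonneg (mul_self_nonneg _) (mul_self_nonneg _)

theorem TF_rp_eps_norm (n : E3) (hn : ‖n‖ = 1) : ∃ e1 e2 : E3, ∀ (ε : ℝ) (x y : E3),
    ‖x - refl n 0 y - (2 * ε) • n‖ =
      √((-⟪n, x⟫ + -⟪n, y⟫ + 2 * ε) ^ 2 + (⟪e1, x⟫ - ⟪e1, y⟫) ^ 2 + (⟪e2, x⟫ - ⟪e2, y⟫) ^ 2) := by
  have hv : Orthonormal ℝ (({0} : Set (Fin 3)).domRestrict (fun _ => n)) := by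
    constructor
    · intro i; exact hn
    · intro i j hij
      exact absurd (Subsingleton.elim i j) hij
  obtain ⟨b, hbn⟩ := Orthonormal.exists_orthonormalBasis_extension_of_card_eq
    (𝕜 := ℝ) (E := E3) (ι := Fin 3) (by simp) hv
  have hb0 : b 0 = n := hbn 0 rfl
  refine ⟨b 1, b 2, fun ε x y => ?_⟩
  have hnn : ⟪n, n⟫ = (1:ℝ) := by
    rw [real_inner_self_eq_norm_sq, hn]; norm_num
  have h1n : ⟪b 1, n⟫ = (0:ℝ) := by
    rw [← hb0]; exact b.orthonormal.2 (by decide)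
  have h2n : ⟪b 2, n⟫ = (0:ℝ) := by
    rw [← hb0]; exact b.orthonormal.2 (by decide)
  have hs := b.sum_sq_norm_inner_right (x - refl n 0 y - (2 * ε) • n)
  rw [Fin.sum_univ_three, hb0] at hs
  simp only [Real.norm_eq_abs, sq_abs] at hs
  have e0 : ⟪n, x - refl n 0 y - (2 * ε) • n⟫ = -(-⟪n, x⟫ + -⟪n, y⟫ + 2 * ε) := by
    unfold refl
    simp only [inner_sub_right, inner_smul_right, hnn]
    ring
  have e1 : ⟪b 1, x - refl n 0 y - (2 * ε) • n⟫ = ⟪b 1, x⟫ - ⟪b 1, y⟫ := by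
    unfold refl
    simp only [inner_sub_right, inner_smul_right, h1n]
    ring
  have e2 : ⟪b 2, x - refl n 0 y - (2 * ε) • n⟫ = ⟪b 2, x⟫ - ⟪b 2, y⟫ := by
    unfold refl
    simp only [inner_sub_right, inner_smul_right, h2n]
    ring
  rw [e0, e1, e2] at hs
  rw [← Real.sqrt_sq (norm_nonneg (x - refl n 0 y - (2 * ε) • n)), ← hs]
  congr 1
  ring

-- ===== TARGET =====
/-- reflection positivity of the shifted Coulomb kernel -/
theorem rp_eps (n : E3) (hn : ‖n‖ = 1) (ν : Measure E3) [IsFiniteMeasure ν] (h : E3 → ℝ)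
    (hh : Measurable h) (hb : ∀ x, |h x| ≤ 1) (hsupp : ∀ᵐ x ∂ν, ⟪n, x⟫ ≤ 0) (ε : ℝ) (hε : 0 < ε) :
    0 ≤ ∫ x, ∫ y, h x * h y / ‖x - refl n 0 y - (2 * ε) • n‖ ∂ν ∂ν := by
  obtain ⟨e1, e2, hE⟩ := TF_rp_eps_norm n hn
  have hcore := TF_rp_eps_core ν h (fun x => max (-⟪n, x⟫) 0) (fun x => ⟪e1, x⟫)
    (fun x => ⟪e2, x⟫) hh (by fun_prop) (by fun_prop) (by fun_prop) hb
    (fun x => le_max_right _ _) ε hε
  refine hcore.trans (le_of_eq ?_)
  refine integral_congr_ae ?_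
  filter_upwards [hsupp] with x hx
  refine integral_congr_ae ?_
  filter_upwards [hsupp] with y hy
  rw [hE]
  simp only [max_eq_left (neg_nonneg.2 hx), max_eq_left (neg_nonneg.2 hy)]
end


/-! ### rp_lim -/
section
-- ===== given lemmas (leave as they are, do not prove) =====


-- ===== TARGET =====
/-- reflection positivity of the Coulomb kernel -/
theorem rp_lim (n : E3) (hn : ‖n‖ = 1) (ν : Measure E3) [IsFiniteMeasure ν] (h : E3 → ℝ)
    (hh : Measurable h) (hb : ∀ x, |h x| ≤ 1) (hsupp : ∀ᵐ x ∂ν, ⟪n, x⟫ < 0)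
    (hint : Integrable (fun q : E3 × E3 => 1 / ‖q.1 - refl n 0 q.2‖) (ν.prod ν)) :
    0 ≤ ∫ x, ∫ y, h x * h y / ‖x - refl n 0 y‖ ∂ν ∂ν := by
  have hcont : Continuous (refl n 0) := by
    unfold refl
    fun_prop
  have hmeas : ∀ c : ℝ, Measurable (fun q : E3 × E3 =>
      h q.1 * h q.2 / ‖q.1 - refl n 0 q.2 - c • n‖) := by
    intro c
    have h1 : Measurable (fun q : E3 × E3 => ‖q.1 - refl n 0 q.2 - c • n‖) := by
      apply Continuous.measurable
      fun_prop
    exact ((hh.comp measurable_fst).mul (hh.comp measurable_snd)).div h1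
  have hin : ∀ x y : E3, ⟪n, x - refl n 0 y⟫ = ⟪n, x⟫ + ⟪n, y⟫ := by
    intro x y
    unfold refl
    rw [inner_sub_right, inner_sub_right, real_inner_smul_right, real_inner_self_eq_norm_sq, hn]
    ring
  have ae1 : ∀ᵐ q ∂(ν.prod ν), ⟪n, q.1⟫ < 0 := Measure.quasiMeasurePreserving_fst.ae hsupp
  have ae2 : ∀ᵐ q ∂(ν.prod ν), ⟪n, q.2⟫ < 0 := Measure.quasiMeasurePreserving_snd.ae hsupp
  have hneg : ∀ᵐ q ∂(ν.prod ν), ⟪n, q.1 - refl n 0 q.2⟫ < 0 := by
    filter_upwards [ae1, ae2] with q h1 h2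
    rw [hin]
    linarith
  have hpos : ∀ w : E3, ⟪n, w⟫ < 0 → 0 < ‖w‖ := by
    intro w hw
    rw [norm_pos_iff]
    rintro rfl
    simp at hw
  have hnorm : ∀ (w : E3) (c : ℝ), ⟪n, w⟫ < 0 → 0 ≤ c → ‖w‖ ≤ ‖w - c • n‖ := by
    intro w c hw hc
    have h1 : ‖w - c • n‖ ^ 2 = ‖w‖ ^ 2 - 2 * (c * ⟪n, w⟫) + c ^ 2 := by
      rw [norm_sub_sq_real, real_inner_smul_right, norm_smul, hn, real_inner_comm, mul_one,
        Real.norm_eq_abs, sq_abs]
    have h2 : ‖w‖ ^ 2 ≤ ‖w - c • n‖ ^ 2 := by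
      rw [h1]
      nlinarith [mul_nonneg hc (neg_nonneg.2 hw.le)]
    exact le_of_sq_le_sq h2 (norm_nonneg _)
  have hbound : ∀ c : ℝ, 0 ≤ c → ∀ᵐ q ∂(ν.prod ν),
      ‖h q.1 * h q.2 / ‖q.1 - refl n 0 q.2 - c • n‖‖ ≤ 1 / ‖q.1 - refl n 0 q.2‖ := by
    intro c hc
    filter_upwards [hneg] with q hq
    have h1 := hpos _ hq
    have h2 := hnorm _ c hq hc
    rw [norm_div, norm_mul, Real.norm_eq_abs, Real.norm_eq_abs, norm_norm]
    have h3 : |h q.1| * |h q.2| ≤ 1 := by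
      calc |h q.1| * |h q.2| ≤ 1 * 1 := mul_le_mul (hb _) (hb _) (abs_nonneg _) zero_le_one
        _ = 1 := one_mul 1
    exact div_le_div₀ zero_le_one h3 h1 h2
  have hint' : ∀ c : ℝ, 0 ≤ c → Integrable (fun q : E3 × E3 =>
      h q.1 * h q.2 / ‖q.1 - refl n 0 q.2 - c • n‖) (ν.prod ν) := fun c hc =>
    hint.mono' (hmeas c).aestronglyMeasurable (hbound c hc)
  have hzero : (fun q : E3 × E3 => h q.1 * h q.2 / ‖q.1 - refl n 0 q.2 - (0 : ℝ) • n‖) =
      fun q : E3 × E3 => h q.1 * h q.2 / ‖q.1 - refl n 0 q.2‖ := by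
    funext q
    rw [zero_smul, sub_zero]
  have hconv : Tendsto (fun k : ℕ => ∫ q : E3 × E3,
      h q.1 * h q.2 / ‖q.1 - refl n 0 q.2 - (2 * (1 / ((k : ℝ) + 1))) • n‖ ∂(ν.prod ν)) atTop
      (𝓝 (∫ q : E3 × E3, h q.1 * h q.2 / ‖q.1 - refl n 0 q.2‖ ∂(ν.prod ν))) := by
    apply tendsto_integral_of_dominated_convergence (fun q : E3 × E3 => 1 / ‖q.1 - refl n 0 q.2‖)
    · intro k
      exact (hmeas _).aestronglyMeasurable
    · exact hint
    · intro k
      exact hbound _ (by positivity)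
    · filter_upwards [hneg] with q hq
      have h1 := hpos _ hq
      have h2 : Tendsto (fun k : ℕ => (2 * (1 / ((k : ℝ) + 1)))) atTop (𝓝 (2 * 0)) :=
        tendsto_one_div_add_atTop_nhds_zero_nat.const_mul 2
      have h3 : Tendsto (fun k : ℕ => ‖q.1 - refl n 0 q.2 - (2 * (1 / ((k : ℝ) + 1))) • n‖) atTop
          (𝓝 ‖q.1 - refl n 0 q.2 - ((2 : ℝ) * 0) • n‖) :=
        (tendsto_const_nhds.sub (h2.smul_const n)).norm
      rw [mul_zero, zero_smul, sub_zero] at h3
      exact tendsto_const_nhds.div h3 h1.ne'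
  have hprod : ∀ c : ℝ, 0 ≤ c → ∫ q : E3 × E3,
      h q.1 * h q.2 / ‖q.1 - refl n 0 q.2 - c • n‖ ∂(ν.prod ν) =
      ∫ x, ∫ y, h x * h y / ‖x - refl n 0 y - c • n‖ ∂ν ∂ν := fun c hc =>
    integral_prod _ (hint' c hc)
  have hprod0 : ∫ q : E3 × E3, h q.1 * h q.2 / ‖q.1 - refl n 0 q.2‖ ∂(ν.prod ν) =
      ∫ x, ∫ y, h x * h y / ‖x - refl n 0 y‖ ∂ν ∂ν := by
    have := hint' 0 le_rfl
    rw [hzero] at this
    exact integral_prod _ this
  rw [← hprod0]
  refine ge_of_tendsto' hconv fun k => ?_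
  rw [hprod _ (by positivity)]
  exact rp_eps n hn ν h hh hb (hsupp.mono fun x hx => hx.le) (1 / ((k : ℝ) + 1)) (by positivity)
end


/-! ### rp_pd -/
section
-- ===== given lemmas (leave as they are, do not prove) =====




theorem TF_rp_pd_symm (n : E3) (hn : ‖n‖ = 1) (x y : E3) :
    ‖refl n 0 x - y‖ = ‖x - refl n 0 y‖ := by
  have h1 : ‖refl n 0 x - y‖ ^ 2 = ‖x - refl n 0 y‖ ^ 2 := by
    have e1 : refl n 0 x - y = (x - y) - (2 * ⟪n, x⟫) • n := by
      simp only [refl, sub_zero]; abel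
    have e2 : x - refl n 0 y = (x - y) + (2 * ⟪n, y⟫) • n := by
      simp only [refl, sub_zero]; abel
    rw [e1, e2, norm_sub_sq_real, norm_add_sq_real, norm_smul, norm_smul, hn,
      inner_smul_right, inner_smul_right, inner_sub_left, real_inner_comm n x,
      real_inner_comm n y, mul_one, mul_one, Real.norm_eq_abs, Real.norm_eq_abs, sq_abs, sq_abs]
    ring
  exact (pow_left_inj₀ (norm_nonneg _) (norm_nonneg _) two_ne_zero).mp h1

/-- the measure -/
noncomputable def TF_rp_pd_nu (f : E3 → ℝ) (c1 c2 : ℝ) (p1 p2 : E3) : Measure E3 :=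
  (|c1|.toNNReal • Measure.dirac p1 + |c2|.toNNReal • Measure.dirac p2) +
    (volume : Measure E3).withDensity (fun x => ((|f x|.toNNReal : NNReal) : ℝ≥0∞))

theorem TF_rp_pd_fin (f : E3 → ℝ) (hf : Nice f) (c1 c2 : ℝ) (p1 p2 : E3) :
    IsFiniteMeasure (TF_rp_pd_nu f c1 c2 p1 p2) := by
  have : IsFiniteMeasure ((volume : Measure E3).withDensity
      (fun x => ((|f x|.toNNReal : NNReal) : ℝ≥0∞))) :=
    isFiniteMeasure_withDensity_ofReal hf.2.1.abs.2
  unfold TF_rp_pd_nu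
  infer_instance

theorem TF_rp_pd_int (f : E3 → ℝ) (hf : Nice f) (c1 c2 : ℝ) (p1 p2 : E3) (g : E3 → ℝ)
    (hg : Integrable (fun x => |f x| * g x)) :
    Integrable g (TF_rp_pd_nu f c1 c2 p1 p2) ∧
    ∫ x, g x ∂(TF_rp_pd_nu f c1 c2 p1 p2) = |c1| * g p1 + |c2| * g p2 + ∫ x, |f x| * g x := by
  have hm : Measurable (fun x => |f x|.toNNReal) := hf.1.abs.real_toNNReal
  have i1 : Integrable g (|c1|.toNNReal • Measure.dirac p1) :=
    (integrable_dirac (by simp)).smul_measure_nnreal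
  have i2 : Integrable g (|c2|.toNNReal • Measure.dirac p2) :=
    (integrable_dirac (by simp)).smul_measure_nnreal
  have e : (fun x => |f x|.toNNReal • g x) = fun x => |f x| * g x := by
    funext x
    rw [NNReal.smul_def, Real.coe_toNNReal _ (abs_nonneg _), smul_eq_mul]
  have i3 : Integrable g ((volume : Measure E3).withDensity
      (fun x => ((|f x|.toNNReal : NNReal) : ℝ≥0∞))) := by
    rw [integrable_withDensity_iff_integrable_smul hm, e]
    exact hg
  refine ⟨(i1.add_measure i2).add_measure i3, ?_⟩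
  unfold TF_rp_pd_nu
  rw [integral_add_measure (i1.add_measure i2) i3, integral_add_measure i1 i2,
    integral_smul_nnreal_measure, integral_smul_nnreal_measure, integral_dirac, integral_dirac,
    integral_withDensity_eq_integral_smul hm, e, NNReal.smul_def, NNReal.smul_def,
    Real.coe_toNNReal _ (abs_nonneg _), Real.coe_toNNReal _ (abs_nonneg _), smul_eq_mul,
    smul_eq_mul]

/-- sign -/
noncomputable def TF_rp_pd_sg (r : ℝ) : ℝ := if 0 ≤ r then 1 else -1

theorem TF_rp_pd_sg_mul (r : ℝ) : |r| * TF_rp_pd_sg r = r := by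
  unfold TF_rp_pd_sg
  split_ifs with h
  · rw [abs_of_nonneg h, mul_one]
  · rw [abs_of_neg (not_le.mp h)]; ring

theorem TF_rp_pd_sg_abs (r : ℝ) : |TF_rp_pd_sg r| ≤ 1 := by
  unfold TF_rp_pd_sg
  split_ifs <;> simp

theorem TF_rp_pd_lower (n : E3) (hn : ‖n‖ = 1) (x p : E3) (hx : ⟪n, x⟫ < 0) (hp : ⟪n, p⟫ < 0) :
    -⟪n, p⟫ ≤ ‖x - refl n 0 p‖ := by
  have h1 : ⟪n, x - refl n 0 p⟫ = ⟪n, x⟫ + ⟪n, p⟫ := by
    simp only [refl, sub_zero, inner_sub_right, inner_smul_right, real_inner_self_eq_norm_sq, hn]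
    ring
  have h2 := abs_real_inner_le_norm n (x - refl n 0 p)
  rw [h1, hn, one_mul, abs_of_neg (by linarith)] at h2
  linarith

-- ===== TARGET =====
theorem rp_pd (n : E3) (hn : ‖n‖ = 1) (f : E3 → ℝ) (hf : Nice f) (hsupp : ∀ x, 0 ≤ ⟪n, x⟫ → f x = 0)
    (c1 c2 : ℝ) (p1 p2 : E3) (h1 : ⟪n, p1⟫ < 0) (h2 : ⟪n, p2⟫ < 0) (h12 : p1 ≠ p2) :
    0 ≤ c1 ^ 2 / ‖p1 - refl n 0 p1‖ + 2 * c1 * c2 / ‖p1 - refl n 0 p2‖ + c2 ^ 2 / ‖p2 - refl n 0 p2‖
      + 2 * c1 * (∫ x, f x / ‖x - refl n 0 p1‖) + 2 * c2 * (∫ x, f x / ‖x - refl n 0 p2‖)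
      + ∫ x, ∫ y, f x * f y / ‖x - refl n 0 y‖ := by
  have hrc : Continuous (refl n 0) := by
    unfold refl
    fun_prop
  obtain ⟨B, hB⟩ := nice_bound f hf
  have hK : Measurable (fun q : E3 × E3 => 1 / ‖q.1 - refl n 0 q.2‖) :=
    measurable_const.div (continuous_fst.sub (hrc.comp continuous_snd)).norm.measurable
  have hfint : ∀ x, Integrable (fun y => f y / ‖x - refl n 0 y‖) := by
    intro x
    have := (hB (refl n 0 x)).1
    simpa only [TF_rp_pd_symm n hn] using this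
  have hfabs : ∀ x, ∫ y, |f y| / ‖x - refl n 0 y‖ ≤ B := by
    intro x
    have := (hB (refl n 0 x)).2
    simpa only [TF_rp_pd_symm n hn] using this
  have hfabsint : ∀ x, Integrable (fun y => |f y| * (1 / ‖x - refl n 0 y‖)) := by
    intro x
    refine (hfint x).abs.congr (Eventually.of_forall fun y => ?_)
    simp only [abs_div, abs_norm, mul_one_div]
  have hfin := TF_rp_pd_fin f hf c1 c2 p1 p2
  obtain ⟨ν, hν⟩ : ∃ ν, ν = TF_rp_pd_nu f c1 c2 p1 p2 := ⟨_, rfl⟩
  have hνint : ∀ g : E3 → ℝ, Integrable (fun x => |f x| * g x) → Integrable g ν ∧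
      ∫ x, g x ∂ν = |c1| * g p1 + |c2| * g p2 + ∫ x, |f x| * g x := by
    rw [hν]
    exact TF_rp_pd_int f hf c1 c2 p1 p2
  have hνs : ∀ᵐ x ∂ν, ⟪n, x⟫ < 0 := by
    rw [hν]
    unfold TF_rp_pd_nu
    rw [ae_add_measure_iff, ae_add_measure_iff]
    refine ⟨⟨Measure.ae_smul_measure ?_ _, Measure.ae_smul_measure ?_ _⟩, ?_⟩
    · rw [ae_dirac_eq]; exact h1
    · rw [ae_dirac_eq]; exact h2
    · rw [ae_withDensity_iff (hf.1.abs.real_toNNReal.coe_nnreal_ennreal)]
      refine Eventually.of_forall fun x hx => ?_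
      by_contra hcon
      apply hx
      rw [hsupp x (not_lt.mp hcon)]
      simp
  rw [← hν] at hfin
  obtain ⟨h, hdef⟩ : ∃ h : E3 → ℝ, h = fun x => if x = p1 then TF_rp_pd_sg c1 else
    if x = p2 then TF_rp_pd_sg c2 else TF_rp_pd_sg (f x) := ⟨_, rfl⟩
  have hh : Measurable h := by
    rw [hdef]
    refine Measurable.ite (measurableSet_singleton p1) measurable_const
      (Measurable.ite (measurableSet_singleton p2) measurable_const ?_)
    unfold TF_rp_pd_sg
    exact Measurable.ite (measurableSet_le measurable_const hf.1) measurable_const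
      measurable_const
  have hb : ∀ x, |h x| ≤ 1 := by
    intro x
    rw [hdef]
    dsimp only
    split_ifs <;> exact TF_rp_pd_sg_abs _
  have hp1 : |c1| * h p1 = c1 := by
    rw [hdef]
    dsimp only
    rw [if_pos rfl, TF_rp_pd_sg_mul]
  have hp2 : |c2| * h p2 = c2 := by
    rw [hdef]
    dsimp only
    rw [if_neg (Ne.symm h12), if_pos rfl, TF_rp_pd_sg_mul]
  have hae : ∀ᵐ x : E3, |f x| * h x = f x := by
    have a1 : ∀ᵐ x : E3, x ≠ p1 := compl_mem_ae_iff.mpr (measure_singleton p1)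
    have a2 : ∀ᵐ x : E3, x ≠ p2 := compl_mem_ae_iff.mpr (measure_singleton p2)
    filter_upwards [a1, a2] with x b1 b2
    rw [hdef]
    dsimp only
    rw [if_neg b1, if_neg b2, TF_rp_pd_sg_mul]
  have hint : Integrable (fun q : E3 × E3 => 1 / ‖q.1 - refl n 0 q.2‖) (ν.prod ν) := by
    rw [integrable_prod_iff hK.aestronglyMeasurable]
    refine ⟨Eventually.of_forall fun x => (hνint _ (hfabsint x)).1, ?_⟩
    refine Integrable.of_bound (StronglyMeasurable.integral_prod_right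
      (f := fun (x y : E3) => ‖1 / ‖x - refl n 0 y‖‖) hK.norm.stronglyMeasurable).aestronglyMeasurable
      (|c1| * (1 / -⟪n, p1⟫) + |c2| * (1 / -⟪n, p2⟫) + B) ?_
    filter_upwards [hνs] with x hx
    have e1 : ∫ y, ‖1 / ‖x - refl n 0 y‖‖ ∂ν = ∫ y, 1 / ‖x - refl n 0 y‖ ∂ν := by
      refine integral_congr_ae (Eventually.of_forall fun y => ?_)
      dsimp only
      rw [Real.norm_of_nonneg (by positivity)]
    rw [e1, Real.norm_of_nonneg (integral_nonneg fun y => by positivity),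
      (hνint _ (hfabsint x)).2]
    have l1 := TF_rp_pd_lower n hn x p1 hx h1
    have l2 := TF_rp_pd_lower n hn x p2 hx h2
    have m1 : 1 / ‖x - refl n 0 p1‖ ≤ 1 / -⟪n, p1⟫ :=
      one_div_le_one_div_of_le (by linarith) l1
    have m2 : 1 / ‖x - refl n 0 p2‖ ≤ 1 / -⟪n, p2⟫ :=
      one_div_le_one_div_of_le (by linarith) l2
    have m3 : ∫ y, |f y| * (1 / ‖x - refl n 0 y‖) ≤ B := by
      refine le_trans (le_of_eq ?_) (hfabs x)
      refine integral_congr_ae (Eventually.of_forall fun y => ?_)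
      simp only [mul_one_div]
    have m4 := mul_le_mul_of_nonneg_left m1 (abs_nonneg c1)
    have m5 := mul_le_mul_of_nonneg_left m2 (abs_nonneg c2)
    linarith
  have key := rp_lim n hn ν h hh hb hνs hint
  obtain ⟨V, hV⟩ : ∃ V : E3 → ℝ, V = fun x => ∫ y, f y / ‖x - refl n 0 y‖ := ⟨_, rfl⟩
  have hVm : Measurable V := by
    rw [hV]
    refine (StronglyMeasurable.integral_prod_right
      (f := fun (x y : E3) => f y / ‖x - refl n 0 y‖) ?_).measurable
    refine Measurable.stronglyMeasurable ?_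
    exact (hf.1.comp measurable_snd).div
      (continuous_fst.sub (hrc.comp continuous_snd)).norm.measurable
  have hVb : ∀ x, |V x| ≤ B := by
    intro x
    rw [hV]
    refine le_trans (abs_integral_le_integral_abs) (le_trans (le_of_eq ?_) (hfabs x))
    refine integral_congr_ae (Eventually.of_forall fun y => ?_)
    simp only [abs_div, abs_norm]
  obtain ⟨J, hJ⟩ : ∃ J : E3 → ℝ, J = fun x => c1 / ‖x - refl n 0 p1‖ + c2 / ‖x - refl n 0 p2‖
    + V x := ⟨_, rfl⟩
  have inner1 : ∀ x, ∫ y, h x * h y / ‖x - refl n 0 y‖ ∂ν = h x * J x := by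
    intro x
    have hae2 : (fun y => |f y| * (h x * h y / ‖x - refl n 0 y‖)) =ᵐ[volume]
        fun y => h x * (f y / ‖x - refl n 0 y‖) := by
      filter_upwards [hae] with y hy
      calc |f y| * (h x * h y / ‖x - refl n 0 y‖)
          = h x * ((|f y| * h y) / ‖x - refl n 0 y‖) := by ring
        _ = h x * (f y / ‖x - refl n 0 y‖) := by rw [hy]
    have := (hνint (fun y => h x * h y / ‖x - refl n 0 y‖)
      (((hfint x).const_mul (h x)).congr hae2.symm)).2
    rw [this, integral_congr_ae hae2, integral_const_mul, hJ, hV]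
    have r1 : |c1| * (h x * h p1 / ‖x - refl n 0 p1‖) = h x * (c1 / ‖x - refl n 0 p1‖) := by
      calc |c1| * (h x * h p1 / ‖x - refl n 0 p1‖)
          = h x * ((|c1| * h p1) / ‖x - refl n 0 p1‖) := by ring
        _ = h x * (c1 / ‖x - refl n 0 p1‖) := by rw [hp1]
    have r2 : |c2| * (h x * h p2 / ‖x - refl n 0 p2‖) = h x * (c2 / ‖x - refl n 0 p2‖) := by
      calc |c2| * (h x * h p2 / ‖x - refl n 0 p2‖)
          = h x * ((|c2| * h p2) / ‖x - refl n 0 p2‖) := by ring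
        _ = h x * (c2 / ‖x - refl n 0 p2‖) := by rw [hp2]
    rw [r1, r2]
    ring
  have q1 : Integrable (fun x => f x / ‖x - refl n 0 p1‖) := by
    have := (hB (refl n 0 p1)).1
    simpa only [norm_sub_rev (refl n 0 p1)] using this
  have q2 : Integrable (fun x => f x / ‖x - refl n 0 p2‖) := by
    have := (hB (refl n 0 p2)).1
    simpa only [norm_sub_rev (refl n 0 p2)] using this
  have q3 : Integrable (fun x => f x * V x) := by
    refine (hf.2.1.abs.const_mul B).mono' (hf.1.mul hVm).aestronglyMeasurable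
      (Eventually.of_forall fun x => ?_)
    rw [Real.norm_eq_abs, abs_mul, mul_comm]
    exact mul_le_mul_of_nonneg_right (hVb x) (abs_nonneg _)
  have hae3 : (fun x => |f x| * (h x * J x)) =ᵐ[volume]
      fun x => (c1 * (f x / ‖x - refl n 0 p1‖) + c2 * (f x / ‖x - refl n 0 p2‖)) + f x * V x := by
    filter_upwards [hae] with x hx
    calc |f x| * (h x * J x) = (|f x| * h x) * J x := by ring
      _ = f x * J x := by rw [hx]
      _ = _ := by rw [hJ]; ring
  have q12 : Integrable (fun x => c1 * (f x / ‖x - refl n 0 p1‖) +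
      c2 * (f x / ‖x - refl n 0 p2‖)) := (q1.const_mul c1).add (q2.const_mul c2)
  have outer := (hνint (fun x => h x * J x) ((q12.add q3).congr hae3.symm)).2
  have w1 : ∫ x, |f x| * (h x * J x) = c1 * (∫ x, f x / ‖x - refl n 0 p1‖) +
      c2 * (∫ x, f x / ‖x - refl n 0 p2‖) + ∫ x, f x * V x := by
    rw [integral_congr_ae hae3, integral_add q12 q3,
      integral_add (q1.const_mul c1) (q2.const_mul c2), integral_const_mul, integral_const_mul]
  have w2 : ∫ x, f x * V x = ∫ x, ∫ y, f x * f y / ‖x - refl n 0 y‖ := by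
    refine integral_congr_ae (Eventually.of_forall fun x => ?_)
    dsimp only
    rw [hV, ← integral_const_mul]
    refine integral_congr_ae (Eventually.of_forall fun y => ?_)
    dsimp only
    ring
  have w3 : ∀ p, V p = ∫ x, f x / ‖x - refl n 0 p‖ := by
    intro p
    rw [hV]
    refine integral_congr_ae (Eventually.of_forall fun y => ?_)
    dsimp only
    rw [← TF_rp_pd_symm n hn, norm_sub_rev]
  have w4 : ‖p2 - refl n 0 p1‖ = ‖p1 - refl n 0 p2‖ := by
    rw [← TF_rp_pd_symm n hn, norm_sub_rev]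
  have w5 : |c1| * (h p1 * J p1) = c1 * J p1 := by rw [← mul_assoc, hp1]
  have w6 : |c2| * (h p2 * J p2) = c2 * J p2 := by rw [← mul_assoc, hp2]
  simp only [inner1] at key
  rw [outer, w1, w2, w5, w6] at key
  have w7 : J p1 = c1 / ‖p1 - refl n 0 p1‖ + c2 / ‖p1 - refl n 0 p2‖ +
      ∫ x, f x / ‖x - refl n 0 p1‖ := by rw [hJ]; dsimp only; rw [w3]
  have w8 : J p2 = c1 / ‖p1 - refl n 0 p2‖ + c2 / ‖p2 - refl n 0 p2‖ +
      ∫ x, f x / ‖x - refl n 0 p2‖ := by rw [hJ]; dsimp only; rw [w3, w4]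
  rw [w7, w8] at key
  have fin : c1 ^ 2 / ‖p1 - refl n 0 p1‖ + 2 * c1 * c2 / ‖p1 - refl n 0 p2‖ +
      c2 ^ 2 / ‖p2 - refl n 0 p2‖
      + 2 * c1 * (∫ x, f x / ‖x - refl n 0 p1‖) + 2 * c2 * (∫ x, f x / ‖x - refl n 0 p2‖)
      + ∫ x, ∫ y, f x * f y / ‖x - refl n 0 y‖ =
      c1 * (c1 / ‖p1 - refl n 0 p1‖ + c2 / ‖p1 - refl n 0 p2‖ +
        ∫ x, f x / ‖x - refl n 0 p1‖) +
      c2 * (c1 / ‖p1 - refl n 0 p2‖ + c2 / ‖p2 - refl n 0 p2‖ +
        ∫ x, f x / ‖x - refl n 0 p2‖) +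
      (c1 * (∫ x, f x / ‖x - refl n 0 p1‖) + c2 * (∫ x, f x / ‖x - refl n 0 p2‖) +
        ∫ x, ∫ y, f x * f y / ‖x - refl n 0 y‖) := by
    ring
  rw [fin]
  exact key
end


/-! ### coulomb_pd -/
section
-- ===== given lemmas (leave as they are, do not prove) =====


-- ===== TARGET =====

theorem TF_coulomb_pd_gpos (b : ℝ) (hb : 0 < b) : 0 < ∫ v : E3, Real.exp (-b * ‖v‖^2) := by
  rw [GaussianFourier.integral_rexp_neg_mul_sq_norm hb]
  positivity

theorem TF_coulomb_pd_gint (b : ℝ) (hb : 0 < b) :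
    Integrable (fun v : E3 => Real.exp (-b * ‖v‖^2)) := by
  by_contra hc
  have := TF_coulomb_pd_gpos b hb
  rw [integral_undef hc] at this
  exact lt_irrefl _ this

theorem TF_coulomb_pd_par (τ : ℝ) (x y w : E3) :
    Real.exp (-(2*τ) * ‖x - w‖^2) * Real.exp (-(2*τ) * ‖y - w‖^2)
      = Real.exp (-τ * ‖x - y‖^2) * Real.exp (-(4*τ) * ‖w - (1/2 : ℝ) • (x + y)‖^2) := by
  have h := parallelogram_law_with_norm ℝ (x - w) (y - w)
  have h1 : (x - w) + (y - w) = -((2:ℝ) • (w - (1/2 : ℝ) • (x + y))) := by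
    module
  have h2 : (x - w) - (y - w) = x - y := by abel
  rw [h1, h2, norm_neg, norm_smul] at h
  rw [← Real.exp_add, ← Real.exp_add]
  congr 1
  have h3 : ‖(2:ℝ)‖ = 2 := by norm_num
  rw [h3] at h
  linear_combination τ * h

theorem TF_coulomb_pd_gauss (h : E3 → ℝ) (hm : Measurable h) (hi : Integrable h) (τ : ℝ)
    (hτ : 0 < τ) :
    0 ≤ ∫ p : E3 × E3, h p.1 * h p.2 * Real.exp (-τ * ‖p.1 - p.2‖^2)
      ∂((volume : Measure E3).prod (volume : Measure E3)) := by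
  obtain ⟨G, hG⟩ : ∃ G : ℝ, G = ∫ v : E3, Real.exp (-(4*τ) * ‖v‖^2) := ⟨_, rfl⟩
  have hGpos : 0 < G := hG ▸ TF_coulomb_pd_gpos (4*τ) (by positivity)
  have hGint := TF_coulomb_pd_gint (4*τ) (by positivity)
  have hfun : ∀ p : E3 × E3, (fun w : E3 => (h p.1 * Real.exp (-(2*τ) * ‖p.1 - w‖^2))
      * (h p.2 * Real.exp (-(2*τ) * ‖p.2 - w‖^2)))
      = fun w => (h p.1 * h p.2 * Real.exp (-τ * ‖p.1 - p.2‖^2))
        * Real.exp (-(4*τ) * ‖w - (1/2 : ℝ) • (p.1 + p.2)‖^2) := by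
    intro p
    funext w
    have := TF_coulomb_pd_par τ p.1 p.2 w
    linear_combination (h p.1 * h p.2) * this
  have hshift : ∀ c : E3, ∫ w : E3, Real.exp (-(4*τ) * ‖w - c‖^2) = G := by
    intro c
    rw [hG]
    exact integral_sub_right_eq_self (fun v : E3 => Real.exp (-(4*τ) * ‖v‖^2)) c
  have hshifti : ∀ c : E3, Integrable (fun w : E3 => Real.exp (-(4*τ) * ‖w - c‖^2)) := by
    intro c
    exact hGint.comp_sub_right c
  have hinner : ∀ p : E3 × E3, ∫ w : E3, (h p.1 * Real.exp (-(2*τ) * ‖p.1 - w‖^2))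
      * (h p.2 * Real.exp (-(2*τ) * ‖p.2 - w‖^2))
      = h p.1 * h p.2 * Real.exp (-τ * ‖p.1 - p.2‖^2) * G := by
    intro p
    rw [hfun p, integral_const_mul, hshift]
  have hm1 : Measurable (fun q : (E3 × E3) × E3 => h q.1.1) :=
    hm.comp (measurable_fst.comp measurable_fst)
  have hm2 : Measurable (fun q : (E3 × E3) × E3 => h q.1.2) :=
    hm.comp (measurable_snd.comp measurable_fst)
  have hm3 : Measurable (fun q : (E3 × E3) × E3 => Real.exp (-(2*τ) * ‖q.1.1 - q.2‖^2)) := by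
    fun_prop
  have hm4 : Measurable (fun q : (E3 × E3) × E3 => Real.exp (-(2*τ) * ‖q.1.2 - q.2‖^2)) := by
    fun_prop
  have hΦm : Measurable (fun q : (E3 × E3) × E3 =>
      (h q.1.1 * Real.exp (-(2*τ) * ‖q.1.1 - q.2‖^2))
      * (h q.1.2 * Real.exp (-(2*τ) * ‖q.1.2 - q.2‖^2))) := (hm1.mul hm3).mul (hm2.mul hm4)
  have hΦi : Integrable (fun q : (E3 × E3) × E3 =>
      (h q.1.1 * Real.exp (-(2*τ) * ‖q.1.1 - q.2‖^2))
      * (h q.1.2 * Real.exp (-(2*τ) * ‖q.1.2 - q.2‖^2)))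
      (((volume : Measure E3).prod (volume : Measure E3)).prod (volume : Measure E3)) := by
    rw [integrable_prod_iff hΦm.aestronglyMeasurable]
    constructor
    · filter_upwards with p
      have := hfun p
      simp only [this]
      exact (hshifti _).const_mul _
    · have hc : (fun p : E3 × E3 => ∫ w : E3, ‖(h p.1 * Real.exp (-(2*τ) * ‖p.1 - w‖^2))
          * (h p.2 * Real.exp (-(2*τ) * ‖p.2 - w‖^2))‖)
          = fun p => ‖h p.1 * h p.2‖ * (Real.exp (-τ * ‖p.1 - p.2‖^2) * G) := by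
        funext p
        have h1 : (fun w : E3 => ‖(h p.1 * Real.exp (-(2*τ) * ‖p.1 - w‖^2))
          * (h p.2 * Real.exp (-(2*τ) * ‖p.2 - w‖^2))‖)
          = fun w => (‖h p.1 * h p.2‖ * Real.exp (-τ * ‖p.1 - p.2‖^2))
            * Real.exp (-(4*τ) * ‖w - (1/2 : ℝ) • (p.1 + p.2)‖^2) := by
          funext w
          have := congrFun (hfun p) w
          rw [this, norm_mul, norm_mul, Real.norm_of_nonneg (Real.exp_pos _).le,
            Real.norm_of_nonneg (Real.exp_pos _).le]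
        rw [h1, integral_const_mul, hshift]
        ring
      simp only
      rw [hc]
      have hpr : Integrable (fun p : E3 × E3 => h p.1 * h p.2)
          ((volume : Measure E3).prod (volume : Measure E3)) := hi.mul_prod hi
      have hmm : Measurable (fun p : E3 × E3 => Real.exp (-τ * ‖p.1 - p.2‖^2) * G) := by
        fun_prop
      refine Integrable.mono' (hpr.norm.mul_const G)
        (hpr.norm.aestronglyMeasurable.mul hmm.aestronglyMeasurable) ?_
      filter_upwards with p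
      rw [norm_mul, norm_norm, Real.norm_of_nonneg
        (show 0 ≤ Real.exp (-τ * ‖p.1 - p.2‖^2) * G by positivity)]
      refine mul_le_mul_of_nonneg_left ?_ (norm_nonneg _)
      have : Real.exp (-τ * ‖p.1 - p.2‖^2) ≤ 1 := by
        rw [Real.exp_le_one_iff]
        have : 0 ≤ τ * ‖p.1 - p.2‖^2 := by positivity
        linarith
      nlinarith
  have hswap := integral_integral_swap (μ := (volume : Measure E3).prod (volume : Measure E3))
    (ν := (volume : Measure E3)) (f := fun (p : E3 × E3) (w : E3) =>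
      (h p.1 * Real.exp (-(2*τ) * ‖p.1 - w‖^2)) * (h p.2 * Real.exp (-(2*τ) * ‖p.2 - w‖^2))) hΦi
  have hL : (∫ p : E3 × E3, h p.1 * h p.2 * Real.exp (-τ * ‖p.1 - p.2‖^2)
      ∂((volume : Measure E3).prod (volume : Measure E3))) * G
      = ∫ w : E3, ∫ p : E3 × E3, (h p.1 * Real.exp (-(2*τ) * ‖p.1 - w‖^2))
        * (h p.2 * Real.exp (-(2*τ) * ‖p.2 - w‖^2))
          ∂((volume : Measure E3).prod (volume : Measure E3)) := by
    rw [← hswap, ← integral_mul_const]
    refine integral_congr_ae (Filter.Eventually.of_forall fun p => ?_)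
    exact (hinner p).symm
  have hR : 0 ≤ ∫ w : E3, ∫ p : E3 × E3, (h p.1 * Real.exp (-(2*τ) * ‖p.1 - w‖^2))
        * (h p.2 * Real.exp (-(2*τ) * ‖p.2 - w‖^2))
          ∂((volume : Measure E3).prod (volume : Measure E3)) := by
    refine integral_nonneg fun w => ?_
    have := integral_prod_mul (μ := (volume : Measure E3)) (ν := (volume : Measure E3))
      (fun x : E3 => h x * Real.exp (-(2*τ) * ‖x - w‖^2))
      (fun x : E3 => h x * Real.exp (-(2*τ) * ‖x - w‖^2))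
    simp only [Pi.zero_apply]
    rw [this]
    exact mul_self_nonneg _
  rw [← hL] at hR
  exact nonneg_of_mul_nonneg_left hR hGpos

theorem TF_coulomb_pd_diag :
    ∀ᵐ p : E3 × E3 ∂((volume : Measure E3).prod (volume : Measure E3)), p.1 ≠ p.2 := by
  have hs : MeasurableSet {p : E3 × E3 | p.1 = p.2} :=
    measurableSet_eq_fun measurable_fst measurable_snd
  have h0 : ((volume : Measure E3).prod (volume : Measure E3)) {p : E3 × E3 | p.1 = p.2} = 0 := by
    rw [Measure.measure_prod_null hs]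
    filter_upwards with x
    have : (Prod.mk x ⁻¹' {p : E3 × E3 | p.1 = p.2}) = {x} := by
      ext y
      simp [eq_comm]
    rw [this]
    simp
  rw [ae_iff]
  simpa using h0

theorem TF_coulomb_pd_sub (r : ℝ) (hr : 0 < r) :
    ∫ t in Ioi (0:ℝ), t^((1/2:ℝ)-1) * Real.exp (-(r^2 * t)) = √Real.pi / r := by
  rw [Real.integral_rpow_mul_exp_neg_mul_Ioi (by norm_num) (by positivity), Real.Gamma_one_half_eq,
    ← Real.sqrt_eq_rpow, Real.sqrt_div zero_le_one, Real.sqrt_one, Real.sqrt_sq hr.le]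
  ring

theorem TF_coulomb_pd_subi (r : ℝ) (hr : 0 < r) :
    IntegrableOn (fun t : ℝ => t^((1/2:ℝ)-1) * Real.exp (-(r^2 * t))) (Ioi 0) := by
  by_contra hc
  have h1 := TF_coulomb_pd_sub r hr
  rw [integral_undef hc] at h1
  have : 0 < √Real.pi / r := by positivity
  exact absurd h1 this.ne

theorem coulomb_pd (h : E3 → ℝ) (hh : Nice h) : 0 ≤ ∫ x, ∫ y, h x * h y / ‖x - y‖ := by
  obtain ⟨B, hB⟩ := nice_bound h hh
  obtain ⟨hm, hi, h53⟩ := hh
  have hm1 : Measurable (fun p : E3 × E3 => h p.1) := hm.comp measurable_fst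
  have hm2 : Measurable (fun p : E3 × E3 => h p.2) := hm.comp measurable_snd
  have hPm : Measurable (fun p : E3 × E3 => h p.1 * h p.2 / ‖p.1 - p.2‖) :=
    (hm1.mul hm2).div (measurable_fst.sub measurable_snd).norm
  have hPi : Integrable (fun p : E3 × E3 => h p.1 * h p.2 / ‖p.1 - p.2‖)
      ((volume : Measure E3).prod (volume : Measure E3)) := by
    rw [integrable_prod_iff hPm.aestronglyMeasurable]
    constructor
    · filter_upwards with x
      have := ((hB x).1).const_mul (h x)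
      refine this.congr (Filter.Eventually.of_forall fun y => ?_)
      simp only
      ring
    · have hcongr : (fun x : E3 => ∫ y : E3, ‖h x * h y / ‖x - y‖‖)
          = fun x => |h x| * ∫ y, |h y| / ‖x - y‖ := by
        funext x
        rw [← integral_const_mul]
        refine integral_congr_ae (Filter.Eventually.of_forall fun y => ?_)
        simp only
        rw [Real.norm_eq_abs, abs_div, abs_mul, abs_norm]
        ring
      have hmeas : AEStronglyMeasurable (fun x : E3 => ∫ y : E3, ‖h x * h y / ‖x - y‖‖) volume :=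
        (hPm.aestronglyMeasurable (μ := (volume : Measure E3).prod (volume : Measure E3))).norm.integral_prod_right'
      refine Integrable.mono' (hi.abs.mul_const B) hmeas ?_
      filter_upwards with x
      have hx := congrFun hcongr x
      rw [hx, Real.norm_eq_abs, abs_mul, abs_abs,
        abs_of_nonneg (integral_nonneg fun y => by positivity)]
      exact mul_le_mul_of_nonneg_left (hB x).2 (abs_nonneg _)
  have hiter : ∫ x, ∫ y, h x * h y / ‖x - y‖
      = ∫ p : E3 × E3, h p.1 * h p.2 / ‖p.1 - p.2‖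
        ∂((volume : Measure E3).prod (volume : Measure E3)) := (integral_prod _ hPi).symm
  rw [hiter]
  have hin : ∀ p : E3 × E3, p.1 ≠ p.2 →
      ∫ t in Ioi (0:ℝ), h p.1 * h p.2 * (t^((1/2:ℝ)-1) * Real.exp (-(‖p.1 - p.2‖^2 * t)))
        = √Real.pi * (h p.1 * h p.2 / ‖p.1 - p.2‖) := by
    intro p hp
    rw [integral_const_mul, TF_coulomb_pd_sub _ (norm_pos_iff.mpr (sub_ne_zero.mpr hp))]
    ring
  have hΨm : Measurable (fun q : (E3 × E3) × ℝ =>
      h q.1.1 * h q.1.2 * (q.2^((1/2:ℝ)-1) * Real.exp (-(‖q.1.1 - q.1.2‖^2 * q.2)))) := by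
    have a1 : Measurable (fun q : (E3 × E3) × ℝ => h q.1.1) :=
      hm.comp (measurable_fst.comp measurable_fst)
    have a2 : Measurable (fun q : (E3 × E3) × ℝ => h q.1.2) :=
      hm.comp (measurable_snd.comp measurable_fst)
    have a3 : Measurable (fun q : (E3 × E3) × ℝ => q.2^((1/2:ℝ)-1)) :=
      measurable_snd.pow_const _
    have a4 : Measurable (fun q : (E3 × E3) × ℝ => Real.exp (-(‖q.1.1 - q.1.2‖^2 * q.2))) := by
      fun_prop
    exact (a1.mul a2).mul (a3.mul a4)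
  have hΨi : Integrable (fun q : (E3 × E3) × ℝ =>
      h q.1.1 * h q.1.2 * (q.2^((1/2:ℝ)-1) * Real.exp (-(‖q.1.1 - q.1.2‖^2 * q.2))))
      (((volume : Measure E3).prod (volume : Measure E3)).prod
        ((volume : Measure ℝ).restrict (Ioi 0))) := by
    rw [integrable_prod_iff hΨm.aestronglyMeasurable]
    constructor
    · filter_upwards [TF_coulomb_pd_diag] with p hp
      exact (TF_coulomb_pd_subi _ (norm_pos_iff.mpr (sub_ne_zero.mpr hp))).const_mul _
    · refine (hPi.norm.const_mul (√Real.pi)).congr ?_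
      filter_upwards [TF_coulomb_pd_diag] with p hp
      have h1 : ∫ t in Ioi (0:ℝ),
          ‖h p.1 * h p.2 * (t^((1/2:ℝ)-1) * Real.exp (-(‖p.1 - p.2‖^2 * t)))‖
          = ∫ t in Ioi (0:ℝ),
            ‖h p.1 * h p.2‖ * (t^((1/2:ℝ)-1) * Real.exp (-(‖p.1 - p.2‖^2 * t))) := by
        refine setIntegral_congr_fun measurableSet_Ioi fun t ht => ?_
        have ht' : (0:ℝ) < t := ht
        rw [norm_mul, Real.norm_of_nonneg (mul_nonneg (Real.rpow_nonneg ht'.le _) (Real.exp_pos _).le)]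
      rw [h1, integral_const_mul, TF_coulomb_pd_sub _ (norm_pos_iff.mpr (sub_ne_zero.mpr hp)),
        norm_div, norm_norm]
      ring
  have hswap := integral_integral_swap (μ := (volume : Measure E3).prod (volume : Measure E3))
    (ν := (volume : Measure ℝ).restrict (Ioi 0)) (f := fun (p : E3 × E3) (t : ℝ) =>
      h p.1 * h p.2 * (t^((1/2:ℝ)-1) * Real.exp (-(‖p.1 - p.2‖^2 * t)))) hΨi
  have hL : √Real.pi * (∫ p : E3 × E3, h p.1 * h p.2 / ‖p.1 - p.2‖
        ∂((volume : Measure E3).prod (volume : Measure E3)))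
      = ∫ t in Ioi (0:ℝ), ∫ p : E3 × E3,
        h p.1 * h p.2 * (t^((1/2:ℝ)-1) * Real.exp (-(‖p.1 - p.2‖^2 * t)))
          ∂((volume : Measure E3).prod (volume : Measure E3)) := by
    rw [← hswap, ← integral_const_mul]
    refine integral_congr_ae ?_
    filter_upwards [TF_coulomb_pd_diag] with p hp
    exact (hin p hp).symm
  have hR : 0 ≤ ∫ t in Ioi (0:ℝ), ∫ p : E3 × E3,
        h p.1 * h p.2 * (t^((1/2:ℝ)-1) * Real.exp (-(‖p.1 - p.2‖^2 * t)))
          ∂((volume : Measure E3).prod (volume : Measure E3)) := by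
    refine setIntegral_nonneg measurableSet_Ioi fun t ht => ?_
    have ht' : (0:ℝ) < t := ht
    have h1 : (fun p : E3 × E3 =>
        h p.1 * h p.2 * (t^((1/2:ℝ)-1) * Real.exp (-(‖p.1 - p.2‖^2 * t))))
        = fun p => t^((1/2:ℝ)-1) * (h p.1 * h p.2 * Real.exp (-t * ‖p.1 - p.2‖^2)) := by
      funext p
      rw [show -(‖p.1 - p.2‖^2 * t) = -t * ‖p.1 - p.2‖^2 by ring]
      ring
    rw [h1, integral_const_mul]
    exact mul_nonneg (Real.rpow_nonneg ht'.le _) (TF_coulomb_pd_gauss h hm hi t ht')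
  rw [← hL] at hR
  exact nonneg_of_mul_nonneg_right hR (Real.sqrt_pos.mpr Real.pi_pos)
end


/-! ### symmetrize -/
section
-- ===== given lemmas (leave as they are, do not prove) =====






-- ===== helpers =====
theorem TF_symmetrize_int (n : E3) (hn : ‖n‖ = 1) (t : ℝ) (g : E3 → ℝ) :
    ∫ x, g (refl n t x) = ∫ x, g x := by
  obtain ⟨h1, h2, h3, h4, h5, h6⟩ := refl_basic n hn t
  let e : E3 ≃ᵐ E3 :=
    { toFun := refl n t, invFun := refl n t, left_inv := h1, right_inv := h1,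
      measurable_toFun := h5, measurable_invFun := h5 }
  have h7 : MeasurePreserving e volume volume := h6
  exact h7.integral_comp' g

theorem TF_symmetrize_integrable (n : E3) (hn : ‖n‖ = 1) (t : ℝ) (g : E3 → ℝ)
    (hg : Integrable g) : Integrable (fun x => g (refl n t x)) := by
  obtain ⟨h1, h2, h3, h4, h5, h6⟩ := refl_basic n hn t
  exact h6.integrable_comp_of_integrable hg

theorem TF_symmetrize_meas (g : E3 → ℝ) (hg : Measurable g) :
    StronglyMeasurable (fun x : E3 => ∫ y, g x * g y / ‖x - y‖) := by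
  apply StronglyMeasurable.integral_prod_right
  apply Measurable.stronglyMeasurable
  fun_prop

theorem TF_symmetrize_inner (g : E3 → ℝ) (hg : Nice g) (x : E3) :
    Integrable (fun y => g x * g y / ‖x - y‖) := by
  obtain ⟨B, hB⟩ := nice_bound g hg
  have := ((hB x).1).const_mul (g x)
  refine this.congr (Filter.Eventually.of_forall fun y => ?_)
  simp only
  ring

theorem TF_symmetrize_outer (g : E3 → ℝ) (hg : Nice g) :
    Integrable (fun x : E3 => ∫ y, g x * g y / ‖x - y‖) := by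
  obtain ⟨B, hB⟩ := nice_bound g hg
  have hi : Integrable (fun x => |g x| * B) := (hg.2.1.abs).mul_const B
  refine hi.mono' (TF_symmetrize_meas g hg.1).aestronglyMeasurable
    (Filter.Eventually.of_forall fun x => ?_)
  have e1 : (∫ y, g x * g y / ‖x - y‖) = g x * ∫ y, g y / ‖x - y‖ := by
    rw [← integral_const_mul]
    congr 1
    funext y
    ring
  rw [e1, norm_mul, Real.norm_eq_abs]
  refine mul_le_mul_of_nonneg_left ?_ (abs_nonneg _)
  refine (norm_integral_le_integral_norm _).trans ?_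
  refine le_trans (le_of_eq ?_) (hB x).2
  congr 1
  funext y
  rw [Real.norm_eq_abs, abs_div, abs_of_nonneg (norm_nonneg (x - y))]

theorem TF_symmetrize_convex (u v : ℝ) (hu : 0 ≤ u) (hv : 0 ≤ v) :
    ((u + v) / 2) ^ (5/3 : ℝ) ≤ (u ^ (5/3 : ℝ) + v ^ (5/3 : ℝ)) / 2 := by
  have h := (convexOn_rpow (p := 5/3) (by norm_num)).2 (mem_Ici.2 hu) (mem_Ici.2 hv)
    (show (0:ℝ) ≤ 1/2 by norm_num) (show (0:ℝ) ≤ 1/2 by norm_num) (by norm_num)
  simp only [smul_eq_mul] at h
  have e1 : (1/2 : ℝ) * u + 1/2 * v = (u + v) / 2 := by ring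
  rw [e1] at h
  linarith

-- ===== TARGET =====
theorem symmetrize (n : E3) (hn : ‖n‖ = 1) (q a : ℝ) (ρ : E3 → ℝ) (hρ : Adm ρ) :
    ∃ ρs : E3 → ℝ, Adm ρs ∧ ∫ x, ρs x = ∫ x, ρ x ∧ (∀ x, ρs (refl n 0 x) = ρs x) ∧
      xi ![q, q] ![-(a • n), a • n] ρs ≤ xi ![q, q] ![-(a • n), a • n] ρ := by
  obtain ⟨h1, h2, h3, h4, h5, h6⟩ := refl_basic n hn 0
  obtain ⟨m1, m2, m3, m4⟩ := hρ
  set s : E3 → E3 := refl n 0 with hs
  -- the reflected density
  have r1 : Measurable (fun x => ρ (s x)) := m1.comp h5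
  have r3 : Integrable (fun x => ρ (s x)) := TF_symmetrize_integrable n hn 0 ρ m3
  have r4 : Integrable (fun x => ρ (s x) ^ (5/3 : ℝ)) :=
    TF_symmetrize_integrable n hn 0 (fun x => ρ x ^ (5/3 : ℝ)) m4
  set ρs : E3 → ℝ := fun x => (ρ x + ρ (s x)) / 2 with hρs
  set κ : E3 → ℝ := fun x => (ρ x - ρ (s x)) / 2 with hκ
  have p1 : Measurable ρs := (m1.add r1).div_const 2
  have p2 : ∀ x, 0 ≤ ρs x := fun x => by
    have := m2 x
    have := m2 (s x)
    simp only [hρs]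
    linarith
  have p3 : Integrable ρs := (m3.add r3).div_const 2
  have pdom : Integrable (fun x => (ρ x ^ (5/3 : ℝ) + ρ (s x) ^ (5/3 : ℝ)) / 2) :=
    (m4.add r4).div_const 2
  have hpow : ∀ x, ρs x ^ (5/3 : ℝ) ≤ (ρ x ^ (5/3 : ℝ) + ρ (s x) ^ (5/3 : ℝ)) / 2 := fun x =>
    TF_symmetrize_convex _ _ (m2 x) (m2 (s x))
  have p4 : Integrable (fun x => ρs x ^ (5/3 : ℝ)) := by
    refine pdom.mono' (p1.pow_const _).aestronglyMeasurable (Filter.Eventually.of_forall fun x => ?_)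
    rw [Real.norm_eq_abs, abs_of_nonneg (Real.rpow_nonneg (p2 x) _)]
    exact hpow x
  have n0 : Nice ρ := ⟨m1, m3, m4.congr (Filter.Eventually.of_forall fun x => by
    simp only [abs_of_nonneg (m2 x)])⟩
  have n1 : Nice (fun x => ρ (s x)) := ⟨r1, r3, r4.congr (Filter.Eventually.of_forall fun x => by
    simp only [abs_of_nonneg (m2 (s x))])⟩
  have ns : Nice ρs := ⟨p1, p3, p4.congr (Filter.Eventually.of_forall fun x => by
    simp only [abs_of_nonneg (p2 x)])⟩
  have nκ : Nice κ := by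
    refine ⟨(m1.sub r1).div_const 2, (m3.sub r3).div_const 2, ?_⟩
    refine pdom.mono' ((((m1.sub r1).div_const 2).abs).pow_const _).aestronglyMeasurable
      (Filter.Eventually.of_forall fun x => ?_)
    rw [Real.norm_eq_abs, abs_of_nonneg (Real.rpow_nonneg (abs_nonneg _) _)]
    refine le_trans (Real.rpow_le_rpow (abs_nonneg _) ?_ (by norm_num)) (hpow x)
    have a1 := m2 x
    have a2 := m2 (s x)
    simp only [hκ, hρs]
    rw [abs_le]
    constructor <;> linarith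
  have hint : ∫ x, ρ (s x) = ∫ x, ρ x := TF_symmetrize_int n hn 0 ρ
  have hint2 : ∫ x, ρ (s x) ^ (5/3 : ℝ) = ∫ x, ρ x ^ (5/3 : ℝ) :=
    TF_symmetrize_int n hn 0 (fun x => ρ x ^ (5/3 : ℝ))
  refine ⟨ρs, ⟨p1, p2, p3, p4⟩, ?_, ?_, ?_⟩
  · simp only [hρs]
    rw [integral_div, integral_add m3 r3, hint]
    ring
  · intro x
    simp only [hρs]
    rw [h1 x, add_comm]
  -- kinetic term
  have K : ∫ x, ρs x ^ (5/3 : ℝ) ≤ ∫ x, ρ x ^ (5/3 : ℝ) := by
    refine (integral_mono p4 pdom hpow).trans (le_of_eq ?_)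
    rw [integral_div, integral_add m4 r4, hint2]
    ring
  -- attraction
  have sR1 : s (-(a • n)) = a • n := by
    simp only [hs, refl, inner_neg_right, inner_smul_right, real_inner_self_eq_norm_sq, hn]
    module
  have sR2 : s (a • n) = -(a • n) := by
    simp only [hs, refl, inner_smul_right, real_inner_self_eq_norm_sq, hn]
    module
  set V : E3 → ℝ := fun x => ∑ j, (![q, q] : Fin 2 → ℝ) j / ‖x - (![-(a • n), a • n] : Fin 2 → E3) j‖ with hV
  have hVs : ∀ x, V (s x) = V x := by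
    intro x
    simp only [hV, Fin.sum_univ_two, Matrix.cons_val_zero, Matrix.cons_val_one]
    have e1 : ‖s x - -(a • n)‖ = ‖x - a • n‖ := by
      rw [← sR2, h2]
    have e2 : ‖s x - a • n‖ = ‖x - -(a • n)‖ := by
      rw [← sR1, h2, sR1]
    rw [e1, e2, add_comm]
  have hVi : ∀ g : E3 → ℝ, Nice g → Integrable (fun x => V x * g x) := by
    intro g hg
    obtain ⟨B, hB⟩ := nice_bound g hg
    have i1 := ((hB (-(a • n))).1).const_mul q
    have i2 := ((hB (a • n)).1).const_mul q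
    refine (i1.add i2).congr (Filter.Eventually.of_forall fun x => ?_)
    simp only [hV, Fin.sum_univ_two, Matrix.cons_val_zero, Matrix.cons_val_one, Pi.add_apply]
    rw [norm_sub_rev (-(a • n)) x, norm_sub_rev (a • n) x]
    ring
  have A : ∫ x, V x * ρs x = ∫ x, V x * ρ x := by
    have e1 : ∀ x, V x * ρs x = (V x * ρ x + V x * ρ (s x)) / 2 := fun x => by
      simp only [hρs]
      ring
    simp only [e1]
    rw [integral_div, integral_add (hVi _ n0) (hVi _ n1)]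
    have e2 : ∫ x, V x * ρ (s x) = ∫ x, V x * ρ x := by
      rw [← TF_symmetrize_int n hn 0 (fun x => V x * ρ x)]
      congr 1
      funext x
      show V x * ρ (s x) = V (s x) * ρ (s x)
      rw [hVs]
    rw [e2]
    ring
  -- repulsion
  have D1 : ∫ x, ∫ y, ρ (s x) * ρ (s y) / ‖x - y‖ = ∫ x, ∫ y, ρ x * ρ y / ‖x - y‖ := by
    rw [← TF_symmetrize_int n hn 0 (fun x => ∫ y, ρ x * ρ y / ‖x - y‖)]
    congr 1
    funext x
    show _ = ∫ y, ρ (s x) * ρ y / ‖s x - y‖
    rw [← TF_symmetrize_int n hn 0 (fun y => ρ (s x) * ρ y / ‖s x - y‖)]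
    congr 1
    funext y
    show _ = ρ (s x) * ρ (s y) / ‖s x - s y‖
    rw [h2]
  have D2 : (∫ x, ∫ y, ρs x * ρs y / ‖x - y‖) + (∫ x, ∫ y, κ x * κ y / ‖x - y‖) =
      ((∫ x, ∫ y, ρ x * ρ y / ‖x - y‖) + (∫ x, ∫ y, ρ (s x) * ρ (s y) / ‖x - y‖)) / 2 := by
    rw [← integral_add (TF_symmetrize_outer _ ns) (TF_symmetrize_outer _ nκ),
      ← integral_add (TF_symmetrize_outer _ n0) (TF_symmetrize_outer _ n1), ← integral_div]
    congr 1
    funext x
    rw [← integral_add (TF_symmetrize_inner _ ns x) (TF_symmetrize_inner _ nκ x),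
      ← integral_add (TF_symmetrize_inner _ n0 x) (TF_symmetrize_inner _ n1 x), ← integral_div]
    congr 1
    funext y
    simp only [hρs, hκ]
    ring
  have D3 := coulomb_pd κ nκ
  have D4 : (∫ x, ∫ y, ρs x * ρs y / ‖x - y‖) ≤ ∫ x, ∫ y, ρ x * ρ y / ‖x - y‖ := by
    rw [D1] at D2
    linarith
  unfold xi
  have A' : ∫ x, (∑ j, (![q, q] : Fin 2 → ℝ) j / ‖x - (![-(a • n), a • n] : Fin 2 → E3) j‖) * ρs x
      = ∫ x, (∑ j, (![q, q] : Fin 2 → ℝ) j / ‖x - (![-(a • n), a • n] : Fin 2 → E3) j‖) * ρ x := A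
  rw [A']
  linarith
end


/-! ### glue_xi -/
section
-- ===== given lemmas (leave as they are, do not prove) =====






/-- the reflection as a measurable equivalence -/
noncomputable def TF_glue_xi_e (n : E3) (hn : ‖n‖ = 1) : E3 ≃ᵐ E3 where
  toFun := refl n 0
  invFun := refl n 0
  left_inv := (refl_basic n hn 0).1
  right_inv := (refl_basic n hn 0).1
  measurable_toFun := (refl_basic n hn 0).2.2.2.2.1
  measurable_invFun := (refl_basic n hn 0).2.2.2.2.1

theorem TF_glue_xi_int (n : E3) (hn : ‖n‖ = 1) (g : E3 → ℝ) :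
    ∫ x, g (refl n 0 x) = ∫ x, g x := by
  have h : MeasurePreserving (TF_glue_xi_e n hn) volume volume := (refl_basic n hn 0).2.2.2.2.2
  exact h.integral_comp' g

theorem TF_glue_xi_intble (n : E3) (hn : ‖n‖ = 1) (g : E3 → ℝ) (hg : Integrable g) :
    Integrable (fun x => g (refl n 0 x)) :=
  (refl_basic n hn 0).2.2.2.2.2.integrable_comp_of_integrable hg

theorem TF_glue_xi_nice (n : E3) (hn : ‖n‖ = 1) (g : E3 → ℝ) (hg : Nice g) :
    Nice (fun x => g (refl n 0 x)) :=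
  ⟨hg.1.comp (refl_basic n hn 0).2.2.2.2.1, TF_glue_xi_intble n hn g hg.2.1,
    TF_glue_xi_intble n hn _ hg.2.2⟩

theorem TF_glue_xi_dist (n : E3) (hn : ‖n‖ = 1) (x y : E3) :
    ‖refl n 0 x - y‖ = ‖x - refl n 0 y‖ := by
  have h := (refl_basic n hn 0).2.1 x (refl n 0 y)
  rw [(refl_basic n hn 0).1] at h
  exact h

theorem TF_glue_xi_pot_meas (h : E3 → ℝ) (hh : Measurable h) : StronglyMeasurable (pot h) := by
  unfold pot
  have : StronglyMeasurable (fun p : E3 × E3 => h p.2 / ‖p.1 - p.2‖) := by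
    apply Measurable.stronglyMeasurable
    fun_prop
  exact this.integral_prod_right'

theorem TF_glue_xi_gpot (g h : E3 → ℝ) (hg : Nice g) (hh : Nice h) :
    Integrable (fun x => g x * pot h x) := by
  obtain ⟨B, hB⟩ := nice_bound h hh
  have hb : ∀ x, ‖pot h x‖ ≤ B := by
    intro x
    refine le_trans (norm_integral_le_integral_norm _) ((le_of_eq ?_).trans (hB x).2)
    congr 1
    funext y
    rw [Real.norm_eq_abs, abs_div, abs_of_nonneg (norm_nonneg (x - y))]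
  exact hg.2.1.mul_bdd (TF_glue_xi_pot_meas h hh.1).aestronglyMeasurable
    (Eventually.of_forall hb)

theorem TF_glue_xi_pot_comp (n : E3) (hn : ‖n‖ = 1) (g : E3 → ℝ) (x : E3) :
    pot (fun y => g (refl n 0 y)) (refl n 0 x) = pot g x := by
  unfold pot
  rw [← TF_glue_xi_int n hn (fun y => g y / ‖x - y‖)]
  congr 1
  funext y
  rw [TF_glue_xi_dist n hn x y]

theorem TF_glue_xi_dbl (g h : E3 → ℝ) :
    ∫ x, ∫ y, g x * h y / ‖x - y‖ = ∫ x, g x * pot h x := by
  congr 1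
  funext x
  unfold pot
  rw [← integral_const_mul]
  congr 1
  funext y
  rw [mul_div_assoc]

theorem TF_glue_xi_dbl' (n : E3) (hn : ‖n‖ = 1) (g h : E3 → ℝ) :
    ∫ x, ∫ y, g x * h y / ‖x - refl n 0 y‖ = ∫ x, g x * pot (fun y => h (refl n 0 y)) x := by
  congr 1
  funext x
  unfold pot
  rw [← integral_const_mul, ← TF_glue_xi_int n hn (fun y => g x * (h (refl n 0 y) / ‖x - y‖))]
  congr 1
  funext y
  rw [(refl_basic n hn 0).1, mul_div_assoc]

theorem TF_glue_xi_pot_add (g h : E3 → ℝ) (hg : Nice g) (hh : Nice h) (x : E3) :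
    pot (fun y => g y + h y) x = pot g x + pot h x := by
  obtain ⟨B, hB⟩ := nice_bound g hg
  obtain ⟨B', hB'⟩ := nice_bound h hh
  unfold pot
  rw [← integral_add (hB x).1 (hB' x).1]
  congr 1
  funext y
  rw [add_div]

theorem TF_glue_xi_pot_sub (g h : E3 → ℝ) (hg : Nice g) (hh : Nice h) (x : E3) :
    pot (fun y => g y - h y) x = pot g x - pot h x := by
  obtain ⟨B, hB⟩ := nice_bound g hg
  obtain ⟨B', hB'⟩ := nice_bound h hh
  unfold pot
  rw [← integral_sub (hB x).1 (hB' x).1]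
  congr 1
  funext y
  rw [sub_div]

theorem TF_glue_xi_phi (g : E3 → ℝ) (p : E3) : ∫ x, g x / ‖x - p‖ = pot g p := by
  unfold pot
  congr 1
  funext y
  rw [norm_sub_rev]

theorem TF_glue_xi_phi_int (g : E3 → ℝ) (hg : Nice g) (p : E3) :
    Integrable (fun x => g x / ‖x - p‖) := by
  obtain ⟨B, hB⟩ := nice_bound g hg
  have := (hB p).1
  simpa only [norm_sub_rev] using this

theorem TF_glue_xi_congr (z : Fin 2 → ℝ) (R : Fin 2 → E3) (f g : E3 → ℝ) (h : f =ᵐ[volume] g) :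
    xi z R f = xi z R g := by
  unfold xi
  have h1 : ∫ x, f x ^ (5/3 : ℝ) = ∫ x, g x ^ (5/3 : ℝ) :=
    integral_congr_ae (h.mono fun x hx => by simp only [hx])
  have h2 : ∫ x, (∑ j, z j / ‖x - R j‖) * f x = ∫ x, (∑ j, z j / ‖x - R j‖) * g x :=
    integral_congr_ae (h.mono fun x hx => by simp only [hx])
  have h3 : ∫ x, ∫ y, f x * f y / ‖x - y‖ = ∫ x, ∫ y, g x * g y / ‖x - y‖ := by
    refine integral_congr_ae (h.mono fun x hx => ?_)
    simp only [hx]
    exact integral_congr_ae (h.mono fun y hy => by simp only [hy])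
  rw [h1, h2, h3]

/-- the energy of `u + v ∘ σ` -/
theorem TF_glue_xi_split (n : E3) (hn : ‖n‖ = 1) (q : ℝ) (p p' : E3) (u v : E3 → ℝ)
    (hu : Nice u) (hv : Nice v) (hu0 : ∀ x, 0 ≤ ⟪n, x⟫ → u x = 0)
    (hv0 : ∀ x, 0 ≤ ⟪n, x⟫ → v x = 0)
    (hun : ∀ x, 0 ≤ u x) (hvn : ∀ x, 0 ≤ v x) :
    xi ![q, q] ![p, p'] (fun x => u x + v (refl n 0 x)) =
      3/5 * ((∫ x, u x ^ (5/3 : ℝ)) + ∫ x, v x ^ (5/3 : ℝ))
      - q * (pot u p + pot v (refl n 0 p) + pot u p' + pot v (refl n 0 p'))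
      + 1/2 * ((∫ x, u x * pot u x) + (∫ x, u x * pot (fun y => v (refl n 0 y)) x)
        + (∫ x, v x * pot (fun y => u (refl n 0 y)) x) + ∫ x, v x * pot v x)
      + q * q / ‖p - p'‖ := by
  have hvσ := TF_glue_xi_nice n hn v hv
  have hpow0 : (0:ℝ) ^ (5/3 : ℝ) = 0 := Real.zero_rpow (by norm_num)
  have hzero : ∀ x, u x = 0 ∨ v (refl n 0 x) = 0 := by
    intro x
    by_cases hx : 0 ≤ ⟪n, x⟫
    · exact Or.inl (hu0 x hx)
    · right
      apply hv0
      rw [(refl_basic n hn 0).2.2.1]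
      push Not at hx
      linarith
  have hpu : Integrable (fun x => u x ^ (5/3 : ℝ)) := by
    have := hu.2.2
    simpa only [abs_of_nonneg (hun _)] using this
  have hpv : Integrable (fun x => v x ^ (5/3 : ℝ)) := by
    have := hv.2.2
    simpa only [abs_of_nonneg (hvn _)] using this
  have hK : ∫ x, (u x + v (refl n 0 x)) ^ (5/3 : ℝ) =
      (∫ x, u x ^ (5/3 : ℝ)) + ∫ x, v x ^ (5/3 : ℝ) := by
    rw [← TF_glue_xi_int n hn (fun x => v x ^ (5/3 : ℝ)),
      ← integral_add hpu (TF_glue_xi_intble n hn _ hpv)]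
    congr 1
    funext x
    rcases hzero x with h | h
    · rw [h, zero_add, hpow0, zero_add]
    · rw [h, add_zero, hpow0, add_zero]
  have hatt1 : ∀ p : E3, ∫ x, (u x + v (refl n 0 x)) / ‖x - p‖ = pot u p + pot v (refl n 0 p) := by
    intro p
    rw [TF_glue_xi_phi (fun x => u x + v (refl n 0 x)) p, TF_glue_xi_pot_add u _ hu hvσ p]
    congr 1
    have := TF_glue_xi_pot_comp n hn v (refl n 0 p)
    rw [(refl_basic n hn 0).1] at this
    exact this
  have hattI : ∀ p : E3, Integrable (fun x => (u x + v (refl n 0 x)) / ‖x - p‖) := by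
    intro p
    have := (TF_glue_xi_phi_int u hu p).add (TF_glue_xi_phi_int _ hvσ p)
    refine this.congr (Eventually.of_forall fun x => ?_)
    simp only [Pi.add_apply, add_div]
  have hatt : ∫ x, (∑ j, ![q, q] j / ‖x - ![p, p'] j‖) * (u x + v (refl n 0 x)) =
      q * (pot u p + pot v (refl n 0 p) + pot u p' + pot v (refl n 0 p')) := by
    have e : (fun x => (∑ j, ![q, q] j / ‖x - ![p, p'] j‖) * (u x + v (refl n 0 x))) =
        fun x => q * ((u x + v (refl n 0 x)) / ‖x - p‖) + q * ((u x + v (refl n 0 x)) / ‖x - p'‖) := by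
      funext x
      rw [Fin.sum_univ_two]
      simp only [Matrix.cons_val_zero, Matrix.cons_val_one]
      ring
    rw [e, integral_add ((hattI p).const_mul q) ((hattI p').const_mul q), integral_const_mul,
      integral_const_mul, hatt1, hatt1]
    ring
  have hD : ∫ x, ∫ y, (u x + v (refl n 0 x)) * (u y + v (refl n 0 y)) / ‖x - y‖ =
      (∫ x, u x * pot u x) + (∫ x, u x * pot (fun y => v (refl n 0 y)) x)
        + (∫ x, v x * pot (fun y => u (refl n 0 y)) x) + ∫ x, v x * pot v x := by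
    rw [TF_glue_xi_dbl (fun x => u x + v (refl n 0 x)) (fun x => u x + v (refl n 0 x))]
    have e : (fun x => (u x + v (refl n 0 x)) * pot (fun x => u x + v (refl n 0 x)) x) =
        fun x => ((u x * pot u x + u x * pot (fun y => v (refl n 0 y)) x)
          + v (refl n 0 x) * pot u x) + v (refl n 0 x) * pot (fun y => v (refl n 0 y)) x := by
      funext x
      rw [TF_glue_xi_pot_add u _ hu hvσ x]
      ring
    have i1 := TF_glue_xi_gpot u u hu hu
    have i2 := TF_glue_xi_gpot u _ hu hvσ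
    have i3 := TF_glue_xi_gpot _ u hvσ hu
    have i4 := TF_glue_xi_gpot _ _ hvσ hvσ
    have i12 : Integrable (fun x => u x * pot u x + u x * pot (fun y => v (refl n 0 y)) x) :=
      i1.add i2
    have i123 : Integrable (fun x => (u x * pot u x + u x * pot (fun y => v (refl n 0 y)) x)
      + v (refl n 0 x) * pot u x) := i12.add i3
    rw [e, integral_add i123 i4, integral_add i12 i3, integral_add i1 i2]
    congr 1
    · congr 1
      rw [← TF_glue_xi_int n hn (fun x => v (refl n 0 x) * pot u x)]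
      congr 1
      funext x
      rw [(refl_basic n hn 0).1]
      congr 1
      have := TF_glue_xi_pot_comp n hn (fun y => u (refl n 0 y)) x
      simp only [(refl_basic n hn 0).1] at this
      exact this
    · rw [← TF_glue_xi_int n hn (fun x => v (refl n 0 x) * pot (fun y => v (refl n 0 y)) x)]
      congr 1
      funext x
      rw [(refl_basic n hn 0).1, TF_glue_xi_pot_comp n hn]
  have hrep : ∑ i : Fin 2, ∑ j ∈ Finset.Ioi i, ![q, q] i * ![q, q] j / ‖![p, p'] i - ![p, p'] j‖ =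
      q * q / ‖p - p'‖ := by
    have e0 : Finset.Ioi (0 : Fin 2) = {1} := by decide
    have e1 : Finset.Ioi (1 : Fin 2) = ∅ := by decide
    rw [Fin.sum_univ_two, e0, e1, Finset.sum_singleton, Finset.sum_empty, add_zero]
    simp only [Matrix.cons_val_zero, Matrix.cons_val_one]
  unfold xi
  rw [hK, hatt, hD, hrep]

theorem TF_glue_xi_ae (n : E3) (hn : ‖n‖ = 1) (ρ : E3 → ℝ) (hs : ∀ x, ρ (refl n 0 x) = ρ x) :
    ρ =ᵐ[volume] fun x => ({x : E3 | ⟪n, x⟫ < 0}.indicator ρ x)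
      + ({x : E3 | ⟪n, x⟫ < 0}.indicator ρ (refl n 0 x)) := by
  have hnull : volume {x : E3 | ⟪n, x⟫ = 0} = 0 := by
    have h1 : {x : E3 | ⟪n, x⟫ = 0} = (((ℝ ∙ n)ᗮ : Submodule ℝ E3) : Set E3) := by
      ext x
      rw [SetLike.mem_coe, Submodule.mem_orthogonal_singleton_iff_inner_right]
      rfl
    rw [h1]
    apply Measure.addHaar_submodule
    intro h2
    have h3 : n ∈ (ℝ ∙ n)ᗮ := by rw [h2]; trivial
    rw [Submodule.mem_orthogonal_singleton_iff_inner_right, real_inner_self_eq_norm_sq, hn] at h3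
    norm_num at h3
  have hae : ∀ᵐ x ∂(volume : Measure E3), ⟪n, x⟫ ≠ 0 := by
    rw [ae_iff]
    simpa using hnull
  filter_upwards [hae] with x hx
  have hr : ⟪n, refl n 0 x⟫ = - ⟪n, x⟫ := by
    rw [(refl_basic n hn 0).2.2.1]; ring
  rcases lt_or_gt_of_ne hx with h | h
  · have m1 : x ∈ {x : E3 | ⟪n, x⟫ < 0} := h
    have m2 : refl n 0 x ∉ {x : E3 | ⟪n, x⟫ < 0} := by
      rw [Set.mem_ofPred_eq, hr]; linarith
    rw [Set.indicator_of_mem m1, Set.indicator_of_notMem m2, add_zero]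
  · have m1 : x ∉ {x : E3 | ⟪n, x⟫ < 0} := by
      rw [Set.mem_ofPred_eq]; linarith
    have m2 : refl n 0 x ∈ {x : E3 | ⟪n, x⟫ < 0} := by
      rw [Set.mem_ofPred_eq, hr]; linarith
    rw [Set.indicator_of_notMem m1, Set.indicator_of_mem m2, hs, zero_add]

theorem TF_glue_xi_ind (n : E3) (ρ : E3 → ℝ) (h : Adm ρ) :
    Nice ({x : E3 | ⟪n, x⟫ < 0}.indicator ρ) ∧
    (∀ x, 0 ≤ {x : E3 | ⟪n, x⟫ < 0}.indicator ρ x) ∧
    (∀ x, 0 ≤ ⟪n, x⟫ → {x : E3 | ⟪n, x⟫ < 0}.indicator ρ x = 0) := by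
  have hm : MeasurableSet {x : E3 | ⟪n, x⟫ < 0} := by
    apply measurableSet_lt <;> fun_prop
  refine ⟨⟨h.1.indicator hm, h.2.2.1.indicator hm, ?_⟩, ?_, ?_⟩
  · have := h.2.2.2.indicator hm
    refine this.congr (Eventually.of_forall fun x => ?_)
    by_cases hx : x ∈ {x : E3 | ⟪n, x⟫ < 0}
    · rw [Set.indicator_of_mem hx]
      simp only
      rw [Set.indicator_of_mem hx, abs_of_nonneg (h.2.1 x)]
    · rw [Set.indicator_of_notMem hx]
      simp only
      rw [Set.indicator_of_notMem hx, abs_zero, Real.zero_rpow (by norm_num)]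
  · intro x
    exact Set.indicator_nonneg (fun x _ => h.2.1 x) x
  · intro x hx
    exact Set.indicator_of_notMem (by rw [Set.mem_ofPred_eq]; linarith) _

-- ===== TARGET =====
/-- splitting the energy along the mirror plane; `ρ` is `ρa` on the left and `ρb` on the right -/
theorem glue_xi (n : E3) (hn : ‖n‖ = 1) (q a b : ℝ) (ha : 0 < a) (hb : 0 < b) (hab : a ≠ b)
    (ρa ρb : E3 → ℝ) (hρa : Adm ρa) (hρb : Adm ρb) (hsa : ∀ x, ρa (refl n 0 x) = ρa x)
    (hsb : ∀ x, ρb (refl n 0 x) = ρb x) (hm : ∫ x, ρa x = ∫ x, ρb x) :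
    ∃ ρ : E3 → ℝ, Adm ρ ∧ ∫ x, ρ x = ∫ x, ρa x ∧
      xi ![q, q] ![-(a • n), b • n] ρ
        ≤ (xi ![q, q] ![-(a • n), a • n] ρa + xi ![q, q] ![-(b • n), b • n] ρb) / 2 := by
  set L : Set E3 := {x : E3 | ⟪n, x⟫ < 0} with hL
  obtain ⟨hu, hun, hu0⟩ := TF_glue_xi_ind n ρa hρa
  obtain ⟨hv, hvn, hv0⟩ := TF_glue_xi_ind n ρb hρb
  have hae_a := TF_glue_xi_ae n hn ρa hsa
  have hae_b := TF_glue_xi_ae n hn ρb hsb
  rw [← hL] at hu hun hu0 hv hvn hv0 hae_a hae_b
  generalize L.indicator ρa = u at *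
  generalize L.indicator ρb = v at *
  have hvσ := TF_glue_xi_nice n hn v hv
  have hnn : ⟪n, n⟫ = (1:ℝ) := by rw [real_inner_self_eq_norm_sq, hn]; norm_num
  -- masses
  have mass : ∀ f g : E3 → ℝ, Nice f → Nice g → ∫ x, (f x + g (refl n 0 x)) = (∫ x, f x) + ∫ x, g x := by
    intro f g hf hg
    rw [integral_add hf.2.1 (TF_glue_xi_intble n hn g hg.2.1), TF_glue_xi_int n hn]
  have ma : ∫ x, ρa x = (∫ x, u x) + ∫ x, u x := by
    rw [integral_congr_ae hae_a, mass u u hu hu]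
  have mb : ∫ x, ρb x = (∫ x, v x) + ∫ x, v x := by
    rw [integral_congr_ae hae_b, mass v v hv hv]
  refine ⟨fun x => u x + v (refl n 0 x), ⟨hu.1.add hvσ.1, fun x => add_nonneg (hun _) (hvn _),
    hu.2.1.add hvσ.2.1, ?_⟩, ?_, ?_⟩
  · have hpu : Integrable (fun x => u x ^ (5/3 : ℝ)) := by
      have := hu.2.2
      simpa only [abs_of_nonneg (hun _)] using this
    have hpv : Integrable (fun x => v (refl n 0 x) ^ (5/3 : ℝ)) := by
      have := hvσ.2.2
      simpa only [abs_of_nonneg (hvn _)] using this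
    refine (hpu.add hpv).congr (Eventually.of_forall fun x => ?_)
    have hpow0 : (0:ℝ) ^ (5/3 : ℝ) = 0 := Real.zero_rpow (by norm_num)
    simp only [Pi.add_apply]
    by_cases hx : 0 ≤ ⟪n, x⟫
    · rw [hu0 x hx, zero_add, hpow0, zero_add]
    · have : v (refl n 0 x) = 0 := by
        apply hv0
        rw [(refl_basic n hn 0).2.2.1]
        push Not at hx
        linarith
      rw [this, add_zero, hpow0, add_zero]
  · rw [mass u v hu hv, ma]
    rw [ma, mb] at hm
    linarith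
  · have ra : refl n 0 (-(a • n)) = a • n := by
      unfold refl
      rw [inner_neg_right, inner_smul_right, hnn]
      module
    have ra' : refl n 0 (a • n) = -(a • n) := by
      unfold refl
      rw [inner_smul_right, hnn]
      module
    have rb : refl n 0 (-(b • n)) = b • n := by
      unfold refl
      rw [inner_neg_right, inner_smul_right, hnn]
      module
    have rb' : refl n 0 (b • n) = -(b • n) := by
      unfold refl
      rw [inner_smul_right, hnn]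
      module
    rw [TF_glue_xi_congr _ _ _ _ hae_a, TF_glue_xi_congr _ _ _ _ hae_b,
      TF_glue_xi_split n hn q _ _ u v hu hv hu0 hv0 hun hvn,
      TF_glue_xi_split n hn q _ _ u u hu hu hu0 hu0 hun hun,
      TF_glue_xi_split n hn q _ _ v v hv hv hv0 hv0 hvn hvn, ra, ra', rb, rb']
    have hfN : Nice (fun x => v x - u x) := by
      refine ⟨hv.1.sub hu.1, hv.2.1.sub hu.2.1, ?_⟩
      refine (hv.2.2.add hu.2.2).mono' ?_ (Eventually.of_forall fun x => ?_)
      · apply Measurable.aestronglyMeasurable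
        have := hv.1
        have := hu.1
        fun_prop
      · rw [Real.norm_of_nonneg (by positivity)]
        simp only [Pi.add_apply]
        have h1 : |v x - u x| ≤ max |v x| |u x| := by
          rw [abs_of_nonneg (hvn x), abs_of_nonneg (hun x), abs_le]
          constructor
          · have := le_max_right (v x) (u x); have := hvn x; linarith
          · have := le_max_left (v x) (u x); have := hun x; linarith
        refine (Real.rpow_le_rpow (abs_nonneg _) h1 (by norm_num)).trans ?_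
        rcases le_total |v x| |u x| with h2 | h2
        · rw [max_eq_right h2]
          have : 0 ≤ |v x| ^ (5/3 : ℝ) := by positivity
          linarith
        · rw [max_eq_left h2]
          have : 0 ≤ |u x| ^ (5/3 : ℝ) := by positivity
          linarith
    have hne : -(a • n) ≠ -(b • n) := by
      intro h
      have h1 : a • n = b • n := neg_injective h
      have h2 : ⟪n, a • n⟫ = ⟪n, b • n⟫ := by rw [h1]
      rw [inner_smul_right, inner_smul_right, hnn, mul_one, mul_one] at h2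
      exact hab h2
    have hrp := rp_pd n hn (fun x => v x - u x) hfN (fun x hx => by
        show v x - u x = 0
        rw [hu0 x hx, hv0 x hx, sub_zero]) q (-q) (-(a • n)) (-(b • n))
      (by rw [inner_neg_right, inner_smul_right, hnn]; linarith)
      (by rw [inner_neg_right, inner_smul_right, hnn]; linarith) hne
    rw [ra, rb, TF_glue_xi_phi (fun x => v x - u x), TF_glue_xi_phi (fun x => v x - u x),
      TF_glue_xi_pot_sub v u hv hu, TF_glue_xi_pot_sub v u hv hu,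
      TF_glue_xi_dbl' n hn (fun x => v x - u x) (fun x => v x - u x)] at hrp
    have huσ := TF_glue_xi_nice n hn u hu
    have hE : ∫ x, (v x - u x) * pot (fun y => v (refl n 0 y) - u (refl n 0 y)) x =
        (∫ x, v x * pot (fun y => v (refl n 0 y)) x) - (∫ x, v x * pot (fun y => u (refl n 0 y)) x)
        - (∫ x, u x * pot (fun y => v (refl n 0 y)) x) + ∫ x, u x * pot (fun y => u (refl n 0 y)) x := by
      have e : (fun x => (v x - u x) * pot (fun y => v (refl n 0 y) - u (refl n 0 y)) x) =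
          fun x => ((v x * pot (fun y => v (refl n 0 y)) x - v x * pot (fun y => u (refl n 0 y)) x)
            - u x * pot (fun y => v (refl n 0 y)) x) + u x * pot (fun y => u (refl n 0 y)) x := by
        funext x
        rw [TF_glue_xi_pot_sub _ _ hvσ huσ x]
        ring
      have i1 := TF_glue_xi_gpot v _ hv hvσ
      have i2 := TF_glue_xi_gpot v _ hv huσ
      have i3 := TF_glue_xi_gpot u _ hu hvσ
      have i4 := TF_glue_xi_gpot u _ hu huσ
      have i12 : Integrable (fun x => v x * pot (fun y => v (refl n 0 y)) x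
        - v x * pot (fun y => u (refl n 0 y)) x) := i1.sub i2
      have i123 : Integrable (fun x => (v x * pot (fun y => v (refl n 0 y)) x
        - v x * pot (fun y => u (refl n 0 y)) x) - u x * pot (fun y => v (refl n 0 y)) x) :=
        i12.sub i3
      rw [e, integral_add i123 i4, integral_sub i12 i3, integral_sub i1 i2]
    rw [hE] at hrp
    have e2 : ‖-(a • n) - b • n‖ = ‖-(a • n) - b • n‖ := rfl
    have hd1 : 2 * q * -q / ‖-(a • n) - b • n‖ = -2 * (q * q / ‖-(a • n) - b • n‖) := by ring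
    have hd2 : q ^ 2 / ‖-(a • n) - a • n‖ = q * q / ‖-(a • n) - a • n‖ := by rw [sq]
    have hd3 : (-q) ^ 2 / ‖-(b • n) - b • n‖ = q * q / ‖-(b • n) - b • n‖ := by ring
    rw [hd1, hd2, hd3] at hrp
    linarith
end


/-! ### mid_convex -/
section
-- ===== given lemmas (leave as they are, do not prove) =====










-- ===== TARGET =====
theorem mid_convex (n : E3) (hn : ‖n‖ = 1) (q : ℝ) (hq : 0 ≤ q) (lam : ℝ) (hlam : 0 ≤ lam) (a b : ℝ)
    (ha : 0 < a) (hb : 0 < b) :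
    en ![q, q] ![-(((a + b) / 2) • n), ((a + b) / 2) • n] lam
      ≤ (en ![q, q] ![-(a • n), a • n] lam + en ![q, q] ![-(b • n), b • n] lam) / 2 := by
  have hz : ∀ i : Fin 2, 0 ≤ (![q, q] : Fin 2 → ℝ) i := by
    intro i
    fin_cases i <;> exact hq
  by_cases hab : a = b
  · subst hab
    rw [add_self_div_two, add_self_div_two]
  · have htr : en ![q, q] ![-(((a + b) / 2) • n), ((a + b) / 2) • n] lam =
        en ![q, q] ![-(a • n), b • n] lam := by
      rw [← en_translate ![q, q] ![-(((a + b) / 2) • n), ((a + b) / 2) • n] lam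
        (((b - a) / 2) • n)]
      congr 1
      funext i
      fin_cases i
      · show -(((a + b) / 2) • n) + ((b - a) / 2) • n = -(a • n)
        rw [← neg_smul, ← add_smul, ← neg_smul]
        congr 1
        ring
      · show ((a + b) / 2) • n + ((b - a) / 2) • n = b • n
        rw [← add_smul]
        congr 1
        ring
    rw [htr]
    refine le_of_forall_pos_le_add fun ε hε => ?_
    obtain ⟨E1, ⟨ρ1, hA1, hm1, hx1⟩, hE1⟩ := exists_lt_of_csInf_lt
      (en_nonempty ![q, q] ![-(a • n), a • n] lam hlam)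
      (show sInf {E | ∃ ρ, Adm ρ ∧ ∫ x, ρ x = lam ∧ xi ![q, q] ![-(a • n), a • n] ρ = E} <
        en ![q, q] ![-(a • n), a • n] lam + ε from lt_add_of_pos_right _ hε)
    obtain ⟨E2, ⟨ρ2, hA2, hm2, hx2⟩, hE2⟩ := exists_lt_of_csInf_lt
      (en_nonempty ![q, q] ![-(b • n), b • n] lam hlam)
      (show sInf {E | ∃ ρ, Adm ρ ∧ ∫ x, ρ x = lam ∧ xi ![q, q] ![-(b • n), b • n] ρ = E} <
        en ![q, q] ![-(b • n), b • n] lam + ε from lt_add_of_pos_right _ hε)
    obtain ⟨s1, hs1, hsm1, hss1, hsx1⟩ := symmetrize n hn q a ρ1 hA1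
    obtain ⟨s2, hs2, hsm2, hss2, hsx2⟩ := symmetrize n hn q b ρ2 hA2
    obtain ⟨ρ, hρ, hρm, hρx⟩ := glue_xi n hn q a b ha hb hab s1 s2 hs1 hs2 hss1 hss2
      (by rw [hsm1, hsm2, hm1, hm2])
    have h1 : en ![q, q] ![-(a • n), b • n] lam ≤ xi ![q, q] ![-(a • n), b • n] ρ :=
      csInf_le (en_bdd ![q, q] hz ![-(a • n), b • n] lam) ⟨ρ, hρ, by rw [hρm, hsm1, hm1], rfl⟩
    rw [← hx1] at hE1
    rw [← hx2] at hE2
    linarith
end


/-! ### convex_real -/
section
-- ===== TARGET =====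
theorem TF_convex_real_dyadic (f : ℝ → ℝ)
    (hmid : ∀ a b : ℝ, 0 < a → 0 < b → f ((a + b) / 2) ≤ (f a + f b) / 2)
    (x y : ℝ) (hx : 0 < x) (hxy : x ≤ y) (n : ℕ) : ∀ k : ℕ, k ≤ 2 ^ n →
    f (x + ((k : ℝ) / 2 ^ n) * (y - x)) ≤ f x + ((k : ℝ) / 2 ^ n) * (f y - f x) := by
  have hy : 0 < y := lt_of_lt_of_le hx hxy
  induction n with
  | zero =>
    intro k hk
    have hk' : k = 0 ∨ k = 1 := by
      have : k ≤ 1 := by simpa using hk
      omega
    rcases hk' with h | h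
    · subst h; simp
    · subst h; simp
  | succ n ih =>
    intro k hk
    have h2 : (0 : ℝ) < 2 ^ n := by positivity
    by_cases h : k ≤ 2 ^ n
    · have h1 := ih k h
      have hpos : 0 < x + ((k : ℝ) / 2 ^ n) * (y - x) := by
        have : 0 ≤ ((k : ℝ) / 2 ^ n) * (y - x) := mul_nonneg (by positivity) (by linarith)
        linarith
      have h3 := hmid x (x + ((k : ℝ) / 2 ^ n) * (y - x)) hx hpos
      have e1 : (x + (x + ((k : ℝ) / 2 ^ n) * (y - x))) / 2 =
          x + ((k : ℝ) / 2 ^ (n + 1)) * (y - x) := by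
        rw [pow_succ]; field_simp; ring
      have e2 : ((k : ℝ) / 2 ^ (n + 1)) = ((k : ℝ) / 2 ^ n) / 2 := by
        rw [pow_succ]; field_simp
      rw [e1] at h3
      rw [e2] at h3 ⊢
      linarith
    · push Not at h
      obtain ⟨j, rfl⟩ := Nat.exists_eq_add_of_lt h
      have hj : j + 1 ≤ 2 ^ n := by rw [pow_succ] at hk; omega
      have h1 := ih (j + 1) hj
      have hpos : 0 < x + (((j + 1 : ℕ) : ℝ) / 2 ^ n) * (y - x) := by
        have : 0 ≤ (((j + 1 : ℕ) : ℝ) / 2 ^ n) * (y - x) := mul_nonneg (by positivity) (by linarith)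
        linarith
      have h3 := hmid y (x + (((j + 1 : ℕ) : ℝ) / 2 ^ n) * (y - x)) hy hpos
      have e2 : (((2 ^ n + j + 1 : ℕ) : ℝ) / 2 ^ (n + 1)) = (1 + (((j + 1 : ℕ) : ℝ) / 2 ^ n)) / 2 := by
        rw [pow_succ]; push_cast; field_simp; ring
      have e1 : (y + (x + (((j + 1 : ℕ) : ℝ) / 2 ^ n) * (y - x))) / 2 =
          x + ((1 + (((j + 1 : ℕ) : ℝ) / 2 ^ n)) / 2) * (y - x) := by
        ring
      rw [e1] at h3
      rw [e2]
      linarith

theorem TF_convex_real_le (f : ℝ → ℝ) (hanti : AntitoneOn f (Ioi 0))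
    (hmid : ∀ a b : ℝ, 0 < a → 0 < b → f ((a + b) / 2) ≤ (f a + f b) / 2)
    (x y : ℝ) (hx : 0 < x) (hxy : x ≤ y) (t : ℝ) (ht0 : 0 ≤ t) (ht1 : t ≤ 1) :
    f (x + t * (y - x)) ≤ f x + t * (f y - f x) := by
  have hlim : Tendsto (fun n : ℕ => (⌊t * 2 ^ n⌋₊ : ℝ) / 2 ^ n) atTop (𝓝 t) :=
    (tendsto_nat_floor_mul_div_atTop ht0).comp
      (tendsto_pow_atTop_atTop_of_one_lt (by norm_num : (1 : ℝ) < 2))
  have hlim2 : Tendsto (fun n : ℕ => f x + ((⌊t * 2 ^ n⌋₊ : ℝ) / 2 ^ n) * (f y - f x)) atTop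
      (𝓝 (f x + t * (f y - f x))) := (hlim.mul_const _).const_add _
  refine ge_of_tendsto' hlim2 fun n => ?_
  have h2 : (0 : ℝ) < 2 ^ n := by positivity
  have hfl : (⌊t * 2 ^ n⌋₊ : ℝ) ≤ t * 2 ^ n := Nat.floor_le (by positivity)
  have hk : ⌊t * 2 ^ n⌋₊ ≤ 2 ^ n := by
    have : (⌊t * 2 ^ n⌋₊ : ℝ) ≤ ((2 ^ n : ℕ) : ℝ) := by
      push_cast
      nlinarith
    exact_mod_cast this
  have h1 := TF_convex_real_dyadic f hmid x y hx hxy n _ hk
  refine le_trans ?_ h1
  have h3 : (⌊t * 2 ^ n⌋₊ : ℝ) / 2 ^ n ≤ t := by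
    rw [div_le_iff₀ h2]; exact hfl
  have h4 : 0 ≤ (⌊t * 2 ^ n⌋₊ : ℝ) / 2 ^ n := by positivity
  have h5 : 0 ≤ y - x := by linarith
  have h6 : 0 ≤ ((⌊t * 2 ^ n⌋₊ : ℝ) / 2 ^ n) * (y - x) := mul_nonneg h4 h5
  have h7 : ((⌊t * 2 ^ n⌋₊ : ℝ) / 2 ^ n) * (y - x) ≤ t * (y - x) := mul_le_mul_of_nonneg_right h3 h5
  apply hanti
  · show (0 : ℝ) < _
    linarith
  · show (0 : ℝ) < _
    linarith
  · linarith

theorem convex_real (f : ℝ → ℝ) (hanti : AntitoneOn f (Ioi 0))
    (hmid : ∀ a b : ℝ, 0 < a → 0 < b → f ((a + b) / 2) ≤ (f a + f b) / 2) :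
    ConvexOn ℝ (Ioi 0) f := by
  refine ⟨convex_Ioi 0, ?_⟩
  intro x hx y hy a b ha hb hab
  have hx' : 0 < x := hx
  have hy' : 0 < y := hy
  simp only [smul_eq_mul]
  rcases le_total x y with h | h
  · have h1 := TF_convex_real_le f hanti hmid x y hx' h b hb (by linarith)
    have e1 : x + b * (y - x) = a * x + b * y := by
      have : a = 1 - b := by linarith
      rw [this]; ring
    have e2 : f x + b * (f y - f x) = a * f x + b * f y := by
      have : a = 1 - b := by linarith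
      rw [this]; ring
    rw [e1, e2] at h1
    exact h1
  · have h1 := TF_convex_real_le f hanti hmid y x hy' h a ha (by linarith)
    have e1 : y + a * (x - y) = a * x + b * y := by
      have : b = 1 - a := by linarith
      rw [this]; ring
    have e2 : f y + a * (f x - f y) = a * f x + b * f y := by
      have : b = 1 - a := by linarith
      rw [this]; ring
    rw [e1, e2] at h1
    exact h1
end


/-! ### kappa_real -/
section
-- ===== TARGET =====
theorem TF_kappa_real_aux (F : ℝ → ℝ) (s : Set ℝ) (hs : IsOpen s) (x : ℝ) (hx : x ∈ s)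
    (hF : AntitoneOn F s) : deriv F x ≤ 0 := by
  rw [← derivWithin_of_isOpen hs hx]
  exact hF.derivWithin_nonpos

theorem kappa_real (f : ℝ → ℝ) (hanti : AntitoneOn f (Ioi 0)) (hconv : ConvexOn ℝ (Ioi 0) f)
    (l : ℝ) (hl : 0 < l) (hd : ∀ᶠ x in 𝓝 l, DifferentiableAt ℝ f x) (p' : ℝ)
    (hp : HasDerivAt (fun x => -(1 / (3 * x ^ 2)) * deriv f x) p' l) :
    0 ≤ -(l / 3) * p' := by
  have h1 : ∀ᶠ x in 𝓝 l, DifferentiableAt ℝ f x ∧ 0 < x := hd.and (lt_mem_nhds hl)
  obtain ⟨ε, hε, hball⟩ := Metric.eventually_nhds_iff.mp h1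
  have hsub : Ioo (l - ε) (l + ε) ⊆ Ioi 0 := by
    intro x hx
    have : dist x l < ε := by
      rw [Real.dist_eq, abs_lt]
      constructor <;> linarith [hx.1, hx.2]
    exact (hball this).2
  have hdiff : ∀ x ∈ Ioo (l - ε) (l + ε), DifferentiableAt ℝ f x := by
    intro x hx
    have : dist x l < ε := by
      rw [Real.dist_eq, abs_lt]
      constructor <;> linarith [hx.1, hx.2]
    exact (hball this).1
  have hconv' : ConvexOn ℝ (Ioo (l - ε) (l + ε)) f := hconv.subset hsub (convex_Ioo _ _)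
  have hmono : MonotoneOn (deriv f) (Ioo (l - ε) (l + ε)) := hconv'.monotoneOn_deriv hdiff
  have hneg : ∀ x ∈ Ioo (l - ε) (l + ε), deriv f x ≤ 0 := by
    intro x hx
    exact TF_kappa_real_aux f (Ioi 0) isOpen_Ioi x (hsub hx) hanti
  have hF : AntitoneOn (fun x => -(1 / (3 * x ^ 2)) * deriv f x) (Ioo (l - ε) (l + ε)) := by
    intro x hx y hy hxy
    have hx0 : 0 < x := hsub hx
    have hy0 : 0 < y := hsub hy
    have a1 : 1 / (3 * y ^ 2) ≤ 1 / (3 * x ^ 2) := by
      apply one_div_le_one_div_of_le (by positivity)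
      nlinarith
    have a2 : -deriv f y ≤ -deriv f x := neg_le_neg (hmono hx hy hxy)
    have a3 : 0 ≤ -deriv f y := by linarith [hneg y hy]
    have a4 : 0 ≤ 1 / (3 * x ^ 2) := by positivity
    have := mul_le_mul a1 a2 a3 a4
    show -(1 / (3 * y ^ 2)) * deriv f y ≤ -(1 / (3 * x ^ 2)) * deriv f x
    linarith
  have hp0 : p' ≤ 0 := by
    rw [← hp.deriv]
    exact TF_kappa_real_aux _ (Ioo (l - ε) (l + ε)) isOpen_Ioo l
      ⟨by linarith, by linarith⟩ hF
  nlinarith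
end


/-! ### diatomic -/
section
-- ===== given lemmas (leave as they are, do not prove) =====












-- ===== TARGET =====
/-- homonuclear diatomic molecules, ionic or neutral: pressure and compressibility are nonnegative -/
theorem diatomic (z : Fin 2 → ℝ) (hz : 0 ≤ z 0) (hzz : z 0 = z 1) (R : Fin 2 → E3)
    (hR : Function.Injective R) (lam : ℝ) (hlam : 0 ≤ lam) :
    AntitoneOn (fun l : ℝ => en z (fun i => l • R i) lam) (Ioi 0) ∧
    ConvexOn ℝ (Ioi 0) (fun l : ℝ => en z (fun i => l • R i) lam) ∧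
    (∀ l : ℝ, 0 < l → ∀ d : ℝ, HasDerivAt (fun l : ℝ => en z (fun i => l • R i) lam) d l →
      0 ≤ -(1 / (3 * l ^ 2)) * d) ∧
    (∀ l : ℝ, 0 < l →
      (∀ᶠ x in 𝓝 l, DifferentiableAt ℝ (fun l : ℝ => en z (fun i => l • R i) lam) x) →
      ∀ p' : ℝ, HasDerivAt (fun x => -(1 / (3 * x ^ 2)) *
        deriv (fun l : ℝ => en z (fun i => l • R i) lam) x) p' l → 0 ≤ -(l / 3) * p') := by
  obtain ⟨d, hd⟩ : ∃ d : ℝ, d = ‖R 1 - R 0‖ := ⟨_, rfl⟩
  have hdpos : 0 < d := by
    rw [hd]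
    refine norm_pos_iff.mpr (sub_ne_zero.mpr (fun h => ?_))
    have h2 := hR h
    exact absurd h2 (by decide)
  obtain ⟨n, hndef⟩ : ∃ n : E3, n = d⁻¹ • (R 1 - R 0) := ⟨_, rfl⟩
  have hn : ‖n‖ = 1 := by
    rw [hndef, norm_smul, norm_inv, ← hd, Real.norm_of_nonneg hdpos.le, inv_mul_cancel₀ hdpos.ne']
  have hdn : d • n = R 1 - R 0 := by
    rw [hndef, smul_smul, mul_inv_cancel₀ hdpos.ne', one_smul]
  obtain ⟨q, hq⟩ : ∃ q : ℝ, q = z 0 := ⟨_, rfl⟩
  have hz' : z = ![q, q] := by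
    ext i
    fin_cases i
    · simp [hq]
    · simp [hq, hzz]
  have hq0 : 0 ≤ q := by rw [hq]; exact hz
  have hzall : ∀ i, 0 ≤ z i := by
    intro i
    fin_cases i
    · exact hz
    · show 0 ≤ z 1
      rw [← hzz]; exact hz
  have key : ∀ l : ℝ, en z (fun i => l • R i) lam
      = en ![q, q] ![-((l * d / 2) • n), (l * d / 2) • n] lam := by
    intro l
    rw [← en_translate ![q, q] ![-((l * d / 2) • n), (l * d / 2) • n] lam
      (l • ((1/2 : ℝ) • (R 0 + R 1))), ← hz']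
    congr 1
    have e1 : (l * d / 2) • n = (l / 2) • (R 1 - R 0) := by
      rw [← hdn, smul_smul]
      congr 1
      ring
    ext i : 1
    fin_cases i
    · show l • R 0 = -((l * d / 2) • n) + l • ((1/2 : ℝ) • (R 0 + R 1))
      rw [e1]
      module
    · show l • R 1 = ((l * d / 2) • n) + l • ((1/2 : ℝ) • (R 0 + R 1))
      rw [e1]
      module
  obtain ⟨c, hc⟩ := exists_centre R hR (Or.inr (Or.inr (by norm_num)))
  obtain ⟨hanti, hpress⟩ := pressure_nonneg z hzall R hR c hc lam hlam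
  have hmid : ∀ a b : ℝ, 0 < a → 0 < b →
      (fun l : ℝ => en z (fun i => l • R i) lam) ((a + b) / 2)
        ≤ ((fun l : ℝ => en z (fun i => l • R i) lam) a
          + (fun l : ℝ => en z (fun i => l • R i) lam) b) / 2 := by
    intro a b ha hb
    show en z (fun i => ((a + b) / 2) • R i) lam
      ≤ (en z (fun i => a • R i) lam + en z (fun i => b • R i) lam) / 2
    rw [key, key, key]
    have h := mid_convex n hn q hq0 lam hlam (a * d / 2) (b * d / 2) (by positivity) (by positivity)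
    have e : (a + b) / 2 * d / 2 = (a * d / 2 + b * d / 2) / 2 := by ring
    rw [e]
    exact h
  have hconv := convex_real _ hanti hmid
  refine ⟨hanti, hconv, hpress, ?_⟩
  intro l hl hdiff p' hp
  exact kappa_real _ hanti hconv l hl hdiff p' hp
end

end Pool.Agent.Helper557.TFP
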