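import Mathlib
import Pool.Agent.Helper557.TF.Core
import Pool.Agent.Helper557.TF.Diatomic
open MeasureTheory Set Filter Topology Metric
open scoped RealInnerProductSpace BigOperators ENNReal

namespace Pool.Agent.Helper557.TFP

/-- Thomas-Fermi functional with a smeared nuclear charge density `M` -/
noncomputable def xs (M ρ : E3 → ℝ) : ℝ :=
  3/5 * (∫ x, ρ x ^ (5/3 : ℝ)) + 1/2 * (∫ x, ∫ y, (M x - ρ x) * (M y - ρ y) / ‖x - y‖)

/-- the smeared energy -/
noncomputable def es (M : E3 → ℝ) (lam : ℝ) : ℝ :=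
  sInf {E | ∃ ρ, Adm ρ ∧ ∫ x, ρ x = lam ∧ xs M ρ = E}

/-- Yukawa resolvent kernel -/
noncomputable def Yk (κ : ℝ) (x : E3) : ℝ := κ ^ 2 * Real.exp (-(κ * ‖x‖)) / (4 * Real.pi * ‖x‖)

/-- the dual functional -/
noncomputable def Gd (κ μ lam : ℝ) (M f : E3 → ℝ) : ℝ :=
  -(2/5) * (∫ x, (max (f x - μ) 0) ^ (5/2 : ℝ)) - μ * lam
    + (∫ x, ∫ y, f x * M y * Yk κ (x - y))
    - κ ^ 2 / (8 * Real.pi) * ((∫ x, f x ^ 2) - ∫ x, ∫ y, f x * f y * Yk κ (x - y))

/-- the lattice cell of a point (cells of side `η`) -/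
noncomputable def cellOf (η : ℝ) (x : E3) : Fin 3 → ℤ := fun b => ⌊x b / η⌋

/-- the lattice function with values `u` -/
noncomputable def stepf (η : ℝ) (u : (Fin 3 → ℤ) →₀ ℝ) (x : E3) : ℝ := u (cellOf η x)

/-- normalised indicator of the cube of `(2h+1)^3` cells centred at the cell `y` -/
noncomputable def cube (η : ℝ) (h : ℕ) (y : Fin 3 → ℤ) (x : E3) : ℝ :=
  Set.indicator {x : E3 | ∀ b, |cellOf η x b - y b| ≤ (h : ℤ)} (fun _ => 1 / ((2 * (h : ℝ) + 1) * η) ^ 3) x

/-- the smeared nuclear charge with cubes centred at the cells `y j` -/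
noncomputable def Mcube {k : ℕ} (z : Fin k → ℝ) (η : ℝ) (h : ℕ) (y : Fin k → Fin 3 → ℤ) (x : E3) : ℝ :=
  ∑ j, z j * cube η h (y j) x

/-- admissible lattice kernels -/
def KerOK (K : (Fin 3 → ℤ) → ℝ) : Prop :=
  (∀ d, 0 ≤ K d) ∧ (∀ d b, K (Function.update d b (-(d b))) = K d) ∧
  (∀ d b, 0 ≤ d b → K (Function.update d b (d b + 1)) ≤ K d)

/-- the finite box of cells -/
noncomputable def box (h : ℕ) (y : Fin 3 → ℤ) : Finset (Fin 3 → ℤ) :=
  Fintype.piFinset (fun b => Finset.Icc (y b - (h : ℤ)) (y b + (h : ℤ)))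

/-- `u'` dominates `u` for the Riesz sums, with nuclei moved by `m` on the set `A` -/
def Dom (A : Set (Fin 3 → ℤ)) (m : (Fin 3 → ℤ) → (Fin 3 → ℤ)) (u u' : (Fin 3 → ℤ) →₀ ℝ) : Prop :=
  (∀ x, 0 ≤ u' x) ∧
  (∀ F : ℝ → ℝ, F 0 = 0 → ∑ x ∈ u'.support, F (u' x) = ∑ x ∈ u.support, F (u x)) ∧
  (∀ K, KerOK K → ∑ x ∈ u.support, ∑ y ∈ u.support, u x * u y * K (x - y)
      ≤ ∑ x ∈ u'.support, ∑ y ∈ u'.support, u' x * u' y * K (x - y)) ∧
  (∀ K, KerOK K → ∀ (h : ℕ), ∀ y ∈ A, ∑ x ∈ u.support, ∑ w ∈ box h y, u x * K (x - w)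
      ≤ ∑ x ∈ u'.support, ∑ w ∈ box h (m y), u' x * K (x - w))

/-- cell-averaged Yukawa kernel -/
noncomputable def Kc (η κ : ℝ) (d : Fin 3 → ℤ) : ℝ :=
  ∫ x in {x : E3 | cellOf η x = 0}, ∫ y in {y : E3 | cellOf η y = d}, Yk κ (x - y)

/-- normalised indicator of the cube of side `r` centred at `R` -/
noncomputable def cc (r : ℝ) (R x : E3) : ℝ :=
  Set.indicator {x : E3 | ∀ b, |x b - R b| ≤ r / 2} (fun _ => 1 / r ^ 3) x

/-- nuclear charges smeared over cubes of side `r` centred at the nuclei -/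
noncomputable def Mc {k : ℕ} (z : Fin k → ℝ) (r : ℝ) (R : Fin k → E3) (x : E3) : ℝ :=
  ∑ j, z j * cc r (R j) x

/-- self energy of a cube -/
noncomputable def selfr (r : ℝ) : ℝ := ∫ x, ∫ y, cc r 0 x * cc r 0 y / ‖x - y‖

/-- centre of a cell -/
noncomputable def ctr (η : ℝ) (y : Fin 3 → ℤ) : E3 := WithLp.toLp 2 (fun b => ((y b : ℝ) + 1/2) * η)


/-! ### disc_step -/
section
/-- distance from x to the right end / left end of its run in direction a in the set A -/
noncomputable def TH_disc_step_R (a : Fin 3) (A : Finset (Fin 3 → ℤ)) (x : Fin 3 → ℤ) : ℕ :=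
  sInf {n : ℕ | Function.update x a (x a + (n + 1)) ∉ A}
noncomputable def TH_disc_step_L (a : Fin 3) (A : Finset (Fin 3 → ℤ)) (x : Fin 3 → ℤ) : ℕ :=
  sInf {n : ℕ | Function.update x a (x a - (n + 1)) ∉ A}

/-- shift by -1 the runs with centre > p -/
noncomputable def TH_disc_step_tau (a : Fin 3) (p : ℤ) (A : Finset (Fin 3 → ℤ)) (x : Fin 3 → ℤ) : Fin 3 → ℤ :=
  if 2 * p < 2 * x a - TH_disc_step_L a A x + TH_disc_step_R a A x then Function.update x a (x a - 1) else x

noncomputable def TH_disc_step_Q (a : Fin 3) (p : ℤ) (A : Finset (Fin 3 → ℤ)) : Finset (Fin 3 → ℤ) :=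
  A.image (TH_disc_step_tau a p A)

/-- left end points of runs -/
noncomputable def TH_disc_step_E (a : Fin 3) (A : Finset (Fin 3 → ℤ)) : Finset (Fin 3 → ℤ) :=
  A.filter (fun e => Function.update e a (e a - 1) ∉ A)

theorem TH_disc_step_JA_neR (a : Fin 3) (A : Finset (Fin 3 → ℤ)) (x : Fin 3 → ℤ) :
    {n : ℕ | Function.update x a (x a + (n + 1)) ∉ A}.Nonempty := by
  by_contra h
  rw [Set.not_nonempty_iff_eq_empty, Set.eq_empty_iff_forall_notMem] at h
  have h1 : ∀ n : ℕ, Function.update x a (x a + (n + 1)) ∈ (A : Set (Fin 3 → ℤ)) := fun n => by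
    have := h n
    simpa using this
  refine Set.infinite_of_injective_forall_mem (f := fun n : ℕ => Function.update x a (x a + ((n : ℤ) + 1)))
    (fun m n hmn => ?_) h1 A.finite_toSet
  have := congrFun hmn a
  simp only [Function.update_self] at this
  omega

theorem TH_disc_step_JA_neL (a : Fin 3) (A : Finset (Fin 3 → ℤ)) (x : Fin 3 → ℤ) :
    {n : ℕ | Function.update x a (x a - (n + 1)) ∉ A}.Nonempty := by
  by_contra h
  rw [Set.not_nonempty_iff_eq_empty, Set.eq_empty_iff_forall_notMem] at h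
  have h1 : ∀ n : ℕ, Function.update x a (x a - (n + 1)) ∈ (A : Set (Fin 3 → ℤ)) := fun n => by
    have := h n
    simpa using this
  refine Set.infinite_of_injective_forall_mem (f := fun n : ℕ => Function.update x a (x a - ((n : ℤ) + 1)))
    (fun m n hmn => ?_) h1 A.finite_toSet
  have := congrFun hmn a
  simp only [Function.update_self] at this
  omega

theorem TH_disc_step_JA_memR (a : Fin 3) (A : Finset (Fin 3 → ℤ)) (x : Fin 3 → ℤ) :
    Function.update x a (x a + ((TH_disc_step_R a A x : ℕ) + 1)) ∉ A :=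
  Nat.sInf_mem (TH_disc_step_JA_neR a A x)

theorem TH_disc_step_JA_memL (a : Fin 3) (A : Finset (Fin 3 → ℤ)) (x : Fin 3 → ℤ) :
    Function.update x a (x a - ((TH_disc_step_L a A x : ℕ) + 1)) ∉ A :=
  Nat.sInf_mem (TH_disc_step_JA_neL a A x)

theorem TH_disc_step_JA_inR (a : Fin 3) (A : Finset (Fin 3 → ℤ)) (x : Fin 3 → ℤ) (hx : x ∈ A)
    (i : ℕ) (hi : i ≤ TH_disc_step_R a A x) : Function.update x a (x a + (i : ℤ)) ∈ A := by
  rcases i with _ | n
  · simpa using hx
  · have h := Nat.notMem_of_lt_sInf (s := {n : ℕ | Function.update x a (x a + (n + 1)) ∉ A})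
      (m := n) (by have : n < TH_disc_step_R a A x := by omega
                   exact this)
    simp only [Set.mem_setOf_eq, not_not] at h
    push_cast
    exact h

theorem TH_disc_step_JA_inL (a : Fin 3) (A : Finset (Fin 3 → ℤ)) (x : Fin 3 → ℤ) (hx : x ∈ A)
    (i : ℕ) (hi : i ≤ TH_disc_step_L a A x) : Function.update x a (x a - (i : ℤ)) ∈ A := by
  rcases i with _ | n
  · simpa using hx
  · have h := Nat.notMem_of_lt_sInf (s := {n : ℕ | Function.update x a (x a - (n + 1)) ∉ A})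
      (m := n) (by have : n < TH_disc_step_L a A x := by omega
                   exact this)
    simp only [Set.mem_setOf_eq, not_not] at h
    push_cast
    exact h

theorem TH_disc_step_JA_L (a : Fin 3) (A : Finset (Fin 3 → ℤ)) (e : Fin 3 → ℤ)
    (he : e ∈ A) (hn : Function.update e a (e a - 1) ∉ A) (i : ℕ) (hi : i ≤ TH_disc_step_R a A e) :
    TH_disc_step_L a A (Function.update e a (e a + (i : ℤ))) = i := by
  have hmem := TH_disc_step_JA_inR a A e he i hi
  apply le_antisymm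
  · apply Nat.sInf_le
    show Function.update (Function.update e a (e a + (i : ℤ))) a
      ((Function.update e a (e a + (i : ℤ))) a - ((i : ℤ) + 1)) ∉ A
    rw [Function.update_idem, Function.update_self]
    have : e a + (i : ℤ) - ((i : ℤ) + 1) = e a - 1 := by ring
    rw [this]
    exact hn
  · by_contra hlt
    push Not at hlt
    have h := TH_disc_step_JA_memL a A (Function.update e a (e a + (i : ℤ)))
    rw [Function.update_idem, Function.update_self] at h
    set l := TH_disc_step_L a A (Function.update e a (e a + (i : ℤ))) with hl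
    apply h
    have h2 := TH_disc_step_JA_inR a A e he (i - (l + 1)) (by omega)
    have e1 : e a + (i : ℤ) - ((l : ℤ) + 1) = e a + ((i - (l + 1) : ℕ) : ℤ) := by
      have : l + 1 ≤ i := hlt
      push_cast [Nat.cast_sub this]
      ring
    rw [e1]
    exact h2

theorem TH_disc_step_runsum (a : Fin 3) (A : Finset (Fin 3 → ℤ)) (f : (Fin 3 → ℤ) → ℝ) :
    ∑ x ∈ A, f x = ∑ e ∈ TH_disc_step_E a A, ∑ i ∈ Finset.range (TH_disc_step_R a A e + 1),
      f (Function.update e a (e a + i)) := by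
  rw [Finset.sum_sigma']
  refine Finset.sum_nbij'
    (fun x => (⟨Function.update x a (x a - (TH_disc_step_L a A x : ℤ)), TH_disc_step_L a A x⟩ :
      (_ : Fin 3 → ℤ) × ℕ))
    (fun s => Function.update s.1 a (s.1 a + (s.2 : ℤ))) ?_ ?_ ?_ ?_ ?_
  · intro x hx
    have hE := TH_disc_step_JA_inL a A x hx (TH_disc_step_L a A x) le_rfl
    have hm := TH_disc_step_JA_memL a A x
    rw [Finset.mem_sigma]
    constructor
    · show Function.update x a (x a - (TH_disc_step_L a A x : ℤ)) ∈ TH_disc_step_E a A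
      unfold TH_disc_step_E
      rw [Finset.mem_filter]
      refine ⟨hE, ?_⟩
      rw [Function.update_idem, Function.update_self]
      have : x a - (TH_disc_step_L a A x : ℤ) - 1 = x a - ((TH_disc_step_L a A x : ℤ) + 1) := by ring
      rw [this]
      exact hm
    · show TH_disc_step_L a A x ∈ Finset.range (TH_disc_step_R a A
        (Function.update x a (x a - (TH_disc_step_L a A x : ℤ))) + 1)
      rw [Finset.mem_range]
      by_contra hlt
      push Not at hlt
      have h := TH_disc_step_JA_memR a A (Function.update x a (x a - (TH_disc_step_L a A x : ℤ)))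
      rw [Function.update_idem, Function.update_self] at h
      set r := TH_disc_step_R a A (Function.update x a (x a - (TH_disc_step_L a A x : ℤ))) with hr
      apply h
      have h2 := TH_disc_step_JA_inL a A x hx (TH_disc_step_L a A x - (r + 1)) (by omega)
      have e1 : x a - (TH_disc_step_L a A x : ℤ) + ((r : ℤ) + 1) =
          x a - ((TH_disc_step_L a A x - (r + 1) : ℕ) : ℤ) := by
        push_cast [Nat.cast_sub hlt]
        ring
      rw [e1]
      exact h2
  · rintro ⟨e, i⟩ hs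
    rw [Finset.mem_sigma] at hs
    obtain ⟨h1, h2⟩ := hs
    unfold TH_disc_step_E at h1
    rw [Finset.mem_filter] at h1
    have h3 := Finset.mem_range.1 h2
    exact TH_disc_step_JA_inR a A e h1.1 i (Nat.lt_succ_iff.1 h3)
  · intro x hx
    show Function.update (Function.update x a (x a - (TH_disc_step_L a A x : ℤ))) a
      ((Function.update x a (x a - (TH_disc_step_L a A x : ℤ))) a + (TH_disc_step_L a A x : ℤ)) = x
    rw [Function.update_idem, Function.update_self, sub_add_cancel, Function.update_eq_self]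
  · rintro ⟨e, i⟩ hs
    rw [Finset.mem_sigma] at hs
    obtain ⟨h1, h2⟩ := hs
    unfold TH_disc_step_E at h1
    rw [Finset.mem_filter] at h1
    have h3 := Nat.lt_succ_iff.1 (Finset.mem_range.1 h2)
    have hL := TH_disc_step_JA_L a A e h1.1 h1.2 i h3
    simp only at hL ⊢
    rw [hL, Function.update_idem, Function.update_self, add_sub_cancel_right, Function.update_eq_self]
  · intro x hx
    show f x = f (Function.update (Function.update x a (x a - (TH_disc_step_L a A x : ℤ))) a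
      ((Function.update x a (x a - (TH_disc_step_L a A x : ℤ))) a + (TH_disc_step_L a A x : ℤ)))
    rw [Function.update_idem, Function.update_self, sub_add_cancel, Function.update_eq_self]

theorem TH_disc_step_JB_mem (a : Fin 3) (A : Finset (Fin 3 → ℤ)) (e : Fin 3 → ℤ)
    (he : e ∈ TH_disc_step_E a A) (i : ℕ) (hi : i ≤ TH_disc_step_R a A e) :
    Function.update e a (e a + i) ∈ A := by
  cases i with
  | zero =>
    have : Function.update e a (e a + ((0 : ℕ) : ℤ)) = e := by simp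
    rw [this]
    exact (Finset.mem_filter.1 he).1
  | succ k =>
    have h1 : k ∉ {n : ℕ | Function.update e a (e a + (n + 1)) ∉ A} :=
      Nat.notMem_of_lt_sInf (by unfold TH_disc_step_R at hi; omega)
    have h2 : Function.update e a (e a + ((k : ℤ) + 1)) ∈ A := by
      by_contra hc
      exact h1 hc
    push_cast
    exact h2

theorem TH_disc_step_JB_not (a : Fin 3) (A : Finset (Fin 3 → ℤ)) (e : Fin 3 → ℤ) :
    Function.update e a (e a + ((TH_disc_step_R a A e : ℤ) + 1)) ∉ A := by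
  have hne : {n : ℕ | Function.update e a (e a + (n + 1)) ∉ A}.Nonempty := by
    by_contra hn
    rw [Set.not_nonempty_iff_eq_empty] at hn
    have hall : ∀ n : ℕ, Function.update e a (e a + ((n : ℤ) + 1)) ∈ A := by
      intro n
      by_contra hc
      have : n ∈ {n : ℕ | Function.update e a (e a + (n + 1)) ∉ A} := hc
      rw [hn] at this
      exact this
    have hinj : Function.Injective (fun n : ℕ => (⟨_, hall n⟩ : A)) := by
      intro n m hnm
      have h1 := congrArg (fun v : A => (v : Fin 3 → ℤ) a) hnm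
      simp only [Function.update_self] at h1
      omega
    exact not_injective_infinite_finite _ hinj
  have := Nat.sInf_mem hne
  exact this

theorem TH_disc_step_JB_sInf (S : Set ℕ) (k : ℕ) (h1 : k ∈ S) (h2 : ∀ n < k, n ∉ S) : sInf S = k := by
  apply le_antisymm (Nat.sInf_le h1)
  by_contra hc
  exact h2 _ (not_le.1 hc) (Nat.sInf_mem ⟨k, h1⟩)

theorem TH_disc_step_taurun (a : Fin 3) (p : ℤ) (A : Finset (Fin 3 → ℤ)) (e : Fin 3 → ℤ)
    (he : e ∈ TH_disc_step_E a A) (i : ℕ) (hi : i ≤ TH_disc_step_R a A e) :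
    Function.update e a (e a + i) ∈ A ∧
    TH_disc_step_tau a p A (Function.update e a (e a + i)) =
      Function.update e a (e a + i - (if 2 * p < 2 * e a + TH_disc_step_R a A e then 1 else 0)) := by
  refine ⟨TH_disc_step_JB_mem a A e he i hi, ?_⟩
  have hL : TH_disc_step_L a A (Function.update e a (e a + i)) = i := by
    unfold TH_disc_step_L
    simp only [Function.update_self, Function.update_idem]
    apply TH_disc_step_JB_sInf
    · change Function.update e a (e a + i - (i + 1)) ∉ A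
      have : e a + (i : ℤ) - (i + 1) = e a - 1 := by ring
      rw [this]
      exact (Finset.mem_filter.1 he).2
    · intro n hn hmem
      apply hmem
      have h3 := TH_disc_step_JB_mem a A e he (i - n - 1) (by omega)
      have h4 : ((i - n - 1 : ℕ) : ℤ) = (i : ℤ) - (n + 1) := by omega
      rw [h4] at h3
      rw [show e a + (i : ℤ) - ((n : ℤ) + 1) = e a + ((i : ℤ) - (n + 1)) by ring]
      exact h3
  have hR : TH_disc_step_R a A (Function.update e a (e a + i)) = TH_disc_step_R a A e - i := by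
    have hnot := TH_disc_step_JB_not a A e
    have hmem' := TH_disc_step_JB_mem a A e he
    generalize TH_disc_step_R a A e = r at *
    unfold TH_disc_step_R
    simp only [Function.update_self, Function.update_idem]
    apply TH_disc_step_JB_sInf
    · change Function.update e a (e a + i + (((r - i : ℕ) : ℤ) + 1)) ∉ A
      have h4 : e a + (i : ℤ) + (((r - i : ℕ) : ℤ) + 1) = e a + ((r : ℤ) + 1) := by omega
      rw [h4]
      exact hnot
    · intro n hn hmem
      apply hmem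
      have h3 := hmem' (i + n + 1) (by omega)
      rw [show e a + (i : ℤ) + ((n : ℤ) + 1) = e a + ((i + n + 1 : ℕ) : ℤ) by push_cast; ring]
      exact h3
  unfold TH_disc_step_tau
  rw [hL, hR]
  simp only [Function.update_self, Function.update_idem]
  have h5 : (2 * p < 2 * (e a + (i : ℤ)) - (i : ℤ) + ((TH_disc_step_R a A e - i : ℕ) : ℤ)) ↔
      (2 * p < 2 * e a + (TH_disc_step_R a A e : ℤ)) := by
    constructor <;> intro h <;> omega
  by_cases hc : 2 * p < 2 * e a + (TH_disc_step_R a A e : ℤ)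
  · rw [if_pos (h5.2 hc), if_pos hc]
  · rw [if_neg (fun h => hc (h5.1 h)), if_neg hc, sub_zero]

theorem TH_disc_step_JC_ne (a : Fin 3) (A : Finset (Fin 3 → ℤ)) (x : Fin 3 → ℤ) (g : ℕ → ℤ)
    (hg : Function.Injective g) : ∃ n : ℕ, Function.update x a (g n) ∉ A := by
  by_contra h
  push Not at h
  have hinj : Function.Injective (fun n : ℕ => Function.update x a (g n)) := by
    intro m n hmn
    have := congrFun hmn a
    simp only [Function.update_self] at this
    exact hg this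
  exact Set.infinite_range_of_injective hinj
    (A.finite_toSet.subset (by rintro _ ⟨n, rfl⟩; exact h n))

theorem TH_disc_step_JC_cond (a : Fin 3) (A : Finset (Fin 3 → ℤ)) (x y : Fin 3 → ℤ)
    (hx : x ∈ A) (hy : y ∈ A) (hxy : y = Function.update x a (x a - 1)) :
    2 * x a - TH_disc_step_L a A x + TH_disc_step_R a A x =
      2 * y a - TH_disc_step_L a A y + TH_disc_step_R a A y := by
  have hya : y a = x a - 1 := by rw [hxy, Function.update_self]
  have hL : TH_disc_step_L a A y + 1 = TH_disc_step_L a A x := by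
    unfold TH_disc_step_L
    have h1 : {n : ℕ | Function.update y a (y a - (n + 1)) ∉ A} =
        {m : ℕ | (fun k : ℕ => Function.update x a (x a - (k + 1)) ∉ A) (m + 1)} := by
      ext n
      simp only [Set.mem_setOf_eq]
      rw [hya, hxy, Function.update_idem]
      have h2 : x a - 1 - ((n : ℤ) + 1) = x a - (((n + 1 : ℕ) : ℤ) + 1) := by push_cast; ring
      rw [h2]
    rw [h1]
    apply Nat.sInf_add (p := fun k : ℕ => Function.update x a (x a - (k + 1)) ∉ A)
    obtain ⟨n, hn⟩ := TH_disc_step_JC_ne a A x (fun k : ℕ => x a - (k + 1)) (by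
      intro m n hmn
      simp only at hmn
      omega)
    have hmem := Nat.sInf_mem (s := {m : ℕ | Function.update x a (x a - (m + 1)) ∉ A}) ⟨n, hn⟩
    rw [Nat.one_le_iff_ne_zero]
    intro h0
    rw [h0] at hmem
    apply hmem
    rw [hxy] at hy
    simpa using hy
  have hR : TH_disc_step_R a A x + 1 = TH_disc_step_R a A y := by
    unfold TH_disc_step_R
    have h1 : {n : ℕ | Function.update x a (x a + (n + 1)) ∉ A} =
        {m : ℕ | (fun k : ℕ => Function.update y a (y a + (k + 1)) ∉ A) (m + 1)} := by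
      ext n
      simp only [Set.mem_setOf_eq]
      rw [hya, hxy, Function.update_idem]
      have h2 : x a - 1 + (((n + 1 : ℕ) : ℤ) + 1) = x a + ((n : ℤ) + 1) := by push_cast; ring
      rw [h2]
    rw [h1]
    apply Nat.sInf_add (p := fun k : ℕ => Function.update y a (y a + (k + 1)) ∉ A)
    obtain ⟨n, hn⟩ := TH_disc_step_JC_ne a A y (fun k : ℕ => y a + (k + 1)) (by
      intro m n hmn
      simp only at hmn
      omega)
    have hmem := Nat.sInf_mem (s := {m : ℕ | Function.update y a (y a + (m + 1)) ∉ A}) ⟨n, hn⟩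
    rw [Nat.one_le_iff_ne_zero]
    intro h0
    rw [h0] at hmem
    apply hmem
    have h3 : Function.update y a (y a + (((0 : ℕ) : ℤ) + 1)) = x := by
      rw [hya, hxy, Function.update_idem]
      simp
    rw [h3]
    exact hx
  rw [hya]
  omega

theorem TH_disc_step_inj (a : Fin 3) (p : ℤ) (A : Finset (Fin 3 → ℤ)) :
    Set.InjOn (TH_disc_step_tau a p A) A := by
  intro x hx y hy hxy
  have hx' : x ∈ A := hx
  have hy' : y ∈ A := hy
  unfold TH_disc_step_tau at hxy
  split_ifs at hxy with h1 h2 h2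
  · funext i
    by_cases hi : i = a
    · subst hi
      have := congrFun hxy i
      simp only [Function.update_self] at this
      omega
    · have := congrFun hxy i
      simpa [Function.update_of_ne hi] using this
  · exfalso
    apply h2
    rw [← TH_disc_step_JC_cond a A x y hx' hy' hxy.symm]
    exact h1
  · exfalso
    apply h1
    rw [← TH_disc_step_JC_cond a A y x hy' hx' hxy]
    exact h2
  · exact hxy

theorem TH_disc_step_JD_neR (a : Fin 3) (B : Finset (Fin 3 → ℤ)) (x : Fin 3 → ℤ) :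
    {n : ℕ | Function.update x a (x a + (n + 1)) ∉ B}.Nonempty := by
  by_contra hcon
  rw [Set.not_nonempty_iff_eq_empty] at hcon
  have hall : ∀ n : ℕ, Function.update x a (x a + ((n:ℤ) + 1)) ∈ (B : Set (Fin 3 → ℤ)) := by
    intro n
    by_contra hn
    have : n ∈ {n : ℕ | Function.update x a (x a + (n + 1)) ∉ B} := hn
    rw [hcon] at this
    exact this
  have hinj : Function.Injective (fun n : ℕ => Function.update x a (x a + ((n:ℤ) + 1))) := by
    intro m n hmn
    have := Function.update_injective x a hmn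
    omega
  exact Set.infinite_of_injective_forall_mem hinj hall B.finite_toSet

theorem TH_disc_step_JD_neL (a : Fin 3) (B : Finset (Fin 3 → ℤ)) (x : Fin 3 → ℤ) :
    {n : ℕ | Function.update x a (x a - (n + 1)) ∉ B}.Nonempty := by
  by_contra hcon
  rw [Set.not_nonempty_iff_eq_empty] at hcon
  have hall : ∀ n : ℕ, Function.update x a (x a - ((n:ℤ) + 1)) ∈ (B : Set (Fin 3 → ℤ)) := by
    intro n
    by_contra hn
    have : n ∈ {n : ℕ | Function.update x a (x a - (n + 1)) ∉ B} := hn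
    rw [hcon] at this
    exact this
  have hinj : Function.Injective (fun n : ℕ => Function.update x a (x a - ((n:ℤ) + 1))) := by
    intro m n hmn
    have := Function.update_injective x a hmn
    omega
  exact Set.infinite_of_injective_forall_mem hinj hall B.finite_toSet

theorem TH_disc_step_JD_inf (S : Set ℕ) (hS : S.Nonempty) (h0 : 0 ∉ S) :
    sInf S = sInf {n | n + 1 ∈ S} + 1 := by
  have hm := Nat.sInf_mem hS
  have hm0 : sInf S ≠ 0 := fun h => h0 (h ▸ hm)
  obtain ⟨k, hk⟩ := Nat.exists_eq_succ_of_ne_zero hm0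
  have hkS : k ∈ {n | n + 1 ∈ S} := by
    show k + 1 ∈ S
    have : k + 1 = sInf S := hk.symm
    rw [this]; exact hm
  have h1 : sInf {n | n + 1 ∈ S} ≤ k := Nat.sInf_le hkS
  have h2 : sInf {n | n + 1 ∈ S} ∈ {n | n + 1 ∈ S} := Nat.sInf_mem ⟨k, hkS⟩
  have h3 : sInf S ≤ sInf {n | n + 1 ∈ S} + 1 := Nat.sInf_le h2
  omega

theorem TH_disc_step_JD_sh (a : Fin 3) (B : Finset (Fin 3 → ℤ)) (x : Fin 3 → ℤ)
    (hx : x ∈ B) (hz : Function.update x a (x a + 1) ∈ B) :
    TH_disc_step_R a B x = TH_disc_step_R a B (Function.update x a (x a + 1)) + 1 ∧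
    TH_disc_step_L a B (Function.update x a (x a + 1)) = TH_disc_step_L a B x + 1 := by
  constructor
  · unfold TH_disc_step_R
    rw [TH_disc_step_JD_inf _ (TH_disc_step_JD_neR a B x) (by
      intro h
      apply h
      simpa using hz)]
    congr 2
    ext n
    simp only [Set.mem_ofPred_eq, Function.update_self, Function.update_idem]
    have : x a + (((n + 1 : ℕ) : ℤ) + 1) = x a + 1 + ((n:ℤ) + 1) := by push_cast; ring
    rw [this]
  · unfold TH_disc_step_L
    rw [TH_disc_step_JD_inf _ (TH_disc_step_JD_neL a B _) (by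
      intro h
      apply h
      simpa using hx)]
    congr 2
    ext n
    simp only [Set.mem_ofPred_eq, Function.update_self, Function.update_idem]
    have : x a + 1 - (((n + 1 : ℕ) : ℤ) + 1) = x a - ((n:ℤ) + 1) := by push_cast; ring
    rw [this]

theorem TH_disc_step_mono (a : Fin 3) (p : ℤ) (A B : Finset (Fin 3 → ℤ)) (h : A ⊆ B) :
    TH_disc_step_Q a p A ⊆ TH_disc_step_Q a p B := by
  classical
  intro y hy
  unfold TH_disc_step_Q at hy ⊢
  rw [Finset.mem_image] at hy ⊢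
  obtain ⟨x, hxA, rfl⟩ := hy
  have hxB := h hxA
  have hR : TH_disc_step_R a A x ≤ TH_disc_step_R a B x :=
    Nat.sInf_le (fun hm => Nat.sInf_mem (TH_disc_step_JD_neR a B x) (h hm))
  have hL : TH_disc_step_L a A x ≤ TH_disc_step_L a B x :=
    Nat.sInf_le (fun hm => Nat.sInf_mem (TH_disc_step_JD_neL a B x) (h hm))
  by_cases cA : 2 * p < 2 * x a - TH_disc_step_L a A x + TH_disc_step_R a A x
  · by_cases cB : 2 * p < 2 * x a - TH_disc_step_L a B x + TH_disc_step_R a B x
    · refine ⟨x, hxB, ?_⟩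
      unfold TH_disc_step_tau
      rw [if_pos cA, if_pos cB]
    · -- x - 1
      have hpos : 0 < TH_disc_step_L a B x := by omega
      have hmem : Function.update x a (x a - 1) ∈ B := by
        by_contra hn
        have : TH_disc_step_L a B x ≤ 0 := Nat.sInf_le (by
          show Function.update x a (x a - (((0:ℕ):ℤ) + 1)) ∉ B
          simpa using hn)
        omega
      obtain ⟨z, hz⟩ : ∃ z, z = Function.update x a (x a - 1) := ⟨_, rfl⟩
      have hza : z a = x a - 1 := by rw [hz]; simp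
      have hxz : Function.update z a (z a + 1) = x := by
        rw [hza, hz, Function.update_idem]
        simp
      rw [← hz] at hmem
      obtain ⟨e1, e2⟩ := TH_disc_step_JD_sh a B z hmem (by rw [hxz]; exact hxB)
      rw [hxz] at e1 e2
      refine ⟨z, hmem, ?_⟩
      unfold TH_disc_step_tau
      rw [if_pos cA, if_neg (by omega), hz]
  · by_cases cB : 2 * p < 2 * x a - TH_disc_step_L a B x + TH_disc_step_R a B x
    · have hpos : 0 < TH_disc_step_R a B x := by omega
      have hmem : Function.update x a (x a + 1) ∈ B := by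
        by_contra hn
        have : TH_disc_step_R a B x ≤ 0 := Nat.sInf_le (by
          show Function.update x a (x a + (((0:ℕ):ℤ) + 1)) ∉ B
          simpa using hn)
        omega
      obtain ⟨e1, e2⟩ := TH_disc_step_JD_sh a B x hxB hmem
      obtain ⟨z, hz⟩ : ∃ z, z = Function.update x a (x a + 1) := ⟨_, rfl⟩
      have hza : z a = x a + 1 := by rw [hz]; simp
      have hxz : Function.update z a (z a - 1) = x := by
        rw [hza, hz, Function.update_idem]
        simp
      rw [← hz] at hmem e1 e2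
      refine ⟨z, hmem, ?_⟩
      unfold TH_disc_step_tau
      rw [if_neg cA, if_pos (by omega), hxz]
    · refine ⟨x, hxB, ?_⟩
      unfold TH_disc_step_tau
      rw [if_neg cA, if_neg cB]

theorem TH_disc_step_JF_mono (k : ℤ → ℝ) (h2 : ∀ n, 0 ≤ n → k (n + 1) ≤ k n) (a : ℤ) (ha : 0 ≤ a)
    (t : ℕ) : k (a + t) ≤ k a := by
  induction t with
  | zero => simp
  | succ t ih =>
    have h3 := h2 (a + t) (by omega)
    have h4 : a + ((t + 1 : ℕ) : ℤ) = a + t + 1 := by push_cast; ring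
    rw [h4]
    linarith

theorem TH_disc_step_JF_abs (k : ℤ → ℝ) (h1 : ∀ n, k (-n) = k n) (h2 : ∀ n, 0 ≤ n → k (n + 1) ≤ k n)
    (a b : ℤ) (h : |a| ≤ b) : k b ≤ k a := by
  have h3 : k |a| = k a := by
    rcases abs_choice a with h | h
    · rw [h]
    · rw [h, h1]
  rw [← h3]
  have h4 := TH_disc_step_JF_mono k h2 |a| (abs_nonneg a) (b - |a|).toNat
  have h5 : (((b - |a|).toNat : ℕ) : ℤ) = b - |a| := Int.toNat_of_nonneg (by linarith)
  rw [h5] at h4
  have h6 : |a| + (b - |a|) = b := by ring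
  rwa [h6] at h4

theorem TH_disc_step_JF_step (k : ℤ → ℝ) (n : ℕ) (c : ℤ) :
    ∑ j ∈ Finset.range (n + 1), k (c + 1 - j) =
      ∑ j ∈ Finset.range (n + 1), k (c - j) + k (c + 1) - k (c - n) := by
  rw [Finset.sum_range_succ', Finset.sum_range_succ (fun j : ℕ => k (c - j))]
  have h1 : ∑ j ∈ Finset.range n, k (c + 1 - ((j + 1 : ℕ) : ℤ)) = ∑ j ∈ Finset.range n, k (c - j) := by
    refine Finset.sum_congr rfl fun j _ => ?_
    congr 1
    push_cast
    ring
  rw [h1, Nat.cast_zero, sub_zero]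
  ring

theorem TH_disc_step_JF_dec (k : ℤ → ℝ) (h1 : ∀ n, k (-n) = k n) (h2 : ∀ n, 0 ≤ n → k (n + 1) ≤ k n)
    (n : ℕ) (c : ℤ) (hc : (n : ℤ) ≤ 2 * c) (t : ℕ) :
    ∑ j ∈ Finset.range (n + 1), k (c + t - j) ≤ ∑ j ∈ Finset.range (n + 1), k (c - j) := by
  induction t with
  | zero => simp
  | succ t ih =>
    have h3 := TH_disc_step_JF_step k n (c + t)
    have h4 : c + ((t + 1 : ℕ) : ℤ) = c + t + 1 := by push_cast; ring
    rw [h4, h3]
    have h5 : k (c + t + 1) ≤ k (c + t - n) := by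
      apply TH_disc_step_JF_abs k h1 h2
      rw [abs_le]
      constructor <;> omega
    linarith

theorem TH_disc_step_JF_refl (k : ℤ → ℝ) (h1 : ∀ n, k (-n) = k n) (n : ℕ) (c : ℤ) :
    ∑ j ∈ Finset.range (n + 1), k (n - c - j) = ∑ j ∈ Finset.range (n + 1), k (c - j) := by
  rw [← Finset.sum_range_reflect]
  refine Finset.sum_congr rfl fun j hj => ?_
  rw [Finset.mem_range] at hj
  rw [← h1]
  congr 1
  have h3 : ((n + 1 - 1 - j : ℕ) : ℤ) = n - j := by omega
  rw [h3]
  ring

theorem TH_disc_step_JF_cmp (k : ℤ → ℝ) (h1 : ∀ n, k (-n) = k n) (h2 : ∀ n, 0 ≤ n → k (n + 1) ≤ k n)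
    (n : ℕ) (c c' : ℤ) (hcc : c ≤ c') (hs : (n : ℤ) ≤ c + c') :
    ∑ j ∈ Finset.range (n + 1), k (c' - j) ≤ ∑ j ∈ Finset.range (n + 1), k (c - j) := by
  rcases le_or_gt (n : ℤ) (2 * c) with h | h
  · have h3 := TH_disc_step_JF_dec k h1 h2 n c h (c' - c).toNat
    have h4 : (((c' - c).toNat : ℕ) : ℤ) = c' - c := Int.toNat_of_nonneg (by omega)
    rw [h4, add_sub_cancel] at h3
    exact h3
  · have h3 := TH_disc_step_JF_dec k h1 h2 n (n - c) (by omega) (c' - (n - c)).toNat
    have h4 : (((c' - (n - c)).toNat : ℕ) : ℤ) = c' - (n - c) := Int.toNat_of_nonneg (by omega)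
    rw [h4, add_sub_cancel, TH_disc_step_JF_refl k h1] at h3
    exact h3

theorem TH_disc_step_line (k : ℤ → ℝ) (h1 : ∀ n, k (-n) = k n) (h2 : ∀ n, 0 ≤ n → k (n + 1) ≤ k n)
    (s s' : ℤ) (m n : ℕ) (h : 2 * s' + n < 2 * s + m) :
    ∑ i ∈ Finset.range (m + 1), ∑ j ∈ Finset.range (n + 1), k (s + i - (s' + j)) ≤
    ∑ i ∈ Finset.range (m + 1), ∑ j ∈ Finset.range (n + 1), k (s + i - 1 - (s' + j)) := by
  have h3 : ∀ c : ℤ, ∑ j ∈ Finset.range (n + 1), k (c - (s' + j)) =
      ∑ j ∈ Finset.range (n + 1), k (c - s' - j) := by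
    intro c
    refine Finset.sum_congr rfl fun j _ => ?_
    congr 1
    ring
  simp only [h3]
  have h4 : ∀ M : ℕ, ∑ i ∈ Finset.range (M + 1), ∑ j ∈ Finset.range (n + 1), k (s + i - 1 - s' - j) -
      ∑ i ∈ Finset.range (M + 1), ∑ j ∈ Finset.range (n + 1), k (s + i - s' - j) =
      ∑ j ∈ Finset.range (n + 1), k (s - 1 - s' - j) -
      ∑ j ∈ Finset.range (n + 1), k (s + M - s' - j) := by
    intro M
    induction M with
    | zero => simp
    | succ M ih =>
      rw [Finset.sum_range_succ _ (M + 1), Finset.sum_range_succ _ (M + 1)]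
      have h5 : s + ((M + 1 : ℕ) : ℤ) - 1 = s + M := by push_cast; ring
      rw [h5]
      linarith
  have h6 := TH_disc_step_JF_cmp k h1 h2 n (s - 1 - s') (s + m - s') (by omega) (by omega)
  have h7 := h4 m
  linarith

theorem TH_disc_step_JG_pair (a : Fin 3) (e f : Fin 3 → ℤ) (K : (Fin 3 → ℤ) → ℝ) (hK : KerOK K)
    (m n : ℕ) (p : ℤ) :
    ∑ i ∈ Finset.range (m + 1), ∑ j ∈ Finset.range (n + 1),
      K (Function.update e a (e a + i) - Function.update f a (f a + j)) ≤
    ∑ i ∈ Finset.range (m + 1), ∑ j ∈ Finset.range (n + 1),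
      K (Function.update e a (e a + i - (if 2 * p < 2 * e a + m then 1 else 0)) -
        Function.update f a (f a + j - (if 2 * p < 2 * f a + n then 1 else 0))) := by
  have hup : ∀ s t : ℤ, Function.update e a s - Function.update f a t =
      Function.update (e - f) a (s - t) := by
    intro s t
    funext b
    by_cases hb : b = a
    · subst hb; simp
    · simp [hb]
  simp only [hup]
  obtain ⟨k, hk⟩ : ∃ k : ℤ → ℝ, ∀ t, k t = K (Function.update (e - f) a t) := ⟨_, fun _ => rfl⟩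
  simp only [← hk]
  have hk1 : ∀ t, k (-t) = k t := by
    intro t
    rw [hk, hk]
    have h := hK.2.1 (Function.update (e - f) a t) a
    rw [Function.update_self, Function.update_idem] at h
    exact h
  have hk2 : ∀ t, 0 ≤ t → k (t + 1) ≤ k t := by
    intro t ht
    rw [hk, hk]
    have h := hK.2.2 (Function.update (e - f) a t) a (by rw [Function.update_self]; exact ht)
    rw [Function.update_self, Function.update_idem] at h
    exact h
  by_cases h1 : 2 * p < 2 * e a + m <;> by_cases h2 : 2 * p < 2 * f a + n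
  · simp only [if_pos h1, if_pos h2]
    apply le_of_eq
    refine Finset.sum_congr rfl fun i _ => Finset.sum_congr rfl fun j _ => ?_
    congr 1
    ring
  · simp only [if_pos h1, if_neg h2, sub_zero]
    exact TH_disc_step_line k hk1 hk2 (e a) (f a) m n (by linarith)
  · simp only [if_neg h1, if_pos h2, sub_zero]
    have h := TH_disc_step_line k hk1 hk2 (f a) (e a) n m (by linarith)
    rw [Finset.sum_comm, Finset.sum_comm (s := Finset.range (m + 1))]
    refine le_trans (le_of_eq ?_) (h.trans (le_of_eq ?_))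
    · refine Finset.sum_congr rfl fun i _ => Finset.sum_congr rfl fun j _ => ?_
      rw [← hk1]
      congr 1
      ring
    · refine Finset.sum_congr rfl fun i _ => Finset.sum_congr rfl fun j _ => ?_
      rw [← hk1]
      congr 1
      ring
  · simp only [if_neg h1, if_neg h2, sub_zero]
    exact le_rfl

theorem TH_disc_step_riesz (a : Fin 3) (p : ℤ) (A B : Finset (Fin 3 → ℤ)) (K : (Fin 3 → ℤ) → ℝ) (hK : KerOK K) :
    ∑ x ∈ A, ∑ y ∈ B, K (x - y) ≤ ∑ x ∈ TH_disc_step_Q a p A, ∑ y ∈ TH_disc_step_Q a p B, K (x - y) := by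
  unfold TH_disc_step_Q
  rw [Finset.sum_image (TH_disc_step_inj a p A)]
  have e1 : ∀ x, ∑ y ∈ B.image (TH_disc_step_tau a p B), K (x - y) =
      ∑ y ∈ B, K (x - TH_disc_step_tau a p B y) := fun x =>
    Finset.sum_image (TH_disc_step_inj a p B)
  simp only [e1]
  rw [TH_disc_step_runsum a A (fun x => ∑ y ∈ B, K (x - y)),
    TH_disc_step_runsum a A (fun x => ∑ y ∈ B,
      K (TH_disc_step_tau a p A x - TH_disc_step_tau a p B y))]
  refine Finset.sum_le_sum fun e he => ?_
  have e2 : ∀ i ∈ Finset.range (TH_disc_step_R a A e + 1),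
      ∑ y ∈ B, K (Function.update e a (e a + i) - y) =
      ∑ f ∈ TH_disc_step_E a B, ∑ j ∈ Finset.range (TH_disc_step_R a B f + 1),
        K (Function.update e a (e a + i) - Function.update f a (f a + j)) := fun i _ =>
    TH_disc_step_runsum a B (fun y => K (Function.update e a (e a + i) - y))
  have e3 : ∀ i ∈ Finset.range (TH_disc_step_R a A e + 1),
      ∑ y ∈ B, K (TH_disc_step_tau a p A (Function.update e a (e a + i)) -
        TH_disc_step_tau a p B y) =
      ∑ f ∈ TH_disc_step_E a B, ∑ j ∈ Finset.range (TH_disc_step_R a B f + 1),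
        K (Function.update e a (e a + i -
          (if 2 * p < 2 * e a + TH_disc_step_R a A e then 1 else 0)) -
          Function.update f a (f a + j -
          (if 2 * p < 2 * f a + TH_disc_step_R a B f then 1 else 0))) := by
    intro i hi
    rw [TH_disc_step_runsum a B (fun y => K (TH_disc_step_tau a p A
      (Function.update e a (e a + i)) - TH_disc_step_tau a p B y))]
    refine Finset.sum_congr rfl fun f hf => Finset.sum_congr rfl fun j hj => ?_
    rw [(TH_disc_step_taurun a p A e he i (Nat.lt_succ_iff.1 (Finset.mem_range.1 hi))).2,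
      (TH_disc_step_taurun a p B f hf j (Nat.lt_succ_iff.1 (Finset.mem_range.1 hj))).2]
  rw [Finset.sum_congr rfl e2, Finset.sum_congr rfl e3, Finset.sum_comm,
    Finset.sum_comm (s := Finset.range (TH_disc_step_R a A e + 1))]
  refine Finset.sum_le_sum fun f _ => ?_
  exact TH_disc_step_JG_pair a e f K hK _ _ p

theorem TH_disc_step_JH_mem (h : ℕ) (y x : Fin 3 → ℤ) :
    x ∈ box h y ↔ ∀ b, y b - (h : ℤ) ≤ x b ∧ x b ≤ y b + (h : ℤ) := by
  unfold box
  rw [Fintype.mem_piFinset]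
  exact forall_congr' fun b => Finset.mem_Icc

theorem TH_disc_step_JH_upd (a : Fin 3) (h : ℕ) (y x : Fin 3 → ℤ) (hx : x ∈ box h y) (v : ℤ) :
    Function.update x a v ∈ box h y ↔ (y a - (h : ℤ) ≤ v ∧ v ≤ y a + (h : ℤ)) := by
  rw [TH_disc_step_JH_mem] at hx ⊢
  constructor
  · intro H
    have := H a
    rwa [Function.update_self] at this
  · intro H b
    by_cases hb : b = a
    · subst hb
      rw [Function.update_self]
      exact H
    · rw [Function.update_of_ne hb]
      exact hx b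

theorem TH_disc_step_JH_R (a : Fin 3) (h : ℕ) (y x : Fin 3 → ℤ) (hx : x ∈ box h y) :
    (TH_disc_step_R a (box h y) x : ℤ) = y a + (h : ℤ) - x a := by
  have hxa := (TH_disc_step_JH_mem h y x).1 hx a
  have hS : {n : ℕ | Function.update x a (x a + (n + 1)) ∉ box h y} =
      Set.Ici (y a + (h : ℤ) - x a).toNat := by
    ext n
    rw [Set.mem_setOf_eq, TH_disc_step_JH_upd a h y x hx, Set.mem_Ici]
    constructor
    · intro H
      omega
    · intro H
      omega
  unfold TH_disc_step_R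
  rw [hS, csInf_Ici]
  omega

theorem TH_disc_step_JH_L (a : Fin 3) (h : ℕ) (y x : Fin 3 → ℤ) (hx : x ∈ box h y) :
    (TH_disc_step_L a (box h y) x : ℤ) = x a - (y a - (h : ℤ)) := by
  have hxa := (TH_disc_step_JH_mem h y x).1 hx a
  have hS : {n : ℕ | Function.update x a (x a - (n + 1)) ∉ box h y} =
      Set.Ici (x a - (y a - (h : ℤ))).toNat := by
    ext n
    rw [Set.mem_setOf_eq, TH_disc_step_JH_upd a h y x hx, Set.mem_Ici]
    constructor
    · intro H
      omega
    · intro H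
      omega
  unfold TH_disc_step_L
  rw [hS, csInf_Ici]
  omega

theorem TH_disc_step_JH_tau (a : Fin 3) (p : ℤ) (h : ℕ) (y x : Fin 3 → ℤ) (hx : x ∈ box h y) :
    TH_disc_step_tau a p (box h y) x =
      if p < y a then Function.update x a (x a - 1) else x := by
  unfold TH_disc_step_tau
  rw [TH_disc_step_JH_R a h y x hx, TH_disc_step_JH_L a h y x hx]
  by_cases hp : p < y a
  · rw [if_pos hp, if_pos (by omega)]
  · rw [if_neg hp, if_neg (by omega)]

theorem TH_disc_step_box (a : Fin 3) (p : ℤ) (h : ℕ) (y : Fin 3 → ℤ) :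
    TH_disc_step_Q a p (box h y) = box h (if p < y a then Function.update y a (y a - 1) else y) := by
  unfold TH_disc_step_Q
  by_cases hp : p < y a
  · rw [if_pos hp]
    ext z
    rw [Finset.mem_image]
    constructor
    · rintro ⟨x, hx, rfl⟩
      rw [TH_disc_step_JH_tau a p h y x hx, if_pos hp, TH_disc_step_JH_mem]
      rw [TH_disc_step_JH_mem] at hx
      intro b
      by_cases hb : b = a
      · subst hb
        rw [Function.update_self, Function.update_self]
        have := hx b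
        omega
      · rw [Function.update_of_ne hb, Function.update_of_ne hb]
        exact hx b
    · intro hz
      rw [TH_disc_step_JH_mem] at hz
      have hx : Function.update z a (z a + 1) ∈ box h y := by
        rw [TH_disc_step_JH_mem]
        intro b
        by_cases hb : b = a
        · subst hb
          have := hz b
          rw [Function.update_self] at this
          rw [Function.update_self]
          omega
        · have := hz b
          rw [Function.update_of_ne hb] at this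
          rw [Function.update_of_ne hb]
          exact this
      refine ⟨Function.update z a (z a + 1), hx, ?_⟩
      rw [TH_disc_step_JH_tau a p h y _ hx, if_pos hp, Function.update_self, Function.update_idem]
      have : z a + 1 - 1 = z a := by ring
      rw [this, Function.update_eq_self]
  · rw [if_neg hp]
    ext z
    rw [Finset.mem_image]
    constructor
    · rintro ⟨x, hx, rfl⟩
      rw [TH_disc_step_JH_tau a p h y x hx, if_neg hp]
      exact hx
    · intro hz
      exact ⟨z, hz, by rw [TH_disc_step_JH_tau a p h y z hz, if_neg hp]⟩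

theorem TH_disc_step_layers (u : (Fin 3 → ℤ) →₀ ℝ) (hu : ∀ x, 0 ≤ u x) :
    ∃ (n : ℕ) (δ : ℕ → ℝ) (A : ℕ → Finset (Fin 3 → ℤ)), Antitone A ∧ (∀ k, A k ⊆ u.support) ∧
      (∀ k, 0 ≤ δ k) ∧ ∀ x, u x = ∑ k ∈ Finset.range n, δ k * (if x ∈ A k then 1 else 0) := by
  induction' hN : u.support.card using Nat.strong_induction_on with N ih generalizing u
  by_cases hS : u.support = ∅
  · refine ⟨0, fun _ => 0, fun _ => ∅, antitone_const, fun _ => Finset.empty_subset _, fun _ => le_rfl, ?_⟩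
    intro x
    have h1 : x ∉ u.support := by rw [hS]; simp
    simpa using h1
  · have hne : u.support.Nonempty := Finset.nonempty_iff_ne_empty.mpr hS
    obtain ⟨x0, hx0, hmin⟩ := Finset.exists_min_image u.support (fun x => u x) hne
    have htpos : 0 < u x0 := lt_of_le_of_ne (hu x0) (Ne.symm (Finsupp.mem_support_iff.mp hx0))
    obtain ⟨u1, hu1⟩ : ∃ u1 : (Fin 3 → ℤ) →₀ ℝ, ∀ x, u1 x = if x ∈ u.support then u x - u x0 else 0 := by
      refine ⟨Finsupp.onFinset u.support (fun x => if x ∈ u.support then u x - u x0 else 0) ?_, ?_⟩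
      · intro x hx
        by_contra h
        exact hx (by simp only [if_neg h])
      · intro x
        rfl
    have hu1n : ∀ x, 0 ≤ u1 x := by
      intro x
      rw [hu1]
      split_ifs with h
      · have := hmin x h
        linarith
      · exact le_rfl
    have hsub : u1.support ⊆ u.support.erase x0 := by
      intro x hx
      rw [Finsupp.mem_support_iff, hu1] at hx
      by_cases h : x ∈ u.support
      · rw [if_pos h] at hx
        refine Finset.mem_erase.mpr ⟨?_, h⟩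
        rintro rfl
        exact hx (sub_self _)
      · rw [if_neg h] at hx
        exact absurd rfl hx
    have hcard : u1.support.card < N := by
      rw [← hN]
      exact lt_of_le_of_lt (Finset.card_le_card hsub) (Finset.card_erase_lt_of_mem hx0)
    obtain ⟨n, δ, A, hA, hAs, hδ, hsum⟩ := ih _ hcard u1 hu1n rfl
    refine ⟨n + 1, fun k => match k with | 0 => u x0 | k + 1 => δ k,
      fun k => match k with | 0 => u.support | k + 1 => A k, ?_, ?_, ?_, ?_⟩
    · refine antitone_nat_of_succ_le ?_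
      intro k
      cases k with
      | zero => exact ((hAs 0).trans hsub).trans (Finset.erase_subset _ _)
      | succ k => exact hA (Nat.le_succ k)
    · intro k
      cases k with
      | zero => exact Finset.Subset.refl _
      | succ k => exact ((hAs k).trans hsub).trans (Finset.erase_subset _ _)
    · intro k
      cases k with
      | zero => exact htpos.le
      | succ k => exact hδ k
    · intro x
      rw [Finset.sum_range_succ']
      have h2 := hsum x
      rw [hu1] at h2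
      show u x = (∑ k ∈ Finset.range n, δ k * (if x ∈ A k then 1 else 0)) + u x0 * (if x ∈ u.support then 1 else 0)
      rw [← h2]
      by_cases h : x ∈ u.support
      · rw [if_pos h, if_pos h]; ring
      · rw [if_neg h, if_neg h]
        have := Finsupp.notMem_support_iff.mp h
        rw [this]; ring

theorem TH_disc_step_abel (F : ℝ → ℝ) (hF : F 0 = 0) (δ : ℕ → ℝ) (A : ℕ → Finset (Fin 3 → ℤ))
    (hA : Antitone A) (x : Fin 3 → ℤ) (n : ℕ) :
    F (∑ k ∈ Finset.range n, δ k * (if x ∈ A k then 1 else 0)) =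
      ∑ k ∈ Finset.range n, (if x ∈ A k then 1 else 0) *
        (F (∑ j ∈ Finset.range (k + 1), δ j) - F (∑ j ∈ Finset.range k, δ j)) := by
  induction n with
  | zero => simpa using hF
  | succ n ih =>
    by_cases h : x ∈ A n
    · have h1 : ∀ k ∈ Finset.range (n + 1), δ k * (if x ∈ A k then 1 else 0) = δ k := by
        intro k hk
        rw [if_pos (hA (Nat.lt_succ_iff.mp (Finset.mem_range.mp hk)) h), mul_one]
      have h2 : ∀ k ∈ Finset.range (n + 1), (if x ∈ A k then (1:ℝ) else 0) *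
        (F (∑ j ∈ Finset.range (k + 1), δ j) - F (∑ j ∈ Finset.range k, δ j)) =
        (F (∑ j ∈ Finset.range (k + 1), δ j) - F (∑ j ∈ Finset.range k, δ j)) := by
        intro k hk
        rw [if_pos (hA (Nat.lt_succ_iff.mp (Finset.mem_range.mp hk)) h), one_mul]
      rw [Finset.sum_congr rfl h1, Finset.sum_congr rfl h2,
        Finset.sum_range_sub (fun k => F (∑ j ∈ Finset.range k, δ j))]
      simp [hF]
    · rw [Finset.sum_range_succ, Finset.sum_range_succ, if_neg h, mul_zero, add_zero, zero_mul, add_zero, ih]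

theorem TH_disc_step_equi (F : ℝ → ℝ) (hF : F 0 = 0) (δ : ℕ → ℝ) (A : ℕ → Finset (Fin 3 → ℤ))
    (hA : Antitone A) (n : ℕ) (u : (Fin 3 → ℤ) →₀ ℝ)
    (hu : ∀ x, u x = ∑ k ∈ Finset.range n, δ k * (if x ∈ A k then 1 else 0)) :
    ∑ x ∈ u.support, F (u x) = ∑ k ∈ Finset.range n, ((A k).card : ℝ) *
        (F (∑ j ∈ Finset.range (k + 1), δ j) - F (∑ j ∈ Finset.range k, δ j)) := by
  have h1 : ∑ x ∈ u.support, F (u x) = ∑ x ∈ u.support ∪ A 0, F (u x) := by
    refine Finset.sum_subset Finset.subset_union_left ?_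
    intro x _ hx
    rw [Finsupp.notMem_support_iff.mp hx, hF]
  rw [h1]
  have h2 : ∀ x ∈ u.support ∪ A 0, F (u x) = ∑ k ∈ Finset.range n, (if x ∈ A k then 1 else 0) *
        (F (∑ j ∈ Finset.range (k + 1), δ j) - F (∑ j ∈ Finset.range k, δ j)) := by
    intro x _
    rw [hu, TH_disc_step_abel F hF δ A hA x n]
  rw [Finset.sum_congr rfl h2, Finset.sum_comm]
  refine Finset.sum_congr rfl ?_
  intro k _
  rw [← Finset.sum_mul]
  congr 1
  rw [Finset.sum_ite_mem, Finset.inter_eq_right.mpr ((hA (Nat.zero_le k)).trans Finset.subset_union_right)]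
  simp

theorem TH_disc_step_lin (g : (Fin 3 → ℤ) → ℝ) (δ : ℕ → ℝ) (A : ℕ → Finset (Fin 3 → ℤ))
    (hA : Antitone A) (n : ℕ) (u : (Fin 3 → ℤ) →₀ ℝ)
    (hu : ∀ x, u x = ∑ k ∈ Finset.range n, δ k * (if x ∈ A k then 1 else 0)) :
    ∑ x ∈ u.support, u x * g x = ∑ k ∈ Finset.range n, δ k * ∑ x ∈ A k, g x := by
  have h1 : ∑ x ∈ u.support, u x * g x = ∑ x ∈ u.support ∪ A 0, u x * g x := by
    refine Finset.sum_subset Finset.subset_union_left ?_
    intro x _ hx
    rw [Finsupp.notMem_support_iff.mp hx, zero_mul]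
  rw [h1]
  have h2 : ∀ x ∈ u.support ∪ A 0, u x * g x = ∑ k ∈ Finset.range n, δ k * (if x ∈ A k then g x else 0) := by
    intro x _
    rw [hu, Finset.sum_mul]
    refine Finset.sum_congr rfl ?_
    intro k _
    split_ifs <;> ring
  rw [Finset.sum_congr rfl h2, Finset.sum_comm]
  refine Finset.sum_congr rfl ?_
  intro k _
  rw [← Finset.mul_sum]
  congr 1
  rw [Finset.sum_ite_mem, Finset.inter_eq_right.mpr ((hA (Nat.zero_le k)).trans Finset.subset_union_right)]

theorem disc_step (a : Fin 3) (p : ℤ) (u : (Fin 3 → ℤ) →₀ ℝ) (hu : ∀ x, 0 ≤ u x) :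
    ∃ u' : (Fin 3 → ℤ) →₀ ℝ,
      Dom Set.univ (fun y => if p < y a then Function.update y a (y a - 1) else y) u u' := by
  obtain ⟨n, δ, A, hA, hAs, hδ, hsum⟩ := TH_disc_step_layers u hu
  have hB : Antitone (fun k => TH_disc_step_Q a p (A k)) := fun i j hij => TH_disc_step_mono a p _ _ (hA hij)
  obtain ⟨u', hu'⟩ : ∃ u' : (Fin 3 → ℤ) →₀ ℝ, ∀ x, u' x = ∑ k ∈ Finset.range n, δ k * (if x ∈ TH_disc_step_Q a p (A k) then 1 else 0) := by
    refine ⟨Finsupp.onFinset (TH_disc_step_Q a p (A 0)) (fun x => ∑ k ∈ Finset.range n, δ k * (if x ∈ TH_disc_step_Q a p (A k) then 1 else 0)) ?_, fun x => rfl⟩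
    intro x hx
    by_contra h
    apply hx
    refine Finset.sum_eq_zero ?_
    intro k _
    have h3 : x ∉ TH_disc_step_Q a p (A k) := fun h4 => h (hB (Nat.zero_le k) h4)
    rw [if_neg h3, mul_zero]
  have hcard : ∀ k, (TH_disc_step_Q a p (A k)).card = (A k).card := fun k =>
    Finset.card_image_of_injOn (TH_disc_step_inj a p (A k))
  refine ⟨u', ?_, ?_, ?_, ?_⟩
  · intro x
    rw [hu']
    refine Finset.sum_nonneg ?_
    intro k _
    refine mul_nonneg (hδ k) ?_
    split_ifs <;> norm_num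
  · intro F hF
    rw [TH_disc_step_equi F hF δ A hA n u hsum, TH_disc_step_equi F hF δ _ hB n u' hu']
    refine Finset.sum_congr rfl ?_
    intro k _
    rw [hcard]
  · intro K hK
    have e1 : ∀ v : (Fin 3 → ℤ) →₀ ℝ, ∑ x ∈ v.support, ∑ y ∈ v.support, v x * v y * K (x - y) =
        ∑ x ∈ v.support, v x * ∑ y ∈ v.support, v y * K (x - y) := by
      intro v
      refine Finset.sum_congr rfl ?_
      intro x _
      rw [Finset.mul_sum]
      refine Finset.sum_congr rfl ?_
      intro y _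
      ring
    rw [e1, e1, TH_disc_step_lin _ δ A hA n u hsum, TH_disc_step_lin _ δ _ hB n u' hu']
    refine Finset.sum_le_sum ?_
    intro k _
    refine mul_le_mul_of_nonneg_left ?_ (hδ k)
    have e2 : ∀ x, ∑ y ∈ u.support, u y * K (x - y) = ∑ l ∈ Finset.range n, δ l * ∑ y ∈ A l, K (x - y) := fun x =>
      TH_disc_step_lin (fun y => K (x - y)) δ A hA n u hsum
    have e3 : ∀ x, ∑ y ∈ u'.support, u' y * K (x - y) = ∑ l ∈ Finset.range n, δ l * ∑ y ∈ TH_disc_step_Q a p (A l), K (x - y) := fun x =>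
      TH_disc_step_lin (fun y => K (x - y)) δ _ hB n u' hu'
    simp only [e2, e3]
    rw [Finset.sum_comm, Finset.sum_comm (s := TH_disc_step_Q a p (A k))]
    refine Finset.sum_le_sum ?_
    intro l _
    rw [← Finset.mul_sum, ← Finset.mul_sum]
    exact mul_le_mul_of_nonneg_left (TH_disc_step_riesz a p (A k) (A l) K hK) (hδ l)
  · intro K hK h y _
    have e1 : ∀ (v : (Fin 3 → ℤ) →₀ ℝ) (B : Finset (Fin 3 → ℤ)), ∑ x ∈ v.support, ∑ w ∈ B, v x * K (x - w) =
        ∑ x ∈ v.support, v x * ∑ w ∈ B, K (x - w) := by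
      intro v B
      refine Finset.sum_congr rfl ?_
      intro x _
      rw [Finset.mul_sum]
    rw [e1, e1, TH_disc_step_lin _ δ A hA n u hsum, TH_disc_step_lin _ δ _ hB n u' hu']
    refine Finset.sum_le_sum ?_
    intro k _
    refine mul_le_mul_of_nonneg_left ?_ (hδ k)
    have := TH_disc_step_riesz a p (A k) (box h y) K hK
    rw [TH_disc_step_box] at this
    exact this
end


/-! ### disc_chain -/
section
-- ===== given lemmas (leave as they are, do not prove) =====


-- ===== TARGET =====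
theorem TH_disc_chain_comp {A B : Set (Fin 3 → ℤ)} {m m1 : (Fin 3 → ℤ) → (Fin 3 → ℤ)}
    {u u1 u2 : (Fin 3 → ℤ) →₀ ℝ} (h1 : Dom A m u u1) (h2 : Dom B m1 u1 u2)
    (hm : ∀ y ∈ A, m y ∈ B) : Dom A (fun y => m1 (m y)) u u2 := by
  obtain ⟨_, b1, c1, d1⟩ := h1
  obtain ⟨a2, b2, c2, d2⟩ := h2
  refine ⟨a2, fun F hF => (b2 F hF).trans (b1 F hF), fun K hK => (c1 K hK).trans (c2 K hK), ?_⟩
  intro K hK h y hy
  exact (d1 K hK h y hy).trans (d2 K hK h (m y) (hm y hy))

theorem TH_disc_chain_congr {A B : Set (Fin 3 → ℤ)} {m m' : (Fin 3 → ℤ) → (Fin 3 → ℤ)}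
    {u u1 : (Fin 3 → ℤ) →₀ ℝ} (h1 : Dom A m u u1) (hBA : B ⊆ A)
    (hm : ∀ y ∈ B, m y = m' y) : Dom B m' u u1 := by
  obtain ⟨a1, b1, c1, d1⟩ := h1
  refine ⟨a1, b1, c1, ?_⟩
  intro K hK h y hy
  have h2 := d1 K hK h y (hBA hy)
  rw [hm y hy] at h2
  exact h2

theorem TH_disc_chain_trans (a : Fin 3) (t : ℤ) (u : (Fin 3 → ℤ) →₀ ℝ) (hu : ∀ x, 0 ≤ u x) :
    ∃ u' : (Fin 3 → ℤ) →₀ ℝ, Dom Set.univ (fun y => Function.update y a (y a + t)) u u' := by
  obtain ⟨E, hE⟩ : ∃ E : (Fin 3 → ℤ) ≃ (Fin 3 → ℤ), E = Equiv.addRight (Pi.single a t) := ⟨_, rfl⟩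
  have hEa : ∀ x, E x = x + Pi.single a t := by intro x; rw [hE]; rfl
  have hEs : ∀ x, E.symm x = x - Pi.single a t := by
    intro x
    rw [Equiv.symm_apply_eq, hEa]
    simp
  have hsub : ∀ x y, E x - E y = x - y := by
    intro x y
    rw [hEa, hEa]
    exact add_sub_add_right_eq_sub _ _ _
  have hsupp : (Finsupp.equivMapDomain E u).support = u.support.map E.toEmbedding := rfl
  have happ : ∀ x, (Finsupp.equivMapDomain E u) (E x) = u x := by
    intro x
    rw [Finsupp.equivMapDomain_apply, Equiv.symm_apply_apply]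
  have hbox : ∀ (h : ℕ) (y : Fin 3 → ℤ),
      box h (Function.update y a (y a + t)) = (box h y).map E.toEmbedding := by
    intro h y
    ext w
    rw [Finset.mem_map_equiv, hEs]
    unfold box
    rw [Fintype.mem_piFinset, Fintype.mem_piFinset]
    refine forall_congr' (fun b => ?_)
    rw [Finset.mem_Icc, Finset.mem_Icc, Pi.sub_apply]
    by_cases hb : b = a
    · subst hb
      rw [Function.update_self, Pi.single_eq_same]
      constructor <;> intro hh <;> constructor <;> omega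
    · rw [Function.update_of_ne hb, Pi.single_eq_of_ne hb, sub_zero]
  refine ⟨Finsupp.equivMapDomain E u, ?_, ?_, ?_, ?_⟩
  · intro x
    rw [Finsupp.equivMapDomain_apply]
    exact hu _
  · intro F _
    rw [hsupp, Finset.sum_map]
    exact Finset.sum_congr rfl (fun x _ => by
      rw [Equiv.coe_toEmbedding, happ])
  · intro K _
    rw [hsupp, Finset.sum_map]
    refine le_of_eq (Finset.sum_congr rfl (fun x _ => ?_))
    rw [Finset.sum_map]
    refine Finset.sum_congr rfl (fun y _ => ?_)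
    rw [Equiv.coe_toEmbedding, happ, happ, hsub]
  · intro K _ h y _
    rw [hsupp, Finset.sum_map]
    refine le_of_eq (Finset.sum_congr rfl (fun x _ => ?_))
    simp only [hbox]
    rw [Finset.sum_map]
    refine Finset.sum_congr rfl (fun w _ => ?_)
    rw [Equiv.coe_toEmbedding, happ, hsub]

theorem TH_disc_chain_ind (a : Fin 3) (L : ℤ) (N : ℕ) : ∀ (c : ℤ → ℤ)
    (_ : ∀ s, c s ≤ c (s + 1) ∧ c (s + 1) ≤ c s + 1)
    (u : (Fin 3 → ℤ) →₀ ℝ) (_ : ∀ x, 0 ≤ u x),
    ∃ u' : (Fin 3 → ℤ) →₀ ℝ,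
      Dom {y | L ≤ y a ∧ y a ≤ L + (N : ℤ)} (fun y => Function.update y a (c (y a))) u u' := by
  induction N with
  | zero =>
    intro c hc u hu
    obtain ⟨u', h⟩ := TH_disc_chain_trans a (c L - L) u hu
    refine ⟨u', TH_disc_chain_congr h (Set.subset_univ _) ?_⟩
    intro y hy
    have hy' : L ≤ y a ∧ y a ≤ L + ((0 : ℕ) : ℤ) := hy
    have e : y a = L := by
      have h2 := hy'.2
      simp at h2
      omega
    show Function.update y a (y a + (c L - L)) = Function.update y a (c (y a))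
    rw [e]
    congr 1
    ring
  | succ M ih =>
    intro c hc u hu
    by_cases hd : ∃ q, L ≤ q ∧ q < L + ((M + 1 : ℕ) : ℤ) ∧ c (q + 1) = c q
    · obtain ⟨q, hq1, hq2, hq3⟩ := hd
      obtain ⟨u1, hu1⟩ := disc_step a q u hu
      obtain ⟨u2, hu2⟩ := ih (fun s => if s ≤ q then c s else c (s + 1)) (by
        intro s
        by_cases h1 : s ≤ q
        · by_cases h2 : s + 1 ≤ q
          · simp only [h1, h2, if_true]
            exact hc s
          · have h3 : s = q := by omega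
            subst h3
            have h4 := hc (s + 1)
            rw [hq3] at h4
            simp only [le_refl, if_true, h2, if_false]
            exact h4
        · have h2 : ¬ (s + 1 ≤ q) := by omega
          simp only [h1, h2, if_false]
          exact hc (s + 1)) u1 hu1.1
      refine ⟨u2, TH_disc_chain_congr (A := {y | L ≤ y a ∧ y a ≤ L + ((M + 1 : ℕ) : ℤ)})
        (TH_disc_chain_comp (TH_disc_chain_congr hu1 (Set.subset_univ _) (fun _ _ => rfl)) hu2 ?_)
        (le_refl _) ?_⟩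
      · intro y hy
        have hy' : L ≤ y a ∧ y a ≤ L + ((M + 1 : ℕ) : ℤ) := hy
        obtain ⟨y1, y2⟩ := hy'
        push_cast at y2 hq2
        by_cases h1 : q < y a
        · simp only [h1, if_true, Set.mem_setOf_eq, Function.update_self]
          constructor <;> omega
        · simp only [h1, if_false, Set.mem_setOf_eq]
          constructor <;> omega
      · intro y hy
        by_cases h1 : q < y a
        · simp only [h1, if_true, Function.update_self, Function.update_idem]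
          by_cases h2 : y a - 1 ≤ q
          · have h3 : y a = q + 1 := by omega
            rw [if_pos h2, h3, hq3]
            congr 2
            ring
          · rw [if_neg h2]
            congr 2
            ring
        · have h2 : y a ≤ q := by omega
          simp only [h1, if_false, h2, if_true]
    · push Not at hd
      obtain ⟨u', h⟩ := TH_disc_chain_trans a (c L - L) u hu
      refine ⟨u', TH_disc_chain_congr h (Set.subset_univ _) ?_⟩
      intro y hy
      have hy' : L ≤ y a ∧ y a ≤ L + ((M + 1 : ℕ) : ℤ) := hy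
      have key : ∀ j : ℕ, (j : ℤ) ≤ ((M + 1 : ℕ) : ℤ) → c (L + j) = c L + j := by
        intro j
        induction j with
        | zero => intro _; simp
        | succ j ihj =>
          intro hj
          push_cast at hj
          have h1 := ihj (by push_cast; omega)
          have h2 := hd (L + j) (by omega) (by push_cast; omega)
          have h3 := hc (L + j)
          have h4 : L + ((j + 1 : ℕ) : ℤ) = L + j + 1 := by push_cast; ring
          rw [h4]
          push_cast
          omega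
      have hk := key (y a - L).toNat (by
        have := hy'.1
        have := hy'.2
        omega)
      have e : ((y a - L).toNat : ℤ) = y a - L := Int.toNat_of_nonneg (by have := hy'.1; omega)
      rw [e] at hk
      have e2 : L + (y a - L) = y a := by ring
      rw [e2] at hk
      show Function.update y a (y a + (c L - L)) = Function.update y a (c (y a))
      rw [hk]
      congr 1
      ring

theorem disc_chain (a : Fin 3) (W : ℕ) (c : ℤ → ℤ) (hc : ∀ s, c s ≤ c (s + 1) ∧ c (s + 1) ≤ c s + 1)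
    (u : (Fin 3 → ℤ) →₀ ℝ) (hu : ∀ x, 0 ≤ u x) :
    ∃ u' : (Fin 3 → ℤ) →₀ ℝ,
      Dom {y | |y a| ≤ (W : ℤ)} (fun y => Function.update y a (c (y a))) u u' := by
  obtain ⟨u', h⟩ := TH_disc_chain_ind a (-(W : ℤ)) (2 * W) c hc u hu
  refine ⟨u', TH_disc_chain_congr h ?_ (fun _ _ => rfl)⟩
  intro y hy
  have hy' : |y a| ≤ (W : ℤ) := hy
  have h2 := abs_le.mp hy'
  show -(W : ℤ) ≤ y a ∧ y a ≤ -(W : ℤ) + ((2 * W : ℕ) : ℤ)
  push_cast
  constructor <;> omega
end


/-! ### disc_all -/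
section
-- ===== given lemmas (leave as they are, do not prove) =====


-- ===== TARGET =====
theorem disc_all (W : ℕ) (c : ℤ → ℤ) (hc : ∀ s, c s ≤ c (s + 1) ∧ c (s + 1) ≤ c s + 1)
    (u : (Fin 3 → ℤ) →₀ ℝ) (hu : ∀ x, 0 ≤ u x) :
    ∃ u' : (Fin 3 → ℤ) →₀ ℝ, Dom {y | ∀ b, |y b| ≤ (W : ℤ)} (fun y b => c (y b)) u u' := by
  obtain ⟨u1, h11, h12, h13, h14⟩ := disc_chain 0 W c hc u hu
  obtain ⟨u2, h21, h22, h23, h24⟩ := disc_chain 1 W c hc u1 h11
  obtain ⟨u3, h31, h32, h33, h34⟩ := disc_chain 2 W c hc u2 h21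
  refine ⟨u3, h31, ?_, ?_, ?_⟩
  · intro F hF
    rw [h32 F hF, h22 F hF, h12 F hF]
  · intro K hK
    exact (h13 K hK).trans ((h23 K hK).trans (h33 K hK))
  · intro K hK h y hy
    have hy' : ∀ b, |y b| ≤ (W : ℤ) := hy
    have e1 := h14 K hK h y (hy' 0)
    have e2 := h24 K hK h (Function.update y 0 (c (y 0))) (by
      show |Function.update y 0 (c (y 0)) 1| ≤ (W : ℤ)
      rw [Function.update_of_ne (by decide)]
      exact hy' 1)
    have e3 := h34 K hK h (Function.update (Function.update y 0 (c (y 0))) 1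
        (c (Function.update y 0 (c (y 0)) 1))) (by
      show |Function.update (Function.update y 0 (c (y 0))) 1
        (c (Function.update y 0 (c (y 0)) 1)) 2| ≤ (W : ℤ)
      rw [Function.update_of_ne (by decide), Function.update_of_ne (by decide)]
      exact hy' 2)
    have hfin : (Function.update (Function.update (Function.update y 0 (c (y 0))) 1
        (c (Function.update y 0 (c (y 0)) 1))) 2 (c ((Function.update (Function.update y 0 (c (y 0))) 1
        (c (Function.update y 0 (c (y 0)) 1))) 2))) = fun b => c (y b) := by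
      funext b
      fin_cases b <;> simp [Function.update]
    simp only [hfin] at e3
    exact e1.trans (e2.trans e3)
end


/-! ### yuk_basic -/
section
-- ===== given lemmas (leave as they are, do not prove) =====


namespace TH_yuk_basic_sph

/-- Euclidean 3-space -/
abbrev E := EuclideanSpace ℝ (Fin 3)

/-- (helper) half-plane polar map -/
noncomputable def TT (p : ℝ × ℝ) : ℝ × ℝ := (p.1 * p.2, p.1 * √(1 - p.2 ^ 2))

/-- (helper) its derivative -/
noncomputable def TTd (p : ℝ × ℝ) : ℝ × ℝ →L[ℝ] ℝ × ℝ :=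
  (Matrix.toLin (.finTwoProd ℝ) (.finTwoProd ℝ)
    !![p.2, p.1; √(1 - p.2 ^ 2), p.1 * (-p.2 / √(1 - p.2 ^ 2))]).toContinuousLinearMap

theorem hasFDerivAt_TT (p : ℝ × ℝ) (hp : p.2 ∈ Ioo (-1 : ℝ) 1) :
    HasFDerivAt TT (TTd p) p := by
  unfold TTd
  rw [Matrix.toLin_finTwoProd_toContinuousLinearMap]
  have hpos : 0 < 1 - p.2 ^ 2 := by nlinarith [hp.1, hp.2]
  have hs : HasDerivAt (fun c : ℝ => √(1 - c ^ 2)) (-p.2 / √(1 - p.2 ^ 2)) p.2 := by
    have h1 : HasDerivAt (fun c : ℝ => 1 - c ^ 2) (-(2 * p.2)) p.2 := by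
      simpa using ((hasDerivAt_pow 2 p.2).const_sub 1)
    have h2 := h1.sqrt hpos.ne'
    have hsne : √(1 - p.2 ^ 2) ≠ 0 := (Real.sqrt_pos.mpr hpos).ne'
    convert h2 using 1
    field_simp
  convert!
    HasFDerivAt.prodMk (𝕜 := ℝ)
      ((hasFDerivAt_fst (𝕜 := ℝ) (E := ℝ) (F := ℝ) (p := p)).mul (hasFDerivAt_snd (𝕜 := ℝ) (E := ℝ) (F := ℝ) (p := p)))
      (hasFDerivAt_fst.mul (hs.comp_hasFDerivAt p hasFDerivAt_snd)) using
    2 <;>
  simp [smul_smul, add_comm, neg_mul, smul_neg, neg_smul _ (ContinuousLinearMap.snd ℝ ℝ ℝ)]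

theorem det_TTd (p : ℝ × ℝ) (hp : p.2 ∈ Ioo (-1 : ℝ) 1) :
    (TTd p).det = -(p.1 / √(1 - p.2 ^ 2)) := by
  have hpos : 0 < 1 - p.2 ^ 2 := by nlinarith [hp.1, hp.2]
  have hsne : √(1 - p.2 ^ 2) ≠ 0 := (Real.sqrt_pos.mpr hpos).ne'
  have hsq : √(1 - p.2 ^ 2) ^ 2 = 1 - p.2 ^ 2 := Real.sq_sqrt hpos.le
  unfold TTd
  simp only [LinearMap.det_toContinuousLinearMap, LinearMap.det_toLin,
    Matrix.det_fin_two_of]
  field_simp
  rw [hsq]
  ring

theorem TT_inj : InjOn TT (Ioi (0 : ℝ) ×ˢ Ioo (-1 : ℝ) 1) := by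
  rintro ⟨r, c⟩ ⟨hr, hc⟩ ⟨r', c'⟩ ⟨hr', hc'⟩ h
  simp only [TT, Prod.mk.injEq] at h
  simp only [mem_Ioi, mem_Ioo] at hr hc hr' hc'
  obtain ⟨h1, h2⟩ := h
  have hsq : √(1 - c ^ 2) ^ 2 = 1 - c ^ 2 := Real.sq_sqrt (by nlinarith)
  have hsq' : √(1 - c' ^ 2) ^ 2 = 1 - c' ^ 2 := Real.sq_sqrt (by nlinarith)
  have e : r ^ 2 = r' ^ 2 := by
    have e1 : (r * c) ^ 2 + (r * √(1 - c ^ 2)) ^ 2 = r ^ 2 := by
      rw [mul_pow, mul_pow, hsq]; ring
    have e2 : (r' * c') ^ 2 + (r' * √(1 - c' ^ 2)) ^ 2 = r' ^ 2 := by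
      rw [mul_pow, mul_pow, hsq']; ring
    rw [← e1, ← e2, h1, h2]
  have er : r = r' := by
    exact (sq_eq_sq₀ hr.le hr'.le).mp e
  subst er
  have : c = c' := mul_left_cancel₀ hr.ne' h1
  rw [this]

theorem TT_image : TT '' (Ioi (0 : ℝ) ×ˢ Ioo (-1 : ℝ) 1) = univ ×ˢ Ioi (0 : ℝ) := by
  ext ⟨z, ρ⟩
  simp only [mem_image, mem_prod, mem_Ioi, mem_Ioo, mem_univ, true_and, Prod.exists, TT,
    Prod.mk.injEq]
  constructor
  · rintro ⟨r, c, ⟨hr, hc1, hc2⟩, -, h2⟩
    rw [← h2]
    exact mul_pos hr (Real.sqrt_pos.mpr (by nlinarith))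
  · intro hρ
    have hpos : 0 < z ^ 2 + ρ ^ 2 := by positivity
    have hr : 0 < √(z ^ 2 + ρ ^ 2) := Real.sqrt_pos.mpr hpos
    have hsq : √(z ^ 2 + ρ ^ 2) ^ 2 = z ^ 2 + ρ ^ 2 := Real.sq_sqrt hpos.le
    have hlt : |z| < √(z ^ 2 + ρ ^ 2) := by
      apply Real.lt_sqrt_of_sq_lt
      rw [sq_abs]
      nlinarith
    refine ⟨√(z ^ 2 + ρ ^ 2), z / √(z ^ 2 + ρ ^ 2), ⟨hr, ?_, ?_⟩, ?_, ?_⟩
    · rw [lt_div_iff₀ hr]
      linarith [(abs_lt.mp hlt).1]
    · rw [div_lt_one hr]
      exact (abs_lt.mp hlt).2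
    · field_simp
    · have e : 1 - (z / √(z ^ 2 + ρ ^ 2)) ^ 2 = (ρ / √(z ^ 2 + ρ ^ 2)) ^ 2 := by
        rw [div_pow, div_pow, hsq]
        field_simp
        ring
      rw [e, Real.sqrt_sq (by positivity)]
      field_simp

theorem cart (w e1 e2 : E) (hw : ‖w‖ = 1) (h1 : ‖e1‖ = 1) (h2 : ‖e2‖ = 1)
    (hw1 : inner ℝ w e1 = 0) (hw2 : inner ℝ w e2 = 0) (h12 : inner ℝ e1 e2 = 0)
    (F : E → ENNReal) (hF : Measurable F) :
    ∫⁻ x, F x = ∫⁻ z : ℝ, ∫⁻ q : ℝ × ℝ, F (z • w + (q.1 • e1 + q.2 • e2)) := by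
  have hw1' : inner ℝ e1 w = 0 := by rw [real_inner_comm]; exact hw1
  have hw2' : inner ℝ e2 w = 0 := by rw [real_inner_comm]; exact hw2
  have h12' : inner ℝ e2 e1 = 0 := by rw [real_inner_comm]; exact h12
  have hv : Orthonormal ℝ ![w, e1, e2] := by
    rw [orthonormal_iff_ite]
    intro i j
    fin_cases i <;> fin_cases j <;>
      simp [hw, h1, h2, hw1, hw2, h12, hw1', hw2', h12']
  have hsp : ⊤ ≤ Submodule.span ℝ (Set.range ![w, e1, e2]) :=
    (hv.linearIndependent.span_eq_top_of_card_eq_finrank' (by simp)).ge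
  set b : OrthonormalBasis (Fin 3) ℝ E := OrthonormalBasis.mk hv hsp with hb
  have hbc : ∀ i, b i = ![w, e1, e2] i := fun i => by rw [hb, OrthonormalBasis.coe_mk]
  have hmp : MeasurePreserving (fun y : Fin 3 → ℝ => b.repr.symm (WithLp.toLp 2 y)) :=
    b.measurePreserving_repr_symm.comp (PiLp.volume_preserving_toLp (Fin 3))
  have hval : ∀ y : Fin 3 → ℝ, b.repr.symm (WithLp.toLp 2 y)
      = y 0 • w + (y 1 • e1 + y 2 • e2) := by
    intro y
    rw [← b.sum_repr_symm, Fin.sum_univ_three, hbc, hbc, hbc]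
    simp [add_assoc]
  have hG : Measurable (fun y : Fin 3 → ℝ => F (y 0 • w + (y 1 • e1 + y 2 • e2))) := by
    apply hF.comp
    have : Continuous (fun y : Fin 3 → ℝ => (y 0 • w + (y 1 • e1 + y 2 • e2) : E)) := by
      fun_prop
    exact this.measurable
  have s1 : ∫⁻ x, F x = ∫⁻ y : Fin 3 → ℝ, F (y 0 • w + (y 1 • e1 + y 2 • e2)) := by
    rw [← hmp.lintegral_comp hF]
    exact lintegral_congr fun y => by rw [hval]
  have hmp2 := (volume_preserving_piFinSuccAbove (fun _ : Fin 3 => ℝ) 0).symm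
  have hH : Measurable (fun p : ℝ × (Fin 2 → ℝ) => F (p.1 • w + (p.2 0 • e1 + p.2 1 • e2))) := by
    apply hF.comp
    have : Continuous (fun p : ℝ × (Fin 2 → ℝ) =>
        (p.1 • w + (p.2 0 • e1 + p.2 1 • e2) : E)) := by
      fun_prop
    exact this.measurable
  have s2 : ∫⁻ y : Fin 3 → ℝ, F (y 0 • w + (y 1 • e1 + y 2 • e2))
      = ∫⁻ p : ℝ × (Fin 2 → ℝ), F (p.1 • w + (p.2 0 • e1 + p.2 1 • e2)) := by
    rw [← hmp2.lintegral_comp hG]
    refine lintegral_congr fun p => ?_
    rfl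
  have s3 : ∫⁻ p : ℝ × (Fin 2 → ℝ), F (p.1 • w + (p.2 0 • e1 + p.2 1 • e2))
      = ∫⁻ z : ℝ, ∫⁻ q : Fin 2 → ℝ, F (z • w + (q 0 • e1 + q 1 • e2)) := by
    rw [Measure.volume_eq_prod, lintegral_prod _ hH.aemeasurable]
  rw [s1, s2, s3]
  refine lintegral_congr fun z => ?_
  have hmp3 := (volume_preserving_finTwoArrow ℝ).symm
  have hK : Measurable (fun q : Fin 2 → ℝ => F (z • w + (q 0 • e1 + q 1 • e2))) := by
    apply hF.comp
    have : Continuous (fun q : Fin 2 → ℝ => (z • w + (q 0 • e1 + q 1 • e2) : E)) := by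
      fun_prop
    exact this.measurable
  rw [← hmp3.lintegral_comp hK]
  rfl

/-- TARGET: spherical coordinates (lower integral) -/
theorem spherical (w e1 e2 : E) (hw : ‖w‖ = 1) (h1 : ‖e1‖ = 1) (h2 : ‖e2‖ = 1)
    (hw1 : inner ℝ w e1 = 0) (hw2 : inner ℝ w e2 = 0) (h12 : inner ℝ e1 e2 = 0)
    (F : E → ENNReal) (hF : Measurable F) :
    ∫⁻ x, F x = ∫⁻ r in Ioi (0 : ℝ), ∫⁻ c in Ioo (-1 : ℝ) 1, ∫⁻ φ in Ioo (-Real.pi) Real.pi,
      F (r • (c • w + √(1 - c ^ 2) • (Real.cos φ • e1 + Real.sin φ • e2))) *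
        ENNReal.ofReal (r ^ 2) := by
  rw [cart w e1 e2 hw h1 h2 hw1 hw2 h12 F hF]
  set H : ℝ × ℝ → ENNReal := fun q => ∫⁻ φ in Ioo (-Real.pi) Real.pi,
    F (q.1 • w + q.2 • (Real.cos φ • e1 + Real.sin φ • e2)) with hH
  have hHm : Measurable H := by
    apply Measurable.lintegral_prod_right'
      (f := fun p : (ℝ × ℝ) × ℝ =>
        F (p.1.1 • w + p.1.2 • (Real.cos p.2 • e1 + Real.sin p.2 • e2)))
    apply hF.comp
    have : Continuous (fun p : (ℝ × ℝ) × ℝ =>
        (p.1.1 • w + p.1.2 • (Real.cos p.2 • e1 + Real.sin p.2 • e2) : E)) := by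
      fun_prop
    exact this.measurable
  -- step 1
  have s1 : ∀ z : ℝ, ∫⁻ q : ℝ × ℝ, F (z • w + (q.1 • e1 + q.2 • e2))
      = ∫⁻ ρ in Ioi (0 : ℝ), ENNReal.ofReal ρ * H (z, ρ) := by
    intro z
    rw [← lintegral_comp_polarCoord_symm]
    have ht : polarCoord.target = Ioi (0 : ℝ) ×ˢ Ioo (-Real.pi) Real.pi := rfl
    rw [ht, Measure.volume_eq_prod, ← Measure.prod_restrict, lintegral_prod]
    · refine lintegral_congr fun ρ => ?_
      rw [hH]
      dsimp only
      rw [← lintegral_const_mul]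
      · refine lintegral_congr fun φ => ?_
        rw [polarCoord_symm_apply, smul_eq_mul]
        simp only [smul_add, smul_smul]
      · apply hF.comp
        have : Continuous (fun φ : ℝ =>
            (z • w + ρ • (Real.cos φ • e1 + Real.sin φ • e2) : E)) := by
          fun_prop
        exact this.measurable
    · apply Measurable.aemeasurable
      simp only [smul_eq_mul]
      apply Measurable.mul
      · exact ENNReal.measurable_ofReal.comp measurable_fst
      · apply hF.comp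
        have : Continuous (fun p : ℝ × ℝ =>
            (z • w + ((polarCoord.symm p).1 • e1 + (polarCoord.symm p).2 • e2) : E)) := by
          have hc := continuous_polarCoord_symm
          fun_prop
        exact this.measurable
  have hGm : Measurable (fun q : ℝ × ℝ => ENNReal.ofReal q.2 * H q) :=
    (ENNReal.measurable_ofReal.comp measurable_snd).mul hHm
  have s2 : ∫⁻ z : ℝ, ∫⁻ ρ in Ioi (0 : ℝ), ENNReal.ofReal ρ * H (z, ρ)
      = ∫⁻ q in (univ ×ˢ Ioi (0 : ℝ) : Set (ℝ × ℝ)), ENNReal.ofReal q.2 * H q := by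
    rw [Measure.volume_eq_prod, ← Measure.prod_restrict, lintegral_prod _ hGm.aemeasurable,
      Measure.restrict_univ]
  have hms : MeasurableSet (Ioi (0 : ℝ) ×ˢ Ioo (-1 : ℝ) 1) :=
    measurableSet_Ioi.prod measurableSet_Ioo
  have s3 : ∫⁻ q in (univ ×ˢ Ioi (0 : ℝ) : Set (ℝ × ℝ)), ENNReal.ofReal q.2 * H q
      = ∫⁻ p in Ioi (0 : ℝ) ×ˢ Ioo (-1 : ℝ) 1, ENNReal.ofReal (p.1 ^ 2) * H (TT p) := by
    rw [← TT_image, lintegral_image_eq_lintegral_abs_det_fderiv_mul volume hms
      (fun p hp => (hasFDerivAt_TT p hp.2).hasFDerivWithinAt) TT_inj]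
    refine setLIntegral_congr_fun hms fun p hp => ?_
    have hp1 : 0 < p.1 := hp.1
    have hp2 : p.2 ∈ Ioo (-1 : ℝ) 1 := hp.2
    have hpos : 0 < 1 - p.2 ^ 2 := by nlinarith [hp2.1, hp2.2]
    have hs : 0 < √(1 - p.2 ^ 2) := Real.sqrt_pos.mpr hpos
    rw [det_TTd p hp2, abs_neg, abs_of_pos (by positivity), ← mul_assoc,
      ← ENNReal.ofReal_mul (by positivity)]
    congr 2
    simp only [TT]
    field_simp
  have hKm : Measurable (fun p : ℝ × ℝ => ENNReal.ofReal (p.1 ^ 2) * H (TT p)) := by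
    apply Measurable.mul
    · exact ENNReal.measurable_ofReal.comp (measurable_fst.pow_const 2)
    · apply hHm.comp
      unfold TT
      fun_prop
  have s4 : ∫⁻ p in Ioi (0 : ℝ) ×ˢ Ioo (-1 : ℝ) 1, ENNReal.ofReal (p.1 ^ 2) * H (TT p)
      = ∫⁻ r in Ioi (0 : ℝ), ∫⁻ c in Ioo (-1 : ℝ) 1, ENNReal.ofReal (r ^ 2) * H (TT (r, c)) := by
    rw [Measure.volume_eq_prod, ← Measure.prod_restrict, lintegral_prod _ hKm.aemeasurable]
  rw [lintegral_congr s1, s2, s3, s4]
  refine lintegral_congr fun r => lintegral_congr fun c => ?_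
  rw [mul_comm, hH]
  dsimp only
  rw [← lintegral_mul_const]
  · refine lintegral_congr fun φ => ?_
    simp only [TT, smul_add, smul_smul, mul_assoc]
  · apply hF.comp
    have : Continuous (fun φ : ℝ =>
        ((TT (r, c)).1 • w + (TT (r, c)).2 • (Real.cos φ • e1 + Real.sin φ • e2) : E)) := by
      fun_prop
    exact this.measurable



end TH_yuk_basic_sph

theorem TH_yuk_basic_rad (s b : ℝ) (hs : -1 < s) (hb : 0 < b) :
    IntegrableOn (fun x : ℝ => x ^ s * Real.exp (-(b * x))) (Ioi 0) := by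
  have := integrableOn_rpow_mul_exp_neg_mul_rpow hs one_pos hb
  refine this.congr_fun (fun x hx => ?_) measurableSet_Ioi
  simp only [Real.rpow_one, neg_mul]

theorem TH_yuk_basic_c (ρ r : ℝ) (hρ : 0 < ρ) (hr : 0 < r) :
    ∫⁻ c in Ioo (-1 : ℝ) 1, ENNReal.ofReal (1 / √(ρ ^ 2 - 2 * ρ * r * c + r ^ 2)) =
      ENNReal.ofReal (2 / max ρ r) := by
  have hq : ∀ c ∈ Ioo (-1 : ℝ) 1, 0 < ρ ^ 2 - 2 * ρ * r * c + r ^ 2 := by
    intro c hc
    have h1 : 0 < ρ * r * (1 - c) := mul_pos (mul_pos hρ hr) (by linarith [hc.2])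
    nlinarith [sq_nonneg (ρ - r)]
  obtain ⟨G, hG⟩ : ∃ G : ℝ → ℝ, G = fun c => -(√(ρ ^ 2 - 2 * ρ * r * c + r ^ 2)) / (ρ * r) := ⟨_, rfl⟩
  have hcont : ContinuousOn G (Icc (-1) 1) := by
    rw [hG]
    apply Continuous.continuousOn
    fun_prop
  have hder : ∀ c ∈ Ioo (-1 : ℝ) 1,
      HasDerivAt G (1 / √(ρ ^ 2 - 2 * ρ * r * c + r ^ 2)) c := by
    intro c hc
    have hpos := hq c hc
    have h1 : HasDerivAt (fun c : ℝ => ρ ^ 2 - 2 * ρ * r * c + r ^ 2) (-(2 * ρ * r)) c := by
      have h2 := (((hasDerivAt_id c).const_mul (2 * ρ * r)).const_sub (ρ ^ 2)).add_const (r ^ 2)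
      simpa using h2
    have h3 := (h1.sqrt hpos.ne').neg.div_const (ρ * r)
    rw [hG]
    refine h3.congr_deriv ?_
    have h4 : 0 < √(ρ ^ 2 - 2 * ρ * r * c + r ^ 2) := Real.sqrt_pos.mpr hpos
    field_simp
  have hnn : ∀ c ∈ Ioo (-1 : ℝ) 1, 0 ≤ 1 / √(ρ ^ 2 - 2 * ρ * r * c + r ^ 2) := by
    intro c hc
    positivity
  have hint := intervalIntegral.integrableOn_deriv_of_nonneg hcont hder hnn
  have hval := intervalIntegral.integral_eq_sub_of_hasDerivAt_of_le (by norm_num : (-1 : ℝ) ≤ 1)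
    hcont hder ((intervalIntegrable_iff_integrableOn_Ioc_of_le (by norm_num)).mpr hint)
  rw [← ofReal_integral_eq_lintegral_ofReal (hint.mono_set Ioo_subset_Ioc_self)
    (Filter.Eventually.of_forall (fun c => by positivity))]
  congr 1
  rw [← integral_Ioc_eq_integral_Ioo, ← intervalIntegral.integral_of_le (by norm_num), hval, hG]
  simp only
  have e1 : ρ ^ 2 - 2 * ρ * r * 1 + r ^ 2 = (ρ - r) ^ 2 := by ring
  have e2 : ρ ^ 2 - 2 * ρ * r * (-1) + r ^ 2 = (ρ + r) ^ 2 := by ring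
  rw [e1, e2, Real.sqrt_sq_eq_abs, Real.sqrt_sq (by positivity)]
  rcases le_total ρ r with h | h
  · rw [max_eq_right h, abs_of_nonpos (by linarith)]
    field_simp
    ring
  · rw [max_eq_left h, abs_of_nonneg (by linarith)]
    field_simp
    ring

theorem TH_yuk_basic_r (κ ρ : ℝ) (hκ : 0 < κ) (hρ : 0 < ρ) :
    ∫⁻ r in Ioi (0 : ℝ), ENNReal.ofReal (κ ^ 2 * Real.exp (-(κ * r)) * r / max ρ r) =
      ENNReal.ofReal ((1 - Real.exp (-(κ * ρ))) / ρ) := by
  obtain ⟨h, hh⟩ : ∃ h : ℝ → ℝ, h = fun r => κ ^ 2 * Real.exp (-(κ * r)) * r / max ρ r := ⟨_, rfl⟩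
  have hA1 : ∀ r ∈ Ioc (0:ℝ) ρ, h r = κ ^ 2 * Real.exp (-(κ * r)) * r / ρ := by
    intro r hr
    rw [hh]; simp only
    rw [max_eq_left hr.2]
  have hA2 : ∀ r ∈ Ioi ρ, h r = κ ^ 2 * Real.exp (-(κ * r)) := by
    intro r hr
    have hr' : ρ < r := hr
    rw [hh]; simp only
    rw [max_eq_right hr'.le]
    have : r ≠ 0 := by linarith [hρ.trans hr']
    field_simp
  have hc1 : Continuous (fun r : ℝ => κ ^ 2 * Real.exp (-(κ * r)) * r / ρ) := by fun_prop
  have hi1 : IntegrableOn h (Ioc 0 ρ) := by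
    have : IntegrableOn (fun r : ℝ => κ ^ 2 * Real.exp (-(κ * r)) * r / ρ) (Ioc 0 ρ) :=
      (hc1.integrableOn_Icc (a := 0) (b := ρ)).mono_set Ioc_subset_Icc_self
    exact this.congr_fun (fun r hr => (hA1 r hr).symm) measurableSet_Ioc
  have hv1 : ∫ r in Ioc 0 ρ, h r = (1 - (κ * ρ + 1) * Real.exp (-(κ * ρ))) / ρ := by
    rw [setIntegral_congr_fun measurableSet_Ioc hA1, ← intervalIntegral.integral_of_le hρ.le]
    have hd : ∀ r ∈ uIcc 0 ρ, HasDerivAt (fun r : ℝ => -((κ * r + 1) * Real.exp (-(κ * r))) / ρ)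
        (κ ^ 2 * Real.exp (-(κ * r)) * r / ρ) r := by
      intro r _
      have h1 : HasDerivAt (fun r : ℝ => κ * r + 1) κ r := by
        simpa using ((hasDerivAt_id r).const_mul κ).add_const 1
      have h2 : HasDerivAt (fun r : ℝ => -(κ * r)) (-κ) r := by
        simpa [neg_mul] using (hasDerivAt_id r).const_mul (-κ)
      have h3 := ((h1.mul h2.exp).neg).div_const ρ
      refine h3.congr_deriv ?_
      ring
    rw [intervalIntegral.integral_eq_sub_of_hasDerivAt hd (hc1.intervalIntegrable _ _)]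
    simp
    ring
  have hd2 : ∀ r ∈ Ici ρ, HasDerivAt (fun r : ℝ => -κ * Real.exp (-(κ * r)))
      (κ ^ 2 * Real.exp (-(κ * r))) r := by
    intro r _
    have h2 : HasDerivAt (fun r : ℝ => -(κ * r)) (-κ) r := by
      simpa [neg_mul] using (hasDerivAt_id r).const_mul (-κ)
    have h3 := (h2.exp).const_mul (-κ)
    refine h3.congr_deriv ?_
    ring
  have ht2 : Tendsto (fun r : ℝ => -κ * Real.exp (-(κ * r))) atTop (𝓝 0) := by
    have h1 : Tendsto (fun r : ℝ => Real.exp (-(κ * r))) atTop (𝓝 0) := by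
      apply Real.tendsto_exp_neg_atTop_nhds_zero.comp
      exact tendsto_id.const_mul_atTop hκ
    simpa using h1.const_mul (-κ)
  have hi2' : IntegrableOn (fun r : ℝ => κ ^ 2 * Real.exp (-(κ * r))) (Ioi ρ) :=
    integrableOn_Ioi_deriv_of_nonneg' hd2 (fun r _ => by positivity) ht2
  have hi2 : IntegrableOn h (Ioi ρ) :=
    hi2'.congr_fun (fun r hr => (hA2 r hr).symm) measurableSet_Ioi
  have hv2 : ∫ r in Ioi ρ, h r = κ * Real.exp (-(κ * ρ)) := by
    rw [setIntegral_congr_fun measurableSet_Ioi hA2,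
      integral_Ioi_of_hasDerivAt_of_nonneg' hd2 (fun r _ => by positivity) ht2]
    ring
  have hun : Ioc 0 ρ ∪ Ioi ρ = Ioi (0:ℝ) := Ioc_union_Ioi_eq_Ioi hρ.le
  have hi : IntegrableOn h (Ioi 0) := by
    rw [← hun]; exact hi1.union hi2
  have hnn : 0 ≤ᵐ[volume.restrict (Ioi (0:ℝ))] h := by
    refine (ae_restrict_iff' measurableSet_Ioi).mpr (Filter.Eventually.of_forall ?_)
    intro r hr
    have hr' : (0:ℝ) < r := hr
    have : 0 < max ρ r := lt_max_of_lt_left hρ
    rw [hh]
    show 0 ≤ κ ^ 2 * Real.exp (-(κ * r)) * r / max ρ r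
    positivity
  have hfin : ∫ r in Ioi (0:ℝ), h r = (1 - Real.exp (-(κ * ρ))) / ρ := by
    rw [← hun, setIntegral_union (Ioc_disjoint_Ioi le_rfl) measurableSet_Ioi hi1 hi2, hv1, hv2]
    field_simp
    ring
  rw [← hfin, ofReal_integral_eq_lintegral_ofReal hi hnn, hh]

theorem TH_yuk_basic_nn (κ : ℝ) (x : E3) : 0 ≤ Yk κ x := by
  unfold Yk
  positivity

theorem TH_yuk_basic_meas (κ : ℝ) : Measurable (Yk κ) := by
  unfold Yk
  fun_prop

theorem TH_yuk_basic_int (κ : ℝ) (hκ : 0 < κ) : Integrable (Yk κ) := by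
  have h := (integrable_fun_norm_addHaar (volume : Measure E3)
    (f := fun r : ℝ => κ ^ 2 * Real.exp (-(κ * r)) / (4 * Real.pi * r))).mpr ?_
  · exact h
  · have h1 := (TH_yuk_basic_rad 1 κ (by norm_num) hκ).const_mul (κ ^ 2 / (4 * Real.pi))
    refine IntegrableOn.congr_fun h1 (fun r hr => ?_) measurableSet_Ioi
    have hr' : (0:ℝ) < r := hr
    simp only [finrank_euclideanSpace, Fintype.card_fin, smul_eq_mul, Real.rpow_one]
    field_simp

theorem TH_yuk_basic_int53 (κ : ℝ) (hκ : 0 < κ) :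
    Integrable (fun x => |Yk κ x| ^ (5/3 : ℝ)) := by
  have h := (integrable_fun_norm_addHaar (volume : Measure E3)
    (f := fun r : ℝ => |κ ^ 2 * Real.exp (-(κ * r)) / (4 * Real.pi * r)| ^ (5/3 : ℝ))).mpr ?_
  · exact h
  · have h1 := (TH_yuk_basic_rad (1/3) (5/3 * κ) (by norm_num) (by positivity)).const_mul
      ((κ ^ 2 / (4 * Real.pi)) ^ (5/3 : ℝ))
    refine IntegrableOn.congr_fun h1 (fun r hr => ?_) measurableSet_Ioi
    have hr' : (0:ℝ) < r := hr
    simp only [finrank_euclideanSpace, Fintype.card_fin, smul_eq_mul]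
    have e1 : κ ^ 2 * Real.exp (-(κ * r)) / (4 * Real.pi * r) =
        (κ ^ 2 / (4 * Real.pi)) * (Real.exp (-(κ * r)) * r⁻¹) := by
      field_simp
    rw [abs_of_nonneg (by positivity), e1, Real.mul_rpow (by positivity) (by positivity),
      Real.mul_rpow (by positivity) (by positivity), ← Real.exp_mul, Real.inv_rpow hr'.le,
      ← Real.rpow_neg hr'.le]
    have e2 : r ^ (3 - 1) * ((κ ^ 2 / (4 * Real.pi)) ^ (5/3 : ℝ) *
        (Real.exp (-(κ * r) * (5/3)) * r ^ (-(5/3) : ℝ))) =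
        (κ ^ 2 / (4 * Real.pi)) ^ (5/3 : ℝ) * ((r ^ (2:ℝ) * r ^ (-(5/3) : ℝ)) *
          Real.exp (-(κ * r) * (5/3))) := by
      rw [show (3 - 1 : ℕ) = 2 from rfl, ← Real.rpow_natCast r 2]
      push_cast
      ring
    rw [e2, ← Real.rpow_add hr']
    congr 2
    · norm_num
    · congr 1
      ring

theorem TH_yuk_basic_one (κ : ℝ) (hκ : 0 < κ) : ∫ x, Yk κ x = 1 := by
  have h := integral_fun_norm_addHaar (volume : Measure E3)
    (fun r : ℝ => κ ^ 2 * Real.exp (-(κ * r)) / (4 * Real.pi * r))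
  have h0 : ∫ x, Yk κ x = ∫ x : E3, κ ^ 2 * Real.exp (-(κ * ‖x‖)) / (4 * Real.pi * ‖x‖) := rfl
  rw [h0, h]
  have h1 : ∫ y in Ioi (0:ℝ), y ^ (Module.finrank ℝ E3 - 1) •
      (κ ^ 2 * Real.exp (-(κ * y)) / (4 * Real.pi * y)) =
      (κ ^ 2 / (4 * Real.pi)) * ∫ y in Ioi (0:ℝ), y ^ ((2:ℝ) - 1) * Real.exp (-(κ * y)) := by
    rw [← integral_const_mul]
    apply setIntegral_congr_fun measurableSet_Ioi
    intro r hr
    have hr' : (0:ℝ) < r := hr
    simp only [finrank_euclideanSpace, Fintype.card_fin, smul_eq_mul]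
    rw [show (2:ℝ) - 1 = 1 by norm_num, Real.rpow_one]
    field_simp
  rw [h1, Real.integral_rpow_mul_exp_neg_mul_Ioi (by norm_num) hκ]
  have h2 : volume.real (ball (0 : E3) 1) = Real.pi * 4 / 3 := by
    rw [Measure.real, EuclideanSpace.volume_ball_fin_three]
    simp
    positivity
  rw [h2, Real.Gamma_two]
  simp only [finrank_euclideanSpace, Fintype.card_fin, smul_eq_mul, nsmul_eq_mul]
  rw [show ((1 / κ : ℝ)) ^ (2:ℝ) = (1 / κ) ^ 2 from by exact_mod_cast Real.rpow_natCast (1/κ) 2]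
  push_cast
  field_simp

theorem TH_yuk_basic_frame (w : E3) (hw : ‖w‖ = 1) : ∃ e1 e2 : E3, ‖e1‖ = 1 ∧ ‖e2‖ = 1 ∧
    inner ℝ w e1 = 0 ∧ inner ℝ w e2 = 0 ∧ inner ℝ e1 e2 = 0 := by
  have hv : Orthonormal ℝ (({0} : Set (Fin 3)).restrict (fun _ => w)) := by
    constructor
    · intro i; exact hw
    · intro i j hij
      exact absurd (Subsingleton.elim i j) hij
  obtain ⟨b, hb⟩ := hv.exists_orthonormalBasis_extension_of_card_eq (by simp)
  have hb0 : b 0 = w := hb 0 (by simp)
  refine ⟨b 1, b 2, b.orthonormal.1 1, b.orthonormal.1 2, ?_, ?_, ?_⟩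
  · rw [← hb0]; exact b.orthonormal.2 (by decide)
  · rw [← hb0]; exact b.orthonormal.2 (by decide)
  · exact b.orthonormal.2 (by decide)

theorem TH_yuk_basic_pot (κ : ℝ) (hκ : 0 < κ) (x : E3) (hx : x ≠ 0) :
    ∫ y, Yk κ y / ‖x - y‖ = (1 - Real.exp (-(κ * ‖x‖))) / ‖x‖ := by
  obtain ⟨ρ, hρdef⟩ : ∃ ρ, ρ = ‖x‖ := ⟨_, rfl⟩
  have hρ : 0 < ρ := by rw [hρdef]; exact norm_pos_iff.mpr hx
  obtain ⟨w, hwdef⟩ : ∃ w : E3, w = ρ⁻¹ • x := ⟨_, rfl⟩
  have hw : ‖w‖ = 1 := by
    rw [hwdef, norm_smul, ← hρdef, Real.norm_eq_abs, abs_of_pos (by positivity)]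
    exact inv_mul_cancel₀ hρ.ne'
  have hxw : x = ρ • w := by
    rw [hwdef, smul_smul, mul_inv_cancel₀ hρ.ne', one_smul]
  obtain ⟨e1, e2, h1, h2, hw1, hw2, h12⟩ := TH_yuk_basic_frame w hw
  have hmeas : Measurable (fun y : E3 => Yk κ y / ‖x - y‖) := by
    unfold Yk
    fun_prop
  rw [integral_eq_lintegral_of_nonneg_ae
    (Filter.Eventually.of_forall (fun y => div_nonneg (TH_yuk_basic_nn κ y) (norm_nonneg _)))
    hmeas.aestronglyMeasurable]
  rw [TH_yuk_basic_sph.spherical w e1 e2 hw h1 h2 hw1 hw2 h12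
    (fun y => ENNReal.ofReal (Yk κ y / ‖x - y‖)) hmeas.ennreal_ofReal]
  have hww : inner ℝ w w = (1:ℝ) := by rw [real_inner_self_eq_norm_sq, hw]; norm_num
  have h11 : inner ℝ e1 e1 = (1:ℝ) := by rw [real_inner_self_eq_norm_sq, h1]; norm_num
  have h22 : inner ℝ e2 e2 = (1:ℝ) := by rw [real_inner_self_eq_norm_sq, h2]; norm_num
  have hw1' : inner ℝ e1 w = (0:ℝ) := by rw [real_inner_comm]; exact hw1
  have hw2' : inner ℝ e2 w = (0:ℝ) := by rw [real_inner_comm]; exact hw2
  have h12' : inner ℝ e2 e1 = (0:ℝ) := by rw [real_inner_comm]; exact h12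
  have key : ∀ r ∈ Ioi (0:ℝ), ∫⁻ c in Ioo (-1 : ℝ) 1, ∫⁻ φ in Ioo (-Real.pi) Real.pi,
      ENNReal.ofReal (Yk κ (r • (c • w + √(1 - c ^ 2) • (Real.cos φ • e1 + Real.sin φ • e2))) /
        ‖x - r • (c • w + √(1 - c ^ 2) • (Real.cos φ • e1 + Real.sin φ • e2))‖) *
        ENNReal.ofReal (r ^ 2) =
      ENNReal.ofReal (κ ^ 2 * Real.exp (-(κ * r)) * r / max ρ r) := by
    intro r hr
    have hr' : (0:ℝ) < r := hr
    have step : ∀ c ∈ Ioo (-1 : ℝ) 1, ∫⁻ φ in Ioo (-Real.pi) Real.pi,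
      ENNReal.ofReal (Yk κ (r • (c • w + √(1 - c ^ 2) • (Real.cos φ • e1 + Real.sin φ • e2))) /
        ‖x - r • (c • w + √(1 - c ^ 2) • (Real.cos φ • e1 + Real.sin φ • e2))‖) *
        ENNReal.ofReal (r ^ 2) =
      ENNReal.ofReal (κ ^ 2 * Real.exp (-(κ * r)) * r / 2) *
        ENNReal.ofReal (1 / √(ρ ^ 2 - 2 * ρ * r * c + r ^ 2)) := by
      intro c hc
      have hc2 : 0 ≤ 1 - c ^ 2 := by nlinarith [hc.1, hc.2]
      have hs : √(1 - c ^ 2) ^ 2 = 1 - c ^ 2 := Real.sq_sqrt hc2
      have hpt : ∀ φ : ℝ,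
          ENNReal.ofReal (Yk κ (r • (c • w + √(1 - c ^ 2) • (Real.cos φ • e1 + Real.sin φ • e2))) /
            ‖x - r • (c • w + √(1 - c ^ 2) • (Real.cos φ • e1 + Real.sin φ • e2))‖) *
            ENNReal.ofReal (r ^ 2) =
          ENNReal.ofReal (κ ^ 2 * Real.exp (-(κ * r)) * r / (4 * Real.pi)) *
            ENNReal.ofReal (1 / √(ρ ^ 2 - 2 * ρ * r * c + r ^ 2)) := by
        intro φ
        obtain ⟨v, hv⟩ : ∃ v : E3, v = c • w + √(1 - c ^ 2) • (Real.cos φ • e1 + Real.sin φ • e2) :=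
          ⟨_, rfl⟩
        rw [← hv]
        have hvw : inner ℝ w v = c := by
          rw [hv]
          simp only [inner_add_right, inner_smul_right, hww, hw1, hw2]
          ring
        have hvv : inner ℝ v v = (1:ℝ) := by
          rw [hv]
          simp only [inner_add_left, inner_add_right, inner_smul_left, inner_smul_right, hww, hw1,
            hw2, h11, h22, h12, hw1', hw2', h12', RCLike.conj_to_real]
          have hcs := Real.sin_sq_add_cos_sq φ
          linear_combination (Real.cos φ ^ 2 + Real.sin φ ^ 2) * hs + (1 - c ^ 2) * hcs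
        have hvn : ‖v‖ = 1 := by
          have h3 := real_inner_self_eq_norm_sq v
          rw [hvv] at h3
          nlinarith [norm_nonneg v]
        have hn1 : ‖r • v‖ = r := by
          rw [norm_smul, hvn, Real.norm_eq_abs, abs_of_pos hr', mul_one]
        have hn2 : ‖x - r • v‖ = √(ρ ^ 2 - 2 * ρ * r * c + r ^ 2) := by
          rw [← Real.sqrt_sq (norm_nonneg (x - r • v))]
          congr 1
          rw [norm_sub_sq_real, ← hρdef, hn1]
          have h5 : inner ℝ x (r • v) = ρ * r * c := by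
            rw [hxw, inner_smul_left, inner_smul_right, hvw]
            simp only [RCLike.conj_to_real]
            ring
          rw [h5]
          ring
        unfold Yk
        rw [hn1, hn2, ← ENNReal.ofReal_mul (by positivity), ← ENNReal.ofReal_mul (by positivity)]
        congr 1
        field_simp
      rw [lintegral_congr hpt, setLIntegral_const, Real.volume_Ioo, mul_right_comm,
        ← ENNReal.ofReal_mul (by positivity)]
      congr 2
      have := Real.pi_pos
      field_simp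
      ring
    rw [setLIntegral_congr_fun measurableSet_Ioo step, lintegral_const_mul' _ _ ENNReal.ofReal_ne_top,
      TH_yuk_basic_c ρ r hρ hr', ← ENNReal.ofReal_mul (by positivity)]
    congr 1
    ring
  rw [setLIntegral_congr_fun measurableSet_Ioi key, TH_yuk_basic_r κ ρ hκ hρ, hρdef,
    ENNReal.toReal_ofReal]
  apply div_nonneg _ (norm_nonneg x)
  have : Real.exp (-(κ * ‖x‖)) ≤ 1 := Real.exp_le_one_iff.mpr (by
    have := norm_nonneg x
    nlinarith)
  linarith

-- ===== TARGET =====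
theorem yuk_basic (κ : ℝ) (hκ : 0 < κ) :
    Nice (Yk κ) ∧ (∀ x, 0 ≤ Yk κ x) ∧ ∫ x, Yk κ x = 1 ∧
    ∀ x : E3, x ≠ 0 → ∫ y, Yk κ y / ‖x - y‖ = (1 - Real.exp (-(κ * ‖x‖))) / ‖x‖ :=
  ⟨⟨TH_yuk_basic_meas κ, TH_yuk_basic_int κ hκ, TH_yuk_basic_int53 κ hκ⟩, TH_yuk_basic_nn κ,
    TH_yuk_basic_one κ hκ, TH_yuk_basic_pot κ hκ⟩
end


/-! ### ker_ok -/
section
-- ===== given lemmas (leave as they are, do not prove) =====


noncomputable def TH_ker_ok_N (b : Fin 3) : E3 ≃ₗᵢ[ℝ] E3 :=
  LinearIsometryEquiv.piLpCongrRight 2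
    (fun i => if i = b then LinearIsometryEquiv.neg ℝ else LinearIsometryEquiv.refl ℝ ℝ)

theorem TH_ker_ok_N_apply (b i : Fin 3) (x : E3) :
    TH_ker_ok_N b x i = if i = b then - x i else x i := by
  unfold TH_ker_ok_N
  simp only [LinearIsometryEquiv.piLpCongrRight_apply]
  split_ifs <;> simp_all

noncomputable def TH_ker_ok_T (b : Fin 3) (c : ℝ) : E3 ≃ₜ E3 :=
  (TH_ker_ok_N b).toHomeomorph.trans (Homeomorph.addRight (EuclideanSpace.single b c))

theorem TH_ker_ok_T_eq (b : Fin 3) (c : ℝ) (x : E3) :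
    TH_ker_ok_T b c x = TH_ker_ok_N b x + EuclideanSpace.single b c := rfl

theorem TH_ker_ok_T_apply (b i : Fin 3) (c : ℝ) (x : E3) :
    TH_ker_ok_T b c x i = if i = b then c - x i else x i := by
  rw [TH_ker_ok_T_eq, PiLp.add_apply, TH_ker_ok_N_apply]
  by_cases h : i = b
  · subst h; simp; ring
  · simp [h]

theorem TH_ker_ok_T_mp (b : Fin 3) (c : ℝ) :
    MeasurePreserving (TH_ker_ok_T b c) volume volume :=
  (measurePreserving_add_right volume (EuclideanSpace.single b c)).comp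
    (TH_ker_ok_N b).measurePreserving

theorem TH_ker_ok_T_emb (b : Fin 3) (c : ℝ) : MeasurableEmbedding (TH_ker_ok_T b c) :=
  (TH_ker_ok_T b c).measurableEmbedding

theorem TH_ker_ok_T_norm (b : Fin 3) (c : ℝ) (x y : E3) :
    ‖TH_ker_ok_T b c x - TH_ker_ok_T b c y‖ = ‖x - y‖ := by
  rw [TH_ker_ok_T_eq, TH_ker_ok_T_eq, add_sub_add_right_eq_sub, ← map_sub,
    LinearIsometryEquiv.norm_map]

theorem TH_ker_ok_hyp (b : Fin 3) (c : ℝ) : volume {x : E3 | x b = c} = 0 := by
  have h0 : volume ((LinearMap.ker (EuclideanSpace.proj b : E3 →L[ℝ] ℝ).toLinearMap :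
      Submodule ℝ E3) : Set E3) = 0 := by
    apply Measure.addHaar_submodule
    intro h
    have h1 : EuclideanSpace.single b (1 : ℝ) ∈
      (LinearMap.ker (EuclideanSpace.proj b : E3 →L[ℝ] ℝ).toLinearMap : Submodule ℝ E3) := by
      rw [h]; trivial
    rw [LinearMap.mem_ker] at h1
    simp at h1
  have h2 : {x : E3 | x b = c} = (fun x : E3 => x + EuclideanSpace.single b (-c)) ⁻¹'
      ((LinearMap.ker (EuclideanSpace.proj b : E3 →L[ℝ] ℝ).toLinearMap :
      Submodule ℝ E3) : Set E3) := by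
    ext x
    simp only [mem_setOf_eq, mem_preimage, SetLike.mem_coe, LinearMap.mem_ker]
    simp
    constructor
    · intro h; linarith
    · intro h; linarith
  rw [h2, measure_preimage_add_right, h0]

theorem TH_ker_ok_ae (η : ℝ) (b : Fin 3) : ∀ᵐ x : E3, ∀ n : ℤ, x b ≠ n * η := by
  rw [ae_all_iff]
  intro n
  rw [ae_iff]
  simpa using TH_ker_ok_hyp b (n * η)

theorem TH_ker_ok_cell (η : ℝ) (hη : 0 < η) (b : Fin 3) (q : ℤ) (d : Fin 3 → ℤ) :
    ((TH_ker_ok_T b (q * η)) ⁻¹' {x : E3 | cellOf η x = d} : Set E3) =ᵐ[volume]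
      {x : E3 | cellOf η x = Function.update d b (q - 1 - d b)} := by
  rw [Filter.eventuallyEq_set]
  filter_upwards [TH_ker_ok_ae η b] with x hx
  have hfl : ⌊(q * η - x b) / η⌋ = q - 1 - ⌊x b / η⌋ := by
    have e1 : (q * η - x b) / η = q - x b / η := by field_simp
    rw [e1, Int.floor_eq_iff]
    have h1 : (⌊x b / η⌋ : ℝ) < x b / η := by
      refine lt_of_le_of_ne (Int.floor_le _) fun h => hx ⌊x b / η⌋ ?_
      rw [h]; field_simp
    have h2 := Int.lt_floor_add_one (x b / η)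
    push_cast
    constructor <;> linarith
  simp only [mem_preimage, mem_setOf_eq]
  constructor
  · intro h
    funext i
    have hi := congrFun h i
    simp only [cellOf, TH_ker_ok_T_apply] at hi ⊢
    by_cases hib : i = b
    · subst hib
      simp only [if_true] at hi
      rw [hfl] at hi
      simp only [Function.update_self]
      omega
    · simp only [if_neg hib] at hi
      rw [Function.update_of_ne hib]
      exact hi
  · intro h
    funext i
    have hi := congrFun h i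
    simp only [cellOf, TH_ker_ok_T_apply] at hi ⊢
    by_cases hib : i = b
    · subst hib
      simp only [if_true]
      rw [hfl]
      simp only [Function.update_self] at hi
      omega
    · simp only [if_neg hib]
      rw [Function.update_of_ne hib] at hi
      exact hi

theorem TH_ker_ok_Yk (κ : ℝ) (x y : E3) (h : ‖x‖ = ‖y‖) : Yk κ x = Yk κ y := by
  unfold Yk; rw [h]

/-- change of variables in the inner integral -/
theorem TH_ker_ok_inner (η : ℝ) (hη : 0 < η) (b : Fin 3) (q : ℤ) (d : Fin 3 → ℤ)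
    (g : E3 → ℝ) :
    ∫ y in {y : E3 | cellOf η y = d}, g y =
      ∫ y in {y : E3 | cellOf η y = Function.update d b (q - 1 - d b)},
        g (TH_ker_ok_T b (q * η) y) := by
  rw [← setIntegral_congr_set (TH_ker_ok_cell η hη b q d)]
  exact ((TH_ker_ok_T_mp b (q * η)).setIntegral_preimage_emb (TH_ker_ok_T_emb b (q * η)) g _).symm

theorem TH_ker_ok_meas (η : ℝ) (d : Fin 3 → ℤ) : MeasurableSet {x : E3 | cellOf η x = d} := by
  have h : Measurable (fun x : E3 => cellOf η x) := by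
    unfold cellOf
    rw [measurable_pi_iff]
    intro b
    have h1 : Measurable (fun x : E3 => x b / η) := by fun_prop
    exact Int.measurable_floor.comp h1
  exact h (measurableSet_singleton d)

theorem TH_ker_ok_fin (η : ℝ) (hη : 0 < η) (d : Fin 3 → ℤ) :
    volume {x : E3 | cellOf η x = d} < ⊤ := by
  have hsub : {x : E3 | cellOf η x = d} ⊆
      Metric.closedBall (0 : E3) (Real.sqrt (∑ b, (((|d b| : ℤ) + 1 : ℝ) * η) ^ 2)) := by
    intro x hx
    rw [mem_closedBall_zero_iff, EuclideanSpace.norm_eq]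
    apply Real.sqrt_le_sqrt
    apply Finset.sum_le_sum
    intro b _
    have hb : ⌊x b / η⌋ = d b := congrFun hx b
    rw [Int.floor_eq_iff] at hb
    have h1 : x b / η * η = x b := by field_simp
    have h2 : |x b / η| ≤ (|d b| : ℤ) + 1 := by
      push_cast
      rw [abs_le]
      constructor
      · have := neg_abs_le (d b : ℝ); linarith [hb.1]
      · have := le_abs_self (d b : ℝ); linarith [hb.2]
    have h3 : |x b| ≤ ((|d b| : ℤ) + 1 : ℝ) * η := by
      rw [← h1, abs_mul, abs_of_pos hη]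
      exact mul_le_mul_of_nonneg_right h2 hη.le
    rw [Real.norm_eq_abs]
    exact pow_le_pow_left₀ (abs_nonneg _) h3 2
  exact (measure_mono hsub).trans_lt measure_closedBall_lt_top

theorem TH_ker_ok_int (η κ : ℝ) (hη : 0 < η) (hκ : 0 < κ) (d : Fin 3 → ℤ) :
    Integrable (fun x : E3 => ∫ y in {y : E3 | cellOf η y = d}, Yk κ (x - y)) := by
  have hf : Integrable ({y : E3 | cellOf η y = d}.indicator (fun _ => (1 : ℝ))) := by
    rw [integrable_indicator_iff (TH_ker_ok_meas η d)]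
    exact integrableOn_const (TH_ker_ok_fin η hη d).ne
  have hg : Integrable (Yk κ) := (yuk_basic κ hκ).1.2.1
  have h1 := (Integrable.convolution_integrand (ContinuousLinearMap.mul ℝ ℝ) hf hg).integral_prod_left
  refine h1.congr (Filter.Eventually.of_forall fun x => ?_)
  show _ = ∫ y in {y : E3 | cellOf η y = d}, Yk κ (x - y)
  rw [← integral_indicator (TH_ker_ok_meas η d)]
  refine integral_congr_ae (Filter.Eventually.of_forall fun y => ?_)
  by_cases hy : y ∈ {y : E3 | cellOf η y = d}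
  · simp [Set.indicator_of_mem hy]
  · simp [Set.indicator_of_notMem hy]

theorem TH_ker_ok_normle (b : Fin 3) (c : ℝ) (x y : E3) (hx : x b ≤ c / 2) (hy : c / 2 ≤ y b) :
    ‖x - TH_ker_ok_T b c y‖ ≤ ‖x - y‖ := by
  rw [EuclideanSpace.norm_eq, EuclideanSpace.norm_eq]
  apply Real.sqrt_le_sqrt
  apply Finset.sum_le_sum
  intro i _
  rw [PiLp.sub_apply, PiLp.sub_apply, TH_ker_ok_T_apply]
  by_cases h : i = b
  · subst h
    simp only [if_true, Real.norm_eq_abs, sq_abs]
    nlinarith [mul_nonneg (sub_nonneg.2 hx) (sub_nonneg.2 hy)]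
  · simp [h]

-- ===== TARGET =====
theorem ker_ok (η κ : ℝ) (hη : 0 < η) (hκ : 0 < κ) : KerOK (Kc η κ) := by
  have hY0 : ∀ x, 0 ≤ Yk κ x := (yuk_basic κ hκ).2.1
  have hYi : Integrable (Yk κ) := (yuk_basic κ hκ).1.2.1
  refine ⟨fun d => ?_, fun d b => ?_, fun d b hd => ?_⟩
  · unfold Kc
    exact integral_nonneg fun x => integral_nonneg fun y => hY0 _
  · have hu : Function.update d b (-(d b)) = Function.update d b ((1 : ℤ) - 1 - d b) := by
      congr 1; ring
    have hz : Function.update (0 : Fin 3 → ℤ) b ((1 : ℤ) - 1 - (0 : Fin 3 → ℤ) b) = 0 := by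
      funext i
      by_cases h : i = b
      · subst h; simp
      · simp [Function.update_of_ne h]
    symm
    unfold Kc
    rw [TH_ker_ok_inner η hη b 1 0, hz, hu]
    congr 1
    funext x
    rw [TH_ker_ok_inner η hη b 1 d]
    congr 1
    funext y
    exact TH_ker_ok_Yk κ _ _ (TH_ker_ok_T_norm b _ x y)
  · set q : ℤ := 2 * (d b + 1) with hq
    have hu : Function.update d b (d b + 1) = Function.update d b (q - 1 - d b) := by
      congr 1; omega
    unfold Kc
    refine integral_mono_of_nonneg (Filter.Eventually.of_forall fun x =>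
      integral_nonneg fun y => hY0 _) (TH_ker_ok_int η κ hη hκ d).integrableOn ?_
    refine ae_restrict_of_forall_mem (TH_ker_ok_meas η 0) fun x hx => ?_
    show ∫ y in {y : E3 | cellOf η y = Function.update d b (d b + 1)}, Yk κ (x - y) ≤
      ∫ y in {y : E3 | cellOf η y = d}, Yk κ (x - y)
    rw [TH_ker_ok_inner η hη b q d, hu]
    have hgi : Integrable (fun y => Yk κ (x - y)) := hYi.comp_sub_left x
    have hgi2 : Integrable (fun y => Yk κ (x - TH_ker_ok_T b (q * η) y)) :=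
      ((TH_ker_ok_T_mp b (q * η)).integrable_comp_emb (TH_ker_ok_T_emb b (q * η))).2 hgi
    refine integral_mono_ae hgi.integrableOn hgi2.integrableOn ?_
    have hne : ∀ᵐ y : E3, y ≠ (TH_ker_ok_T b (q * η)).symm x := by
      rw [ae_iff]
      simp
    refine (ae_restrict_iff' (TH_ker_ok_meas η _)).2 ?_
    filter_upwards [hne] with y hy hyc
    have hyb : ⌊y b / η⌋ = d b + 1 := by
      have := congrFun hyc b
      rw [← hu] at this
      simpa [cellOf] using this
    have hxb : ⌊x b / η⌋ = 0 := congrFun hx b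
    rw [Int.floor_eq_iff] at hyb hxb
    have hdr : (0 : ℝ) ≤ (d b : ℝ) := by exact_mod_cast hd
    have hx2 : x b ≤ (q * η) / 2 := by
      have h1 : x b / η * η = x b := by field_simp
      have h2 : x b / η ≤ d b + 1 := by
        have := hxb.2
        push_cast at this
        linarith
      have h3 := mul_le_mul_of_nonneg_right h2 hη.le
      rw [hq]
      push_cast
      rw [h1] at h3
      linarith
    have hy2 : (q * η) / 2 ≤ y b := by
      have h1 : y b / η * η = y b := by field_simp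
      have h2 : (d b : ℝ) + 1 ≤ y b / η := by
        have := hyb.1
        push_cast at this
        linarith
      have h3 := mul_le_mul_of_nonneg_right h2 hη.le
      rw [hq]
      push_cast
      rw [h1] at h3
      linarith
    have hn := TH_ker_ok_normle b (q * η) x y hx2 hy2
    have hpos : 0 < ‖x - TH_ker_ok_T b (q * η) y‖ := by
      rw [norm_pos_iff, sub_ne_zero]
      intro h
      apply hy
      rw [h, Homeomorph.symm_apply_apply]
    unfold Yk
    have hpi := Real.pi_pos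
    gcongr
end


/-! ### lat_F -/
section
theorem TH_lat_F_set (η : ℝ) (hη : 0 < η) (d : Fin 3 → ℤ) :
    {x : E3 | cellOf η x = d} = (WithLp.ofLp : E3 → (Fin 3 → ℝ)) ⁻¹'
      (Set.pi univ (fun b => Ico ((d b : ℝ) * η) (((d b : ℝ) + 1) * η))) := by
  ext x
  simp only [Set.mem_preimage, Set.mem_pi, Set.mem_univ, forall_true_left, Set.mem_Ico]
  constructor
  · intro h b
    have h1 : ⌊x b / η⌋ = d b := congrFun h b
    rw [Int.floor_eq_iff] at h1
    constructor
    · exact (le_div_iff₀ hη).mp h1.1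
    · exact (div_lt_iff₀ hη).mp h1.2
  · intro h
    show cellOf η x = d
    funext b
    show ⌊x b / η⌋ = d b
    rw [Int.floor_eq_iff]
    exact ⟨(le_div_iff₀ hη).mpr (h b).1, (div_lt_iff₀ hη).mpr (h b).2⟩

theorem TH_lat_F_pim (η : ℝ) (d : Fin 3 → ℤ) :
    MeasurableSet (Set.pi univ (fun b : Fin 3 => Ico ((d b : ℝ) * η) (((d b : ℝ) + 1) * η))) :=
  MeasurableSet.univ_pi (fun _ => measurableSet_Ico)

theorem TH_lat_F_meas (η : ℝ) (hη : 0 < η) (d : Fin 3 → ℤ) :
    MeasurableSet {x : E3 | cellOf η x = d} := by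
  rw [TH_lat_F_set η hη d]
  exact (PiLp.volume_preserving_ofLp (Fin 3)).measurable (TH_lat_F_pim η d)

theorem TH_lat_F_vol (η : ℝ) (hη : 0 < η) (d : Fin 3 → ℤ) :
    volume {x : E3 | cellOf η x = d} = ENNReal.ofReal (η ^ 3) := by
  rw [TH_lat_F_set η hη d,
    (PiLp.volume_preserving_ofLp (Fin 3)).measure_preimage (TH_lat_F_pim η d).nullMeasurableSet,
    Real.volume_pi_Ico]
  have h1 : ∀ b : Fin 3, ENNReal.ofReal (((d b : ℝ) + 1) * η - (d b : ℝ) * η) = ENNReal.ofReal η := by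
    intro b
    congr 1
    ring
  rw [Finset.prod_congr rfl (fun b _ => h1 b), Finset.prod_const, Finset.card_univ, Fintype.card_fin,
    ENNReal.ofReal_pow hη.le]

-- ===== TARGET =====
theorem lat_F (η : ℝ) (hη : 0 < η) (u : (Fin 3 → ℤ) →₀ ℝ) (F : ℝ → ℝ) (hF : F 0 = 0) :
    Integrable (fun x => F (stepf η u x)) ∧
    ∫ x, F (stepf η u x) = η ^ 3 * ∑ x ∈ u.support, F (u x) := by
  have hrep : (fun x => F (stepf η u x)) = fun x => ∑ d ∈ u.support,
      Set.indicator {x : E3 | cellOf η x = d} (fun _ => F (u d)) x := by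
    funext x
    by_cases hx : cellOf η x ∈ u.support
    · rw [Finset.sum_eq_single (cellOf η x)]
      · rw [Set.indicator_of_mem (show x ∈ {y : E3 | cellOf η y = cellOf η x} from rfl)]
        rfl
      · intro d _ hd
        have hn : x ∉ {x : E3 | cellOf η x = d} := fun h => hd (show cellOf η x = d from h).symm
        rw [Set.indicator_of_notMem hn]
      · intro h; exact absurd hx h
    · have h0 : stepf η u x = 0 := by
        unfold stepf
        exact Finsupp.notMem_support_iff.mp hx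
      rw [h0, hF]
      symm
      apply Finset.sum_eq_zero
      intro d hd
      apply Set.indicator_of_notMem
      intro h
      apply hx
      rw [show cellOf η x = d from h]
      exact hd
  have hfin : ∀ d, volume {x : E3 | cellOf η x = d} ≠ ⊤ := by
    intro d
    rw [TH_lat_F_vol η hη d]
    exact ENNReal.ofReal_ne_top
  have hint : ∀ d ∈ u.support, Integrable (Set.indicator {x : E3 | cellOf η x = d}
      (fun _ => F (u d))) := by
    intro d _
    rw [integrable_indicator_iff (TH_lat_F_meas η hη d)]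
    exact integrableOn_const (hfin d)
  rw [hrep]
  refine ⟨integrable_finsetSum _ hint, ?_⟩
  rw [integral_finsetSum _ hint, Finset.mul_sum]
  apply Finset.sum_congr rfl
  intro d _
  rw [integral_indicator_const _ (TH_lat_F_meas η hη d), smul_eq_mul, Measure.real,
    TH_lat_F_vol η hη d, ENNReal.toReal_ofReal (by positivity)]
end


/-! ### lat_K -/
section
-- ===== given lemmas (leave as they are, do not prove) =====




-- ===== TARGET =====
theorem TH_lat_K_meas (η : ℝ) (w : Fin 3 → ℤ) : MeasurableSet {x : E3 | cellOf η x = w} := by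
  have h : {x : E3 | cellOf η x = w} = ⋂ b, {x : E3 | ⌊x b / η⌋ = w b} := by
    ext x; simp [cellOf, funext_iff]
  rw [h]
  refine MeasurableSet.iInter fun b => ?_
  have hc : Continuous (fun x : E3 => x b / η) := by fun_prop
  have hm : Measurable (fun x : E3 => ⌊x b / η⌋) := Int.measurable_floor.comp hc.measurable
  exact hm (measurableSet_singleton _)

theorem TH_lat_K_fin (η : ℝ) (hη : 0 < η) (w : Fin 3 → ℤ) :
    volume {x : E3 | cellOf η x = w} < ⊤ := by
  have hsub : {x : E3 | cellOf η x = w} ⊆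
      closedBall (0 : E3) (Real.sqrt (∑ b : Fin 3, ((|(w b : ℝ)| + 1) * η) ^ 2)) := by
    intro x hx
    rw [mem_closedBall, dist_zero_right, EuclideanSpace.norm_eq]
    apply Real.sqrt_le_sqrt
    apply Finset.sum_le_sum
    intro b _
    have hb : ⌊x b / η⌋ = w b := congrFun hx b
    have h1 : (w b : ℝ) ≤ x b / η := by rw [← hb]; exact Int.floor_le _
    have h2 : x b / η < (w b : ℝ) + 1 := by rw [← hb]; exact Int.lt_floor_add_one _
    have h3 : |x b / η| ≤ |(w b : ℝ)| + 1 := by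
      rw [abs_le]
      constructor
      · have := neg_abs_le (w b : ℝ); linarith
      · have := le_abs_self (w b : ℝ); linarith
    have h4 : |x b| ≤ (|(w b : ℝ)| + 1) * η := by
      rw [abs_div, abs_of_pos hη, div_le_iff₀ hη] at h3
      exact h3
    rw [Real.norm_eq_abs]
    exact pow_le_pow_left₀ (abs_nonneg _) h4 2
  exact lt_of_le_of_lt (measure_mono hsub) measure_closedBall_lt_top

noncomputable def TH_lat_K_c (η : ℝ) (w : Fin 3 → ℤ) : E3 := WithLp.toLp 2 (fun b => (w b : ℝ) * η)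

theorem TH_lat_K_cell (η : ℝ) (hη : 0 < η) (x : E3) (w : Fin 3 → ℤ) :
    cellOf η (x + TH_lat_K_c η w) = cellOf η x + w := by
  funext b
  simp only [cellOf, TH_lat_K_c, PiLp.add_apply, Pi.add_apply]
  rw [add_div, mul_div_assoc, div_self hη.ne', mul_one, Int.floor_add_intCast]

theorem TH_lat_K_tr (η : ℝ) (hη : 0 < η) (w v : Fin 3 → ℤ) (f : E3 → ℝ) :
    ∫ x in {x : E3 | cellOf η x = v + w}, f x
      = ∫ x in {x : E3 | cellOf η x = v}, f (x + TH_lat_K_c η w) := by
  rw [← integral_indicator (TH_lat_K_meas η _), ← integral_indicator (TH_lat_K_meas η _)]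
  rw [← integral_add_right_eq_self _ (TH_lat_K_c η w)]
  congr 1; funext x
  by_cases h : cellOf η x = v
  · have h2 : cellOf η (x + TH_lat_K_c η w) = v + w := by rw [TH_lat_K_cell η hη, h]
    rw [Set.indicator_of_mem (show x + TH_lat_K_c η w ∈ {x : E3 | cellOf η x = v + w} from h2),
      Set.indicator_of_mem (show x ∈ {x : E3 | cellOf η x = v} from h)]
  · have h2 : ¬ cellOf η (x + TH_lat_K_c η w) = v + w := by
      rw [TH_lat_K_cell η hη]; intro h3; exact h (add_right_cancel h3)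
    rw [Set.indicator_of_notMem (show x + TH_lat_K_c η w ∉ {x : E3 | cellOf η x = v + w} from h2),
      Set.indicator_of_notMem (show x ∉ {x : E3 | cellOf η x = v} from h)]

theorem TH_lat_K_J (η κ : ℝ) (hη : 0 < η) (w v : Fin 3 → ℤ) :
    ∫ x in {x : E3 | cellOf η x = w}, ∫ y in {y : E3 | cellOf η y = v}, Yk κ (x - y)
      = Kc η κ (v - w) := by
  have h1 := TH_lat_K_tr η hη w 0 (fun x => ∫ y in {y : E3 | cellOf η y = v}, Yk κ (x - y))
  rw [zero_add] at h1
  rw [h1]
  unfold Kc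
  congr 1; funext x
  have h2 := TH_lat_K_tr η hη w (v - w) (fun y => Yk κ (x + TH_lat_K_c η w - y))
  rw [sub_add_cancel] at h2
  rw [h2]
  congr 1; funext y
  congr 1; abel

theorem TH_lat_K_neg (K : (Fin 3 → ℤ) → ℝ) (hK : KerOK K) (d : Fin 3 → ℤ) : K (-d) = K d := by
  have h0 := hK.2.1 d 0
  have h1 := hK.2.1 (Function.update d 0 (-(d 0))) 1
  have h2 := hK.2.1 (Function.update (Function.update d 0 (-(d 0))) 1
    (-((Function.update d 0 (-(d 0))) 1))) 2
  rw [h1, h0] at h2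
  rw [← h2]
  congr 1
  funext i
  fin_cases i <;> simp [Function.update]

theorem TH_lat_K_int (η κ : ℝ) (hη : 0 < η) (hκ : 0 < κ) (v : Fin 3 → ℤ) :
    Integrable (fun x : E3 => ∫ y in {y : E3 | cellOf η y = v}, Yk κ (x - y)) := by
  have hY : Integrable (Yk κ) := (yuk_basic κ hκ).1.2.1
  haveI : IsFiniteMeasure (volume.restrict {y : E3 | cellOf η y = v}) :=
    ⟨by rw [Measure.restrict_apply_univ]; exact TH_lat_K_fin η hη v⟩
  have h1 : Integrable (fun _ : E3 => (1 : ℝ)) (volume.restrict {y : E3 | cellOf η y = v}) :=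
    integrable_const _
  have h2 := Integrable.convolution_integrand (ContinuousLinearMap.mul ℝ ℝ) h1 hY
  have h3 := h2.integral_prod_left
  simpa using h3

theorem TH_lat_K_main (η κ : ℝ) (hη : 0 < η) (hκ : 0 < κ) (s t : Finset (Fin 3 → ℤ))
    (a b : (Fin 3 → ℤ) → ℝ) :
    ∫ x : E3, ∫ y : E3, (∑ i ∈ s, a i * Set.indicator {x : E3 | cellOf η x = i} (fun _ => (1:ℝ)) x)
      * (∑ j ∈ t, b j * Set.indicator {x : E3 | cellOf η x = j} (fun _ => (1:ℝ)) y) * Yk κ (x - y)
    = ∑ i ∈ s, ∑ j ∈ t, a i * b j * Kc η κ (i - j) := by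
  have hY : Integrable (Yk κ) := (yuk_basic κ hκ).1.2.1
  have hin : ∀ x : E3, ∫ y : E3, (∑ i ∈ s, a i * Set.indicator {x : E3 | cellOf η x = i} (fun _ => (1:ℝ)) x)
      * (∑ j ∈ t, b j * Set.indicator {x : E3 | cellOf η x = j} (fun _ => (1:ℝ)) y) * Yk κ (x - y)
      = ∑ i ∈ s, ∑ j ∈ t, a i * b j * Set.indicator {x : E3 | cellOf η x = i}
        (fun x => ∫ y in {y : E3 | cellOf η y = j}, Yk κ (x - y)) x := by
    intro x
    have hxy : Integrable (fun y : E3 => Yk κ (x - y)) := hY.comp_sub_left x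
    have e1 : ∀ y : E3, (∑ i ∈ s, a i * Set.indicator {x : E3 | cellOf η x = i} (fun _ => (1:ℝ)) x)
      * (∑ j ∈ t, b j * Set.indicator {x : E3 | cellOf η x = j} (fun _ => (1:ℝ)) y) * Yk κ (x - y)
      = ∑ i ∈ s, ∑ j ∈ t, (a i * b j * Set.indicator {x : E3 | cellOf η x = i} (fun _ => (1:ℝ)) x) *
          Set.indicator {y : E3 | cellOf η y = j} (fun y => Yk κ (x - y)) y := by
      intro y
      rw [Finset.sum_mul_sum, Finset.sum_mul]
      refine Finset.sum_congr rfl fun i _ => ?_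
      rw [Finset.sum_mul]
      refine Finset.sum_congr rfl fun j _ => ?_
      by_cases hj : y ∈ {y : E3 | cellOf η y = j}
      · rw [Set.indicator_of_mem hj, Set.indicator_of_mem hj]; ring
      · rw [Set.indicator_of_notMem hj, Set.indicator_of_notMem hj]; ring
    have hI : ∀ i j : Fin 3 → ℤ, Integrable (fun y : E3 => (a i * b j * Set.indicator {x : E3 | cellOf η x = i} (fun _ => (1:ℝ)) x) *
          Set.indicator {y : E3 | cellOf η y = j} (fun y => Yk κ (x - y)) y) := by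
      intro i j
      exact (hxy.indicator (TH_lat_K_meas η j)).const_mul _
    rw [integral_congr_ae (Filter.Eventually.of_forall e1)]
    rw [integral_finset_sum _ (fun i _ => integrable_finset_sum _ (fun j _ => hI i j))]
    refine Finset.sum_congr rfl fun i _ => ?_
    rw [integral_finset_sum _ (fun j _ => hI i j)]
    refine Finset.sum_congr rfl fun j _ => ?_
    rw [integral_const_mul, integral_indicator (TH_lat_K_meas η j)]
    by_cases hi : x ∈ {x : E3 | cellOf η x = i}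
    · rw [Set.indicator_of_mem hi, Set.indicator_of_mem hi, mul_one]
    · rw [Set.indicator_of_notMem hi, Set.indicator_of_notMem hi]; ring
  rw [integral_congr_ae (Filter.Eventually.of_forall hin)]
  have hJ : ∀ i j : Fin 3 → ℤ, Integrable (fun x : E3 => a i * b j * Set.indicator {x : E3 | cellOf η x = i}
        (fun x => ∫ y in {y : E3 | cellOf η y = j}, Yk κ (x - y)) x) := by
    intro i j
    exact ((TH_lat_K_int η κ hη hκ j).indicator (TH_lat_K_meas η i)).const_mul _
  rw [integral_finset_sum _ (fun i _ => integrable_finset_sum _ (fun j _ => hJ i j))]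
  refine Finset.sum_congr rfl fun i _ => ?_
  rw [integral_finset_sum _ (fun j _ => hJ i j)]
  refine Finset.sum_congr rfl fun j _ => ?_
  rw [integral_const_mul, integral_indicator (TH_lat_K_meas η i), TH_lat_K_J η κ hη i j]
  congr 1
  rw [← TH_lat_K_neg _ (ker_ok η κ hη hκ) (i - j), neg_sub]

theorem TH_lat_K_step (η : ℝ) (u : (Fin 3 → ℤ) →₀ ℝ) (x : E3) :
    stepf η u x = ∑ i ∈ u.support, u i * Set.indicator {x : E3 | cellOf η x = i} (fun _ => (1:ℝ)) x := by
  unfold stepf
  rw [Finset.sum_eq_single (cellOf η x)]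
  · rw [Set.indicator_of_mem (show x ∈ {x' : E3 | cellOf η x' = cellOf η x} from rfl), mul_one]
  · intro i _ hi
    rw [Set.indicator_of_notMem (show x ∉ {x' : E3 | cellOf η x' = i} from fun h => hi h.symm), mul_zero]
  · intro h
    rw [Finsupp.notMem_support_iff.mp h, zero_mul]

theorem TH_lat_K_cube (η : ℝ) (h : ℕ) (y0 : Fin 3 → ℤ) (x : E3) :
    cube η h y0 x = ∑ j ∈ box h y0, (1 / ((2 * (h : ℝ) + 1) * η) ^ 3) *
      Set.indicator {x : E3 | cellOf η x = j} (fun _ => (1:ℝ)) x := by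
  have hmem : cellOf η x ∈ box h y0 ↔ ∀ b, |cellOf η x b - y0 b| ≤ (h : ℤ) := by
    unfold box
    rw [Fintype.mem_piFinset]
    refine forall_congr' fun b => ?_
    rw [Finset.mem_Icc, abs_le]
    constructor
    · rintro ⟨h1, h2⟩; constructor <;> linarith
    · rintro ⟨h1, h2⟩; constructor <;> linarith
  unfold cube
  by_cases hx : ∀ b, |cellOf η x b - y0 b| ≤ (h : ℤ)
  · rw [Set.indicator_of_mem (show x ∈ {x : E3 | ∀ b, |cellOf η x b - y0 b| ≤ (h : ℤ)} from hx)]
    rw [Finset.sum_eq_single (cellOf η x)]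
    · rw [Set.indicator_of_mem (show x ∈ {x' : E3 | cellOf η x' = cellOf η x} from rfl), mul_one]
    · intro i _ hi
      rw [Set.indicator_of_notMem (show x ∉ {x' : E3 | cellOf η x' = i} from fun h => hi h.symm), mul_zero]
    · intro h'
      exact absurd (hmem.mpr hx) h'
  · rw [Set.indicator_of_notMem (show x ∉ {x : E3 | ∀ b, |cellOf η x b - y0 b| ≤ (h : ℤ)} from hx)]
    symm
    apply Finset.sum_eq_zero
    intro i hi
    rw [Set.indicator_of_notMem, mul_zero]
    intro hxi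
    apply hx
    apply hmem.mp
    have : cellOf η x = i := hxi
    rw [this]; exact hi

theorem lat_K (η κ : ℝ) (hη : 0 < η) (hκ : 0 < κ) (u : (Fin 3 → ℤ) →₀ ℝ) :
    (∫ x, ∫ y, stepf η u x * stepf η u y * Yk κ (x - y)
      = ∑ x ∈ u.support, ∑ y ∈ u.support, u x * u y * Kc η κ (x - y)) ∧
    ∀ (h : ℕ) (y0 : Fin 3 → ℤ), ∫ x, ∫ y, stepf η u x * cube η h y0 y * Yk κ (x - y)
      = 1 / ((2 * (h : ℝ) + 1) * η) ^ 3 * ∑ x ∈ u.support, ∑ w ∈ box h y0, u x * Kc η κ (x - w) := by
  constructor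
  · simp_rw [TH_lat_K_step η u]
    exact TH_lat_K_main η κ hη hκ u.support u.support u u
  · intro h y0
    simp_rw [TH_lat_K_step η u, TH_lat_K_cube η h y0]
    rw [TH_lat_K_main η κ hη hκ u.support (box h y0) u (fun _ => 1 / ((2 * (h : ℝ) + 1) * η) ^ 3)]
    rw [Finset.mul_sum]
    refine Finset.sum_congr rfl fun i _ => ?_
    rw [Finset.mul_sum]
    refine Finset.sum_congr rfl fun j _ => ?_
    ring
end


/-! ### cs_lattice -/
section
-- ===== given lemmas (leave as they are, do not prove) =====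










-- ===== helper lemmas =====
theorem TH_cs_lattice_meas_cell (η : ℝ) : Measurable (cellOf η) := by
  refine measurable_pi_iff.mpr fun b => ?_
  unfold cellOf
  refine Int.measurable_floor.comp ?_
  have h : Measurable (fun x : E3 => x b) := by fun_prop
  exact h.div_const η

theorem TH_cs_lattice_meas_stepf (η : ℝ) (u : (Fin 3 → ℤ) →₀ ℝ) : Measurable (stepf η u) :=
  (measurable_of_countable (u : (Fin 3 → ℤ) → ℝ)).comp (TH_cs_lattice_meas_cell η)

theorem TH_cs_lattice_meas_cube (η : ℝ) (h : ℕ) (y : Fin 3 → ℤ) : Measurable (cube η h y) := by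
  have e : cube η h y = (Set.indicator {v : Fin 3 → ℤ | ∀ b, |v b - y b| ≤ (h : ℤ)}
      (fun _ => 1 / ((2 * (h : ℝ) + 1) * η) ^ 3)) ∘ cellOf η := by
    funext x
    rfl
  rw [e]
  exact (measurable_of_countable _).comp (TH_cs_lattice_meas_cell η)

theorem TH_cs_lattice_cube_bd (η : ℝ) (hη : 0 < η) (h : ℕ) (y : Fin 3 → ℤ) (x : E3) :
    0 ≤ cube η h y x ∧ cube η h y x ≤ 1 / ((2 * (h : ℝ) + 1) * η) ^ 3 := by
  have hC : 0 ≤ 1 / ((2 * (h : ℝ) + 1) * η) ^ 3 := by positivity
  unfold cube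
  refine ⟨Set.indicator_nonneg (fun _ _ => hC) x, ?_⟩
  exact Set.indicator_le_self' (fun _ _ => hC) x

theorem TH_cs_lattice_inner (η κ : ℝ) (hη : 0 < η) (hκ : 0 < κ) (a : ℝ) (h : ℕ) (y0 : Fin 3 → ℤ)
    (x : E3) : Integrable (fun y => a * cube η h y0 y * Yk κ (x - y)) := by
  have hY : Integrable (Yk κ) := (yuk_basic κ hκ).1.2.1
  have h1 : Integrable (fun y => Yk κ (x - y)) := hY.comp_sub_left x
  refine h1.bdd_mul (c := |a| * (1 / ((2 * (h : ℝ) + 1) * η) ^ 3)) ?_ ?_
  · exact ((TH_cs_lattice_meas_cube η h y0).const_mul a).aestronglyMeasurable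
  · refine Filter.Eventually.of_forall fun y => ?_
    rw [norm_mul, Real.norm_eq_abs, Real.norm_eq_abs]
    have := TH_cs_lattice_cube_bd η hη h y0 y
    rw [abs_of_nonneg this.1]
    exact mul_le_mul_of_nonneg_left this.2 (abs_nonneg a)

theorem TH_cs_lattice_outer (η κ : ℝ) (hη : 0 < η) (hκ : 0 < κ) (u : (Fin 3 → ℤ) →₀ ℝ) (h : ℕ)
    (y0 : Fin 3 → ℤ) :
    Integrable (fun x => ∫ y, stepf η u x * cube η h y0 y * Yk κ (x - y)) := by
  obtain ⟨hN, hY0, hY1, -⟩ := yuk_basic κ hκ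
  have hY : Integrable (Yk κ) := hN.2.1
  have hYm : Measurable (Yk κ) := hN.1
  have hf : Integrable (stepf η u) := (lat_F η hη u (fun v => v) rfl).1
  have e : (fun x => ∫ y, stepf η u x * cube η h y0 y * Yk κ (x - y)) =
      fun x => (∫ y, cube η h y0 y * Yk κ (x - y)) * stepf η u x := by
    funext x
    rw [mul_comm, ← integral_const_mul]
    refine integral_congr_ae (Filter.Eventually.of_forall fun y => ?_)
    simp only
    ring
  rw [e]
  refine hf.bdd_mul (c := 1 / ((2 * (h : ℝ) + 1) * η) ^ 3) ?_ ?_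
  · have hm : StronglyMeasurable
        (Function.uncurry fun x y : E3 => cube η h y0 y * Yk κ (x - y)) := by
      refine Measurable.stronglyMeasurable ?_
      exact ((TH_cs_lattice_meas_cube η h y0).comp measurable_snd).mul
        (hYm.comp (measurable_fst.sub measurable_snd))
    exact hm.integral_prod_right.aestronglyMeasurable
  · refine Filter.Eventually.of_forall fun x => ?_
    have h1 : Integrable (fun y => Yk κ (x - y)) := hY.comp_sub_left x
    have hint : ∫ y, Yk κ (x - y) = 1 := by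
      rw [integral_sub_left_eq_self (fun y => Yk κ y) volume x]
      exact hY1
    calc ‖∫ y, cube η h y0 y * Yk κ (x - y)‖ ≤ ∫ y, ‖cube η h y0 y * Yk κ (x - y)‖ :=
          norm_integral_le_integral_norm _
      _ ≤ ∫ y, (1 / ((2 * (h : ℝ) + 1) * η) ^ 3) * Yk κ (x - y) := by
          refine integral_mono_of_nonneg (Filter.Eventually.of_forall fun y => norm_nonneg _)
            (h1.const_mul _) (Filter.Eventually.of_forall fun y => ?_)
          simp only
          rw [norm_mul, Real.norm_eq_abs, Real.norm_eq_abs]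
          have hb := TH_cs_lattice_cube_bd η hη h y0 y
          rw [abs_of_nonneg hb.1, abs_of_nonneg (hY0 _)]
          exact mul_le_mul_of_nonneg_right hb.2 (hY0 _)
      _ = 1 / ((2 * (h : ℝ) + 1) * η) ^ 3 := by
          rw [integral_const_mul, hint, mul_one]

theorem TH_cs_lattice_nuc (η κ : ℝ) (hη : 0 < η) (hκ : 0 < κ) (u : (Fin 3 → ℤ) →₀ ℝ)
    (k : ℕ) (z : Fin k → ℝ) (h : ℕ) (y : Fin k → Fin 3 → ℤ) :
    (∫ x, ∫ w, stepf η u x * Mcube z η h y w * Yk κ (x - w)) =
      ∑ j, z j * (1 / ((2 * (h : ℝ) + 1) * η) ^ 3 *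
        ∑ x ∈ u.support, ∑ w ∈ box h (y j), u x * Kc η κ (x - w)) := by
  have e1 : ∀ x : E3, (∫ w, stepf η u x * Mcube z η h y w * Yk κ (x - w)) =
      ∑ j, z j * ∫ w, stepf η u x * cube η h (y j) w * Yk κ (x - w) := by
    intro x
    have e : (fun w => stepf η u x * Mcube z η h y w * Yk κ (x - w)) =
        fun w => ∑ j, z j * (stepf η u x * cube η h (y j) w * Yk κ (x - w)) := by
      funext w
      unfold Mcube
      rw [Finset.mul_sum, Finset.sum_mul]
      refine Finset.sum_congr rfl fun j _ => ?_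
      ring
    rw [e, integral_finsetSum]
    · refine Finset.sum_congr rfl fun j _ => ?_
      rw [integral_const_mul]
    · intro j _
      exact (TH_cs_lattice_inner η κ hη hκ (stepf η u x) h (y j) x).const_mul (z j)
  simp only [e1]
  rw [integral_finsetSum]
  · refine Finset.sum_congr rfl fun j _ => ?_
    rw [integral_const_mul, (lat_K η κ hη hκ u).2 h (y j)]
  · intro j _
    exact (TH_cs_lattice_outer η κ hη hκ u h (y j)).const_mul (z j)

-- ===== TARGET =====
theorem cs_lattice (η κ μ lam : ℝ) (hη : 0 < η) (hκ : 0 < κ) (hμ : 0 ≤ μ) (W : ℕ) (c : ℤ → ℤ)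
    (hc : ∀ s, c s ≤ c (s + 1) ∧ c (s + 1) ≤ c s + 1)
    (u : (Fin 3 → ℤ) →₀ ℝ) (hu : ∀ x, 0 ≤ u x) :
    ∃ u' : (Fin 3 → ℤ) →₀ ℝ, (∀ x, 0 ≤ u' x) ∧
      ∀ (k : ℕ) (z : Fin k → ℝ), (∀ j, 0 ≤ z j) → ∀ (h : ℕ) (y : Fin k → Fin 3 → ℤ),
        (∀ j b, |y j b| ≤ (W : ℤ)) →
        Gd κ μ lam (Mcube z η h y) (stepf η u)
          ≤ Gd κ μ lam (Mcube z η h (fun j b => c (y j b))) (stepf η u') := by
  obtain ⟨u', hu', hF, hK, hN⟩ := disc_all W c hc u hu
  refine ⟨u', hu', ?_⟩
  intro k z hz h y hy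
  have hker := ker_ok η κ hη hκ
  have hF1 : (∫ x, (max (stepf η u x - μ) 0) ^ (5/2 : ℝ)) =
      ∫ x, (max (stepf η u' x - μ) 0) ^ (5/2 : ℝ) := by
    have h0 : (fun v : ℝ => (max (v - μ) 0) ^ (5/2 : ℝ)) 0 = 0 := by
      have : max (0 - μ) 0 = 0 := max_eq_right (by linarith)
      simp only [this]
      exact Real.zero_rpow (by norm_num)
    have h1 := (lat_F η hη u (fun v : ℝ => (max (v - μ) 0) ^ (5/2 : ℝ)) h0).2
    have h2 := (lat_F η hη u' (fun v : ℝ => (max (v - μ) 0) ^ (5/2 : ℝ)) h0).2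
    have h3 := hF (fun v : ℝ => (max (v - μ) 0) ^ (5/2 : ℝ)) h0
    rw [h1, h2, h3]
  have hF2 : (∫ x, stepf η u x ^ 2) = ∫ x, stepf η u' x ^ 2 := by
    have h0 : (fun v : ℝ => v ^ 2) 0 = 0 := by norm_num
    have h1 := (lat_F η hη u (fun v : ℝ => v ^ 2) h0).2
    have h2 := (lat_F η hη u' (fun v : ℝ => v ^ 2) h0).2
    have h3 := hF (fun v : ℝ => v ^ 2) h0
    rw [h1, h2, h3]
  have hD : (∫ x, ∫ w, stepf η u x * stepf η u w * Yk κ (x - w)) ≤
      ∫ x, ∫ w, stepf η u' x * stepf η u' w * Yk κ (x - w) := by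
    rw [(lat_K η κ hη hκ u).1, (lat_K η κ hη hκ u').1]
    exact hK _ hker
  have hNu : (∫ x, ∫ w, stepf η u x * Mcube z η h y w * Yk κ (x - w)) ≤
      ∫ x, ∫ w, stepf η u' x * Mcube z η h (fun j b => c (y j b)) w * Yk κ (x - w) := by
    rw [TH_cs_lattice_nuc η κ hη hκ u k z h y,
      TH_cs_lattice_nuc η κ hη hκ u' k z h (fun j b => c (y j b))]
    refine Finset.sum_le_sum fun j _ => ?_
    refine mul_le_mul_of_nonneg_left ?_ (hz j)
    refine mul_le_mul_of_nonneg_left ?_ (by positivity)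
    exact hN _ hker h (y j) (hy j)
  unfold Gd
  rw [hF1, hF2]
  have hκ2 : 0 ≤ κ ^ 2 / (8 * Real.pi) := by positivity
  have h5 := mul_le_mul_of_nonneg_left hD hκ2
  nlinarith [h5, hNu]
end


/-! ### ar_side -/
section
-- ===== given lemmas (leave as they are, do not prove) =====






/-- Yukawa mollification of `f` -/
noncomputable def TH_ar_side_h (κ : ℝ) (f : E3 → ℝ) (x : E3) : ℝ := ∫ y, f y * Yk κ (x - y)



theorem TH_ar_side_basic_int (F : E3 → ℝ) (hF : Measurable F) (K r : ℝ) (h1 : ∀ x, |F x| ≤ K)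
    (h2 : ∀ x, r < ‖x‖ → F x = 0) : Integrable F := by
  have hfin : volume (closedBall (0 : E3) r) ≠ ⊤ := measure_closedBall_lt_top.ne
  have hI0 : IntegrableOn (fun _ : E3 => K) (closedBall (0 : E3) r) volume :=
    integrableOn_const hfin
  have hI : Integrable (Set.indicator (closedBall (0 : E3) r) (fun _ => K)) volume :=
    (integrable_indicator_iff measurableSet_closedBall).mpr hI0
  refine hI.mono' hF.aestronglyMeasurable (Filter.Eventually.of_forall fun x => ?_)
  by_cases hx : x ∈ closedBall (0 : E3) r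
  · rw [Set.indicator_of_mem hx, Real.norm_eq_abs]
    exact h1 x
  · rw [Set.indicator_of_notMem hx]
    have : r < ‖x‖ := by
      rw [mem_closedBall, dist_zero_right] at hx
      exact not_le.mp hx
    rw [h2 x this, norm_zero]

-- ===== TARGET (prove only this; helper lemmas before it, names prefixed TH_ar_side_basic_) =====
theorem TH_ar_side_basic (κ : ℝ) (hκ : 0 < κ)
    (f : E3 → ℝ) (hf : Measurable f) (hf0 : ∀ x, 0 ≤ f x) (B : ℝ) (hfB : ∀ x, f x ≤ B)
    (r : ℝ) (hfr : ∀ x, r < ‖x‖ → f x = 0) :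
    Nice f ∧ Nice (TH_ar_side_h κ f) ∧ (∀ x, 0 ≤ TH_ar_side_h κ f x) ∧
    (∀ x, TH_ar_side_h κ f x ≤ B) ∧ (∀ x, Integrable (fun y => f y * Yk κ (x - y))) := by
  obtain ⟨hY, hY0, hY1, -⟩ := yuk_basic κ hκ
  have hYm : Measurable (Yk κ) := hY.1
  have hYi : Integrable (Yk κ) := hY.2.1
  have hB : 0 ≤ B := le_trans (hf0 0) (hfB 0)
  have hfi : Integrable f := TH_ar_side_basic_int f hf B r (fun x => by
    rw [abs_of_nonneg (hf0 x)]; exact hfB x) hfr
  have hNf : Nice f := by
    refine ⟨hf, hfi, ?_⟩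
    refine TH_ar_side_basic_int _ (hf.abs.pow_const _) (B ^ (5 / 3 : ℝ)) r (fun x => ?_)
      (fun x hx => ?_)
    · rw [abs_of_nonneg (hf0 x), abs_of_nonneg (Real.rpow_nonneg (hf0 x) _)]
      exact Real.rpow_le_rpow (hf0 x) (hfB x) (by norm_num)
    · rw [hfr x hx, abs_zero, Real.zero_rpow (by norm_num)]
  have hYx : ∀ x : E3, Integrable (fun y => Yk κ (x - y)) := fun x => hYi.comp_sub_left x
  have hint : ∀ x : E3, Integrable (fun y => f y * Yk κ (x - y)) := by
    intro x
    refine ((hYx x).const_mul B).mono' ?_ (Filter.Eventually.of_forall fun y => ?_)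
    · exact (hf.mul (hYm.comp (measurable_const.sub measurable_id))).aestronglyMeasurable
    · rw [Real.norm_eq_abs, abs_of_nonneg (mul_nonneg (hf0 y) (hY0 _))]
      exact mul_le_mul_of_nonneg_right (hfB y) (hY0 _)
  have hnn : ∀ x, 0 ≤ TH_ar_side_h κ f x := fun x =>
    integral_nonneg (fun y => mul_nonneg (hf0 y) (hY0 _))
  have hle : ∀ x, TH_ar_side_h κ f x ≤ B := by
    intro x
    unfold TH_ar_side_h
    calc ∫ y, f y * Yk κ (x - y) ≤ ∫ y, B * Yk κ (x - y) :=
          integral_mono (hint x) ((hYx x).const_mul B) (fun y =>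
            mul_le_mul_of_nonneg_right (hfB y) (hY0 _))
      _ = B * ∫ y, Yk κ (x - y) := integral_const_mul _ _
      _ = B * ∫ y, Yk κ y := by rw [integral_sub_left_eq_self (Yk κ) volume x]
      _ = B := by rw [hY1, mul_one]
  have hm : Measurable (TH_ar_side_h κ f) := by
    have h1 : Measurable (Function.uncurry (fun (x y : E3) => f y * Yk κ (x - y))) := by
      exact (hf.comp measurable_snd).mul (hYm.comp (measurable_fst.sub measurable_snd))
    have h2 := (h1.stronglyMeasurable).integral_prod_right (ν := (volume : Measure E3))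
    exact h2.measurable
  have hi : Integrable (TH_ar_side_h κ f) := by
    have h1 := MeasureTheory.Integrable.integrable_convolution (μ := (volume : Measure E3))
      (ContinuousLinearMap.mul ℝ ℝ) hfi hYi
    exact h1
  refine ⟨hNf, ⟨hm, hi, ?_⟩, hnn, hle, hint⟩
  refine (hi.const_mul (B ^ (2 / 3 : ℝ))).mono' (hm.abs.pow_const _).aestronglyMeasurable
    (Filter.Eventually.of_forall fun x => ?_)
  rw [abs_of_nonneg (hnn x), Real.norm_eq_abs, abs_of_nonneg (Real.rpow_nonneg (hnn x) _)]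
  have e : (TH_ar_side_h κ f x) ^ (5 / 3 : ℝ) =
      (TH_ar_side_h κ f x) ^ (2 / 3 : ℝ) * TH_ar_side_h κ f x := by
    rw [show (5 / 3 : ℝ) = 2 / 3 + 1 by norm_num,
      Real.rpow_add_of_nonneg (hnn x) (by norm_num) (by norm_num), Real.rpow_one]
  rw [e]
  exact mul_le_mul_of_nonneg_right (Real.rpow_le_rpow (hnn x) (hle x) (by norm_num)) (hnn x)





-- ===== TARGET (prove only this; helper lemmas before it, names prefixed TH_ar_side_pot_) =====
theorem TH_ar_side_pot (κ : ℝ) (hκ : 0 < κ)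
    (f : E3 → ℝ) (hf : Measurable f) (hf0 : ∀ x, 0 ≤ f x) (B : ℝ) (hfB : ∀ x, f x ≤ B)
    (r : ℝ) (hfr : ∀ x, r < ‖x‖ → f x = 0) (x : E3) :
    pot f x - pot (TH_ar_side_h κ f) x = 4 * Real.pi / κ ^ 2 * TH_ar_side_h κ f x := by
  obtain ⟨hnf, hnh, hh0, hhB, hint⟩ := TH_ar_side_basic κ hκ f hf hf0 B hfB r hfr
  obtain ⟨⟨hYm, hYi, _⟩, hY0, hY1, hYpot⟩ := yuk_basic κ hκ
  have hFm : Measurable (fun p : E3 × E3 => f p.2 * Yk κ (p.1 - p.2) / ‖x - p.1‖) := by
    have h1 : Measurable (fun p : E3 × E3 => f p.2) := hf.comp measurable_snd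
    have h2 : Measurable (fun p : E3 × E3 => Yk κ (p.1 - p.2)) :=
      hYm.comp (measurable_fst.sub measurable_snd)
    have h3 : Measurable (fun p : E3 × E3 => ‖x - p.1‖) :=
      (measurable_const.sub measurable_fst).norm
    exact (h1.mul h2).div h3
  have hFi : Integrable (fun p : E3 × E3 => f p.2 * Yk κ (p.1 - p.2) / ‖x - p.1‖)
      ((volume : Measure E3).prod (volume : Measure E3)) := by
    rw [integrable_prod_iff hFm.aestronglyMeasurable]
    constructor
    · filter_upwards with z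
      exact (hint z).div_const _
    · have hEq : (fun z : E3 => ∫ y, ‖f y * Yk κ (z - y) / ‖x - z‖‖)
          = fun z => TH_ar_side_h κ f z / ‖x - z‖ := by
        funext z
        have h1 : ∀ y, ‖f y * Yk κ (z - y) / ‖x - z‖‖ = (f y * Yk κ (z - y)) / ‖x - z‖ := by
          intro y
          exact Real.norm_of_nonneg (div_nonneg (mul_nonneg (hf0 y) (hY0 _)) (norm_nonneg _))
        simp_rw [h1]
        rw [integral_div]
        rfl
      obtain ⟨B', hB'⟩ := nice_bound _ hnh
      have := (hB' x).1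
      rw [← hEq] at this
      exact this
  have hswap : ∫ z : E3, ∫ y : E3, f y * Yk κ (z - y) / ‖x - z‖
      = ∫ y : E3, ∫ z : E3, f y * Yk κ (z - y) / ‖x - z‖ :=
    integral_integral_swap (f := fun z y : E3 => f y * Yk κ (z - y) / ‖x - z‖) hFi
  have hpoth : pot (TH_ar_side_h κ f) x = ∫ z : E3, ∫ y : E3, f y * Yk κ (z - y) / ‖x - z‖ := by
    unfold pot
    refine integral_congr_ae (Eventually.of_forall fun z => ?_)
    simp only
    rw [integral_div]
    rfl
  have hinner : ∀ᵐ y : E3, (∫ z : E3, f y * Yk κ (z - y) / ‖x - z‖)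
      = f y / ‖x - y‖ - 4 * Real.pi / κ ^ 2 * (f y * Yk κ (x - y)) := by
    have hne : ∀ᵐ y : E3, y ≠ x := by
      have := compl_mem_ae_iff.mpr (measure_singleton (μ := (volume : Measure E3)) x)
      filter_upwards [this] with y hy
      simpa using hy
    filter_upwards [hne] with y hy
    have h1 : (∫ z : E3, f y * Yk κ (z - y) / ‖x - z‖)
        = f y * ∫ z : E3, Yk κ (z - y) / ‖x - y - (z - y)‖ := by
      rw [← integral_const_mul]
      refine integral_congr_ae (Eventually.of_forall fun z => ?_)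
      simp only
      rw [sub_sub_sub_cancel_right, mul_div_assoc]
    have h2 : (∫ z : E3, Yk κ (z - y) / ‖x - y - (z - y)‖)
        = ∫ w : E3, Yk κ w / ‖x - y - w‖ :=
      integral_sub_right_eq_self (fun w : E3 => Yk κ w / ‖x - y - w‖) y
    have hxy : x - y ≠ 0 := sub_ne_zero.mpr (Ne.symm hy)
    rw [h1, h2, hYpot _ hxy]
    have hn : ‖x - y‖ ≠ 0 := norm_ne_zero_iff.mpr hxy
    have hpi : Real.pi ≠ 0 := Real.pi_ne_zero
    unfold Yk
    field_simp
    try ring
  have hE : Integrable (fun y : E3 => 4 * Real.pi / κ ^ 2 * (f y * Yk κ (x - y))) :=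
    (hint x).const_mul _
  obtain ⟨B1, hB1⟩ := nice_bound f hnf
  have hfint := (hB1 x).1
  rw [hpoth, hswap, integral_congr_ae hinner, integral_sub hfint hE, integral_const_mul]
  unfold pot TH_ar_side_h
  ring





-- ===== TARGET (prove only this; helper lemmas before it, names prefixed TH_ar_side_swap_) =====
theorem TH_ar_side_swap (κ : ℝ) (hκ : 0 < κ)
    (f : E3 → ℝ) (hf : Measurable f) (hf0 : ∀ x, 0 ≤ f x) (B : ℝ) (hfB : ∀ x, f x ≤ B)
    (r : ℝ) (hfr : ∀ x, r < ‖x‖ → f x = 0) (M : E3 → ℝ) (hM : Nice M) :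
    ∫ x, M x * TH_ar_side_h κ f x = ∫ x, ∫ y, f x * M y * Yk κ (x - y) := by
  obtain ⟨hYN, hY0, hY1, -⟩ := yuk_basic κ hκ
  have hYm : Measurable (Yk κ) := hYN.1
  have hYi : Integrable (Yk κ) := hYN.2.1
  have hMi : Integrable M := hM.2.1
  have hsym : ∀ x y : E3, Yk κ (x - y) = Yk κ (y - x) := by
    intro x y
    unfold Yk
    rw [norm_sub_rev]
  have h1 : Integrable (fun p : E3 × E3 => M p.2 * Yk κ (p.1 - p.2)) (volume.prod volume) := by
    have := hMi.convolution_integrand (ContinuousLinearMap.mul ℝ ℝ) hYi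
    simpa using this
  have h2 : Integrable (fun p : E3 × E3 => M p.1 * Yk κ (p.2 - p.1)) (volume.prod volume) :=
    h1.swap
  have h3 : Integrable (fun p : E3 × E3 => f p.2 * (M p.1 * Yk κ (p.2 - p.1)))
      (volume.prod volume) := by
    refine h2.bdd_mul (c := B) ?_ ?_
    · exact (hf.comp measurable_snd).aestronglyMeasurable
    · refine Filter.Eventually.of_forall fun p => ?_
      rw [Real.norm_eq_abs, abs_of_nonneg (hf0 _)]
      exact hfB _
  have h4 : Integrable (Function.uncurry (fun x y : E3 => M x * (f y * Yk κ (x - y))))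
      (volume.prod volume) := by
    refine h3.congr (Filter.Eventually.of_forall fun p => ?_)
    show f p.2 * (M p.1 * Yk κ (p.2 - p.1)) = M p.1 * (f p.2 * Yk κ (p.1 - p.2))
    rw [hsym p.1 p.2]
    ring
  have e1 : ∫ x, M x * TH_ar_side_h κ f x = ∫ x, ∫ y, M x * (f y * Yk κ (x - y)) := by
    refine integral_congr_ae (Filter.Eventually.of_forall fun x => ?_)
    show M x * TH_ar_side_h κ f x = ∫ y, M x * (f y * Yk κ (x - y))
    rw [integral_const_mul]
    rfl
  rw [e1, integral_integral_swap h4]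
  refine integral_congr_ae (Filter.Eventually.of_forall fun x => ?_)
  refine integral_congr_ae (Filter.Eventually.of_forall fun y => ?_)
  show M y * (f x * Yk κ (y - x)) = f x * M y * Yk κ (x - y)
  rw [hsym x y]
  ring




-- ===== TARGET (prove only this; helper lemmas before it, names prefixed TH_ar_side_pd_) =====
theorem TH_ar_side_pd_nice (g N : E3 → ℝ) (hg : Nice g) (hN : Nice N) : Nice (fun x => g x - N x) := by
  refine ⟨hg.1.sub hN.1, hg.2.1.sub hN.2.1, ?_⟩
  have hb : Integrable (fun x => (2:ℝ) ^ (5/3 : ℝ) * (|g x| ^ (5/3 : ℝ) + |N x| ^ (5/3 : ℝ))) :=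
    (hg.2.2.add hN.2.2).const_mul _
  refine hb.mono' ?_ ?_
  · exact (((hg.1.sub hN.1).abs).pow_const _).aestronglyMeasurable
  · refine ae_of_all _ (fun x => ?_)
    rw [Real.norm_eq_abs, abs_of_nonneg (by positivity)]
    have h1 : |g x - N x| ≤ 2 * max |g x| |N x| := by
      have := abs_sub (g x) (N x)
      have h2 := le_max_left |g x| |N x|
      have h3 := le_max_right |g x| |N x|
      linarith
    have h4 : |g x - N x| ^ (5/3 : ℝ) ≤ (2 * max |g x| |N x|) ^ (5/3 : ℝ) :=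
      Real.rpow_le_rpow (abs_nonneg _) h1 (by norm_num)
    rw [Real.mul_rpow (by norm_num) (le_max_of_le_left (abs_nonneg _))] at h4
    refine h4.trans ?_
    apply mul_le_mul_of_nonneg_left _ (by positivity)
    rcases max_cases |g x| |N x| with ⟨h, _⟩ | ⟨h, _⟩
    · rw [h]
      have : 0 ≤ |N x| ^ (5/3 : ℝ) := by positivity
      linarith
    · rw [h]
      have : 0 ≤ |g x| ^ (5/3 : ℝ) := by positivity
      linarith

theorem TH_ar_side_pd_meas2 (a b : E3 → ℝ) (ha : Measurable a) (hb : Measurable b) :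
    Measurable (fun p : E3 × E3 => a p.1 * b p.2 / ‖p.1 - p.2‖) := by
  have h1 : Measurable (fun p : E3 × E3 => a p.1) := ha.comp measurable_fst
  have h2 : Measurable (fun p : E3 × E3 => b p.2) := hb.comp measurable_snd
  have h3 : Measurable (fun p : E3 × E3 => ‖p.1 - p.2‖) := (measurable_fst.sub measurable_snd).norm
  exact (h1.mul h2).div h3

theorem TH_ar_side_pd_potmeas (b : E3 → ℝ) (hb : Measurable b) : StronglyMeasurable (pot b) := by
  have h1 : Measurable (fun p : E3 × E3 => b p.2 / ‖p.1 - p.2‖) := by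
    have h2 : Measurable (fun p : E3 × E3 => b p.2) := hb.comp measurable_snd
    have h3 : Measurable (fun p : E3 × E3 => ‖p.1 - p.2‖) := (measurable_fst.sub measurable_snd).norm
    exact h2.div h3
  exact StronglyMeasurable.integral_prod_right (f := fun x y => b y / ‖x - y‖) h1.stronglyMeasurable

theorem TH_ar_side_pd_int (a b : E3 → ℝ) (ha : Nice a) (hb : Nice b) :
    Integrable (fun x => a x * pot b x) := by
  obtain ⟨B, hB⟩ := nice_bound b hb
  refine (ha.2.1.abs.mul_const B).mono' ?_ ?_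
  · exact (ha.1.aestronglyMeasurable).mul (TH_ar_side_pd_potmeas b hb.1).aestronglyMeasurable
  · refine ae_of_all _ (fun x => ?_)
    rw [norm_mul, Real.norm_eq_abs, Real.norm_eq_abs]
    apply mul_le_mul_of_nonneg_left _ (abs_nonneg _)
    have h1 : |pot b x| ≤ ∫ y, |b y / ‖x - y‖| := by
      unfold pot
      exact abs_integral_le_integral_abs
    refine h1.trans (le_trans (le_of_eq ?_) (hB x).2)
    apply integral_congr_ae
    refine ae_of_all _ (fun y => ?_)
    show |b y / ‖x - y‖| = |b y| / ‖x - y‖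
    rw [abs_div, abs_of_nonneg (norm_nonneg _)]

theorem TH_ar_side_pd_inner (a b : E3 → ℝ) (x : E3) :
    ∫ y, a x * b y / ‖x - y‖ = a x * pot b x := by
  unfold pot
  rw [← integral_const_mul]
  apply integral_congr_ae
  refine ae_of_all _ (fun y => ?_)
  show a x * b y / ‖x - y‖ = a x * (b y / ‖x - y‖)
  rw [mul_div_assoc]

theorem TH_ar_side_pd_swap (a b : E3 → ℝ) (ha : Nice a) (hb : Nice b) :
    ∫ x, a x * pot b x = ∫ x, b x * pot a x := by
  obtain ⟨B, hB⟩ := nice_bound b hb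
  have hm := TH_ar_side_pd_meas2 a b ha.1 hb.1
  have hint : Integrable (Function.uncurry fun x y => a x * b y / ‖x - y‖)
      ((volume : Measure E3).prod volume) := by
    have hm' : AEStronglyMeasurable (Function.uncurry fun x y => a x * b y / ‖x - y‖)
        ((volume : Measure E3).prod volume) := hm.aestronglyMeasurable
    rw [integrable_prod_iff hm']
    constructor
    · refine ae_of_all _ (fun x => ?_)
      have h1 := (hB x).1.const_mul (a x)
      refine h1.congr (ae_of_all _ (fun y => ?_))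
      show a x * (b y / ‖x - y‖) = a x * b y / ‖x - y‖
      rw [mul_div_assoc]
    · refine (ha.2.1.abs.mul_const B).mono' ?_ ?_
      · have : StronglyMeasurable (fun x : E3 => ∫ y : E3, ‖a x * b y / ‖x - y‖‖) :=
          StronglyMeasurable.integral_prod_right (f := fun x y => ‖a x * b y / ‖x - y‖‖) hm.norm.stronglyMeasurable
        exact this.aestronglyMeasurable
      · refine ae_of_all _ (fun x => ?_)
        have e1 : (∫ y : E3, ‖a x * b y / ‖x - y‖‖) = |a x| * ∫ y, |b y| / ‖x - y‖ := by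
          rw [← integral_const_mul]
          apply integral_congr_ae
          refine ae_of_all _ (fun y => ?_)
          show ‖a x * b y / ‖x - y‖‖ = |a x| * (|b y| / ‖x - y‖)
          rw [norm_div, norm_mul, norm_norm, Real.norm_eq_abs, Real.norm_eq_abs, mul_div_assoc]
        show ‖∫ y : E3, ‖a x * b y / ‖x - y‖‖‖ ≤ |a x| * B
        rw [e1, Real.norm_eq_abs, abs_of_nonneg]
        · exact mul_le_mul_of_nonneg_left (hB x).2 (abs_nonneg _)
        · apply mul_nonneg (abs_nonneg _)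
          exact integral_nonneg (fun y => by positivity)
  have h1 := integral_integral_swap hint
  have e1 : (∫ x, ∫ y, a x * b y / ‖x - y‖) = ∫ x, a x * pot b x := by
    apply integral_congr_ae
    exact ae_of_all _ (fun x => TH_ar_side_pd_inner a b x)
  have e2 : (∫ y, ∫ x, a x * b y / ‖x - y‖) = ∫ x, b x * pot a x := by
    apply integral_congr_ae
    refine ae_of_all _ (fun y => ?_)
    show (∫ x, a x * b y / ‖x - y‖) = b y * pot a y
    rw [← TH_ar_side_pd_inner]
    apply integral_congr_ae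
    refine ae_of_all _ (fun x => ?_)
    show a x * b y / ‖x - y‖ = b y * a x / ‖y - x‖
    rw [norm_sub_rev, mul_comm (a x)]
  rw [← e1, h1, e2]

theorem TH_ar_side_pd (g N : E3 → ℝ) (hg : Nice g) (hN : Nice N) :
    (∫ x, g x * pot N x) - 1/2 * (∫ x, N x * pot N x) ≤ 1/2 * ∫ x, ∫ y, g x * g y / ‖x - y‖ := by
  have hh := TH_ar_side_pd_nice g N hg hN
  have hpd := coulomb_pd (fun x => g x - N x) hh
  obtain ⟨B1, hB1⟩ := nice_bound g hg
  obtain ⟨B2, hB2⟩ := nice_bound N hN
  have hpot : ∀ x, pot (fun x => g x - N x) x = pot g x - pot N x := by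
    intro x
    unfold pot
    rw [← integral_sub (hB1 x).1 (hB2 x).1]
    apply integral_congr_ae
    refine ae_of_all _ (fun y => ?_)
    show (g y - N y) / ‖x - y‖ = g y / ‖x - y‖ - N y / ‖x - y‖
    rw [sub_div]
  have e0 : (∫ x, ∫ y, (g x - N x) * (g y - N y) / ‖x - y‖)
      = ∫ x, (g x * pot g x - g x * pot N x - N x * pot g x + N x * pot N x) := by
    apply integral_congr_ae
    refine ae_of_all _ (fun x => ?_)
    show (∫ y, (g x - N x) * (g y - N y) / ‖x - y‖) = _
    have := TH_ar_side_pd_inner (fun x => g x - N x) (fun x => g x - N x) x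
    rw [this, hpot x]
    ring
  have i1 := TH_ar_side_pd_int g g hg hg
  have i2 := TH_ar_side_pd_int g N hg hN
  have i3 := TH_ar_side_pd_int N g hN hg
  have i4 := TH_ar_side_pd_int N N hN hN
  have e5 : (∫ x, (g x * pot g x - g x * pot N x - N x * pot g x + N x * pot N x))
      = (∫ x, g x * pot g x) - (∫ x, g x * pot N x) - (∫ x, N x * pot g x) + ∫ x, N x * pot N x := by
    have j1 : Integrable (fun x => g x * pot g x - g x * pot N x) := i1.sub i2
    have j2 : Integrable (fun x => g x * pot g x - g x * pot N x - N x * pot g x) := j1.sub i3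
    rw [integral_add j2 i4, integral_sub j1 i3, integral_sub i1 i2]
  have e6 := TH_ar_side_pd_swap N g hN hg
  have e7 : (∫ x, ∫ y, g x * g y / ‖x - y‖) = ∫ x, g x * pot g x := by
    apply integral_congr_ae
    exact ae_of_all _ (fun x => TH_ar_side_pd_inner g g x)
  have hpd' : 0 ≤ ∫ x, ∫ y, (g x - N x) * (g y - N y) / ‖x - y‖ := hpd
  rw [e0, e5, e6] at hpd'
  rw [e7]
  linarith




-- ===== TARGET (prove only this; helper lemmas before it, names prefixed TH_ar_side_young_) =====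
theorem TH_ar_side_young (μ lam : ℝ) (hμ : 0 ≤ μ) (h : E3 → ℝ) (hh : Nice h) (hh0 : ∀ x, 0 ≤ h x)
    (B : ℝ) (hhB : ∀ x, h x ≤ B) (ρ : E3 → ℝ) (hρ : Adm ρ) (hm : ∫ x, ρ x = lam) :
    -(2/5) * (∫ x, (max (h x - μ) 0) ^ (5/2 : ℝ)) - μ * lam ≤
      3/5 * (∫ x, ρ x ^ (5/3 : ℝ)) - ∫ x, ρ x * h x := by
  obtain ⟨hρm, hρ0, hρi, hρp⟩ := hρ
  obtain ⟨hhm, hhi, _⟩ := hh
  have hB : 0 ≤ B := (hh0 0).trans (hhB 0)
  have hpq : (5/3 : ℝ).HolderConjugate (5/2) := by
    rw [Real.holderConjugate_iff]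
    constructor <;> norm_num
  have hpt : ∀ x, 0 ≤ (3/5 * ρ x ^ (5/3 : ℝ) - ρ x * h x) + μ * ρ x
      + 2/5 * (max (h x - μ) 0) ^ (5/2 : ℝ) := by
    intro x
    have h1 := Real.young_inequality_of_nonneg (hρ0 x) (le_max_right (h x - μ) 0) hpq
    have h2 : ρ x * (h x - μ) ≤ ρ x * max (h x - μ) 0 :=
      mul_le_mul_of_nonneg_left (le_max_left _ _) (hρ0 x)
    have h3 : ρ x ^ (5/3 : ℝ) / (5/3) = 3/5 * ρ x ^ (5/3 : ℝ) := by ring
    have h4 : (max (h x - μ) 0) ^ (5/2 : ℝ) / (5/2) = 2/5 * (max (h x - μ) 0) ^ (5/2 : ℝ) := by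
      ring
    rw [h3, h4] at h1
    nlinarith
  have i1 : Integrable (fun x => 3/5 * ρ x ^ (5/3 : ℝ)) := hρp.const_mul _
  have i2 : Integrable (fun x => ρ x * h x) := by
    refine (hρi.const_mul B).mono' (hρm.mul hhm).aestronglyMeasurable ?_
    refine Filter.Eventually.of_forall (fun x => ?_)
    rw [Real.norm_eq_abs, abs_of_nonneg (mul_nonneg (hρ0 x) (hh0 x)), mul_comm]
    exact mul_le_mul_of_nonneg_right (hhB x) (hρ0 x)
  have i3 : Integrable (fun x => μ * ρ x) := hρi.const_mul _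
  have i4 : Integrable (fun x => (max (h x - μ) 0) ^ (5/2 : ℝ)) := by
    refine (hhi.const_mul (B ^ (3/2 : ℝ))).mono' ?_ ?_
    · exact (((hhm.sub_const μ).max measurable_const).pow_const _).aestronglyMeasurable
    · refine Filter.Eventually.of_forall (fun x => ?_)
      have ht0 : 0 ≤ max (h x - μ) 0 := le_max_right _ _
      have ht1 : max (h x - μ) 0 ≤ h x := max_le (by linarith) (hh0 x)
      rw [Real.norm_eq_abs, abs_of_nonneg (Real.rpow_nonneg ht0 _)]
      have e : (5/2 : ℝ) = 3/2 + 1 := by norm_num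
      rw [e, Real.rpow_add_of_nonneg ht0 (by norm_num) (by norm_num), Real.rpow_one]
      exact mul_le_mul (Real.rpow_le_rpow ht0 (ht1.trans (hhB x)) (by norm_num)) ht1 ht0
        (Real.rpow_nonneg hB _)
  have i5 : Integrable (fun x => 2/5 * (max (h x - μ) 0) ^ (5/2 : ℝ)) := i4.const_mul _
  have j1 : Integrable (fun x => 3/5 * ρ x ^ (5/3 : ℝ) - ρ x * h x) := i1.sub i2
  have j2 : Integrable (fun x => (3/5 * ρ x ^ (5/3 : ℝ) - ρ x * h x) + μ * ρ x) := j1.add i3
  have hI : 0 ≤ ∫ x, ((3/5 * ρ x ^ (5/3 : ℝ) - ρ x * h x) + μ * ρ x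
      + 2/5 * (max (h x - μ) 0) ^ (5/2 : ℝ)) := integral_nonneg hpt
  rw [integral_add j2 i5, integral_add j1 i3, integral_sub i1 i2, integral_const_mul,
    integral_const_mul, integral_const_mul, hm] at hI
  linarith





theorem TH_ar_side_jensen_convex (μ : ℝ) :
    ConvexOn ℝ univ (fun s : ℝ => (max (s - μ) 0) ^ (5/2 : ℝ)) := by
  refine ⟨convex_univ, fun x _ y _ a b ha hb hab => ?_⟩
  have h1 : max (a • x + b • y - μ) 0 ≤ a • max (x - μ) 0 + b • max (y - μ) 0 := by
    simp only [smul_eq_mul]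
    apply max_le
    · have h2 := mul_le_mul_of_nonneg_left (le_max_left (x - μ) 0) ha
      have h3 := mul_le_mul_of_nonneg_left (le_max_left (y - μ) 0) hb
      have h4 : a * x + b * y - μ = a * (x - μ) + b * (y - μ) := by
        have : μ = (a + b) * μ := by rw [hab, one_mul]
        linear_combination (-1 : ℝ) * this
      rw [h4]
      linarith
    · have h2 := mul_nonneg ha (le_max_right (x - μ) 0)
      have h3 := mul_nonneg hb (le_max_right (y - μ) 0)
      linarith
  calc (max (a • x + b • y - μ) 0) ^ (5/2 : ℝ)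
      ≤ (a • max (x - μ) 0 + b • max (y - μ) 0) ^ (5/2 : ℝ) :=
        Real.rpow_le_rpow (le_max_right _ _) h1 (by norm_num)
    _ ≤ a • (max (x - μ) 0) ^ (5/2 : ℝ) + b • (max (y - μ) 0) ^ (5/2 : ℝ) :=
        (convexOn_rpow (p := (5/2 : ℝ)) (by norm_num)).2
          (le_max_right _ _ : (0:ℝ) ≤ max (x - μ) 0) (le_max_right _ _ : (0:ℝ) ≤ max (y - μ) 0)
          ha hb hab

theorem TH_ar_side_jensen_cont (μ : ℝ) :
    Continuous (fun s : ℝ => (max (s - μ) 0) ^ (5/2 : ℝ)) :=
  (((continuous_id.sub continuous_const).max continuous_const)).rpow_const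
    (fun _ => Or.inr (by norm_num))

-- ===== TARGET (prove only this; helper lemmas before it, names prefixed TH_ar_side_jensen_) =====
theorem TH_ar_side_jensen (κ : ℝ) (hκ : 0 < κ)
    (f : E3 → ℝ) (hf : Measurable f) (hf0 : ∀ x, 0 ≤ f x) (B : ℝ) (hfB : ∀ x, f x ≤ B)
    (r : ℝ) (hfr : ∀ x, r < ‖x‖ → f x = 0) (μ : ℝ) (hμ : 0 ≤ μ) :
    ∫ x, (max (TH_ar_side_h κ f x - μ) 0) ^ (5/2 : ℝ) ≤ ∫ x, (max (f x - μ) 0) ^ (5/2 : ℝ) := by
  obtain ⟨hY, hY0, hY1, -⟩ := yuk_basic κ hκ
  have hYm : Measurable (Yk κ) := hY.1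
  have hYi : Integrable (Yk κ) := hY.2.1
  obtain ⟨φ, hφ⟩ : ∃ φ : ℝ → ℝ, φ = fun s : ℝ => (max (s - μ) 0) ^ (5/2 : ℝ) := ⟨_, rfl⟩
  have hφc : Continuous φ := hφ ▸ TH_ar_side_jensen_cont μ
  have hφv : ConvexOn ℝ univ φ := hφ ▸ TH_ar_side_jensen_convex μ
  have hφ0 : ∀ s, 0 ≤ φ s := by
    intro s
    rw [hφ]
    exact Real.rpow_nonneg (le_max_right _ _) _
  have hφle : ∀ s, s ≤ B → φ s ≤ φ B := by
    intro s hs
    rw [hφ]
    refine Real.rpow_le_rpow (le_max_right _ _) ?_ (by norm_num)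
    exact max_le_max (by linarith) le_rfl
  have hφz : φ 0 = 0 := by
    rw [hφ]
    show (max ((0:ℝ) - μ) 0) ^ (5/2 : ℝ) = 0
    rw [max_eq_right (by linarith), Real.zero_rpow (by norm_num)]
  have hFm : Measurable (fun y => φ (f y)) := hφc.measurable.comp hf
  have hFi : Integrable (fun y => φ (f y)) := by
    have h1 : Integrable ((closedBall (0 : E3) r).indicator (fun _ => φ B)) := by
      rw [integrable_indicator_iff measurableSet_closedBall]
      exact integrableOn_const (measure_closedBall_lt_top.ne)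
    refine h1.mono' hFm.aestronglyMeasurable (ae_of_all _ fun y => ?_)
    rw [Real.norm_of_nonneg (hφ0 _)]
    by_cases hy : y ∈ closedBall (0 : E3) r
    · rw [indicator_of_mem hy]
      exact hφle _ (hfB y)
    · rw [indicator_of_notMem hy]
      have : r < ‖y‖ := by simpa using hy
      rw [hfr y this, hφz]
  -- pointwise Jensen
  have hpt : ∀ x, φ (TH_ar_side_h κ f x) ≤ ∫ y, φ (f y) * Yk κ (x - y) := by
    intro x
    have hdm : Measurable (fun y => ENNReal.ofReal (Yk κ (x - y))) :=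
      (hYm.comp (measurable_const.sub measurable_id)).ennreal_ofReal
    have hlt : ∀ᵐ y : E3, ENNReal.ofReal (Yk κ (x - y)) < ∞ :=
      ae_of_all _ fun y => ENNReal.ofReal_lt_top
    have hYx : Integrable (fun y => Yk κ (x - y)) := hYi.comp_sub_left x
    have hprob : IsProbabilityMeasure
        ((volume : Measure E3).withDensity (fun y => ENNReal.ofReal (Yk κ (x - y)))) := by
      constructor
      rw [withDensity_apply _ MeasurableSet.univ, Measure.restrict_univ,
        ← ofReal_integral_eq_lintegral_ofReal hYx (ae_of_all _ fun y => hY0 _),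
        integral_sub_left_eq_self (fun y => Yk κ y), hY1, ENNReal.ofReal_one]
    have hconv : ∀ g : E3 → ℝ,
        ∫ y, g y ∂((volume : Measure E3).withDensity (fun y => ENNReal.ofReal (Yk κ (x - y)))) =
          ∫ y, g y * Yk κ (x - y) := by
      intro g
      rw [integral_withDensity_eq_integral_toReal_smul hdm hlt]
      refine integral_congr_ae (ae_of_all _ fun y => ?_)
      simp only [smul_eq_mul]
      rw [ENNReal.toReal_ofReal (hY0 _), mul_comm]
    have hJ := ConvexOn.map_integral_le (f := f) (g := φ) (s := univ)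
      (μ := (volume : Measure E3).withDensity (fun y => ENNReal.ofReal (Yk κ (x - y))))
      hφv hφc.continuousOn isClosed_univ (ae_of_all _ fun _ => mem_univ _)
      (Integrable.of_bound hf.aestronglyMeasurable B (ae_of_all _ fun y => by
        rw [Real.norm_of_nonneg (hf0 y)]
        exact hfB y))
      (Integrable.of_bound hFm.aestronglyMeasurable (φ B) (ae_of_all _ fun y => by
        rw [Function.comp, Real.norm_of_nonneg (hφ0 _)]
        exact hφle _ (hfB y)))
    rw [hconv, hconv] at hJ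
    exact hJ
  have hG : Integrable (fun x => ∫ y, φ (f y) * Yk κ (x - y)) :=
    Integrable.integrable_convolution (ContinuousLinearMap.mul ℝ ℝ) hFi hYi
  have hI : ∫ x, (∫ y, φ (f y) * Yk κ (x - y)) = ∫ y, φ (f y) := by
    have h := integral_convolution (μ := (volume : Measure E3)) (ν := (volume : Measure E3))
      (ContinuousLinearMap.mul ℝ ℝ) hFi hYi
    rw [hY1] at h
    simpa [convolution] using h
  have hmain : ∫ x, φ (TH_ar_side_h κ f x) ≤ ∫ x, (∫ y, φ (f y) * Yk κ (x - y)) :=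
    integral_mono_of_nonneg (ae_of_all _ fun x => hφ0 _) hG (ae_of_all _ hpt)
  rw [hI] at hmain
  rw [hφ] at hmain
  exact hmain


theorem TH_ar_side_nice_iff (g : E3 → ℝ) : Nice g ↔ Measurable g ∧ Integrable g ∧ MemLp g (5/3) := by
  unfold Nice
  have h53 : (5/3 : ℝ≥0∞).toReal = 5/3 := by
    rw [ENNReal.toReal_div]; simp
  constructor
  · rintro ⟨h1, h2, h3⟩
    refine ⟨h1, h2, ?_⟩
    rw [← integrable_norm_rpow_iff h1.aestronglyMeasurable (by simp) (ENNReal.div_ne_top (by simp) (by simp)), h53]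
    exact h3
  · rintro ⟨h1, h2, h3⟩
    refine ⟨h1, h2, ?_⟩
    rw [← integrable_norm_rpow_iff h1.aestronglyMeasurable (by simp) (ENNReal.div_ne_top (by simp) (by simp)), h53] at h3
    exact h3

theorem TH_ar_side_nice_sub (a b : E3 → ℝ) (ha : Nice a) (hb : Nice b) : Nice (fun x => a x - b x) := by
  rw [TH_ar_side_nice_iff] at *
  exact ⟨ha.1.sub hb.1, ha.2.1.sub hb.2.1, ha.2.2.sub hb.2.2⟩

theorem TH_ar_side_nice_mul (c : ℝ) (a : E3 → ℝ) (ha : Nice a) : Nice (fun x => c * a x) := by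
  rw [TH_ar_side_nice_iff] at *
  exact ⟨ha.1.const_mul c, ha.2.1.const_mul c, ha.2.2.const_mul c⟩

theorem TH_ar_side_bdd (a b : E3 → ℝ) (ha : Integrable a) (hb : Measurable b) (B : ℝ)
    (h0 : ∀ x, 0 ≤ b x) (hB : ∀ x, b x ≤ B) : Integrable (fun x => a x * b x) := by
  have h1 : Integrable (fun x => b x * a x) := ha.bdd_mul (c := B) hb.aestronglyMeasurable
    (Filter.Eventually.of_forall fun x => by
      rw [Real.norm_eq_abs, abs_of_nonneg (h0 x)]; exact hB x)
  exact h1.congr (Filter.Eventually.of_forall fun x => mul_comm _ _)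

-- ===== TARGET =====
theorem ar_side (κ μ lam : ℝ) (hκ : 0 < κ) (hμ : 0 ≤ μ) (M : E3 → ℝ) (hM : Nice M)
    (f : E3 → ℝ) (hf : Measurable f) (hf0 : ∀ x, 0 ≤ f x) (B : ℝ) (hfB : ∀ x, f x ≤ B)
    (r : ℝ) (hfr : ∀ x, r < ‖x‖ → f x = 0) (ρ : E3 → ℝ) (hρ : Adm ρ) (hm : ∫ x, ρ x = lam) :
    Gd κ μ lam M f ≤ xs M ρ := by
  obtain ⟨hNf, hNh, hh0, hhB, _⟩ := TH_ar_side_basic κ hκ f hf hf0 B hfB r hfr
  have hpot := TH_ar_side_pot κ hκ f hf hf0 B hfB r hfr
  have hswM := TH_ar_side_swap κ hκ f hf hf0 B hfB r hfr M hM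
  have hswf := TH_ar_side_swap κ hκ f hf hf0 B hfB r hfr f hNf
  have hyoung := TH_ar_side_young μ lam hμ (TH_ar_side_h κ f) hNh hh0 B hhB ρ hρ hm
  have hjen := TH_ar_side_jensen κ hκ f hf hf0 B hfB r hfr μ hμ
  set h := TH_ar_side_h κ f with hh
  have hpi : 0 < Real.pi := Real.pi_pos
  have hNρ : Nice ρ := by
    obtain ⟨h1, h2, h3, h4⟩ := hρ
    refine ⟨h1, h3, ?_⟩
    have : (fun x => |ρ x| ^ (5/3 : ℝ)) = fun x => ρ x ^ (5/3 : ℝ) := by
      funext x; rw [abs_of_nonneg (h2 x)]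
    rw [this]; exact h4
  have hNg := TH_ar_side_nice_sub M ρ hM hNρ
  have hNN := TH_ar_side_nice_mul (κ ^ 2 / (4 * Real.pi)) _ (TH_ar_side_nice_sub f h hNf hNh)
  have hpotN : ∀ x, pot (fun x => κ ^ 2 / (4 * Real.pi) * (f x - h x)) x = h x := by
    intro x
    obtain ⟨B1, hB1⟩ := nice_bound f hNf
    obtain ⟨B2, hB2⟩ := nice_bound h hNh
    have e1 : pot (fun x => κ ^ 2 / (4 * Real.pi) * (f x - h x)) x =
        κ ^ 2 / (4 * Real.pi) * (pot f x - pot h x) := by
      unfold pot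
      rw [← integral_sub (hB1 x).1 (hB2 x).1, ← integral_const_mul]
      refine integral_congr_ae (Filter.Eventually.of_forall fun y => ?_)
      simp only
      ring
    rw [e1, hpot x]
    field_simp
  have hpd := TH_ar_side_pd _ _ hNg hNN
  have e2 : (∫ x, (M x - ρ x) * pot (fun x => κ ^ 2 / (4 * Real.pi) * (f x - h x)) x) =
      (∫ x, M x * h x) - ∫ x, ρ x * h x := by
    rw [← integral_sub (TH_ar_side_bdd M h hM.2.1 hNh.1 B hh0 hhB) (TH_ar_side_bdd ρ h hNρ.2.1 hNh.1 B hh0 hhB)]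
    refine integral_congr_ae (Filter.Eventually.of_forall fun x => ?_)
    simp only
    rw [hpotN x]; ring
  have iff1 := TH_ar_side_bdd f h hNf.2.1 hNh.1 B hh0 hhB
  have iff2 := TH_ar_side_bdd h h hNh.2.1 hNh.1 B hh0 hhB
  have iff3 := TH_ar_side_bdd f f hNf.2.1 hNf.1 B hf0 hfB
  have e3 : (∫ x, (κ ^ 2 / (4 * Real.pi) * (f x - h x)) *
      pot (fun x => κ ^ 2 / (4 * Real.pi) * (f x - h x)) x) =
      κ ^ 2 / (4 * Real.pi) * ((∫ x, f x * h x) - ∫ x, h x * h x) := by
    rw [← integral_sub iff1 iff2, ← integral_const_mul]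
    refine integral_congr_ae (Filter.Eventually.of_forall fun x => ?_)
    simp only
    rw [hpotN x]; ring
  have e4 : 0 ≤ (∫ x, f x * f x) - (∫ x, f x * h x) - (∫ x, f x * h x) + ∫ x, h x * h x := by
    have i31 : Integrable (fun x => f x * f x - f x * h x) := iff3.sub iff1
    have i311 : Integrable (fun x => f x * f x - f x * h x - f x * h x) := i31.sub iff1
    have q : ∫ x, (f x - h x) * (f x - h x) =
        (∫ x, f x * f x) - (∫ x, f x * h x) - (∫ x, f x * h x) + ∫ x, h x * h x := by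
      have q1 : (fun x => (f x - h x) * (f x - h x)) =
          fun x => (f x * f x - f x * h x - f x * h x) + h x * h x := by funext x; ring
      rw [q1, integral_add i311 iff2, integral_sub i31 iff1, integral_sub iff3 iff1]
    rw [← q]
    exact integral_nonneg (fun x => mul_self_nonneg _)
  have e5 : (∫ x, f x ^ 2) = ∫ x, f x * f x := by
    refine integral_congr_ae (Filter.Eventually.of_forall fun x => ?_)
    simp only; ring
  rw [e2, e3] at hpd
  unfold Gd xs
  rw [e5, ← hswM, ← hswf]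
  have hc : κ ^ 2 / (4 * Real.pi) = 2 * (κ ^ 2 / (8 * Real.pi)) := by field_simp; norm_num
  rw [hc] at hpd
  have hc0 : 0 ≤ κ ^ 2 / (8 * Real.pi) := by positivity
  have e6 := mul_nonneg hc0 e4
  set a := κ ^ 2 / (8 * Real.pi)
  linarith
end


/-! ### mass_up -/
section
-- ===== given lemmas (leave as they are, do not prove) =====





theorem TH_mass_up_conv (a b t : ℝ) (ha : 0 ≤ a) (hb : 0 ≤ b) (ht : 0 < t) (ht1 : t < 1) :
    (a + b) ^ (5/3 : ℝ) ≤ (1 - t)⁻¹ * a ^ (5/3 : ℝ) + t⁻¹ * b ^ (5/3 : ℝ) := by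
  have h1t : 0 < 1 - t := by linarith
  have hc := (convexOn_rpow (p := (5/3 : ℝ)) (by norm_num)).2 (x := a / (1 - t)) (y := b / t)
    (Set.mem_Ici.2 (by positivity)) (Set.mem_Ici.2 (by positivity)) h1t.le ht.le (by ring)
  simp only [smul_eq_mul] at hc
  rw [mul_div_cancel₀ _ h1t.ne', mul_div_cancel₀ _ ht.ne'] at hc
  refine hc.trans ?_
  have key : ∀ (s c : ℝ), 0 < s → s < 1 → 0 ≤ c → s * (c / s) ^ (5/3 : ℝ) ≤ s⁻¹ * c ^ (5/3 : ℝ) := by
    intro s c hs hs1 hc0
    rw [Real.div_rpow hc0 hs.le]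
    have h2 : s ^ (2 : ℝ) ≤ s ^ (5/3 : ℝ) :=
      Real.rpow_le_rpow_of_exponent_ge hs hs1.le (by norm_num)
    have h3 : s ^ (2 : ℝ) = s * s := by
      rw [show (2 : ℝ) = ((2 : ℕ) : ℝ) by norm_num, Real.rpow_natCast]; ring
    rw [h3] at h2
    have h4 : 0 ≤ c ^ (5/3 : ℝ) := Real.rpow_nonneg hc0 _
    have h5 : c ^ (5/3 : ℝ) / s ^ (5/3 : ℝ) ≤ c ^ (5/3 : ℝ) / (s * s) :=
      div_le_div_of_nonneg_left h4 (by positivity) h2
    calc s * (c ^ (5/3 : ℝ) / s ^ (5/3 : ℝ)) ≤ s * (c ^ (5/3 : ℝ) / (s * s)) :=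
          mul_le_mul_of_nonneg_left h5 hs.le
      _ = s⁻¹ * c ^ (5/3 : ℝ) := by field_simp
  exact add_le_add (key _ _ h1t (by linarith) ha) (key _ _ ht ht1 hb)

theorem TH_mass_up_scale (F : E3 → ℝ) (t : ℝ) (ht : 0 < t) :
    ∫ x : E3, F (t • x) = (t ^ 3)⁻¹ * ∫ x, F x := by
  have := MeasureTheory.Measure.integral_comp_smul (volume : Measure E3) F t
  rw [this, smul_eq_mul, abs_of_nonneg (by positivity)]
  simp

theorem TH_mass_up_int (F : E3 → ℝ) (t : ℝ) (ht : 0 < t) (hF : Integrable F) :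
    Integrable (fun x : E3 => F (t • x)) :=
  hF.comp_smul ht.ne'

theorem TH_mass_up_potmeas (g : E3 → ℝ) (hg : Measurable g) :
    StronglyMeasurable (fun x : E3 => ∫ y, g y / ‖x - y‖) := by
  have : StronglyMeasurable (Function.uncurry (fun x y : E3 => g y / ‖x - y‖)) := by
    apply Measurable.stronglyMeasurable
    unfold Function.uncurry
    fun_prop
  exact this.integral_prod_right

/-- f integrable, g nice : f * pot g integrable with bound -/
theorem TH_mass_up_fp (f g : E3 → ℝ) (hf : Integrable f) (hg : Measurable g) (B : ℝ)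
    (hB : ∀ x : E3, ∫ y, |g y| / ‖x - y‖ ≤ B) :
    Integrable (fun x => f x * ∫ y, g y / ‖x - y‖) ∧
      |∫ x, f x * ∫ y, g y / ‖x - y‖| ≤ B * ∫ x, |f x| := by
  have hbd : ∀ x : E3, ‖∫ y, g y / ‖x - y‖‖ ≤ B := by
    intro x
    refine (norm_integral_le_integral_norm _).trans ?_
    refine le_trans (le_of_eq ?_) (hB x)
    congr 1
    funext y
    rw [norm_div, Real.norm_eq_abs, norm_norm]
  have h1 : Integrable (fun x => f x * ∫ y, g y / ‖x - y‖) := by
    refine hf.mul_bdd (c := B) (TH_mass_up_potmeas g hg).aestronglyMeasurable ?_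
    exact Filter.Eventually.of_forall hbd
  refine ⟨h1, ?_⟩
  rw [← Real.norm_eq_abs]
  refine (norm_integral_le_integral_norm _).trans ?_
  rw [← integral_const_mul]
  apply integral_mono h1.norm (hf.abs.const_mul B)
  intro x
  show ‖f x * ∫ y, g y / ‖x - y‖‖ ≤ B * |f x|
  rw [norm_mul, Real.norm_eq_abs, mul_comm]
  exact mul_le_mul_of_nonneg_right (hbd x) (abs_nonneg _)

theorem TH_mass_up_swap (f g : E3 → ℝ) (hf : Measurable f) (hfi : Integrable f) (hg : Nice g) :
    ∫ x, f x * ∫ y, g y / ‖x - y‖ = ∫ x, g x * ∫ y, f y / ‖x - y‖ := by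
  obtain ⟨B, hB⟩ := nice_bound g hg
  have hint : Integrable (Function.uncurry (fun x y : E3 => f x * (g y / ‖x - y‖)))
      ((volume : Measure E3).prod volume) := by
    rw [integrable_prod_iff]
    · refine ⟨Filter.Eventually.of_forall fun x => ?_, ?_⟩
      · exact (hB x).1.const_mul (f x)
      · have hga : Measurable (fun y => |g y|) := hg.1.abs
        have := (TH_mass_up_fp (fun x => |f x|) (fun y => |g y|) hfi.abs hga B (fun x => by
          simpa using (hB x).2)).1
        convert this using 2 with x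
        rw [← integral_const_mul]
        congr 1
        funext y
        simp [Function.uncurry, abs_mul, abs_div]
    · apply Measurable.aestronglyMeasurable
      have := hg.1
      unfold Function.uncurry
      fun_prop
  have h1 : ∫ x, f x * ∫ y, g y / ‖x - y‖ = ∫ x, ∫ y, f x * (g y / ‖x - y‖) := by
    congr 1; funext x; rw [integral_const_mul]
  have h2 : ∫ x, g x * ∫ y, f y / ‖x - y‖ = ∫ y, ∫ x, f x * (g y / ‖x - y‖) := by
    congr 1; funext x; rw [← integral_const_mul]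
    congr 1; funext y
    rw [norm_sub_rev]; ring
  rw [h1, h2]
  exact integral_integral_swap hint

theorem TH_mass_up_nice_of_adm (ρ : E3 → ℝ) (h : Adm ρ) : Nice ρ :=
  ⟨h.1, h.2.2.1, by simpa [abs_of_nonneg (h.2.1 _)] using h.2.2.2⟩

theorem TH_mass_up_nice_sub (f g : E3 → ℝ) (hf : Nice f) (hg : Nice g) : Nice (fun x => f x - g x) := by
  refine ⟨hf.1.sub hg.1, hf.2.1.sub hg.2.1, ?_⟩
  have hb : Integrable (fun x => (2 : ℝ) ^ (5/3 : ℝ) * (|f x| ^ (5/3 : ℝ) + |g x| ^ (5/3 : ℝ))) :=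
    (hf.2.2.add hg.2.2).const_mul _
  refine hb.mono' ?_ (Filter.Eventually.of_forall fun x => ?_)
  · exact (((hf.1.sub hg.1).abs).pow_const _).aestronglyMeasurable
  · rw [Real.norm_eq_abs, abs_of_nonneg (Real.rpow_nonneg (abs_nonneg _) _)]
    have h1 : |f x - g x| ≤ 2 * max |f x| |g x| := by
      have := abs_sub (f x) (g x)
      have h2 := le_max_left |f x| |g x|
      have h3 := le_max_right |f x| |g x|
      linarith
    calc |f x - g x| ^ (5/3 : ℝ) ≤ (2 * max |f x| |g x|) ^ (5/3 : ℝ) :=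
          Real.rpow_le_rpow (abs_nonneg _) h1 (by norm_num)
      _ = 2 ^ (5/3 : ℝ) * (max |f x| |g x|) ^ (5/3 : ℝ) :=
          Real.mul_rpow (by norm_num) (le_max_of_le_left (abs_nonneg _))
      _ ≤ _ := by
          apply mul_le_mul_of_nonneg_left _ (by positivity)
          have p1 : 0 ≤ |f x| ^ (5/3 : ℝ) := by positivity
          have p2 : 0 ≤ |g x| ^ (5/3 : ℝ) := by positivity
          rcases max_cases |f x| |g x| with h | h <;> rw [h.1] <;> linarith

theorem TH_mass_up_expand (h g : E3 → ℝ) (hh : Nice h) (hg : Nice g) (hg0 : ∀ x, 0 ≤ g x) (b : ℝ)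
    (hb : ∀ x : E3, ∫ y, |g y| / ‖x - y‖ ≤ b) :
    ∫ x, ∫ y, (h x - g x) * (h y - g y) / ‖x - y‖ ≤
      (∫ x, ∫ y, h x * h y / ‖x - y‖) + 2 * (b * ∫ x, |h x|) + b * ∫ x, g x := by
  obtain ⟨Bh, hBh⟩ := nice_bound h hh
  obtain ⟨Bg, hBg⟩ := nice_bound g hg
  have e1 : ∀ x, ∫ y, (h x - g x) * (h y - g y) / ‖x - y‖ =
      h x * (∫ y, h y / ‖x - y‖) - h x * (∫ y, g y / ‖x - y‖) -
        (g x * (∫ y, h y / ‖x - y‖) - g x * (∫ y, g y / ‖x - y‖)) := by
    intro x
    have : (fun y => (h x - g x) * (h y - g y) / ‖x - y‖) =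
        fun y => (h x - g x) * (h y / ‖x - y‖ - g y / ‖x - y‖) := by
      funext y; ring
    rw [this, integral_const_mul, integral_sub (hBh x).1 (hBg x).1]
    ring
  have i1 := TH_mass_up_fp h h hh.2.1 hh.1 Bh (fun x => (hBh x).2)
  have i2 := TH_mass_up_fp h g hh.2.1 hg.1 b hb
  have i3 := TH_mass_up_fp g h hg.2.1 hh.1 Bh (fun x => (hBh x).2)
  have i4 := TH_mass_up_fp g g hg.2.1 hg.1 b hb
  simp only [e1]
  rw [integral_sub (f := fun x => h x * (∫ y, h y / ‖x - y‖) - h x * (∫ y, g y / ‖x - y‖))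
    (g := fun x => g x * (∫ y, h y / ‖x - y‖) - g x * (∫ y, g y / ‖x - y‖)) (i1.1.sub i2.1) (i3.1.sub i4.1),
    integral_sub i1.1 i2.1, integral_sub i3.1 i4.1]
  have e2 : ∫ x, ∫ y, h x * h y / ‖x - y‖ = ∫ x, h x * ∫ y, h y / ‖x - y‖ := by
    congr 1; funext x; rw [← integral_const_mul]
    congr 1; funext y; ring
  rw [e2]
  have e3 : ∫ x, g x * ∫ y, h y / ‖x - y‖ = ∫ x, h x * ∫ y, g y / ‖x - y‖ :=
    TH_mass_up_swap g h hg.1 hg.2.1 hh
  rw [e3]
  have a2 := neg_le_of_abs_le i2.2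
  have a4 := le_of_abs_le i4.2
  have e4 : ∫ x, |g x| = ∫ x, g x := by congr 1; funext x; exact abs_of_nonneg (hg0 x)
  rw [e4] at a4
  linarith

/-- the base function -/
theorem TH_mass_up_base (m : ℝ) (hm : 0 ≤ m) :
    ∃ g : E3 → ℝ, Adm g ∧ ∫ x, g x = m := by
  set V : ℝ := (volume (ball (0 : E3) 1)).toReal with hV
  have hV0 : 0 < V := by
    rw [hV]
    exact ENNReal.toReal_pos (measure_ball_pos _ _ (by norm_num)).ne' measure_ball_lt_top.ne
  refine ⟨(ball (0 : E3) 1).indicator (fun _ => m / V), ⟨?_, ?_, ?_, ?_⟩, ?_⟩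
  · exact measurable_const.indicator measurableSet_ball
  · intro x
    exact Set.indicator_nonneg (fun _ _ => by positivity) x
  · rw [integrable_indicator_iff measurableSet_ball]
    exact integrableOn_const measure_ball_lt_top.ne
  · have : (fun x => (ball (0 : E3) 1).indicator (fun _ => m / V) x ^ (5/3 : ℝ)) =
        (ball (0 : E3) 1).indicator (fun _ => (m / V) ^ (5/3 : ℝ)) := by
      funext x
      by_cases hx : x ∈ ball (0 : E3) 1
      · rw [Set.indicator_of_mem hx, Set.indicator_of_mem hx]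
      · rw [Set.indicator_of_notMem hx, Set.indicator_of_notMem hx, Real.zero_rpow (by norm_num)]
    rw [this, integrable_indicator_iff measurableSet_ball]
    exact integrableOn_const measure_ball_lt_top.ne
  · rw [integral_indicator measurableSet_ball, setIntegral_const, smul_eq_mul, measureReal_def, ← hV]
    field_simp

-- ===== TARGET =====
theorem mass_up (M : E3 → ℝ) (hM : Nice M) (lam : ℝ) (ρ : E3 → ℝ) (hρ : Adm ρ)
    (hm : ∫ x, ρ x ≤ lam) (ε : ℝ) (hε : 0 < ε) :
    ∃ ρ2 : E3 → ℝ, Adm ρ2 ∧ ∫ x, ρ2 x = lam ∧ xs M ρ2 ≤ xs M ρ + ε := by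
  obtain ⟨g, hg, hgi⟩ := TH_mass_up_base (lam - ∫ x, ρ x) (by linarith)
  have hgN := TH_mass_up_nice_of_adm g hg
  have hρN := TH_mass_up_nice_of_adm ρ hρ
  have hhN := TH_mass_up_nice_sub M ρ hM hρN
  obtain ⟨B, hB⟩ := nice_bound g hgN
  have hB0 : 0 ≤ B := le_trans (integral_nonneg fun y => by positivity) (hB 0).2
  set Kρ := ∫ x, ρ x ^ (5/3 : ℝ) with hKρ
  set Kg := ∫ x, g x ^ (5/3 : ℝ) with hKg
  have hKρ0 : 0 ≤ Kρ := integral_nonneg fun x => Real.rpow_nonneg (hρ.2.1 x) _
  have hKg0 : 0 ≤ Kg := integral_nonneg fun x => Real.rpow_nonneg (hg.2.1 x) _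
  set H := ∫ x, |M x - ρ x| with hH
  have hH0 : 0 ≤ H := integral_nonneg fun x => abs_nonneg _
  set m0 := lam - ∫ x, ρ x with hm0
  have hm00 : 0 ≤ m0 := by linarith
  set Ct := 2 * Kρ + Kg + B * H + B * m0 + 1 with hCt
  have hCt0 : 0 < Ct := by positivity
  set t := min (1/2) (ε / Ct) with ht
  have ht0 : 0 < t := lt_min (by norm_num) (by positivity)
  have ht2 : t ≤ 1/2 := min_le_left _ _
  have htε : t * Ct ≤ ε := by
    calc t * Ct ≤ ε / Ct * Ct := mul_le_mul_of_nonneg_right (min_le_right _ _) hCt0.le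
      _ = ε := div_mul_cancel₀ _ hCt0.ne'
  set gt : E3 → ℝ := fun x => t ^ 3 * g (t • x) with hgt
  have hgt0 : ∀ x, 0 ≤ gt x := fun x => mul_nonneg (by positivity) (hg.2.1 _)
  have hgtm : Measurable gt := (hg.1.comp (measurable_const_smul t)).const_mul _
  have hgtI : Integrable gt := (TH_mass_up_int g t ht0 hg.2.2.1).const_mul _
  have hgtint : ∫ x, gt x = m0 := by
    rw [hgt, integral_const_mul, TH_mass_up_scale g t ht0, hgi]
    field_simp
  have hpw : ∀ x, gt x ^ (5/3 : ℝ) = t ^ 5 * (fun z => g z ^ (5/3 : ℝ)) (t • x) := by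
    intro x
    show (t ^ 3 * g (t • x)) ^ (5/3 : ℝ) = t ^ 5 * g (t • x) ^ (5/3 : ℝ)
    rw [Real.mul_rpow (by positivity) (hg.2.1 _), ← Real.rpow_natCast t 3, ← Real.rpow_mul ht0.le,
      ← Real.rpow_natCast t 5]
    norm_num
  have hgtK : Integrable (fun x => gt x ^ (5/3 : ℝ)) := by
    simp only [hpw]
    exact (TH_mass_up_int _ t ht0 hg.2.2.2).const_mul _
  have hgtKi : ∫ x, gt x ^ (5/3 : ℝ) = t ^ 2 * Kg := by
    simp only [hpw]
    rw [integral_const_mul, TH_mass_up_scale (fun z => g z ^ (5/3 : ℝ)) t ht0]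
    field_simp
    rfl
  have hgtA : Adm gt := ⟨hgtm, hgt0, hgtI, hgtK⟩
  have hgtN := TH_mass_up_nice_of_adm gt hgtA
  have hpot : ∀ x : E3, ∫ y, |gt y| / ‖x - y‖ ≤ t * B := by
    intro x
    have e1 : ∀ y, |gt y| / ‖x - y‖ = t ^ 4 * (fun z => |g z| / ‖t • x - z‖) (t • y) := by
      intro y
      show |t ^ 3 * g (t • y)| / ‖x - y‖ = t ^ 4 * (|g (t • y)| / ‖t • x - t • y‖)
      rw [← smul_sub, norm_smul, Real.norm_eq_abs, abs_of_pos ht0, abs_mul, abs_of_pos (by positivity : 0 < t ^ 3)]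
      rcases eq_or_ne (‖x - y‖) 0 with h0 | h0
      · rw [h0]; simp
      · field_simp
    simp only [e1]
    rw [integral_const_mul, TH_mass_up_scale (fun z => |g z| / ‖t • x - z‖) t ht0]
    have := (hB (t • x)).2
    calc t ^ 4 * ((t ^ 3)⁻¹ * ∫ z, |g z| / ‖t • x - z‖) = t * ∫ z, |g z| / ‖t • x - z‖ := by
          field_simp
      _ ≤ t * B := mul_le_mul_of_nonneg_left this ht0.le
  have hconv : ∀ x, (ρ x + gt x) ^ (5/3 : ℝ) ≤ (1 - t)⁻¹ * ρ x ^ (5/3 : ℝ) + t⁻¹ * gt x ^ (5/3 : ℝ) :=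
    fun x => TH_mass_up_conv _ _ t (hρ.2.1 x) (hgt0 x) ht0 (by linarith)
  have hdom : Integrable (fun x => (1 - t)⁻¹ * ρ x ^ (5/3 : ℝ) + t⁻¹ * gt x ^ (5/3 : ℝ)) :=
    (hρ.2.2.2.const_mul _).add (hgtK.const_mul _)
  have h2K : Integrable (fun x => (ρ x + gt x) ^ (5/3 : ℝ)) := by
    refine hdom.mono' ((hρ.1.add hgtm).pow_const _).aestronglyMeasurable
      (Filter.Eventually.of_forall fun x => ?_)
    rw [Real.norm_eq_abs, abs_of_nonneg (Real.rpow_nonneg (add_nonneg (hρ.2.1 x) (hgt0 x)) _)]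
    exact hconv x
  refine ⟨fun x => ρ x + gt x, ⟨hρ.1.add hgtm, fun x => add_nonneg (hρ.2.1 x) (hgt0 x), hρ.2.2.1.add hgtI, h2K⟩, ?_, ?_⟩
  · rw [integral_add hρ.2.2.1 hgtI, hgtint]; ring
  · have hkin : ∫ x, (ρ x + gt x) ^ (5/3 : ℝ) ≤ Kρ + t * (2 * Kρ + Kg) := by
      calc ∫ x, (ρ x + gt x) ^ (5/3 : ℝ) ≤ ∫ x, ((1 - t)⁻¹ * ρ x ^ (5/3 : ℝ) + t⁻¹ * gt x ^ (5/3 : ℝ)) :=
            integral_mono h2K hdom hconv
        _ = (1 - t)⁻¹ * Kρ + t⁻¹ * (t ^ 2 * Kg) := by
            rw [integral_add (hρ.2.2.2.const_mul _) (hgtK.const_mul _), integral_const_mul, integral_const_mul, hgtKi]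
        _ ≤ (1 + 2 * t) * Kρ + t * Kg := by
            have e : t⁻¹ * (t ^ 2 * Kg) = t * Kg := by field_simp
            rw [e]
            have : (1 - t)⁻¹ ≤ 1 + 2 * t := by
              rw [inv_le_iff_one_le_mul₀ (by linarith)]
              nlinarith
            have := mul_le_mul_of_nonneg_right this hKρ0
            linarith
        _ = _ := by ring
    have hexp := TH_mass_up_expand (fun x => M x - ρ x) gt hhN hgtN hgt0 (t * B) hpot
    have e3 : ∀ x y : E3, (M x - (ρ x + gt x)) * (M y - (ρ y + gt y)) / ‖x - y‖ =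
        ((M x - ρ x) - gt x) * ((M y - ρ y) - gt y) / ‖x - y‖ := by
      intro x y; ring
    unfold xs
    simp only [e3]
    rw [hgtint] at hexp
    rw [← hKρ]
    have hb1 : (∫ x, |M x - ρ x|) = H := rfl
    rw [hb1] at hexp
    have hf : t * (2 * Kρ + Kg) + t * B * H + t * B * m0 ≤ ε := by
      calc t * (2 * Kρ + Kg) + t * B * H + t * B * m0 ≤ t * Ct := by rw [hCt]; nlinarith
        _ ≤ ε := htε
    have p1 : 0 ≤ t * (2 * Kρ + Kg) := by positivity
    have p2 : 0 ≤ t * B * m0 := by positivity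
    have p3 : 0 ≤ t * B * H := by positivity
    linarith
end


/-! ### exists_mu -/
section
theorem TH_exists_mu_base (φ : E3 → ℝ) (hφ : Continuous φ) (hlim : Tendsto φ (cocompact E3) (𝓝 0))
    (μ : ℝ) (hμ : 0 < μ) : Integrable (fun x => (max (φ x - μ) 0) ^ (3/2 : ℝ)) := by
  have hc : Continuous (fun x => (max (φ x - μ) 0) ^ (3/2 : ℝ)) :=
    ((hφ.sub continuous_const).max continuous_const).rpow_const (fun x => Or.inr (by norm_num))
  apply hc.integrable_of_hasCompactSupport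
  have h1 : ∀ᶠ x in cocompact E3, φ x < μ := hlim.eventually (gt_mem_nhds hμ)
  rw [Filter.eventually_iff, Filter.mem_cocompact] at h1
  obtain ⟨K, hK, hKs⟩ := h1
  apply HasCompactSupport.intro hK
  intro x hx
  have h2 : φ x < μ := hKs hx
  have h3 : max (φ x - μ) 0 = 0 := max_eq_right (by linarith)
  rw [h3]
  exact Real.zero_rpow (by norm_num)

theorem TH_exists_mu_bdd (φ : E3 → ℝ) (hφ : Continuous φ) (hlim : Tendsto φ (cocompact E3) (𝓝 0)) :
    ∃ B : ℝ, 0 < B ∧ ∀ x, φ x ≤ B := by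
  have h1 : ∀ᶠ x in cocompact E3, φ x < 1 := hlim.eventually (gt_mem_nhds one_pos)
  rw [Filter.eventually_iff, Filter.mem_cocompact] at h1
  obtain ⟨K, hK, hKs⟩ := h1
  obtain ⟨B, hB⟩ := (hK.image hφ).bddAbove
  refine ⟨max B 1, lt_max_of_lt_right one_pos, fun x => ?_⟩
  by_cases hx : x ∈ K
  · exact (hB ⟨x, hx, rfl⟩).trans (le_max_left _ _)
  · exact (le_of_lt (hKs hx)).trans (le_max_right _ _)

-- ===== TARGET =====
theorem exists_mu (φ : E3 → ℝ) (hφ : Continuous φ) (hlim : Tendsto φ (cocompact E3) (𝓝 0))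
    (lam : ℝ) (hlam : 0 ≤ lam) :
    ∃ μ : ℝ, 0 ≤ μ ∧ Integrable (fun x => (max (φ x - μ) 0) ^ (3/2 : ℝ)) ∧
      ∫ x, (max (φ x - μ) 0) ^ (3/2 : ℝ) ≤ lam ∧
      (μ = 0 ∨ ∫ x, (max (φ x - μ) 0) ^ (3/2 : ℝ) = lam) := by
  have hmeas : ∀ μ, Continuous (fun x => (max (φ x - μ) 0) ^ (3/2 : ℝ)) := fun μ =>
    ((hφ.sub continuous_const).max continuous_const).rpow_const (fun x => Or.inr (by norm_num))
  by_cases hA : ∀ μ : ℝ, 0 < μ → ∫ x, (max (φ x - μ) 0) ^ (3/2 : ℝ) ≤ lam
  · have hpos : ∀ μ x, 0 ≤ (max (φ x - μ) 0) ^ (3/2 : ℝ) := fun μ x =>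
      Real.rpow_nonneg (le_max_right _ _) _
    have hlin : ∫⁻ x, ENNReal.ofReal ((max (φ x - 0) 0) ^ (3/2 : ℝ)) ≤ ENNReal.ofReal lam := by
      have hseq : Tendsto (fun n : ℕ => 1 / ((n : ℝ) + 1)) atTop (𝓝 0) :=
        tendsto_one_div_add_atTop_nhds_zero_nat
      have hpt : ∀ x, Tendsto (fun n : ℕ =>
          ENNReal.ofReal ((max (φ x - 1 / ((n : ℝ) + 1)) 0) ^ (3/2 : ℝ))) atTop
          (𝓝 (ENNReal.ofReal ((max (φ x - 0) 0) ^ (3/2 : ℝ)))) := by
        intro x
        have hc : Continuous (fun μ : ℝ => ENNReal.ofReal ((max (φ x - μ) 0) ^ (3/2 : ℝ))) :=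
          ENNReal.continuous_ofReal.comp
            (((continuous_const.sub continuous_id).max continuous_const).rpow_const
              (fun x => Or.inr (by norm_num)))
        exact (hc.tendsto 0).comp hseq
      calc ∫⁻ x, ENNReal.ofReal ((max (φ x - 0) 0) ^ (3/2 : ℝ))
          = ∫⁻ x, Filter.liminf (fun n : ℕ =>
              ENNReal.ofReal ((max (φ x - 1 / ((n : ℝ) + 1)) 0) ^ (3/2 : ℝ))) atTop := by
            congr 1; funext x; exact (hpt x).liminf_eq.symm
        _ ≤ Filter.liminf (fun n : ℕ => ∫⁻ x,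
              ENNReal.ofReal ((max (φ x - 1 / ((n : ℝ) + 1)) 0) ^ (3/2 : ℝ))) atTop :=
            lintegral_liminf_le (fun n => ENNReal.measurable_ofReal.comp (hmeas _).measurable)
        _ ≤ ENNReal.ofReal lam := by
            apply Filter.liminf_le_of_le
            · isBoundedDefault
            · intro b hb
              obtain ⟨n, hn⟩ := hb.exists
              refine hn.trans ?_
              have hn0 : (0:ℝ) < 1 / ((n : ℝ) + 1) := by positivity
              rw [← ofReal_integral_eq_lintegral_ofReal (TH_exists_mu_base φ hφ hlim _ hn0)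
                (Filter.Eventually.of_forall (hpos _))]
              exact ENNReal.ofReal_le_ofReal (hA _ hn0)
    have hint : Integrable (fun x => (max (φ x - 0) 0) ^ (3/2 : ℝ)) := by
      refine ⟨(hmeas 0).aestronglyMeasurable, ?_⟩
      rw [hasFiniteIntegral_iff_ofReal (Filter.Eventually.of_forall (hpos 0))]
      exact lt_of_le_of_lt hlin ENNReal.ofReal_lt_top
    refine ⟨0, le_rfl, hint, ?_, Or.inl rfl⟩
    rw [← ENNReal.ofReal_le_ofReal_iff hlam, ofReal_integral_eq_lintegral_ofReal hint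
      (Filter.Eventually.of_forall (hpos 0))]
    exact hlin
  · push Not at hA
    obtain ⟨μ₁, hμ₁, hg₁⟩ := hA
    obtain ⟨B, hB0, hB⟩ := TH_exists_mu_bdd φ hφ hlim
    set g : ℝ → ℝ := fun μ => ∫ x, (max (φ x - μ) 0) ^ (3/2 : ℝ) with hg
    have hle : μ₁ ≤ max μ₁ B := le_max_left _ _
    have hcont : ContinuousOn g (Set.Icc μ₁ (max μ₁ B)) := by
      apply continuousOn_of_dominated (bound := fun x => (max (φ x - μ₁) 0) ^ (3/2 : ℝ))
      · intro μ _
        exact (hmeas μ).aestronglyMeasurable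
      · intro μ hμ
        refine Filter.Eventually.of_forall fun x => ?_
        rw [Real.norm_eq_abs, abs_of_nonneg (Real.rpow_nonneg (le_max_right _ _) _)]
        apply Real.rpow_le_rpow (le_max_right _ _) _ (by norm_num)
        exact max_le_max (by linarith [hμ.1]) le_rfl
      · exact TH_exists_mu_base φ hφ hlim μ₁ hμ₁
      · refine Filter.Eventually.of_forall fun x => Continuous.continuousOn ?_
        exact ((continuous_const.sub continuous_id).max continuous_const).rpow_const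
              (fun x => Or.inr (by norm_num))
    have hg2 : g (max μ₁ B) = 0 := by
      have : (fun x => (max (φ x - max μ₁ B) 0) ^ (3/2 : ℝ)) = fun _ => (0:ℝ) := by
        funext x
        have h3 : max (φ x - max μ₁ B) 0 = 0 :=
          max_eq_right (by linarith [hB x, le_max_right μ₁ B])
        rw [h3]
        exact Real.zero_rpow (by norm_num)
      show ∫ x, (max (φ x - max μ₁ B) 0) ^ (3/2 : ℝ) = 0
      rw [this]; simp
    have hmem : lam ∈ Set.Icc (g (max μ₁ B)) (g μ₁) := ⟨by rw [hg2]; exact hlam, hg₁.le⟩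
    obtain ⟨μ, hμ, hgμ⟩ := intermediate_value_Icc' hle hcont hmem
    have hμ0 : 0 < μ := lt_of_lt_of_le hμ₁ hμ.1
    exact ⟨μ, hμ0.le, TH_exists_mu_base φ hφ hlim μ hμ0, le_of_eq hgμ, Or.inr hgμ⟩
end


/-! ### strong_dual -/
section
-- ===== given lemmas (leave as they are, do not prove) =====













theorem TH_strong_dual_bd (g : E3 → ℝ) (hg : Nice g) : ∃ B : ℝ, 0 ≤ B ∧ (∀ x, |pot g x| ≤ B) ∧
    (∀ x, Integrable (fun y => g y / ‖x - y‖)) ∧ ∀ x, ∫ y, |g y| / ‖x - y‖ ≤ B := by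
  obtain ⟨B, hB⟩ := nice_bound g hg
  have key : ∀ x, |pot g x| ≤ ∫ y, |g y| / ‖x - y‖ := by
    intro x
    unfold pot
    refine (abs_integral_le_integral_abs).trans (le_of_eq ?_)
    congr 1; ext y; rw [abs_div, abs_norm]
  exact ⟨B, (abs_nonneg _).trans ((key 0).trans (hB 0).2), fun x => (key x).trans (hB x).2,
    fun x => (hB x).1, fun x => (hB x).2⟩

theorem TH_strong_dual_cont (g : E3 → ℝ) (hg : Nice g) : Continuous (pot g) := by
  obtain ⟨B, hB0, hB, hi, -⟩ := TH_strong_dual_bd g hg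
  rw [Metric.continuous_iff]
  intro x ε hε
  obtain ⟨η, hη, h⟩ := nice_modulus g hg (ε/2) (by positivity)
  refine ⟨η, hη, fun y hy => ?_⟩
  rw [dist_eq_norm] at hy
  obtain ⟨h1, h2⟩ := h y x hy
  rw [Real.dist_eq]
  unfold pot
  rw [← integral_sub (hi y) (hi x)]
  calc _ ≤ ∫ z, |g z / ‖y - z‖ - g z / ‖x - z‖| := abs_integral_le_integral_abs
    _ = ∫ z, |g z| * |1 / ‖y - z‖ - 1 / ‖x - z‖| := by
        congr 1; ext z; rw [← abs_mul]; congr 1; ring
    _ ≤ ε/2 := h2
    _ < ε := by linarith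

theorem TH_strong_dual_lim (g : E3 → ℝ) (hg : Nice g) : Tendsto (pot g) (cocompact E3) (𝓝 0) := by
  rw [Metric.tendsto_nhds]
  intro ε hε
  obtain ⟨M, hM⟩ := nice_decay g hg (ε/2) (by positivity)
  have : ∀ᶠ x in cocompact E3, M ≤ ‖x‖ :=
    (tendsto_norm_cocompact_atTop (E := E3)).eventually_ge_atTop M
  filter_upwards [this] with x hx
  rw [Real.dist_eq, sub_zero]
  have key : |pot g x| ≤ ∫ y, |g y| / ‖x - y‖ := by
    unfold pot
    refine (abs_integral_le_integral_abs).trans (le_of_eq ?_)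
    congr 1; ext y; rw [abs_div, abs_norm]
  linarith [hM x hx]

theorem TH_strong_dual_nice_iff (g : E3 → ℝ) :
    Nice g ↔ Measurable g ∧ Integrable g ∧ MemLp g (ENNReal.ofReal (5/3)) := by
  unfold Nice
  have e : Measurable g → (Integrable (fun x => |g x| ^ (5/3 : ℝ)) ↔ MemLp g (ENNReal.ofReal (5/3))) := by
    intro h1
    have := integrable_norm_rpow_iff (μ := (volume : Measure E3)) (f := g)
      (p := ENNReal.ofReal (5/3)) h1.aestronglyMeasurable (by simp) (by simp)
    rw [ENNReal.toReal_ofReal (by norm_num)] at this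
    simpa [Real.norm_eq_abs] using this
  constructor
  · rintro ⟨h1, h2, h3⟩
    exact ⟨h1, h2, (e h1).1 h3⟩
  · rintro ⟨h1, h2, h3⟩
    exact ⟨h1, h2, (e h1).2 h3⟩

theorem TH_strong_dual_comb (f g : E3 → ℝ) (hf : Nice f) (hg : Nice g) (c : ℝ) :
    Nice (fun y => f y + c * g y) := by
  rw [TH_strong_dual_nice_iff] at *
  exact ⟨hf.1.add (hg.1.const_mul c), hf.2.1.add (hg.2.1.const_mul c),
    hf.2.2.add (hg.2.2.const_mul c)⟩

theorem TH_strong_dual_adm (ρ : E3 → ℝ) (h : Adm ρ) : Nice ρ := by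
  refine ⟨h.1, h.2.2.1, ?_⟩
  have : (fun x => |ρ x| ^ (5/3 : ℝ)) = fun x => ρ x ^ (5/3 : ℝ) := by
    ext x; rw [abs_of_nonneg (h.2.1 x)]
  rw [this]; exact h.2.2.2

theorem TH_strong_dual_sym (f g : E3 → ℝ) (hf : Nice f) (hg : Nice g) :
    ∫ x, f x * pot g x = ∫ x, g x * pot f x := by
  obtain ⟨B, hB0, hB, hi, hB2⟩ := TH_strong_dual_bd g hg
  have hmeas : Measurable (fun z : E3 × E3 => f z.1 * g z.2 / ‖z.1 - z.2‖) := by
    have h1 := hf.1
    have h2 := hg.1
    exact ((h1.comp measurable_fst).mul (h2.comp measurable_snd)).div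
      (measurable_fst.sub measurable_snd).norm
  have hint : Integrable (Function.uncurry (fun x y : E3 => f x * g y / ‖x - y‖))
      (volume.prod volume) := by
    change Integrable (fun z : E3 × E3 => f z.1 * g z.2 / ‖z.1 - z.2‖) (volume.prod volume)
    rw [integrable_prod_iff hmeas.aestronglyMeasurable]
    refine ⟨ae_of_all _ fun x => ?_, ?_⟩
    · have := (hi x).const_mul (f x)
      refine this.congr (ae_of_all _ fun y => ?_)
      simp only; ring
    · refine Integrable.mono' ((hf.2.1.norm).mul_const B)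
        (hmeas.aestronglyMeasurable.norm.integral_prod_right') (ae_of_all _ fun x => ?_)
      rw [Real.norm_of_nonneg (integral_nonneg fun y => norm_nonneg _)]
      have : (∫ y, ‖f x * g y / ‖x - y‖‖) = ‖f x‖ * ∫ y, |g y| / ‖x - y‖ := by
        rw [← integral_const_mul]; congr 1; ext y
        rw [norm_div, norm_mul, norm_norm, Real.norm_eq_abs (g y)]; ring
      simp only
      rw [this]
      exact mul_le_mul_of_nonneg_left (hB2 x) (norm_nonneg _)
  have h1 : ∀ x, f x * pot g x = ∫ y, f x * g y / ‖x - y‖ := by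
    intro x; unfold pot; rw [← integral_const_mul]; congr 1; ext y; ring
  simp_rw [h1]
  rw [integral_integral_swap hint]
  congr 1; ext y
  unfold pot; rw [← integral_const_mul]; congr 1; ext x; rw [norm_sub_rev]; ring

theorem TH_strong_dual_int (f g : E3 → ℝ) (hf : Nice f) (hg : Nice g) :
    Integrable (fun x => f x * pot g x) := by
  obtain ⟨B, hB0, hB, hi, hB2⟩ := TH_strong_dual_bd g hg
  refine Integrable.mono' ((hf.2.1.norm).mul_const B)
    (hf.1.mul (TH_strong_dual_cont g hg).measurable).aestronglyMeasurable (ae_of_all _ fun x => ?_)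
  rw [norm_mul]
  exact mul_le_mul_of_nonneg_left (hB x) (norm_nonneg _)

theorem TH_strong_dual_potadd (f g : E3 → ℝ) (hf : Nice f) (hg : Nice g) (c : ℝ) (x : E3) :
    pot (fun y => f y + c * g y) x = pot f x + c * pot g x := by
  obtain ⟨B, hB0, hB, hi, hB2⟩ := TH_strong_dual_bd g hg
  obtain ⟨B', hB0', hB', hi', hB2'⟩ := TH_strong_dual_bd f hf
  unfold pot
  rw [← integral_const_mul, ← integral_add (hi' x) ((hi x).const_mul c)]
  congr 1; ext y; ring

theorem TH_strong_dual_quad (f g : E3 → ℝ) (hf : Nice f) (hg : Nice g) (c : ℝ) :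
    ∫ x, (f x + c * g x) * pot (fun y => f y + c * g y) x
      = (∫ x, f x * pot f x) + 2 * c * (∫ x, g x * pot f x) + c^2 * ∫ x, g x * pot g x := by
  have e : ∀ x, (f x + c * g x) * pot (fun y => f y + c * g y) x
      = f x * pot f x + c * (f x * pot g x) + c * (g x * pot f x) + c^2 * (g x * pot g x) := by
    intro x; rw [TH_strong_dual_potadd f g hf hg]; ring
  simp_rw [e]
  have i1 := TH_strong_dual_int f f hf hf
  have i2 := (TH_strong_dual_int f g hf hg).const_mul c
  have i3 := (TH_strong_dual_int g f hg hf).const_mul c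
  have i4 := (TH_strong_dual_int g g hg hg).const_mul (c^2)
  have i12 : Integrable (fun x => f x * pot f x + c * (f x * pot g x)) := i1.add i2
  have i123 : Integrable (fun x => f x * pot f x + c * (f x * pot g x) + c * (g x * pot f x)) :=
    i12.add i3
  rw [integral_add i123 i4, integral_add i12 i3, integral_add i1 i2,
    integral_const_mul, integral_const_mul, integral_const_mul, TH_strong_dual_sym f g hf hg]
  ring

theorem TH_strong_dual_pd (h : E3 → ℝ) (hh : Nice h) : 0 ≤ ∫ x, h x * pot h x := by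
  have := coulomb_pd h hh
  have e : ∀ x, h x * pot h x = ∫ y, h x * h y / ‖x - y‖ := by
    intro x; unfold pot; rw [← integral_const_mul]; congr 1; ext y; ring
  simp_rw [e]; exact this

theorem TH_strong_dual_par (f g : E3 → ℝ) (hf : Nice f) (hg : Nice g) :
    ∫ x, (f x + 1 * g x) * pot (fun y => f y + 1 * g y) x
      ≤ 2 * (∫ x, f x * pot f x) + 2 * ∫ x, g x * pot g x := by
  have h1 := TH_strong_dual_quad f g hf hg 1
  have h2 := TH_strong_dual_quad f g hf hg (-1)
  have h3 := TH_strong_dual_pd _ (TH_strong_dual_comb f g hf hg (-1))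
  rw [h2] at h3
  rw [h1]; linarith

theorem TH_strong_dual_xs (M ρ : E3 → ℝ) : xs M ρ = 3/5 * (∫ x, ρ x ^ (5/3:ℝ))
    + 1/2 * ∫ x, (M x - ρ x) * pot (fun y => M y - ρ y) x := by
  have e : ∀ x, (M x - ρ x) * pot (fun y => M y - ρ y) x
      = ∫ y, (M x - ρ x) * (M y - ρ y) / ‖x - y‖ := by
    intro x; unfold pot; rw [← integral_const_mul]; congr 1; ext y; ring
  simp_rw [e]; rfl

theorem TH_strong_dual_eta : ∃ c1 : ℝ, 0 ≤ c1 ∧ ∀ (η : E3 → ℝ) (b : ℝ), 0 ≤ b → Nice η →
    (∀ x, 0 ≤ η x) → (∀ x, η x ≤ b) → ∀ x, pot η x ≤ b * c1 + ∫ y, η y := by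
  have hn : Nice (Set.indicator (ball (0:E3) 1) (fun _ => (1:ℝ))) := by
    have hf : volume (ball (0:E3) 1) ≠ ⊤ := measure_ball_lt_top.ne
    refine ⟨measurable_const.indicator measurableSet_ball, ?_, ?_⟩
    · exact (integrable_indicator_iff measurableSet_ball).2 (integrableOn_const hf)
    · have : (fun x : E3 => |Set.indicator (ball (0:E3) 1) (fun _ => (1:ℝ)) x| ^ (5/3:ℝ))
          = Set.indicator (ball (0:E3) 1) (fun _ => (1:ℝ)) := by
        ext x
        by_cases h : x ∈ ball (0:E3) 1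
        · simp [Set.indicator_of_mem h]
        · rw [Set.indicator_of_notMem h]; simp [Real.zero_rpow]
      rw [this]
      exact (integrable_indicator_iff measurableSet_ball).2 (integrableOn_const hf)
  obtain ⟨B, hB⟩ := nice_bound _ hn
  set F : E3 → ℝ := fun u => Set.indicator (ball (0:E3) 1) (fun _ => (1:ℝ)) u / ‖u‖ with hF
  have hFi : Integrable F := by
    have := (hB 0).1
    refine this.congr (ae_of_all _ fun y => ?_)
    simp [hF]
  have hF0 : ∀ u, 0 ≤ F u := fun u => div_nonneg (Set.indicator_nonneg (fun _ _ => zero_le_one) _)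
    (norm_nonneg _)
  refine ⟨∫ u, F u, integral_nonneg hF0, ?_⟩
  intro η b hb hη h0 hle x
  obtain ⟨B', hB0', hB', hi', hB2'⟩ := TH_strong_dual_bd η hη
  have hFx : Integrable (fun y => F (x - y)) := hFi.comp_sub_left x
  have e1 : ∫ y, F (x - y) = ∫ u, F u := integral_sub_left_eq_self F volume x
  rw [← e1, ← integral_const_mul, ← integral_add (hFx.const_mul b) hη.2.1]
  unfold pot
  apply integral_mono (hi' x) ((hFx.const_mul b).add hη.2.1)
  intro y
  show η y / ‖x - y‖ ≤ b * (Set.indicator (ball (0:E3) 1) (fun _ => (1:ℝ)) (x - y) / ‖x - y‖) + η y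
  by_cases h : x - y ∈ ball (0:E3) 1
  · rw [Set.indicator_of_mem h]
    have : η y / ‖x - y‖ ≤ b * (1 / ‖x - y‖) := by
      rw [mul_one_div]
      exact div_le_div_of_nonneg_right (hle y) (norm_nonneg _)
    linarith [h0 y]
  · rw [Set.indicator_of_notMem h]
    have h1 : 1 ≤ ‖x - y‖ := by simpa using h
    simp only [zero_div, mul_zero, zero_add]
    exact div_le_self (h0 y) h1


theorem TH_strong_dual_K (f g : E3 → ℝ) (hf : Adm f) (hg : Adm g) (s : ℝ) (hs : 0 ≤ s) (hs1 : s ≤ 1) :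
    Adm (fun x => (1 - s) * f x + s * g x) ∧
    ∫ x, ((1 - s) * f x + s * g x) ^ (5/3 : ℝ)
      ≤ (1 - s) * (∫ x, f x ^ (5/3 : ℝ)) + s * ∫ x, g x ^ (5/3 : ℝ) := by
  have hc : ∀ x, ((1 - s) * f x + s * g x) ^ (5/3 : ℝ)
      ≤ (1 - s) * f x ^ (5/3 : ℝ) + s * g x ^ (5/3 : ℝ) := by
    intro x
    have := (convexOn_rpow (p := (5/3:ℝ)) (by norm_num)).2 (Set.mem_Ici.2 (hf.2.1 x))
      (Set.mem_Ici.2 (hg.2.1 x)) (show 0 ≤ 1 - s by linarith) hs (by ring)
    simpa [smul_eq_mul] using this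
  have hnn : ∀ x, 0 ≤ (1 - s) * f x + s * g x := fun x =>
    add_nonneg (mul_nonneg (by linarith) (hf.2.1 x)) (mul_nonneg hs (hg.2.1 x))
  have hm : Measurable (fun x => (1 - s) * f x + s * g x) :=
    (hf.1.const_mul _).add (hg.1.const_mul _)
  have hr : Integrable (fun x => (1 - s) * f x ^ (5/3 : ℝ) + s * g x ^ (5/3 : ℝ)) :=
    (hf.2.2.2.const_mul _).add (hg.2.2.2.const_mul _)
  have hi : Integrable (fun x => ((1 - s) * f x + s * g x) ^ (5/3 : ℝ)) := by
    refine hr.mono' (hm.pow_const _).aestronglyMeasurable (ae_of_all _ fun x => ?_)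
    rw [Real.norm_of_nonneg (Real.rpow_nonneg (hnn x) _)]
    exact hc x
  refine ⟨⟨hm, hnn, (hf.2.2.1.const_mul _).add (hg.2.2.1.const_mul _), hi⟩, ?_⟩
  calc _ ≤ ∫ x, ((1 - s) * f x ^ (5/3 : ℝ) + s * g x ^ (5/3 : ℝ)) := integral_mono hi hr hc
    _ = _ := by
      rw [integral_add (hf.2.2.2.const_mul _) (hg.2.2.2.const_mul _), integral_const_mul,
        integral_const_mul]

-- ===== TARGET =====
set_option maxHeartbeats 4000000 in
/-- approximate strong duality -/
theorem strong_dual (M : E3 → ℝ) (hM : Nice M) (hM0 : ∀ x, 0 ≤ M x) (lam : ℝ) (hlam : 0 ≤ lam)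
    (ε : ℝ) (hε : 0 < ε) :
    ∃ ρ : E3 → ℝ, Adm ρ ∧ ∃ μ : ℝ, 0 ≤ μ ∧
      Integrable (fun x => (max (pot (fun y => M y - ρ y) x - μ) 0) ^ (5/2 : ℝ)) ∧
      es M lam - ε ≤ -(2/5) * (∫ x, (max (pot (fun y => M y - ρ y) x - μ) 0) ^ (5/2 : ℝ)) - μ * lam
        + (∫ x, pot (fun y => M y - ρ y) x * ρ x)
        + 1/2 * (∫ x, pot (fun y => M y - ρ y) x * (M x - ρ x)) := by
  obtain ⟨BM, hBM0, hBM, hiM, hBM2⟩ := TH_strong_dual_bd M hM
  obtain ⟨c1, hc1, hc⟩ := TH_strong_dual_eta
  have nsub : ∀ f g : E3 → ℝ, Nice f → Nice g → Nice (fun y => f y - g y) := by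
    intro f g hf hg
    have := TH_strong_dual_comb f g hf hg (-1)
    have e : (fun y => f y + (-1) * g y) = fun y => f y - g y := by ext y; ring
    rwa [e] at this
  have xs_nn : ∀ ρ, Adm ρ → 0 ≤ xs M ρ := by
    intro ρ hρ
    rw [TH_strong_dual_xs]
    have h1 := TH_strong_dual_pd _ (nsub M ρ hM (TH_strong_dual_adm ρ hρ))
    have h2 : 0 ≤ ∫ x, ρ x ^ (5/3:ℝ) := integral_nonneg fun x => Real.rpow_nonneg (hρ.2.1 x) _
    positivity
  have bdd : BddBelow {E | ∃ ρ, Adm ρ ∧ ∫ x, ρ x = lam ∧ xs M ρ = E} :=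
    ⟨0, by rintro E ⟨ρ, hρ, -, rfl⟩; exact xs_nn ρ hρ⟩
  have hle : ∀ ρ, Adm ρ → ∫ x, ρ x ≤ lam → es M lam ≤ xs M ρ := by
    intro ρ hρ hm
    apply le_of_forall_pos_le_add
    intro e he
    obtain ⟨ρ2, h1, h2, h3⟩ := mass_up M hM lam ρ hρ hm e he
    exact (csInf_le bdd ⟨ρ2, h1, h2, rfl⟩).trans h3
  have hzero : Adm (fun _ : E3 => (0:ℝ)) := by
    refine ⟨measurable_const, fun _ => le_rfl, integrable_zero _ _ _, ?_⟩
    simp [Real.zero_rpow]
  have hne : {E | ∃ ρ, Adm ρ ∧ ∫ x, ρ x = lam ∧ xs M ρ = E}.Nonempty := by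
    obtain ⟨ρ2, h1, h2, h3⟩ := mass_up M hM lam _ hzero (by simpa using hlam) 1 one_pos
    exact ⟨_, ρ2, h1, h2, rfl⟩
  set b : ℝ := BM ^ (3/2 : ℝ) with hb
  have hb0 : 0 ≤ b := Real.rpow_nonneg hBM0 _
  set DM := ∫ x, M x * pot M x with hDM
  have hDM0 : 0 ≤ DM := TH_strong_dual_pd M hM
  set C1 := (b * c1 + lam) * lam with hC1
  have hC10 : 0 ≤ C1 := by positivity
  have hes0 : 0 ≤ es M lam := by
    apply le_csInf hne
    rintro E ⟨ρ, hρ, -, rfl⟩
    exact xs_nn ρ hρ
  set C := 2 * (2 * (es M lam + 1)) + 2 * (2 * C1 + 2 * DM) with hC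
  have hC0 : 0 ≤ C := by positivity
  set s := min (1/2) (ε / (C + 1)) with hs
  have hs0 : 0 < s := lt_min (by norm_num) (by positivity)
  have hs1 : s ≤ 1 := (min_le_left _ _).trans (by norm_num)
  have hsC : s * C ≤ ε := by
    have : s ≤ ε / (C + 1) := min_le_right _ _
    rw [le_div_iff₀ (by positivity)] at this
    nlinarith
  set e1 := min 1 (s * ε / 2) with he1
  have he10 : 0 < e1 := lt_min one_pos (by positivity)
  obtain ⟨E, ⟨ρ, hρ, hmass, rfl⟩, hlt⟩ := exists_lt_of_csInf_lt hne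
    (show sInf {E | ∃ ρ, Adm ρ ∧ ∫ x, ρ x = lam ∧ xs M ρ = E} < es M lam + e1 by
      unfold es; linarith)
  have hρN := TH_strong_dual_adm ρ hρ
  have hhN : Nice (fun y => M y - ρ y) := nsub M ρ hM hρN
  set φ := pot (fun y => M y - ρ y) with hφ
  have hφc : Continuous φ := TH_strong_dual_cont _ hhN
  have hφM : ∀ x, φ x ≤ BM := by
    intro x
    have h1 := TH_strong_dual_potadd M ρ hM hρN (-1) x
    have e : (fun y => M y + (-1) * ρ y) = fun y => M y - ρ y := by ext y; ring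
    rw [e] at h1
    have h2 : 0 ≤ pot ρ x := integral_nonneg fun y => div_nonneg (hρ.2.1 y) (norm_nonneg _)
    have h3 := (abs_le.1 (hBM x)).2
    rw [hφ, h1]; linarith
  obtain ⟨μ, hμ0, hμi, hμl, hμ⟩ := exists_mu φ hφc (TH_strong_dual_lim _ hhN) lam hlam
  set η : E3 → ℝ := fun x => (max (φ x - μ) 0) ^ (3/2 : ℝ) with hη
  have hη0 : ∀ x, 0 ≤ η x := fun x => Real.rpow_nonneg (le_max_right _ _) _
  have hηb : ∀ x, η x ≤ b := fun x => Real.rpow_le_rpow (le_max_right _ _)
    (max_le (by linarith [hφM x]) hBM0) (by norm_num)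
  have hηm : Measurable η := by
    have : Measurable (fun x => max (φ x - μ) 0) := (hφc.measurable.sub_const μ).max measurable_const
    exact this.pow_const _
  have h53 : ∀ x, η x ^ (5/3 : ℝ) = (max (φ x - μ) 0) ^ (5/2 : ℝ) := by
    intro x
    rw [hη]; simp only
    rw [← Real.rpow_mul (le_max_right _ _)]; norm_num
  have h52 : ∀ x, (max (φ x - μ) 0) ^ (5/2 : ℝ) = η x * max (φ x - μ) 0 := by
    intro x
    rw [hη]; simp only
    conv_rhs => rw [show max (φ x - μ) 0 = (max (φ x - μ) 0) ^ (1:ℝ) from (Real.rpow_one _).symm]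
    rcases (le_max_right (φ x - μ) 0).eq_or_lt with h | h
    · rw [← h]; norm_num [Real.zero_rpow]
    · rw [Real.rpow_one, ← Real.rpow_add_one h.ne']; norm_num
  have hi52 : Integrable (fun x => (max (φ x - μ) 0) ^ (5/2 : ℝ)) := by
    refine Integrable.mono' (hμi.mul_const BM) ?_ (ae_of_all _ fun x => ?_)
    · have : Measurable (fun x => max (φ x - μ) 0) :=
        (hφc.measurable.sub_const μ).max measurable_const
      exact (this.pow_const _).aestronglyMeasurable
    · rw [Real.norm_of_nonneg (Real.rpow_nonneg (le_max_right _ _) _), h52]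
      exact mul_le_mul_of_nonneg_left (max_le (by linarith [hφM x]) hBM0) (hη0 x)
  have hηA : Adm η := ⟨hηm, hη0, hμi, by simp_rw [h53]; exact hi52⟩
  have hηN := TH_strong_dual_adm η hηA
  have hgN : Nice (fun y => η y - ρ y) := nsub η ρ hηN hρN
  -- integrals
  set Kη := ∫ x, η x ^ (5/3 : ℝ) with hKη
  set Kρ := ∫ x, ρ x ^ (5/3 : ℝ) with hKρ
  set P := ∫ x, (M x - ρ x) * φ x with hP
  set Q := ∫ x, (η x - ρ x) * φ x with hQ
  set Dg := ∫ x, (η x - ρ x) * pot (fun y => η y - ρ y) x with hDg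
  have hxs : xs M ρ = 3/5 * Kρ + 1/2 * P := TH_strong_dual_xs M ρ
  -- the convex combination
  obtain ⟨hAs, hKs⟩ := TH_strong_dual_K ρ η hρ hηA s hs0.le hs1
  have hms : ∫ x, ((1 - s) * ρ x + s * η x) ≤ lam := by
    rw [integral_add (hρ.2.2.1.const_mul _) (hμi.const_mul _), integral_const_mul,
      integral_const_mul, hmass]
    nlinarith
  have hes := hle _ hAs hms
  have hq := TH_strong_dual_quad (fun y => M y - ρ y) (fun y => η y - ρ y) hhN hgN (-s)
  have hxs2 : xs M (fun x => (1 - s) * ρ x + s * η x)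
      = 3/5 * (∫ x, ((1 - s) * ρ x + s * η x) ^ (5/3 : ℝ)) + 1/2 * (P + 2 * (-s) * Q + (-s)^2 * Dg) := by
    rw [TH_strong_dual_xs, ← hq]
    congr 2
    have e : (fun y => M y - ((1 - s) * ρ y + s * η y)) = fun y => M y - ρ y + (-s) * (η y - ρ y) := by
      ext y; ring
    rw [e]
    congr 1
    ext x
    have e2 : M x - ((1 - s) * ρ x + s * η x) = M x - ρ x + (-s) * (η x - ρ x) := by ring
    rw [e2]
  -- bound of Dg
  have hDgC : Dg ≤ C := by
    have n1 : Nice (fun y => η y - M y) := nsub η M hηN hM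
    have p1 := TH_strong_dual_par (fun y => M y - ρ y) (fun y => η y - M y) hhN n1
    have e : (fun y => M y - ρ y + 1 * (η y - M y)) = fun y => η y - ρ y := by ext y; ring
    have e' : ∀ x, (M x - ρ x + 1 * (η x - M x)) = η x - ρ x := by intro x; ring
    simp only [e, e'] at p1
    have p2 := TH_strong_dual_quad η M hηN hM (-1)
    have p3 := TH_strong_dual_quad η M hηN hM 1
    have p4 := TH_strong_dual_pd _ (TH_strong_dual_comb η M hηN hM 1)
    rw [p3] at p4
    have e3 : (fun y => η y + (-1) * M y) = fun y => η y - M y := by ext y; ring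
    have e3' : ∀ x, η x + (-1) * M x = η x - M x := by intro x; ring
    simp only [e3, e3'] at p2
    have p5 : ∫ x, η x * pot η x ≤ C1 := by
      have h1 : ∀ x, η x * pot η x ≤ (b * c1 + lam) * η x := by
        intro x
        have h2 := hc η b hb0 hηN hη0 hηb x
        have h3 : pot η x ≤ b * c1 + lam := by linarith
        nlinarith [hη0 x]
      calc _ ≤ ∫ x, (b * c1 + lam) * η x :=
            integral_mono (TH_strong_dual_int η η hηN hηN) (hμi.const_mul _) h1
        _ = (b * c1 + lam) * ∫ x, η x := integral_const_mul _ _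
        _ ≤ C1 := mul_le_mul_of_nonneg_left hμl (by positivity)
    have p6 : P ≤ 2 * (es M lam + 1) := by
      have h2 : 0 ≤ Kρ := integral_nonneg fun x => Real.rpow_nonneg (hρ.2.1 x) _
      have h3 : e1 ≤ 1 := min_le_left _ _
      linarith
    linarith
  -- the first order inequality
  have hG : -ε ≤ 3/5 * Kη - 3/5 * Kρ - Q := by
    have h1 : es M lam ≤ 3/5 * ((1 - s) * Kρ + s * Kη) + 1/2 * (P + 2 * (-s) * Q + (-s)^2 * Dg) := by
      linarith
    have h2 : 3/5 * Kρ + 1/2 * P < es M lam + e1 := by linarith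
    have h3 : e1 ≤ s * ε / 2 := min_le_right _ _
    have h4 : s ^ 2 * Dg ≤ s * ε := by
      have : s ^ 2 * Dg ≤ s ^ 2 * C := mul_le_mul_of_nonneg_left hDgC (by positivity)
      nlinarith
    have h5 : 0 ≤ s * (3/5 * Kη - 3/5 * Kρ - Q + ε) := by nlinarith
    have h6 := nonneg_of_mul_nonneg_right h5 hs0
    linarith
  refine ⟨ρ, hρ, μ, hμ0, hi52, ?_⟩
  have i1 : Integrable (fun x => η x * φ x) := TH_strong_dual_int η _ hηN hhN
  have i2 : Integrable (fun x => ρ x * φ x) := TH_strong_dual_int ρ _ hρN hhN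
  have f1 : -(2/5) * (∫ x, (max (φ x - μ) 0) ^ (5/2 : ℝ)) - μ * lam
      = 3/5 * Kη - ∫ x, η x * φ x := by
    have h1 : ∫ x, (max (φ x - μ) 0) ^ (5/2 : ℝ) = Kη := by
      rw [hKη]; congr 1; ext x; rw [h53]
    have h2 : ∫ x, (max (φ x - μ) 0) ^ (5/2 : ℝ) = (∫ x, η x * φ x) - μ * ∫ x, η x := by
      rw [← integral_const_mul, ← integral_sub i1 (hμi.const_mul μ)]
      congr 1; ext x
      rw [h52]
      rcases le_total (φ x - μ) 0 with h | h
      · have : η x = 0 := by
          rw [hη]; simp only; rw [max_eq_right h]; norm_num [Real.zero_rpow]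
        rw [this]; ring
      · rw [max_eq_left h]; ring
    have h3 : μ * lam = μ * ∫ x, η x := by
      rcases hμ with h | h
      · rw [h]; ring
      · rw [h]
    rw [h3]
    linarith
  have f2 : ∫ x, φ x * ρ x = ∫ x, ρ x * φ x := by congr 1; ext x; ring
  have f3 : ∫ x, φ x * (M x - ρ x) = P := by rw [hP]; congr 1; ext x; ring
  have f4 : Q = (∫ x, η x * φ x) - ∫ x, ρ x * φ x := by
    rw [← integral_sub i1 i2, hQ]; congr 1; ext x; ring
  have f5 : es M lam ≤ xs M ρ := hle ρ hρ hmass.le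
  rw [f1, f2, f3]
  linarith
end


/-! ### energy_markov -/
section
-- ===== given lemmas (leave as they are, do not prove) =====








-- ===== TARGET =====
theorem TH_energy_markov_key (κ : ℝ) (hκ : 0 < κ) (N : E3 → ℝ) (hN : Nice N) (x : E3) :
    κ ^ 2 * (pot N x - ∫ y, pot N y * Yk κ (x - y)) = 4 * Real.pi * ∫ y, N y * Yk κ (x - y) := by
  obtain ⟨B, hB⟩ := nice_bound N hN
  obtain ⟨hYn, hY0, hY1, hYpot⟩ := yuk_basic κ hκ
  have hYx : Integrable (fun y => Yk κ (x - y)) := hYn.2.1.comp_sub_left x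
  have hNm := hN.1
  have hYm := hYn.1
  have hne : ∀ᵐ z : E3, z ≠ x := by
    rw [ae_iff]
    have : {a : E3 | ¬ a ≠ x} = {x} := by
      ext a; simp
    rw [this]
    exact measure_singleton x
  have hmeas : Measurable (fun p : E3 × E3 => N p.2 / ‖p.1 - p.2‖ * Yk κ (x - p.1)) :=
    ((hNm.comp measurable_snd).div ((measurable_fst.sub measurable_snd).norm)).mul
      (hYm.comp (measurable_const.sub measurable_fst))
  have hint : Integrable (fun p : E3 × E3 => N p.2 / ‖p.1 - p.2‖ * Yk κ (x - p.1))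
      (volume.prod volume) := by
    rw [integrable_prod_iff hmeas.aestronglyMeasurable]
    refine ⟨ae_of_all _ (fun y => ((hB y).1.mul_const (Yk κ (x - y)))), ?_⟩
    refine Integrable.mono' (hYx.const_mul B) ?_ (ae_of_all _ fun y => ?_)
    · exact (hmeas.stronglyMeasurable.norm.integral_prod_right').aestronglyMeasurable
    · have h1 : ∫ z, ‖N z / ‖y - z‖ * Yk κ (x - y)‖ = (∫ z, |N z| / ‖y - z‖) * Yk κ (x - y) := by
        rw [← integral_mul_const]
        congr 1
        ext z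
        rw [norm_mul, norm_div, norm_norm, Real.norm_eq_abs, Real.norm_of_nonneg (hY0 _)]
      simp only
      rw [h1, Real.norm_of_nonneg (mul_nonneg (integral_nonneg (fun z => by positivity)) (hY0 _))]
      exact mul_le_mul_of_nonneg_right (hB y).2 (hY0 _)
  have hC : ∫ y, pot N y * Yk κ (x - y) =
      ∫ z, N z * ((1 - Real.exp (-(κ * ‖x - z‖))) / ‖x - z‖) := by
    have h1 : ∀ y, pot N y * Yk κ (x - y) = ∫ z, N z / ‖y - z‖ * Yk κ (x - y) := fun y =>
      (integral_mul_const _ _).symm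
    simp_rw [h1]
    rw [integral_integral_swap (f := fun y z => N z / ‖y - z‖ * Yk κ (x - y)) hint]
    apply integral_congr_ae
    filter_upwards [hne] with z hz
    have h2 : ∀ y, N z / ‖y - z‖ * Yk κ (x - y) =
        N z * (fun w => Yk κ w / ‖(x - z) - w‖) (x - y) := by
      intro y
      simp only
      rw [sub_sub_sub_cancel_left]
      ring
    simp_rw [h2]
    rw [integral_const_mul, integral_sub_left_eq_self (fun w => Yk κ w / ‖(x - z) - w‖) volume x,
      hYpot (x - z) (sub_ne_zero.2 (Ne.symm hz))]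
  have hI1 := (hB x).1
  have hI2 : Integrable (fun z => N z * ((1 - Real.exp (-(κ * ‖x - z‖))) / ‖x - z‖)) := by
    refine hI1.norm.mono' ?_ (ae_of_all _ fun z => ?_)
    · apply Measurable.aestronglyMeasurable
      fun_prop
    · rw [norm_mul, norm_div, norm_div, norm_norm, mul_div_assoc']
      apply div_le_div_of_nonneg_right _ (norm_nonneg _)
      have h3 : ‖1 - Real.exp (-(κ * ‖x - z‖))‖ ≤ 1 := by
        rw [Real.norm_eq_abs, abs_le]
        have h4 : Real.exp (-(κ * ‖x - z‖)) ≤ 1 := by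
          rw [Real.exp_le_one_iff]
          have := mul_nonneg hκ.le (norm_nonneg (x - z))
          linarith
        have h5 := Real.exp_pos (-(κ * ‖x - z‖))
        constructor <;> linarith
      calc ‖N z‖ * ‖1 - Real.exp (-(κ * ‖x - z‖))‖ ≤ ‖N z‖ * 1 :=
            mul_le_mul_of_nonneg_left h3 (norm_nonneg _)
        _ = ‖N z‖ := mul_one _
  rw [hC]
  unfold pot
  rw [← integral_sub hI1 hI2, ← integral_const_mul, ← integral_const_mul]
  apply integral_congr_ae
  filter_upwards [hne] with z hz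
  have h0 : ‖x - z‖ ≠ 0 := norm_ne_zero_iff.2 (sub_ne_zero.2 (Ne.symm hz))
  have hpi := Real.pi_ne_zero
  unfold Yk
  field_simp
  ring

/-- Yukawa-Dirichlet energy of a truncated potential -/
theorem energy_markov (κ : ℝ) (hκ : 0 < κ) (N : E3 → ℝ) (hN : Nice N) (δ : ℝ) (hδ : 0 < δ) :
    κ ^ 2 * ((∫ x, (max (pot N x - δ) 0) ^ 2)
        - ∫ x, ∫ y, max (pot N x - δ) 0 * max (pot N y - δ) 0 * Yk κ (x - y))
      ≤ 4 * Real.pi * ∫ x, ∫ y, max (pot N x - δ) 0 * N y * Yk κ (x - y) := by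
  obtain ⟨B, hB⟩ := nice_bound N hN
  obtain ⟨M, hM⟩ := nice_decay N hN δ hδ
  obtain ⟨hYn, hY0, hY1, hYpot⟩ := yuk_basic κ hκ
  have hNm := hN.1
  have hYm := hYn.1
  have hYx : ∀ x, Integrable (fun y => Yk κ (x - y)) := fun x => hYn.2.1.comp_sub_left x
  have hYx1 : ∀ x, ∫ y, Yk κ (x - y) = 1 := by
    intro x
    rw [integral_sub_left_eq_self (Yk κ) volume x, hY1]
  have hφabs : ∀ x, |pot N x| ≤ ∫ y, |N y| / ‖x - y‖ := by
    intro x
    unfold pot
    refine (abs_integral_le_integral_abs).trans (le_of_eq ?_)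
    congr 1
    ext y
    rw [abs_div, abs_norm]
  have hφB : ∀ x, |pot N x| ≤ B := fun x => (hφabs x).trans (hB x).2
  have hB0 : 0 ≤ B := (abs_nonneg _).trans (hφB 0)
  have hφm : Measurable (pot N) := by
    have h1 : Measurable (fun p : E3 × E3 => N p.2 / ‖p.1 - p.2‖) :=
      (hNm.comp measurable_snd).div ((measurable_fst.sub measurable_snd).norm)
    exact (h1.stronglyMeasurable.integral_prod_right').measurable
  obtain ⟨f, hf⟩ : ∃ f : E3 → ℝ, f = fun x => max (pot N x - δ) 0 := ⟨_, rfl⟩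
  have hfx : ∀ x, max (pot N x - δ) 0 = f x := fun x => by rw [hf]
  simp_rw [hfx]
  have hfm : Measurable f := by
    rw [hf]
    exact (hφm.sub_const δ).max measurable_const
  have hf0 : ∀ x, 0 ≤ f x := fun x => by rw [hf]; exact le_max_right _ _
  have hfB : ∀ x, f x ≤ B := by
    intro x
    rw [← hfx]
    apply max_le _ hB0
    have := (abs_le.1 (hφB x)).2
    linarith
  have hfabs : ∀ x, |f x| ≤ B := fun x => by rw [abs_of_nonneg (hf0 x)]; exact hfB x
  have hfint : Integrable f := by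
    have h1 : Integrable ((closedBall (0 : E3) M).indicator (fun _ => B)) := by
      rw [integrable_indicator_iff isClosed_closedBall.measurableSet]
      exact integrableOn_const (measure_closedBall_lt_top.ne)
    refine h1.mono' hfm.aestronglyMeasurable (ae_of_all _ fun x => ?_)
    by_cases hx : x ∈ closedBall (0 : E3) M
    · rw [Set.indicator_of_mem hx]
      exact hfabs x
    · rw [Set.indicator_of_notMem hx]
      rw [mem_closedBall, dist_zero_right, not_le] at hx
      have h2 := (hφabs x).trans (hM x hx.le)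
      have h3 := (abs_le.1 h2).2
      have h4 : f x = 0 := by
        rw [← hfx]
        apply max_eq_right
        linarith
      rw [h4]
      simp
  -- bounded measurable convolutions
  have hconv : ∀ h : E3 → ℝ, Measurable h → (∀ x, |h x| ≤ B) →
      (∀ x, Integrable (fun y => h y * Yk κ (x - y))) ∧
      Measurable (fun x => ∫ y, h y * Yk κ (x - y)) ∧
      ∀ x, |∫ y, h y * Yk κ (x - y)| ≤ B := by
    intro h hh hhB
    have hi : ∀ x, Integrable (fun y => h y * Yk κ (x - y)) := by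
      intro x
      refine ((hYx x).const_mul B).mono' ?_ (ae_of_all _ fun y => ?_)
      · exact (hh.mul (hYm.comp (measurable_const.sub measurable_id))).aestronglyMeasurable
      · rw [norm_mul, Real.norm_eq_abs, Real.norm_of_nonneg (hY0 _)]
        exact mul_le_mul_of_nonneg_right (hhB y) (hY0 _)
    refine ⟨hi, ?_, ?_⟩
    · have h1 : Measurable (fun p : E3 × E3 => h p.2 * Yk κ (p.1 - p.2)) :=
        (hh.comp measurable_snd).mul (hYm.comp (measurable_fst.sub measurable_snd))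
      exact (h1.stronglyMeasurable.integral_prod_right').measurable
    · intro x
      refine (abs_integral_le_integral_abs).trans ?_
      have h2 : ∫ y, |h y * Yk κ (x - y)| ≤ ∫ y, B * Yk κ (x - y) := by
        apply integral_mono (hi x).abs ((hYx x).const_mul B)
        intro y
        simp only
        rw [abs_mul, abs_of_nonneg (hY0 (x - y))]
        exact mul_le_mul_of_nonneg_right (hhB y) (hY0 _)
      rw [integral_const_mul, hYx1, mul_one] at h2
      exact h2
  obtain ⟨hAi, hAm, hAB⟩ := hconv f hfm hfabs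
  obtain ⟨hCi, hCm, hCB⟩ := hconv (pot N) hφm hφB
  have hprod : ∀ h : E3 → ℝ, Measurable h → (∃ K, ∀ x, |h x| ≤ K) →
      Integrable (fun x => f x * h x) := by
    intro h hh ⟨K, hK⟩
    refine (hfint.norm.const_mul K).mono' (hfm.mul hh).aestronglyMeasurable
      (ae_of_all _ fun x => ?_)
    rw [norm_mul, mul_comm]
    exact mul_le_mul_of_nonneg_right (hK x) (norm_nonneg _)
  have e1 : ∀ x, ∫ y, f x * f y * Yk κ (x - y) = f x * ∫ y, f y * Yk κ (x - y) := by
    intro x
    rw [← integral_const_mul]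
    congr 1
    ext y
    ring
  have e2 : ∀ x, ∫ y, f x * N y * Yk κ (x - y) = f x * ∫ y, N y * Yk κ (x - y) := by
    intro x
    rw [← integral_const_mul]
    congr 1
    ext y
    ring
  simp_rw [e1, e2]
  have hff : Integrable (fun x => f x ^ 2) := by
    have := hprod f hfm ⟨B, hfabs⟩
    refine this.congr (ae_of_all _ fun x => ?_)
    simp only
    ring
  have hfA : Integrable (fun x => f x * ∫ y, f y * Yk κ (x - y)) := hprod _ hAm ⟨B, hAB⟩
  have hfD : Integrable (fun x => f x * (pot N x - ∫ y, pot N y * Yk κ (x - y))) := by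
    refine hprod _ (hφm.sub hCm) ⟨B + B, fun x => ?_⟩
    exact (abs_sub _ _).trans (add_le_add (hφB x) (hCB x))
  have e3 : 4 * Real.pi * ∫ x, f x * ∫ y, N y * Yk κ (x - y) =
      κ ^ 2 * ∫ x, f x * (pot N x - ∫ y, pot N y * Yk κ (x - y)) := by
    rw [← integral_const_mul, ← integral_const_mul]
    congr 1
    ext x
    have := TH_energy_markov_key κ hκ N hN x
    linear_combination (-(f x)) * this
  rw [e3, ← integral_sub hff hfA]
  apply mul_le_mul_of_nonneg_left _ (sq_nonneg κ)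
  apply integral_mono (hff.sub hfA) hfD
  intro x
  show f x ^ 2 - f x * (∫ y, f y * Yk κ (x - y)) ≤
    f x * (pot N x - ∫ y, pot N y * Yk κ (x - y))
  -- pointwise
  have h1 : (∫ y, pot N y * Yk κ (x - y)) - ∫ y, f y * Yk κ (x - y) ≤ δ := by
    rw [← integral_sub (hCi x) (hAi x)]
    have h2 : ∫ y, (pot N y * Yk κ (x - y) - f y * Yk κ (x - y)) ≤ ∫ y, δ * Yk κ (x - y) := by
      apply integral_mono ((hCi x).sub (hAi x)) ((hYx x).const_mul δ)
      intro y
      show pot N y * Yk κ (x - y) - f y * Yk κ (x - y) ≤ δ * Yk κ (x - y)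
      rw [← sub_mul]
      apply mul_le_mul_of_nonneg_right _ (hY0 _)
      rw [← hfx]
      have := le_max_left (pot N y - δ) 0
      linarith
    rw [integral_const_mul, hYx1, mul_one] at h2
    exact h2
  rcases (hf0 x).eq_or_lt with h0 | h0
  · rw [← h0]
    simp
  · have h2 : f x = pot N x - δ := by
      rw [← hfx] at h0 ⊢
      rcases le_total (pot N x - δ) 0 with h | h
      · rw [max_eq_right h] at h0
        exact absurd h0 (lt_irrefl _)
      · exact max_eq_left h
    have h3 : 0 ≤ f x * (δ - ((∫ y, pot N y * Yk κ (x - y)) - ∫ y, f y * Yk κ (x - y))) :=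
      mul_nonneg h0.le (by linarith)
    have h4 : pot N x = f x + δ := by linarith
    rw [h4]
    nlinarith [h3]
end


/-! ### moll_lim -/
section
-- ===== given lemmas (leave as they are, do not prove) =====


-- ===== TARGET =====
theorem TH_moll_lim_scale (κ : ℝ) (hκ : 0 < κ) (v : E3) : Yk κ (κ⁻¹ • v) = κ ^ 3 * Yk 1 v := by
  unfold Yk
  rw [norm_smul, Real.norm_eq_abs, abs_of_pos (inv_pos.2 hκ)]
  have h1 : κ * (κ⁻¹ * ‖v‖) = 1 * ‖v‖ := by field_simp
  rw [h1]
  by_cases hv : ‖v‖ = 0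
  · simp [hv]
  · have hpi : Real.pi ≠ 0 := Real.pi_ne_zero
    field_simp

theorem TH_moll_lim_inner (g : E3 → ℝ) (c : ℝ) (y : E3) (κ : ℝ) (hκ : 0 < κ) :
    ∫ x, g x * c * Yk κ (x - y) = ∫ v, g (κ⁻¹ • v + y) * c * Yk 1 v := by
  have h1 : ∫ x, g x * c * Yk κ (x - y) = ∫ u, g (u + y) * c * Yk κ u := by
    have := integral_add_right_eq_self (μ := (volume : Measure E3))
      (fun x => g x * c * Yk κ (x - y)) y
    rw [← this]
    simp
  rw [h1]
  have h2 := Measure.integral_comp_smul (volume : Measure E3)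
    (fun u => g (u + y) * c * Yk κ u) κ⁻¹
  have h3 : |((κ⁻¹ : ℝ) ^ Module.finrank ℝ E3)⁻¹| = κ ^ 3 := by
    have : Module.finrank ℝ E3 = 3 := by simp [E3]
    rw [this, inv_pow, inv_inv, abs_of_pos (by positivity)]
  rw [h3] at h2
  have h4 : ∫ v, g (κ⁻¹ • v + y) * c * Yk κ (κ⁻¹ • v) =
      κ ^ 3 * ∫ v, g (κ⁻¹ • v + y) * c * Yk 1 v := by
    rw [← integral_const_mul]
    refine integral_congr_ae (Eventually.of_forall fun v => ?_)
    simp only [TH_moll_lim_scale κ hκ v]
    ring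
  rw [h4, smul_eq_mul] at h2
  have h5 : (κ ^ 3 : ℝ) ≠ 0 := by positivity
  exact (mul_left_cancel₀ h5 h2).symm

theorem moll_lim (g N : E3 → ℝ) (hg : Continuous g) (hg0 : Tendsto g (cocompact E3) (𝓝 0))
    (hN : Nice N) :
    Tendsto (fun κ : ℝ => ∫ x, ∫ y, g x * N y * Yk κ (x - y)) atTop (𝓝 (∫ x, g x * N x)) := by
  obtain ⟨hNm, hNi, -⟩ := hN
  obtain ⟨⟨hYm, hYi, -⟩, hY0, hY1, -⟩ := yuk_basic 1 one_pos
  -- boundedness of g
  obtain ⟨C, hC⟩ : ∃ C : ℝ, ∀ x, ‖g x‖ ≤ C := by
    have hbdd : Bornology.IsBounded (Set.range g) := by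
      have : Tendsto g (cocompact E3) (𝓝 0) := hg0
      obtain ⟨K, hK, hK2⟩ := (mem_cocompact.1 (this (Metric.ball_mem_nhds (0 : ℝ) one_pos)))
      have h1 : Set.range g ⊆ g '' K ∪ Metric.ball 0 1 := by
        rintro _ ⟨x, rfl⟩
        by_cases hx : x ∈ K
        · exact Or.inl ⟨x, hx, rfl⟩
        · exact Or.inr (hK2 hx)
      exact ((hK.image hg).isBounded.union Metric.isBounded_ball).subset h1
    obtain ⟨C, hC⟩ := hbdd.exists_norm_le
    exact ⟨C, fun x => hC _ ⟨x, rfl⟩⟩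
  have hC0 : 0 ≤ C := (norm_nonneg _).trans (hC 0)
  -- rewriting for κ > 0
  have key : ∀ κ : ℝ, 0 < κ → ∫ x, ∫ y, g x * N y * Yk κ (x - y) =
      ∫ y, ∫ v, g (κ⁻¹ • v + y) * N y * Yk 1 v := by
    intro κ hκ
    obtain ⟨⟨hKm, hKi, -⟩, -, -, -⟩ := yuk_basic κ hκ
    have hint : Integrable (Function.uncurry fun x y : E3 => g x * N y * Yk κ (x - y))
        ((volume : Measure E3).prod volume) := by
      have h1 := hNi.convolution_integrand (ContinuousLinearMap.mul ℝ ℝ) hKi
        (μ := (volume : Measure E3)) (ν := (volume : Measure E3))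
      have h2 : Integrable (fun p : E3 × E3 => g p.1 * (N p.2 * Yk κ (p.1 - p.2)))
          ((volume : Measure E3).prod volume) := by
        refine Integrable.bdd_mul (c := C) ?_ ?_ ?_
        · simpa using h1
        · exact (hg.comp continuous_fst).aestronglyMeasurable
        · exact Eventually.of_forall fun p => hC p.1
      refine h2.congr (Eventually.of_forall fun p => ?_)
      simp only [Function.uncurry]
      ring
    rw [integral_integral_swap hint]
    refine integral_congr_ae (Eventually.of_forall fun y => ?_)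
    exact TH_moll_lim_inner g (N y) y κ hκ
  have hlim : Tendsto (fun κ : ℝ => ∫ y, ∫ v, g (κ⁻¹ • v + y) * N y * Yk 1 v) atTop
      (𝓝 (∫ x, g x * N x)) := by
    refine tendsto_integral_filter_of_dominated_convergence (fun y => C * |N y|) ?_ ?_ ?_ ?_
    · refine Eventually.of_forall fun κ => ?_
      have hm : Measurable (Function.uncurry fun (y v : E3) => g (κ⁻¹ • v + y) * N y * Yk 1 v) := by
        change Measurable fun p : E3 × E3 => g (κ⁻¹ • p.2 + p.1) * N p.1 * Yk 1 p.2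
        refine ((hg.measurable.comp ?_).mul (hNm.comp measurable_fst)).mul (hYm.comp measurable_snd)
        exact (measurable_snd.const_smul κ⁻¹).add measurable_fst
      exact (hm.stronglyMeasurable.integral_prod_right).aestronglyMeasurable
    · refine Eventually.of_forall fun κ => Eventually.of_forall fun y => ?_
      calc ‖∫ v, g (κ⁻¹ • v + y) * N y * Yk 1 v‖ ≤ ∫ v, C * |N y| * Yk 1 v := by
            refine norm_integral_le_of_norm_le (hYi.const_mul _) (Eventually.of_forall fun v => ?_)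
            rw [norm_mul, norm_mul, Real.norm_eq_abs (N y), Real.norm_eq_abs (Yk 1 v),
              abs_of_nonneg (hY0 v)]
            gcongr
            · exact hY0 v
            · exact hC _
        _ = C * |N y| := by rw [integral_const_mul, hY1, mul_one]
    · exact hNi.abs.const_mul C
    · refine Eventually.of_forall fun y => ?_
      have h1 : Tendsto (fun κ : ℝ => ∫ v, g (κ⁻¹ • v + y) * N y * Yk 1 v) atTop
          (𝓝 (∫ v, g y * N y * Yk 1 v)) := by
        refine tendsto_integral_filter_of_dominated_convergence (fun v => C * |N y| * Yk 1 v)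
          ?_ ?_ ?_ ?_
        · refine Eventually.of_forall fun κ => ?_
          refine Measurable.aestronglyMeasurable ?_
          refine ((hg.measurable.comp ?_).mul measurable_const).mul hYm
          exact (measurable_id.const_smul κ⁻¹).add measurable_const
        · refine Eventually.of_forall fun κ => Eventually.of_forall fun v => ?_
          rw [norm_mul, norm_mul, Real.norm_eq_abs (N y), Real.norm_eq_abs (Yk 1 v),
            abs_of_nonneg (hY0 v)]
          gcongr
          · exact hY0 v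
          · exact hC _
        · exact hYi.const_mul _
        · refine Eventually.of_forall fun v => ?_
          refine Tendsto.mul_const _ (Tendsto.mul_const _ ?_)
          refine (hg.tendsto y).comp ?_
          have h2 : Tendsto (fun κ : ℝ => κ⁻¹ • v + y) atTop (𝓝 ((0 : ℝ) • v + y)) :=
            (tendsto_inv_atTop_zero.smul_const v).add_const y
          simpa using h2
      rw [integral_const_mul, hY1, mul_one] at h1
      exact h1
  refine hlim.congr' ?_
  filter_upwards [eventually_gt_atTop 0] with κ hκ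
  exact (key κ hκ).symm
end


/-! ### dual_lim -/
section
-- ===== given lemmas (leave as they are, do not prove) =====












theorem TH_dual_lim_nice (M ρ : E3 → ℝ) (hM : Nice M) (hρ : Adm ρ) : Nice (fun y => M y - ρ y) := by
  obtain ⟨m1, m2, m3⟩ := hM
  obtain ⟨r1, r2, r3, r4⟩ := hρ
  refine ⟨m1.sub r1, m2.sub r3, ?_⟩
  have hb : Integrable (fun x => (2:ℝ) ^ (5/3 : ℝ) * (|M x| ^ (5/3 : ℝ) + ρ x ^ (5/3 : ℝ))) :=
    (m3.add r4).const_mul _
  refine hb.mono' ?_ (Filter.Eventually.of_forall fun x => ?_)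
  · have : Measurable (fun x => |M x - ρ x| ^ (5/3 : ℝ)) := by
      have h1 : Measurable (fun x => |M x - ρ x|) := (m1.sub r1).abs
      exact h1.pow_const _
    exact this.aestronglyMeasurable
  · rw [Real.norm_of_nonneg (by positivity)]
    have h0 := r2 x
    have hMx := abs_nonneg (M x)
    have h1 : |M x - ρ x| ≤ 2 * max |M x| (ρ x) := by
      have := abs_sub (M x) (ρ x)
      rw [abs_of_nonneg h0] at this
      have a1 := le_max_left |M x| (ρ x)
      have a2 := le_max_right |M x| (ρ x)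
      linarith
    have hmax : 0 ≤ max |M x| (ρ x) := le_max_of_le_left hMx
    calc |M x - ρ x| ^ (5/3 : ℝ) ≤ (2 * max |M x| (ρ x)) ^ (5/3 : ℝ) :=
          Real.rpow_le_rpow (abs_nonneg _) h1 (by norm_num)
      _ = (2:ℝ) ^ (5/3 : ℝ) * (max |M x| (ρ x)) ^ (5/3 : ℝ) := Real.mul_rpow (by norm_num) hmax
      _ ≤ (2:ℝ) ^ (5/3 : ℝ) * (|M x| ^ (5/3 : ℝ) + ρ x ^ (5/3 : ℝ)) := by
          apply mul_le_mul_of_nonneg_left _ (by positivity)
          have b1 : 0 ≤ |M x| ^ (5/3 : ℝ) := Real.rpow_nonneg hMx _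
          have b2 : 0 ≤ ρ x ^ (5/3 : ℝ) := Real.rpow_nonneg h0 _
          rcases max_choice |M x| (ρ x) with h | h <;> rw [h] <;> linarith

theorem TH_dual_lim_abs (N : E3 → ℝ) (x : E3) : |pot N x| ≤ ∫ y, |N y| / ‖x - y‖ := by
  unfold pot
  refine (abs_integral_le_integral_abs).trans (le_of_eq ?_)
  congr 1
  funext y
  rw [abs_div, abs_norm]

theorem TH_dual_lim_cont (N : E3 → ℝ) (hN : Nice N) : Continuous (pot N) := by
  obtain ⟨B, hB⟩ := nice_bound N hN
  rw [Metric.continuous_iff]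
  intro x ε hε
  obtain ⟨η, hη, h⟩ := nice_modulus N hN (ε / 2) (by positivity)
  refine ⟨η, hη, fun x' hx' => ?_⟩
  rw [dist_eq_norm] at hx'
  obtain ⟨_, h2⟩ := h x' x hx'
  rw [Real.dist_eq]
  have e1 : pot N x' - pot N x = ∫ y, (N y / ‖x' - y‖ - N y / ‖x - y‖) := by
    unfold pot
    rw [integral_sub (hB x').1 (hB x).1]
  rw [e1]
  refine lt_of_le_of_lt (abs_integral_le_integral_abs) (lt_of_le_of_lt (le_of_eq ?_) (lt_of_le_of_lt h2 (by linarith)))
  congr 1
  funext y
  rw [← abs_mul]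
  congr 1
  ring

theorem TH_dual_lim_zero (N : E3 → ℝ) (hN : Nice N) : Tendsto (pot N) (cocompact E3) (𝓝 0) := by
  rw [Metric.tendsto_nhds]
  intro ε hε
  obtain ⟨M, hM⟩ := nice_decay N hN (ε / 2) (by positivity)
  have h1 : ∀ᶠ x in cocompact E3, M ≤ ‖x‖ := (tendsto_norm_cocompact_atTop (E := E3)).eventually_ge_atTop M
  filter_upwards [h1] with x hx
  rw [Real.dist_eq, sub_zero]
  have := (TH_dual_lim_abs N x).trans (hM x hx)
  linarith

theorem TH_dual_lim_int (φ g : E3 → ℝ) (B : ℝ) (hφ : Continuous φ) (hB : ∀ x, |φ x| ≤ B)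
    (hg : Integrable g) : Integrable (fun x => φ x * g x) := by
  refine (hg.norm.const_mul B).mono' ?_ (Filter.Eventually.of_forall fun x => ?_)
  · exact hφ.aestronglyMeasurable.mul hg.aestronglyMeasurable
  · rw [norm_mul, Real.norm_eq_abs]
    exact mul_le_mul_of_nonneg_right (hB x) (norm_nonneg _)

theorem TH_dual_lim_small (h g : E3 → ℝ) (δ : ℝ) (hh : ∀ x, |h x| ≤ δ) (hg : Integrable g) :
    |∫ x, h x * g x| ≤ δ * ∫ x, |g x| := by
  rw [← integral_const_mul]
  refine (abs_integral_le_integral_abs).trans ?_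
  refine integral_mono_of_nonneg (Filter.Eventually.of_forall fun x => abs_nonneg _)
    (hg.abs.const_mul δ) (Filter.Eventually.of_forall fun x => ?_)
  simp only [abs_mul]
  exact mul_le_mul_of_nonneg_right (hh x) (abs_nonneg _)

-- ===== TARGET =====
theorem dual_lim (M : E3 → ℝ) (hM : Nice M) (hM0 : ∀ x, 0 ≤ M x) (lam : ℝ) (ρ : E3 → ℝ) (hρ : Adm ρ)
    (μ : ℝ) (hμ : 0 ≤ μ)
    (hint : Integrable (fun x => (max (pot (fun y => M y - ρ y) x - μ) 0) ^ (5/2 : ℝ)))
    (ε : ℝ) (hε : 0 < ε) :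
    ∃ κ : ℝ, 0 < κ ∧ ∃ f : E3 → ℝ, Continuous f ∧ (∀ x, 0 ≤ f x) ∧ (∃ r : ℝ, ∀ x, r < ‖x‖ → f x = 0) ∧
      -(2/5) * (∫ x, (max (pot (fun y => M y - ρ y) x - μ) 0) ^ (5/2 : ℝ)) - μ * lam
        + (∫ x, pot (fun y => M y - ρ y) x * ρ x)
        + 1/2 * (∫ x, pot (fun y => M y - ρ y) x * (M x - ρ x)) - ε ≤ Gd κ μ lam M f := by
  obtain ⟨N, hNdef⟩ : ∃ N : E3 → ℝ, N = fun y => M y - ρ y := ⟨_, rfl⟩
  have hN : Nice N := hNdef ▸ TH_dual_lim_nice M ρ hM hρ
  have hNx : ∀ x, M x - ρ x = N x := fun x => by rw [hNdef]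
  rw [← hNdef] at hint ⊢
  simp only [hNx]
  obtain ⟨φ, hφdef⟩ : ∃ φ : E3 → ℝ, φ = pot N := ⟨_, rfl⟩
  have hφc : Continuous φ := hφdef ▸ TH_dual_lim_cont N hN
  have hφ0 : Tendsto φ (cocompact E3) (𝓝 0) := hφdef ▸ TH_dual_lim_zero N hN
  obtain ⟨B, hB⟩ := nice_bound N hN
  have hφB : ∀ x, |φ x| ≤ B := fun x => by
    rw [hφdef]; exact (TH_dual_lim_abs N x).trans (hB x).2
  have hpB : ∀ x, |max (φ x) 0| ≤ B := fun x => by
    rw [abs_of_nonneg (le_max_right _ _)]
    exact max_le ((le_abs_self _).trans (hφB x)) ((abs_nonneg _).trans (hφB x))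
  have hpc : Continuous (fun x => max (φ x) 0) := hφc.max continuous_const
  obtain ⟨_, iM, _⟩ := id hM
  obtain ⟨_, iN, _⟩ := id hN
  have iρ : Integrable ρ := hρ.2.2.1
  have hρ0 := hρ.2.1
  -- choice of delta
  set a := ∫ x, |M x| with ha
  set b := ∫ x, |N x| with hb
  have ha0 : 0 ≤ a := integral_nonneg fun x => abs_nonneg _
  have hb0 : 0 ≤ b := integral_nonneg fun x => abs_nonneg _
  obtain ⟨δ, hδ, hδab⟩ : ∃ δ : ℝ, 0 < δ ∧ δ * (a + b) ≤ ε / 2 := by
    refine ⟨ε / (2 * (a + b + 1)), by positivity, ?_⟩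
    rw [div_mul_eq_mul_div, div_le_div_iff₀ (by positivity) (by norm_num)]
    nlinarith
  obtain ⟨f, hfdef⟩ : ∃ f : E3 → ℝ, f = fun x => max (φ x - δ) 0 := ⟨_, rfl⟩
  have hfx : ∀ x, max (φ x - δ) 0 = f x := fun x => by rw [hfdef]
  have hfc : Continuous f := by
    rw [hfdef]; exact (hφc.sub continuous_const).max continuous_const
  have hf0 : ∀ x, 0 ≤ f x := fun x => by rw [hfdef]; exact le_max_right _ _
  have hflim : Tendsto f (cocompact E3) (𝓝 0) := by
    rw [hfdef]
    have h1 : Tendsto (fun x => max (φ x - δ) 0) (cocompact E3) (𝓝 (max (0 - δ) 0)) :=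
      (hφ0.sub_const δ).max tendsto_const_nhds
    rwa [max_eq_right (by linarith)] at h1
  have hfd : ∀ x, |max (φ x) 0 - f x| ≤ δ := fun x => by
    rw [hfdef, abs_le]
    simp only
    rcases le_total (φ x) 0 with h | h
    · rw [max_eq_right h, max_eq_right (by linarith)]
      constructor <;> linarith
    · rw [max_eq_left h]
      rcases le_total (φ x - δ) 0 with h' | h'
      · rw [max_eq_right h']; constructor <;> linarith
      · rw [max_eq_left h']; constructor <;> linarith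
  have hfB : ∀ x, |f x| ≤ B := fun x => by
    rw [abs_of_nonneg (hf0 x)]
    refine le_trans ?_ (hpB x)
    rw [abs_of_nonneg (le_max_right _ _), hfdef]
    exact max_le_max (by linarith) le_rfl
  have hfsupp : ∃ r : ℝ, ∀ x, r < ‖x‖ → f x = 0 := by
    obtain ⟨r, hr⟩ := nice_decay N hN δ hδ
    refine ⟨r, fun x hx => ?_⟩
    have h1 := (TH_dual_lim_abs N x).trans (hr x hx.le)
    rw [← hφdef] at h1
    rw [hfdef]
    exact max_eq_right (by linarith [le_abs_self (φ x)])
  -- choice of kappa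
  have l1 := moll_lim f M hfc hflim hM
  have l2 := moll_lim f N hfc hflim hN
  have l3 := l1.sub (l2.const_mul (1/2))
  have l4 := (l3.eventually (lt_mem_nhds (show (∫ x, f x * M x) - 1/2 * (∫ x, f x * N x) - ε / 2 <
    (∫ x, f x * M x) - 1/2 * (∫ x, f x * N x) by linarith))).and (eventually_gt_atTop (0:ℝ))
  obtain ⟨κ, hκ1, hκ⟩ := l4.exists
  refine ⟨κ, hκ, f, hfc, hf0, hfsupp, ?_⟩
  have em := energy_markov κ hκ N hN δ hδ
  rw [← hφdef] at em
  simp only [hfx] at em
  rw [← hφdef] at hint ⊢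
  -- first term
  have t1 : (∫ x, (max (f x - μ) 0) ^ (5/2 : ℝ)) ≤ ∫ x, (max (φ x - μ) 0) ^ (5/2 : ℝ) := by
    refine integral_mono_of_nonneg (Filter.Eventually.of_forall fun x => by positivity) hint
      (Filter.Eventually.of_forall fun x => ?_)
    apply Real.rpow_le_rpow (le_max_right _ _) _ (by norm_num)
    rw [hfdef]
    simp only
    apply max_le _ (le_max_right _ _)
    rcases le_total (φ x - δ) 0 with h' | h'
    · rw [max_eq_right h']
      exact le_trans (by linarith) (le_max_right _ _)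
    · rw [max_eq_left h']
      exact le_trans (by linarith) (le_max_left _ _)
  -- markov
  have hpi := Real.pi_pos
  have t2 : κ ^ 2 / (8 * Real.pi) * ((∫ x, f x ^ 2) - ∫ x, ∫ y, f x * f y * Yk κ (x - y)) ≤
      1/2 * ∫ x, ∫ y, f x * N y * Yk κ (x - y) := by
    rw [div_mul_eq_mul_div, div_le_iff₀ (by positivity)]
    refine em.trans (le_of_eq ?_)
    ring
  -- delta error
  have iFM : Integrable (fun x => f x * M x) := TH_dual_lim_int f M B hfc hfB iM
  have iFN : Integrable (fun x => f x * N x) := TH_dual_lim_int f N B hfc hfB iN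
  have iPM : Integrable (fun x => max (φ x) 0 * M x) := TH_dual_lim_int _ M B hpc hpB iM
  have iPN : Integrable (fun x => max (φ x) 0 * N x) := TH_dual_lim_int _ N B hpc hpB iN
  have iφρ : Integrable (fun x => φ x * ρ x) := TH_dual_lim_int φ ρ B hφc hφB iρ
  have iφN : Integrable (fun x => φ x * N x) := TH_dual_lim_int φ N B hφc hφB iN
  have d1 := TH_dual_lim_small (fun x => max (φ x) 0 - f x) M δ hfd iM
  have d2 := TH_dual_lim_small (fun x => max (φ x) 0 - f x) N δ hfd iN
  have e1 : ∫ x, (max (φ x) 0 - f x) * M x = (∫ x, max (φ x) 0 * M x) - ∫ x, f x * M x := by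
    rw [← integral_sub iPM iFM]
    congr 1; funext x; ring
  have e2 : ∫ x, (max (φ x) 0 - f x) * N x = (∫ x, max (φ x) 0 * N x) - ∫ x, f x * N x := by
    rw [← integral_sub iPN iFN]
    congr 1; funext x; ring
  rw [e1] at d1
  rw [e2] at d2
  rw [abs_le] at d1 d2
  -- pointwise inequality
  have t3 : (∫ x, φ x * ρ x) + 1/2 * (∫ x, φ x * N x) ≤
      (∫ x, max (φ x) 0 * M x) - 1/2 * ∫ x, max (φ x) 0 * N x := by
    rw [← integral_const_mul, ← integral_const_mul, ← integral_add iφρ (iφN.const_mul _),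
      ← integral_sub iPM (iPN.const_mul _)]
    refine integral_mono (iφρ.add (iφN.const_mul _)) (iPM.sub (iPN.const_mul _)) (fun x => ?_)
    simp only
    rw [← hNx x]
    have c1 := hρ0 x
    have c2 := hM0 x
    rcases le_total (φ x) 0 with h | h
    · rw [max_eq_right h]
      nlinarith [mul_nonneg (neg_nonneg.mpr h) c1, mul_nonneg (neg_nonneg.mpr h) c2]
    · rw [max_eq_left h]
      nlinarith
  unfold Gd
  have hab1 : δ * a + δ * b ≤ ε / 2 := by
    have : δ * a + δ * b = δ * (a + b) := by ring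
    rw [this]; exact hδab
  have hδa : 0 ≤ δ * a := by positivity
  have hδb : 0 ≤ δ * b := by positivity
  linarith [d1.1, d1.2, d2.1, d2.2]
end


/-! ### grid -/
section
-- ===== given lemmas (leave as they are, do not prove) =====



section TH_grid_sec

namespace TH_grid_ns_step

theorem TH_grid_step_dist (η : ℝ) (hη : 0 < η) (x : E3) : ‖x - ctr η (cellOf η x)‖ ≤ η := by
  have hc : ∀ b, |(x - ctr η (cellOf η x)) b| ≤ η / 2 := by
    intro b
    have e : (x - ctr η (cellOf η x)) b = x b - ((⌊x b / η⌋ : ℝ) + 1/2) * η := by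
      simp [ctr, cellOf]
    rw [e]
    have h1 : (⌊x b / η⌋ : ℝ) ≤ x b / η := Int.floor_le _
    have h2 : x b / η < (⌊x b / η⌋ : ℝ) + 1 := Int.lt_floor_add_one _
    have h3 : x b = (x b / η) * η := by field_simp
    have h4 : (⌊x b / η⌋ : ℝ) * η ≤ x b := by
      have := mul_le_mul_of_nonneg_right h1 hη.le
      linarith
    have h5 : x b ≤ ((⌊x b / η⌋ : ℝ) + 1) * η := by
      have := mul_le_mul_of_nonneg_right h2.le hη.le
      linarith
    rw [abs_le]
    constructor <;> linarith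
  rw [EuclideanSpace.norm_eq]
  have h6 : ∑ i : Fin 3, ‖(x - ctr η (cellOf η x)) i‖ ^ 2 ≤ η ^ 2 := by
    have h7 : ∀ i : Fin 3, ‖(x - ctr η (cellOf η x)) i‖ ^ 2 ≤ (η / 2) ^ 2 := by
      intro i
      rw [Real.norm_eq_abs]
      exact pow_le_pow_left₀ (abs_nonneg _) (hc i) 2
    calc ∑ i : Fin 3, ‖(x - ctr η (cellOf η x)) i‖ ^ 2 ≤ ∑ i : Fin 3, (η / 2) ^ 2 :=
          Finset.sum_le_sum (fun i _ => h7 i)
      _ = 3 * (η / 2) ^ 2 := by simp
      _ ≤ η ^ 2 := by nlinarith [sq_nonneg η]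
  calc Real.sqrt (∑ i : Fin 3, ‖(x - ctr η (cellOf η x)) i‖ ^ 2) ≤ Real.sqrt (η ^ 2) :=
        Real.sqrt_le_sqrt h6
    _ = η := Real.sqrt_sq hη.le

theorem TH_grid_step_coord (y : E3) (b : Fin 3) : |y b| ≤ ‖y‖ := by
  have := EuclideanSpace.norm_eq y
  rw [this]
  apply Real.le_sqrt_of_sq_le
  have h : ‖y b‖ ^ 2 ≤ ∑ i : Fin 3, ‖y i‖ ^ 2 :=
    Finset.single_le_sum (f := fun i => ‖y i‖ ^ 2) (fun i _ => sq_nonneg _) (Finset.mem_univ b)
  rw [Real.norm_eq_abs] at h
  exact h

theorem TH_grid_step_fin (f : E3 → ℝ) (r1 : ℝ) (hfr : ∀ x, r1 < ‖x‖ → f x = 0) (η : ℝ)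
    (hη : 0 < η) : (Function.support (fun x : Fin 3 → ℤ => f (ctr η x))).Finite := by
  apply Set.Finite.subset (Finset.finite_toSet
    (Fintype.piFinset (fun _ : Fin 3 => Finset.Icc (-(⌈r1 / η⌉ + 1)) (⌈r1 / η⌉ + 1))))
  intro x hx
  rw [Function.mem_support] at hx
  have h1 : ‖ctr η x‖ ≤ r1 := by
    by_contra h
    exact hx (hfr _ (lt_of_not_ge h))
  simp only [Finset.mem_coe, Fintype.mem_piFinset, Finset.mem_Icc]
  intro b
  have h2 : |((x b : ℝ) + 1/2) * η| ≤ r1 := by
    have := TH_grid_step_coord (ctr η x) b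
    have e : (ctr η x) b = ((x b : ℝ) + 1/2) * η := by simp [ctr]
    rw [e] at this
    linarith
  rw [abs_mul, abs_of_pos hη] at h2
  have h3 : |(x b : ℝ) + 1/2| ≤ r1 / η := by
    rw [le_div_iff₀ hη]; exact h2
  have h4 := Int.le_ceil (r1 / η)
  rw [abs_le] at h3
  constructor
  · have : (-((⌈r1 / η⌉ : ℝ) + 1)) ≤ (x b : ℝ) := by linarith [h3.1]
    exact_mod_cast this
  · have : (x b : ℝ) ≤ (⌈r1 / η⌉ : ℝ) + 1 := by linarith [h3.2]
    exact_mod_cast this

theorem TH_grid_step (f : E3 → ℝ) (hf : Continuous f)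
    (hf0 : ∀ x, 0 ≤ f x) (r1 : ℝ) (hfr : ∀ x, r1 < ‖x‖ → f x = 0) (r : ℝ) (hr : 0 < r)
    (δ : ℝ) (hδ : 0 < δ) :
    ∃ h0 : ℕ, ∀ h : ℕ, h0 ≤ h → ∃ u : (Fin 3 → ℤ) →₀ ℝ, (∀ x, 0 ≤ u x) ∧
      Measurable (stepf (r / (2 * (h : ℝ) + 1)) u) ∧
      (∀ x, |stepf (r / (2 * (h : ℝ) + 1)) u x - f x| ≤ δ) ∧
      (∀ x, r1 + 1 < ‖x‖ → stepf (r / (2 * (h : ℝ) + 1)) u x = 0) := by
  have hcs : HasCompactSupport f := by
    apply HasCompactSupport.of_support_subset_isCompact (isCompact_closedBall (0 : E3) r1)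
    intro x hx
    rw [Function.mem_support] at hx
    rw [mem_closedBall, dist_zero_right]
    by_contra h
    exact hx (hfr _ (lt_of_not_ge h))
  have huc : UniformContinuous f := hcs.uniformContinuous_of_continuous hf
  obtain ⟨δ0, hδ0, hd⟩ := Metric.uniformContinuous_iff.1 huc δ hδ
  have hm : 0 < min 1 δ0 := lt_min one_pos hδ0
  obtain ⟨h0, hh0⟩ := exists_nat_gt (r / min 1 δ0)
  refine ⟨h0, fun h hh => ?_⟩
  set η : ℝ := r / (2 * (h : ℝ) + 1) with hηdef
  have hden : (0 : ℝ) < 2 * (h : ℝ) + 1 := by positivity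
  have hη : 0 < η := by positivity
  have hηm : η < min 1 δ0 := by
    rw [hηdef, div_lt_iff₀ hden]
    rw [div_lt_iff₀ hm] at hh0
    have h1 : (h0 : ℝ) ≤ 2 * (h : ℝ) + 1 := by
      have : (h0 : ℝ) ≤ (h : ℝ) := by exact_mod_cast hh
      have h2 : (0 : ℝ) ≤ (h : ℝ) := by positivity
      linarith
    have h2 := mul_le_mul_of_nonneg_right h1 hm.le
    linarith
  have hη1 : η < 1 := lt_of_lt_of_le hηm (min_le_left _ _)
  have hη2 : η < δ0 := lt_of_lt_of_le hηm (min_le_right _ _)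
  have hfin := TH_grid_step_fin f r1 hfr η hη
  refine ⟨Finsupp.ofSupportFinite (fun x => f (ctr η x)) hfin, ?_, ?_, ?_, ?_⟩
  · intro x
    exact hf0 _
  · have hcell : Measurable (cellOf η) := by
      rw [measurable_pi_iff]
      intro b
      have h1 : Measurable (fun x : E3 => x b / η) := by
        have : Continuous (fun x : E3 => x b / η) := by fun_prop
        exact this.measurable
      exact Int.measurable_floor.comp h1
    have hu : Measurable (fun y : Fin 3 → ℤ =>
        (Finsupp.ofSupportFinite (fun x => f (ctr η x)) hfin) y) := measurable_of_countable _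
    exact hu.comp hcell
  · intro x
    have h1 := hd (a := ctr η (cellOf η x)) (b := x) (by
      rw [dist_comm, dist_eq_norm]
      exact lt_of_le_of_lt (TH_grid_step_dist η hη x) hη2)
    rw [Real.dist_eq] at h1
    exact h1.le
  · intro x hx
    have h1 := TH_grid_step_dist η hη x
    have h2 : ‖x‖ ≤ ‖x - ctr η (cellOf η x)‖ + ‖ctr η (cellOf η x)‖ := by
      have := norm_add_le (x - ctr η (cellOf η x)) (ctr η (cellOf η x))
      simpa using this
    exact hfr _ (by linarith)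

end TH_grid_ns_step
open TH_grid_ns_step


namespace TH_grid_ns_bil

theorem TH_grid_bil_conv (K m : E3 → ℝ) (hK : Integrable K) (hK1 : ∫ x, K x = 1) (hm : Integrable m) :
    Integrable (fun p : E3 × E3 => m p.2 * K (p.1 - p.2)) (volume.prod volume) ∧
      ∫ p : E3 × E3, m p.2 * K (p.1 - p.2) ∂(volume.prod volume) = ∫ x, m x := by
  have h1 : Integrable (fun p : E3 × E3 => m p.2 * K (p.1 - p.2)) (volume.prod volume) :=
    hm.convolution_integrand (ContinuousLinearMap.mul ℝ ℝ) hK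
  refine ⟨h1, ?_⟩
  rw [integral_prod_symm _ h1]
  refine integral_congr_ae (Filter.Eventually.of_forall fun y => ?_)
  show ∫ x, m y * K (x - y) = m y
  rw [integral_const_mul, integral_sub_right_eq_self K y, hK1, mul_one]

theorem TH_grid_bil_int (K m g : E3 → ℝ) (D : ℝ) (hg : Measurable g) (hgD : ∀ x, |g x| ≤ D)
    (hK : Integrable K) (hK1 : ∫ x, K x = 1) (hm : Integrable m) :
    Integrable (fun p : E3 × E3 => g p.1 * m p.2 * K (p.1 - p.2)) (volume.prod volume) := by
  have h1 := (TH_grid_bil_conv K m hK hK1 hm).1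
  have h2 : Integrable (fun p : E3 × E3 => g p.1 * (m p.2 * K (p.1 - p.2))) (volume.prod volume) := by
    refine Integrable.mono' (h1.norm.const_mul D) ?_ ?_
    · exact (hg.comp measurable_fst).aestronglyMeasurable.mul h1.aestronglyMeasurable
    · refine Filter.Eventually.of_forall fun p => ?_
      rw [norm_mul]
      exact mul_le_mul_of_nonneg_right (hgD p.1) (norm_nonneg _)
  refine h2.congr (Filter.Eventually.of_forall fun p => ?_)
  show g p.1 * (m p.2 * K (p.1 - p.2)) = g p.1 * m p.2 * K (p.1 - p.2)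
  ring

theorem TH_grid_bil (κ : ℝ) (hκ : 0 < κ) (g f M M' : E3 → ℝ) (hg : Measurable g)
    (hf : Measurable f) (hM : Measurable M) (hM' : Measurable M') (hMi : Integrable M)
    (hMi' : Integrable M') (C δ : ℝ) (hfC : ∀ x, |f x| ≤ C) (hδ : ∀ x, |g x - f x| ≤ δ) :
    |(∫ x, ∫ y, g x * M' y * Yk κ (x - y)) - ∫ x, ∫ y, f x * M y * Yk κ (x - y)| ≤
      δ * (∫ x, |M' x|) + C * ∫ x, |M' x - M x| := by
  obtain ⟨hN, hpos, h1, -⟩ := yuk_basic κ hκ
  have hK := hN.2.1
  have hgD : ∀ x, |g x| ≤ C + δ := fun x => by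
    have e : g x = f x + (g x - f x) := by ring
    rw [e]
    exact (abs_add_le _ _).trans (add_le_add (hfC x) (hδ x))
  have i1 := TH_grid_bil_int (Yk κ) M' g (C + δ) hg hgD hK h1 hMi'
  have i2 := TH_grid_bil_int (Yk κ) M f C hf hfC hK h1 hMi
  have c1 := TH_grid_bil_conv (Yk κ) (fun x => |M' x|) hK h1 hMi'.abs
  have c2 := TH_grid_bil_conv (Yk κ) (fun x => |M' x - M x|) hK h1 (hMi'.sub hMi).abs
  have e1 : (∫ x, ∫ y, g x * M' y * Yk κ (x - y)) =
      ∫ p : E3 × E3, g p.1 * M' p.2 * Yk κ (p.1 - p.2) ∂(volume.prod volume) :=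
    (integral_prod _ i1).symm
  have e2 : (∫ x, ∫ y, f x * M y * Yk κ (x - y)) =
      ∫ p : E3 × E3, f p.1 * M p.2 * Yk κ (p.1 - p.2) ∂(volume.prod volume) :=
    (integral_prod _ i2).symm
  rw [e1, e2, ← integral_sub i1 i2]
  have hb : Integrable (fun p : E3 × E3 => δ * (|M' p.2| * Yk κ (p.1 - p.2)) +
      C * (|M' p.2 - M p.2| * Yk κ (p.1 - p.2))) (volume.prod volume) :=
    (c1.1.const_mul δ).add (c2.1.const_mul C)
  have hle : |∫ p : E3 × E3, (g p.1 * M' p.2 * Yk κ (p.1 - p.2) -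
      f p.1 * M p.2 * Yk κ (p.1 - p.2)) ∂(volume.prod volume)| ≤
      ∫ p : E3 × E3, (δ * (|M' p.2| * Yk κ (p.1 - p.2)) +
      C * (|M' p.2 - M p.2| * Yk κ (p.1 - p.2))) ∂(volume.prod volume) := by
    rw [← Real.norm_eq_abs]
    refine norm_integral_le_of_norm_le hb (Filter.Eventually.of_forall fun p => ?_)
    rw [Real.norm_eq_abs]
    have hy := hpos (p.1 - p.2)
    have e : g p.1 * M' p.2 * Yk κ (p.1 - p.2) - f p.1 * M p.2 * Yk κ (p.1 - p.2) =
        (g p.1 - f p.1) * (M' p.2 * Yk κ (p.1 - p.2)) +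
          f p.1 * ((M' p.2 - M p.2) * Yk κ (p.1 - p.2)) := by ring
    rw [e]
    refine (abs_add_le _ _).trans (add_le_add ?_ ?_)
    · rw [abs_mul, abs_mul, abs_of_nonneg hy]
      exact mul_le_mul_of_nonneg_right (hδ p.1) (mul_nonneg (abs_nonneg _) hy)
    · rw [abs_mul, abs_mul, abs_of_nonneg hy]
      exact mul_le_mul_of_nonneg_right (hfC p.1) (mul_nonneg (abs_nonneg _) hy)
  refine hle.trans (le_of_eq ?_)
  rw [integral_add (c1.1.const_mul δ) (c2.1.const_mul C), integral_const_mul, integral_const_mul,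
    c1.2, c2.2]

end TH_grid_ns_bil
open TH_grid_ns_bil


namespace TH_grid_ns_cc

theorem TH_grid_cc_meas (r : ℝ) (R : E3) : Measurable (cc r R) ∧ Integrable (cc r R) := by
  have hcl : IsClosed {x : E3 | ∀ b, |x b - R b| ≤ r / 2} := by
    rw [Set.setOf_forall]
    refine isClosed_iInter (fun b => isClosed_le ?_ continuous_const)
    fun_prop
  have hsub : {x : E3 | ∀ b, |x b - R b| ≤ r / 2} ⊆ closedBall R (Real.sqrt (3 * (r/2)^2)) := by
    intro x hx
    rw [mem_closedBall, dist_eq_norm, EuclideanSpace.norm_eq]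
    apply Real.sqrt_le_sqrt
    have h1 : ∀ b : Fin 3, ‖(x - R) b‖ ^ 2 ≤ (r/2)^2 := by
      intro b
      have : ‖(x - R) b‖ ≤ r / 2 := hx b
      exact pow_le_pow_left₀ (norm_nonneg _) this 2
    calc ∑ b : Fin 3, ‖(x - R) b‖ ^ 2 ≤ ∑ b : Fin 3, (r/2)^2 := Finset.sum_le_sum (fun b _ => h1 b)
      _ = 3 * (r/2)^2 := by simp
  have hfin : volume {x : E3 | ∀ b, |x b - R b| ≤ r / 2} ≠ ⊤ :=
    ((measure_mono hsub).trans_lt measure_closedBall_lt_top).ne
  constructor
  · unfold cc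
    exact measurable_const.indicator hcl.measurableSet
  · unfold cc
    show Integrable (Set.indicator {x : E3 | ∀ b, |x b - R b| ≤ r / 2} (fun _ => 1 / r ^ 3))
    rw [integrable_indicator_iff hcl.measurableSet]
    exact integrableOn_const hfin

theorem cc_mem (r : ℝ) (R x : E3) (h : ∀ b, |x b - R b| ≤ r / 2) : cc r R x = 1 / r ^ 3 := by
  unfold cc
  rw [Set.indicator_of_mem]
  exact h

theorem cc_not (r : ℝ) (R x : E3) (h : ¬ ∀ b, |x b - R b| ≤ r / 2) : cc r R x = 0 := by
  unfold cc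
  rw [Set.indicator_of_notMem]
  exact h

theorem cc_hyper (b : Fin 3) (c : ℝ) : ∀ᵐ y : E3, y b ≠ c := by
  rw [ae_iff]
  have h1 : {y : E3 | ¬ y b ≠ c} = (WithLp.ofLp : E3 → (Fin 3 → ℝ)) ⁻¹' {f | f b = c} := by
    ext y
    simp
  rw [h1]
  have hmp := PiLp.volume_preserving_ofLp (Fin 3)
  have hms : MeasurableSet {f : Fin 3 → ℝ | f b = c} := measurableSet_eq_fun (measurable_pi_apply b) measurable_const
  rw [hmp.measure_preimage hms.nullMeasurableSet]
  rw [volume_pi]
  exact Measure.pi_hyperplane (μ := fun _ : Fin 3 => (volume : Measure ℝ)) b c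

theorem TH_grid_cc (r : ℝ) (hr : 0 < r) (δ : ℝ) (hδ : 0 < δ) :
    ∃ t : ℝ, 0 < t ∧ ∀ R R' : E3, ‖R' - R‖ ≤ t → ∫ x, |cc r R' x - cc r R x| ≤ δ := by
  have hlim : Tendsto (fun v : E3 => ∫ y, |cc r v y - cc r 0 y|) (𝓝 0) (𝓝 (∫ _y : E3, (0:ℝ))) := by
    refine tendsto_integral_filter_of_dominated_convergence
      (fun y => ((r + 2) ^ 3 * (2 / r ^ 3)) * cc (r + 2) 0 y) ?_ ?_ ?_ ?_
    · refine Eventually.of_forall fun v => ?_
      have h1 : Measurable (fun y => |cc r v y - cc r 0 y|) := by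
        have := ((TH_grid_cc_meas r v).1.sub (TH_grid_cc_meas r 0).1)
        exact continuous_abs.measurable.comp this
      exact h1.aestronglyMeasurable
    · filter_upwards [Metric.ball_mem_nhds (0:E3) one_pos] with v hv
      refine Eventually.of_forall fun y => ?_
      rw [mem_ball_zero_iff] at hv
      rw [Real.norm_eq_abs, abs_abs]
      have hvb : ∀ b, |v b| ≤ 1 := fun b => by
        have := PiLp.norm_apply_le v b
        rw [Real.norm_eq_abs] at this
        linarith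
      have hr3 : 0 < r ^ 3 := by positivity
      have hr3' : 0 < 1 / r ^ 3 := by positivity
      by_cases hbig : ∀ b, |y b - (0 : E3) b| ≤ (r + 2) / 2
      · rw [cc_mem (r + 2) 0 y hbig]
        have e : (r + 2) ^ 3 * (2 / r ^ 3) * (1 / (r + 2) ^ 3) = 2 * (1 / r ^ 3) := by
          have : (r + 2) ^ 3 ≠ 0 := by positivity
          field_simp
        rw [e]
        have c1 : ∀ w : E3, 0 ≤ cc r w y ∧ cc r w y ≤ 1 / r ^ 3 := by
          intro w
          by_cases h : ∀ b, |y b - w b| ≤ r / 2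
          · rw [cc_mem r w y h]; exact ⟨hr3'.le, le_rfl⟩
          · rw [cc_not r w y h]; exact ⟨le_rfl, hr3'.le⟩
        have a1 := c1 v
        have a2 := c1 0
        rw [abs_le]
        constructor <;> linarith
      · have n1 : ¬ ∀ b, |y b - v b| ≤ r / 2 := by
          intro h
          apply hbig
          intro b
          have h1 := h b
          have h2 := hvb b
          have h3 : (0 : E3) b = 0 := rfl
          rw [h3, sub_zero]
          have : |y b| ≤ |y b - v b| + |v b| := by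
            have := abs_add_le (y b - v b) (v b)
            rwa [sub_add_cancel] at this
          linarith
        have n2 : ¬ ∀ b, |y b - (0 : E3) b| ≤ r / 2 := by
          intro h
          apply hbig
          intro b
          have h1 := h b
          linarith
        rw [cc_not r v y n1, cc_not r 0 y n2, cc_not (r + 2) 0 y hbig]
        simp
    · exact (TH_grid_cc_meas (r + 2) 0).2.const_mul _
    · have hae : ∀ᵐ y : E3, ∀ b, y b ≠ r / 2 ∧ y b ≠ -(r / 2) := by
        rw [ae_all_iff]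
        intro b
        filter_upwards [cc_hyper b (r / 2), cc_hyper b (-(r / 2))] with y h1 h2
        exact ⟨h1, h2⟩
      filter_upwards [hae] with y hy
      have hcont : ∀ b, Tendsto (fun v : E3 => |y b - v b|) (𝓝 0) (𝓝 |y b|) := by
        intro b
        have : Continuous (fun v : E3 => |y b - v b|) := by fun_prop
        have h2 := this.tendsto (0 : E3)
        have h3 : |y b - (0 : E3) b| = |y b| := by
          have : (0 : E3) b = 0 := rfl
          rw [this, sub_zero]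
        rw [h3] at h2
        exact h2
      have hev : ∀ᶠ v : E3 in 𝓝 0, |cc r v y - cc r 0 y| = 0 := by
        by_cases hin : ∀ b, |y b| < r / 2
        · have h1 : ∀ᶠ v : E3 in 𝓝 0, ∀ b, |y b - v b| < r / 2 := by
            rw [eventually_all]
            intro b
            exact (hcont b).eventually_lt_const (hin b)
          filter_upwards [h1] with v hv
          have h0 : ∀ b, |y b - (0 : E3) b| ≤ r / 2 := by
            intro b
            have : (0 : E3) b = 0 := rfl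
            rw [this, sub_zero]
            exact (hin b).le
          rw [cc_mem r v y (fun b => (hv b).le), cc_mem r 0 y h0]
          simp
        · push Not at hin
          obtain ⟨b, hb⟩ := hin
          have hb' : r / 2 < |y b| := by
            apply lt_of_le_of_ne hb
            intro he
            rcases abs_choice (y b) with h | h
            · exact (hy b).1 (by rw [he, h])
            · exact (hy b).2 (by rw [he, h, neg_neg])
          have h1 : ∀ᶠ v : E3 in 𝓝 0, r / 2 < |y b - v b| := (hcont b).eventually_const_lt hb'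
          filter_upwards [h1] with v hv
          have n1 : ¬ ∀ b, |y b - v b| ≤ r / 2 := fun h => absurd (h b) (not_le.2 hv)
          have n2 : ¬ ∀ b, |y b - (0 : E3) b| ≤ r / 2 := fun h => by
            have h3 := h b
            have : (0 : E3) b = 0 := rfl
            rw [this, sub_zero] at h3
            linarith
          rw [cc_not r v y n1, cc_not r 0 y n2]
          simp
      exact Tendsto.congr' (hev.mono fun v hv => hv.symm) tendsto_const_nhds
  rw [integral_zero] at hlim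
  have hev := hlim.eventually_lt_const hδ
  obtain ⟨ε, hε, hball⟩ := Metric.eventually_nhds_iff.1 hev
  refine ⟨ε / 2, by positivity, fun R R' hRR => ?_⟩
  have h1 : ∫ x, |cc r R' x - cc r R x| = ∫ y, |cc r (R' - R) y - cc r 0 y| := by
    rw [← integral_add_right_eq_self (fun x => |cc r R' x - cc r R x|) R]
    congr 1
    funext y
    have e1 : cc r R' (y + R) = cc r (R' - R) y := by
      have hiff : (∀ b, |(y + R) b - R' b| ≤ r / 2) ↔ ∀ b, |y b - (R' - R) b| ≤ r / 2 := by
        refine forall_congr' fun b => ?_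
        have : (y + R) b - R' b = y b - (R' - R) b := by
          simp only [PiLp.add_apply, PiLp.sub_apply]; ring
        rw [this]
      by_cases h : ∀ b, |(y + R) b - R' b| ≤ r / 2
      · rw [cc_mem _ _ _ h, cc_mem _ _ _ (hiff.1 h)]
      · rw [cc_not _ _ _ h, cc_not _ _ _ (fun h' => h (hiff.2 h'))]
    have e2 : cc r R (y + R) = cc r 0 y := by
      have hiff : (∀ b, |(y + R) b - R b| ≤ r / 2) ↔ ∀ b, |y b - (0 : E3) b| ≤ r / 2 := by
        refine forall_congr' fun b => ?_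
        have : (y + R) b - R b = y b - (0 : E3) b := by
          have h0 : (0 : E3) b = 0 := rfl
          rw [h0]
          simp only [PiLp.add_apply]; ring
        rw [this]
      by_cases h : ∀ b, |(y + R) b - R b| ≤ r / 2
      · rw [cc_mem _ _ _ h, cc_mem _ _ _ (hiff.1 h)]
      · rw [cc_not _ _ _ h, cc_not _ _ _ (fun h' => h (hiff.2 h'))]
    rw [e1, e2]
  rw [h1]
  apply le_of_lt
  apply hball
  rw [dist_zero_right]
  linarith

end TH_grid_ns_cc
open TH_grid_ns_cc


namespace TH_grid_ns_cube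

theorem TH_grid_null (b : Fin 3) (c : ℝ) : ∀ᵐ x : E3, x b ≠ c := by
  rw [ae_iff]
  have e : {x : E3 | ¬ x b ≠ c} = (WithLp.ofLp : E3 → (Fin 3 → ℝ)) ⁻¹' {f : Fin 3 → ℝ | f b = c} := by
    ext x
    simp
  rw [e]
  have hp := PiLp.volume_preserving_ofLp (Fin 3)
  have hm : MeasurableSet {f : Fin 3 → ℝ | f b = c} :=
    measurableSet_eq_fun (measurable_pi_apply b) measurable_const
  rw [hp.measure_preimage hm.nullMeasurableSet, MeasureTheory.volume_pi]
  exact Measure.pi_hyperplane (μ := fun _ : Fin 3 => (volume : Measure ℝ)) b c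

theorem TH_grid_cube (r : ℝ) (hr : 0 < r) (h : ℕ) (y : Fin 3 → ℤ) :
    Measurable (cube (r / (2 * (h : ℝ) + 1)) h y) ∧
    cube (r / (2 * (h : ℝ) + 1)) h y =ᵐ[volume] cc r (ctr (r / (2 * (h : ℝ) + 1)) y) := by
  have hh : (0 : ℝ) < 2 * (h : ℝ) + 1 := by positivity
  obtain ⟨η, hη⟩ : ∃ η : ℝ, η = r / (2 * (h : ℝ) + 1) := ⟨_, rfl⟩
  have hη0 : 0 < η := by rw [hη]; positivity
  have hr' : (2 * (h : ℝ) + 1) * η = r := by rw [hη]; field_simp
  rw [← hη]
  constructor
  · unfold cube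
    refine Measurable.indicator measurable_const ?_
    have e : {x : E3 | ∀ b, |cellOf η x b - y b| ≤ (h : ℤ)} =
        ⋂ b, (fun x : E3 => ⌊x b / η⌋) ⁻¹' {k : ℤ | |k - y b| ≤ (h : ℤ)} := by
      ext x
      simp [cellOf]
    rw [e]
    refine MeasurableSet.iInter fun b => ?_
    have hm : Measurable (fun x : E3 => ⌊x b / η⌋) := by
      have h1 : Measurable (fun x : E3 => x b / η) := by fun_prop
      exact h1.floor
    exact hm (MeasurableSet.of_discrete)
  · have hae : ∀ᵐ x : E3, ∀ b : Fin 3, x b ≠ ((y b : ℝ) + h + 1) * η :=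
      ae_all_iff.2 fun b => TH_grid_null b _
    filter_upwards [hae] with x hx
    unfold cube cc
    have hiff : (∀ b, |cellOf η x b - y b| ≤ (h : ℤ)) ↔ (∀ b, |x b - ctr η y b| ≤ r / 2) := by
      refine forall_congr' fun b => ?_
      have hc : ctr η y b = ((y b : ℝ) + 1 / 2) * η := rfl
      have hcell : cellOf η x b = ⌊x b / η⌋ := rfl
      rw [hc, hcell, abs_le, abs_le]
      constructor
      · rintro ⟨h1, h2⟩
        have h3 : y b - (h : ℤ) ≤ ⌊x b / η⌋ := by omega
        have h4 : ⌊x b / η⌋ < y b + h + 1 := by omega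
        rw [Int.le_floor] at h3
        rw [Int.floor_lt] at h4
        push_cast at h3 h4
        rw [le_div_iff₀ hη0] at h3
        rw [div_lt_iff₀ hη0] at h4
        constructor <;> nlinarith
      · rintro ⟨h1, h2⟩
        have h3 : ((y b - (h : ℤ) : ℤ) : ℝ) ≤ x b / η := by
          push_cast
          rw [le_div_iff₀ hη0]
          nlinarith
        have h4 : x b / η < ((y b + h + 1 : ℤ) : ℝ) := by
          push_cast
          rw [div_lt_iff₀ hη0]
          exact lt_of_le_of_ne (by nlinarith) (hx b)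
        rw [← Int.le_floor] at h3
        rw [← Int.floor_lt] at h4
        constructor <;> omega
    by_cases hA : ∀ b, |cellOf η x b - y b| ≤ (h : ℤ)
    · rw [Set.indicator_of_mem (by exact hA), Set.indicator_of_mem (by exact hiff.1 hA), hr']
    · rw [Set.indicator_of_notMem (by exact hA),
        Set.indicator_of_notMem (by exact fun h' => hA (hiff.2 h'))]

end TH_grid_ns_cube
open TH_grid_ns_cube


namespace TH_grid_ns_phi

theorem TH_grid_phi (φ : ℝ → ℝ) (hφ : Continuous φ) (hφ0 : φ 0 = 0) (f : E3 → ℝ)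
    (hf : Continuous f) (r1 : ℝ) (hfr : ∀ x, r1 < ‖x‖ → f x = 0) (ε : ℝ) (hε : 0 < ε) :
    ∃ δ : ℝ, 0 < δ ∧ ∀ g : E3 → ℝ, Measurable g → (∀ x, |g x - f x| ≤ δ) →
      (∀ x, r1 + 1 < ‖x‖ → g x = 0) → |(∫ x, φ (g x)) - ∫ x, φ (f x)| ≤ ε := by
  have hBc : IsCompact (closedBall (0:E3) (r1 + 1)) := isCompact_closedBall _ _
  obtain ⟨C0, hC0⟩ := hBc.exists_bound_of_continuousOn hf.continuousOn
  obtain ⟨C, hCdef⟩ : ∃ C, C = max C0 0 := ⟨_, rfl⟩
  have hCnn : 0 ≤ C := by rw [hCdef]; exact le_max_right _ _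
  have hC : ∀ x, |f x| ≤ C := by
    intro x
    by_cases hx : x ∈ closedBall (0:E3) (r1 + 1)
    · rw [hCdef]
      exact (hC0 x hx).trans (le_max_left _ _)
    · rw [mem_closedBall, dist_zero_right, not_le] at hx
      rw [hfr x (by linarith), abs_zero]
      exact hCnn
  have hK : IsCompact (Icc (-C - 1) (C + 1)) := isCompact_Icc
  have hu := hK.uniformContinuousOn_of_continuous hφ.continuousOn
  rw [Metric.uniformContinuousOn_iff] at hu
  obtain ⟨M, hM⟩ := hK.exists_bound_of_continuousOn hφ.continuousOn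
  have hBfin : volume (closedBall (0:E3) (r1 + 1)) < ⊤ := hBc.measure_lt_top
  obtain ⟨V, hV⟩ : ∃ V, V = volume.real (closedBall (0:E3) (r1 + 1)) := ⟨_, rfl⟩
  have hVnn : 0 ≤ V := by rw [hV]; exact measureReal_nonneg
  have hε' : 0 < ε / (V + 1) := by positivity
  obtain ⟨δ0, hδ0, h0⟩ := hu (ε / (V + 1)) hε'
  refine ⟨min 1 (δ0 / 2), lt_min one_pos (by positivity), fun g hg hgf hgr => ?_⟩
  have hfK : ∀ x, f x ∈ Icc (-C - 1) (C + 1) := by
    intro x
    have h := abs_le.mp (hC x)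
    constructor <;> linarith [h.1, h.2]
  have hgK : ∀ x, g x ∈ Icc (-C - 1) (C + 1) := by
    intro x
    have h := abs_le.mp (hC x)
    have h2 := abs_le.mp ((hgf x).trans (min_le_left _ _))
    constructor <;> linarith [h.1, h.2, h2.1, h2.2]
  have hclose : ∀ x, |φ (g x) - φ (f x)| ≤ ε / (V + 1) := by
    intro x
    have h1 : dist (g x) (f x) < δ0 := by
      rw [Real.dist_eq]
      have := (hgf x).trans (min_le_right _ _)
      linarith
    have h2 := h0 (g x) (hgK x) (f x) (hfK x) h1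
    rw [Real.dist_eq] at h2
    exact h2.le
  have hout : ∀ h : E3 → ℝ, (∀ x, r1 + 1 < ‖x‖ → h x = 0) →
      ∀ x, x ∉ closedBall (0:E3) (r1 + 1) → φ (h x) = 0 := by
    intro h hh x hx
    rw [mem_closedBall, dist_zero_right, not_le] at hx
    rw [hh x hx, hφ0]
  have hint : ∀ h : E3 → ℝ, Measurable h → (∀ x, h x ∈ Icc (-C - 1) (C + 1)) →
      (∀ x, r1 + 1 < ‖x‖ → h x = 0) → Integrable (fun x => φ (h x)) := by
    intro h hm hhK hh
    have hsupp : Function.support (fun x => φ (h x)) ⊆ closedBall (0:E3) (r1 + 1) := by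
      intro x hx
      by_contra hc
      exact hx (hout h hh x hc)
    rw [← integrableOn_iff_integrable_of_support_subset hsupp]
    refine Measure.integrableOn_of_bounded (M := M) hBfin.ne
      (hφ.measurable.comp hm).aestronglyMeasurable ?_
    exact Filter.Eventually.of_forall (fun x => hM (h x) (hhK x))
  have hIg := hint g hg hgK hgr
  have hIf := hint f hf.measurable hfK (fun x hx => hfr x (by linarith))
  rw [← integral_sub hIg hIf]
  have hz : ∀ x, x ∉ closedBall (0:E3) (r1 + 1) → φ (g x) - φ (f x) = 0 := by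
    intro x hx
    rw [hout g hgr x hx, hout f (fun x hx => hfr x (by linarith)) x hx, sub_zero]
  rw [← setIntegral_eq_integral_of_forall_compl_eq_zero hz, ← Real.norm_eq_abs]
  have hb := norm_setIntegral_le_of_norm_le_const (μ := volume)
    (f := fun x => φ (g x) - φ (f x)) (C := ε / (V + 1)) hBfin
    (fun x _ => by rw [Real.norm_eq_abs]; exact hclose x)
  rw [← hV] at hb
  refine hb.trans ?_
  rw [div_mul_eq_mul_div, div_le_iff₀ (by positivity)]
  nlinarith

end TH_grid_ns_phi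
open TH_grid_ns_phi

theorem TH_grid_ccM {k : ℕ} (z : Fin k → ℝ) (r : ℝ) (R : Fin k → E3) :
    Measurable (Mc z r R) ∧ Integrable (Mc z r R) := by
  constructor
  · unfold Mc
    exact Finset.measurable_sum _ (fun j _ => (TH_grid_cc_meas r (R j)).1.const_mul _)
  · unfold Mc
    exact integrable_finset_sum _ (fun j _ => (TH_grid_cc_meas r (R j)).2.const_mul _)

theorem TH_grid_cubeM {k : ℕ} (z : Fin k → ℝ) (r : ℝ) (hr : 0 < r) (h : ℕ) (y : Fin k → Fin 3 → ℤ) :
    Measurable (Mcube z (r / (2 * (h : ℝ) + 1)) h y) ∧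
    Integrable (Mcube z (r / (2 * (h : ℝ) + 1)) h y) := by
  constructor
  · unfold Mcube
    exact Finset.measurable_sum _ (fun j _ => (TH_grid_cube r hr h (y j)).1.const_mul _)
  · unfold Mcube
    exact integrable_finset_sum _ (fun j _ => Integrable.const_mul
      ((integrable_congr (TH_grid_cube r hr h (y j)).2).2 (TH_grid_cc_meas r _).2) _)

theorem TH_grid_eta (r t : ℝ) (hr : 0 < r) (ht : 0 < t) : ∃ h0 : ℕ, ∀ h : ℕ, h0 ≤ h →
    4 * (r / (2 * (h : ℝ) + 1)) ≤ t := by
  obtain ⟨h0, hh0⟩ := exists_nat_ge (4 * r / t)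
  refine ⟨h0, fun h hh => ?_⟩
  have h1 : (h0 : ℝ) ≤ h := by exact_mod_cast hh
  have h2 : 4 * r / t ≤ 2 * (h:ℝ) + 1 := by
    have : (0:ℝ) ≤ h := by positivity
    linarith
  rw [div_le_iff₀ ht] at h2
  have h3 : (0:ℝ) < 2 * (h:ℝ) + 1 := by positivity
  rw [← mul_div_assoc, div_le_iff₀ h3]
  linarith

theorem TH_grid_M {k : ℕ} (z : Fin k → ℝ) (hz : ∀ j, 0 ≤ z j) (R : Fin k → E3) (r : ℝ) (hr : 0 < r)
    (δ : ℝ) (hδ : 0 < δ) : ∃ h0 : ℕ, ∀ h : ℕ, h0 ≤ h → ∀ y : Fin k → Fin 3 → ℤ,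
        (∀ j, ‖ctr (r / (2 * (h : ℝ) + 1)) (y j) - R j‖ ≤ 4 * (r / (2 * (h : ℝ) + 1))) →
        ∫ x, |Mcube z (r / (2 * (h : ℝ) + 1)) h y x - Mc z r R x| ≤ δ := by
  set Z := ∑ j, z j with hZ
  have hZ0 : 0 ≤ Z := Finset.sum_nonneg (fun j _ => hz j)
  obtain ⟨t, ht, hcc⟩ := TH_grid_cc r hr (δ / (Z + 1)) (by positivity)
  obtain ⟨h0, hh0⟩ := TH_grid_eta r t hr ht
  refine ⟨h0, fun h hh y hy => ?_⟩
  set η := r / (2 * (h : ℝ) + 1) with hη
  have hint : ∀ j, Integrable (fun x => |cube η h (y j) x - cc r (R j) x|) := fun j =>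
    (((integrable_congr (TH_grid_cube r hr h (y j)).2).2 (TH_grid_cc_meas r _).2).sub
      (TH_grid_cc_meas r (R j)).2).abs
  have h1 : ∀ j, ∫ x, |cube η h (y j) x - cc r (R j) x| ≤ δ / (Z + 1) := by
    intro j
    have e : ∫ x, |cube η h (y j) x - cc r (R j) x| =
        ∫ x, |cc r (ctr η (y j)) x - cc r (R j) x| := by
      apply integral_congr_ae
      filter_upwards [(TH_grid_cube r hr h (y j)).2] with x hx
      rw [hx]
    rw [e]
    exact hcc _ _ ((hy j).trans (hh0 h hh))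
  calc ∫ x, |Mcube z η h y x - Mc z r R x|
      ≤ ∫ x, ∑ j, z j * |cube η h (y j) x - cc r (R j) x| := by
        apply integral_mono_of_nonneg
        · exact Filter.Eventually.of_forall (fun x => abs_nonneg _)
        · exact integrable_finset_sum _ (fun j _ => (hint j).const_mul _)
        · apply Filter.Eventually.of_forall
          intro x
          show |Mcube z η h y x - Mc z r R x| ≤ ∑ j, z j * |cube η h (y j) x - cc r (R j) x|
          unfold Mcube Mc
          rw [← Finset.sum_sub_distrib]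
          refine (Finset.abs_sum_le_sum_abs _ _).trans (Finset.sum_le_sum (fun j _ => ?_))
          rw [← mul_sub, abs_mul, abs_of_nonneg (hz j)]
    _ = ∑ j, z j * ∫ x, |cube η h (y j) x - cc r (R j) x| := by
        rw [integral_finset_sum _ (fun j _ => (hint j).const_mul _)]
        apply Finset.sum_congr rfl
        intro j _
        rw [integral_const_mul]
    _ ≤ ∑ j, z j * (δ / (Z + 1)) :=
        Finset.sum_le_sum (fun j _ => mul_le_mul_of_nonneg_left (h1 j) (hz j))
    _ = Z * (δ / (Z + 1)) := by rw [← Finset.sum_mul]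
    _ ≤ δ := by
        rw [← mul_div_assoc, div_le_iff₀ (by linarith)]
        nlinarith

theorem grid (κ μ lam : ℝ) (hκ : 0 < κ) (hμ : 0 ≤ μ) (f : E3 → ℝ) (hf : Continuous f)
    (hf0 : ∀ x, 0 ≤ f x) (r1 : ℝ) (hfr : ∀ x, r1 < ‖x‖ → f x = 0)
    {k : ℕ} (z : Fin k → ℝ) (hz : ∀ j, 0 ≤ z j) (R : Fin k → E3) (r : ℝ) (hr : 0 < r)
    (ε : ℝ) (hε : 0 < ε) :
    ∃ h0 : ℕ, ∀ h : ℕ, h0 ≤ h → ∃ u : (Fin 3 → ℤ) →₀ ℝ, (∀ x, 0 ≤ u x) ∧
      ∀ y : Fin k → Fin 3 → ℤ,
        (∀ j, ‖ctr (r / (2 * (h : ℝ) + 1)) (y j) - R j‖ ≤ 4 * (r / (2 * (h : ℝ) + 1))) →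
        Gd κ μ lam (Mc z r R) f - ε
          ≤ Gd κ μ lam (Mcube z (r / (2 * (h : ℝ) + 1)) h y) (stepf (r / (2 * (h : ℝ) + 1)) u) := by
  -- bound of f
  have hcs : HasCompactSupport f := HasCompactSupport.intro (isCompact_closedBall (0:E3) r1)
    (fun x hx => hfr x (by
      rw [mem_closedBall, dist_zero_right, not_le] at hx
      exact hx))
  obtain ⟨C0, hC0⟩ := hcs.exists_bound_of_continuous hf
  have hfC : ∀ x, |f x| ≤ max C0 0 := fun x => (hC0 x).trans (le_max_left _ _)
  set C := max C0 0 with hC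
  have hCn : 0 ≤ C := le_max_right _ _
  have hfi : Integrable f := hf.integrable_of_hasCompactSupport hcs
  set V := volume.real (closedBall (0:E3) (r1+1)) with hV
  have hV0 : 0 ≤ V := measureReal_nonneg
  set c2 := κ ^ 2 / (8 * Real.pi) with hc2
  have hc20 : 0 ≤ c2 := by positivity
  set IM := ∫ x, |Mc z r R x| with hIM
  have hIM0 : 0 ≤ IM := integral_nonneg (fun x => abs_nonneg _)
  set If := ∫ x, |f x| with hIf
  have hIf0 : 0 ≤ If := integral_nonneg (fun x => abs_nonneg _)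
  obtain ⟨e, he, hee⟩ : ∃ e : ℝ, 0 < e ∧ 2/5 * e + 2 * e + c2 * (e + 2 * e) ≤ ε := by
    refine ⟨ε / (12/5 + 3 * c2), by positivity, le_of_eq ?_⟩
    field_simp
    ring
  obtain ⟨δ1, hδ1, hφ1⟩ := TH_grid_phi (fun t => (max (t - μ) 0) ^ (5/2 : ℝ))
    (Continuous.rpow_const (by fun_prop) (fun x => Or.inr (by norm_num)))
    (by
      show (max (0 - μ) 0) ^ (5/2 : ℝ) = 0
      rw [max_eq_right (by linarith)]
      exact Real.zero_rpow (by norm_num)) f hf r1 hfr e he
  obtain ⟨δ2, hδ2, hφ2⟩ := TH_grid_phi (fun t => t ^ 2) (by fun_prop) (by norm_num) f hf r1 hfr e he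
  obtain ⟨δ, hδ, d1, d2, d3, d4⟩ : ∃ δ : ℝ, 0 < δ ∧ δ ≤ δ1 ∧ δ ≤ δ2 ∧ δ ≤ 1 ∧
      δ * (IM + If + V + C * V + 2) ≤ e := by
    have hpos : 0 < IM + If + V + C * V + 2 := by positivity
    refine ⟨min (min δ1 δ2) (min 1 (e / (IM + If + V + C * V + 2))),
      lt_min (lt_min hδ1 hδ2) (lt_min one_pos (by positivity)),
      (min_le_left _ _).trans (min_le_left _ _), (min_le_left _ _).trans (min_le_right _ _),
      (min_le_right _ _).trans (min_le_left _ _), ?_⟩
    calc _ ≤ (e / (IM + If + V + C * V + 2)) * (IM + If + V + C * V + 2) := by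
          apply mul_le_mul_of_nonneg_right _ hpos.le
          exact (min_le_right _ _).trans (min_le_right _ _)
      _ = e := div_mul_cancel₀ _ hpos.ne'
  obtain ⟨δM, hδM, m1, m2⟩ : ∃ δM : ℝ, 0 < δM ∧ δM ≤ 1 ∧ C * δM ≤ e := by
    refine ⟨min 1 (e / (C + 1)), lt_min one_pos (by positivity), min_le_left _ _, ?_⟩
    calc C * min 1 (e / (C + 1)) ≤ (C + 1) * (e / (C + 1)) := by
          apply mul_le_mul (by linarith) (min_le_right _ _) (by positivity) (by positivity)
      _ = e := by field_simp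
  obtain ⟨hA, hstep⟩ := TH_grid_step f hf hf0 r1 hfr r hr δ hδ
  obtain ⟨hB, hMM⟩ := TH_grid_M z hz R r hr δM hδM
  refine ⟨max hA hB, fun h hh => ?_⟩
  obtain ⟨u, hu0, hum, hud, huz⟩ := hstep h ((le_max_left _ _).trans hh)
  refine ⟨u, hu0, fun y hy => ?_⟩
  have hMd := hMM h ((le_max_right _ _).trans hh) y hy
  obtain ⟨hm1, hm2⟩ := TH_grid_ccM z r R
  obtain ⟨hm3, hm4⟩ := TH_grid_cubeM z r hr h y
  set η := r / (2 * (h : ℝ) + 1) with hη
  set g := stepf η u with hg
  set M' := Mcube z η h y with hM'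
  set M := Mc z r R with hM
  -- g - f
  have hVi : Integrable ((closedBall (0:E3) (r1+1)).indicator (fun _ => δ)) := by
    rw [integrable_indicator_iff measurableSet_closedBall]
    exact integrableOn_const (by exact measure_closedBall_lt_top.ne) 
  have hbd : ∀ x, |g x - f x| ≤ (closedBall (0:E3) (r1+1)).indicator (fun _ => δ) x := by
    intro x
    by_cases hx : x ∈ closedBall (0:E3) (r1+1)
    · rw [Set.indicator_of_mem hx]; exact hud x
    · rw [Set.indicator_of_notMem hx]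
      rw [mem_closedBall, dist_zero_right, not_le] at hx
      rw [huz x hx, hfr x (by linarith)]
      simp
  have hgfi : Integrable (fun x => g x - f x) :=
    hVi.mono' (hum.sub hf.measurable).aestronglyMeasurable (Filter.Eventually.of_forall hbd)
  have hgi : Integrable g := by
    have : g = fun x => (g x - f x) + f x := by funext x; ring
    rw [this]
    exact hgfi.add hfi
  have hgf1 : ∫ x, |g x - f x| ≤ δ * V := by
    calc ∫ x, |g x - f x| ≤ ∫ x, (closedBall (0:E3) (r1+1)).indicator (fun _ => δ) x :=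
          integral_mono hgfi.abs hVi hbd
      _ = δ * V := by
          rw [integral_indicator measurableSet_closedBall, setIntegral_const, smul_eq_mul, mul_comm]
  have hg1 : ∫ x, |g x| ≤ If + δ * V := by
    calc ∫ x, |g x| ≤ ∫ x, (|g x - f x| + |f x|) := by
          apply integral_mono hgi.abs (hgfi.abs.add hfi.abs)
          intro x
          show |g x| ≤ |g x - f x| + |f x|
          have := abs_add_le (g x - f x) (f x)
          rwa [sub_add_cancel] at this
      _ = (∫ x, |g x - f x|) + If := integral_add hgfi.abs hfi.abs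
      _ ≤ If + δ * V := by linarith
  have hM1 : ∫ x, |M' x| ≤ IM + δM := by
    calc ∫ x, |M' x| ≤ ∫ x, (|M' x - M x| + |M x|) := by
          apply integral_mono hm4.abs ((hm4.sub hm2).abs.add hm2.abs)
          intro x
          show |M' x| ≤ |M' x - M x| + |M x|
          have := abs_add_le (M' x - M x) (M x)
          rwa [sub_add_cancel] at this
      _ = (∫ x, |M' x - M x|) + IM := integral_add (hm4.sub hm2).abs hm2.abs
      _ ≤ IM + δM := by linarith
  have b1 := TH_grid_bil κ hκ g f M M' hum hf.measurable hm1 hm3 hm2 hm4 C δ hfC hud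
  have b2 := TH_grid_bil κ hκ g f f g hum hf.measurable hf.measurable hum hfi hgi C δ hfC hud
  have p1 := hφ1 g hum (fun x => (hud x).trans d1) huz
  have p2 := hφ2 g hum (fun x => (hud x).trans d2) huz
  have b1' : |(∫ x, ∫ y, g x * M' y * Yk κ (x - y)) - ∫ x, ∫ y, f x * M y * Yk κ (x - y)| ≤ 2 * e := by
    refine b1.trans ?_
    have q1 : δ * (∫ x, |M' x|) ≤ δ * (IM + δM) := mul_le_mul_of_nonneg_left hM1 hδ.le
    have q2 : C * (∫ x, |M' x - M x|) ≤ C * δM := mul_le_mul_of_nonneg_left hMd hCn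
    have q3 : δ * (IM + δM) ≤ δ * (IM + If + V + C * V + 2) := by
      apply mul_le_mul_of_nonneg_left _ hδ.le
      have : 0 ≤ C * V := by positivity
      linarith
    linarith
  have b2' : |(∫ x, ∫ y, g x * g y * Yk κ (x - y)) - ∫ x, ∫ y, f x * f y * Yk κ (x - y)| ≤ 2 * e := by
    refine b2.trans ?_
    have q1 : δ * (∫ x, |g x|) ≤ δ * (If + δ * V) := mul_le_mul_of_nonneg_left hg1 hδ.le
    have q2 : C * (∫ x, |g x - f x|) ≤ C * (δ * V) := mul_le_mul_of_nonneg_left hgf1 hCn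
    have q4 : δ * V ≤ V := by nlinarith
    have q3 : δ * (If + δ * V) + C * (δ * V) ≤ δ * (IM + If + V + C * V + 2) := by
      have : δ * (If + δ * V) + C * (δ * V) = δ * (If + δ * V + C * V) := by ring
      rw [this]
      apply mul_le_mul_of_nonneg_left _ hδ.le
      linarith
    linarith
  unfold Gd
  have a1 := abs_le.1 p1
  have a2 := abs_le.1 p2
  have a3 := abs_le.1 b1'
  have a4 := abs_le.1 b2'

  rw [← hc2]
  generalize (∫ x, (max (g x - μ) 0) ^ (5/2 : ℝ)) = P1 at *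
  generalize (∫ x, (max (f x - μ) 0) ^ (5/2 : ℝ)) = P2 at *
  generalize (∫ x, g x ^ 2) = S1 at *
  generalize (∫ x, f x ^ 2) = S2 at *
  generalize (∫ x, ∫ y, g x * M' y * Yk κ (x - y)) = B1 at *
  generalize (∫ x, ∫ y, f x * M y * Yk κ (x - y)) = B2 at *
  generalize (∫ x, ∫ y, g x * g y * Yk κ (x - y)) = D1 at *
  generalize (∫ x, ∫ y, f x * f y * Yk κ (x - y)) = D2 at *
  have k1 : c2 * (S1 - D1) - c2 * (S2 - D2) ≤ c2 * (e + 2 * e) := by
    rw [← mul_sub]
    apply mul_le_mul_of_nonneg_left _ hc20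
    linarith [a2.2, a4.1]
  linarith [a1.2, a3.1]

end TH_grid_sec
end


/-! ### cube_eq -/
section
theorem TH_cube_eq_null (b : Fin 3) (c : ℝ) : ∀ᵐ x : E3, x b ≠ c := by
  have h1 : ∀ᵐ y : Fin 3 → ℝ, y b ≠ c := by
    rw [volume_pi]
    exact Measure.ae_eval_ne (fun _ : Fin 3 => (volume : Measure ℝ)) b c
  have h2 := (PiLp.volume_preserving_ofLp (Fin 3)).quasiMeasurePreserving.ae h1
  exact h2

theorem TH_cube_eq_iff (r : ℝ) (hr : 0 < r) (h : ℕ) (y : ℤ) (x : ℝ)
    (hx : x ≠ ((y : ℝ) + h + 1) * (r / (2 * (h : ℝ) + 1))) :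
    |⌊x / (r / (2 * (h : ℝ) + 1))⌋ - y| ≤ (h : ℤ) ↔
      |x - ((y : ℝ) + 1/2) * (r / (2 * (h : ℝ) + 1))| ≤ r / 2 := by
  have hp : (0 : ℝ) < 2 * (h : ℝ) + 1 := by positivity
  obtain ⟨η, hη⟩ : ∃ η, η = r / (2 * (h : ℝ) + 1) := ⟨_, rfl⟩
  have hη0 : 0 < η := by rw [hη]; positivity
  have hr2 : r = (2 * (h : ℝ) + 1) * η := by rw [hη]; field_simp
  rw [← hη] at hx ⊢
  rw [hr2, abs_le, abs_le]
  constructor
  · rintro ⟨h1, h2⟩
    have h3 : y - (h : ℤ) ≤ ⌊x / η⌋ := by omega
    have h4 : ⌊x / η⌋ < y + (h : ℤ) + 1 := by omega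
    rw [Int.le_floor, le_div_iff₀ hη0] at h3
    rw [Int.floor_lt, div_lt_iff₀ hη0] at h4
    push_cast at h3 h4
    constructor
    · nlinarith
    · nlinarith
  · rintro ⟨h1, h2⟩
    have h3 : y - (h : ℤ) ≤ ⌊x / η⌋ := by
      rw [Int.le_floor, le_div_iff₀ hη0]
      push_cast
      nlinarith
    have h4 : ⌊x / η⌋ < y + (h : ℤ) + 1 := by
      rw [Int.floor_lt, div_lt_iff₀ hη0]
      push_cast
      refine lt_of_le_of_ne ?_ hx
      nlinarith
    constructor <;> omega

-- ===== TARGET =====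
theorem cube_eq {k : ℕ} (z : Fin k → ℝ) (r : ℝ) (hr : 0 < r) (h : ℕ) (y : Fin k → Fin 3 → ℤ) :
    Mcube z (r / (2 * (h : ℝ) + 1)) h y =ᵐ[volume]
      Mc z r (fun j => ctr (r / (2 * (h : ℝ) + 1)) (y j)) := by
  have hnull : ∀ᵐ x : E3, ∀ (j : Fin k) (b : Fin 3),
      x b ≠ ((y j b : ℝ) + h + 1) * (r / (2 * (h : ℝ) + 1)) :=
    ae_all_iff.2 fun j => ae_all_iff.2 fun b => TH_cube_eq_null b _
  filter_upwards [hnull] with x hx
  unfold Mcube Mc
  refine Finset.sum_congr rfl fun j _ => ?_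
  congr 1
  unfold cube cc
  have hp : (0 : ℝ) < 2 * (h : ℝ) + 1 := by positivity
  have hc : (2 * (h : ℝ) + 1) * (r / (2 * (h : ℝ) + 1)) = r := by field_simp
  rw [hc]
  have hiff : (∀ b, |cellOf (r / (2 * (h : ℝ) + 1)) x b - y j b| ≤ (h : ℤ)) ↔
      ∀ b, |x b - ctr (r / (2 * (h : ℝ) + 1)) (y j) b| ≤ r / 2 :=
    forall_congr' fun b => TH_cube_eq_iff r hr h (y j b) (x b) (hx j b)
  by_cases hm : ∀ b, |cellOf (r / (2 * (h : ℝ) + 1)) x b - y j b| ≤ (h : ℤ)
  · rw [Set.indicator_of_mem (show x ∈ {x : E3 | ∀ b, |cellOf (r / (2 * (h : ℝ) + 1)) x b - y j b| ≤ (h : ℤ)} from hm),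
      Set.indicator_of_mem (show x ∈ {x : E3 | ∀ b, |x b - ctr (r / (2 * (h : ℝ) + 1)) (y j) b| ≤ r / 2} from hiff.1 hm)]
  · rw [Set.indicator_of_notMem (show x ∉ {x : E3 | ∀ b, |cellOf (r / (2 * (h : ℝ) + 1)) x b - y j b| ≤ (h : ℤ)} from hm),
      Set.indicator_of_notMem (show x ∉ {x : E3 | ∀ b, |x b - ctr (r / (2 * (h : ℝ) + 1)) (y j) b| ≤ r / 2} from fun hh => hm (hiff.2 hh))]
end


/-! ### Mc_nice -/
section
-- ===== TARGET =====
theorem TH_Mc_nice_meas (r : ℝ) (c : E3) : MeasurableSet {x : E3 | ∀ b, |x b - c b| ≤ r / 2} := by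
  apply IsClosed.measurableSet
  have : {x : E3 | ∀ b, |x b - c b| ≤ r / 2} = ⋂ b, {x : E3 | |x b - c b| ≤ r / 2} := by
    ext x; simp
  rw [this]
  refine isClosed_iInter fun b => ?_
  exact isClosed_le (by fun_prop) continuous_const

theorem TH_Mc_nice_fin (r : ℝ) (c : E3) :
    volume {x : E3 | ∀ b, |x b - c b| ≤ r / 2} < ⊤ := by
  have : {x : E3 | ∀ b, |x b - c b| ≤ r / 2} ⊆ Metric.closedBall c (Real.sqrt (3 * (r / 2) ^ 2)) := by
    intro x hx
    rw [Metric.mem_closedBall, EuclideanSpace.dist_eq]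
    apply Real.sqrt_le_sqrt
    have : ∀ i ∈ (Finset.univ : Finset (Fin 3)), dist (x i) (c i) ^ 2 ≤ (r / 2) ^ 2 := by
      intro i _
      rw [Real.dist_eq]
      exact pow_le_pow_left₀ (abs_nonneg _) (hx i) 2
    have h := Finset.sum_le_sum this
    simpa using h
  exact (measure_mono this).trans_lt measure_closedBall_lt_top

theorem Mc_nice {k : ℕ} (z : Fin k → ℝ) (hz : ∀ j, 0 ≤ z j) (r : ℝ) (hr : 0 < r) (R : Fin k → E3) :
    Nice (Mc z r R) ∧ ∀ x, 0 ≤ Mc z r R x := by
  have hr3 : 0 < r ^ 3 := by positivity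
  have hcm : ∀ j, Measurable (cc r (R j)) := fun j =>
    Measurable.indicator measurable_const (TH_Mc_nice_meas r (R j))
  have hc0 : ∀ j x, 0 ≤ cc r (R j) x := fun j x =>
    Set.indicator_nonneg (fun _ _ => by positivity) x
  have hc1 : ∀ j x, cc r (R j) x ≤ 1 / r ^ 3 := fun j x =>
    Set.indicator_le_self' (fun _ _ => by positivity) x
  have hci : ∀ j, Integrable (cc r (R j)) := by
    intro j
    have := (integrableOn_const (μ := (volume : Measure E3)) (s := {x : E3 | ∀ b, |x b - R j b| ≤ r / 2})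
      (C := (1 / r ^ 3 : ℝ)) (TH_Mc_nice_fin r (R j)).ne)
    exact (integrable_indicator_iff (TH_Mc_nice_meas r (R j))).2 this
  have hMm : Measurable (Mc z r R) := by
    unfold Mc
    exact Finset.measurable_sum _ fun j _ => (hcm j).const_mul (z j)
  have hM0 : ∀ x, 0 ≤ Mc z r R x := fun x =>
    Finset.sum_nonneg fun j _ => mul_nonneg (hz j) (hc0 j x)
  have hMi : Integrable (Mc z r R) := by
    unfold Mc
    exact integrable_finset_sum _ fun j _ => (hci j).const_mul (z j)
  have hMC : ∀ x, Mc z r R x ≤ ∑ j, z j * (1 / r ^ 3) := fun x =>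
    Finset.sum_le_sum fun j _ => mul_le_mul_of_nonneg_left (hc1 j x) (hz j)
  refine ⟨⟨hMm, hMi, ?_⟩, hM0⟩
  refine Integrable.mono' (hMi.const_mul ((∑ j, z j * (1 / r ^ 3)) ^ (2 / 3 : ℝ))) ?_ ?_
  · exact (hMm.abs.pow_const _).aestronglyMeasurable
  · refine Filter.Eventually.of_forall fun x => ?_
    rw [Real.norm_eq_abs, abs_of_nonneg (Real.rpow_nonneg (abs_nonneg _) _), abs_of_nonneg (hM0 x)]
    rcases eq_or_lt_of_le (hM0 x) with h | h
    · rw [← h, Real.zero_rpow (by norm_num)]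
      simp
    · rw [show (5 / 3 : ℝ) = 2 / 3 + 1 by norm_num, Real.rpow_add h, Real.rpow_one]
      exact mul_le_mul_of_nonneg_right (Real.rpow_le_rpow h.le (hMC x) (by norm_num)) h.le
end


/-! ### smear_cont -/
section
-- ===== given lemmas (leave as they are, do not prove) =====















-- admnice by helper706
theorem TH_smear_cont_admnice (ρ : E3 → ℝ) (hρ : Adm ρ) : Nice ρ := by
  obtain ⟨h1, h2, h3, h4⟩ := hρ
  refine ⟨h1, h3, ?_⟩
  have e : (fun x => |ρ x| ^ (5/3 : ℝ)) = fun x => ρ x ^ (5/3 : ℝ) := by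
    funext x
    rw [abs_of_nonneg (h2 x)]
  rw [e]
  exact h4

-- dd by helper642
theorem TH_smear_cont_dd (g h : E3 → ℝ) :
    ∫ x, ∫ y, g x * h y / ‖x - y‖ = ∫ x, g x * pot h x := by
  congr 1
  funext x
  unfold pot
  rw [← integral_const_mul]
  congr 1
  funext y
  rw [mul_div_assoc]

-- gint by helper9
theorem TH_smear_cont_gint (g h : E3 → ℝ) (hg : Nice g) (hh : Nice h) :
    Integrable (fun x => g x * pot h x) := by
  obtain ⟨B, hB⟩ := nice_bound h hh
  have hm : StronglyMeasurable (pot h) := by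
    unfold pot
    have : StronglyMeasurable (fun p : E3 × E3 => h p.2 / ‖p.1 - p.2‖) := by
      apply Measurable.stronglyMeasurable
      exact (hh.1.comp measurable_snd).div ((measurable_fst.sub measurable_snd).norm)
    exact this.integral_prod_right
  have hbd : ∀ x, ‖pot h x‖ ≤ B := by
    intro x
    refine le_trans ?_ (hB x).2
    unfold pot
    refine le_trans (norm_integral_le_integral_norm _) (le_of_eq ?_)
    congr 1
    funext y
    rw [norm_div, Real.norm_eq_abs, norm_norm]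
  have hi := hg.2.1
  refine Integrable.mono' (hi.norm.const_mul B) (hg.1.aestronglyMeasurable.mul hm.aestronglyMeasurable) ?_
  refine Filter.Eventually.of_forall fun x => ?_
  rw [norm_mul, mul_comm]
  exact mul_le_mul_of_nonneg_right (hbd x) (norm_nonneg _)

-- gsymm by helper675
theorem TH_smear_cont_gsymm (g h : E3 → ℝ) (hg : Nice g) (hh : Nice h) :
    ∫ x, g x * pot h x = ∫ x, h x * pot g x := by
  have hmeas : Measurable (Function.uncurry fun x y : E3 => g x * h y / ‖x - y‖) :=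
    ((hg.1.comp measurable_fst).mul (hh.1.comp measurable_snd)).div
      ((measurable_fst.sub measurable_snd).norm)
  obtain ⟨B, hB⟩ := nice_bound h hh
  have hint : Integrable (Function.uncurry fun x y : E3 => g x * h y / ‖x - y‖)
      ((volume : Measure E3).prod (volume : Measure E3)) := by
    rw [integrable_prod_iff hmeas.aestronglyMeasurable]
    constructor
    · refine Filter.Eventually.of_forall fun x => ?_
      have h1 := (hB x).1.const_mul (g x)
      refine h1.congr (Filter.Eventually.of_forall fun y => ?_)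
      show g x * (h y / ‖x - y‖) = g x * h y / ‖x - y‖
      rw [mul_div_assoc]
    · have h2 : AEStronglyMeasurable (fun x : E3 => ∫ y : E3,
          ‖Function.uncurry (fun x y : E3 => g x * h y / ‖x - y‖) (x, y)‖) volume :=
        hmeas.norm.aestronglyMeasurable.integral_prod_right'
      refine Integrable.mono' (hg.2.1.norm.mul_const B) h2
        (Filter.Eventually.of_forall fun x => ?_)
      have h3 : (∫ y : E3, ‖Function.uncurry (fun x y : E3 => g x * h y / ‖x - y‖) (x, y)‖) =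
          ‖g x‖ * ∫ y : E3, |h y| / ‖x - y‖ := by
        rw [← integral_const_mul]
        refine integral_congr_ae (Filter.Eventually.of_forall fun y => ?_)
        show ‖g x * h y / ‖x - y‖‖ = ‖g x‖ * (|h y| / ‖x - y‖)
        rw [norm_div, norm_mul, norm_norm, Real.norm_eq_abs (h y), mul_div_assoc]
      rw [h3, Real.norm_of_nonneg (mul_nonneg (norm_nonneg _)
        (integral_nonneg fun y => div_nonneg (abs_nonneg _) (norm_nonneg _)))]
      exact mul_le_mul_of_nonneg_left (hB x).2 (norm_nonneg _)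
  rw [← TH_smear_cont_dd g h, ← TH_smear_cont_dd h g, integral_integral_swap hint]
  refine integral_congr_ae (Filter.Eventually.of_forall fun y => ?_)
  refine integral_congr_ae (Filter.Eventually.of_forall fun x => ?_)
  show g x * h y / ‖x - y‖ = h y * g x / ‖y - x‖
  rw [norm_sub_rev, mul_comm (g x)]

-- potlin by helper876
theorem TH_smear_cont_potlin {k : ℕ} (z : Fin k → ℝ) (g : Fin k → E3 → ℝ) (hg : ∀ j, Nice (g j))
    (ρ : E3 → ℝ) (hρ : Nice ρ) (x : E3) :
    pot (fun u => (∑ j, z j * g j u) - ρ u) x = (∑ j, z j * pot (g j) x) - pot ρ x := by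
  have hgi : ∀ j, Integrable (fun y => g j y / ‖x - y‖) := fun j => by
    obtain ⟨B, hB⟩ := nice_bound (g j) (hg j)
    exact (hB x).1
  have hri : Integrable (fun y => ρ y / ‖x - y‖) := by
    obtain ⟨B, hB⟩ := nice_bound ρ hρ
    exact (hB x).1
  have hsum : Integrable (fun y => ∑ j, z j * (g j y / ‖x - y‖)) :=
    integrable_finset_sum _ (fun j _ => (hgi j).const_mul (z j))
  unfold pot
  have h1 : (fun y => ((∑ j, z j * g j y) - ρ y) / ‖x - y‖) =
      fun y => (∑ j, z j * (g j y / ‖x - y‖)) - ρ y / ‖x - y‖ := by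
    funext y
    rw [sub_div, Finset.sum_div]
    congr 1
    exact Finset.sum_congr rfl (fun j _ => by rw [mul_div_assoc])
  rw [h1, integral_sub hsum hri,
    integral_finset_sum _ (fun j _ => (hgi j).const_mul (z j))]
  congr 1
  exact Finset.sum_congr rfl (fun j _ => by rw [integral_const_mul])

-- umod by helper347
theorem TH_smear_cont_umod_young (η a b : ℝ) (hη : 0 < η) (ha : 0 ≤ a) (hb : 0 ≤ b) :
    a * b ≤ η * a ^ (5/3:ℝ) + (1/η) ^ (3/2:ℝ) * b ^ (5/2:ℝ) := by
  have h1 : 0 ≤ η * a ^ (5/3:ℝ) := by positivity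
  have h2 : 0 ≤ (1/η) ^ (3/2:ℝ) * b ^ (5/2:ℝ) := by positivity
  rcases eq_or_lt_of_le ha with h | ha0
  · rw [← h, zero_mul]; rw [← h] at h1; linarith
  rcases eq_or_lt_of_le hb with h | hb0
  · rw [← h, mul_zero]; rw [← h] at h2; linarith
  by_cases hc : b ≤ η * a ^ (2/3:ℝ)
  · have : a * b ≤ η * a ^ (5/3:ℝ) := by
      have e : a ^ (5/3:ℝ) = a * a ^ (2/3:ℝ) := by
        rw [show (5/3:ℝ) = 1 + 2/3 by norm_num, Real.rpow_add ha0, Real.rpow_one]
      rw [e]
      nlinarith
    linarith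
  · push Not at hc
    have h3 : a ^ (2/3:ℝ) ≤ b / η := by rw [le_div_iff₀ hη]; linarith
    have h4 : a ≤ (b/η) ^ (3/2:ℝ) := by
      have := Real.rpow_le_rpow (by positivity) h3 (by norm_num : (0:ℝ) ≤ 3/2)
      rwa [← Real.rpow_mul ha, show (2/3:ℝ) * (3/2) = 1 by norm_num, Real.rpow_one] at this
    have h5 : (b/η) ^ (3/2:ℝ) * b = (1/η) ^ (3/2:ℝ) * b ^ (5/2:ℝ) := by
      rw [show b/η = (1/η) * b by ring, Real.mul_rpow (by positivity) hb,
        show (5/2:ℝ) = 3/2 + 1 by norm_num, Real.rpow_add hb0, Real.rpow_one]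
      ring
    have : a * b ≤ (b/η) ^ (3/2:ℝ) * b := by gcongr
    linarith

theorem TH_smear_cont_umod_int (t : ℝ) (ht : 0 < t) :
    IntegrableOn (fun v : E3 => (1/‖v‖) ^ (5/2:ℝ)) (Metric.ball 0 t) := by
  rw [← integrable_indicator_iff measurableSet_ball]
  have e : (Metric.ball (0:E3) t).indicator (fun v : E3 => (1/‖v‖) ^ (5/2:ℝ)) =
      fun v => (fun r : ℝ => (Set.Iio t).indicator (fun r => (1/r) ^ (5/2:ℝ)) r) ‖v‖ := by
    funext v
    by_cases hv : ‖v‖ < t
    · rw [Set.indicator_of_mem (by simpa using hv)]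
      simp only
      rw [Set.indicator_of_mem (by simpa using hv)]
    · rw [Set.indicator_of_notMem (by simpa using hv)]
      simp only
      rw [Set.indicator_of_notMem (by simpa using hv)]
  rw [e, integrable_fun_norm_addHaar]
  have hd : Module.finrank ℝ E3 = 3 := by simp
  rw [hd]
  have h1 : IntegrableOn (fun r : ℝ => r ^ (-(1/2):ℝ)) (Set.Ioo 0 t) := by
    rw [intervalIntegral.integrableOn_Ioo_rpow_iff ht]; norm_num
  have h2 : IntegrableOn (fun r : ℝ => (Set.Ioo 0 t).indicator (fun r => r ^ (-(1/2):ℝ)) r) (Set.Ioi 0) := by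
    rw [integrableOn_indicator_iff measurableSet_Ioo] <;> try exact measurableSet_Ioi
    exact h1.mono_set (by intro z hz; first | exact hz.1 | exact hz.2 | exact hz)
  refine h2.congr_fun (fun r hr => ?_) measurableSet_Ioi
  have hr0 : 0 < r := hr
  show (Set.Ioo 0 t).indicator (fun r : ℝ => r ^ (-(1/2):ℝ)) r =
    r ^ (3-1) • (Set.Iio t).indicator (fun r : ℝ => (1/r) ^ (5/2:ℝ)) r
  by_cases hrt : r < t
  · rw [Set.indicator_of_mem (show r ∈ Set.Ioo 0 t from ⟨hr0, hrt⟩),
      Set.indicator_of_mem (show r ∈ Set.Iio t from hrt), smul_eq_mul, one_div r, Real.inv_rpow hr0.le,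
      ← Real.rpow_neg hr0.le, ← Real.rpow_natCast, ← Real.rpow_add hr0]
    norm_num
  · rw [Set.indicator_of_notMem (show r ∉ Set.Ioo 0 t from fun h => hrt h.2),
      Set.indicator_of_notMem (show r ∉ Set.Iio t from fun h => hrt h), smul_zero]

theorem TH_smear_cont_umod_small (ε : ℝ) (hε : 0 < ε) : ∃ t : ℝ, 0 < t ∧
    ∫ v in Metric.ball (0:E3) t, (1/‖v‖) ^ (5/2:ℝ) ≤ ε := by
  have h := tendsto_setIntegral_of_antitone (μ := (volume : Measure E3))
    (f := fun v : E3 => (1/‖v‖) ^ (5/2:ℝ)) (s := fun n : ℕ => Metric.ball (0:E3) (1/((n:ℝ)+1)))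
    (fun _ => measurableSet_ball)
    (by
      intro m n hmn
      apply Metric.ball_subset_ball
      exact Nat.one_div_le_one_div hmn)
    ⟨0, TH_smear_cont_umod_int _ (by norm_num)⟩
  have h0 : (⋂ n : ℕ, Metric.ball (0:E3) (1/((n:ℝ)+1))) = {0} := by
    ext v
    simp only [Set.mem_iInter, mem_ball_zero_iff, Set.mem_singleton_iff]
    constructor
    · intro hv
      by_contra hne
      have hpos : 0 < ‖v‖ := norm_pos_iff.2 hne
      obtain ⟨n, hn⟩ := exists_nat_one_div_lt hpos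
      exact absurd (hv n) (not_lt.2 hn.le)
    · rintro rfl n
      rw [norm_zero]; positivity
  rw [h0, setIntegral_measure_zero _ (measure_singleton 0)] at h
  obtain ⟨n, hn⟩ := (h.eventually (ge_mem_nhds hε)).exists
  exact ⟨_, by positivity, hn⟩

theorem TH_smear_cont_umod (ε : ℝ) (hε : 0 < ε) : ∃ δ : ℝ, 0 < δ ∧ ∀ x y : E3, ‖x - y‖ ≤ δ →
    ∀ ρ : E3 → ℝ, Adm ρ →
    |pot ρ x - pot ρ y| ≤ ε * (1 + (∫ u, ρ u) + ∫ u, ρ u ^ (5/3 : ℝ)) := by
  set η : ℝ := ε/4 with hη
  have hη0 : 0 < η := by positivity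
  set C : ℝ := (1/η) ^ (3/2:ℝ) with hC
  have hC0 : 0 < C := by positivity
  obtain ⟨t, ht0, ht⟩ := TH_smear_cont_umod_small (ε/(2*C)) (by positivity)
  set s : ℝ := t/2 with hs
  have hs0 : 0 < s := by positivity
  have hst : 2 * s = t := by rw [hs]; ring
  refine ⟨min s (ε * s^2), lt_min hs0 (by positivity), fun x y hxy ρ hρ => ?_⟩
  obtain ⟨hρm, hρ0, hρi, hρp⟩ := hρ
  have hnice := TH_smear_cont_admnice ρ ⟨hρm, hρ0, hρi, hρp⟩
  obtain ⟨B, hB⟩ := nice_bound ρ hnice
  set ψ : E3 → ℝ := (Metric.ball (0:E3) t).indicator (fun v => (1/‖v‖) ^ (5/2:ℝ)) with hψ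
  have hψi : Integrable ψ := (integrable_indicator_iff measurableSet_ball).2 (TH_smear_cont_umod_int t ht0)
  have hψ0 : ∀ v, 0 ≤ ψ v := by
    intro v
    exact Set.indicator_nonneg (fun v _ => by positivity) v
  have hψint : ∫ v, ψ v ≤ ε/(2*C) := by
    rw [hψ, integral_indicator measurableSet_ball]; exact ht
  have hpx : Integrable (fun u => ψ (x - u)) := hψi.comp_sub_left x
  have hpy : Integrable (fun u => ψ (y - u)) := hψi.comp_sub_left y
  have hpoint : ∀ u, ‖ρ u / ‖x - u‖ - ρ u / ‖y - u‖‖ ≤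
      (ε * ρ u + 2 * η * ρ u ^ (5/3:ℝ)) + (C * ψ (x - u) + C * ψ (y - u)) := by
    intro u
    have hr := hρ0 u
    have hrp : 0 ≤ ρ u ^ (5/3:ℝ) := Real.rpow_nonneg hr _
    have hab : |‖x - u‖ - ‖y - u‖| ≤ ‖x - y‖ := by
      have := abs_norm_sub_norm_le (x - u) (y - u)
      rwa [sub_sub_sub_cancel_right] at this
    have hxs : ‖x - y‖ ≤ s := hxy.trans (min_le_left _ _)
    have hxe : ‖x - y‖ ≤ ε * s^2 := hxy.trans (min_le_right _ _)
    set a := ‖x - u‖ with ha
    set b := ‖y - u‖ with hb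
    have ha0 : 0 ≤ a := norm_nonneg _
    have hb0 : 0 ≤ b := norm_nonneg _
    have hψx := hψ0 (x - u)
    have hψy := hψ0 (y - u)
    rw [Real.norm_eq_abs]
    by_cases hcase : s ≤ a ∧ s ≤ b
    · have ha1 : 0 < a := by linarith [hcase.1]
      have hb1 : 0 < b := by linarith [hcase.2]
      have e : ρ u / a - ρ u / b = ρ u * ((b - a) / (a * b)) := by
        field_simp
      rw [e, abs_mul, abs_of_nonneg hr, abs_div, abs_of_pos (mul_pos ha1 hb1)]
      have h1 : |b - a| / (a * b) ≤ ε := by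
        rw [div_le_iff₀ (mul_pos ha1 hb1), abs_sub_comm]
        refine hab.trans (hxe.trans ?_)
        have : s^2 ≤ a * b := by nlinarith [hcase.1, hcase.2]
        nlinarith
      have h2 : ρ u * (|b - a| / (a * b)) ≤ ρ u * ε := mul_le_mul_of_nonneg_left h1 hr
      have h3 : 0 ≤ 2 * η * ρ u ^ (5/3:ℝ) := by positivity
      have h4 : 0 ≤ C * ψ (x - u) + C * ψ (y - u) := by positivity
      linarith
    · have hab2 := abs_le.1 (hab.trans hxs)
      have hlt : a < t ∧ b < t := by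
        rw [not_and_or] at hcase
        push Not at hcase
        rcases hcase with h | h
        · constructor <;> linarith [hab2.1, hab2.2]
        · constructor <;> linarith [hab2.1, hab2.2]
      have ex : ψ (x - u) = (1/a) ^ (5/2:ℝ) := by
        rw [hψ, Set.indicator_of_mem (by rw [mem_ball_zero_iff]; exact hlt.1)]
      have ey : ψ (y - u) = (1/b) ^ (5/2:ℝ) := by
        rw [hψ, Set.indicator_of_mem (by rw [mem_ball_zero_iff]; exact hlt.2)]
      have y1 := TH_smear_cont_umod_young η (ρ u) (1/a) hη0 hr (by positivity)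
      have y2 := TH_smear_cont_umod_young η (ρ u) (1/b) hη0 hr (by positivity)
      have h1 : |ρ u / a - ρ u / b| ≤ ρ u * (1/a) + ρ u * (1/b) := by
        have p1 : 0 ≤ ρ u / a := by positivity
        have p2 : 0 ≤ ρ u / b := by positivity
        rw [abs_le]
        constructor
        · rw [mul_one_div, mul_one_div]; linarith
        · rw [mul_one_div, mul_one_div]; linarith
      rw [ex, ey]
      have h3 : 0 ≤ ε * ρ u := by positivity
      linarith
  have hint : pot ρ x - pot ρ y = ∫ u, (ρ u / ‖x - u‖ - ρ u / ‖y - u‖) := by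
    unfold pot
    rw [integral_sub (hB x).1 (hB y).1]
  have i1 : Integrable (fun u => ε * ρ u) := hρi.const_mul ε
  have i2 : Integrable (fun u => 2 * η * ρ u ^ (5/3:ℝ)) := hρp.const_mul (2*η)
  have i3 : Integrable (fun u => C * ψ (x - u)) := hpx.const_mul C
  have i4 : Integrable (fun u => C * ψ (y - u)) := hpy.const_mul C
  have i12 : Integrable (fun u => ε * ρ u + 2 * η * ρ u ^ (5/3:ℝ)) := i1.add i2
  have i34 : Integrable (fun u => C * ψ (x - u) + C * ψ (y - u)) := i3.add i4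
  have hgi : Integrable (fun u => (ε * ρ u + 2 * η * ρ u ^ (5/3:ℝ)) + (C * ψ (x - u) + C * ψ (y - u))) :=
    i12.add i34
  have h1 : |pot ρ x - pot ρ y| ≤ ∫ u, ((ε * ρ u + 2 * η * ρ u ^ (5/3:ℝ)) + (C * ψ (x - u) + C * ψ (y - u))) := by
    rw [hint, ← Real.norm_eq_abs]
    exact norm_integral_le_of_norm_le hgi (Filter.Eventually.of_forall hpoint)
  have h2 : ∫ u, ((ε * ρ u + 2 * η * ρ u ^ (5/3:ℝ)) + (C * ψ (x - u) + C * ψ (y - u))) =
      (ε * (∫ u, ρ u) + 2 * η * ∫ u, ρ u ^ (5/3:ℝ)) + (C * (∫ v, ψ v) + C * ∫ v, ψ v) := by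
    rw [integral_add i12 i34, integral_add i1 i2, integral_add i3 i4,
      integral_const_mul, integral_const_mul, integral_const_mul, integral_const_mul,
      integral_sub_left_eq_self ψ volume x, integral_sub_left_eq_self ψ volume y]
  rw [h2] at h1
  have hI0 : 0 ≤ ∫ u, ρ u := integral_nonneg hρ0
  have hP0 : 0 ≤ ∫ u, ρ u ^ (5/3:ℝ) := integral_nonneg (fun u => Real.rpow_nonneg (hρ0 u) _)
  have h3 : C * (∫ v, ψ v) ≤ ε/2 := by
    calc C * (∫ v, ψ v) ≤ C * (ε/(2*C)) := by gcongr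
      _ = ε/2 := by field_simp
  have h4 : 2 * η * (∫ u, ρ u ^ (5/3:ℝ)) ≤ ε * ∫ u, ρ u ^ (5/3:ℝ) := by
    apply mul_le_mul_of_nonneg_right _ hP0
    rw [hη]; linarith
  nlinarith

-- ccnice by helper154
theorem TH_smear_cont_ccnice_meas (r : ℝ) (R : E3) :
    MeasurableSet {x : E3 | ∀ b, |x b - R b| ≤ r / 2} := by
  have h : {x : E3 | ∀ b, |x b - R b| ≤ r / 2} = ⋂ b, {x : E3 | |x b - R b| ≤ r / 2} := by
    ext x; simp
  rw [h]
  exact (isClosed_iInter fun b => isClosed_le (by fun_prop) (by fun_prop)).measurableSet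

theorem TH_smear_cont_ccnice_vol (r : ℝ) (hr : 0 < r) (R : E3) :
    (volume : Measure E3) {x : E3 | ∀ b, |x b - R b| ≤ r / 2} = ENNReal.ofReal (r ^ 3) := by
  have h : {x : E3 | ∀ b, |x b - R b| ≤ r / 2} =
      (WithLp.ofLp : E3 → (Fin 3 → ℝ)) ⁻¹'
        (Set.Icc (fun b => R b - r / 2) (fun b => R b + r / 2)) := by
    ext x
    simp only [Set.mem_setOf_eq, Set.mem_preimage, Set.mem_Icc, Pi.le_def]
    constructor
    · intro hx
      exact ⟨fun b => by have := abs_le.mp (hx b); linarith [this.1],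
        fun b => by have := abs_le.mp (hx b); linarith [this.2]⟩
    · rintro ⟨h1, h2⟩ b
      rw [abs_le]
      constructor <;> linarith [h1 b, h2 b]
  rw [h, (PiLp.volume_preserving_ofLp (Fin 3)).measure_preimage
    measurableSet_Icc.nullMeasurableSet, Real.volume_Icc_pi]
  have e : ∀ b : Fin 3, R b + r / 2 - (R b - r / 2) = r := fun b => by ring
  simp only [e, Finset.prod_const, Finset.card_univ, Fintype.card_fin]
  rw [ENNReal.ofReal_pow hr.le]

theorem TH_smear_cont_ccnice (r : ℝ) (hr : 0 < r) (R : E3) :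
    Nice (cc r R) ∧ (∀ x, 0 ≤ cc r R x) ∧ (∫ x, cc r R x = 1) ∧ ∀ x, cc r R x ≠ 0 → ‖x - R‖ ≤ r := by
  have hS := TH_smear_cont_ccnice_meas r R
  have hV := TH_smear_cont_ccnice_vol r hr R
  have hfin : (volume : Measure E3) {x : E3 | ∀ b, |x b - R b| ≤ r / 2} ≠ ⊤ := by
    rw [hV]; exact ENNReal.ofReal_ne_top
  have hcc : cc r R = Set.indicator {x : E3 | ∀ b, |x b - R b| ≤ r / 2} (fun _ => 1 / r ^ 3) := by
    funext x; rfl
  have hr3 : 0 < r ^ 3 := by positivity
  refine ⟨⟨?_, ?_, ?_⟩, ?_, ?_, ?_⟩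
  · rw [hcc]
    exact measurable_const.indicator hS
  · rw [hcc]
    exact (integrable_indicator_iff hS).mpr (integrableOn_const hfin)
  · have h2 : (fun x => |cc r R x| ^ (5/3 : ℝ)) =
        Set.indicator {x : E3 | ∀ b, |x b - R b| ≤ r / 2} (fun _ => |1 / r ^ 3| ^ (5/3 : ℝ)) := by
      funext x
      rw [hcc]
      by_cases hx : x ∈ {x : E3 | ∀ b, |x b - R b| ≤ r / 2}
      · rw [Set.indicator_of_mem hx, Set.indicator_of_mem hx]
      · rw [Set.indicator_of_notMem hx, Set.indicator_of_notMem hx, abs_zero,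
          Real.zero_rpow (by norm_num)]
    rw [h2]
    exact (integrable_indicator_iff hS).mpr (integrableOn_const hfin)
  · intro x
    rw [hcc]
    exact Set.indicator_nonneg (fun _ _ => by positivity) x
  · rw [hcc, integral_indicator_const _ hS, Measure.real, hV, ENNReal.toReal_ofReal hr3.le,
      smul_eq_mul, mul_one_div, div_self hr3.ne']
  · intro x hx
    have hmem : x ∈ {x : E3 | ∀ b, |x b - R b| ≤ r / 2} := by
      by_contra hn
      exact hx (by rw [hcc]; exact Set.indicator_of_notMem hn _)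
    rw [EuclideanSpace.norm_eq, Real.sqrt_le_left hr.le]
    have hb : ∀ b : Fin 3, ‖(x - R) b‖ ^ 2 ≤ (r / 2) ^ 2 := by
      intro b
      have h1 : ‖(x - R) b‖ ≤ r / 2 := by
        rw [Real.norm_eq_abs]
        exact hmem b
      exact pow_le_pow_left₀ (norm_nonneg _) h1 2
    have hs : ∑ b : Fin 3, ‖(x - R) b‖ ^ 2 ≤ ∑ b : Fin 3, (r / 2) ^ 2 :=
      Finset.sum_le_sum fun b _ => hb b
    refine hs.trans ?_
    simp only [Finset.sum_const, Finset.card_univ, Fintype.card_fin, nsmul_eq_mul]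
    nlinarith [sq_nonneg r]

-- ccself by helper44
theorem TH_smear_cont_ccself_sh (r : ℝ) (R x : E3) : cc r R x = cc r 0 (x - R) := by
  unfold cc
  by_cases h : ∀ b, |x b - R b| ≤ r / 2
  · rw [Set.indicator_of_mem (show x ∈ {x : E3 | ∀ b, |x b - R b| ≤ r / 2} from h),
      Set.indicator_of_mem]
    intro b
    have := h b
    simpa using this
  · rw [Set.indicator_of_notMem (show x ∉ {x : E3 | ∀ b, |x b - R b| ≤ r / 2} from h),
      Set.indicator_of_notMem]
    intro h'
    apply h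
    intro b
    have := h' b
    simpa using this

theorem TH_smear_cont_ccself_pot (r : ℝ) (R x : E3) : pot (cc r R) x = pot (cc r 0) (x - R) := by
  unfold pot
  rw [← integral_sub_right_eq_self (fun y => cc r 0 y / ‖(x - R) - y‖) R]
  refine integral_congr_ae (Filter.Eventually.of_forall fun y => ?_)
  simp only
  rw [TH_smear_cont_ccself_sh r R y, sub_sub_sub_cancel_right]

theorem TH_smear_cont_ccself (r : ℝ) (R : E3) :
    ∫ x, cc r R x * pot (cc r R) x = selfr r := by
  unfold selfr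
  rw [TH_smear_cont_dd, ← integral_sub_right_eq_self (fun x => cc r 0 x * pot (cc r 0) x) R]
  refine integral_congr_ae (Filter.Eventually.of_forall fun x => ?_)
  simp only
  rw [TH_smear_cont_ccself_sh r R x, TH_smear_cont_ccself_pot r R x]

-- coer by helper530
theorem TH_smear_cont_coer {k : ℕ} (z : Fin k → ℝ) (hz : ∀ i, 0 ≤ z i) (Q : Fin k → E3) (lam : ℝ) :
    ∃ C : ℝ, ∀ ρ, Adm ρ → ∫ x, ρ x = lam → 3/10 * (∫ x, ρ x ^ (5/3 : ℝ)) - C ≤ xi z Q ρ := by
  obtain ⟨C', hC'⟩ := en_bdd (fun i => 2 * z i) (fun i => mul_nonneg (by norm_num) (hz i)) Q lam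
  refine ⟨(∑ i, ∑ j ∈ Finset.Ioi i, z i * z j / ‖Q i - Q j‖) - C' / 2, ?_⟩
  intro ρ hρ hlam
  have h1 : C' ≤ xi (fun i => 2 * z i) Q ρ := hC' ⟨ρ, hρ, hlam, rfl⟩
  have hD := coulomb_pd ρ (TH_smear_cont_admnice ρ hρ)
  have hN : ∫ x, (∑ j, (2 * z j) / ‖x - Q j‖) * ρ x = 2 * ∫ x, (∑ j, z j / ‖x - Q j‖) * ρ x := by
    rw [← integral_const_mul]
    congr 1
    funext x
    rw [← mul_assoc, Finset.mul_sum]
    congr 1
    refine Finset.sum_congr rfl fun j _ => ?_
    ring
  have hP : ∑ i, ∑ j ∈ Finset.Ioi i, (2 * z i) * (2 * z j) / ‖Q i - Q j‖ =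
      4 * ∑ i, ∑ j ∈ Finset.Ioi i, z i * z j / ‖Q i - Q j‖ := by
    rw [Finset.mul_sum]
    refine Finset.sum_congr rfl fun i _ => ?_
    rw [Finset.mul_sum]
    refine Finset.sum_congr rfl fun j _ => ?_
    ring
  unfold xi at h1 ⊢
  simp only at h1
  rw [hN, hP] at h1
  linarith

-- pair by helper116
theorem TH_smear_cont_pair_avg (g φ : E3 → ℝ) (c ε : ℝ) (hg : Integrable g) (hg0 : ∀ x, 0 ≤ g x)
    (hg1 : ∫ x, g x = 1) (hφ : Integrable (fun x => g x * φ x))
    (h : ∀ x, g x ≠ 0 → |φ x - c| ≤ ε) : |(∫ x, g x * φ x) - c| ≤ ε := by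
  have h1 : (∫ x, g x * φ x) - c = ∫ x, (g x * φ x - g x * c) := by
    rw [integral_sub hφ (hg.mul_const c), integral_mul_const, hg1, one_mul]
  rw [h1]
  have h2 : ‖∫ x, (g x * φ x - g x * c)‖ ≤ ∫ x, g x * ε := by
    apply norm_integral_le_of_norm_le (hg.mul_const ε)
    refine Filter.Eventually.of_forall (fun x => ?_)
    rw [← mul_sub, norm_mul, Real.norm_eq_abs, Real.norm_eq_abs, abs_of_nonneg (hg0 x)]
    by_cases hx : g x = 0
    · rw [hx]; simp
    · exact mul_le_mul_of_nonneg_left (h x hx) (hg0 x)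
  rw [integral_mul_const, hg1, one_mul, Real.norm_eq_abs] at h2
  exact h2

theorem TH_smear_cont_pair_near (p q : E3) (hpq : p ≠ q) (ε : ℝ) (hε : 0 < ε) :
    ∃ δ : ℝ, 0 < δ ∧ ∀ x y : E3, ‖x - p‖ < δ → ‖y - q‖ < δ → |1 / ‖x - y‖ - 1 / ‖p - q‖| ≤ ε := by
  have hc : ContinuousAt (fun z : E3 × E3 => 1 / ‖z.1 - z.2‖) (p, q) := by
    apply ContinuousAt.div continuousAt_const
    · exact (continuous_fst.sub continuous_snd).norm.continuousAt
    · simpa [sub_eq_zero] using hpq
  obtain ⟨δ, hδ, h⟩ := Metric.continuousAt_iff.mp hc ε hε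
  refine ⟨δ, hδ, fun x y hx hy => ?_⟩
  have h1 : dist (x, y) (p, q) < δ := by
    rw [Prod.dist_eq]
    exact max_lt (by simpa [dist_eq_norm] using hx) (by simpa [dist_eq_norm] using hy)
  have h2 := h h1
  rw [Real.dist_eq] at h2
  exact h2.le


theorem TH_smear_cont_pair {k : ℕ} (Q : Fin k → E3) (hQ : Function.Injective Q) (ε : ℝ) (hε : 0 < ε) :
    ∃ r0 > 0, ∀ r, 0 < r → r < r0 → ∀ Q' : Fin k → E3, (∀ j, ‖Q' j - Q j‖ ≤ r0) →
      ∀ i j, i ≠ j → |(∫ x, cc r (Q' i) x * pot (cc r (Q' j)) x) - 1 / ‖Q i - Q j‖| ≤ ε := by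
  have h1 : ∀ i j : Fin k, ∀ᶠ δ in 𝓝[>] (0:ℝ), i ≠ j → ∀ x y : E3, ‖x - Q i‖ ≤ 2 * δ → ‖y - Q j‖ ≤ 2 * δ →
      |1 / ‖x - y‖ - 1 / ‖Q i - Q j‖| ≤ ε := by
    intro i j
    by_cases hij : i = j
    · exact Filter.Eventually.of_forall (fun δ h => absurd hij h)
    · obtain ⟨δ', hδ', h⟩ := TH_smear_cont_pair_near (Q i) (Q j) (fun h => hij (hQ h)) ε hε
      have hm : Ioo (0:ℝ) (δ' / 2) ∈ 𝓝[>] (0:ℝ) := Ioo_mem_nhdsGT (by linarith)
      filter_upwards [hm] with δ hδ _ x y hx hy
      exact h x y (by linarith [hδ.2]) (by linarith [hδ.2])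
  have h2 : ∀ᶠ δ in 𝓝[>] (0:ℝ), ∀ i j : Fin k, i ≠ j → ∀ x y : E3, ‖x - Q i‖ ≤ 2 * δ → ‖y - Q j‖ ≤ 2 * δ →
      |1 / ‖x - y‖ - 1 / ‖Q i - Q j‖| ≤ ε :=
    Filter.eventually_all.2 (fun i => Filter.eventually_all.2 (fun j => h1 i j))
  obtain ⟨r0, hr0, hr0pos⟩ := (h2.and self_mem_nhdsWithin).exists
  have hr0p : 0 < r0 := hr0pos
  refine ⟨r0, hr0p, fun r hr hrr Q' hQ' i j hij => ?_⟩
  obtain ⟨hni, hi0, hi1, hisup⟩ := TH_smear_cont_ccnice r hr (Q' i)
  obtain ⟨hnj, hj0, hj1, hjsup⟩ := TH_smear_cont_ccnice r hr (Q' j)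
  have near : ∀ (l : Fin k) (x : E3), ‖x - Q' l‖ ≤ r → ‖x - Q l‖ ≤ 2 * r0 := by
    intro l x hx
    have e : x - Q l = (x - Q' l) + (Q' l - Q l) := by abel
    rw [e]
    calc ‖(x - Q' l) + (Q' l - Q l)‖ ≤ ‖x - Q' l‖ + ‖Q' l - Q l‖ := norm_add_le _ _
      _ ≤ 2 * r0 := by linarith [hQ' l]
  refine TH_smear_cont_pair_avg (cc r (Q' i)) (pot (cc r (Q' j))) (1 / ‖Q i - Q j‖) ε hni.2.1 hi0 hi1
    (TH_smear_cont_gint _ _ hni hnj) (fun x hx => ?_)
  have hx' := near i x (hisup x hx)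
  obtain ⟨B, hB⟩ := nice_bound _ hnj
  have hpot : pot (cc r (Q' j)) x = ∫ y, cc r (Q' j) y * (1 / ‖x - y‖) := by
    unfold pot
    congr 1; funext y; rw [mul_one_div]
  rw [hpot]
  refine TH_smear_cont_pair_avg (cc r (Q' j)) (fun y => 1 / ‖x - y‖) (1 / ‖Q i - Q j‖) ε hnj.2.1 hj0 hj1 ?_ (fun y hy => ?_)
  · refine (hB x).1.congr (Filter.Eventually.of_forall (fun y => ?_))
    show cc r (Q' j) y / ‖x - y‖ = cc r (Q' j) y * (1 / ‖x - y‖)
    rw [mul_one_div]
  · exact hr0 i j hij x y hx' (near j y (hjsup y hy))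

-- vint by helper714
theorem TH_smear_cont_vint {k : ℕ} (z : Fin k → ℝ) (Q : Fin k → E3) (ρ : E3 → ℝ) (hρ : Nice ρ) :
    ∫ x, (∑ j, z j / ‖x - Q j‖) * ρ x = ∑ j, z j * pot ρ (Q j) := by
  obtain ⟨B, hB⟩ := nice_bound ρ hρ
  have h1 : ∀ x, (∑ j, z j / ‖x - Q j‖) * ρ x = ∑ j, z j * (ρ x / ‖Q j - x‖) := by
    intro x
    rw [Finset.sum_mul]
    refine Finset.sum_congr rfl fun j _ => ?_
    rw [norm_sub_rev x (Q j)]
    ring
  simp_rw [h1]
  rw [MeasureTheory.integral_finsetSum]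
  · refine Finset.sum_congr rfl fun j _ => ?_
    rw [MeasureTheory.integral_const_mul]
    rfl
  · intro j _
    exact (hB (Q j)).1.const_mul (z j)

-- expand by helper817
theorem TH_smear_cont_expand_dbl {k : ℕ} (a : Fin k → Fin k → ℝ) (ha : ∀ i j, a i j = a j i) :
    ∑ i, ∑ j, a i j = (∑ i, a i i) + 2 * ∑ i, ∑ j ∈ Finset.Ioi i, a i j := by
  have h1 : ∀ i, ∑ j ∈ Finset.Ioi i, a i j = ∑ j, if i < j then a i j else 0 := by
    intro i
    rw [← Finset.sum_filter]
    congr 1
    ext j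
    simp
  have h2 : ∑ i, ∑ j, a i j = ∑ i, ∑ j, ((if i = j then a i j else 0) +
      (if i < j then a i j else 0) + (if j < i then a i j else 0)) := by
    refine Finset.sum_congr rfl fun i _ => Finset.sum_congr rfl fun j _ => ?_
    rcases lt_trichotomy i j with h | h | h
    · simp [h, h.ne, not_lt.mpr h.le]
    · simp [h]
    · simp [h, h.ne', not_lt.mpr h.le]
  have h3 : ∑ i, ∑ j, (if j < i then a i j else 0) = ∑ i, ∑ j, (if i < j then a i j else 0) := by
    rw [Finset.sum_comm]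
    refine Finset.sum_congr rfl fun i _ => Finset.sum_congr rfl fun j _ => ?_
    rw [ha j i]
  have h4 : ∑ i, ∑ j, (if i = j then a i j else 0) = ∑ i, a i i := by simp
  rw [h2]
  simp only [Finset.sum_add_distrib, h1]
  rw [h3, h4]
  ring

theorem TH_smear_cont_expand {k : ℕ} (z : Fin k → ℝ) (r : ℝ) (hr : 0 < r) (Q' : Fin k → E3)
    (ρ : E3 → ℝ) (hρ : Nice ρ) :
    xs (Mc z r Q') ρ = 3/5 * (∫ x, ρ x ^ (5/3 : ℝ)) + (∑ j, z j ^ 2) / 2 * selfr r
      - (∑ j, z j * ∫ x, cc r (Q' j) x * pot ρ x) + 1/2 * (∫ x, ρ x * pot ρ x)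
      + ∑ i, ∑ j ∈ Finset.Ioi i, z i * z j * ∫ x, cc r (Q' i) x * pot (cc r (Q' j)) x := by
  have hc : ∀ j, Nice (cc r (Q' j)) := fun j => (TH_smear_cont_ccnice r hr (Q' j)).1
  set B : Fin k → Fin k → ℝ := fun i j => ∫ x, cc r (Q' i) x * pot (cc r (Q' j)) x with hB
  have hBsymm : ∀ i j, B i j = B j i := fun i j => TH_smear_cont_gsymm _ _ (hc i) (hc j)
  have hBself : ∀ i, B i i = selfr r := fun i => TH_smear_cont_ccself r (Q' i)
  have hcr : ∀ j, ∫ x, ρ x * pot (cc r (Q' j)) x = ∫ x, cc r (Q' j) x * pot ρ x := fun j =>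
    TH_smear_cont_gsymm _ _ hρ (hc j)
  have hdd : (∫ x, ∫ y, (Mc z r Q' x - ρ x) * (Mc z r Q' y - ρ y) / ‖x - y‖) =
      ∫ x, (Mc z r Q' x - ρ x) * pot (fun u => Mc z r Q' u - ρ u) x :=
    TH_smear_cont_dd (fun u => Mc z r Q' u - ρ u) (fun u => Mc z r Q' u - ρ u)
  have hpot : ∀ x, pot (fun u => Mc z r Q' u - ρ u) x =
      (∑ j, z j * pot (cc r (Q' j)) x) - pot ρ x := fun x =>
    TH_smear_cont_potlin z (fun j => cc r (Q' j)) hc ρ hρ x
  have i1 : ∀ i j, Integrable (fun x => z i * z j * (cc r (Q' i) x * pot (cc r (Q' j)) x)) :=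
    fun i j => (TH_smear_cont_gint _ _ (hc i) (hc j)).const_mul _
  have i2 : ∀ i, Integrable (fun x => z i * (cc r (Q' i) x * pot ρ x)) := fun i =>
    (TH_smear_cont_gint _ _ (hc i) hρ).const_mul _
  have i3 : ∀ i, Integrable (fun x => z i * (ρ x * pot (cc r (Q' i)) x)) := fun i =>
    (TH_smear_cont_gint _ _ hρ (hc i)).const_mul _
  have i4 : Integrable (fun x => ρ x * pot ρ x) := TH_smear_cont_gint _ _ hρ hρ
  have j1 : Integrable (fun x => ∑ i, ∑ j, z i * z j * (cc r (Q' i) x * pot (cc r (Q' j)) x)) :=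
    integrable_finsetSum _ fun i _ => integrable_finsetSum _ fun j _ => i1 i j
  have j2 : Integrable (fun x => ∑ i, z i * (cc r (Q' i) x * pot ρ x)) :=
    integrable_finsetSum _ fun i _ => i2 i
  have j3 : Integrable (fun x => ∑ i, z i * (ρ x * pot (cc r (Q' i)) x)) :=
    integrable_finsetSum _ fun i _ => i3 i
  have hexp : (∫ x, (Mc z r Q' x - ρ x) * pot (fun u => Mc z r Q' u - ρ u) x) =
      (∑ i, ∑ j, z i * z j * B i j) - (∑ i, z i * ∫ x, cc r (Q' i) x * pot ρ x)
        - (∑ i, z i * ∫ x, ρ x * pot (cc r (Q' i)) x) + ∫ x, ρ x * pot ρ x := by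
    have e1 : (∑ i, ∑ j, z i * z j * B i j) =
        ∫ x, ∑ i, ∑ j, z i * z j * (cc r (Q' i) x * pot (cc r (Q' j)) x) := by
      rw [integral_finsetSum _ fun i _ => integrable_finsetSum _ fun j _ => i1 i j]
      refine Finset.sum_congr rfl fun i _ => ?_
      rw [integral_finsetSum _ fun j _ => i1 i j]
      refine Finset.sum_congr rfl fun j _ => ?_
      rw [integral_const_mul]
    have e2 : (∑ i, z i * ∫ x, cc r (Q' i) x * pot ρ x) =
        ∫ x, ∑ i, z i * (cc r (Q' i) x * pot ρ x) := by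
      rw [integral_finsetSum _ fun i _ => i2 i]
      refine Finset.sum_congr rfl fun i _ => ?_
      rw [integral_const_mul]
    have e3 : (∑ i, z i * ∫ x, ρ x * pot (cc r (Q' i)) x) =
        ∫ x, ∑ i, z i * (ρ x * pot (cc r (Q' i)) x) := by
      rw [integral_finsetSum _ fun i _ => i3 i]
      refine Finset.sum_congr rfl fun i _ => ?_
      rw [integral_const_mul]
    have j12 : Integrable (fun x => (∑ i, ∑ j, z i * z j * (cc r (Q' i) x * pot (cc r (Q' j)) x)) -
        ∑ i, z i * (cc r (Q' i) x * pot ρ x)) := j1.sub j2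
    have j123 : Integrable (fun x => ((∑ i, ∑ j, z i * z j * (cc r (Q' i) x * pot (cc r (Q' j)) x)) -
        ∑ i, z i * (cc r (Q' i) x * pot ρ x)) - ∑ i, z i * (ρ x * pot (cc r (Q' i)) x)) := j12.sub j3
    rw [e1, e2, e3, ← integral_sub j1 j2, ← integral_sub j12 j3, ← integral_add j123 i4]
    refine integral_congr_ae (Filter.Eventually.of_forall fun x => ?_)
    show (Mc z r Q' x - ρ x) * pot (fun u => Mc z r Q' u - ρ u) x = _
    rw [hpot x]
    simp only [Mc]
    have f1 : ∑ i, ∑ j, z i * z j * (cc r (Q' i) x * pot (cc r (Q' j)) x) =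
        (∑ i, z i * cc r (Q' i) x) * (∑ j, z j * pot (cc r (Q' j)) x) := by
      rw [Finset.sum_mul_sum]
      refine Finset.sum_congr rfl fun i _ => Finset.sum_congr rfl fun j _ => ?_
      ring
    have f2 : ∑ i, z i * (cc r (Q' i) x * pot ρ x) = (∑ i, z i * cc r (Q' i) x) * pot ρ x := by
      rw [Finset.sum_mul]
      refine Finset.sum_congr rfl fun i _ => ?_
      ring
    have f3 : ∑ i, z i * (ρ x * pot (cc r (Q' i)) x) = ρ x * (∑ i, z i * pot (cc r (Q' i)) x) := by
      rw [Finset.mul_sum]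
      refine Finset.sum_congr rfl fun i _ => ?_
      ring
    rw [f1, f2, f3]
    ring
  have hsum : ∑ i, ∑ j, z i * z j * B i j = (∑ j, z j ^ 2) * selfr r +
      2 * ∑ i, ∑ j ∈ Finset.Ioi i, z i * z j * B i j := by
    rw [TH_smear_cont_expand_dbl (fun i j => z i * z j * B i j) (fun i j => by
      simp only [hBsymm i j]; ring)]
    congr 1
    rw [Finset.sum_mul]
    refine Finset.sum_congr rfl fun i _ => ?_
    simp only [hBself]
    ring
  have hcr' : (∑ i, z i * ∫ x, ρ x * pot (cc r (Q' i)) x) =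
      ∑ i, z i * ∫ x, cc r (Q' i) x * pot ρ x := by
    refine Finset.sum_congr rfl fun i _ => ?_
    rw [hcr]
  unfold xs
  rw [hdd, hexp, hsum, hcr']
  ring

-- avg by helper802
theorem TH_smear_cont_avg (ε : ℝ) (hε : 0 < ε) : ∃ r0 : ℝ, 0 < r0 ∧ ∀ r, 0 < r → r < r0 →
    ∀ R R' : E3, ‖R' - R‖ ≤ r0 → ∀ ρ : E3 → ℝ, Adm ρ →
    |(∫ x, cc r R' x * pot ρ x) - pot ρ R| ≤ ε * (1 + (∫ u, ρ u) + ∫ u, ρ u ^ (5/3 : ℝ)) := by
  obtain ⟨δ, hδ, hmod⟩ := TH_smear_cont_umod ε hε
  refine ⟨δ / 2, by positivity, ?_⟩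
  intro r hr hrδ R R' hRR ρ hρ
  obtain ⟨hn, h0, h1, hs⟩ := TH_smear_cont_ccnice r hr R'
  have hi1 : Integrable (fun x => cc r R' x * pot ρ x) :=
    TH_smear_cont_gint _ _ hn (TH_smear_cont_admnice ρ hρ)
  have hi0 : Integrable (fun x => cc r R' x) := hn.2.1
  have hi2 : Integrable (fun x => cc r R' x * pot ρ R) := hi0.mul_const _
  have e1 : (∫ x, cc r R' x * pot ρ x) - pot ρ R
      = ∫ x, (cc r R' x * pot ρ x - cc r R' x * pot ρ R) := by
    rw [integral_sub hi1 hi2, integral_mul_const, h1, one_mul]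
  have hi3 : Integrable (fun x => cc r R' x * (ε * (1 + (∫ u, ρ u) + ∫ u, ρ u ^ (5/3 : ℝ)))) :=
    hi0.mul_const _
  have e2 : ∫ x, cc r R' x * (ε * (1 + (∫ u, ρ u) + ∫ u, ρ u ^ (5/3 : ℝ)))
      = ε * (1 + (∫ u, ρ u) + ∫ u, ρ u ^ (5/3 : ℝ)) := by
    rw [integral_mul_const, h1, one_mul]
  rw [e1, ← Real.norm_eq_abs, ← e2]
  apply norm_integral_le_of_norm_le hi3
  apply Filter.Eventually.of_forall
  intro x
  rw [← mul_sub, Real.norm_eq_abs, abs_mul, abs_of_nonneg (h0 x)]
  by_cases hx : cc r R' x = 0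
  · rw [hx]; simp
  · apply mul_le_mul_of_nonneg_left _ (h0 x)
    apply hmod x R _ ρ hρ
    have h2 := hs x hx
    calc ‖x - R‖ = ‖(x - R') + (R' - R)‖ := by congr 1; abel
      _ ≤ ‖x - R'‖ + ‖R' - R‖ := norm_add_le _ _
      _ ≤ δ := by linarith

-- delta by helper186
theorem TH_smear_cont_delta {k : ℕ} (z : Fin k → ℝ) (hz : ∀ j, 0 ≤ z j) (Q : Fin k → E3)
    (hQ : Function.Injective Q) (ε : ℝ) (hε : 0 < ε) :
    ∃ r0 > 0, ∀ r, 0 < r → r < r0 → ∀ Q' : Fin k → E3, (∀ j, ‖Q' j - Q j‖ ≤ r0) →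
      ∀ ρ : E3 → ℝ, Adm ρ →
      |xs (Mc z r Q') ρ - (∑ j, z j ^ 2) / 2 * selfr r - xi z Q ρ| ≤
        ε * (1 + (∫ u, ρ u) + ∫ u, ρ u ^ (5/3 : ℝ)) := by
  set S1 : ℝ := ∑ j, z j with hS1
  set S2 : ℝ := ∑ i, ∑ j ∈ Finset.Ioi i, z i * z j with hS2
  have hS1n : 0 ≤ S1 := Finset.sum_nonneg fun j _ => hz j
  have hS2n : 0 ≤ S2 := Finset.sum_nonneg fun i _ => Finset.sum_nonneg fun j _ => mul_nonneg (hz i) (hz j)
  obtain ⟨r1, hr1, h1⟩ := TH_smear_cont_avg (ε / (2 * (1 + S1))) (by positivity)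
  obtain ⟨r2, hr2, h2⟩ := TH_smear_cont_pair Q hQ (ε / (2 * (1 + S2))) (by positivity)
  refine ⟨min r1 r2, lt_min hr1 hr2, fun r hr hrr Q' hQ' ρ hρ => ?_⟩
  have hN := TH_smear_cont_admnice ρ hρ
  set G : ℝ := 1 + (∫ u, ρ u) + ∫ u, ρ u ^ (5/3 : ℝ) with hG
  have hi1 : 0 ≤ ∫ u, ρ u := integral_nonneg hρ.2.1
  have hi2 : 0 ≤ ∫ u, ρ u ^ (5/3 : ℝ) := integral_nonneg fun u => Real.rpow_nonneg (hρ.2.1 u) _
  have hG1 : 1 ≤ G := by rw [hG]; linarith
  have hA : ∀ j, |(∫ x, cc r (Q' j) x * pot ρ x) - pot ρ (Q j)| ≤ ε / (2 * (1 + S1)) * G := fun j =>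
    h1 r hr (lt_of_lt_of_le hrr (min_le_left _ _)) (Q j) (Q' j) ((hQ' j).trans (min_le_left _ _)) ρ hρ
  have hB := h2 r hr (lt_of_lt_of_le hrr (min_le_right _ _)) Q' (fun j => (hQ' j).trans (min_le_right _ _))
  have hkey : xs (Mc z r Q') ρ - (∑ j, z j ^ 2) / 2 * selfr r - xi z Q ρ =
      (∑ i, ∑ j ∈ Finset.Ioi i, z i * z j *
        ((∫ x, cc r (Q' i) x * pot (cc r (Q' j)) x) - 1 / ‖Q i - Q j‖)) -
      ∑ j, z j * ((∫ x, cc r (Q' j) x * pot ρ x) - pot ρ (Q j)) := by
    rw [TH_smear_cont_expand z r hr Q' ρ hN]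
    unfold xi
    rw [TH_smear_cont_vint z Q ρ hN, TH_smear_cont_dd ρ ρ]
    have e1 : ∑ j, z j * ((∫ x, cc r (Q' j) x * pot ρ x) - pot ρ (Q j)) =
        (∑ j, z j * ∫ x, cc r (Q' j) x * pot ρ x) - ∑ j, z j * pot ρ (Q j) := by
      rw [← Finset.sum_sub_distrib]
      exact Finset.sum_congr rfl fun j _ => by ring
    have e2 : (∑ i, ∑ j ∈ Finset.Ioi i, z i * z j *
        ((∫ x, cc r (Q' i) x * pot (cc r (Q' j)) x) - 1 / ‖Q i - Q j‖)) =
        (∑ i, ∑ j ∈ Finset.Ioi i, z i * z j * ∫ x, cc r (Q' i) x * pot (cc r (Q' j)) x) -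
        ∑ i, ∑ j ∈ Finset.Ioi i, z i * z j / ‖Q i - Q j‖ := by
      rw [← Finset.sum_sub_distrib]
      apply Finset.sum_congr rfl
      intro i _
      rw [← Finset.sum_sub_distrib]
      exact Finset.sum_congr rfl fun j _ => by ring
    rw [e1, e2]
    ring
  have b1 : |∑ j, z j * ((∫ x, cc r (Q' j) x * pot ρ x) - pot ρ (Q j))| ≤ ε / 2 * G := by
    calc |∑ j, z j * ((∫ x, cc r (Q' j) x * pot ρ x) - pot ρ (Q j))|
        ≤ ∑ j, |z j * ((∫ x, cc r (Q' j) x * pot ρ x) - pot ρ (Q j))| := Finset.abs_sum_le_sum_abs _ _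
      _ ≤ ∑ j, z j * (ε / (2 * (1 + S1)) * G) := by
          apply Finset.sum_le_sum
          intro j _
          rw [abs_mul, abs_of_nonneg (hz j)]
          exact mul_le_mul_of_nonneg_left (hA j) (hz j)
      _ = S1 * (ε / (2 * (1 + S1)) * G) := by rw [← Finset.sum_mul]
      _ ≤ ε / 2 * G := by
          have : S1 * (ε / (2 * (1 + S1)) * G) = (S1 / (1 + S1)) * (ε / 2 * G) := by
            field_simp
          rw [this]
          apply mul_le_of_le_one_left (by positivity)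
          rw [div_le_one (by positivity)]
          linarith
  have b2 : |∑ i, ∑ j ∈ Finset.Ioi i, z i * z j *
        ((∫ x, cc r (Q' i) x * pot (cc r (Q' j)) x) - 1 / ‖Q i - Q j‖)| ≤ ε / 2 := by
    calc |∑ i, ∑ j ∈ Finset.Ioi i, z i * z j *
        ((∫ x, cc r (Q' i) x * pot (cc r (Q' j)) x) - 1 / ‖Q i - Q j‖)|
        ≤ ∑ i, ∑ j ∈ Finset.Ioi i, |z i * z j *
        ((∫ x, cc r (Q' i) x * pot (cc r (Q' j)) x) - 1 / ‖Q i - Q j‖)| :=
          (Finset.abs_sum_le_sum_abs _ _).trans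
            (Finset.sum_le_sum fun i _ => Finset.abs_sum_le_sum_abs _ _)
      _ ≤ ∑ i, ∑ j ∈ Finset.Ioi i, z i * z j * (ε / (2 * (1 + S2))) := by
          apply Finset.sum_le_sum
          intro i _
          apply Finset.sum_le_sum
          intro j hj
          rw [abs_mul, abs_of_nonneg (mul_nonneg (hz i) (hz j))]
          exact mul_le_mul_of_nonneg_left (hB i j (Finset.mem_Ioi.1 hj).ne) (mul_nonneg (hz i) (hz j))
      _ = S2 * (ε / (2 * (1 + S2))) := by
          rw [hS2, Finset.sum_mul]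
          exact Finset.sum_congr rfl fun i _ => by rw [Finset.sum_mul]
      _ ≤ ε / 2 := by
          have : S2 * (ε / (2 * (1 + S2))) = (S2 / (1 + S2)) * (ε / 2) := by
            field_simp
          rw [this]
          apply mul_le_of_le_one_left (by positivity)
          rw [div_le_one (by positivity)]
          linarith
  rw [hkey]
  have b3 : ε / 2 ≤ ε / 2 * G := le_mul_of_one_le_right (by positivity) hG1
  calc _ ≤ _ := abs_sub _ _
    _ ≤ ε / 2 + ε / 2 * G := add_le_add b2 b1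
    _ ≤ ε * G := by linarith

-- final by helper304
/-- smeared nuclei at nearby positions: the energy minus the self energies converges -/
theorem smear_cont {k : ℕ} (z : Fin k → ℝ) (hz : ∀ j, 0 ≤ z j) (Q : Fin k → E3)
    (hQ : Function.Injective Q) (lam : ℝ) (hlam : 0 ≤ lam) (ε : ℝ) (hε : 0 < ε) :
    ∃ r0 > 0, ∀ r, 0 < r → r < r0 → ∀ Q' : Fin k → E3, (∀ j, ‖Q' j - Q j‖ ≤ r0) →
      |es (Mc z r Q') lam - (∑ j, z j ^ 2) / 2 * selfr r - en z Q lam| ≤ ε := by
  obtain ⟨C, hC⟩ := TH_smear_cont_coer z hz Q lam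
  obtain ⟨e, he⟩ : ∃ e, e = en z Q lam := ⟨_, rfl⟩
  have hDen : 0 < 10/3 * (|e| + |C|) + 1 + lam + 1 := by positivity
  obtain ⟨e1, he1⟩ : ∃ e1, e1 = min (3/20 : ℝ) (ε / (10/3 * (|e| + |C|) + 1 + lam + 1)) :=
    ⟨_, rfl⟩
  have he1pos : 0 < e1 := by
    rw [he1]
    exact lt_min (by norm_num) (div_pos hε hDen)
  have he1le : e1 ≤ 3/20 := by
    rw [he1]
    exact min_le_left _ _
  have he1ε : e1 * (10/3 * (|e| + |C|) + 1 + lam + 1) ≤ ε := by
    rw [← le_div_iff₀ hDen, he1]
    exact min_le_right _ _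
  obtain ⟨r0, hr0, hr⟩ := TH_smear_cont_delta z hz Q hQ e1 he1pos
  refine ⟨r0, hr0, fun r hr1 hr2 Q' hQ' => ?_⟩
  obtain ⟨S, hS⟩ : ∃ S, S = (∑ j, z j ^ 2) / 2 * selfr r := ⟨_, rfl⟩
  have hD := hr r hr1 hr2 Q' hQ'
  rw [← hS] at hD ⊢
  rw [← he]
  have hCabs : C ≤ |C| := le_abs_self C
  have key : ∀ ρ, Adm ρ → ∫ x, ρ x = lam →
      |xs (Mc z r Q') ρ - S - xi z Q ρ| ≤
        10/3 * e1 * xi z Q ρ + (e1 * (1 + lam) + 10/3 * e1 * |C|) := by
    intro ρ hρ hm
    have h1 := hD ρ hρ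
    have h2 := hC ρ hρ hm
    rw [hm] at h1
    have h3 : (∫ x, ρ x ^ (5/3 : ℝ)) ≤ 10/3 * (xi z Q ρ + |C|) := by linarith
    have h4 : e1 * (1 + lam + ∫ x, ρ x ^ (5/3 : ℝ)) ≤
        e1 * (1 + lam + 10/3 * (xi z Q ρ + |C|)) :=
      mul_le_mul_of_nonneg_left (by linarith) he1pos.le
    calc _ ≤ _ := h1
      _ ≤ _ := h4
      _ = _ := by ring
  have hge : ∀ ρ, Adm ρ → ∫ x, ρ x = lam → e ≤ xi z Q ρ := by
    intro ρ hρ hm
    rw [he]
    exact csInf_le (en_bdd z hz Q lam) ⟨ρ, hρ, hm, rfl⟩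
  obtain ⟨K, hK⟩ : ∃ K, K = e1 * (1 + lam) + 10/3 * e1 * |C| := ⟨_, rfl⟩
  rw [← hK] at key
  have hlow : ∀ ρ, Adm ρ → ∫ x, ρ x = lam →
      S + (1 - 10/3 * e1) * e - K ≤ xs (Mc z r Q') ρ := by
    intro ρ hρ hm
    have h1 := (abs_le.1 (key ρ hρ hm)).1
    have h2 : (1 - 10/3 * e1) * e ≤ (1 - 10/3 * e1) * xi z Q ρ :=
      mul_le_mul_of_nonneg_left (hge ρ hρ hm) (by linarith)
    linarith
  obtain ⟨E0, ρ0, hρ0, hm0, -⟩ := en_nonempty z Q lam hlam
  have hbdd : BddBelow {E | ∃ ρ, Adm ρ ∧ ∫ x, ρ x = lam ∧ xs (Mc z r Q') ρ = E} := by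
    refine ⟨S + (1 - 10/3 * e1) * e - K, ?_⟩
    rintro E ⟨ρ, hρ, hm, rfl⟩
    exact hlow ρ hρ hm
  have hL : S + (1 - 10/3 * e1) * e - K ≤ es (Mc z r Q') lam := by
    unfold es
    refine le_csInf (s := {E | ∃ ρ, Adm ρ ∧ ∫ x, ρ x = lam ∧ xs (Mc z r Q') ρ = E})
      ⟨_, ρ0, hρ0, hm0, rfl⟩ ?_
    rintro E ⟨ρ, hρ, hm, rfl⟩
    exact hlow ρ hρ hm
  have hpos : 0 < 1 + 10/3 * e1 := by linarith
  have hU : es (Mc z r Q') lam - S - K ≤ (1 + 10/3 * e1) * e := by
    have h1 : (es (Mc z r Q') lam - S - K) / (1 + 10/3 * e1) ≤ e := by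
      rw [he]
      unfold en
      refine le_csInf (s := {E | ∃ ρ, Adm ρ ∧ ∫ x, ρ x = lam ∧ xi z Q ρ = E})
        ⟨_, ρ0, hρ0, hm0, rfl⟩ ?_
      rintro E ⟨ρ, hρ, hm, rfl⟩
      rw [div_le_iff₀ hpos]
      have h2 : es (Mc z r Q') lam ≤ xs (Mc z r Q') ρ := csInf_le hbdd ⟨ρ, hρ, hm, rfl⟩
      have h3 := (abs_le.1 (key ρ hρ hm)).2
      linarith
    rw [div_le_iff₀ hpos] at h1
    linarith
  have hfin : 10/3 * e1 * |e| + K ≤ ε := by
    rw [hK]
    have : e1 * (10/3 * (|e| + |C|) + 1 + lam) ≤ e1 * (10/3 * (|e| + |C|) + 1 + lam + 1) :=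
      mul_le_mul_of_nonneg_left (by linarith) he1pos.le
    have h5 : 10/3 * e1 * |e| + (e1 * (1 + lam) + 10/3 * e1 * |C|) =
      e1 * (10/3 * (|e| + |C|) + 1 + lam) := by ring
    rw [h5]
    exact this.trans he1ε
  have ha1 : 10/3 * e1 * e ≤ 10/3 * e1 * |e| :=
    mul_le_mul_of_nonneg_left (le_abs_self e) (by positivity)
  have ha2 : -(10/3 * e1 * |e|) ≤ 10/3 * e1 * e := by
    have : 10/3 * e1 * (-|e|) ≤ 10/3 * e1 * e :=
      mul_le_mul_of_nonneg_left (neg_abs_le e) (by positivity)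
    linarith
  rw [abs_le]
  constructor <;> linarith
end


/-! ### contraction -/
section
-- ===== given lemmas (leave as they are, do not prove) =====


















-- helpers
theorem TH_contraction_norm (v : E3) (t : ℝ) (ht : 0 ≤ t) (h : ∀ b, |v b| ≤ t) : ‖v‖ ≤ 2 * t := by
  rw [EuclideanSpace.norm_eq]
  apply Real.sqrt_le_iff.2
  refine ⟨by positivity, ?_⟩
  rw [Fin.sum_univ_three]
  have h0 := h 0
  have h1 := h 1
  have h2 := h 2
  rw [Real.norm_eq_abs, Real.norm_eq_abs, Real.norm_eq_abs]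
  nlinarith [abs_nonneg (v 0), abs_nonneg (v 1), abs_nonneg (v 2), sq_nonneg t]

theorem TH_contraction_meas (η : ℝ) (u : (Fin 3 → ℤ) →₀ ℝ) : Measurable (stepf η u) := by
  have h1 : Measurable (cellOf η) := by
    refine measurable_pi_lambda _ fun b => ?_
    have : Measurable (fun x : E3 => x b / η) := by
      have : Continuous (fun x : E3 => x b) := by fun_prop
      exact this.measurable.div_const η
    exact Int.measurable_floor.comp this
  have h2 : Measurable (fun d : Fin 3 → ℤ => u d) := Measurable.of_discrete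
  exact h2.comp h1

theorem TH_contraction_bd (u : (Fin 3 → ℤ) →₀ ℝ) (hu : ∀ x, 0 ≤ u x) :
    ∃ B, ∀ x, u x ≤ B := by
  refine ⟨∑ x ∈ u.support, u x, fun x => ?_⟩
  by_cases hx : x ∈ u.support
  · exact Finset.single_le_sum (fun y _ => hu y) hx
  · rw [Finsupp.notMem_support_iff.1 hx]
    exact Finset.sum_nonneg fun y _ => hu y

theorem TH_contraction_supp (η : ℝ) (hη : 0 < η) (u : (Fin 3 → ℤ) →₀ ℝ) :
    ∃ r : ℝ, ∀ x : E3, r < ‖x‖ → stepf η u x = 0 := by
  classical
  set W : ℕ := ∑ d ∈ u.support, ∑ b, (d b).natAbs with hW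
  refine ⟨2 * ((W + 1) * η), fun x hx => ?_⟩
  by_contra hne
  have hmem : cellOf η x ∈ u.support := Finsupp.mem_support_iff.2 hne
  refine absurd (TH_contraction_norm x ((W + 1) * η) (by positivity) fun b => ?_) (not_le.2 hx)
  have h1 : (cellOf η x b).natAbs ≤ W := by
    calc (cellOf η x b).natAbs ≤ ∑ b, (cellOf η x b).natAbs :=
          Finset.single_le_sum (f := fun b => (cellOf η x b).natAbs) (fun _ _ => Nat.zero_le _) (Finset.mem_univ b)
      _ ≤ W := Finset.single_le_sum (f := fun d : Fin 3 → ℤ => ∑ b, (d b).natAbs) (fun _ _ => Nat.zero_le _) hmem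
  have h2 : |((cellOf η x b : ℤ) : ℝ)| ≤ W := by
    have : (((cellOf η x b).natAbs : ℕ) : ℝ) = |((cellOf η x b : ℤ) : ℝ)| := by
      rw [Nat.cast_natAbs, Int.cast_abs]
    rw [← this]; exact_mod_cast h1
  have h3 : ((cellOf η x b : ℤ) : ℝ) ≤ x b / η := Int.floor_le _
  have h4 : x b / η < ((cellOf η x b : ℤ) : ℝ) + 1 := Int.lt_floor_add_one _
  obtain ⟨h5, h6⟩ := abs_le.1 h2
  have h7 : x b = (x b / η) * η := by field_simp
  rw [h7, abs_mul, abs_of_pos hη]
  refine mul_le_mul_of_nonneg_right ?_ hη.le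
  rw [abs_le]; constructor <;> linarith

theorem TH_contraction_ctr (η θ : ℝ) (hη : 0 < η) (h0 : 0 < θ) (h1 : θ ≤ 1) (x : E3) :
    ‖ctr η (fun b => ⌊θ * ((⌊x b / η⌋ : ℤ) : ℝ) + 1 / 2⌋) - θ • x‖ ≤ 2 * η := by
  refine TH_contraction_norm _ η hη.le fun b => ?_
  have e1 : (ctr η (fun b => ⌊θ * ((⌊x b / η⌋ : ℤ) : ℝ) + 1 / 2⌋) - θ • x) b =
      (((⌊θ * ((⌊x b / η⌋ : ℤ) : ℝ) + 1 / 2⌋ : ℤ) : ℝ) + 1 / 2) * η - θ * x b := by
    simp [ctr]
  rw [e1]
  set F : ℝ := ((⌊x b / η⌋ : ℤ) : ℝ) with hF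
  set G : ℝ := ((⌊θ * F + 1 / 2⌋ : ℤ) : ℝ) with hG
  have a1 : F ≤ x b / η := Int.floor_le _
  have a2 : x b / η < F + 1 := Int.lt_floor_add_one _
  have a3 : G ≤ θ * F + 1 / 2 := Int.floor_le _
  have a4 : θ * F + 1 / 2 < G + 1 := Int.lt_floor_add_one _
  have h7 : x b = (x b / η) * η := by field_simp
  set X := x b / η with hX
  rw [h7]
  have e2 : (G + 1 / 2) * η - θ * (X * η) = (G + 1 / 2 - θ * X) * η := by ring
  rw [e2, abs_mul, abs_of_pos hη]
  have b1 : θ * F ≤ θ * X := mul_le_mul_of_nonneg_left a1 h0.le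
  have b2 : θ * X ≤ θ * F + θ := by nlinarith
  have b3 : |G + 1 / 2 - θ * X| ≤ 1 := by rw [abs_le]; constructor <;> linarith
  calc |G + 1 / 2 - θ * X| * η ≤ 1 * η := mul_le_mul_of_nonneg_right b3 hη.le
    _ = η := one_mul _

theorem TH_contraction_ctr1 (η : ℝ) (hη : 0 < η) (x : E3) :
    ‖ctr η (fun b => ⌊x b / η⌋) - x‖ ≤ 2 * η := by
  refine TH_contraction_norm _ η hη.le fun b => ?_
  have e1 : (ctr η (fun b => ⌊x b / η⌋) - x) b = (((⌊x b / η⌋ : ℤ) : ℝ) + 1 / 2) * η - x b := by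
    simp [ctr]
  rw [e1]
  set F : ℝ := ((⌊x b / η⌋ : ℤ) : ℝ) with hF
  have a1 : F ≤ x b / η := Int.floor_le _
  have a2 : x b / η < F + 1 := Int.lt_floor_add_one _
  have h7 : x b = (x b / η) * η := by field_simp
  set X := x b / η with hX
  rw [h7]
  have e2 : (F + 1 / 2) * η - (X * η) = (F + 1 / 2 - X) * η := by ring
  rw [e2, abs_mul, abs_of_pos hη]
  have b3 : |F + 1 / 2 - X| ≤ 1 := by rw [abs_le]; constructor <;> linarith
  calc |F + 1 / 2 - X| * η ≤ 1 * η := mul_le_mul_of_nonneg_right b3 hη.le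
    _ = η := one_mul _

theorem TH_contraction_Gd (κ μ lam : ℝ) (M M' f : E3 → ℝ) (h : M =ᵐ[volume] M') :
    Gd κ μ lam M f = Gd κ μ lam M' f := by
  have : ∀ x, ∫ y, f x * M y * Yk κ (x - y) = ∫ y, f x * M' y * Yk κ (x - y) := by
    intro x
    refine integral_congr_ae ?_
    filter_upwards [h] with y hy
    rw [hy]
  unfold Gd
  simp only [this]

-- ===== TARGET =====
theorem contraction {k : ℕ} (z : Fin k → ℝ) (hz : ∀ j, 0 ≤ z j) (R : Fin k → E3)
    (hR : Function.Injective R) (lam : ℝ) (hlam : 0 ≤ lam) (θ : ℝ) (h0 : 0 < θ) (h1 : θ ≤ 1) :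
    en z R lam ≤ en z (fun j => θ • R j) lam := by
  classical
  refine le_of_forall_pos_le_add fun ε' hε' => ?_
  set ε := ε' / 5 with hεdef
  have hε : 0 < ε := by positivity
  have hinj : Function.Injective (fun j => θ • R j) := fun a b hab =>
    hR (smul_right_injective E3 h0.ne' hab)
  obtain ⟨r1, hr1, H1⟩ := smear_cont z hz R hR lam hlam ε hε
  obtain ⟨r2, hr2, H2⟩ := smear_cont z hz (fun j => θ • R j) hinj lam hlam ε hε
  set r0 := min r1 r2 with hr0
  have hr0p : 0 < r0 := lt_min hr1 hr2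
  set r := r0 / 2 with hr
  have hrp : 0 < r := by positivity
  have hrr1 : r < r1 := lt_of_lt_of_le (by rw [hr]; linarith) (min_le_left r1 r2)
  have hrr2 : r < r2 := lt_of_lt_of_le (by rw [hr]; linarith) (min_le_right r1 r2)
  obtain ⟨hMn, hM0⟩ := Mc_nice z hz r hrp R
  obtain ⟨ρ, hρ, μ, hμ, hint, hsd⟩ := strong_dual (Mc z r R) hMn hM0 lam hlam ε hε
  obtain ⟨κ, hκ, f, hfc, hf0, ⟨r3, hfr⟩, hdl⟩ := dual_lim (Mc z r R) hMn hM0 lam ρ hρ μ hμ hint ε hε
  obtain ⟨hh0, hgrid⟩ := grid κ μ lam hκ hμ f hfc hf0 r3 hfr z hz R r hrp ε hε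
  set h := max hh0 2 with hh
  obtain ⟨u, hu0, hu⟩ := hgrid h (le_max_left _ _)
  set η := r / (2 * (h : ℝ) + 1) with hη
  have hηp : 0 < η := by positivity
  have hh2 : (2 : ℝ) ≤ (h : ℝ) := by exact_mod_cast (le_max_right hh0 2)
  have hη8 : 2 * η ≤ r0 := by
    have : η ≤ r := by
      rw [hη]; exact div_le_self hrp.le (by linarith)
    rw [hr] at this; linarith
  set y : Fin k → Fin 3 → ℤ := fun j b => ⌊R j b / η⌋ with hy
  have hyR : ∀ j, ‖ctr η (y j) - R j‖ ≤ 4 * η := fun j =>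
    (TH_contraction_ctr1 η hηp (R j)).trans (by linarith)
  have hG1 := hu y hyR
  set W : ℕ := ∑ j, ∑ b, (y j b).natAbs with hW
  have hyW : ∀ j b, |y j b| ≤ (W : ℤ) := by
    intro j b
    have h1 : (y j b).natAbs ≤ W := by
      calc (y j b).natAbs ≤ ∑ b, (y j b).natAbs :=
            Finset.single_le_sum (f := fun b => (y j b).natAbs) (fun _ _ => Nat.zero_le _) (Finset.mem_univ b)
        _ ≤ W := Finset.single_le_sum (f := fun j => ∑ b, (y j b).natAbs) (fun _ _ => Nat.zero_le _) (Finset.mem_univ j)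
    rw [Int.abs_eq_natAbs]; exact_mod_cast h1
  set c : ℤ → ℤ := fun s => ⌊θ * (s : ℝ) + 1 / 2⌋ with hc
  have hcm : ∀ s, c s ≤ c (s + 1) ∧ c (s + 1) ≤ c s + 1 := by
    intro s
    constructor
    · apply Int.floor_le_floor
      push_cast; nlinarith
    · have : c s + 1 = ⌊θ * (s : ℝ) + 1 / 2 + 1⌋ := by rw [Int.floor_add_one]
      rw [this]
      apply Int.floor_le_floor
      push_cast; nlinarith
  obtain ⟨u', hu'0, hcs⟩ := cs_lattice η κ μ lam hηp hκ hμ W c hcm u hu0
  have hG2 := hcs k z hz h y hyW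
  set Q' : Fin k → E3 := fun j => ctr η (fun b => c (y j b)) with hQ'
  obtain ⟨hMn', hM0'⟩ := Mc_nice z hz r hrp Q'
  have hG3 : Gd κ μ lam (Mcube z η h (fun j b => c (y j b))) (stepf η u') =
      Gd κ μ lam (Mc z r Q') (stepf η u') :=
    TH_contraction_Gd κ μ lam _ _ _ (cube_eq z r hrp h (fun j b => c (y j b)))
  obtain ⟨B, hB⟩ := TH_contraction_bd u' hu'0
  obtain ⟨r4, hr4⟩ := TH_contraction_supp η hηp u'
  have hG4 : Gd κ μ lam (Mc z r Q') (stepf η u') ≤ es (Mc z r Q') lam := by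
    refine le_csInf ?_ ?_
    · obtain ⟨E, ρ', hρ', hm', -⟩ := en_nonempty z R lam hlam
      exact ⟨_, ρ', hρ', hm', rfl⟩
    · rintro E ⟨ρ', hρ', hm', rfl⟩
      exact ar_side κ μ lam hκ hμ (Mc z r Q') hMn' (stepf η u') (TH_contraction_meas η u')
        (fun x => hu'0 _) B (fun x => hB _) r4 hr4 ρ' hρ' hm'
  have hH1 := H1 r hrp hrr1 R (fun j => by rw [sub_self, norm_zero]; exact hr1.le)
  have hH2 := H2 r hrp hrr2 Q' (fun j =>
    ((TH_contraction_ctr η θ hηp h0 h1 (R j)).trans hη8).trans (min_le_right _ _))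
  have k1 := (abs_le.1 hH1).1
  have k2 := (abs_le.1 hH2).2
  have : ε' = 5 * ε := by rw [hεdef]; ring
  rw [this]
  rw [hG3] at hG2
  linarith
end


/-! ### pressure_all -/
section
-- ===== given lemmas (leave as they are, do not prove) =====


-- ===== TARGET =====
theorem pressure_all {k : ℕ} (z : Fin k → ℝ) (hz : ∀ i, 0 ≤ z i) (R : Fin k → E3)
    (hR : Function.Injective R) (lam : ℝ) (hlam : 0 ≤ lam) :
    AntitoneOn (fun l : ℝ => en z (fun i => l • R i) lam) (Ioi 0) ∧
    ∀ l : ℝ, 0 < l → ∀ d : ℝ, HasDerivAt (fun l : ℝ => en z (fun i => l • R i) lam) d l →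
      0 ≤ -(1 / (3 * l ^ 2)) * d := by
  have hanti : AntitoneOn (fun l : ℝ => en z (fun i => l • R i) lam) (Ioi 0) := by
    intro a ha b hb hab
    have ha' : 0 < a := ha
    have hb' : 0 < b := hb
    have hinj : Function.Injective (fun i => b • R i) := by
      intro i j hij
      exact hR (smul_right_injective E3 hb'.ne' hij)
    have h := contraction z hz (fun i => b • R i) hinj lam hlam (a / b) (div_pos ha' hb')
      ((div_le_one hb').mpr hab)
    have h2 : (fun j => (a / b) • (b • R j)) = fun j => a • R j := by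
      funext j
      rw [smul_smul, div_mul_cancel₀ a hb'.ne']
    rw [h2] at h
    exact h
  refine ⟨hanti, ?_⟩
  intro l hl d hd
  have hd0 : d ≤ 0 := by
    have hacc : AccPt l (𝓟 (Ioi (0:ℝ))) := by
      have : Ioi (0:ℝ) ∈ 𝓝 l := Ioi_mem_nhds hl
      rw [accPt_iff_frequently_nhdsNE]
      apply Filter.Eventually.frequently
      exact eventually_nhdsWithin_of_eventually_nhds this
    exact (hd.hasDerivWithinAt (s := Ioi (0:ℝ))).nonpos_of_antitoneOn hacc hanti
  have h3 : 0 < 1 / (3 * l ^ 2) := by positivity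
  nlinarith [mul_nonneg h3.le (neg_nonneg.mpr hd0)]
end

end Pool.Agent.Helper557.TFP
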